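import Mathlib

-- part Pool.Agent.P.MP_862e21_al.Defs
section

namespace Pool.Agent.P.MP_862e21_al

open Finset Pointwise

variable {F : Type*} [Field F] [DecidableEq F]

/-- the six values of the cross ratio -/
def Lam (l : F) : Finset F := {l, l⁻¹, 1 - l, (1 - l)⁻¹, (l - 1) / l, l / (l - 1)}

/-- single chart: no rainbow solution -/
def SC (l : F) (B C D : Finset F) : Prop :=
  ∀ s ∈ Lam l, ∀ y ∈ B, ∀ z ∈ C, (1 - s) * y + s * z ∉ D

structure Trio (l : F) (B C D : Finset F) : Prop where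
  l0 : l ≠ 0
  l1 : l ≠ 1
  sc : SC l B C D
  dBC : Disjoint B C
  dBD : Disjoint B D
  dCD : Disjoint C D

/-- closed configuration: the fourth point of every rainbow triple is again in the union -/
structure Cl (l : F) (A B C : Finset F) : Prop where
  l0 : l ≠ 0
  l1 : l ≠ 1
  nA : A.Nonempty
  nB : B.Nonempty
  nC : C.Nonempty
  dAB : Disjoint A B
  dAC : Disjoint A C
  dBC : Disjoint B C
  cl : ∀ s ∈ Lam l, ∀ x ∈ A, ∀ y ∈ B, ∀ z ∈ C,
    ∃ p ∈ A ∪ B ∪ C, (p - y) * (z - x) = s * (z - y) * (p - x)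

/-- the set seen in the chart that sends x to infinity -/
def ch (x : F) (S : Finset F) : Finset F := S.image (fun y => (y - x)⁻¹)

def comb (s : F) (Y C : Finset F) : Finset F := (1 - s) • Y + s • C

def psi (C : Finset F) (h : F) : ℕ := (C.filter (fun x => x + h ∉ C)).card

def Good (K : ℕ) (C : Finset F) (m : F) : Prop := (C - m • C).card ≤ K * C.card

def Ratio (M : Finset F) (r : F) : Prop :=
  ∃ x ∈ M, ∃ y ∈ M, ∃ z ∈ M, ∃ w ∈ M, z ≠ w ∧ r = (x - y) / (z - w)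

def Irr (F : Type*) [Field F] : Prop :=
  ∀ (H : AddSubgroup F) (t : F), t ≠ 0 → t ≠ 1 → (∀ h ∈ H, t * h ∈ H) → H = ⊥ ∨ H = ⊤

/-- the multiplicative criterion in closure form -/
def Gen (l : F) : Prop :=
  ∀ S : Set F, (∀ x ∈ S, -x ∈ S) → (∀ x ∈ S, l * x ∈ S) → (∀ x ∈ S, (1 - l) * x ∈ S) →
    (∃ x ∈ S, x ≠ 0) → ∀ y : F, y ≠ 0 → y ∈ S

/-- level sets of a size function -/
def lev [Fintype F] (ν : F → ℕ) (m : ℕ) : Finset F := univ.filter (fun h => ν h ≤ m)

/-- a size function with linear growth that is almost invariant under multiplication by `t` -/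
structure Filt [Fintype F] (ν : F → ℕ) (t : F) (J z : ℕ) : Prop where
  zero : ν 0 = 0
  neg : ∀ h, ν (-h) = ν h
  add : ∀ h k, ν (h + k) ≤ ν h + ν k
  mul : ∀ h, ν h < J → ν (t * h) ≤ ν h + 1
  inv : ∀ h, ν h < J → ν (t⁻¹ * h) ≤ ν h + 1
  up : ∀ m, 1 ≤ m → m ≤ J → (lev ν m).card ≤ 48 * m * z
  low : ∀ m, 1 ≤ m → m ≤ J → m * z ≤ 2 * (lev ν m).card
  one : z ≤ (lev ν 1).card
  two : 2 ≤ z

/-- an integer coordinate on the level set `J` -/
structure Coord (ν : F → ℕ) (J : ℕ) (φ : F → ℤ) : Prop where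
  inj : Function.Injective φ
  add : ∀ h k, ν h ≤ J → ν k ≤ J → ν (h + k) ≤ J → φ (h + k) = φ h + φ k

/-- Fourier coefficient of a finite set -/
noncomputable def fh (e : AddChar F ℂ) (S : Finset F) (ξ : F) : ℂ := ∑ y ∈ S, e (ξ * y)

open Classical in
/-- annihilator of an additive subgroup -/
noncomputable def perp [Fintype F] (e : AddChar F ℂ) (K : AddSubgroup F) : Finset F :=
  univ.filter (fun ξ => ∀ h ∈ K, e (ξ * h) = 1)

/-- Fourier energy on the annihilator -/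
noncomputable def en [Fintype F] (e : AddChar F ℂ) (K : AddSubgroup F) (S : Finset F) : ℝ :=
  ∑ ξ ∈ perp e K, ‖fh e S ξ‖ ^ 2

theorem mem_lev [Fintype F] {ν : F → ℕ} {m : ℕ} {h : F} : h ∈ lev ν m ↔ ν h ≤ m := by
  simp [lev]

theorem mem_Lam {l s : F} : s ∈ Lam l ↔
    s = l ∨ s = l⁻¹ ∨ s = 1 - l ∨ s = (1 - l)⁻¹ ∨ s = (l - 1) / l ∨ s = l / (l - 1) := by
  simp [Lam]

theorem self_mem_Lam (l : F) : l ∈ Lam l := by simp [Lam]

theorem lam_ne_zero {l s : F} (h0 : l ≠ 0) (h1 : l ≠ 1) (hs : s ∈ Lam l) : s ≠ 0 := by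
  have h2 : 1 - l ≠ 0 := sub_ne_zero.mpr h1.symm
  have h3 : l - 1 ≠ 0 := sub_ne_zero.mpr h1
  rcases mem_Lam.mp hs with h | h | h | h | h | h <;> subst h <;> simp [h0, h2, h3]

theorem lam_one_sub {l s : F} (h0 : l ≠ 0) (h1 : l ≠ 1) (hs : s ∈ Lam l) : 1 - s ∈ Lam l := by
  have h2 : 1 - l ≠ 0 := sub_ne_zero.mpr h1.symm
  have h3 : l - 1 ≠ 0 := sub_ne_zero.mpr h1
  rw [mem_Lam]
  rcases mem_Lam.mp hs with h | h | h | h | h | h <;> subst h
  · right; right; left; rfl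
  · right; right; right; right; left; field_simp
  · left; ring
  · right; right; right; right; right; field_simp; ring
  · right; left; field_simp; ring
  · right; right; right; left; field_simp; ring

theorem lam_inv {l s : F} (h0 : l ≠ 0) (h1 : l ≠ 1) (hs : s ∈ Lam l) : s⁻¹ ∈ Lam l := by
  rw [mem_Lam]
  rcases mem_Lam.mp hs with h | h | h | h | h | h <;> subst h <;> simp

theorem lam_ne_one {l s : F} (h0 : l ≠ 0) (h1 : l ≠ 1) (hs : s ∈ Lam l) : s ≠ 1 := by
  intro h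
  have := lam_ne_zero h0 h1 (lam_one_sub h0 h1 hs)
  exact this (by rw [h]; ring)

theorem lam_sub {l s : F} (h0 : l ≠ 0) (h1 : l ≠ 1) (hs : s ∈ Lam l) : Lam s ⊆ Lam l := by
  have s0 := lam_ne_zero h0 h1 hs
  have s1 : s - 1 ≠ 0 := sub_ne_zero.mpr (lam_ne_one h0 h1 hs)
  intro t ht
  rcases mem_Lam.mp ht with h | h | h | h | h | h <;> subst h
  · exact hs
  · exact lam_inv h0 h1 hs
  · exact lam_one_sub h0 h1 hs
  · exact lam_inv h0 h1 (lam_one_sub h0 h1 hs)
  · have : (s - 1) / s = 1 - s⁻¹ := by field_simp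
    rw [this]; exact lam_one_sub h0 h1 (lam_inv h0 h1 hs)
  · have : s / (s - 1) = (1 - s⁻¹)⁻¹ := by field_simp
    rw [this]; exact lam_inv h0 h1 (lam_one_sub h0 h1 (lam_inv h0 h1 hs))

theorem Cl.of_mem {l s : F} {A B C : Finset F} (h : Cl l A B C) (hs : s ∈ Lam l) :
    Cl s A B C :=
  ⟨lam_ne_zero h.l0 h.l1 hs, lam_ne_one h.l0 h.l1 hs, h.nA, h.nB, h.nC, h.dAB, h.dAC, h.dBC,
    fun t ht => h.cl t (lam_sub h.l0 h.l1 hs ht)⟩

theorem Cl.swap12 {l : F} {A B C : Finset F} (h : Cl l A B C) : Cl l B A C := by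
  refine ⟨h.l0, h.l1, h.nB, h.nA, h.nC, h.dAB.symm, h.dBC, h.dAC, ?_⟩
  intro s hs y hy x hx z hz
  obtain ⟨p, hp, e⟩ := h.cl s⁻¹ (lam_inv h.l0 h.l1 hs) x hx y hy z hz
  refine ⟨p, by rwa [union_comm B A], ?_⟩
  have s0 := lam_ne_zero h.l0 h.l1 hs
  have : s * ((p - y) * (z - x)) = s * (s⁻¹ * (z - y) * (p - x)) := by rw [e]
  rw [← mul_assoc, ← mul_assoc, ← mul_assoc, mul_inv_cancel₀ s0] at this
  linear_combination -this

theorem Cl.swap23 {l : F} {A B C : Finset F} (h : Cl l A B C) : Cl l A C B := by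
  refine ⟨h.l0, h.l1, h.nA, h.nC, h.nB, h.dAC, h.dAB, h.dBC.symm, ?_⟩
  intro s hs x hx z hz y hy
  obtain ⟨p, hp, e⟩ := h.cl (1 - s) (lam_one_sub h.l0 h.l1 hs) x hx y hy z hz
  refine ⟨p, by rwa [union_right_comm A C B], ?_⟩
  linear_combination e

theorem Trio.swap12 {l : F} {B C D : Finset F} (h : Trio l B C D) : Trio l C B D := by
  refine ⟨h.l0, h.l1, ?_, h.dBC.symm, h.dCD, h.dBD⟩
  intro s hs z hz y hy
  have := h.sc (1 - s) (lam_one_sub h.l0 h.l1 hs) y hy z hz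
  have e : (1 - (1 - s)) * y + (1 - s) * z = (1 - s) * z + s * y := by ring
  rwa [e] at this

theorem Trio.swap23 {l : F} {B C D : Finset F} (h : Trio l B C D) : Trio l B D C := by
  refine ⟨h.l0, h.l1, ?_, h.dBD, h.dBC, h.dCD.symm⟩
  intro s hs y hy w hw hz
  have s0 := lam_ne_zero h.l0 h.l1 hs
  have := h.sc s⁻¹ (lam_inv h.l0 h.l1 hs) y hy _ hz
  have e : (1 - s⁻¹) * y + s⁻¹ * ((1 - s) * y + s * w) = w := by field_simp; ring
  rw [e] at this
  exact this hw

theorem mem_comb {s : F} {Y C : Finset F} {x : F} :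
    x ∈ comb s Y C ↔ ∃ y ∈ Y, ∃ z ∈ C, (1 - s) * y + s * z = x := by
  simp only [comb, mem_add, mem_smul_finset, smul_eq_mul]
  constructor
  · rintro ⟨_, ⟨y, hy, rfl⟩, _, ⟨z, hz, rfl⟩, rfl⟩
    exact ⟨y, hy, z, hz, rfl⟩
  · rintro ⟨y, hy, z, hz, rfl⟩
    exact ⟨_, ⟨y, hy, rfl⟩, _, ⟨z, hz, rfl⟩, rfl⟩

theorem card_ch (x : F) (S : Finset F) : (ch x S).card = S.card := by
  apply card_image_of_injective
  intro a b h
  simpa using h

theorem mem_ch {x : F} {S : Finset F} {v : F} : v ∈ ch x S ↔ ∃ y ∈ S, (y - x)⁻¹ = v := by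
  simp [ch]

/-- the size of a combination is at most the size of the complement of the third set -/
theorem Trio.comb_le [Fintype F] {l : F} {B C D : Finset F} (h : Trio l B C D) {u : ℕ}
    (hu : Fintype.card F = B.card + C.card + D.card + u) {s : F} (hs : s ∈ Lam l) :
    (comb s B C).card ≤ B.card + C.card + u := by
  have h1 : comb s B C ⊆ Dᶜ := by
    intro x hx
    obtain ⟨y, hy, z, hz, rfl⟩ := mem_comb.mp hx
    exact mem_compl.mpr (h.sc s hs y hy z hz)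
  have h2 := card_le_card h1
  rw [card_compl] at h2
  omega

/-- passing to the chart at a point of A -/
theorem Cl.chart [Fintype F] {l : F} {A B C : Finset F} (h : Cl l A B C) {x : F} (hx : x ∈ A) :
    ∃ D : Finset F, Trio l (ch x B) (ch x C) D ∧
      Fintype.card F = B.card + C.card + D.card + (A.card - 1) := by
  have inj : Function.Injective (fun y : F => (y - x)⁻¹) := by
    intro a b h; simpa using h
  refine ⟨(ch x (A.erase x ∪ B ∪ C))ᶜ, ⟨h.l0, h.l1, ?_, ?_, ?_, ?_⟩, ?_⟩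
  · intro s hs v hv w hw
    obtain ⟨y, hy, rfl⟩ := mem_ch.mp hv
    obtain ⟨z, hz, rfl⟩ := mem_ch.mp hw
    obtain ⟨p, hp, e⟩ := h.cl s hs x hx y hy z hz
    have yx : y - x ≠ 0 := sub_ne_zero.mpr (fun e => disjoint_left.mp h.dAB hx (e ▸ hy))
    have zx : z - x ≠ 0 := sub_ne_zero.mpr (fun e => disjoint_left.mp h.dAC hx (e ▸ hz))
    have px : p - x ≠ 0 := by
      intro e0
      have : p = x := sub_eq_zero.mp e0
      rw [this] at e
      simp only [sub_self, mul_zero, mul_eq_zero] at e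
      rcases e with e | e
      · exact yx (by linear_combination -e)
      · exact zx e
    simp only [mem_compl, not_not]
    refine mem_ch.mpr ⟨p, ?_, ?_⟩
    · simp only [mem_union, mem_erase] at hp ⊢
      rcases hp with (hp | hp) | hp
      · exact Or.inl (Or.inl ⟨sub_ne_zero.mp px, hp⟩)
      · exact Or.inl (Or.inr hp)
      · exact Or.inr hp
    · field_simp
      linear_combination -e
  · exact (disjoint_image inj).mpr h.dBC
  · exact disjoint_left.mpr fun v hv hv' => mem_compl.mp hv'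
      (image_subset_image (by intro a ha; simp [ha]) hv)
  · exact disjoint_left.mpr fun v hv hv' => mem_compl.mp hv'
      (image_subset_image (by intro a ha; simp [ha]) hv)
  · rw [card_compl, card_ch]
    have d1 : Disjoint (A.erase x) B := h.dAB.mono_left (erase_subset _ _)
    have d2 : Disjoint (A.erase x ∪ B) C :=
      disjoint_union_left.mpr ⟨h.dAC.mono_left (erase_subset _ _), h.dBC⟩
    have e := card_le_univ (A.erase x ∪ B ∪ C)
    rw [card_union_of_disjoint d2, card_union_of_disjoint d1, card_erase_of_mem hx] at e ⊢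
    omega

end Pool.Agent.P.MP_862e21_al
end

-- part Pool.Agent.P.MP_862e21_al.Basic
section

namespace Pool.Agent.P.MP_862e21_al

open Finset Pointwise

variable {F : Type*} [Field F] [DecidableEq F]

theorem psi_zero (C : Finset F) : psi C 0 = 0 := by
  simp [psi]

theorem psi_le (C : Finset F) (h : F) : psi C h ≤ C.card := card_filter_le _ _

theorem basic_split (C : Finset F) (h : F) :
    (C.filter (fun x => x + h ∈ C)).card + psi C h = C.card := by
  unfold psi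
  exact card_filter_add_card_filter_not (s := C) (fun x => x + h ∈ C)

theorem psi_neg (C : Finset F) (h : F) : psi C (-h) = psi C h := by
  have e1 := basic_split C h
  have e2 := basic_split C (-h)
  have : (C.filter (fun x => x + h ∈ C)).card = (C.filter (fun x => x + -h ∈ C)).card := by
    apply card_bij (fun x _ => x + h)
    · intro x hx
      simp only [mem_filter] at hx ⊢
      exact ⟨hx.2, by simpa using hx.1⟩
    · intro a _ b _ e
      simpa using e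
    · intro y hy
      simp only [mem_filter] at hy
      exact ⟨y + -h, mem_filter.mpr ⟨hy.2, by simpa using hy.1⟩, by ring⟩
  omega

theorem psi_add (C : Finset F) (h k : F) : psi C (h + k) ≤ psi C h + psi C k := by
  unfold psi
  have : C.filter (fun x => x + (h + k) ∉ C) ⊆ C.filter (fun x => x + h ∉ C) ∪
      (C.filter (fun x => x + k ∉ C)).image (fun y => y - h) := by
    intro x hx
    simp only [mem_filter, mem_union, mem_image] at hx ⊢
    by_cases hh : x + h ∈ C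
    · right
      exact ⟨x + h, ⟨hh, by rw [add_assoc]; exact hx.2⟩, by ring⟩
    · left; exact ⟨hx.1, hh⟩
  exact le_trans (card_le_card this) (le_trans (card_union_le _ _)
    (Nat.add_le_add_left card_image_le _))

theorem basic_mem_shift {C : Finset F} {h x : F} : x ∈ h +ᵥ C ↔ x + -h ∈ C := by
  rw [← neg_vadd_mem_iff]
  simp [add_comm]

theorem card_inter_shift (C : Finset F) (h : F) :
    (C ∩ (h +ᵥ C)).card + psi C h = C.card := by
  have e : C ∩ (h +ᵥ C) = C.filter (fun x => x + -h ∈ C) := by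
    ext x; simp only [mem_inter, mem_filter, basic_mem_shift]
  rw [e, ← psi_neg C h]
  exact basic_split C (-h)

theorem card_union_shift (C : Finset F) (h : F) :
    (C ∪ (h +ᵥ C)).card = C.card + psi C h := by
  have e1 := card_union_add_card_inter C (h +ᵥ C)
  have e2 := card_inter_shift C h
  rw [card_vadd_finset] at e1
  omega

theorem sum_inter_shift [Fintype F] (C : Finset F) :
    ∑ h : F, (C ∩ (h +ᵥ C)).card = C.card ^ 2 := by
  have e : ∀ h : F, (C ∩ (h +ᵥ C)).card = ∑ x ∈ C, if x + -h ∈ C then 1 else 0 := by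
    intro h
    rw [← card_filter]
    congr 1
    ext x; simp only [mem_inter, mem_filter, basic_mem_shift]
  simp_rw [e]
  rw [sum_comm]
  have e2 : ∀ x ∈ C, (∑ h : F, if x + -h ∈ C then 1 else 0) = C.card := by
    intro x _
    rw [← card_filter]
    apply card_bij (fun h _ => x + -h)
    · intro h hh; exact (mem_filter.mp hh).2
    · intro a _ b _ e; simpa using e
    · intro y hy
      exact ⟨x - y, mem_filter.mpr ⟨mem_univ _, by simpa using hy⟩, by ring⟩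
  rw [sum_congr rfl e2]
  simp [pow_two]

theorem sym_card [Fintype F] {C : Finset F} (hC : C.Nonempty) :
    3 * (univ.filter (fun h => 4 * psi C h ≤ C.card)).card ≤ 4 * C.card := by
  have c1 := hC.card_pos
  set X := univ.filter (fun h => 4 * psi C h ≤ C.card) with hX
  have e1 : X.card * (3 * C.card) ≤ ∑ h ∈ X, 4 * (C ∩ (h +ᵥ C)).card := by
    rw [← smul_eq_mul]
    apply card_nsmul_le_sum
    intro h hh
    have := (mem_filter.mp hh).2
    have := card_inter_shift C h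
    omega
  have e2 : ∑ h ∈ X, 4 * (C ∩ (h +ᵥ C)).card ≤ 4 * C.card ^ 2 := by
    rw [← sum_inter_shift, mul_sum]
    exact sum_le_sum_of_subset (subset_univ _)
  have e3 : (3 * X.card) * C.card ≤ (4 * C.card) * C.card := by nlinarith
  exact Nat.le_of_mul_le_mul_right e3 c1

theorem psi_sum {X C : Finset F} {x x0 : F} (hx : x ∈ X) (hx0 : x0 ∈ X) :
    psi C (x - x0) + C.card ≤ (X + C).card := by
  rw [add_comm, ← card_union_shift, ← card_vadd_finset x0]
  apply card_le_card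
  intro w hw
  obtain ⟨v, hv, rfl⟩ := mem_vadd_finset.mp hw
  rcases mem_union.mp hv with hv | hv
  · exact add_mem_add hx0 hv
  · obtain ⟨z, hz, rfl⟩ := mem_vadd_finset.mp hv
    have : x0 +ᵥ ((x - x0) +ᵥ z) = x + z := by simp only [vadd_eq_add]; ring
    rw [this]; exact add_mem_add hx hz

theorem card_comb {s : F} (hs : s ≠ 0) (Y C : Finset F) :
    (comb s Y C).card = (((1 - s) / s) • Y + C).card := by
  rw [← card_smul_finset₀ hs (((1 - s) / s) • Y + C), smul_add, smul_smul,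
    mul_div_cancel₀ _ hs, comb]

theorem psi_affine {C E : Finset F} {t κ : F} (ht : t ≠ 0) (hmap : ∀ z ∈ C, t * z + κ ∈ C ∪ E)
    (h : F) : psi C (t * h) ≤ psi C h + 2 * E.card := by
  have inj : Function.Injective (fun z : F => t * z + κ) := by
    intro a b e
    simpa [ht] using e
  set G := C.image (fun z : F => t * z + κ) with hG
  have cG : G.card = C.card := card_image_of_injective _ inj
  have e1 : (G \ C).card ≤ E.card := by
    apply card_le_card
    intro w hw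
    obtain ⟨hw1, hw2⟩ := mem_sdiff.mp hw
    obtain ⟨z, hz, rfl⟩ := mem_image.mp hw1
    exact (mem_union.mp (hmap z hz)).resolve_left hw2
  have e2 : (C \ G).card ≤ E.card := by
    have a1 := card_sdiff_add_card_inter C G
    have a2 := card_sdiff_add_card_inter G C
    rw [inter_comm] at a2
    omega
  have e3 : C.filter (fun x => x + t * h ∉ C) ⊆ (C \ G) ∪
      ((C.filter (fun x => x + h ∉ C)).image (fun z => t * z + κ) ∪
        E.image (fun w => w - t * h)) := by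
    intro x hx
    obtain ⟨hx1, hx2⟩ := mem_filter.mp hx
    by_cases hg : x ∈ G
    · obtain ⟨z, hz, rfl⟩ := mem_image.mp hg
      refine mem_union_right _ ?_
      by_cases hz2 : z + h ∈ C
      · refine mem_union_right _ (mem_image.mpr ⟨t * (z + h) + κ, ?_, by ring⟩)
        refine (mem_union.mp (hmap _ hz2)).resolve_left ?_
        intro e
        exact hx2 (by convert e using 1; ring)
      · exact mem_union_left _ (mem_image.mpr ⟨z, mem_filter.mpr ⟨hz, hz2⟩, rfl⟩)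
    · exact mem_union_left _ (mem_sdiff.mpr ⟨hx1, hg⟩)
  have e4 := card_le_card e3
  have e5 := card_union_le (C \ G) ((C.filter (fun x => x + h ∉ C)).image (fun z => t * z + κ) ∪
        E.image (fun w => w - t * h))
  have e6 := card_union_le ((C.filter (fun x => x + h ∉ C)).image (fun z => t * z + κ))
        (E.image (fun w => w - t * h))
  have e7 : ((C.filter (fun x => x + h ∉ C)).image (fun z => t * z + κ)).card ≤ psi C h :=
    card_image_le
  have e8 : (E.image (fun w => w - t * h)).card ≤ E.card := card_image_le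
  unfold psi at *
  omega

theorem lam_symm {l s : F} (h0 : l ≠ 0) (h1 : l ≠ 1) (hs : s ∈ Lam l) : l ∈ Lam s := by
  have h2 : 1 - l ≠ 0 := sub_ne_zero.mpr h1.symm
  have h3 : l - 1 ≠ 0 := sub_ne_zero.mpr h1
  rw [mem_Lam]
  rcases mem_Lam.mp hs with h | h | h | h | h | h <;> subst h
  · left; rfl
  · right; left; simp
  · right; right; left; ring
  · right; right; right; right; left; field_simp; ring
  · right; right; right; left
    have : 1 - (l - 1) / l = l⁻¹ := by field_simp; ring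
    rw [this, inv_inv]
  · right; right; right; right; right
    have : l / (l - 1) - 1 = (l - 1)⁻¹ := by field_simp; ring
    rw [this]; field_simp

theorem gen_pow [Fintype F] {l : F} (hg : Gen l) {m : ℕ} (hm : 1 ≤ m) (h1 : l ^ m = 1)
    (h2 : (1 - l) ^ m = 1) : Fintype.card F ≤ 2 * m + 1 := by
  have key := hg {x | x ^ (2 * m) = 1}
    (by intro x hx; simp only [Set.mem_ofPred_eq] at hx ⊢; rw [pow_mul] at hx ⊢; simpa using hx)
    (by
      intro x hx; simp only [Set.mem_ofPred_eq] at hx ⊢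
      rw [mul_pow, hx, mul_comm 2 m, pow_mul, h1]; simp)
    (by
      intro x hx; simp only [Set.mem_ofPred_eq] at hx ⊢
      rw [mul_pow, hx, mul_comm 2 m, pow_mul, h2]; simp)
    ⟨1, by simp, one_ne_zero⟩
  have hsub : univ.erase (0 : F) ⊆ Polynomial.nthRootsFinset (2 * m) (1 : F) := by
    intro y hy
    rw [Polynomial.mem_nthRootsFinset (by omega)]
    exact key y (ne_of_mem_erase hy)
  have e1 := card_le_card hsub
  have e2 : (Polynomial.nthRootsFinset (2 * m) (1 : F)).card ≤ 2 * m := by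
    rw [Polynomial.nthRootsFinset_def]
    exact le_trans (Multiset.toFinset_card_le _) (Polynomial.card_nthRoots _ _)
  rw [card_erase_of_mem (mem_univ _), card_univ] at e1
  omega

theorem single [Fintype F] {l : F} {A B C : Finset F} (h : Cl l A B C) (hg : Gen l)
    (ha : A.card = 1) (hb : B.card = 1) (hd : A.card + B.card + C.card ≤ Fintype.card F) :
    False := by
  obtain ⟨x, hx⟩ := h.nA
  obtain ⟨D, hT, hu⟩ := h.chart hx
  have eB := card_ch x B
  have eC := card_ch x C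
  set B' := ch x B
  set C' := ch x C
  obtain ⟨β, hβ⟩ := card_eq_one.mp (eB.trans hb)
  have hβB : β ∈ B' := by rw [hβ]; exact mem_singleton_self _
  have hc : Dᶜ = B' ∪ C' := by
    symm
    apply eq_of_subset_of_card_le
    · intro v hv
      rw [mem_compl]
      rcases mem_union.mp hv with hv | hv
      · exact disjoint_left.mp hT.dBD hv
      · exact disjoint_left.mp hT.dCD hv
    · rw [card_compl, card_union_of_disjoint hT.dBC]; omega
  have hne : ∀ z ∈ C', z - β ≠ 0 := by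
    intro z hz e
    exact disjoint_left.mp hT.dBC hβB (by rw [← sub_eq_zero.mp e]; exact hz)
  have step : ∀ s ∈ Lam l, ∀ v, β + v ∈ C' → β + s * v ∈ C' := by
    intro s hs v hv
    have e1 := hT.sc s hs β hβB _ hv
    have e2 : (1 - s) * β + s * (β + v) = β + s * v := by ring
    rw [e2, ← mem_compl, hc, mem_union] at e1
    refine e1.resolve_left ?_
    rw [hβ, mem_singleton]
    intro e
    have v0 := hne _ hv
    have s0 := lam_ne_zero h.l0 h.l1 hs
    have : s * v = 0 := by linear_combination e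
    rcases mul_eq_zero.mp this with e | e
    · exact s0 e
    · exact v0 (by rw [e]; ring)
  have h2 : 1 - l ≠ 0 := sub_ne_zero.mpr h.l1.symm
  have l0 := h.l0
  obtain ⟨z0, hz0⟩ : C'.Nonempty := by
    rw [← card_pos, eC]; exact h.nC.card_pos
  have key := hg {v | β + v ∈ C'}
    (by
      intro v hv
      have := step l (self_mem_Lam l) _ (step (1 - l)⁻¹ (by simp [Lam]) _
        (step ((l - 1) / l) (by simp [Lam]) v hv))
      have e : l * ((1 - l)⁻¹ * ((l - 1) / l * v)) = -v := by field_simp; ring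
      rwa [e] at this)
    (fun v hv => step l (self_mem_Lam l) v hv)
    (fun v hv => step (1 - l) (by simp [Lam]) v hv)
    ⟨z0 - β, by simpa using hz0, hne z0 hz0⟩
  have hsub : (univ.erase (0 : F)).image (fun v => β + v) ⊆ C' := by
    intro w hw
    obtain ⟨v, hv, rfl⟩ := mem_image.mp hw
    exact key v (ne_of_mem_erase hv)
  have e1 := card_le_card hsub
  rw [card_image_of_injective _ (add_right_injective β), card_erase_of_mem (mem_univ _),
    card_univ] at e1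
  omega

end Pool.Agent.P.MP_862e21_al
end

-- part Pool.Agent.P.MP_862e21_al.ODefs
section

namespace Pool.Agent.P.MP_862e21_al

open Finset Pointwise

section groups

variable {G : Type*} [AddCommGroup G]

/-- iterated sumset -/
def nS (H : Set G) : ℕ → Set G
  | 0 => {0}
  | m + 1 => nS H m + H

/-- `X` is covered by finitely many translates of `H` -/
def Sm (H X : Set G) : Prop := ∃ T : Finset G, ∀ x ∈ X, ∃ t ∈ T, x - t ∈ H

end groups

variable {F : Type*} [Field F] [DecidableEq F]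

/-- the three values of the cross ratio that belong to an even permutation -/
def Lp (c : F) : Finset F := {c, (1 - c)⁻¹, (c - 1) / c}

/-- the split case -/
structure Spl (c : F) : Prop where
  neg : ¬ IsSquare (-1 : F)
  n0 : ¬ IsSquare c
  n1 : ¬ IsSquare (1 - c)
  h3 : ∀ x : F, x ^ 2 - x + 1 ≠ 0

/-- oriented single chart -/
structure OTrio (c : F) (B C D : Finset F) : Prop where
  spl : Spl c
  pos : ∀ s ∈ Lp c, ∀ y ∈ B, ∀ z ∈ C, IsSquare (z - y) → (1 - s) * y + s * z ∉ D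
  ngt : ∀ s ∈ Lp c, ∀ y ∈ B, ∀ z ∈ C, ¬ IsSquare (z - y) → s * y + (1 - s) * z ∉ D
  dBC : Disjoint B C
  dBD : Disjoint B D
  dCD : Disjoint C D

def Vd (x y z : F) : F := (x - y) * (x - z) * (y - z)

/-- oriented closed configuration -/
structure OCl (c : F) (A B C : Finset F) : Prop where
  spl : Spl c
  nA : A.Nonempty
  nB : B.Nonempty
  nC : C.Nonempty
  dAB : Disjoint A B
  dAC : Disjoint A C
  dBC : Disjoint B C
  pos : ∀ s ∈ Lp c, ∀ x ∈ A, ∀ y ∈ B, ∀ z ∈ C, IsSquare (Vd x y z) →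
    ∃ p ∈ A ∪ B ∪ C, (p - y) * (z - x) = s * (z - y) * (p - x)
  ngt : ∀ s ∈ Lp c, ∀ x ∈ A, ∀ y ∈ B, ∀ z ∈ C, ¬ IsSquare (Vd x y z) →
    ∃ p ∈ A ∪ B ∪ C, (p - y) * (z - x) = (1 - s) * (z - y) * (p - x)

/-- the solutions of the linear equation with parameter `s` -/
def Sol (s : F) (B C D : Finset F) : Finset (F × F) :=
  (B ×ˢ C).filter (fun p => (1 - s) * p.1 + s * p.2 ∈ D)

/-- `X` is covered by at most `K` translates of `H` -/
def Cov (K : ℕ) (H X : Finset F) : Prop := ∃ T : Finset F, T.card ≤ K ∧ X ⊆ T + H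

/-- approximate group, approximately stable under four multipliers -/
structure AG (K : ℕ) (c : F) (H : Finset F) : Prop where
  zero : (0 : F) ∈ H
  neg : ∀ h ∈ H, -h ∈ H
  add : Cov K H (H + H)
  m1 : Cov K H (c • H)
  m2 : Cov K H (c⁻¹ • H)
  m3 : Cov K H ((1 - c)⁻¹ • H)
  m4 : Cov K H ((c ^ 2 - c + 1)⁻¹ • H)

/-- the multiplier `ρ` costs at most `J` -/
def Dr (J : ℕ) (H : Finset F) (ρ : F) : Prop :=
  ∃ Y : Finset F, Y ⊆ H + H ∧ ρ • Y ⊆ H + H ∧ Cov J Y H ∧ Cov J (ρ • Y) H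

/-- homogeneous coordinates of the six points of a triple -/
def PW {R : Type*} [CommRing R] (c : R) : Fin 6 → R × R :=
  ![(1, 0), (0, 1), (1, 1), (c, 1), (1, 1 - c), (c - 1, c)]

/-- brackets of the six points -/
def br {R : Type*} [CommRing R] (c : R) (i j : Fin 6) : R :=
  (PW c i).1 * (PW c j).2 - (PW c i).2 * (PW c j).1

/-- quadratic character of the brackets -/
def sgn (e : ℤ) : Fin 6 → Fin 6 → ℤ :=
  ![![0, 1, 1, 1, -1, -1], ![-1, 0, -1, 1, -1, -1], ![-1, 1, 0, -1, 1, 1],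
    ![-1, -1, 1, 0, -e, e], ![1, 1, -1, e, 0, e], ![1, 1, -1, -e, -e, 0]]

/-- the orientation table -/
def ori (η : Bool) (i j k : Fin 6) : Bool :=
  decide (sgn (if η then 1 else -1) i j * sgn (if η then 1 else -1) i k *
    sgn (if η then 1 else -1) j k = -1)

/-- abstract oriented closed family of triples -/
structure OC (c : F) (η : Bool) (TT : Finset (F × F × F)) : Prop where
  c0 : c ≠ 0
  c1 : c ≠ 1
  cN : c ^ 2 - c + 1 ≠ 0
  ne : TT.Nonempty
  dist : ∀ t ∈ TT, t.1 ≠ t.2.1 ∧ t.1 ≠ t.2.2 ∧ t.2.1 ≠ t.2.2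
  ext : ∀ t ∈ TT, ∃ (p : Fin 6 → F) (κ : Fin 6 → Fin 3),
    p 0 = t.1 ∧ p 1 = t.2.1 ∧ p 2 = t.2.2 ∧ κ 0 = 0 ∧ κ 1 = 1 ∧ κ 2 = 2 ∧
    (∀ i, (PW c i).2 * ((p i - t.2.1) * (t.2.2 - t.1)) =
      (PW c i).1 * ((t.2.2 - t.2.1) * (p i - t.1))) ∧
    ∀ i j k, κ i ≠ κ j → κ i ≠ κ k → κ j ≠ κ k → ori η i j k = true → (p i, p j, p k) ∈ TT

theorem mem_Lp {c s : F} : s ∈ Lp c ↔ s = c ∨ s = (1 - c)⁻¹ ∨ s = (c - 1) / c := by
  simp [Lp]

theorem self_mem_Lp (c : F) : c ∈ Lp c := by simp [Lp]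

theorem ori_cyc : ∀ η i j k, ori η i j k = ori η j k i := by decide

theorem ori_tot : ∀ η i j k, i ≠ j → i ≠ k → j ≠ k → ori η i j k = true ∨ ori η i k j = true := by
  decide

theorem ori_012 : ∀ η, ori η 0 1 2 = true := by decide

end Pool.Agent.P.MP_862e21_al
end

-- part Pool.Agent.P.MP_862e21_al.OBasic
section

namespace Pool.Agent.P.MP_862e21_al

open Finset Pointwise

variable {F : Type*} [Field F] [DecidableEq F]

omit [DecidableEq F] in
theorem sq_mul_iff [Fintype F] {a b : F} (ha : a ≠ 0) (hb : b ≠ 0) :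
    IsSquare (a * b) ↔ (IsSquare a ↔ IsSquare b) := by
  classical
  rw [← quadraticChar_one_iff_isSquare (mul_ne_zero ha hb), ← quadraticChar_one_iff_isSquare ha,
    ← quadraticChar_one_iff_isSquare hb, map_mul]
  rcases quadraticChar_dichotomy ha with h1 | h1 <;>
    rcases quadraticChar_dichotomy hb with h2 | h2 <;> rw [h1, h2] <;> decide

omit [DecidableEq F] in
theorem sq_inv_iff {a : F} : IsSquare a⁻¹ ↔ IsSquare a := by
  constructor
  · rintro ⟨r, hr⟩
    exact ⟨r⁻¹, by rw [← mul_inv, ← hr, inv_inv]⟩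
  · rintro ⟨r, hr⟩
    exact ⟨r⁻¹, by rw [hr, mul_inv]⟩

omit [DecidableEq F] in
theorem sq_neg_iff [Fintype F] (h : ¬ IsSquare (-1 : F)) {a : F} (ha : a ≠ 0) :
    IsSquare (-a) ↔ ¬ IsSquare a := by
  have e : -a = (-1) * a := by ring
  rw [e, sq_mul_iff (neg_ne_zero.mpr one_ne_zero) ha]
  tauto

omit [DecidableEq F] in
theorem Spl.c0 {c : F} (h : Spl c) : c ≠ 0 := by
  intro e
  exact h.n0 (e ▸ IsSquare.zero)

omit [DecidableEq F] in
theorem Spl.c1 {c : F} (h : Spl c) : c ≠ 1 := by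
  intro e
  apply h.n1
  rw [e, sub_self]
  exact IsSquare.zero

omit [DecidableEq F] in
theorem Spl.flip {c : F} (h : Spl c) : Spl (1 - c) :=
  ⟨h.neg, h.n1, by rw [sub_sub_cancel]; exact h.n0, h.h3⟩

theorem Spl.of_mem [Fintype F] {c s : F} (h : Spl c) (hs : s ∈ Lp c) : Spl s := by
  have c0 := h.c0
  have c1 : 1 - c ≠ 0 := sub_ne_zero.mpr h.c1.symm
  rcases mem_Lp.mp hs with e | e | e <;> subst e
  · exact h
  · refine ⟨h.neg, fun q => h.n1 (sq_inv_iff.mp q), ?_, h.h3⟩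
    have e : 1 - (1 - c)⁻¹ = (-c) * (1 - c)⁻¹ := by field_simp; ring
    rw [e, sq_mul_iff (neg_ne_zero.mpr c0) (inv_ne_zero c1), sq_neg_iff h.neg c0, sq_inv_iff]
    have := h.n0
    have := h.n1
    tauto
  · refine ⟨h.neg, ?_, ?_, h.h3⟩
    · have e : (c - 1) / c = (-(1 - c)) * c⁻¹ := by field_simp; ring
      rw [e, sq_mul_iff (neg_ne_zero.mpr c1) (inv_ne_zero c0), sq_neg_iff h.neg c1, sq_inv_iff]
      have := h.n0
      have := h.n1
      tauto
    · have e : 1 - (c - 1) / c = c⁻¹ := by field_simp; ring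
      rw [e, sq_inv_iff]
      exact h.n0

theorem lp_rot {c s : F} (h0 : c ≠ 0) (h1 : c ≠ 1) (hs : s ∈ Lp c) :
    (1 - s)⁻¹ ∈ Lp c ∧ (s - 1) / s ∈ Lp c := by
  have h2 : 1 - c ≠ 0 := sub_ne_zero.mpr h1.symm
  have h3 : c - 1 ≠ 0 := sub_ne_zero.mpr h1
  rw [mem_Lp, mem_Lp]
  rcases mem_Lp.mp hs with e | e | e <;> subst e
  · exact ⟨Or.inr (Or.inl rfl), Or.inr (Or.inr rfl)⟩
  · refine ⟨Or.inr (Or.inr ?_), Or.inl ?_⟩
    · have e : 1 - (1 - c)⁻¹ = c / (c - 1) := by field_simp; ring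
      rw [e, inv_div]
    · field_simp; ring
  · refine ⟨Or.inl ?_, Or.inr (Or.inl ?_)⟩
    · have e : 1 - (c - 1) / c = c⁻¹ := by field_simp; ring
      rw [e, inv_inv]
    · field_simp; ring

theorem lam_iff_lp {c s : F} (h0 : c ≠ 0) (h1 : c ≠ 1) : s ∈ Lam c ↔ s ∈ Lp c ∨ 1 - s ∈ Lp c := by
  have h2 : 1 - c ≠ 0 := sub_ne_zero.mpr h1.symm
  have h3 : c - 1 ≠ 0 := sub_ne_zero.mpr h1
  have sub : ∀ t, t ∈ Lp c → t ∈ Lam c := by
    intro t ht
    rw [mem_Lam]
    rcases mem_Lp.mp ht with e | e | e <;> simp [e]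
  constructor
  · intro hs
    rw [mem_Lp, mem_Lp]
    rcases mem_Lam.mp hs with e | e | e | e | e | e <;> subst e
    · exact Or.inl (Or.inl rfl)
    · refine Or.inr (Or.inr (Or.inr ?_))
      field_simp
    · exact Or.inr (Or.inl (by ring))
    · exact Or.inl (Or.inr (Or.inl rfl))
    · exact Or.inl (Or.inr (Or.inr rfl))
    · refine Or.inr (Or.inr (Or.inl ?_))
      field_simp; ring
  · rintro (hs | hs)
    · exact sub s hs
    · have := lam_one_sub h0 h1 (sub _ hs)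
      rwa [sub_sub_cancel] at this

theorem OTrio.swap12 [Fintype F] {c : F} {B C D : Finset F} (h : OTrio c B C D) :
    OTrio c C B D := by
  have ne : ∀ y ∈ C, ∀ z ∈ B, z - y ≠ 0 := fun y hy z hz e =>
    disjoint_left.mp h.dBC hz (by rw [sub_eq_zero.mp e]; exact hy)
  refine ⟨h.spl, ?_, ?_, h.dBC.symm, h.dCD, h.dBD⟩
  · intro s hs y hy z hz q
    have q' : ¬ IsSquare (y - z) := by
      rw [← neg_sub z y, sq_neg_iff h.spl.neg (ne y hy z hz)]
      exact fun t => t q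
    have := h.ngt s hs z hz y hy q'
    rwa [add_comm] at this
  · intro s hs y hy z hz q
    have q' : IsSquare (y - z) := by
      rw [← neg_sub z y, sq_neg_iff h.spl.neg (ne y hy z hz)]
      exact q
    have := h.pos s hs z hz y hy q'
    rwa [add_comm] at this

theorem OTrio.swap23 [Fintype F] {c : F} {B C D : Finset F} (h : OTrio c B C D) :
    OTrio c B D C := by
  have ne : ∀ y ∈ B, ∀ w ∈ D, w - y ≠ 0 := fun y hy w hw e =>
    disjoint_left.mp h.dBD hy (by rw [← sub_eq_zero.mp e]; exact hw)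
  refine ⟨h.spl, ?_, ?_, h.dBD, h.dBC, h.dCD.symm⟩
  · intro s hs y hy w hw q hz
    have sp := h.spl.of_mem hs
    have s0 := sp.c0
    have e1 : (1 - s) * y + s * w - y = s * (w - y) := by ring
    have q' : ¬ IsSquare ((1 - s) * y + s * w - y) := by
      rw [e1, sq_mul_iff s0 (ne y hy w hw)]
      exact fun t => sp.n0 (t.mpr q)
    have := h.ngt _ (lp_rot h.spl.c0 h.spl.c1 hs).2 y hy _ hz q'
    have e : (s - 1) / s * y + (1 - (s - 1) / s) * ((1 - s) * y + s * w) = w := by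
      field_simp; ring
    rw [e] at this
    exact this hw
  · intro s hs y hy w hw q hz
    have sp := h.spl.of_mem hs
    have s1 : 1 - s ≠ 0 := sub_ne_zero.mpr sp.c1.symm
    have e1 : s * y + (1 - s) * w - y = (1 - s) * (w - y) := by ring
    have q' : IsSquare (s * y + (1 - s) * w - y) := by
      rw [e1, sq_mul_iff s1 (ne y hy w hw)]
      exact ⟨fun t => absurd t sp.n1, fun t => absurd t q⟩
    have := h.pos _ (lp_rot h.spl.c0 h.spl.c1 hs).1 y hy _ hz q'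
    have e : (1 - (1 - s)⁻¹) * y + (1 - s)⁻¹ * (s * y + (1 - s) * w) = w := by
      field_simp; ring
    rw [e] at this
    exact this hw

theorem obasic_vd_ne {c : F} {A B C : Finset F} (h : OCl c A B C) {x y z : F} (hx : x ∈ A)
    (hy : y ∈ B) (hz : z ∈ C) : Vd x y z ≠ 0 := by
  have a1 : x - y ≠ 0 := sub_ne_zero.mpr (fun e => disjoint_left.mp h.dAB hx (e ▸ hy))
  have a2 : x - z ≠ 0 := sub_ne_zero.mpr (fun e => disjoint_left.mp h.dAC hx (e ▸ hz))
  have a3 : y - z ≠ 0 := sub_ne_zero.mpr (fun e => disjoint_left.mp h.dBC hy (e ▸ hz))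
  exact mul_ne_zero (mul_ne_zero a1 a2) a3

theorem OCl.swap12 [Fintype F] {c : F} {A B C : Finset F} (h : OCl c A B C) : OCl c B A C := by
  have fl : ∀ x y z : F, Vd x y z = -Vd y x z := by intro x y z; unfold Vd; ring
  refine ⟨h.spl, h.nB, h.nA, h.nC, h.dAB.symm, h.dBC, h.dAC, ?_, ?_⟩
  · intro s hs x hx y hy z hz q
    rw [fl, sq_neg_iff h.spl.neg (obasic_vd_ne h hy hx hz)] at q
    obtain ⟨p, hp, e⟩ := h.ngt _ (lp_rot h.spl.c0 h.spl.c1 hs).2 y hy x hx z hz q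
    refine ⟨p, by rwa [union_comm B A], ?_⟩
    have s0 := (h.spl.of_mem hs).c0
    have e1 : s * (1 - (s - 1) / s) = 1 := by field_simp; ring
    linear_combination (-s) * e - (z - x) * (p - y) * e1
  · intro s hs x hx y hy z hz q
    rw [fl, sq_neg_iff h.spl.neg (obasic_vd_ne h hy hx hz), not_not] at q
    obtain ⟨p, hp, e⟩ := h.pos _ (lp_rot h.spl.c0 h.spl.c1 hs).1 y hy x hx z hz q
    refine ⟨p, by rwa [union_comm B A], ?_⟩
    have s1 : 1 - s ≠ 0 := sub_ne_zero.mpr (h.spl.of_mem hs).c1.symm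
    have e1 : (1 - s) * (1 - s)⁻¹ = 1 := mul_inv_cancel₀ s1
    linear_combination (-(1 - s)) * e - (z - x) * (p - y) * e1

theorem OCl.swap23 [Fintype F] {c : F} {A B C : Finset F} (h : OCl c A B C) : OCl c A C B := by
  have fl : ∀ x y z : F, Vd x y z = -Vd x z y := by intro x y z; unfold Vd; ring
  refine ⟨h.spl, h.nA, h.nC, h.nB, h.dAC, h.dAB, h.dBC.symm, ?_, ?_⟩
  · intro s hs x hx y hy z hz q
    rw [fl, sq_neg_iff h.spl.neg (obasic_vd_ne h hx hz hy)] at q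
    obtain ⟨p, hp, e⟩ := h.ngt s hs x hx z hz y hy q
    refine ⟨p, by rwa [union_right_comm A C B], ?_⟩
    linear_combination e
  · intro s hs x hx y hy z hz q
    rw [fl, sq_neg_iff h.spl.neg (obasic_vd_ne h hx hz hy), not_not] at q
    obtain ⟨p, hp, e⟩ := h.pos s hs x hx z hz y hy q
    refine ⟨p, by rwa [union_right_comm A C B], ?_⟩
    linear_combination e

theorem obasic_chart_mem {c : F} {A B C : Finset F} (h : OCl c A B C) {x y z p t : F}
    (hx : x ∈ A) (hy : y ∈ B) (hz : z ∈ C) (hp : p ∈ A ∪ B ∪ C)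
    (e : (p - y) * (z - x) = t * (z - y) * (p - x)) :
    (1 - t) * (y - x)⁻¹ + t * (z - x)⁻¹ ∈ ch x (A.erase x ∪ B ∪ C) := by
  have yx : y - x ≠ 0 := sub_ne_zero.mpr (fun e => disjoint_left.mp h.dAB hx (e ▸ hy))
  have zx : z - x ≠ 0 := sub_ne_zero.mpr (fun e => disjoint_left.mp h.dAC hx (e ▸ hz))
  have px : p - x ≠ 0 := by
    intro e0
    have : p = x := sub_eq_zero.mp e0
    rw [this] at e
    simp only [sub_self, mul_zero, mul_eq_zero] at e
    rcases e with e | e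
    · exact yx (by linear_combination -e)
    · exact zx e
  refine mem_ch.mpr ⟨p, ?_, ?_⟩
  · simp only [mem_union, mem_erase] at hp ⊢
    rcases hp with (hp | hp) | hp
    · exact Or.inl (Or.inl ⟨sub_ne_zero.mp px, hp⟩)
    · exact Or.inl (Or.inr hp)
    · exact Or.inr hp
  · field_simp
    linear_combination -e

theorem obasic_chart_sq [Fintype F] {c : F} {A B C : Finset F} (h : OCl c A B C) {x y z : F}
    (hx : x ∈ A) (hy : y ∈ B) (hz : z ∈ C) :
    IsSquare ((z - x)⁻¹ - (y - x)⁻¹) ↔ IsSquare (Vd x y z) := by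
  have yx : y - x ≠ 0 := sub_ne_zero.mpr (fun e => disjoint_left.mp h.dAB hx (e ▸ hy))
  have zx : z - x ≠ 0 := sub_ne_zero.mpr (fun e => disjoint_left.mp h.dAC hx (e ▸ hz))
  have m0 : ((y - x) * (z - x))⁻¹ ≠ 0 := inv_ne_zero (mul_ne_zero yx zx)
  have e : (z - x)⁻¹ - (y - x)⁻¹ =
      Vd x y z * (((y - x) * (z - x))⁻¹ * ((y - x) * (z - x))⁻¹) := by
    unfold Vd; field_simp; ring
  rw [e, sq_mul_iff (obasic_vd_ne h hx hy hz) (mul_ne_zero m0 m0)]
  have : IsSquare (((y - x) * (z - x))⁻¹ * ((y - x) * (z - x))⁻¹) := ⟨_, rfl⟩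
  tauto

/-- passing to the chart at a point of A -/
theorem OCl.chart [Fintype F] {c : F} {A B C : Finset F} (h : OCl c A B C) {x : F} (hx : x ∈ A) :
    ∃ D : Finset F, OTrio c (ch x B) (ch x C) D ∧
      Fintype.card F = B.card + C.card + D.card + (A.card - 1) := by
  have inj : Function.Injective (fun y : F => (y - x)⁻¹) := by
    intro a b h; simpa using h
  refine ⟨(ch x (A.erase x ∪ B ∪ C))ᶜ, ⟨h.spl, ?_, ?_, ?_, ?_, ?_⟩, ?_⟩
  · intro s hs v hv w hw q
    obtain ⟨y, hy, rfl⟩ := mem_ch.mp hv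
    obtain ⟨z, hz, rfl⟩ := mem_ch.mp hw
    rw [obasic_chart_sq h hx hy hz] at q
    obtain ⟨p, hp, e⟩ := h.pos s hs x hx y hy z hz q
    simp only [mem_compl, not_not]
    exact obasic_chart_mem h hx hy hz hp e
  · intro s hs v hv w hw q
    obtain ⟨y, hy, rfl⟩ := mem_ch.mp hv
    obtain ⟨z, hz, rfl⟩ := mem_ch.mp hw
    rw [obasic_chart_sq h hx hy hz] at q
    obtain ⟨p, hp, e⟩ := h.ngt s hs x hx y hy z hz q
    simp only [mem_compl, not_not]
    have := obasic_chart_mem h hx hy hz hp e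
    rwa [sub_sub_cancel] at this
  · exact (disjoint_image inj).mpr h.dBC
  · exact disjoint_left.mpr fun v hv hv' => mem_compl.mp hv'
      (image_subset_image (by intro a ha; simp [ha]) hv)
  · exact disjoint_left.mpr fun v hv hv' => mem_compl.mp hv'
      (image_subset_image (by intro a ha; simp [ha]) hv)
  · rw [card_compl, card_ch]
    have d1 : Disjoint (A.erase x) B := h.dAB.mono_left (erase_subset _ _)
    have d2 : Disjoint (A.erase x ∪ B) C :=
      disjoint_union_left.mpr ⟨h.dAC.mono_left (erase_subset _ _), h.dBC⟩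
    have e := card_le_univ (A.erase x ∪ B ∪ C)
    rw [card_union_of_disjoint d2, card_union_of_disjoint d1, card_erase_of_mem hx] at e ⊢
    omega

omit [DecidableEq F] in
theorem obasic_cube [Fintype F] (h3 : ∀ x : F, x ^ 2 - x + 1 ≠ 0) {g : F} (g0 : g ≠ 0) :
    ∃ m : ℕ, (g ^ 3) ^ m = g := by
  apply exists_pow_eq_self_of_coprime
  rw [Nat.Prime.coprime_iff_not_dvd Nat.prime_three]
  rintro ⟨k, hk⟩
  have pos : 0 < orderOf g := by
    rw [orderOf_pos_iff, isOfFinOrder_iff_pow_eq_one]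
    exact ⟨Fintype.card F - 1, by have := Fintype.one_lt_card (α := F); omega,
      FiniteField.pow_card_sub_one_eq_one g g0⟩
  have w1 : g ^ k ≠ 1 := pow_ne_one_of_lt_orderOf (by omega) (by omega)
  have w3 : (g ^ k) ^ 3 = 1 := by rw [← pow_mul, mul_comm, ← hk, pow_orderOf_eq_one]
  have e : (g ^ k - 1) * ((-g ^ k) ^ 2 - (-g ^ k) + 1) = 0 := by linear_combination w3
  rcases mul_eq_zero.mp e with e | e
  · exact w1 (sub_eq_zero.mp e)
  · exact h3 _ e

theorem obasic_one [Fintype F] {c β : F} {C D : Finset F} (h : OTrio c {β} C D) (hg : Gen c)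
    (hC : C.Nonempty) (hc : ∀ v, v ∉ D → v = β ∨ v ∈ C) : β + 1 ∈ C := by
  have sp := h.spl
  have c0 := sp.c0
  have c1 : 1 - c ≠ 0 := sub_ne_zero.mpr sp.c1.symm
  have c1' : c - 1 ≠ 0 := sub_ne_zero.mpr sp.c1
  have hβ : β ∈ ({β} : Finset F) := mem_singleton_self _
  have hne : ∀ v, β + v ∈ C → v ≠ 0 := by
    intro v hv e
    rw [e, add_zero] at hv
    exact disjoint_left.mp h.dBC hβ hv
  have st1 : ∀ s ∈ Lp c, ∀ v, β + v ∈ C → IsSquare v → β + s * v ∈ C ∧ ¬ IsSquare (s * v) := by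
    intro s hs v hv q
    have ss := sp.of_mem hs
    have e1 := h.pos s hs β hβ _ hv (by rwa [add_sub_cancel_left])
    have e2 : (1 - s) * β + s * (β + v) = β + s * v := by ring
    rw [e2] at e1
    refine ⟨(hc _ e1).resolve_left ?_, ?_⟩
    · intro e
      exact mul_ne_zero ss.c0 (hne v hv) (by linear_combination e)
    · rw [sq_mul_iff ss.c0 (hne v hv)]
      exact fun t => ss.n0 (t.mpr q)
  have st2 : ∀ s ∈ Lp c, ∀ v, β + v ∈ C → ¬ IsSquare v →
      β + (1 - s) * v ∈ C ∧ IsSquare ((1 - s) * v) := by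
    intro s hs v hv q
    have ss := sp.of_mem hs
    have s1 : 1 - s ≠ 0 := sub_ne_zero.mpr ss.c1.symm
    have e1 := h.ngt s hs β hβ _ hv (by rwa [add_sub_cancel_left])
    have e2 : s * β + (1 - s) * (β + v) = β + (1 - s) * v := by ring
    rw [e2] at e1
    refine ⟨(hc _ e1).resolve_left ?_, ?_⟩
    · intro e
      exact mul_ne_zero s1 (hne v hv) (by linear_combination e)
    · rw [sq_mul_iff s1 (hne v hv)]
      exact ⟨fun t => absurd t ss.n1, fun t => absurd t q⟩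
  set P : F → Prop := fun v => β + v ∈ C ∧ IsSquare v with hP
  have two : ∀ s ∈ Lp c, ∀ t ∈ Lp c, ∀ v, P v → P ((1 - t) * (s * v)) := by
    intro s hs t ht v hv
    obtain ⟨a1, a2⟩ := st1 s hs v hv.1 hv.2
    exact st2 t ht _ a1 a2
  have m1 : c ∈ Lp c := self_mem_Lp c
  have m2 : (1 - c)⁻¹ ∈ Lp c := by simp [Lp]
  have m3 : (c - 1) / c ∈ Lp c := by simp [Lp]
  have cube : ∀ v, P v → P ((-c) ^ 3 * v) := by
    intro v hv
    have a := two c m1 _ m2 _ (two c m1 c m1 v hv)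
    have e : (1 - (1 - c)⁻¹) * (c * ((1 - c) * (c * v))) = (-c) ^ 3 * v := by
      field_simp; ring
    rwa [e] at a
  have pw : ∀ m : ℕ, ∀ v, P v → P (((-c) ^ 3) ^ m * v) := by
    intro m
    induction m with
    | zero => intro v hv; simpa using hv
    | succ m ih =>
      intro v hv
      have a := cube _ (ih v hv)
      rwa [← mul_assoc, ← pow_succ'] at a
  obtain ⟨m, hm⟩ := obasic_cube sp.h3 (neg_ne_zero.mpr c0)
  have g1 : ∀ v, P v → P (-c * v) := by
    intro v hv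
    have a := pw m v hv
    rwa [hm] at a
  have g2 : ∀ v, P v → P ((c - 1) * v) := by
    intro v hv
    have a := g1 _ (g1 _ (two _ m3 _ m3 v hv))
    have e : -c * (-c * ((1 - (c - 1) / c) * ((c - 1) / c * v))) = (c - 1) * v := by
      field_simp; ring
    rwa [e] at a
  have ex : ∃ v, P v := by
    obtain ⟨z, hz⟩ := hC
    have hz' : β + (z - β) ∈ C := by rwa [add_sub_cancel]
    by_cases q : IsSquare (z - β)
    · exact ⟨_, hz', q⟩
    · exact ⟨_, st2 c m1 _ hz' q⟩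
  have key := hg {v | P v ∨ P (-v)}
    (by
      rintro v (hv | hv)
      · exact Or.inr (by rwa [neg_neg])
      · exact Or.inl hv)
    (by
      rintro v (hv | hv)
      · refine Or.inr ?_
        have a := g1 v hv
        rwa [neg_mul] at a
      · refine Or.inl ?_
        have a := g1 _ hv
        rwa [neg_mul_neg] at a)
    (by
      rintro v (hv | hv)
      · refine Or.inr ?_
        have a := g2 v hv
        have e : (c - 1) * v = -((1 - c) * v) := by ring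
        rwa [e] at a
      · refine Or.inl ?_
        have a := g2 _ hv
        have e : (c - 1) * -v = (1 - c) * v := by ring
        rwa [e] at a)
    (by
      obtain ⟨v, hv⟩ := ex
      exact ⟨v, Or.inl hv, hne v hv.1⟩)
    1 one_ne_zero
  rcases key with a | a
  · exact a.1
  · exact absurd a.2 sp.neg

/-- the case of two singletons -/
theorem osingle [Fintype F] {c : F} {A B C : Finset F} (h : OCl c A B C) (hg : Gen c)
    (ha : A.card = 1) (hb : B.card = 1) (hd : A.card + B.card + C.card ≤ Fintype.card F) :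
    False := by
  obtain ⟨x, hx⟩ := h.nA
  obtain ⟨D, hT, hu⟩ := h.chart hx
  have eB := card_ch x B
  have eC := card_ch x C
  have nC : (ch x C).Nonempty := by
    rw [← card_pos, eC]; exact h.nC.card_pos
  have nD : D.Nonempty := by
    rw [← card_pos]; omega
  obtain ⟨β, hβ⟩ := card_eq_one.mp (eB.trans hb)
  have hc : Dᶜ = ch x B ∪ ch x C := by
    symm
    apply eq_of_subset_of_card_le
    · intro v hv
      rw [mem_compl]
      rcases mem_union.mp hv with hv | hv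
      · exact disjoint_left.mp hT.dBD hv
      · exact disjoint_left.mp hT.dCD hv
    · rw [card_compl, card_union_of_disjoint hT.dBC]; omega
  rw [hβ] at hT hc
  have hc1 : ∀ v, v ∉ D → v = β ∨ v ∈ ch x C := by
    intro v hv
    have := mem_compl.mpr hv
    rwa [hc, mem_union, mem_singleton] at this
  have hc2 : ∀ v, v ∉ ch x C → v = β ∨ v ∈ D := by
    intro v hv
    by_cases q : v ∈ D
    · exact Or.inr q
    · exact Or.inl ((hc1 v q).resolve_right hv)
  exact disjoint_left.mp hT.dCD (obasic_one hT hg nC hc1) (obasic_one hT.swap23 hg nD hc2)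

end Pool.Agent.P.MP_862e21_al
end

-- part Pool.Agent.P.MP_862e21_al.Ball
section

namespace Pool.Agent.P.MP_862e21_al

open Finset Pointwise

variable {F : Type*} [Field F] [DecidableEq F]

variable [Fintype F]

theorem cd (hp : (Fintype.card F).Prime) {X Y : Finset F} (hX : X.Nonempty) (hY : Y.Nonempty) :
    min (Fintype.card F) (X.card + Y.card - 1) ≤ (X + Y).card := by
  have h1 := cauchy_davenport_minOrder_add hX hY
  have h2 : ((Fintype.card F : ℕ) : ℕ∞) ≤ AddMonoid.minOrder F := by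
    rw [AddMonoid.le_minOrder]
    intro a ha _
    have := (Nat.dvd_prime hp).mp (addOrderOf_dvd_card (x := a))
    rcases this with e | e
    · exact absurd (AddMonoid.addOrderOf_eq_one_iff.mp e) ha
    · rw [e]
  have h3 := le_trans (min_le_min_right _ h2) h1
  simpa only [min_le_iff, Nat.cast_le] using h3

theorem add_top (hp : (Fintype.card F).Prime) (H : AddSubgroup F) : H = ⊥ ∨ H = ⊤ := by
  have : Fact (Nat.card F).Prime := ⟨by rwa [Nat.card_eq_fintype_card]⟩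
  exact H.eq_bot_or_eq_top_of_prime_card

theorem irrP (hp : (Fintype.card F).Prime) : Irr F := fun H _ _ _ _ => add_top hp H

theorem int_cast_eq (hp : (Fintype.card F).Prime) {m n : ℤ} (h : (m : F) = (n : F))
    (hlt : |m - n| < (Fintype.card F : ℤ)) : m = n := by
  have : Fact (Fintype.card F).Prime := ⟨hp⟩
  have : CharP F (Fintype.card F) := charP_of_card_eq_prime rfl
  have h1 : ((m - n : ℤ) : F) = 0 := by push_cast; rw [h]; ring
  rw [CharP.intCast_eq_zero_iff F (Fintype.card F)] at h1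
  have := Int.eq_zero_of_abs_lt_dvd h1 hlt
  omega

/-- growth of the level sets -/
theorem ball_iter (hp : (Fintype.card F).Prime) {C Z : Finset F} {r : ℕ} (hZ : Z.Nonempty)
    (hr : ∀ h ∈ Z, psi C h ≤ r) (m : ℕ) :
    min (Fintype.card F) (m * (Z.card - 1) + 1) ≤ (lev (psi C) (m * r)).card := by
  have z1 := hZ.card_pos
  have h0 : ∀ k, (lev (psi C) k).Nonempty := fun k => ⟨0, by simp [mem_lev, psi_zero]⟩
  induction m with
  | zero =>
    have := (h0 (0 * r)).card_pos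
    omega
  | succ m ih =>
    have e1 := cd hp (h0 (m * r)) hZ
    have e2 : lev (psi C) (m * r) + Z ⊆ lev (psi C) ((m + 1) * r) := by
      intro w hw
      obtain ⟨x, hx, y, hy, rfl⟩ := mem_add.mp hw
      rw [mem_lev] at hx ⊢
      have := psi_add C x y
      have := hr y hy
      nlinarith
    have e3 := card_le_card e2
    have e4 : (m + 1) * (Z.card - 1) = m * (Z.card - 1) + (Z.card - 1) := by ring
    omega

theorem ball_sym {C : Finset F} (hC : C.Nonempty) {R : ℕ} (h : 4 * R ≤ C.card) :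
    3 * (lev (psi C) R).card ≤ 4 * C.card := by
  refine le_trans (Nat.mul_le_mul_left _ (card_le_card ?_)) (sym_card hC)
  intro x hx
  rw [mem_lev] at hx
  exact mem_filter.mpr ⟨mem_univ _, by omega⟩

theorem ball_up (hp : (Fintype.card F).Prime) {C : Finset F} {R : ℕ} (h1 : 1 ≤ R)
    (h8 : 8 * R ≤ C.card) (h2 : 2 * C.card ≤ Fintype.card F) :
    (lev (psi C) R).card ≤ 12 * R := by
  have hC : C.Nonempty := card_pos.mp (by omega)
  set X := lev (psi C) R with hX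
  have hXn : X.Nonempty := ⟨0, by simp [hX, mem_lev, psi_zero]⟩
  set m := C.card / (4 * R) with hm
  have m2 : 2 ≤ m := (Nat.le_div_iff_mul_le (by omega)).mpr (by omega)
  have m3 : m * (4 * R) ≤ C.card := Nat.div_mul_le_self _ _
  have m4 : C.card < (m + 1) * (4 * R) := by
    have := Nat.lt_div_mul_add (a := C.card) (b := 4 * R) (by omega)
    nlinarith
  have e1 := ball_iter hp hXn (fun h hh => mem_lev.mp hh) m
  have e2 := ball_sym hC (R := m * R) (by nlinarith)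
  have e3 : m * (X.card - 1) + 1 ≤ (lev (psi C) (m * R)).card := by omega
  have e4 : 3 * (m * (X.card - 1)) ≤ m * (32 * R) := by nlinarith
  have e5 : 3 * (X.card - 1) ≤ 32 * R := by
    have : m * (3 * (X.card - 1)) ≤ m * (32 * R) := by nlinarith
    exact Nat.le_of_mul_le_mul_left this (by omega)
  omega

theorem ball_low (hp : (Fintype.card F).Prime) {C Z : Finset F} {r m : ℕ} (hC : C.Nonempty)
    (hZ : 2 ≤ Z.card) (hr : ∀ h ∈ Z, psi C h ≤ r) (hm : 4 * (m * r) ≤ C.card)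
    (h2 : 2 * C.card ≤ Fintype.card F) : m * Z.card ≤ 2 * (lev (psi C) (m * r)).card := by
  have c1 := hC.card_pos
  have e1 := ball_iter hp (card_pos.mp (by omega)) hr m
  have e2 := ball_sym hC hm
  have e3 : m * (Z.card - 1) + 1 ≤ (lev (psi C) (m * r)).card := by omega
  have e4 : m * Z.card ≤ m * (2 * (Z.card - 1)) := Nat.mul_le_mul_left _ (by omega)
  nlinarith

theorem transfer (hp : (Fintype.card F).Prime) {l : F} {B C D : Finset F} {u : ℕ}
    (h : Trio l B C D) (hB : B.Nonempty) (hD : D.Nonempty)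
    (hu : Fintype.card F = B.card + C.card + D.card + u) {t : F} (ht : t ∈ Lam l) {x : F}
    (hx : psi C x < C.card) : psi D (t * x) ≤ psi C x + u + 1 := by
  have hs : (1 - t)⁻¹ ∈ Lam l := lam_inv h.l0 h.l1 (lam_one_sub h.l0 h.l1 ht)
  set s := (1 - t)⁻¹ with hsd
  have t1 : 1 - t ≠ 0 := sub_ne_zero.mpr (lam_ne_one h.l0 h.l1 ht).symm
  have s0 : s ≠ 0 := inv_ne_zero t1
  have s1 : 1 - s ≠ 0 := sub_ne_zero.mpr (lam_ne_one h.l0 h.l1 hs).symm
  have e1 := h.swap12.swap23.comb_le (u := u) (by omega) hs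
  set C' := C ∩ ((-x) +ᵥ C) with hC'
  have c1 : C'.card + psi C x = C.card := by
    rw [← psi_neg C x]; exact card_inter_shift C (-x)
  set D' := D ∪ ((-(t * x)) +ᵥ D) with hD'
  have d1 : D'.card = D.card + psi D (t * x) := by
    rw [← psi_neg D (t * x)]; exact card_union_shift D _
  have e2 : comb s C' D' ⊆ comb s C D := by
    intro w hw
    obtain ⟨y, hy, z, hz, rfl⟩ := mem_comb.mp hw
    obtain ⟨hy1, hy2⟩ := mem_inter.mp hy
    rw [basic_mem_shift, neg_neg] at hy2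
    rcases mem_union.mp hz with hz | hz
    · exact mem_comb.mpr ⟨y, hy1, z, hz, rfl⟩
    · rw [basic_mem_shift, neg_neg] at hz
      refine mem_comb.mpr ⟨_, hy2, _, hz, ?_⟩
      rw [hsd]; field_simp; ring
  have e3 := card_le_card e2
  have hC'n : C'.Nonempty := card_pos.mp (by omega)
  have hD'n : D'.Nonempty := hD.mono subset_union_left
  have e4 := cd hp (X := (1 - s) • C') (Y := s • D') hC'n.smul_finset hD'n.smul_finset
  rw [card_smul_finset₀ s1, card_smul_finset₀ s0] at e4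
  have b1 := hB.card_pos
  unfold comb at e3
  unfold comb at e1
  omega

theorem roughIso (hp : (Fintype.card F).Prime) {l : F} {B C D : Finset F} {u : ℕ}
    (h : Trio l B C D) (hB : B.Nonempty)
    (hu : Fintype.card F = B.card + C.card + D.card + u) (hcd : C.card ≤ D.card)
    (hsm : 2 * (u + 1) < C.card) {t t' : F} (ht : t ∈ Lam l) (ht' : t' ∈ Lam l) {x : F}
    (hx : 2 * psi C x ≤ C.card) : psi C (t * t' * x) ≤ psi C x + 2 * (u + 1) := by
  have e1 := transfer hp h hB (card_pos.mp (by omega)) hu ht' (x := x) (by omega)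
  have e2 := transfer hp h.swap23 hB (card_pos.mp (by omega)) (u := u) (by omega) ht
    (x := t' * x) (by omega)
  rw [mul_assoc]
  omega

theorem exists_pi (hp : (Fintype.card F).Prime) (h5 : 5 < Fintype.card F) {l : F} (h0 : l ≠ 0)
    (h1 : l ≠ 1) : ∃ t ∈ Lam l, ∃ t' ∈ Lam l, (t * t') ^ 2 ≠ 1 := by
  have h2 : 1 - l ≠ 0 := sub_ne_zero.mpr h1.symm
  by_cases hl : 2 * l = 1
  · refine ⟨l, self_mem_Lam l, l, self_mem_Lam l, ?_⟩
    intro e
    have e15 : (15 : F) = 0 := by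
      have : (2 * l) ^ 4 = 16 * (l * l) ^ 2 := by ring
      rw [hl, e] at this
      linear_combination -this
    have e3 : (3 : F) ≠ 0 := by
      intro e3
      have := int_cast_eq hp (m := 3) (n := 0) (by simpa using e3) (by simp; omega)
      omega
    have e5 : (5 : F) ≠ 0 := by
      intro e5
      have := int_cast_eq hp (m := 5) (n := 0) (by simpa using e5) (by simp; omega)
      omega
    exact mul_ne_zero e3 e5 (by linear_combination e15)
  · refine ⟨l, self_mem_Lam l, (1 - l)⁻¹, by simp [Lam], ?_⟩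
    intro e
    apply hl
    field_simp at e
    linear_combination e

end Pool.Agent.P.MP_862e21_al
end

-- part Pool.Agent.P.MP_862e21_al.Rect
section

namespace Pool.Agent.P.MP_862e21_al

open Finset Pointwise

variable {F : Type*} [Field F] [DecidableEq F]

omit [DecidableEq F] in
theorem rect_char [Fintype F] (hp : (Fintype.card F).Prime) :
    ∃ (e : AddChar F ℂ) (v : F → ℤ), e.IsPrimitive ∧ (∀ h, (v h : F) = h) ∧
      (∀ h, 2 * |v h| ≤ (Fintype.card F : ℤ)) ∧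
      ∀ h, (e h).re = Real.cos (2 * Real.pi * v h / Fintype.card F) := by
  obtain ⟨p, hpF⟩ : ∃ p, Fintype.card F = p := ⟨_, rfl⟩
  rw [hpF] at hp ⊢
  have : NeZero p := ⟨hp.ne_zero⟩
  have : Fact (1 < p) := ⟨hp.one_lt⟩
  let iso : ZMod p ≃+* F := ZMod.ringEquivOfPrime F hp hpF
  refine ⟨(ZMod.stdAddChar (N := p)).compAddMonoidHom iso.symm.toAddMonoidHom,
    fun h => (iso.symm h).valMinAbs, ?_, fun h => ?_, fun h => ?_, fun h => ?_⟩
  · refine AddChar.IsPrimitive.of_ne_one (AddChar.ne_one_iff.2 ⟨1, fun h => ?_⟩)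
    have h1 : ZMod.stdAddChar (N := p) (iso.symm 1) = 1 := h
    rw [map_one, ← (ZMod.stdAddChar (N := p)).map_zero_eq_one,
      ZMod.injective_stdAddChar.eq_iff] at h1
    exact one_ne_zero h1
  · have h1 : (((iso.symm h).valMinAbs : ℤ) : ZMod p) = iso.symm h := ZMod.coe_valMinAbs _
    have h2 := congrArg iso h1
    rwa [map_intCast, RingEquiv.apply_symm_apply] at h2
  · have h1 := ZMod.natAbs_valMinAbs_le (iso.symm h)
    show 2 * |(iso.symm h).valMinAbs| ≤ (p : ℤ)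
    rw [Int.abs_eq_natAbs]
    generalize (iso.symm h).valMinAbs.natAbs = k at h1 ⊢
    omega
  · have h1 : (((iso.symm h).valMinAbs : ℤ) : ZMod p) = iso.symm h := ZMod.coe_valMinAbs _
    have h2 : ((ZMod.stdAddChar (N := p)).compAddMonoidHom iso.symm.toAddMonoidHom) h =
        ZMod.stdAddChar (N := p) (iso.symm h) := rfl
    have h3 := ZMod.stdAddChar_coe (N := p) (iso.symm h).valMinAbs
    rw [h1] at h3
    show _ = Real.cos (2 * Real.pi * ((iso.symm h).valMinAbs : ℤ) / p)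
    rw [h2, h3, ← Complex.exp_ofReal_mul_I_re]
    congr 2
    push_cast
    ring

theorem rect_sum [Fintype F] {e : AddChar F ℂ} (he : e.IsPrimitive) (C : Finset F) (y : F) :
    ∑ ξ : F, Complex.normSq (∑ x ∈ C, e (ξ * x)) * (e (ξ * y)).re =
      (Fintype.card F : ℝ) * ((C.card : ℝ) - psi C y) := by
  have h1 : ∀ ξ : F, ((Complex.normSq (∑ x ∈ C, e (ξ * x)) : ℝ) : ℂ) * e (ξ * y) =
      ∑ x ∈ C, ∑ x' ∈ C, e (ξ * (x + y - x')) := by
    intro ξ
    rw [← Complex.mul_conj, map_sum, sum_mul_sum, sum_mul]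
    refine sum_congr rfl fun x _ => ?_
    rw [sum_mul]
    refine sum_congr rfl fun x' _ => ?_
    rw [← AddChar.map_neg_eq_conj, ← AddChar.map_add_eq_mul, ← AddChar.map_add_eq_mul]
    congr 1
    ring
  have h2 : ∑ ξ : F, ((Complex.normSq (∑ x ∈ C, e (ξ * x)) : ℝ) : ℂ) * e (ξ * y) =
      (Fintype.card F : ℂ) * ((C.filter (fun x => x + y ∈ C)).card : ℂ) := by
    simp only [h1]
    rw [sum_comm]
    have h3 : ∀ x ∈ C, ∑ ξ : F, ∑ x' ∈ C, e (ξ * (x + y - x')) =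
        if x + y ∈ C then (Fintype.card F : ℂ) else 0 := by
      intro x _
      rw [sum_comm]
      simp only [AddChar.sum_mulShift _ he, sub_eq_zero]
      push_cast
      rw [sum_ite_eq]
    rw [sum_congr rfl h3, ← sum_filter, sum_const, nsmul_eq_mul, mul_comm]
  have h4 : (C.filter (fun x => x + y ∈ C)).card + psi C y = C.card :=
    card_filter_add_card_filter_not _
  have h5 := congrArg Complex.re h2
  rw [Complex.re_sum] at h5
  simp only [Complex.re_ofReal_mul] at h5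
  rw [h5, ← h4]
  simp

theorem rect_pick [Fintype F] {e : AddChar F ℂ} (he : e.IsPrimitive) {C Y : Finset F} {R : ℕ}
    (hC : C.Nonempty) (h2 : 2 * C.card ≤ Fintype.card F) (hY : ∀ y ∈ Y, R * psi C y ≤ C.card) :
    ∃ ξ : F, ξ ≠ 0 ∧ (R : ℝ) * ∑ y ∈ Y, (1 - (e (ξ * y)).re) ≤ 2 * Y.card := by
  by_contra hcon
  push Not at hcon
  obtain ⟨w, hw⟩ : ∃ w : F → ℝ, w = fun ξ => Complex.normSq (∑ x ∈ C, e (ξ * x)) := ⟨_, rfl⟩
  have hw0 : ∀ ξ, 0 ≤ w ξ := fun ξ => by
    rw [hw]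
    exact Complex.normSq_nonneg _
  have hs : ∀ y, ∑ ξ : F, w ξ * (e (ξ * y)).re =
      (Fintype.card F : ℝ) * ((C.card : ℝ) - psi C y) := fun y => by
    rw [hw]
    exact rect_sum he C y
  have hpsi0 : psi C 0 = 0 := by
    simp [psi]
  have htot : ∑ ξ : F, w ξ = (Fintype.card F : ℝ) * C.card := by
    simpa [hpsi0] using hs 0
  have hwz : w 0 = (C.card : ℝ) ^ 2 := by
    rw [hw]
    simp [sq]
  have hc : (0 : ℝ) < C.card := by exact_mod_cast hC.card_pos
  have h2' : 2 * (C.card : ℝ) ≤ Fintype.card F := by exact_mod_cast h2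
  have hne : ∑ ξ ∈ univ.erase (0 : F), w ξ = (Fintype.card F : ℝ) * C.card - (C.card : ℝ) ^ 2 := by
    rw [← htot, ← hwz, ← add_sum_erase univ w (mem_univ 0)]
    ring
  have hpos : ∃ ξ ∈ univ.erase (0 : F), 0 < w ξ := by
    by_contra h
    push Not at h
    have := sum_nonpos h
    rw [hne] at this
    nlinarith
  have hy : ∀ y, ∑ ξ ∈ univ.erase (0 : F), w ξ * (1 - (e (ξ * y)).re) =
      (Fintype.card F : ℝ) * psi C y := by
    intro y
    have h3 := add_sum_erase univ (fun ξ => w ξ * (1 - (e (ξ * y)).re)) (mem_univ (0 : F))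
    simp only [zero_mul, AddChar.map_zero_eq_one, Complex.one_re, sub_self, mul_zero,
      zero_add] at h3
    rw [h3]
    simp only [mul_sub, mul_one, sum_sub_distrib, hs, htot]
    ring
  have hlt : ∑ ξ ∈ univ.erase (0 : F), w ξ * (2 * Y.card) <
      ∑ ξ ∈ univ.erase (0 : F), w ξ * ((R : ℝ) * ∑ y ∈ Y, (1 - (e (ξ * y)).re)) := by
    refine sum_lt_sum (fun ξ hξ => ?_) ?_
    · exact mul_le_mul_of_nonneg_left (hcon ξ (ne_of_mem_erase hξ)).le (hw0 ξ)
    · obtain ⟨ξ, hξ, h⟩ := hpos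
      exact ⟨ξ, hξ, mul_lt_mul_of_pos_left (hcon ξ (ne_of_mem_erase hξ)) h⟩
  have hr : ∑ ξ ∈ univ.erase (0 : F), w ξ * ((R : ℝ) * ∑ y ∈ Y, (1 - (e (ξ * y)).re)) =
      ∑ y ∈ Y, (Fintype.card F : ℝ) * (R * psi C y) := by
    simp only [mul_sum]
    rw [sum_comm]
    refine sum_congr rfl fun y _ => ?_
    rw [mul_left_comm, ← hy y, mul_sum]
    refine sum_congr rfl fun ξ _ => ?_
    ring
  have hle : ∑ y ∈ Y, (Fintype.card F : ℝ) * (R * psi C y) ≤
      Y.card • ((Fintype.card F : ℝ) * C.card) := by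
    refine sum_le_card_nsmul _ _ _ fun y hy => ?_
    have : (R : ℝ) * psi C y ≤ C.card := by exact_mod_cast hY y hy
    exact mul_le_mul_of_nonneg_left this (by positivity)
  rw [nsmul_eq_mul] at hle
  rw [hr, ← sum_mul, hne] at hlt
  have hY0 : (0 : ℝ) ≤ Y.card := by positivity
  nlinarith [mul_nonneg hY0 (mul_nonneg hc.le (sub_nonneg.2 h2'))]

theorem rect_cos {m : ℤ} {p : ℕ} (h1 : 2 * |m| ≤ (p : ℤ)) (h2 : (p : ℤ) < 12 * |m|) :
    1 / 18 ≤ 1 - Real.cos (2 * Real.pi * m / p) := by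
  have hp : (0 : ℤ) < p := by
    have := abs_nonneg m
    omega
  have hp' : (0 : ℝ) < p := by exact_mod_cast hp
  have a1 : 2 * |(m : ℝ)| ≤ p := by exact_mod_cast h1
  have a2 : (p : ℝ) < 12 * |(m : ℝ)| := by exact_mod_cast h2
  have hpi := Real.pi_pos
  have b1 : |2 * Real.pi * m / p| ≤ Real.pi := by
    rw [abs_div, abs_mul, abs_of_pos hp', abs_of_pos (by positivity : 0 < 2 * Real.pi),
      div_le_iff₀ hp']
    nlinarith
  have b2 := Real.cos_le_one_sub_mul_cos_sq b1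
  have b3 : 2 / Real.pi ^ 2 * (2 * Real.pi * m / p) ^ 2 = 8 * (|(m : ℝ)| / p) ^ 2 := by
    rw [div_pow |(m : ℝ)|, sq_abs]
    field_simp
    ring
  have b4 : 1 / 12 ≤ |(m : ℝ)| / p := by
    rw [le_div_iff₀ hp']
    linarith
  rw [b3] at b2
  nlinarith

theorem rect [Fintype F] (hp : (Fintype.card F).Prime) {C Y : Finset F} {R : ℕ}
    (hC : C.Nonempty) (h2 : 2 * C.card ≤ Fintype.card F) (hY : ∀ y ∈ Y, R * psi C y ≤ C.card) :
    ∃ (ξ : F) (φ : F → ℤ), ξ ≠ 0 ∧ (∀ h, (φ h : F) = ξ * h) ∧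
      (∀ h, 2 * |φ h| ≤ (Fintype.card F : ℤ)) ∧
      R * (Y.filter (fun y => (Fintype.card F : ℤ) < 12 * |φ y|)).card ≤ 36 * Y.card := by
  obtain ⟨e, v, he, hv, hb, hre⟩ := rect_char hp
  obtain ⟨ξ, hξ, hsum⟩ := rect_pick he hC h2 hY
  refine ⟨ξ, fun h => v (ξ * h), hξ, fun h => hv _, fun h => hb _, ?_⟩
  have h3 : (Y.filter (fun y => (Fintype.card F : ℤ) < 12 * |v (ξ * y)|)).card • (1 / 18 : ℝ) ≤
      ∑ y ∈ Y.filter (fun y => (Fintype.card F : ℤ) < 12 * |v (ξ * y)|),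
        (1 - (e (ξ * y)).re) := by
    refine card_nsmul_le_sum _ _ _ fun y hy => ?_
    rw [hre]
    exact rect_cos (hb _) (mem_filter.1 hy).2
  have h4 : ∑ y ∈ Y.filter (fun y => (Fintype.card F : ℤ) < 12 * |v (ξ * y)|),
      (1 - (e (ξ * y)).re) ≤ ∑ y ∈ Y, (1 - (e (ξ * y)).re) := by
    refine sum_le_sum_of_subset_of_nonneg (filter_subset _ _) fun y _ _ => ?_
    rw [hre]
    exact sub_nonneg.2 (Real.cos_le_one _)
  rw [nsmul_eq_mul] at h3
  have h5 := mul_le_mul_of_nonneg_left (h3.trans h4) (Nat.cast_nonneg (α := ℝ) R)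
  have h6 : (R : ℝ) * (Y.filter (fun y => (Fintype.card F : ℤ) < 12 * |v (ξ * y)|)).card ≤
      36 * Y.card := by linarith
  exact_mod_cast h6

end Pool.Agent.P.MP_862e21_al
end

-- part Pool.Agent.P.MP_862e21_al.Collinear
section

namespace Pool.Agent.P.MP_862e21_al

open Finset Pointwise

variable {F : Type*} [Field F] [DecidableEq F]

theorem collinear_nu {ν : F → ℕ} (h0 : ν 0 = 0) (hadd : ∀ h k, ν (h + k) ≤ ν h + ν k)
    {A : Finset F} {n : ℕ} (hA : ∀ x ∈ A, ν x ≤ n) (j : ℕ) : ∀ x ∈ j • A, ν x ≤ j * n := by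
  induction j with
  | zero =>
    intro x hx
    rw [zero_nsmul, mem_zero] at hx
    rw [hx, h0]
    exact Nat.zero_le _
  | succ j ih =>
    intro x hx
    rw [succ_nsmul] at hx
    obtain ⟨a, ha, b, hb, rfl⟩ := mem_add.1 hx
    have h1 := ih a ha
    have h2 := hA b hb
    have h3 := hadd a b
    rw [Nat.succ_mul]
    omega

theorem collinear_grow {ν : F → ℕ} (h0 : ν 0 = 0) (hadd : ∀ h k, ν (h + k) ≤ ν h + ν k)
    {J : ℕ} {ψ : F → ℤ} (hψ : ∀ x y, ν x < J → ν y < J → ν (x + y) < J → ψ (x + y) = ψ x + ψ y)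
    {A : Finset F} (hne : A.Nonempty) {n : ℕ} (hA : ∀ x ∈ A, ν x ≤ n) (j : ℕ) (hj : j * n < J) :
    j * ((A.image ψ).card - 1) + 1 ≤ ((j • A).image ψ).card := by
  induction j with
  | zero => simp
  | succ j ih =>
    rw [Nat.succ_mul] at hj
    have h1 := ih (by omega)
    have h2 : (j • A).image ψ + A.image ψ ⊆ ((j + 1) • A).image ψ := by
      intro v hv
      obtain ⟨_, ha', _, hb', rfl⟩ := mem_add.1 hv
      obtain ⟨a, ha, rfl⟩ := mem_image.1 ha'
      obtain ⟨b, hb, rfl⟩ := mem_image.1 hb'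
      have e1 := collinear_nu h0 hadd hA j a ha
      have e2 := hA b hb
      have e3 := hadd a b
      refine mem_image.2 ⟨a + b, ?_, hψ a b (by omega) (by omega) (by omega)⟩
      rw [succ_nsmul]
      exact add_mem_add ha hb
    have h3 := cauchy_davenport_add_of_linearOrder_isCancelAdd
      (s := (j • A).image ψ) (t := A.image ψ) (card_pos.1 (by omega)) (hne.image ψ)
    have h4 := card_le_card h2
    have h5 := card_pos.2 (hne.image ψ)
    rw [Nat.succ_mul]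
    omega

theorem collinear_const {ν : F → ℕ} (h0 : ν 0 = 0) (hadd : ∀ h k, ν (h + k) ≤ ν h + ν k)
    {J : ℕ} {ψ : F → ℤ} (hψ : ∀ x y, ν x < J → ν y < J → ν (x + y) < J → ψ (x + y) = ψ x + ψ y)
    (hψ0 : ψ 0 = 0) {A : Finset F} {n : ℕ} (hA : ∀ x ∈ A, ν x ≤ n) {τ : ℤ} (hτ : ∀ x ∈ A, ψ x = τ)
    (j : ℕ) (hj : j * n < J) : ∀ x ∈ j • A, ψ x = j * τ := by
  induction j with
  | zero =>
    intro x hx
    rw [zero_nsmul, mem_zero] at hx
    rw [hx, hψ0]
    simp
  | succ j ih =>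
    intro x hx
    rw [Nat.succ_mul] at hj
    rw [succ_nsmul] at hx
    obtain ⟨a, ha, b, hb, rfl⟩ := mem_add.1 hx
    have e1 := collinear_nu h0 hadd hA j a ha
    have e2 := hA b hb
    have e3 := hadd a b
    rw [hψ a b (by omega) (by omega) (by omega), ih (by omega) a ha, hτ b hb]
    push_cast
    ring

theorem collinear [Fintype F] {ν : F → ℕ} {t : F} {J z n : ℕ} {φ : F → ℤ}
    (hF : Filt ν t J z) (hφ : Coord ν J φ) (hn : 1 ≤ n) (hJ : 2000 * n ≤ J) {h k : F}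
    (hh : ν h ≤ n) (hk : ν k ≤ n) : φ (t * h) * φ k = φ h * φ (t * k) := by
  have h0 : φ 0 = 0 := by
    have := hφ.add 0 0 (by rw [hF.zero]; omega) (by rw [hF.zero]; omega)
      (by rw [add_zero, hF.zero]; omega)
    rw [add_zero] at this
    omega
  by_cases hh0 : h = 0
  · subst hh0
    simp [h0]
  have hφ' : ∀ x y, ν x < J → ν y < J → ν (x + y) < J → φ (x + y) = φ x + φ y :=
    fun x y h1 h2 h3 => hφ.add x y h1.le h2.le h3.le
  obtain ⟨θ, hθ⟩ : ∃ θ : F → ℤ, ∀ x, θ x = φ (t * h) * φ x - φ h * φ (t * x) := ⟨_, fun _ => rfl⟩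
  have hθa : ∀ x y, ν x < J → ν y < J → ν (x + y) < J → θ (x + y) = θ x + θ y := by
    intro x y h1 h2 h3
    have e1 := hF.mul x h1
    have e2 := hF.mul y h2
    have e3 := hF.mul _ h3
    rw [mul_add] at e3
    rw [hθ, hθ, hθ, mul_add, hφ' x y h1 h2 h3, hφ.add _ _ (by omega) (by omega) (by omega)]
    ring
  have hθ0 : θ 0 = 0 := by rw [hθ, mul_zero, h0]; ring
  have hθh : θ h = 0 := by rw [hθ]; ring
  by_contra hne
  have hθk : θ k ≠ 0 := fun e => hne (by rw [hθ] at e; omega)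
  obtain ⟨A, hA⟩ : ∃ A, A = lev ν n := ⟨_, rfl⟩
  have hAm : ∀ x, x ∈ A ↔ ν x ≤ n := fun x => by rw [hA, mem_lev]
  have hA0 : (0 : F) ∈ A := (hAm 0).2 (by rw [hF.zero]; omega)
  have hAn : A.Nonempty := ⟨0, hA0⟩
  obtain ⟨τ, hτ, hmax⟩ := exists_max_image (A.image θ)
    (fun v => (A.filter fun x => θ x = v).card) (hAn.image θ)
  obtain ⟨B, hB⟩ : ∃ B, B = A.filter fun x => θ x = τ := ⟨_, rfl⟩
  rw [← hB] at hmax
  have hBm : ∀ x ∈ B, ν x ≤ n ∧ θ x = τ := fun x hx => by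
    rw [hB, mem_filter, hAm] at hx
    exact hx
  have c1 : A.card ≤ B.card * (A.image θ).card := card_le_mul_card_image A _ hmax
  have c2 : 2 ≤ (A.image θ).card :=
    one_lt_card.2 ⟨θ k, mem_image_of_mem _ ((hAm k).2 hk), θ 0, mem_image_of_mem _ hA0,
      by rwa [hθ0]⟩
  have c3 : 2 ≤ B.card := by
    refine le_trans ?_ (hmax 0 (mem_image.2 ⟨0, hA0, hθ0⟩))
    exact one_lt_card.2 ⟨h, mem_filter.2 ⟨(hAm h).2 hh, hθh⟩, 0, mem_filter.2 ⟨hA0, hθ0⟩, hh0⟩
  obtain ⟨j, hj⟩ : ∃ j : ℕ, j = 800 := ⟨_, rfl⟩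
  have hjn0 : j * n = 800 * n := by rw [hj]
  have hjn : j * n < J := by omega
  have g1 := collinear_grow hF.zero hF.add hθa hAn (fun x hx => (hAm x).1 hx) j hjn
  have g2 := (collinear_grow hF.zero hF.add hφ' (card_pos.1 (by omega : 0 < B.card))
    (fun x hx => (hBm x hx).1) j hjn).trans card_image_le
  rw [card_image_of_injective _ hφ.inj] at g2
  have g3 := collinear_const hF.zero hF.add hθa hθ0 (fun x hx => (hBm x hx).1)
    (fun x hx => (hBm x hx).2) j hjn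
  have g4 := collinear_nu hF.zero hF.add (fun x hx => (hAm x).1 hx) j
  have g5 := collinear_nu hF.zero hF.add (fun x hx => (hBm x hx).1) j
  have hrep : ∀ v : ℤ, ∃ x, v ∈ (j • A).image θ → ν x ≤ j * n ∧ θ x = v := by
    intro v
    by_cases hv : v ∈ (j • A).image θ
    · obtain ⟨x, hx, e⟩ := mem_image.1 hv
      exact ⟨x, fun _ => ⟨g4 x hx, e⟩⟩
    · exact ⟨0, fun h1 => (hv h1).elim⟩
  choose rep hrep using hrep
  have hval : ∀ p ∈ ((j • A).image θ) ×ˢ (j • B),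
      ν (rep p.1 + p.2) ≤ 2 * (j * n) ∧ θ (rep p.1 + p.2) = p.1 + j * τ := by
    intro p hp
    obtain ⟨p1, p2⟩ := mem_product.1 hp
    have e1 := (hrep _ p1).1
    have e2 := g5 _ p2
    have e3 := hF.add (rep p.1) p.2
    refine ⟨by omega, ?_⟩
    rw [hθa _ _ (by omega) (by omega) (by omega), (hrep _ p1).2, g3 _ p2]
  have c4 : (((j • A).image θ) ×ˢ (j • B)).card ≤ (lev ν (2 * (j * n))).card := by
    refine card_le_card_of_injOn (fun p => rep p.1 + p.2)
      (fun p hp => mem_coe.2 (mem_lev.2 (hval p (mem_coe.1 hp)).1)) ?_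
    intro p hp p' hp' e
    have e0 : rep p.1 + p.2 = rep p'.1 + p'.2 := e
    have e1 := (hval p (mem_coe.1 hp)).2
    rw [e0, (hval p' (mem_coe.1 hp')).2] at e1
    have e2 : p.1 = p'.1 := (add_right_cancel e1).symm
    rw [e2] at e0
    exact Prod.ext e2 (add_left_cancel e0)
  rw [card_product] at c4
  have c5 := hF.up (2 * (j * n)) (by omega) (by omega)
  have c6 := hF.low n hn (by omega)
  rw [← hA] at c6
  have c7 := Nat.mul_le_mul g1 g2
  obtain ⟨a, ha⟩ : ∃ a, (A.image θ).card = a + 2 := ⟨(A.image θ).card - 2, by omega⟩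
  obtain ⟨b, hb⟩ : ∃ b, B.card = b + 2 := ⟨B.card - 2, by omega⟩
  rw [ha, hb] at c1 c7
  have c8 : 48 * (2 * (j * n)) * z = 96 * j * (n * z) := by ring
  have c9 : (j * (a + 1) + 1) * (j * (b + 1) + 1) ≤ 96 * j * (2 * ((b + 2) * (a + 2))) := by
    refine le_trans c7 (c4.trans (c5.trans ?_))
    rw [c8]
    exact Nat.mul_le_mul_left _ (c6.trans (Nat.mul_le_mul_left _ c1))
  subst hj
  nlinarith [Nat.zero_le (a * b), Nat.zero_le a, Nat.zero_le b]

end Pool.Agent.P.MP_862e21_al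
end

-- part Pool.Agent.P.MP_862e21_al.Valu
section

namespace Pool.Agent.P.MP_862e21_al

open Finset Pointwise

variable {F : Type*} [Field F] [DecidableEq F]

omit [DecidableEq F] in
theorem valu_zero {ν : F → ℕ} {J : ℕ} {φ : F → ℤ} (h0 : ν 0 = 0) (hφ : Coord ν J φ) :
    φ 0 = 0 := by
  have := hφ.add 0 0 (by omega) (by omega) (by rw [add_zero]; omega)
  rw [add_zero] at this
  omega

theorem valu_dvd {p k : ℕ} (hp : p.Prime) {a : ℤ} (ha : a ≠ 0) :
    (p : ℤ) ^ k ∣ a ↔ k ≤ a.natAbs.factorization p := by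
  rw [← hp.pow_dvd_iff_le_factorization (Int.natAbs_ne_zero.2 ha), ← Int.natCast_dvd]
  push_cast
  rfl

theorem valu_core [Fintype F] {ν : F → ℕ} {t π : F} {J z p : ℕ} {φ : F → ℤ} (hπ : π ≠ 0)
    (hp : p.Prime) (hF : Filt ν t J z) (hφ : Coord ν J φ) (hJ : 400 ≤ J)
    (hm : ∀ h, ν h < J → ν (π * h) ≤ ν h + 1)
    (hs : ∀ h, h ≠ 0 → ν h ≤ 16 →
      (φ (π * h)).natAbs.factorization p < (φ h).natAbs.factorization p) : False := by
  have z0 := valu_zero hF.zero hφ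
  have nz : ∀ x, x ≠ 0 → φ x ≠ 0 := fun x hx h => hx (hφ.inj (h.trans z0.symm))
  have h2 : 1 < (lev ν 1).card := by
    have := hF.one
    have := hF.two
    omega
  obtain ⟨k, hk, hk0⟩ := exists_mem_ne h2 0
  obtain ⟨h0, hh0, hmin⟩ := exists_min_image ((lev ν 1).erase 0)
    (fun x => (φ x).natAbs.factorization p) ⟨k, mem_erase.2 ⟨hk0, hk⟩⟩
  obtain ⟨h00, h01⟩ := mem_erase.1 hh0
  have g0 : ∀ i : ℕ, π ^ i * h0 ≠ 0 := fun i => mul_ne_zero (pow_ne_zero _ hπ) h00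
  have gs : ∀ i : ℕ, π ^ (i + 1) * h0 = π * (π ^ i * h0) := fun i => by ring
  have gν : ∀ i : ℕ, i ≤ 15 → ν (π ^ i * h0) ≤ i + 1 := by
    intro i
    induction i with
    | zero =>
      intro _
      rw [pow_zero, one_mul]
      exact mem_lev.1 h01
    | succ i ih =>
      intro hi
      have h1 := ih (by omega)
      have h3 := hm (π ^ i * h0) (by omega)
      rw [gs]
      omega
  have key : ∀ i : ℕ, i ≤ 15 → ∃ S : Finset F, 2 ^ i * z ≤ S.card ∧ ∀ x ∈ S,
      ν x ≤ 16 * i + 1 ∧ (p : ℤ) ^ (φ (π ^ i * h0)).natAbs.factorization p ∣ φ x := by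
    intro i
    induction i with
    | zero =>
      intro _
      refine ⟨lev ν 1, by rw [pow_zero, one_mul]; exact hF.one, fun x hx => ⟨mem_lev.1 hx, ?_⟩⟩
      rw [pow_zero, one_mul]
      by_cases hx0 : x = 0
      · rw [hx0, z0]
        exact dvd_zero _
      · exact (valu_dvd hp (nz x hx0)).2 (hmin x (mem_erase.2 ⟨hx0, hx⟩))
    | succ i ih =>
      intro hi
      obtain ⟨S, hS, hx⟩ := ih (by omega)
      have hg := gν (i + 1) hi
      have hlt := hs (π ^ i * h0) (g0 i) (by have := gν i (by omega); omega)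
      rw [← gs] at hlt
      have hg0 := g0 (i + 1)
      generalize π ^ (i + 1) * h0 = g at hg hlt hg0
      have hν : ∀ y ∈ S, ν (g + y) ≤ 16 * (i + 1) + 1 := fun y hy => by
        have := hF.add g y
        have := (hx y hy).1
        omega
      have hadd : ∀ y ∈ S, φ (g + y) = φ g + φ y := fun y hy =>
        hφ.add g y (by omega) (by have := (hx y hy).1; omega) (by have := hν y hy; omega)
      have hdis : Disjoint S (S.image fun y => g + y) := by
        refine disjoint_left.2 fun x hxS hx' => ?_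
        obtain ⟨y, hy, rfl⟩ := mem_image.1 hx'
        have d1 := (hx _ hxS).2
        rw [hadd y hy] at d1
        have d2 := (valu_dvd hp (nz g hg0)).1 ((dvd_add_left (hx y hy).2).1 d1)
        omega
      refine ⟨S ∪ S.image fun y => g + y, ?_, fun x hx' => ?_⟩
      · rw [card_union_of_disjoint hdis, card_image_of_injective _ (add_right_injective g),
          pow_succ]
        nlinarith
      · rcases mem_union.1 hx' with h1 | h1
        · exact ⟨by have := (hx x h1).1; omega, (pow_dvd_pow _ hlt.le).trans (hx x h1).2⟩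
        · obtain ⟨y, hy, rfl⟩ := mem_image.1 h1
          refine ⟨hν y hy, ?_⟩
          rw [hadd y hy]
          exact dvd_add ((valu_dvd hp (nz g hg0)).2 le_rfl)
            ((pow_dvd_pow _ hlt.le).trans (hx y hy).2)
  obtain ⟨S, hS, hx⟩ := key 15 le_rfl
  have h3 : S ⊆ lev ν 241 := fun x h => mem_lev.2 (hx x h).1
  have h4 := (hS.trans (card_le_card h3)).trans (hF.up 241 (by omega) (by omega))
  have := hF.two
  omega

theorem valu [Fintype F] {ν : F → ℕ} {t : F} {J z : ℕ} {φ : F → ℤ} (ht : t ≠ 0)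
    (ht2 : t ^ 2 ≠ 1) (hF : Filt ν t J z) (hφ : Coord ν J φ) (hJ : 400 ≤ J)
    (hc : ∀ h k, ν h ≤ 17 → ν k ≤ 17 → φ (t * h) * φ k = φ h * φ (t * k)) : False := by
  have z0 := valu_zero hF.zero hφ
  have nz : ∀ x, x ≠ 0 → (φ x).natAbs ≠ 0 := fun x hx h =>
    hx (hφ.inj ((Int.natAbs_eq_zero.1 h).trans z0.symm))
  have h2 : 1 < (lev ν 1).card := by
    have := hF.one
    have := hF.two
    omega
  obtain ⟨k, hk, hk0⟩ := exists_mem_ne h2 0
  have hk1 := mem_lev.1 hk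
  have hne : (φ (t * k)).natAbs ≠ (φ k).natAbs := by
    intro h
    apply ht2
    rcases Int.natAbs_eq_natAbs_iff.1 h with h | h
    · have h3 : t * k = 1 * k := by rw [one_mul]; exact hφ.inj h
      rw [mul_right_cancel₀ hk0 h3, one_pow]
    · have h4 := hφ.add k (-k) (by omega) (by rw [hF.neg]; omega)
        (by rw [add_neg_cancel, hF.zero]; omega)
      rw [add_neg_cancel, z0] at h4
      have h5 : φ (t * k) = φ (-k) := by omega
      have h3 : t * k = -1 * k := by rw [neg_one_mul]; exact hφ.inj h5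
      rw [mul_right_cancel₀ hk0 h3, neg_one_sq]
  obtain ⟨p, hp⟩ : ∃ p, (φ (t * k)).natAbs.factorization p ≠ (φ k).natAbs.factorization p := by
    by_contra h
    exact hne (Nat.eq_of_factorization_eq (nz _ (mul_ne_zero ht hk0)) (nz k hk0)
      fun p => not_not.1 fun h' => h ⟨p, h'⟩)
  have hpp : p.Prime := by
    by_contra h
    exact hp (by rw [Nat.factorization_eq_zero_of_not_prime _ h,
      Nat.factorization_eq_zero_of_not_prime _ h])
  have rel : ∀ h, h ≠ 0 → ν h ≤ 17 →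
      (φ (t * h)).natAbs.factorization p + (φ k).natAbs.factorization p =
        (φ h).natAbs.factorization p + (φ (t * k)).natAbs.factorization p := by
    intro h h0 hh
    have e := congrArg Int.natAbs (hc h k hh (by omega))
    rw [Int.natAbs_mul, Int.natAbs_mul] at e
    have e2 := congrArg (fun n : ℕ => n.factorization p) e
    simp only [Nat.factorization_mul (nz _ (mul_ne_zero ht h0)) (nz k hk0),
      Nat.factorization_mul (nz h h0) (nz _ (mul_ne_zero ht hk0)), Finsupp.add_apply] at e2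
    exact e2
  rcases lt_or_gt_of_ne hp with hlt | hgt
  · refine valu_core ht hpp hF hφ hJ hF.mul fun h h0 hh => ?_
    have := rel h h0 (by omega)
    omega
  · refine valu_core (inv_ne_zero ht) hpp hF hφ hJ hF.inv fun h h0 hh => ?_
    have h3 := hF.inv h (by omega)
    have := rel (t⁻¹ * h) (mul_ne_zero (inv_ne_zero ht) h0) (by omega)
    rw [mul_inv_cancel_left₀ ht] at this
    omega

end Pool.Agent.P.MP_862e21_al
end

-- part Pool.Agent.P.MP_862e21_al.Norm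
section

namespace Pool.Agent.P.MP_862e21_al

open Finset Pointwise

variable {F : Type*} [Field F] [DecidableEq F]

variable [Fintype F]

theorem normLemma (hp : (Fintype.card F).Prime) {C Z : Finset F} {r : ℕ} {t : F}
    (h2 : 2 * C.card ≤ Fintype.card F) (ht : t ≠ 0) (ht2 : t ^ 2 ≠ 1) (hr : 1 ≤ r)
    (hZ : 2 ≤ Z.card) (hrZ : r ≤ 4 * Z.card) (hψ : ∀ h ∈ Z, psi C h ≤ r)
    (hbig : 10 ^ 9 * r ≤ C.card)
    (hiso : ∀ h, 2 * psi C h ≤ C.card →
      psi C (t * h) ≤ psi C h + r ∧ psi C (t⁻¹ * h) ≤ psi C h + r) : False := by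
  obtain ⟨ν, hν⟩ : ∃ ν : F → ℕ, ∀ h m, ν h ≤ m ↔ psi C h ≤ m * r := by
    refine ⟨fun h => (psi C h + r - 1) / r, fun h m => ?_⟩
    rw [← Nat.lt_succ_iff, Nat.div_lt_iff_lt_mul hr, Nat.succ_mul]
    omega
  have hself : ∀ h, psi C h ≤ ν h * r := fun h => (hν h _).1 le_rfl
  have hlev : ∀ m, lev ν m = lev (psi C) (m * r) := by
    intro m
    ext h
    rw [mem_lev, mem_lev, hν]
  have hC : C.Nonempty := card_pos.1 (by omega)
  have hsm : ∀ h, ν h < 34000 → 2 * psi C h ≤ C.card := by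
    intro h hh
    have := (hν h 34000).1 hh.le
    omega
  have hF : Filt ν t 34000 Z.card := by
    refine ⟨Nat.le_zero.1 ((hν 0 0).2 (by rw [psi_zero]; omega)), fun h => le_antisymm
      ((hν _ _).2 (by rw [psi_neg]; exact hself h))
      ((hν _ _).2 (by rw [← psi_neg]; exact hself (-h))), fun h k => (hν _ _).2 ?_,
      fun h hh => (hν _ _).2 ?_, fun h hh => (hν _ _).2 ?_, fun m h1 hm => ?_, fun m h1 hm => ?_,
      card_le_card fun h hh => mem_lev.2 ((hν _ _).2 (by rw [one_mul]; exact hψ h hh)), hZ⟩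
    · rw [add_mul]
      exact (psi_add C h k).trans (add_le_add (hself h) (hself k))
    · rw [add_mul, one_mul]
      exact (hiso h (hsm h hh)).1.trans (Nat.add_le_add_right (hself h) r)
    · rw [add_mul, one_mul]
      exact (hiso h (hsm h hh)).2.trans (Nat.add_le_add_right (hself h) r)
    · have h3 : m * r ≤ 34000 * r := Nat.mul_le_mul_right r hm
      have h4 := ball_up hp (C := C) (R := m * r) (Nat.mul_pos h1 hr) (by omega) h2
      have h5 : m * r ≤ m * (4 * Z.card) := Nat.mul_le_mul_left m hrZ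
      rw [hlev]
      calc _ ≤ 12 * (m * (4 * Z.card)) := h4.trans (Nat.mul_le_mul_left 12 h5)
        _ = 48 * m * Z.card := by ring
    · have h3 : m * r ≤ 34000 * r := Nat.mul_le_mul_right r hm
      rw [hlev]
      exact ball_low hp hC hZ hψ (by omega) h2
  obtain ⟨ξ, φ, hξ, hφ, hhalf, hbad⟩ := rect hp (C := C) (Y := lev (psi C) (68000 * r))
    (R := 14000) hC h2 (fun y hy => by have := mem_lev.1 hy; omega)
  have hY := ball_up hp (C := C) (R := 68000 * r) (by omega) (by omega) h2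
  have hlow := hF.low 34000 (by norm_num) le_rfl
  have hq : (0 : ℤ) < Fintype.card F := by exact_mod_cast hp.pos
  have hsix : ∀ h, ν h ≤ 34000 → 6 * |φ h| ≤ (Fintype.card F : ℤ) := by
    intro h hh
    set Bad := (lev (psi C) (68000 * r)).filter
      (fun y => (Fintype.card F : ℤ) < 12 * |φ y|) with hBad
    have hex : ∃ y ∈ lev ν 34000, y ∉ Bad ∪ Bad.image (fun w => h - w) := by
      refine exists_mem_notMem_of_card_lt_card ?_
      have h3 := card_union_le Bad (Bad.image (fun w => h - w))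
      have h4 : (Bad.image (fun w => h - w)).card ≤ Bad.card := card_image_le
      omega
    obtain ⟨y, hy, hyb⟩ := hex
    have hy1 := (hν _ _).1 (mem_lev.1 hy)
    have hh1 := (hν _ _).1 hh
    have hy2 : psi C (h - y) ≤ 68000 * r := by
      have := psi_add C h (-y)
      rw [psi_neg, ← sub_eq_add_neg] at this
      omega
    have h5 : 12 * |φ y| ≤ (Fintype.card F : ℤ) := not_lt.1 fun hlt =>
      hyb (mem_union_left _ (mem_filter.2 ⟨mem_lev.2 (by omega), hlt⟩))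
    have h6 : 12 * |φ (h - y)| ≤ (Fintype.card F : ℤ) := not_lt.1 fun hlt =>
      hyb (mem_union_right _ (mem_image.2 ⟨h - y, mem_filter.2 ⟨mem_lev.2 hy2, hlt⟩, by ring⟩))
    have h7 := abs_add_le (φ y) (φ (h - y))
    have h8 : φ h = φ y + φ (h - y) := by
      refine int_cast_eq hp (by rw [Int.cast_add, hφ, hφ, hφ]; ring) ?_
      have := abs_sub (φ h) (φ y + φ (h - y))
      have := hhalf h
      omega
    rw [h8]
    omega
  have hco : Coord ν 34000 φ := by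
    refine ⟨fun h k e => mul_left_cancel₀ hξ (by rw [← hφ, ← hφ, e]), fun h k hh hk hhk => ?_⟩
    refine int_cast_eq hp (by rw [Int.cast_add, hφ, hφ, hφ]; ring) ?_
    have := abs_sub (φ (h + k)) (φ h + φ k)
    have := abs_add_le (φ h) (φ k)
    have := hsix h hh
    have := hsix k hk
    have := hsix _ hhk
    omega
  exact valu ht ht2 hF hco (by norm_num) fun h k hh hk =>
    collinear hF hco (n := 17) (by norm_num) (by norm_num) hh hk

theorem trioNorm (hp : (Fintype.card F).Prime) (h5 : 5 < Fintype.card F) {l : F}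
    {B C D : Finset F} {u : ℕ} (h : Trio l B C D) (hB : B.Nonempty)
    (hu : Fintype.card F = B.card + C.card + D.card + u) (hcd : C.card ≤ D.card)
    {X : Finset F} (hX : 2 ≤ X.card) {r : ℕ} (hr1 : 2 * (u + 1) ≤ r) (hr : r ≤ 4 * X.card)
    (hs : (X + C).card ≤ C.card + r) (hbig : 10 ^ 9 * r ≤ C.card) : False := by
  obtain ⟨x0, hx0⟩ : X.Nonempty := card_pos.1 (by omega)
  obtain ⟨t, ht, t', ht', htt⟩ := exists_pi hp h5 h.l0 h.l1
  have hZ : (X.image (fun x => x - x0)).card = X.card :=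
    card_image_of_injective _ (sub_left_injective)
  refine normLemma hp (C := C) (Z := X.image (fun x => x - x0)) (r := r) (t := t * t') (by omega)
    (mul_ne_zero (lam_ne_zero h.l0 h.l1 ht) (lam_ne_zero h.l0 h.l1 ht')) htt (by omega)
    (by omega) (by omega) (fun z hz => ?_) hbig fun x hx => ⟨?_, ?_⟩
  · obtain ⟨x, hx, rfl⟩ := mem_image.1 hz
    have := psi_sum (C := C) hx hx0
    omega
  · have := roughIso hp h hB hu hcd (by omega) ht ht' hx
    omega
  · have := roughIso hp h hB hu hcd (by omega) (lam_inv h.l0 h.l1 ht) (lam_inv h.l0 h.l1 ht') hx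
    rw [mul_inv]
    omega

theorem longC (hp : (Fintype.card F).Prime) (h5 : 5 < Fintype.card F) {l : F}
    {B C D : Finset F} {u : ℕ} (h : Trio l B C D) (hb : 2 ≤ B.card)
    (hu : Fintype.card F = B.card + C.card + D.card + u) (hcd : C.card ≤ D.card)
    (hub : u ≤ B.card) (hL : 10 ^ 10 * B.card ≤ C.card) : False := by
  have h0 : (1 - l) / l ≠ 0 := div_ne_zero (sub_ne_zero.2 h.l1.symm) h.l0
  have hX : (((1 - l) / l) • B).card = B.card := card_smul_finset₀ h0 B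
  have h1 := h.comb_le hu (self_mem_Lam l)
  rw [card_comb h.l0] at h1
  exact trioNorm hp h5 h (card_pos.1 (by omega)) hu hcd (X := ((1 - l) / l) • B) (by omega)
    (r := 2 * B.card + 2) (by omega) (by omega) (by omega) (by omega)

end Pool.Agent.P.MP_862e21_al
end

-- part Pool.Agent.P.MP_862e21_al.OLong
section

namespace Pool.Agent.P.MP_862e21_al

open Finset Pointwise

variable {F : Type*} [Field F] [DecidableEq F]

theorem olong_two [Fintype F] {c : F} {B C D : Finset F} {u : ℕ} (h : OTrio c B C D)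
    (hu : Fintype.card F = B.card + C.card + D.card + u) (hub : u + 1 ≤ B.card) {s s' y : F}
    (hs : s ∈ Lp c) (hs' : s' ∈ Lp c) (hy : y ∈ B) :
    ∃ E : Finset F, E.card + 4 ≤ 4 * B.card ∧
      ∀ z ∈ C, s * (1 - s') * z + (1 - s * (1 - s')) * y ∈ C ∪ E := by
  classical
  have n0 : ¬ IsSquare s := (h.spl.of_mem hs).n0
  have n1 : ¬ IsSquare (1 - s') := (h.spl.of_mem hs').n1
  have z0 : s ≠ 0 := fun e => n0 (e ▸ IsSquare.zero)
  have z1 : 1 - s' ≠ 0 := fun e => n1 (e ▸ IsSquare.zero)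
  obtain ⟨g, hg⟩ : ∃ g : F → F, ∀ z, g z =
      if IsSquare (z - y) then (1 - s) * y + s * z else s' * y + (1 - s') * z := ⟨_, fun _ => rfl⟩
  obtain ⟨W, hW⟩ : ∃ W : Finset F, W = ((C ∪ D)ᶜ).erase y := ⟨_, rfl⟩
  have hyC : y ∉ C := disjoint_left.1 h.dBC hy
  have hyD : y ∉ D := disjoint_left.1 h.dBD hy
  have cW : W.card + 1 = B.card + u := by
    have e1 : y ∈ (C ∪ D)ᶜ := by simp [hyC, hyD]
    have e2 := card_erase_add_one e1
    have e3 := card_compl (C ∪ D)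
    have e4 := card_union_of_disjoint h.dCD
    rw [hW]
    omega
  have hmap : ∀ z ∈ C, g z ∈ C ∪ W := by
    intro z hz
    have e0 : z - y ≠ 0 := sub_ne_zero.2 fun e => hyC (e ▸ hz)
    have e1 : g z ∉ D ∧ g z ≠ y := by
      rw [hg]
      split_ifs with hq
      · exact ⟨h.pos s hs y hy z hz hq, fun e => mul_ne_zero z0 e0 (by linear_combination e)⟩
      · exact ⟨h.ngt s' hs' y hy z hz hq, fun e => mul_ne_zero z1 e0 (by linear_combination e)⟩
    by_cases hC : g z ∈ C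
    · exact mem_union_left _ hC
    · refine mem_union_right _ ?_
      rw [hW]
      simp [hC, e1.1, e1.2]
  have hgg : ∀ z ∈ C, g (g z) = s * (1 - s') * z + (1 - s * (1 - s')) * y := by
    intro z hz
    have e0 : z - y ≠ 0 := sub_ne_zero.2 fun e => hyC (e ▸ hz)
    by_cases hq : IsSquare (z - y)
    · have e1 : g z = (1 - s) * y + s * z := by rw [hg, if_pos hq]
      have e2 : ¬ IsSquare (g z - y) := by
        rw [show g z - y = s * (z - y) by rw [e1]; ring, sq_mul_iff z0 e0]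
        exact fun e => n0 (e.2 hq)
      rw [hg (g z), if_neg e2, e1]
      ring
    · have e1 : g z = s' * y + (1 - s') * z := by rw [hg, if_neg hq]
      have e2 : IsSquare (g z - y) := by
        rw [show g z - y = (1 - s') * (z - y) by rw [e1]; ring, sq_mul_iff z1 e0]
        exact iff_of_false n1 hq
      rw [hg (g z), if_pos e2, e1]
      ring
  refine ⟨W ∪ W.image g, ?_, fun z hz => ?_⟩
  · have e1 := card_union_le W (W.image g)
    have e2 : (W.image g).card ≤ W.card := card_image_le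
    omega
  · rw [← hgg z hz]
    rcases mem_union.1 (hmap z hz) with e | e
    · rcases mem_union.1 (hmap _ e) with e' | e'
      · exact mem_union_left _ e'
      · exact mem_union_right _ (mem_union_left _ e')
    · exact mem_union_right _ (mem_union_right _ (mem_image_of_mem g e))

theorem olong_psi {C E E' : Finset F} {t κ κ' : F} (ht : t ≠ 0)
    (h1 : ∀ z ∈ C, t * z + κ ∈ C ∪ E) (h2 : ∀ z ∈ C, t * z + κ' ∈ C ∪ E') :
    psi C (κ - κ') ≤ E.card + E'.card := by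
  have inj : Function.Injective (fun z : F => t * z + κ') := by
    intro a b e
    simpa [ht] using e
  set G := C.image (fun z : F => t * z + κ') with hG
  have cG : G.card = C.card := card_image_of_injective _ inj
  have e1 : (G \ C).card ≤ E'.card := by
    apply card_le_card
    intro x hx
    obtain ⟨a1, a2⟩ := mem_sdiff.1 hx
    obtain ⟨z, hz, rfl⟩ := mem_image.1 a1
    exact (mem_union.1 (h2 z hz)).resolve_left a2
  have e2 : (C \ G).card = (G \ C).card := card_sdiff_comm cG.symm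
  have e3 : C.filter (fun x => x + (κ - κ') ∉ C) ⊆ (C \ G) ∪ E.image (fun x => x - (κ - κ')) := by
    intro x hx
    obtain ⟨a1, a2⟩ := mem_filter.1 hx
    by_cases hx' : x ∈ G
    · obtain ⟨z, hz, rfl⟩ := mem_image.1 hx'
      have a3 : t * z + κ' + (κ - κ') = t * z + κ := by ring
      rw [a3] at a2
      exact mem_union_right _
        (mem_image.2 ⟨_, (mem_union.1 (h1 z hz)).resolve_left a2, by ring⟩)
    · exact mem_union_left _ (mem_sdiff.2 ⟨a1, hx'⟩)
  have e4 := (card_le_card e3).trans (card_union_le _ _)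
  have e5 : (E.image (fun x => x - (κ - κ'))).card ≤ E.card := card_image_le
  unfold psi
  omega

theorem olongC [Fintype F] (hp : (Fintype.card F).Prime) {c : F} {B C D : Finset F} {u : ℕ}
    (h : OTrio c B C D) (hb : 2 ≤ B.card)
    (hu : Fintype.card F = B.card + C.card + D.card + u) (hcd : C.card ≤ D.card)
    (hub : u + 1 ≤ B.card) (hL : 10 ^ 10 * B.card ≤ C.card) : False := by
  have c0 := h.spl.c0
  have c1 : 1 - c ≠ 0 := sub_ne_zero.2 h.spl.c1.symm
  have ht : c * (1 - c) ≠ 0 := mul_ne_zero c0 c1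
  have hN : 1 - c * (1 - c) ≠ 0 := fun e => h.spl.h3 c (by linear_combination e)
  have hsq : IsSquare (c * (1 - c)) := (sq_mul_iff c0 c1).2 (iff_of_false h.spl.n0 h.spl.n1)
  have ht2 : (c * (1 - c)) ^ 2 ≠ 1 := by
    intro e
    rcases sq_eq_one_iff.1 e with e' | e'
    · exact hN (by rw [e', sub_self])
    · exact h.spl.neg (e' ▸ hsq)
  have hB : B.Nonempty := card_pos.1 (by omega)
  have hZ : 2 * B.card - 1 ≤ ((1 - c * (1 - c)) • (B - B)).card := by
    have e1 := cd hp hB hB.neg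
    rw [card_neg, ← sub_eq_add_neg] at e1
    rw [card_smul_finset₀ hN]
    omega
  obtain ⟨y, hy⟩ := hB
  obtain ⟨E1, a1, b1⟩ := olong_two h hu hub (self_mem_Lp c) (self_mem_Lp c) hy
  obtain ⟨E2, a2, b2⟩ := olong_two h hu hub (s := (1 - c)⁻¹) (s' := (c - 1) / c)
    (mem_Lp.2 (Or.inr (Or.inl rfl))) (mem_Lp.2 (Or.inr (Or.inr rfl))) hy
  have e0 : (1 - c)⁻¹ * (1 - (c - 1) / c) = (c * (1 - c))⁻¹ := by
    field_simp
    ring
  rw [e0] at b2
  refine normLemma hp (C := C) (Z := (1 - c * (1 - c)) • (B - B)) (r := 8 * B.card - 8)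
    (t := c * (1 - c)) (by omega) ht ht2 (by omega) (by omega) (by omega) (fun x hx => ?_)
    (by omega) fun x _ => ⟨?_, ?_⟩
  · obtain ⟨w, hw, rfl⟩ := mem_smul_finset.1 hx
    obtain ⟨y1, hy1, y2, hy2, rfl⟩ := mem_sub.1 hw
    obtain ⟨E3, a3, b3⟩ := olong_two h hu hub (self_mem_Lp c) (self_mem_Lp c) hy1
    obtain ⟨E4, a4, b4⟩ := olong_two h hu hub (self_mem_Lp c) (self_mem_Lp c) hy2
    have := olong_psi ht b3 b4
    rw [← mul_sub] at this
    rw [smul_eq_mul]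
    omega
  · have := psi_affine ht b1 x
    omega
  · have := psi_affine (inv_ne_zero ht) b2 x
    omega

end Pool.Agent.P.MP_862e21_al
end

-- part Pool.Agent.P.MP_862e21_al.Four
section

namespace Pool.Agent.P.MP_862e21_al

open Finset Pointwise

variable {F : Type*} [Field F] [DecidableEq F]

variable [Fintype F]

theorem exists_char : ∃ e : AddChar F ℂ, e.IsPrimitive :=
  ⟨AddChar.FiniteField.primitiveChar_to_Complex F,
    AddChar.FiniteField.primitiveChar_to_Complex_isPrimitive F⟩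

theorem norm_char (e : AddChar F ℂ) (x : F) : ‖e x‖ = 1 := AddChar.norm_apply e x

theorem conj_char (e : AddChar F ℂ) (x : F) : (starRingEnd ℂ) (e x) = e (-x) :=
  (AddChar.map_neg_eq_conj e x).symm

theorem sum_char {e : AddChar F ℂ} (he : e.IsPrimitive) (b : F) :
    ∑ x : F, e (x * b) = if b = 0 then (Fintype.card F : ℂ) else 0 := by
  rw [AddChar.sum_mulShift b he]
  split_ifs <;> simp

theorem fh_zero (e : AddChar F ℂ) (S : Finset F) : fh e S 0 = S.card := by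
  simp [fh]

theorem norm_fh_le (e : AddChar F ℂ) (S : Finset F) (ξ : F) : ‖fh e S ξ‖ ≤ S.card := by
  unfold fh
  refine le_trans (norm_sum_le _ _) ?_
  simp

theorem four_conj (e : AddChar F ℂ) (S : Finset F) (ξ : F) :
    fh e S (-ξ) = (starRingEnd ℂ) (fh e S ξ) := by
  unfold fh
  rw [map_sum]
  refine sum_congr rfl fun y _ => ?_
  rw [conj_char, neg_mul]

theorem norm_fh_neg (e : AddChar F ℂ) (S : Finset F) (ξ : F) :
    ‖fh e S (-ξ)‖ = ‖fh e S ξ‖ := by
  rw [four_conj, Complex.norm_conj]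

theorem parseval {e : AddChar F ℂ} (he : e.IsPrimitive) (S : Finset F) :
    ∑ ξ : F, ‖fh e S ξ‖ ^ 2 = (Fintype.card F : ℝ) * S.card := by
  have key : ∑ ξ : F, fh e S ξ * fh e S (-ξ) = (Fintype.card F : ℂ) * S.card := by
    unfold fh
    simp_rw [sum_mul_sum]
    rw [sum_comm]
    have : ∀ y ∈ S, ∑ ξ : F, ∑ z ∈ S, e (ξ * y) * e (-ξ * z) = (Fintype.card F : ℂ) := by
      intro y hy
      rw [sum_comm]
      have : ∀ z ∈ S, ∑ ξ : F, e (ξ * y) * e (-ξ * z) =
          if y = z then (Fintype.card F : ℂ) else 0 := by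
        intro z _
        simp_rw [← AddChar.map_add_eq_mul]
        have := sum_char he (y - z)
        simp only [sub_eq_zero] at this
        rw [← this]
        exact sum_congr rfl fun ξ _ => by congr 1; ring
      rw [sum_congr rfl this]
      simp [hy]
    rw [sum_congr rfl this]
    simp [mul_comm]
  simp_rw [four_conj, Complex.mul_conj, Complex.normSq_eq_norm_sq] at key
  exact_mod_cast key

theorem parseval_mul {e : AddChar F ℂ} (he : e.IsPrimitive) (S : Finset F) {a : F} (ha : a ≠ 0) :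
    ∑ ξ : F, ‖fh e S (a * ξ)‖ ^ 2 = (Fintype.card F : ℝ) * S.card := by
  rw [← parseval he S]
  exact Equiv.sum_comp (Equiv.mulLeft₀ a ha) (fun ξ => ‖fh e S ξ‖ ^ 2)

theorem count_fh {e : AddChar F ℂ} (he : e.IsPrimitive) (α β : F) (Y Z W : Finset F) :
    ∑ ξ : F, fh e Y (α * ξ) * fh e Z (β * ξ) * fh e W (-ξ) =
      (Fintype.card F : ℂ) * ((Y ×ˢ Z).filter (fun p => α * p.1 + β * p.2 ∈ W)).card := by
  have e1 : ∀ ξ : F, fh e Y (α * ξ) * fh e Z (β * ξ) * fh e W (-ξ) =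
      ∑ p ∈ Y ×ˢ Z, ∑ w ∈ W, e (ξ * (α * p.1 + β * p.2 - w)) := by
    intro ξ
    unfold fh
    rw [sum_mul_sum, ← sum_product', sum_mul_sum]
    refine sum_congr rfl fun p _ => sum_congr rfl fun w _ => ?_
    rw [← AddChar.map_add_eq_mul, ← AddChar.map_add_eq_mul]
    congr 1; ring
  simp_rw [e1]
  rw [sum_comm, card_filter]
  push_cast
  rw [mul_sum]
  refine sum_congr rfl fun p _ => ?_
  rw [sum_comm]
  simp_rw [sum_char he, sub_eq_zero]
  rw [sum_ite_eq]
  split_ifs <;> simp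

theorem bigCoeff {e : AddChar F ℂ} (he : e.IsPrimitive) {l : F} {B C D : Finset F}
    (h : Trio l B C D) (hC : C.Nonempty) (hD : D.Nonempty) :
    ∃ ξ : F, ξ ≠ 0 ∧
      (B.card : ℝ) ^ 2 * C.card * D.card ≤ (Fintype.card F : ℝ) ^ 2 * ‖fh e B ξ‖ ^ 2 := by
  have hne : (univ.erase (0 : F)).Nonempty := ⟨1, by simp⟩
  obtain ⟨ξ0, hξ0, hmax⟩ := exists_max_image _ (fun ξ => ‖fh e B ξ‖) hne
  refine ⟨ξ0, ne_of_mem_erase hξ0, ?_⟩
  have l1 : 1 - l ≠ 0 := sub_ne_zero.mpr h.l1.symm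
  have e1 := count_fh he (1 - l) l B C D
  have e2 : (B ×ˢ C).filter (fun p => (1 - l) * p.1 + l * p.2 ∈ D) = ∅ := by
    apply filter_eq_empty_iff.mpr
    intro p hp
    exact h.sc l (self_mem_Lam l) _ (mem_product.mp hp).1 _ (mem_product.mp hp).2
  rw [e2, ← add_sum_erase _ _ (mem_univ (0 : F))] at e1
  simp only [mul_zero, neg_zero, fh_zero, card_empty, Nat.cast_zero] at e1
  set m := ‖fh e B ξ0‖
  have m0 : 0 ≤ m := norm_nonneg _
  have e3 : (B.card : ℝ) * C.card * D.card ≤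
      m * ∑ ξ : F, ‖fh e C (l * ξ)‖ * ‖fh e D ξ‖ := by
    have : ((B.card : ℂ) * C.card * D.card) =
        -∑ ξ ∈ univ.erase (0 : F), fh e B ((1 - l) * ξ) * fh e C (l * ξ) * fh e D (-ξ) := by
      linear_combination e1
    have e4 := congrArg norm this
    rw [norm_neg, norm_mul, norm_mul] at e4
    simp only [Complex.norm_natCast] at e4
    rw [e4]
    refine le_trans (norm_sum_le _ _) ?_
    rw [mul_sum]
    refine le_trans (sum_le_sum (g := fun ξ => m * (‖fh e C (l * ξ)‖ * ‖fh e D ξ‖)) ?_)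
      (sum_le_sum_of_subset_of_nonneg (subset_univ _) (fun _ _ _ => by positivity))
    intro ξ hξ
    rw [norm_mul, norm_mul, norm_fh_neg, mul_assoc]
    refine mul_le_mul_of_nonneg_right (hmax _ ?_) (by positivity)
    exact mem_erase.mpr ⟨mul_ne_zero l1 (ne_of_mem_erase hξ), mem_univ _⟩
  have e5 := sum_mul_sq_le_sq_mul_sq univ (fun ξ => ‖fh e C (l * ξ)‖) (fun ξ => ‖fh e D ξ‖)
  rw [parseval_mul he C h.l0, parseval he D] at e5
  set s := ∑ ξ : F, ‖fh e C (l * ξ)‖ * ‖fh e D ξ‖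
  have c0 : (0 : ℝ) < C.card := by exact_mod_cast hC.card_pos
  have d0 : (0 : ℝ) < D.card := by exact_mod_cast hD.card_pos
  have e6 : ((B.card : ℝ) * C.card * D.card) ^ 2 ≤ (m * s) ^ 2 :=
    pow_le_pow_left₀ (by positivity) e3 2
  have e7 : (m * s) ^ 2 ≤ m ^ 2 * ((Fintype.card F : ℝ) * C.card * (Fintype.card F * D.card)) := by
    rw [mul_pow]; exact mul_le_mul_of_nonneg_left e5 (by positivity)
  have e8 : ((B.card : ℝ) ^ 2 * C.card * D.card) * (C.card * D.card) ≤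
      ((Fintype.card F : ℝ) ^ 2 * m ^ 2) * (C.card * D.card) := by nlinarith
  exact le_of_mul_le_mul_right e8 (by positivity)

theorem four_mem_perp {e : AddChar F ℂ} {K : AddSubgroup F} {ξ : F} :
    ξ ∈ perp e K ↔ ∀ h ∈ K, e (ξ * h) = 1 := by
  simp [perp]

theorem en_mono (e : AddChar F ℂ) {K K' : AddSubgroup F} (h : K' ≤ K) (S : Finset F) :
    en e K S ≤ en e K' S := by
  unfold en
  refine sum_le_sum_of_subset_of_nonneg ?_ (fun _ _ _ => by positivity)
  intro ξ hξ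
  rw [four_mem_perp] at hξ ⊢
  exact fun x hx => hξ x (h hx)

theorem en_nonneg (e : AddChar F ℂ) (K : AddSubgroup F) (S : Finset F) : 0 ≤ en e K S :=
  sum_nonneg fun _ _ => by positivity

theorem en_le {e : AddChar F ℂ} (he : e.IsPrimitive) (K : AddSubgroup F) (S : Finset F) :
    en e K S ≤ (Fintype.card F : ℝ) * S.card := by
  rw [← parseval he S]
  exact sum_le_sum_of_subset_of_nonneg (subset_univ _) (fun _ _ _ => by positivity)

end Pool.Agent.P.MP_862e21_al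
end

-- part Pool.Agent.P.MP_862e21_al.Kloo
section

namespace Pool.Agent.P.MP_862e21_al

open Finset Pointwise

variable {F : Type*} [Field F] [DecidableEq F]

variable [Fintype F]

theorem pars2 {ι : Type*} {e : AddChar F ℂ} (he : e.IsPrimitive) (P : Finset ι) (f g : ι → F) :
    ∑ a : F, ∑ b : F, ‖∑ p ∈ P, e (a * f p + b * g p)‖ ^ 2 = (Fintype.card F : ℝ) ^ 2 *
      ((P ×ˢ P).filter (fun z => f z.1 = f z.2 ∧ g z.1 = g z.2)).card := by
  have h1 : ∀ a b : F, ((‖∑ p ∈ P, e (a * f p + b * g p)‖ ^ 2 : ℝ) : ℂ) =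
      ∑ z ∈ P ×ˢ P, e (a * (f z.1 - f z.2)) * e (b * (g z.1 - g z.2)) := by
    intro a b
    push_cast
    rw [← Complex.mul_conj', map_sum, sum_mul_sum, sum_product]
    refine sum_congr rfl fun p _ => sum_congr rfl fun p' _ => ?_
    rw [conj_char, ← AddChar.map_add_eq_mul, ← AddChar.map_add_eq_mul]
    congr 1
    ring
  apply Complex.ofReal_injective
  rw [Complex.ofReal_sum]
  simp only [Complex.ofReal_sum, h1]
  have h2 : ∑ a : F, ∑ b : F, ∑ z ∈ P ×ˢ P, e (a * (f z.1 - f z.2)) * e (b * (g z.1 - g z.2)) =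
      ∑ z ∈ P ×ˢ P, (∑ a : F, e (a * (f z.1 - f z.2))) * ∑ b : F, e (b * (g z.1 - g z.2)) := by
    simp only [sum_mul_sum]
    rw [sum_comm (s := P ×ˢ P)]
    refine sum_congr rfl fun a _ => ?_
    rw [sum_comm]
  rw [h2]
  simp only [sum_char he]
  push_cast
  rw [card_filter]
  push_cast
  rw [mul_sum]
  refine sum_congr rfl fun z _ => ?_
  by_cases c1 : f z.1 = f z.2 <;> by_cases c2 : g z.1 = g z.2 <;>
    simp [c1, c2, sub_eq_zero, sq]

theorem kloo_count :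
    (((univ.erase (0 : F) ×ˢ univ.erase (0 : F)) ×ˢ
      (univ.erase (0 : F) ×ˢ univ.erase (0 : F))).filter (fun z => z.1.1 + z.1.2 = z.2.1 + z.2.2 ∧
        z.1.1⁻¹ + z.1.2⁻¹ = z.2.1⁻¹ + z.2.2⁻¹)).card ≤ 3 * (univ.erase (0 : F)).card ^ 2 := by
  set U := univ.erase (0 : F) with hU
  have hsub : ((U ×ˢ U) ×ˢ (U ×ˢ U)).filter (fun z => z.1.1 + z.1.2 = z.2.1 + z.2.2 ∧
        z.1.1⁻¹ + z.1.2⁻¹ = z.2.1⁻¹ + z.2.2⁻¹) ⊆
      ((U ×ˢ U).image (fun p => ((p.1, -p.1), (p.2, -p.2))) ∪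
        (U ×ˢ U).image (fun p => (p, p))) ∪ (U ×ˢ U).image (fun p => (p, (p.2, p.1))) := by
    rintro ⟨⟨w1, w2⟩, w3, w4⟩ hz
    simp only [mem_filter, mem_product] at hz
    obtain ⟨⟨⟨m1, m2⟩, m3, m4⟩, e1, e2⟩ := hz
    have n1 := (mem_erase.mp m1).1
    have n2 := (mem_erase.mp m2).1
    have n3 := (mem_erase.mp m3).1
    have n4 := (mem_erase.mp m4).1
    have e3 : (w1 + w2) * ((w3 - w1) * (w3 - w2)) = 0 := by
      have e4 : w4 = w1 + w2 - w3 := by linear_combination -e1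
      have e5 : (w1 + w2) * (w3 * w4) = (w3 + w4) * (w1 * w2) := by
        field_simp at e2
        linear_combination e2
      rw [← e1, e4] at e5
      linear_combination -e5
    simp only [mem_union, mem_image, mem_product, Prod.exists, Prod.mk.injEq]
    rcases mul_eq_zero.mp e3 with k | k
    · exact Or.inl (Or.inl ⟨w1, w3, ⟨m1, m3⟩, ⟨rfl, by linear_combination -k⟩, rfl,
        by linear_combination e1 - k⟩)
    · rcases mul_eq_zero.mp k with k | k
      · exact Or.inl (Or.inr ⟨w1, w2, ⟨m1, m2⟩, ⟨rfl, rfl⟩, by linear_combination -k,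
          by linear_combination e1 + k⟩)
      · exact Or.inr ⟨w1, w2, ⟨m1, m2⟩, ⟨rfl, rfl⟩, by linear_combination -k,
          by linear_combination e1 + k⟩
  refine (card_le_card hsub).trans ((card_union_le _ _).trans ?_)
  have a1 := card_union_le ((U ×ˢ U).image (fun p => ((p.1, -p.1), (p.2, -p.2))))
    ((U ×ˢ U).image (fun p => (p, p)))
  have a2 := card_image_le (s := U ×ˢ U) (f := fun p => ((p.1, -p.1), (p.2, -p.2)))
  have a3 := card_image_le (s := U ×ˢ U) (f := fun p => (p, p))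
  have a4 := card_image_le (s := U ×ˢ U) (f := fun p => (p, (p.2, p.1)))
  rw [card_product] at a2 a3 a4
  rw [sq]
  omega

theorem kloo_scale (e : AddChar F ℂ) {α β a : F} (hα : α ≠ 0) (ha : a ≠ 0) :
    ∑ w ∈ univ.erase (0 : F), e (a * w + (α * β * a⁻¹) * w⁻¹) =
      ∑ w ∈ univ.erase (0 : F), e (α * w + β * w⁻¹) := by
  refine sum_nbij' (fun w => a * α⁻¹ * w) (fun w => α * a⁻¹ * w) ?_ ?_ ?_ ?_ ?_
  · intro w hw
    have := (mem_erase.mp hw).1
    simp [this, ha, hα]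
  · intro w hw
    have := (mem_erase.mp hw).1
    simp [this, ha, hα]
  · intro w _
    field_simp
  · intro w _
    field_simp
  · intro w hw
    have := (mem_erase.mp hw).1
    congr 1
    field_simp

theorem kloo4 {e : AddChar F ℂ} (he : e.IsPrimitive) {α β : F} (hα : α ≠ 0) (hβ : β ≠ 0) :
    ‖∑ w ∈ univ.erase (0 : F), e (α * w + β * w⁻¹)‖ ^ 4 ≤ 3 * (Fintype.card F : ℝ) ^ 3 := by
  set U := univ.erase (0 : F) with hU
  have h1 := pars2 he (U ×ˢ U) (fun p => p.1 + p.2) (fun p => p.1⁻¹ + p.2⁻¹)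
  have h2 : ∀ a b : F, ‖∑ p ∈ U ×ˢ U, e (a * (p.1 + p.2) + b * (p.1⁻¹ + p.2⁻¹))‖ ^ 2 =
      ‖∑ w ∈ U, e (a * w + b * w⁻¹)‖ ^ 4 := by
    intro a b
    have : ∑ p ∈ U ×ˢ U, e (a * (p.1 + p.2) + b * (p.1⁻¹ + p.2⁻¹)) =
        (∑ w ∈ U, e (a * w + b * w⁻¹)) ^ 2 := by
      rw [sq, sum_mul_sum, sum_product]
      refine sum_congr rfl fun p _ => sum_congr rfl fun p' _ => ?_
      rw [← AddChar.map_add_eq_mul]
      congr 1
      ring
    rw [this, norm_pow]
    ring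
  simp only [h2] at h1
  have h3 : (U.card : ℝ) * ‖∑ w ∈ U, e (α * w + β * w⁻¹)‖ ^ 4 ≤
      ∑ a : F, ∑ b : F, ‖∑ w ∈ U, e (a * w + b * w⁻¹)‖ ^ 4 := by
    calc (U.card : ℝ) * ‖∑ w ∈ U, e (α * w + β * w⁻¹)‖ ^ 4
        = ∑ a ∈ U, ‖∑ w ∈ U, e (a * w + (α * β * a⁻¹) * w⁻¹)‖ ^ 4 := by
          rw [← nsmul_eq_mul, ← sum_const]
          refine sum_congr rfl fun a ha => ?_
          rw [hU, kloo_scale e hα (mem_erase.mp ha).1]
      _ ≤ ∑ a ∈ U, ∑ b : F, ‖∑ w ∈ U, e (a * w + b * w⁻¹)‖ ^ 4 := by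
          refine sum_le_sum fun a _ => ?_
          exact single_le_sum (f := fun b => ‖∑ w ∈ U, e (a * w + b * w⁻¹)‖ ^ 4)
            (fun b _ => by positivity) (mem_univ _)
      _ ≤ _ := sum_le_sum_of_subset_of_nonneg (subset_univ _)
          (fun a _ _ => sum_nonneg fun b _ => by positivity)
  have h4 : (_ : ℝ) ≤ _ := Nat.cast_le.mpr (kloo_count (F := F))
  push_cast at h4
  rw [h1] at h3
  have h5 : (0 : ℝ) < U.card := by
    have : U.Nonempty := ⟨1, by simp [hU]⟩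
    exact_mod_cast card_pos.mpr this
  have h6 : (U.card : ℝ) ≤ Fintype.card F := by exact_mod_cast card_le_univ U
  have h7 := h3.trans (mul_le_mul_of_nonneg_left h4 (by positivity))
  have h8 : ‖∑ w ∈ U, e (α * w + β * w⁻¹)‖ ^ 4 ≤ (Fintype.card F : ℝ) ^ 2 * (3 * U.card) := by
    refine le_of_mul_le_mul_left (h7.trans (le_of_eq ?_)) h5
    rw [hU]
    ring
  refine h8.trans ?_
  have : (0 : ℝ) ≤ (Fintype.card F : ℝ) ^ 2 := by positivity
  nlinarith

theorem chart_inner {e : AddChar F ℂ} (he : e.IsPrimitive) {x x' ξ ξ' : F} (hx : x ≠ x')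
    (hξ : ξ ≠ 0) (hξ' : ξ' ≠ 0) {κ : ℝ} (h0 : 0 ≤ κ) (hκ : 3 * (Fintype.card F : ℝ) ^ 3 ≤ κ ^ 4) :
    ‖∑ y : F, e (ξ * (y - x)⁻¹ - ξ' * (y - x')⁻¹)‖ ≤ κ + 3 := by
  have hk : x - x' ≠ 0 := sub_ne_zero.mpr hx
  have h1 := kloo4 he (div_ne_zero hξ hk) (div_ne_zero hξ' hk)
  have h2 : ‖∑ w ∈ univ.erase (0 : F), e (ξ / (x - x') * w + ξ' / (x - x') * w⁻¹)‖ ≤ κ :=
    le_of_pow_le_pow_left₀ (by norm_num) h0 (h1.trans hκ)
  have h3 : ∑ y ∈ (univ.erase x).erase x', e (ξ * (y - x)⁻¹ - ξ' * (y - x')⁻¹) =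
      ∑ w ∈ (univ.erase (0 : F)).erase 1, e (ξ / (x - x') * w + ξ' / (x - x') * w⁻¹) *
        e (-((ξ + ξ') / (x - x'))) := by
    refine sum_nbij' (fun y => (y - x') / (y - x)) (fun w => x + (x - x') / (w - 1)) ?_ ?_ ?_ ?_ ?_
    · intro y hy
      simp only [mem_erase, mem_univ, and_true] at hy ⊢
      have a1 : y - x ≠ 0 := sub_ne_zero.mpr hy.2
      have a2 : y - x' ≠ 0 := sub_ne_zero.mpr hy.1
      refine ⟨fun h => ?_, div_ne_zero a2 a1⟩
      rw [div_eq_one_iff_eq a1] at h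
      exact hk (by linear_combination h)
    · intro w hw
      simp only [mem_erase, mem_univ, and_true] at hw ⊢
      have a1 : w - 1 ≠ 0 := sub_ne_zero.mpr hw.1
      refine ⟨fun h => ?_, fun h => ?_⟩
      · have : (x - x') * w = 0 := by
          field_simp at h
          linear_combination h
        exact (mul_ne_zero hk hw.2) this
      · exact div_ne_zero hk a1 (by linear_combination h)
    · intro y hy
      simp only [mem_erase, mem_univ, and_true] at hy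
      have a1 : y - x ≠ 0 := sub_ne_zero.mpr hy.2
      have a3 : (y - x') / (y - x) - 1 = (x - x') / (y - x) := by field_simp; ring
      simp only [a3]
      field_simp
      ring
    · intro w hw
      simp only [mem_erase, mem_univ, and_true] at hw
      have a1 : w - 1 ≠ 0 := sub_ne_zero.mpr hw.1
      have a3 : x + (x - x') / (w - 1) - x = (x - x') / (w - 1) := by ring
      have a4 : x + (x - x') / (w - 1) - x' = (x - x') * w / (w - 1) := by field_simp; ring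
      simp only [a3, a4]
      field_simp
    · intro y hy
      simp only [mem_erase, mem_univ, and_true] at hy
      have a1 : y - x ≠ 0 := sub_ne_zero.mpr hy.2
      have a2 : y - x' ≠ 0 := sub_ne_zero.mpr hy.1
      rw [← AddChar.map_add_eq_mul]
      congr 1
      field_simp
      ring
  have m1 : x' ∈ univ.erase x := by simp [hx.symm]
  have m2 : (1 : F) ∈ univ.erase (0 : F) := by simp
  rw [← add_sum_erase _ _ (mem_univ x), ← add_sum_erase _ _ m1, h3, ← sum_mul]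
  rw [← add_sum_erase _ _ m2] at h2
  generalize ∑ w ∈ (univ.erase (0 : F)).erase 1, e (ξ / (x - x') * w + ξ' / (x - x') * w⁻¹) = S
    at h2 ⊢
  have b1 : ‖S‖ ≤ κ + 1 := by
    have := norm_sub_le (e (ξ / (x - x') * 1 + ξ' / (x - x') * 1⁻¹) + S)
      (e (ξ / (x - x') * 1 + ξ' / (x - x') * 1⁻¹))
    rw [add_sub_cancel_left, norm_char] at this
    linarith
  refine (norm_add_le _ _).trans ?_
  have b2 := norm_add_le (e (ξ * (x' - x)⁻¹ - ξ' * (x' - x')⁻¹)) (S * e (-((ξ + ξ') / (x - x'))))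
  rw [norm_mul, norm_char, norm_char] at b2
  rw [norm_char]
  linarith

end Pool.Agent.P.MP_862e21_al
end

-- part Pool.Agent.P.MP_862e21_al.OTwist
section

namespace Pool.Agent.P.MP_862e21_al

open Finset Pointwise

variable {F : Type*} [Field F] [DecidableEq F]

omit [DecidableEq F] in
theorem OTwist_char [Fintype F] (h2 : ¬ IsSquare (-1 : F)) : ringChar F ≠ 2 :=
  fun h => h2 (FiniteField.isSquare_of_char_two h _)

theorem OTwist_conic [Fintype F] (h2 : (2 : F) ≠ 0) {m : F} (hm : m ≠ 0) (f : F → ℂ) :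
    ∑ p ∈ (univ : Finset (F × F)).filter (fun p => p.2 ^ 2 = p.1 * (p.1 + m)), f p.1 =
      ∑ w ∈ univ.erase (0 : F), f ((w + m ^ 2 / 4 * w⁻¹) / 2 - m / 2) := by
  have h4 : (4 : F) ≠ 0 := by
    have : (4 : F) = 2 * 2 := by norm_num
    rw [this]; exact mul_ne_zero h2 h2
  have key : ∀ p : F × F, p.2 ^ 2 = p.1 * (p.1 + m) →
      p.1 + m / 2 - p.2 ≠ 0 ∧ m ^ 2 / 4 * (p.1 + m / 2 - p.2)⁻¹ = p.1 + m / 2 + p.2 := by
    intro p hp
    have e1 : (p.1 + m / 2 - p.2) * (p.1 + m / 2 + p.2) = m ^ 2 / 4 := by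
      field_simp
      linear_combination (-16) * hp
    have n1 : p.1 + m / 2 - p.2 ≠ 0 := by
      intro h0
      rw [h0, zero_mul] at e1
      exact div_ne_zero (pow_ne_zero 2 hm) h4 e1.symm
    refine ⟨n1, ?_⟩
    rw [← e1, mul_comm (p.1 + m / 2 - p.2), mul_assoc, mul_inv_cancel₀ n1, mul_one]
  refine sum_nbij' (fun p => p.1 + m / 2 - p.2)
    (fun w => ((w + m ^ 2 / 4 * w⁻¹) / 2 - m / 2, (m ^ 2 / 4 * w⁻¹ - w) / 2)) ?_ ?_ ?_ ?_ ?_
  · intro p hp
    exact mem_erase.mpr ⟨(key p (mem_filter.mp hp).2).1, mem_univ _⟩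
  · intro w hw
    have w0 : w ≠ 0 := ne_of_mem_erase hw
    refine mem_filter.mpr ⟨mem_univ _, ?_⟩
    have e1 : w * (m ^ 2 / 4 * w⁻¹) = m ^ 2 / 4 := by field_simp
    have e2 : m ^ 2 / 4 = (m / 2) ^ 2 := by field_simp; norm_num
    have e3 : m = m / 2 + m / 2 := by field_simp; norm_num
    generalize m ^ 2 / 4 * w⁻¹ = w' at e1 ⊢
    rw [e2] at e1
    generalize m / 2 = n at e1 e3 ⊢
    subst e3
    field_simp
    linear_combination (-4) * e1
  · intro p hp
    rw [(key p (mem_filter.mp hp).2).2]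
    ext
    · field_simp; ring
    · field_simp; ring
  · intro w hw
    dsimp only
    generalize m ^ 2 / 4 * w⁻¹ = w'
    field_simp; ring
  · intro p hp
    rw [(key p (mem_filter.mp hp).2).2]
    congr 1
    field_simp; ring

/-- Fourier coefficients of `h ↦ χ (h (h + m))` -/
theorem chi_fourier [Fintype F] (h2 : ¬ IsSquare (-1 : F)) {e : AddChar F ℂ} (he : e.IsPrimitive)
    {m : F} (hm : m ≠ 0) (ξ : F) {κ : ℝ} (h0 : 0 ≤ κ) (hκ : 3 * (Fintype.card F : ℝ) ^ 3 ≤ κ ^ 4) :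
    ‖∑ h : F, ((quadraticChar F (h * (h + m)) : ℤ) : ℂ) * e (ξ * h)‖ ≤ κ := by
  have hc := OTwist_char h2
  have two : (2 : F) ≠ 0 := Ring.two_ne_zero hc
  have e1 : ∀ h : F, ((quadraticChar F (h * (h + m)) : ℤ) : ℂ) * e (ξ * h) =
      (∑ v : F, if v ^ 2 = h * (h + m) then e (ξ * h) else 0) - e (h * ξ) := by
    intro h
    have := quadraticChar_card_sqrts hc (h * (h + m))
    have e2 : {x : F | x ^ 2 = h * (h + m)}.toFinset
        = univ.filter (fun x : F => x ^ 2 = h * (h + m)) := by ext x; simp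
    rw [e2] at this
    have e3 : (((univ.filter (fun x : F => x ^ 2 = h * (h + m))).card : ℕ) : ℂ)
        = ((quadraticChar F (h * (h + m)) : ℤ) : ℂ) + 1 := by exact_mod_cast this
    rw [← sum_filter, sum_const, nsmul_eq_mul, e3, mul_comm h ξ]
    ring
  have e4 : ∑ h : F, ∑ v : F, (if v ^ 2 = h * (h + m) then e (ξ * h) else 0) =
      ∑ w ∈ univ.erase (0 : F), e (ξ * ((w + m ^ 2 / 4 * w⁻¹) / 2 - m / 2)) := by
    rw [← OTwist_conic two hm (fun h => e (ξ * h)), sum_filter, ← univ_product_univ, sum_product]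
  rw [sum_congr rfl fun h _ => e1 h, sum_sub_distrib, e4, sum_char he]
  have q1 : (1 : ℝ) ≤ Fintype.card F := by exact_mod_cast Fintype.card_pos
  by_cases hξ : ξ = 0
  · subst hξ
    have e5 : ((univ.erase (0 : F)).card : ℂ) = Fintype.card F - 1 := by
      rw [card_erase_of_mem (mem_univ _), card_univ, Nat.cast_sub Fintype.card_pos]; simp
    simp only [zero_mul, AddChar.map_zero_eq_one, sum_const, nsmul_eq_mul, mul_one, if_true, e5]
    have : (Fintype.card F : ℂ) - 1 - Fintype.card F = -1 := by ring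
    rw [this, norm_neg, norm_one]
    refine le_of_pow_le_pow_left₀ (n := 4) (by norm_num) h0 ?_
    have := one_le_pow₀ (n := 3) q1
    linarith
  · rw [if_neg hξ, sub_zero]
    have h8 : (8 : F) ≠ 0 := by
      have : (8 : F) = 2 * 2 * 2 := by norm_num
      rw [this]; exact mul_ne_zero (mul_ne_zero two two) two
    have h4 : (4 : F) ≠ 0 := by
      have : (4 : F) = 2 * 2 := by norm_num
      rw [this]; exact mul_ne_zero two two
    have e6 : ∀ w : F, e (ξ * ((w + m ^ 2 / 4 * w⁻¹) / 2 - m / 2)) =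
        e (-(ξ * m / 2)) * e (ξ / 2 * w + ξ * m ^ 2 / 4 / 2 * w⁻¹) := by
      intro w
      rw [← AddChar.map_add_eq_mul]
      congr 1
      ring
    rw [sum_congr rfl fun w _ => e6 w, ← mul_sum, norm_mul, norm_char, one_mul]
    refine le_of_pow_le_pow_left₀ (n := 4) (by norm_num) h0 (le_trans (kloo4 he ?_ ?_) hκ)
    · exact div_ne_zero hξ two
    · exact div_ne_zero (div_ne_zero (mul_ne_zero hξ (pow_ne_zero 2 hm)) h4) two

theorem OTwist_bil [Fintype F] {e : AddChar F ℂ} (he : e.IsPrimitive) (G K : Finset F) (s : F)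
    (φ : F → ℝ) {κ : ℝ} (h0 : 0 ≤ κ) (hφ : ∀ ξ : F, ‖∑ h : F, (φ h : ℂ) * e (ξ * h)‖ ≤ κ) :
    ∑ y : F, ∑ h : F, (if y + h ∈ G ∧ y + s * h ∈ K then φ h else 0) ≤ Fintype.card F * κ := by
  set I : ℝ := ∑ y : F, ∑ h : F, (if y + h ∈ G ∧ y + s * h ∈ K then φ h else 0) with hI
  have e1 : I = ∑ h : F, ∑ a ∈ G, ∑ b ∈ K, (if a - b - (1 - s) * h = 0 then φ h else 0) := by
    rw [hI, sum_comm]
    refine sum_congr rfl fun h _ => ?_
    have e2 : ∀ a : F, ∑ b ∈ K, (if a - b - (1 - s) * h = 0 then φ h else 0)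
        = if a - (1 - s) * h ∈ K then φ h else 0 := by
      intro a
      rw [← sum_ite_eq K (a - (1 - s) * h) fun _ => φ h]
      refine sum_congr rfl fun b _ => if_congr ?_ rfl rfl
      constructor <;> intro hh <;> linear_combination hh
    rw [sum_congr rfl fun a _ => e2 a]
    have e3 : ∑ a ∈ G, (if a - (1 - s) * h ∈ K then φ h else 0)
        = ∑ a : F, (if a ∈ G ∧ a - (1 - s) * h ∈ K then φ h else 0) := by
      simp only [ite_and]
      rw [← sum_filter (fun a => a ∈ G)]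
      simp
    rw [e3, ← Equiv.sum_comp (Equiv.addRight h)
      fun a => if a ∈ G ∧ a - (1 - s) * h ∈ K then φ h else 0]
    refine sum_congr rfl fun y _ => ?_
    have : y + h - (1 - s) * h = y + s * h := by ring
    simp only [Equiv.coe_addRight, this]
  have e4 : (Fintype.card F : ℂ) * (I : ℂ) =
      ∑ ξ : F, fh e G ξ * fh e K (-ξ) * ∑ h : F, (φ h : ℂ) * e (-(ξ * (1 - s)) * h) := by
    have e5 : ∀ ξ : F, fh e G ξ * fh e K (-ξ) * ∑ h : F, (φ h : ℂ) * e (-(ξ * (1 - s)) * h) =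
        ∑ h : F, ∑ a ∈ G, ∑ b ∈ K, (φ h : ℂ) * e (ξ * (a - b - (1 - s) * h)) := by
      intro ξ
      unfold fh
      rw [mul_sum]
      refine sum_congr rfl fun h _ => ?_
      rw [sum_mul_sum, sum_mul]
      refine sum_congr rfl fun a _ => ?_
      rw [sum_mul]
      refine sum_congr rfl fun b _ => ?_
      have : ξ * (a - b - (1 - s) * h) = ξ * a + -ξ * b + -(ξ * (1 - s)) * h := by ring
      rw [this, AddChar.map_add_eq_mul, AddChar.map_add_eq_mul]
      ring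
    rw [sum_congr rfl fun ξ _ => e5 ξ, sum_comm, e1]
    push_cast
    rw [mul_sum]
    refine sum_congr rfl fun h _ => ?_
    rw [sum_comm (s := univ), mul_sum]
    refine sum_congr rfl fun a _ => ?_
    rw [sum_comm (s := univ), mul_sum]
    refine sum_congr rfl fun b _ => ?_
    rw [← mul_sum, sum_char he]
    split_ifs <;> simp [mul_comm]
  have q0 : (0 : ℝ) < Fintype.card F := by exact_mod_cast Fintype.card_pos
  have e6 : (Fintype.card F : ℝ) * |I| ≤ κ * ∑ ξ : F, ‖fh e G ξ‖ * ‖fh e K ξ‖ := by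
    have := congrArg norm e4
    rw [norm_mul, Complex.norm_natCast, Complex.norm_real, Real.norm_eq_abs] at this
    rw [this, mul_sum]
    refine (norm_sum_le _ _).trans (sum_le_sum fun ξ _ => ?_)
    rw [norm_mul, norm_mul, norm_fh_neg, mul_comm κ]
    exact mul_le_mul_of_nonneg_left (hφ _) (by positivity)
  have e7 := sum_mul_sq_le_sq_mul_sq univ (fun ξ => ‖fh e G ξ‖) (fun ξ => ‖fh e K ξ‖)
  rw [parseval he G, parseval he K] at e7
  have cG : (G.card : ℝ) ≤ Fintype.card F := by exact_mod_cast card_le_univ G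
  have cK : (K.card : ℝ) ≤ Fintype.card F := by exact_mod_cast card_le_univ K
  have e8 : ∑ ξ : F, ‖fh e G ξ‖ * ‖fh e K ξ‖ ≤ (Fintype.card F : ℝ) * Fintype.card F := by
    refine le_of_sq_le_sq (e7.trans ?_) (by positivity)
    rw [sq]
    gcongr
  have e9 : (Fintype.card F : ℝ) * I ≤ Fintype.card F * (Fintype.card F * κ) := by
    have h1 := mul_le_mul_of_nonneg_left (le_abs_self I) q0.le
    have h2 := mul_le_mul_of_nonneg_left e8 h0
    nlinarith
  exact le_of_mul_le_mul_left e9 q0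

theorem otwist [Fintype F] {c s : F} {B C D : Finset F} (h : OTrio c B C D) (hs : s ∈ Lam c)
    {κ : ℝ} (h0 : 0 ≤ κ) (hκ : 3 * (Fintype.card F : ℝ) ^ 3 ≤ κ ^ 4) :
    ((Sol s B C D).card : ℝ) ^ 2 ≤ (Fintype.card F : ℝ) ^ 3 * (1 + κ) := by
  obtain ⟨e, he⟩ := exists_char (F := F)
  set χ : F → ℝ := fun x => ((quadraticChar F x : ℤ) : ℝ) with hχ
  obtain ⟨ε, hε, hsign⟩ : ∃ ε : ℝ, ε ^ 2 = 1 ∧ ∀ y ∈ B, ∀ z ∈ C, (1 - s) * y + s * z ∈ D →
      χ (z - y) = ε := by
    rcases (lam_iff_lp h.spl.c0 h.spl.c1).1 hs with h1 | h1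
    · refine ⟨-1, by norm_num, fun y hy z hz hD => ?_⟩
      have : ¬ IsSquare (z - y) := fun hq => h.pos s h1 y hy z hz hq hD
      simp [hχ, quadraticChar_neg_one_iff_not_isSquare.2 this, -quadraticChar_apply]
    · refine ⟨1, by norm_num, fun y hy z hz hD => ?_⟩
      have : IsSquare (z - y) := by
        by_contra hq
        refine h.ngt (1 - s) h1 y hy z hz hq ?_
        rwa [sub_sub_cancel]
      have n0 : z - y ≠ 0 := sub_ne_zero.mpr fun e0 => disjoint_left.mp h.dBC hy (e0 ▸ hz)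
      simp [hχ, (quadraticChar_one_iff_isSquare n0).2 this, -quadraticChar_apply]
  set g : F → ℝ := fun y => ∑ t : F, if y + t ∈ C ∧ y + s * t ∈ D then χ t else 0 with hg
  have e1 : ∑ y ∈ B, g y = ε * (Sol s B C D).card := by
    rw [Sol, card_filter]
    push_cast
    rw [sum_product, mul_sum]
    refine sum_congr rfl fun y hy => ?_
    have e2 : ∑ z ∈ C, (if (1 - s) * y + s * z ∈ D then (1 : ℝ) else 0)
        = ∑ z : F, (if z ∈ C ∧ (1 - s) * y + s * z ∈ D then (1 : ℝ) else 0) := by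
      simp only [ite_and]
      rw [← sum_filter (fun a => a ∈ C)]
      simp
    rw [e2, mul_sum, ← Equiv.sum_comp (Equiv.addLeft y)]
    refine sum_congr rfl fun t _ => ?_
    have e3 : (1 - s) * y + s * (y + t) = y + s * t := by ring
    simp only [Equiv.coe_addLeft, e3]
    split_ifs with h3
    · have := hsign y hy (y + t) h3.1 (e3 ▸ h3.2)
      rw [add_sub_cancel_left] at this
      rw [this, mul_one]
    · simp
  have q0 : (0 : ℝ) < Fintype.card F := by exact_mod_cast Fintype.card_pos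
  have e4 : ((Sol s B C D).card : ℝ) ^ 2 ≤ Fintype.card F * ∑ y : F, g y ^ 2 := by
    have h1 : (∑ y ∈ B, g y) ^ 2 ≤ B.card * ∑ y ∈ B, g y ^ 2 := sq_sum_le_card_mul_sum_sq
    rw [e1, mul_pow, hε, one_mul] at h1
    refine h1.trans (mul_le_mul ?_ ?_ (sum_nonneg fun _ _ => sq_nonneg _) q0.le)
    · exact_mod_cast card_le_univ B
    · exact sum_le_sum_of_subset_of_nonneg (subset_univ B) fun _ _ _ => sq_nonneg _
  set I : F → ℝ := fun m => ∑ y : F, ∑ t : F,
    (if y + t ∈ C.filter (fun a => a + m ∈ C) ∧ y + s * t ∈ D.filter (fun b => b + s * m ∈ D)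
      then χ (t * (t + m)) else 0) with hI
  have e5 : ∑ y : F, g y ^ 2 = ∑ m : F, I m := by
    simp only [hI]
    rw [sum_comm]
    refine sum_congr rfl fun y _ => ?_
    rw [sum_comm, sq, hg, sum_mul_sum]
    refine sum_congr rfl fun t _ => ?_
    rw [← Equiv.sum_comp (Equiv.addLeft t)]
    refine sum_congr rfl fun m _ => ?_
    have e6 : y + s * (t + m) = y + s * t + s * m := by ring
    have e7 : χ (t * (t + m)) = χ t * χ (t + m) := by
      simp only [hχ, map_mul, Int.cast_mul]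
    simp only [Equiv.coe_addLeft, mem_filter, e6, e7, ← add_assoc]
    by_cases a1 : y + t ∈ C <;> by_cases a2 : y + s * t ∈ D <;> by_cases a3 : y + t + m ∈ C <;>
      by_cases a4 : y + s * t + s * m ∈ D <;> simp [a1, a2, a3, a4]
  have χ1 : ∀ x, χ x ≤ 1 := by
    intro x
    rcases quadraticChar_isQuadratic F x with h1 | h1 | h1 <;>
      simp only [hχ, h1] <;> norm_num
  have e8 : I 0 ≤ (Fintype.card F : ℝ) * Fintype.card F := by
    calc I 0 ≤ ∑ _y : F, ∑ _t : F, (1 : ℝ) := by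
          refine sum_le_sum fun y _ => sum_le_sum fun t _ => ?_
          split_ifs
          · exact χ1 _
          · exact zero_le_one
      _ = _ := by simp
  have e9 : ∀ m : F, m ≠ 0 → I m ≤ Fintype.card F * κ := by
    intro m hm
    refine OTwist_bil he _ _ s (fun t => χ (t * (t + m))) h0 fun ξ => ?_
    simpa only [hχ, Complex.ofReal_intCast] using chi_fourier h.spl.neg he hm ξ h0 hκ
  have e10 : ∑ m : F, I m ≤ (Fintype.card F : ℝ) * Fintype.card F
      + Fintype.card F * (Fintype.card F * κ) := by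
    rw [← add_sum_erase _ _ (mem_univ (0 : F))]
    refine add_le_add e8 ?_
    calc ∑ m ∈ univ.erase (0 : F), I m ≤ ∑ _m ∈ univ.erase (0 : F), (Fintype.card F : ℝ) * κ :=
          sum_le_sum fun m hm => e9 m (ne_of_mem_erase hm)
      _ ≤ ∑ _m : F, (Fintype.card F : ℝ) * κ :=
          sum_le_sum_of_subset_of_nonneg (subset_univ _) fun _ _ _ => by positivity
      _ = _ := by simp
  calc ((Sol s B C D).card : ℝ) ^ 2 ≤ Fintype.card F * ∑ m : F, I m := e5 ▸ e4
    _ ≤ Fintype.card F * ((Fintype.card F : ℝ) * Fintype.card F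
      + Fintype.card F * (Fintype.card F * κ)) := mul_le_mul_of_nonneg_left e10 q0.le
    _ = _ := by ring

theorem ofew (M : ℕ) : ∃ q0 : ℕ, ∀ (F : Type) [Field F] [Fintype F] [DecidableEq F],
    q0 ≤ Fintype.card F → ∀ (c s : F) (B C D : Finset F), OTrio c B C D → s ∈ Lam c →
      M * (Sol s B C D).card ≤ Fintype.card F ^ 2 := by
  refine ⟨48 * M ^ 8 + 2 * M ^ 2, fun F _ _ _ hq c s B C D h hs => ?_⟩
  rcases Nat.eq_zero_or_pos M with h0 | h0
  · simp [h0]
  set q : ℝ := (Fintype.card F : ℝ) with hqd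
  have q0 : 0 < q := by rw [hqd]; exact_mod_cast Fintype.card_pos
  have M0 : (0 : ℝ) < M := by exact_mod_cast h0
  have hq1 : 48 * (M : ℝ) ^ 8 + 2 * (M : ℝ) ^ 2 ≤ q := by rw [hqd]; exact_mod_cast hq
  have p8 : (0 : ℝ) < (M : ℝ) ^ 8 := by positivity
  have p2 : (0 : ℝ) < (M : ℝ) ^ 2 := by positivity
  have hk : 3 * q ^ 3 ≤ (q / (2 * (M : ℝ) ^ 2)) ^ 4 := by
    rw [div_pow, le_div_iff₀ (by positivity)]
    have : 48 * (M : ℝ) ^ 8 ≤ q := by linarith
    calc 3 * q ^ 3 * (2 * (M : ℝ) ^ 2) ^ 4 = q ^ 3 * (48 * (M : ℝ) ^ 8) := by ring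
      _ ≤ q ^ 3 * q := mul_le_mul_of_nonneg_left this (by positivity)
      _ = q ^ 4 := by ring
  have h1 := otwist h hs (κ := q / (2 * (M : ℝ) ^ 2)) (by positivity) hk
  rw [← hqd] at h1
  have h2 : (M : ℝ) ^ 2 * (1 + q / (2 * (M : ℝ) ^ 2)) ≤ q := by
    have : (M : ℝ) ^ 2 * (1 + q / (2 * (M : ℝ) ^ 2)) = (M : ℝ) ^ 2 + q / 2 := by field_simp
    rw [this]; linarith
  have h3 : ((M : ℝ) * (Sol s B C D).card) ^ 2 ≤ (q ^ 2) ^ 2 := by
    calc ((M : ℝ) * (Sol s B C D).card) ^ 2 = (M : ℝ) ^ 2 * ((Sol s B C D).card : ℝ) ^ 2 := by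
          ring
      _ ≤ (M : ℝ) ^ 2 * (q ^ 3 * (1 + q / (2 * (M : ℝ) ^ 2))) :=
          mul_le_mul_of_nonneg_left h1 p2.le
      _ = q ^ 3 * ((M : ℝ) ^ 2 * (1 + q / (2 * (M : ℝ) ^ 2))) := by ring
      _ ≤ q ^ 3 * q := mul_le_mul_of_nonneg_left h2 (by positivity)
      _ = (q ^ 2) ^ 2 := by ring
  have h4 := le_of_sq_le_sq h3 (by positivity)
  rw [hqd] at h4
  exact_mod_cast h4

end Pool.Agent.P.MP_862e21_al
end

-- part Pool.Agent.P.MP_862e21_al.Dense
section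

namespace Pool.Agent.P.MP_862e21_al

open Finset Pointwise

variable {F : Type*} [Field F] [DecidableEq F]

omit [Field F] in
/-- a large sieve inequality for almost orthogonal unimodular functions -/
theorem sieve [Fintype F] {A B : Finset F} (f : F → F → ℂ) (hf : ∀ x y, ‖f x y‖ = 1) {κ δ : ℝ}
    (hκ : 0 ≤ κ) (hδ : 0 ≤ δ)
    (ho : ∀ x ∈ A, ∀ x' ∈ A, x ≠ x' → ‖∑ y : F, f x y * (starRingEnd ℂ) (f x' y)‖ ≤ κ)
    (hb : ∀ x ∈ A, δ ≤ ‖∑ y ∈ B, f x y‖) :
    ((A.card : ℝ) * δ) ^ 2 ≤ B.card * (A.card * Fintype.card F + (A.card : ℝ) ^ 2 * κ) := by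
  choose η hη1 hη2 using fun x : F => Complex.exists_norm_eq_mul_self (∑ y ∈ B, f x y)
  set g : F → ℂ := fun y => ∑ x ∈ A, η x * f x y with hg
  have s1 : ∑ y ∈ B, g y = ((∑ x ∈ A, ‖∑ y ∈ B, f x y‖ : ℝ) : ℂ) := by
    simp only [hg]
    rw [sum_comm, Complex.ofReal_sum]
    refine sum_congr rfl fun x _ => ?_
    rw [← mul_sum, ← hη2 x]
  have s2 : (A.card : ℝ) * δ ≤ ∑ y ∈ B, ‖g y‖ := by
    calc (A.card : ℝ) * δ = ∑ _x ∈ A, δ := by rw [sum_const, nsmul_eq_mul]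
      _ ≤ ∑ x ∈ A, ‖∑ y ∈ B, f x y‖ := sum_le_sum hb
      _ ≤ ‖∑ y ∈ B, g y‖ := by
          rw [s1, Complex.norm_real]
          exact le_abs_self _
      _ ≤ ∑ y ∈ B, ‖g y‖ := norm_sum_le _ _
  have s3 : (∑ y ∈ B, ‖g y‖) ^ 2 ≤ B.card * ∑ y ∈ B, ‖g y‖ ^ 2 := sq_sum_le_card_mul_sum_sq
  have s4 : ∑ y ∈ B, ‖g y‖ ^ 2 ≤ ∑ y : F, ‖g y‖ ^ 2 :=
    sum_le_sum_of_subset_of_nonneg (subset_univ B) fun _ _ _ => by positivity
  have s5 : ((∑ y : F, ‖g y‖ ^ 2 : ℝ) : ℂ) = ∑ x ∈ A, ∑ x' ∈ A,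
      η x * (starRingEnd ℂ) (η x') * ∑ y : F, f x y * (starRingEnd ℂ) (f x' y) := by
    have e1 : ∀ y : F, ((‖g y‖ ^ 2 : ℝ) : ℂ) = ∑ x ∈ A, ∑ x' ∈ A,
        η x * (starRingEnd ℂ) (η x') * (f x y * (starRingEnd ℂ) (f x' y)) := by
      intro y
      have : ((‖g y‖ ^ 2 : ℝ) : ℂ) = g y * (starRingEnd ℂ) (g y) := by
        rw [Complex.mul_conj, Complex.normSq_eq_norm_sq]
      rw [this]
      simp only [hg, map_sum, map_mul]
      rw [sum_mul_sum]
      refine sum_congr rfl fun x _ => sum_congr rfl fun x' _ => by ring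
    rw [Complex.ofReal_sum, sum_congr rfl fun y _ => e1 y, sum_comm]
    refine sum_congr rfl fun x _ => ?_
    rw [sum_comm]
    refine sum_congr rfl fun x' _ => ?_
    rw [mul_sum]
  have s6 : ∀ x ∈ A, ∀ x' ∈ A,
      ‖η x * (starRingEnd ℂ) (η x') * ∑ y : F, f x y * (starRingEnd ℂ) (f x' y)‖ ≤
        (if x' = x then (Fintype.card F : ℝ) else 0) + κ := by
    intro x hx x' hx'
    rw [norm_mul, norm_mul, Complex.norm_conj, hη1, hη1, one_mul, one_mul]
    by_cases e : x' = x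
    · rw [if_pos e]
      have : ‖∑ y : F, f x y * (starRingEnd ℂ) (f x' y)‖ ≤ Fintype.card F := by
        refine (norm_sum_le _ _).trans ?_
        simp [hf]
      linarith
    · rw [if_neg e, zero_add]
      exact ho x hx x' hx' (Ne.symm e)
  have s7 : ∑ y : F, ‖g y‖ ^ 2 ≤ A.card * Fintype.card F + (A.card : ℝ) ^ 2 * κ := by
    calc ∑ y : F, ‖g y‖ ^ 2 ≤ ‖((∑ y : F, ‖g y‖ ^ 2 : ℝ) : ℂ)‖ := by
          rw [Complex.norm_real]; exact le_abs_self _
      _ ≤ ∑ x ∈ A, ∑ x' ∈ A, ((if x' = x then (Fintype.card F : ℝ) else 0) + κ) := by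
          rw [s5]
          refine (norm_sum_le _ _).trans (sum_le_sum fun x hx => ?_)
          exact (norm_sum_le _ _).trans (sum_le_sum fun x' hx' => s6 x hx x' hx')
      _ = ∑ _x ∈ A, ((Fintype.card F : ℝ) + A.card * κ) := by
          refine sum_congr rfl fun x hx => ?_
          rw [sum_add_distrib, sum_ite_eq' A x, if_pos hx, sum_const, nsmul_eq_mul]
      _ = A.card * Fintype.card F + (A.card : ℝ) ^ 2 * κ := by
          rw [sum_const, nsmul_eq_mul]; ring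
  have h0 : 0 ≤ (A.card : ℝ) * δ := by positivity
  calc ((A.card : ℝ) * δ) ^ 2 ≤ (∑ y ∈ B, ‖g y‖) ^ 2 := pow_le_pow_left₀ h0 s2 2
    _ ≤ B.card * ∑ y ∈ B, ‖g y‖ ^ 2 := s3
    _ ≤ B.card * (A.card * Fintype.card F + (A.card : ℝ) ^ 2 * κ) :=
        mul_le_mul_of_nonneg_left (s4.trans s7) (Nat.cast_nonneg _)

theorem dense_coeff [Fintype F] {e : AddChar F ℂ} (he : e.IsPrimitive) {l : F} {A B C : Finset F}
    (h : Cl l A B C) (hbc : B.card ≤ C.card)
    (hq : A.card + B.card + 2 * C.card ≤ Fintype.card F + 1) {x : F} (hx : x ∈ A) :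
    ∃ ξ : F, ξ ≠ 0 ∧ (B.card : ℝ) ^ 2 / Fintype.card F ≤ ‖∑ y ∈ B, e (ξ * (y - x)⁻¹)‖ := by
  obtain ⟨D, hT, hD⟩ := h.chart hx
  have ha := h.nA.card_pos
  have hb := h.nB.card_pos
  have hcd : C.card ≤ D.card := by omega
  have nD : D.Nonempty := card_pos.mp (by omega)
  have nC : (ch x C).Nonempty := card_pos.mp (by rw [card_ch]; omega)
  obtain ⟨ξ, h0, hξ⟩ := bigCoeff he hT nC nD
  refine ⟨ξ, h0, ?_⟩
  have e1 : fh e (ch x B) ξ = ∑ y ∈ B, e (ξ * (y - x)⁻¹) := by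
    unfold fh ch
    rw [sum_image]
    intro a _ b _ hab
    simpa using hab
  rw [card_ch, card_ch, e1] at hξ
  have q0 : (0 : ℝ) < Fintype.card F := by exact_mod_cast Fintype.card_pos
  rw [div_le_iff₀ q0]
  have c1 : (B.card : ℝ) ≤ C.card := by exact_mod_cast hbc
  have c2 : (B.card : ℝ) ≤ D.card := by exact_mod_cast hbc.trans hcd
  have b0 : (0 : ℝ) ≤ B.card := Nat.cast_nonneg _
  have c3 : (B.card : ℝ) * B.card ≤ C.card * D.card := mul_le_mul c1 c2 b0 (b0.trans c1)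
  have c4 : ((B.card : ℝ) ^ 2) ^ 2 ≤
      (‖∑ y ∈ B, e (ξ * (y - x)⁻¹)‖ * Fintype.card F) ^ 2 := by
    calc ((B.card : ℝ) ^ 2) ^ 2 = (B.card : ℝ) ^ 2 * (B.card * B.card) := by ring
      _ ≤ (B.card : ℝ) ^ 2 * (C.card * D.card) := mul_le_mul_of_nonneg_left c3 (by positivity)
      _ = (B.card : ℝ) ^ 2 * C.card * D.card := by ring
      _ ≤ _ := hξ
      _ = _ := by ring
  exact le_of_sq_le_sq c4 (by positivity)

theorem dense (N : ℕ) : ∃ q0 : ℕ, ∀ (F : Type) [Field F] [Fintype F] [DecidableEq F],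
    q0 ≤ Fintype.card F → ∀ (l : F) (A B C : Finset F), Cl l A B C → B.card ≤ C.card →
      A.card + B.card + 2 * C.card ≤ Fintype.card F + 1 → Fintype.card F ≤ N * B.card →
      A.card ≤ 2 * N ^ 3 := by
  refine ⟨768 * N ^ 12 + 12 * N ^ 3, fun F _ _ _ hq0 l A B C h hbc hq hN => ?_⟩
  obtain ⟨e, he⟩ := exists_char (F := F)
  have key : ∀ x : F, ∃ ξ : F, ξ ≠ 0 ∧
      (x ∈ A → (B.card : ℝ) ^ 2 / Fintype.card F ≤ ‖∑ y ∈ B, e (ξ * (y - x)⁻¹)‖) := by
    intro x
    by_cases hx : x ∈ A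
    · obtain ⟨ξ, h0, h1⟩ := dense_coeff he h hbc hq hx
      exact ⟨ξ, h0, fun _ => h1⟩
    · exact ⟨1, one_ne_zero, fun h' => absurd h' hx⟩
  choose ξ hξ0 hξ using key
  have qpos : 0 < Fintype.card F := Fintype.card_pos
  have Npos : 0 < N := by
    rcases Nat.eq_zero_or_pos N with h0 | h0
    · rw [h0, zero_mul] at hN; omega
    · exact h0
  set q : ℝ := (Fintype.card F : ℝ) with hqd
  set n : ℝ := (N : ℝ) ^ 3 with hn
  set a : ℝ := (A.card : ℝ) with had
  set b : ℝ := (B.card : ℝ) with hbd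
  have q0 : 0 < q := by rw [hqd]; exact_mod_cast qpos
  have N0 : (0 : ℝ) < N := by exact_mod_cast Npos
  have n0 : 0 < n := by rw [hn]; positivity
  have a0 : 0 < a := by rw [had]; exact_mod_cast h.nA.card_pos
  have b0 : 0 < b := by rw [hbd]; exact_mod_cast h.nB.card_pos
  have hq1 : 768 * n ^ 4 + 12 * n ≤ q := by
    have : ((768 * N ^ 12 + 12 * N ^ 3 : ℕ) : ℝ) ≤ q := by rw [hqd]; exact_mod_cast hq0
    push_cast at this
    rw [hn]
    calc 768 * ((N : ℝ) ^ 3) ^ 4 + 12 * (N : ℝ) ^ 3 = 768 * (N : ℝ) ^ 12 + 12 * (N : ℝ) ^ 3 := by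
          ring
      _ ≤ q := this
  have hn4 : 0 < n ^ 4 := by positivity
  have hk : 3 * q ^ 3 ≤ (q / (4 * n)) ^ 4 := by
    rw [div_pow, le_div_iff₀ (by positivity)]
    have : 768 * n ^ 4 ≤ q := by linarith
    calc 3 * q ^ 3 * (4 * n) ^ 4 = q ^ 3 * (768 * n ^ 4) := by ring
      _ ≤ q ^ 3 * q := mul_le_mul_of_nonneg_left this (by positivity)
      _ = q ^ 4 := by ring
  have hk3 : q / (4 * n) + 3 ≤ q / (2 * n) := by
    have e1 : q / (2 * n) = q / (4 * n) + q / (4 * n) := by field_simp; ring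
    have e2 : 3 ≤ q / (4 * n) := by
      rw [le_div_iff₀ (by positivity)]
      linarith
    linarith
  have hs := sieve (A := A) (B := B) (fun x y => e (ξ x * (y - x)⁻¹)) (fun x y => norm_char e _)
    (κ := q / (2 * n)) (δ := b ^ 2 / q) (by positivity) (by positivity)
    (by
      intro x _ x' _ hne
      have := chart_inner he hne (hξ0 x) (hξ0 x') (κ := q / (4 * n)) (by positivity) hk
      refine le_trans (le_of_eq ?_) (this.trans hk3)
      congr 1
      refine sum_congr rfl fun y _ => ?_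
      rw [conj_char, ← AddChar.map_add_eq_mul, ← sub_eq_add_neg])
    (fun x hx => hξ x hx)
  rw [← had, ← hbd, ← hqd] at hs
  have hNb : q ≤ N * b := by rw [hqd, hbd]; exact_mod_cast hN
  have hb3 : q ^ 3 ≤ n * b ^ 3 := by
    calc q ^ 3 ≤ (N * b) ^ 3 := pow_le_pow_left₀ q0.le hNb 3
      _ = n * b ^ 3 := by rw [hn]; ring
  have e1 : (a * (b ^ 2 / q)) ^ 2 = (a * b) * (a * b ^ 3 / q ^ 2) := by field_simp
  have e2 : b * (a * q + a ^ 2 * (q / (2 * n))) = (a * b) * (q + a * q / (2 * n)) := by field_simp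
  rw [e1, e2] at hs
  have h1 : a * b ^ 3 / q ^ 2 ≤ q + a * q / (2 * n) := le_of_mul_le_mul_left hs (by positivity)
  have h2 : a * q / n ≤ a * b ^ 3 / q ^ 2 := by
    rw [div_le_div_iff₀ n0 (by positivity)]
    calc a * q * q ^ 2 = a * q ^ 3 := by ring
      _ ≤ a * (n * b ^ 3) := mul_le_mul_of_nonneg_left hb3 a0.le
      _ = a * b ^ 3 * n := by ring
  have e3 : a * q / n = a * q / (2 * n) + a * q / (2 * n) := by field_simp; ring
  have h3 : a * q / (2 * n) ≤ q := by linarith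
  rw [div_le_iff₀ (by positivity)] at h3
  have h4 : a ≤ 2 * n := by
    have : q * a ≤ q * (2 * n) := by linarith
    exact le_of_mul_le_mul_left this q0
  rw [had, hn] at h4
  exact_mod_cast h4

end Pool.Agent.P.MP_862e21_al
end

-- part Pool.Agent.P.MP_862e21_al.ODenseA
section

namespace Pool.Agent.P.MP_862e21_al

open Finset Pointwise

variable {F : Type*} [Field F] [DecidableEq F]

theorem ODenseA_big [Fintype F] {e : AddChar F ℂ} (he : e.IsPrimitive) {l : F} (l0 : l ≠ 0)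
    (hl1 : l ≠ 1) {B C D : Finset F} (hC : C.Nonempty) (hD : D.Nonempty)
    (hT : 2 * (Fintype.card F * (Sol l B C D).card) ≤ B.card * C.card * D.card) :
    ∃ ξ : F, ξ ≠ 0 ∧
      (B.card : ℝ) ^ 2 * C.card * D.card ≤ 4 * ((Fintype.card F : ℝ) ^ 2 * ‖fh e B ξ‖ ^ 2) := by
  have hne : (univ.erase (0 : F)).Nonempty := ⟨1, by simp⟩
  obtain ⟨ξ0, hξ0, hmax⟩ := exists_max_image _ (fun ξ => ‖fh e B ξ‖) hne
  refine ⟨ξ0, ne_of_mem_erase hξ0, ?_⟩
  have l1 : 1 - l ≠ 0 := sub_ne_zero.mpr hl1.symm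
  have e1 := count_fh he (1 - l) l B C D
  have e2 : (B ×ˢ C).filter (fun p => (1 - l) * p.1 + l * p.2 ∈ D) = Sol l B C D := rfl
  rw [e2, ← add_sum_erase _ _ (mem_univ (0 : F))] at e1
  simp only [mul_zero, neg_zero, fh_zero] at e1
  set m := ‖fh e B ξ0‖
  have m0 : 0 ≤ m := norm_nonneg _
  have hT' : 2 * ((Fintype.card F : ℝ) * (Sol l B C D).card) ≤ (B.card : ℝ) * C.card * D.card := by
    exact_mod_cast hT
  have e3 : (B.card : ℝ) * C.card * D.card - (Fintype.card F : ℝ) * (Sol l B C D).card ≤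
      m * ∑ ξ : F, ‖fh e C (l * ξ)‖ * ‖fh e D ξ‖ := by
    have : (((B.card : ℝ) * C.card * D.card - (Fintype.card F : ℝ) * (Sol l B C D).card : ℝ) : ℂ) =
        -∑ ξ ∈ univ.erase (0 : F), fh e B ((1 - l) * ξ) * fh e C (l * ξ) * fh e D (-ξ) := by
      push_cast
      linear_combination e1
    have e4 := congrArg norm this
    rw [norm_neg, Complex.norm_real] at e4
    refine (le_abs_self _).trans ?_
    rw [← Real.norm_eq_abs, e4]
    refine le_trans (norm_sum_le _ _) ?_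
    rw [mul_sum]
    refine le_trans (sum_le_sum (g := fun ξ => m * (‖fh e C (l * ξ)‖ * ‖fh e D ξ‖)) ?_)
      (sum_le_sum_of_subset_of_nonneg (subset_univ _) (fun _ _ _ => by positivity))
    intro ξ hξ
    rw [norm_mul, norm_mul, norm_fh_neg, mul_assoc]
    refine mul_le_mul_of_nonneg_right (hmax _ ?_) (by positivity)
    exact mem_erase.mpr ⟨mul_ne_zero l1 (ne_of_mem_erase hξ), mem_univ _⟩
  have e5 := sum_mul_sq_le_sq_mul_sq univ (fun ξ => ‖fh e C (l * ξ)‖) (fun ξ => ‖fh e D ξ‖)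
  rw [parseval_mul he C l0, parseval he D] at e5
  set s := ∑ ξ : F, ‖fh e C (l * ξ)‖ * ‖fh e D ξ‖
  have c0 : (0 : ℝ) < C.card := by exact_mod_cast hC.card_pos
  have d0 : (0 : ℝ) < D.card := by exact_mod_cast hD.card_pos
  have e6 : ((B.card : ℝ) * C.card * D.card) ^ 2 ≤ (2 * (m * s)) ^ 2 :=
    pow_le_pow_left₀ (by positivity) (by linarith) 2
  have e7 : (m * s) ^ 2 ≤ m ^ 2 * ((Fintype.card F : ℝ) * C.card * (Fintype.card F * D.card)) := by
    rw [mul_pow]; exact mul_le_mul_of_nonneg_left e5 (by positivity)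
  have e8 : ((B.card : ℝ) ^ 2 * C.card * D.card) * (C.card * D.card) ≤
      (4 * ((Fintype.card F : ℝ) ^ 2 * m ^ 2)) * (C.card * D.card) := by nlinarith
  exact le_of_mul_le_mul_right e8 (by positivity)

theorem ODenseA_coeff [Fintype F] {e : AddChar F ℂ} (he : e.IsPrimitive) {c : F}
    {A B C : Finset F} {N : ℕ} (h : OCl c A B C) (hbc : B.card ≤ C.card)
    (hq : A.card + B.card + 2 * C.card ≤ Fintype.card F + 1) (hN : Fintype.card F ≤ N * B.card)
    (hfew : ∀ B C D : Finset F, OTrio c B C D →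
      2 * N ^ 3 * (Sol c B C D).card ≤ Fintype.card F ^ 2) {x : F} (hx : x ∈ A) :
    ∃ ξ : F, ξ ≠ 0 ∧
      (B.card : ℝ) ^ 2 / (2 * Fintype.card F) ≤ ‖∑ y ∈ B, e (ξ * (y - x)⁻¹)‖ := by
  obtain ⟨D, hT, hD⟩ := h.chart hx
  have ha := h.nA.card_pos
  have hb := h.nB.card_pos
  have hcd : C.card ≤ D.card := by omega
  have nD : D.Nonempty := card_pos.mp (by omega)
  have nC : (ch x C).Nonempty := card_pos.mp (by rw [card_ch]; omega)
  have qpos : 0 < Fintype.card F := Fintype.card_pos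
  have Npos : 0 < N := by
    rcases Nat.eq_zero_or_pos N with h0 | h0
    · rw [h0, zero_mul] at hN; omega
    · exact h0
  have hsol : 2 * (Fintype.card F * (Sol c (ch x B) (ch x C) D).card) ≤
      (ch x B).card * (ch x C).card * D.card := by
    rw [card_ch, card_ch]
    have n2 : Fintype.card F ≤ N * C.card := hN.trans (Nat.mul_le_mul_left _ hbc)
    have n3 : Fintype.card F ≤ N * D.card := n2.trans (Nat.mul_le_mul_left _ hcd)
    refine Nat.le_of_mul_le_mul_left ?_ (pow_pos Npos 3)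
    calc N ^ 3 * (2 * (Fintype.card F * (Sol c (ch x B) (ch x C) D).card))
        = Fintype.card F * (2 * N ^ 3 * (Sol c (ch x B) (ch x C) D).card) := by ring
      _ ≤ Fintype.card F * Fintype.card F ^ 2 := Nat.mul_le_mul_left _ (hfew _ _ _ hT)
      _ = Fintype.card F * Fintype.card F * Fintype.card F := by ring
      _ ≤ (N * B.card) * (N * C.card) * (N * D.card) :=
          Nat.mul_le_mul (Nat.mul_le_mul hN n2) n3
      _ = _ := by ring
  obtain ⟨ξ, h0, hξ⟩ := ODenseA_big he h.spl.c0 h.spl.c1 nC nD hsol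
  refine ⟨ξ, h0, ?_⟩
  have e1 : fh e (ch x B) ξ = ∑ y ∈ B, e (ξ * (y - x)⁻¹) := by
    unfold fh ch
    rw [sum_image]
    intro a _ b _ hab
    simpa using hab
  rw [card_ch, card_ch, e1] at hξ
  have q0 : (0 : ℝ) < Fintype.card F := by exact_mod_cast qpos
  rw [div_le_iff₀ (by positivity)]
  have c1 : (B.card : ℝ) ≤ C.card := by exact_mod_cast hbc
  have c2 : (B.card : ℝ) ≤ D.card := by exact_mod_cast hbc.trans hcd
  have b0 : (0 : ℝ) ≤ B.card := Nat.cast_nonneg _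
  have c3 : (B.card : ℝ) * B.card ≤ C.card * D.card := mul_le_mul c1 c2 b0 (b0.trans c1)
  have c4 : ((B.card : ℝ) ^ 2) ^ 2 ≤
      (‖∑ y ∈ B, e (ξ * (y - x)⁻¹)‖ * (2 * Fintype.card F)) ^ 2 := by
    calc ((B.card : ℝ) ^ 2) ^ 2 = (B.card : ℝ) ^ 2 * (B.card * B.card) := by ring
      _ ≤ (B.card : ℝ) ^ 2 * (C.card * D.card) := mul_le_mul_of_nonneg_left c3 (by positivity)
      _ = (B.card : ℝ) ^ 2 * C.card * D.card := by ring
      _ ≤ _ := hξ
      _ = _ := by ring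
  exact le_of_sq_le_sq c4 (by positivity)

theorem odenseA (N : ℕ) : ∃ q0 : ℕ, ∀ (F : Type) [Field F] [Fintype F] [DecidableEq F],
    q0 ≤ Fintype.card F → ∀ (c : F) (A B C : Finset F), OCl c A B C → B.card ≤ C.card →
      A.card + B.card + 2 * C.card ≤ Fintype.card F + 1 → Fintype.card F ≤ N * B.card →
      A.card ≤ 8 * N ^ 3 := by
  obtain ⟨q1, hq1'⟩ := ofew (2 * N ^ 3)
  refine ⟨q1 + (196608 * N ^ 12 + 48 * N ^ 3), fun F _ _ _ hq0 l A B C h hbc hq hN => ?_⟩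
  obtain ⟨e, he⟩ := exists_char (F := F)
  have hfew : ∀ B C D : Finset F, OTrio l B C D →
      2 * N ^ 3 * (Sol l B C D).card ≤ Fintype.card F ^ 2 :=
    fun B C D hT => hq1' F (by omega) l l B C D hT (self_mem_Lam l)
  have key : ∀ x : F, ∃ ξ : F, ξ ≠ 0 ∧
      (x ∈ A → (B.card : ℝ) ^ 2 / (2 * Fintype.card F) ≤ ‖∑ y ∈ B, e (ξ * (y - x)⁻¹)‖) := by
    intro x
    by_cases hx : x ∈ A
    · obtain ⟨ξ, h0, h1⟩ := ODenseA_coeff he h hbc hq hN hfew hx
      exact ⟨ξ, h0, fun _ => h1⟩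
    · exact ⟨1, one_ne_zero, fun h' => absurd h' hx⟩
  choose ξ hξ0 hξ using key
  have qpos : 0 < Fintype.card F := Fintype.card_pos
  have Npos : 0 < N := by
    rcases Nat.eq_zero_or_pos N with h0 | h0
    · rw [h0, zero_mul] at hN; omega
    · exact h0
  set q : ℝ := (Fintype.card F : ℝ) with hqd
  set n : ℝ := (N : ℝ) ^ 3 with hn
  set a : ℝ := (A.card : ℝ) with had
  set b : ℝ := (B.card : ℝ) with hbd
  have q0 : 0 < q := by rw [hqd]; exact_mod_cast qpos
  have N0 : (0 : ℝ) < N := by exact_mod_cast Npos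
  have n0 : 0 < n := by rw [hn]; positivity
  have a0 : 0 < a := by rw [had]; exact_mod_cast h.nA.card_pos
  have b0 : 0 < b := by rw [hbd]; exact_mod_cast h.nB.card_pos
  have hq1 : 196608 * n ^ 4 + 48 * n ≤ q := by
    have hq2 : 196608 * N ^ 12 + 48 * N ^ 3 ≤ Fintype.card F := by omega
    have : ((196608 * N ^ 12 + 48 * N ^ 3 : ℕ) : ℝ) ≤ q := by rw [hqd]; exact_mod_cast hq2
    push_cast at this
    rw [hn]
    calc 196608 * ((N : ℝ) ^ 3) ^ 4 + 48 * (N : ℝ) ^ 3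
        = 196608 * (N : ℝ) ^ 12 + 48 * (N : ℝ) ^ 3 := by ring
      _ ≤ q := this
  have hn4 : 0 < n ^ 4 := by positivity
  have hk : 3 * q ^ 3 ≤ (q / (16 * n)) ^ 4 := by
    rw [div_pow, le_div_iff₀ (by positivity)]
    have : 196608 * n ^ 4 ≤ q := by linarith
    calc 3 * q ^ 3 * (16 * n) ^ 4 = q ^ 3 * (196608 * n ^ 4) := by ring
      _ ≤ q ^ 3 * q := mul_le_mul_of_nonneg_left this (by positivity)
      _ = q ^ 4 := by ring
  have hk3 : q / (16 * n) + 3 ≤ q / (8 * n) := by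
    have e1 : q / (8 * n) = q / (16 * n) + q / (16 * n) := by field_simp; ring
    have e2 : 3 ≤ q / (16 * n) := by
      rw [le_div_iff₀ (by positivity)]
      linarith
    linarith
  have hs := sieve (A := A) (B := B) (fun x y => e (ξ x * (y - x)⁻¹)) (fun x y => norm_char e _)
    (κ := q / (8 * n)) (δ := b ^ 2 / (2 * q)) (by positivity) (by positivity)
    (by
      intro x _ x' _ hne
      have := chart_inner he hne (hξ0 x) (hξ0 x') (κ := q / (16 * n)) (by positivity) hk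
      refine le_trans (le_of_eq ?_) (this.trans hk3)
      congr 1
      refine sum_congr rfl fun y _ => ?_
      rw [conj_char, ← AddChar.map_add_eq_mul, ← sub_eq_add_neg])
    (fun x hx => hξ x hx)
  rw [← had, ← hbd, ← hqd] at hs
  have hNb : q ≤ N * b := by rw [hqd, hbd]; exact_mod_cast hN
  have hb3 : q ^ 3 ≤ n * b ^ 3 := by
    calc q ^ 3 ≤ (N * b) ^ 3 := pow_le_pow_left₀ q0.le hNb 3
      _ = n * b ^ 3 := by rw [hn]; ring
  have e1 : (a * (b ^ 2 / (2 * q))) ^ 2 = (a * b) * (a * b ^ 3 / (4 * q ^ 2)) := by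
    field_simp
    ring
  have e2 : b * (a * q + a ^ 2 * (q / (8 * n))) = (a * b) * (q + a * q / (8 * n)) := by field_simp
  rw [e1, e2] at hs
  have h1 : a * b ^ 3 / (4 * q ^ 2) ≤ q + a * q / (8 * n) :=
    le_of_mul_le_mul_left hs (by positivity)
  have h2 : a * q / (4 * n) ≤ a * b ^ 3 / (4 * q ^ 2) := by
    rw [div_le_div_iff₀ (by positivity) (by positivity)]
    calc a * q * (4 * q ^ 2) = 4 * a * q ^ 3 := by ring
      _ ≤ 4 * a * (n * b ^ 3) := mul_le_mul_of_nonneg_left hb3 (by positivity)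
      _ = a * b ^ 3 * (4 * n) := by ring
  have e3 : a * q / (4 * n) = a * q / (8 * n) + a * q / (8 * n) := by field_simp; ring
  have h3 : a * q / (8 * n) ≤ q := by linarith
  rw [div_le_iff₀ (by positivity)] at h3
  have h4 : a ≤ 8 * n := by
    have : q * a ≤ q * (8 * n) := by linarith
    exact le_of_mul_le_mul_left this q0
  rw [had, hn] at h4
  exact_mod_cast h4

end Pool.Agent.P.MP_862e21_al
end

-- part Pool.Agent.P.MP_862e21_al.ORemove
section

namespace Pool.Agent.P.MP_862e21_al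

open Finset Pointwise

variable {F : Type*} [Field F] [DecidableEq F]

/-- families of solutions with distinct coordinates -/
def ORemove_ok (s : F) (P : Finset (F × F)) : Prop :=
  ∀ p ∈ P, ∀ p' ∈ P, (p.1 = p'.1 ∨ p.2 = p'.2 ∨
    (1 - s) * p.1 + s * p.2 = (1 - s) * p'.1 + s * p'.2) → p = p'

/-- triangle index of a solution and a base point -/
def ORemove_tri (s : F) (x : F × (F × F)) : F × F × F :=
  (x.1, x.1 + (1 - s) * x.2.1, x.1 + ((1 - s) * x.2.1 + s * x.2.2))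

theorem ORemove_tri_inj {s : F} (h0 : s ≠ 0) (h1 : s ≠ 1) :
    Function.Injective (ORemove_tri s) := by
  rintro ⟨a, y, z⟩ ⟨a', y', z'⟩ h
  simp only [ORemove_tri, Prod.mk.injEq] at h
  obtain ⟨ha, hb, hc⟩ := h
  subst ha
  have h1' : (1 - s) ≠ 0 := sub_ne_zero.mpr h1.symm
  have hy : y = y' := mul_left_cancel₀ h1' (add_left_cancel hb)
  subst hy
  have hz : z = z' := mul_left_cancel₀ h0 (add_left_cancel (add_left_cancel hc))
  subst hz
  rfl

theorem ORemove_mem [Fintype F] {s : F} {P : Finset (F × F)} {a b c : F} :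
    (a, b, c) ∈ ((univ : Finset F) ×ˢ P).image (ORemove_tri s) ↔
      ∃ p ∈ P, b = a + (1 - s) * p.1 ∧ c = a + ((1 - s) * p.1 + s * p.2) := by
  constructor
  · intro h
    obtain ⟨⟨a', p⟩, hp, he⟩ := mem_image.mp h
    simp only [ORemove_tri, Prod.mk.injEq] at he
    obtain ⟨ha, hb, hc⟩ := he
    subst ha
    exact ⟨p, (mem_product.mp hp).2, hb.symm, hc.symm⟩
  · rintro ⟨p, hp, hb, hc⟩
    refine mem_image.mpr ⟨(a, p), mem_product.mpr ⟨mem_univ _, hp⟩, ?_⟩
    simp only [ORemove_tri, Prod.mk.injEq]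
    exact ⟨trivial, hb.symm, hc.symm⟩

theorem ORemove_disj [Fintype F] {s : F} (h0 : s ≠ 0) (h1 : s ≠ 1) {P : Finset (F × F)}
    (hP : ORemove_ok s P) :
    SimpleGraph.TripartiteFromTriangles.ExplicitDisjoint
      (((univ : Finset F) ×ˢ P).image (ORemove_tri s)) := by
  have h1' : (1 - s) ≠ 0 := sub_ne_zero.mpr h1.symm
  constructor
  · intro a b c a' h h'
    obtain ⟨p, hp, hb, hc⟩ := ORemove_mem.mp h
    obtain ⟨p', hp', hb', hc'⟩ := ORemove_mem.mp h'
    have hz : p.2 = p'.2 := by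
      apply mul_left_cancel₀ h0
      linear_combination hc' - hc - hb' + hb
    have := hP p hp p' hp' (Or.inr (Or.inl hz))
    subst this
    linear_combination hb' - hb
  · intro a b c b' h h'
    obtain ⟨p, hp, hb, hc⟩ := ORemove_mem.mp h
    obtain ⟨p', hp', hb', hc'⟩ := ORemove_mem.mp h'
    have hw : (1 - s) * p.1 + s * p.2 = (1 - s) * p'.1 + s * p'.2 := by
      linear_combination hc' - hc
    have := hP p hp p' hp' (Or.inr (Or.inr hw))
    subst this
    rw [hb, hb']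
  · intro a b c c' h h'
    obtain ⟨p, hp, hb, hc⟩ := ORemove_mem.mp h
    obtain ⟨p', hp', hb', hc'⟩ := ORemove_mem.mp h'
    have hy : p.1 = p'.1 := by
      apply mul_left_cancel₀ h1'
      linear_combination hb' - hb
    have := hP p hp p' hp' (Or.inl hy)
    subst this
    rw [hc, hc']

open SimpleGraph.TripartiteFromTriangles in
theorem ORemove_cliques [Fintype F] {s : F} {B C D : Finset F} {P : Finset (F × F)}
    (hP : P ⊆ Sol s B C D) :
    ((graph (((univ : Finset F) ×ˢ P).image (ORemove_tri s))).cliqueFinset 3).card ≤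
      Fintype.card F * (Sol s B C D).card := by
  have hsub : (graph (((univ : Finset F) ×ˢ P).image (ORemove_tri s))).cliqueFinset 3 ⊆
      ((univ : Finset F) ×ˢ Sol s B C D).image (fun x => toTriangle (ORemove_tri s x)) := by
    intro T hT
    rw [SimpleGraph.mem_cliqueFinset_iff, SimpleGraph.is3Clique_iff] at hT
    obtain ⟨x, y, z, hxy, hxz, hyz, rfl⟩ := hT
    obtain ⟨a, b, c, habc, hab, hac, hbc⟩ := graph_triple hxy hxz hyz
    obtain ⟨c', hc'⟩ := Graph.in₀₁_iff.1 hab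
    obtain ⟨b', hb'⟩ := Graph.in₀₂_iff.1 hac
    obtain ⟨a', ha'⟩ := Graph.in₁₂_iff.1 hbc
    obtain ⟨p1, hp1, e1, -⟩ := ORemove_mem.mp hc'
    obtain ⟨p2, hp2, -, e2⟩ := ORemove_mem.mp hb'
    obtain ⟨p3, hp3, e3, e4⟩ := ORemove_mem.mp ha'
    have m1 := mem_filter.mp (hP hp1)
    have m2 := mem_filter.mp (hP hp2)
    have m3 := mem_filter.mp (hP hp3)
    have hw : (1 - s) * p1.1 + s * p3.2 = (1 - s) * p2.1 + s * p2.2 := by
      linear_combination e2 - e1 - e4 + e3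
    refine mem_image.mpr ⟨(a, (p1.1, p3.2)), mem_product.mpr ⟨mem_univ _, ?_⟩, ?_⟩
    · refine mem_filter.mpr ⟨mem_product.mpr ⟨(mem_product.mp m1.1).1,
        (mem_product.mp m3.1).2⟩, ?_⟩
      show (1 - s) * p1.1 + s * p3.2 ∈ D
      rw [hw]
      exact m2.2
    · rw [← habc]
      have : ORemove_tri s (a, (p1.1, p3.2)) = (a, b, c) := by
        simp only [ORemove_tri, Prod.mk.injEq]
        refine ⟨trivial, e1.symm, ?_⟩
        rw [hw]
        exact e2.symm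
      rw [this]
      rfl
  calc _ ≤ _ := card_le_card hsub
    _ ≤ ((univ : Finset F) ×ˢ Sol s B C D).card := card_image_le
    _ = _ := by rw [card_product, card_univ]

theorem ORemove_max (s : F) (B C D : Finset F) :
    ∃ P ⊆ Sol s B C D, ORemove_ok s P ∧ ∃ R : Finset F, R.card ≤ 3 * P.card ∧
      ∀ y ∈ B \ R, ∀ z ∈ C \ R, (1 - s) * y + s * z ∉ D \ R := by
  classical
  obtain ⟨P, hP, hmax⟩ := exists_max_image
    ((Sol s B C D).powerset.filter (fun P => ORemove_ok s P)) (fun P => P.card)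
    ⟨∅, mem_filter.mpr ⟨empty_mem_powerset _, by intro p hp; simp at hp⟩⟩
  obtain ⟨hP1, hP2⟩ := mem_filter.mp hP
  have hP1' := mem_powerset.mp hP1
  refine ⟨P, hP1', hP2, P.image Prod.fst ∪ P.image Prod.snd ∪
    P.image (fun p => (1 - s) * p.1 + s * p.2), ?_, ?_⟩
  · have a1 := card_union_le (P.image Prod.fst ∪ P.image Prod.snd)
      (P.image (fun p => (1 - s) * p.1 + s * p.2))
    have a2 := card_union_le (P.image Prod.fst) (P.image Prod.snd)
    have a3 : (P.image Prod.fst).card ≤ P.card := card_image_le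
    have a4 : (P.image Prod.snd).card ≤ P.card := card_image_le
    have a5 : (P.image (fun p => (1 - s) * p.1 + s * p.2)).card ≤ P.card := card_image_le
    omega
  · intro y hy z hz hw
    obtain ⟨hyB, hyR⟩ := mem_sdiff.mp hy
    obtain ⟨hzC, hzR⟩ := mem_sdiff.mp hz
    obtain ⟨hwD, hwR⟩ := mem_sdiff.mp hw
    have n1 : ∀ p ∈ P, p.1 ≠ y := fun p hp h =>
      hyR (mem_union_left _ (mem_union_left _ (mem_image.mpr ⟨p, hp, h⟩)))
    have n2 : ∀ p ∈ P, p.2 ≠ z := fun p hp h =>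
      hzR (mem_union_left _ (mem_union_right _ (mem_image.mpr ⟨p, hp, h⟩)))
    have n3 : ∀ p ∈ P, (1 - s) * p.1 + s * p.2 ≠ (1 - s) * y + s * z := fun p hp h =>
      hwR (mem_union_right _ (mem_image.mpr ⟨p, hp, h⟩))
    have hn : (y, z) ∉ P := fun h => n1 _ h rfl
    have hmem : insert (y, z) P ∈
        (Sol s B C D).powerset.filter (fun P => ORemove_ok s P) := by
      refine mem_filter.mpr ⟨mem_powerset.mpr (insert_subset ?_ hP1'), ?_⟩
      · exact mem_filter.mpr ⟨mem_product.mpr ⟨hyB, hzC⟩, hwD⟩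
      · intro p hp p' hp' h
        rcases mem_insert.mp hp with rfl | hp
        · rcases mem_insert.mp hp' with rfl | hp'
          · rfl
          · exfalso
            rcases h with h | h | h
            · exact n1 _ hp' h.symm
            · exact n2 _ hp' h.symm
            · exact n3 _ hp' h.symm
        · rcases mem_insert.mp hp' with rfl | hp'
          · exfalso
            rcases h with h | h | h
            · exact n1 _ hp h
            · exact n2 _ hp h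
            · exact n3 _ hp h
          · exact hP2 p hp p' hp' h
    have := hmax _ hmem
    rw [card_insert_of_notMem hn] at this
    omega

/-- arithmetic removal for one linear equation -/
theorem oremove (E : ℕ) : ∃ M : ℕ, ∀ (F : Type) [Field F] [Fintype F] [DecidableEq F]
    (s : F) (B C D : Finset F), s ≠ 0 → s ≠ 1 →
      M * (Sol s B C D).card ≤ Fintype.card F ^ 2 →
      ∃ R : Finset F, E * R.card ≤ Fintype.card F ∧
        ∀ y ∈ B \ R, ∀ z ∈ C \ R, (1 - s) * y + s * z ∉ D \ R := by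
  rcases Nat.eq_zero_or_pos E with rfl | hE
  · refine ⟨0, fun F _ _ _ s B C D _ _ _ => ⟨B, by simp, ?_⟩⟩
    intro y hy
    simp at hy
  have hE' : (0 : ℝ) < E := by exact_mod_cast hE
  have hε : (0 : ℝ) < 1 / (27 * E) := by positivity
  have hβ := SimpleGraph.triangleRemovalBound_pos hε
  set β := SimpleGraph.triangleRemovalBound (1 / (27 * E) : ℝ) with hβdef
  obtain ⟨M, hM⟩ := exists_nat_gt (1 / (27 * β))
  refine ⟨M, fun F _ _ _ s B C D h0 h1 hS => ?_⟩
  obtain ⟨P, hP, hok, R, hR, hgood⟩ := ORemove_max s B C D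
  refine ⟨R, ?_, hgood⟩
  by_contra hcon
  push Not at hcon
  have hq : (0 : ℝ) < Fintype.card F := by exact_mod_cast Fintype.card_pos
  have h3 : (Fintype.card F : ℝ) < E * (3 * P.card) := by
    have : Fintype.card F < E * (3 * P.card) := lt_of_lt_of_le hcon (Nat.mul_le_mul_left _ hR)
    exact_mod_cast this
  haveI := ORemove_disj h0 h1 hok
  have hfar : (SimpleGraph.TripartiteFromTriangles.graph
      (((univ : Finset F) ×ˢ P).image (ORemove_tri s))).FarFromTriangleFree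
        (1 / (27 * E) : ℝ) := by
    apply SimpleGraph.TripartiteFromTriangles.farFromTriangleFree
    rw [card_image_of_injective _ (ORemove_tri_inj h0 h1), card_product, card_univ]
    push_cast
    rw [div_mul_eq_mul_div, div_le_iff₀ (by positivity)]
    nlinarith [mul_lt_mul_of_pos_left h3 hq]
  have h4 := hfar.le_card_cliqueFinset
  have h5 := ORemove_cliques (s := s) hP
  have h6 : β * (3 * (Fintype.card F : ℝ)) ^ 3 ≤ Fintype.card F * (Sol s B C D).card := by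
    have h5' : (((SimpleGraph.TripartiteFromTriangles.graph
      (((univ : Finset F) ×ˢ P).image (ORemove_tri s))).cliqueFinset 3).card : ℝ) ≤
        Fintype.card F * (Sol s B C D).card := by exact_mod_cast h5
    refine le_trans (le_of_eq ?_) (h4.trans h5')
    simp only [Fintype.card_sum]
    push_cast
    ring
  have h7 : (M : ℝ) * (Sol s B C D).card ≤ (Fintype.card F : ℝ) ^ 2 := by exact_mod_cast hS
  have h8 : 1 < (M : ℝ) * (27 * β) := by
    rwa [div_lt_iff₀ (by positivity)] at hM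
  have h9 : 27 * β * (Fintype.card F : ℝ) ^ 2 ≤ (Sol s B C D).card := by
    have : (Fintype.card F : ℝ) * (27 * β * (Fintype.card F : ℝ) ^ 2) ≤
        Fintype.card F * (Sol s B C D).card := by
      refine le_trans (le_of_eq ?_) h6
      ring
    exact le_of_mul_le_mul_left this hq
  have hM0 : (0 : ℝ) ≤ M := Nat.cast_nonneg _
  have h10 : (M : ℝ) * (27 * β * (Fintype.card F : ℝ) ^ 2) ≤ M * (Sol s B C D).card :=
    mul_le_mul_of_nonneg_left h9 hM0
  have h11 : (0 : ℝ) < (Fintype.card F : ℝ) ^ 2 := by positivity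
  nlinarith [mul_lt_mul_of_pos_right h8 h11]

end Pool.Agent.P.MP_862e21_al
end

-- part Pool.Agent.P.MP_862e21_al.Shrink
section

namespace Pool.Agent.P.MP_862e21_al

open Finset Pointwise

variable {F : Type*} [Field F] [DecidableEq F]

theorem shrink_vadd (h : F) (X C : Finset F) : (h +ᵥ X) + C = h +ᵥ (X + C) :=
  vadd_add_assoc h X C

theorem shrink_step [Fintype F] (hp : (Fintype.card F).Prime) {X C : Finset F} {e : ℕ} {h : F}
    (hC : C.Nonempty) (hs : (X + C).card ≤ X.card + C.card + e)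
    (hq : 2 * X.card + C.card ≤ Fintype.card F) (hne : (X ∩ (h +ᵥ X)).Nonempty) :
    ((X ∩ (h +ᵥ X)) + C).card ≤ (X ∩ (h +ᵥ X)).card + C.card + (2 * e + 1) := by
  have h1 := card_le_card (inter_add_subset (s₁ := X) (s₂ := h +ᵥ X) (t := C))
  have h2 := cd hp (hne.mono (inter_subset_union (s := X) (t := h +ᵥ X))) hC
  rw [union_add, shrink_vadd] at h2
  rw [shrink_vadd] at h1
  have h3 := card_union_add_card_inter (X + C) (h +ᵥ (X + C))
  have h4 := card_union_add_card_inter X (h +ᵥ X)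
  rw [card_vadd_finset] at h3 h4
  omega

theorem mid_shift [Fintype F] (hp : (Fintype.card F).Prime) {X C : Finset F} {M : ℕ}
    (hM : 1 ≤ M) (h10 : 10 ≤ X.card) (hq : 2 * X.card ≤ Fintype.card F)
    (hc : C.card ≤ M * X.card) (hC : C.Nonempty) (hs : (X + C).card ≤ 3 * C.card) :
    ∃ h : F, X.card ≤ 10 * M * (X ∩ (h +ᵥ X)).card ∧ X.card ≤ 10 * M * psi X h := by
  by_contra hn
  simp only [not_exists, not_and_or, not_le] at hn
  let H : AddSubgroup F :=
    { carrier := {h | 10 * M * psi X h < X.card}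
      zero_mem' := by
        simp only [Set.mem_ofPred_eq, psi_zero]
        omega
      neg_mem' := fun {h} hh => by simpa only [Set.mem_ofPred_eq, psi_neg] using hh
      add_mem' := fun {h k} hh hk => by
        simp only [Set.mem_ofPred_eq] at hh hk ⊢
        refine (hn (h + k)).resolve_left fun h1 => ?_
        have h2 := Nat.mul_le_mul_left (10 * M) (psi_add X h k)
        have h3 := congrArg (10 * M * ·) (card_inter_shift X (h + k))
        have h4 := Nat.mul_le_mul_right X.card hM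
        simp only [mul_add, mul_assoc] at *
        omega }
  have hH : ∀ h, h ∈ H ↔ 10 * M * psi X h < X.card := fun _ => Iff.rfl
  rcases add_top hp H with h0 | h0
  · have h1 : ∀ h ∈ (X - X).erase 0, 10 * M * (X ∩ (h +ᵥ X)).card ≤ X.card - 1 := fun h hh => by
      have := (hn h).resolve_right fun h2 => ne_of_mem_erase hh (by
        rwa [← hH, h0, AddSubgroup.mem_bot] at h2)
      omega
    have h2 := sum_le_card_nsmul _ _ _ h1
    have h3 := sum_inter_shift X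
    have hX : X.Nonempty := card_pos.1 (by omega)
    rw [← sum_subset (subset_univ (X - X)) fun h _ hh => by
      rw [card_eq_zero, eq_empty_iff_forall_notMem]
      intro x hx
      obtain ⟨y, hy, rfl⟩ := mem_vadd_finset.1 (mem_inter.1 hx).2
      exact hh (mem_sub.2 ⟨_, (mem_inter.1 hx).1, y, hy, by simp⟩),
      ← add_sum_erase _ _ (show (0 : F) ∈ X - X from
        mem_sub.2 ⟨_, hX.choose_spec, _, hX.choose_spec, sub_self _⟩)] at h3
    simp only [zero_vadd, inter_self] at h3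
    rw [← mul_sum, smul_eq_mul] at h2
    have h4 := ruzsa_triangle_inequality_sub_add_add X C X
    have h5 : (X - X).card ≤ 9 * C.card := by
      refine Nat.le_of_mul_le_mul_right (h4.trans ?_) hC.card_pos
      nlinarith [Nat.mul_le_mul hs hs]
    have h6 : ((X - X).erase 0).card ≤ 9 * (M * X.card) := card_erase_le.trans (by omega)
    have h7 := h2.trans (Nat.mul_le_mul_right _ h6)
    obtain ⟨y, hy⟩ : ∃ y, X.card = y + 1 := ⟨X.card - 1, by omega⟩
    rw [hy] at h3 h7 h10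
    have h8 : ∑ x ∈ (X - X).erase 0, (X ∩ (x +ᵥ X)).card = (y + 1) * y := by nlinarith
    rw [h8, Nat.add_sub_cancel] at h7
    have h9 : 0 < M * ((y + 1) * y) := Nat.mul_pos hM (Nat.mul_pos (by omega) (by omega))
    nlinarith
  · have h1 := sym_card (C := X) (card_pos.1 (by omega))
    rw [filter_true_of_mem fun h _ => by
      have h2 := (hH h).1 (h0 ▸ AddSubgroup.mem_top h)
      have h3 := Nat.mul_le_mul_right (psi X h) hM
      rw [mul_assoc] at h2
      omega, card_univ] at h1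
    omega

theorem shrink_iter [Fintype F] (hp : (Fintype.card F).Prime) {C : Finset F} {M : ℕ}
    (hM : 1 ≤ M) (hC : 10 * M ≤ C.card) (k : ℕ) :
    ∀ (X : Finset F) (e : ℕ), (X + C).card ≤ X.card + C.card + e → X.card ≤ C.card →
      2 * X.card + C.card ≤ Fintype.card F → 2 ^ k * (e + 1) ≤ C.card →
      M * X.card * (10 * M - 1) ^ k ≤ C.card * (10 * M) ^ k → C.card ≤ 10 * M ^ 2 * X.card →
      ∃ X' : Finset F, (X' + C).card ≤ X'.card + C.card + 2 ^ k * (e + 1) ∧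
        M * X'.card ≤ C.card ∧ C.card ≤ 10 * M ^ 2 * X'.card := by
  induction k with
  | zero =>
    intro X e h1 _ _ _ h5 h6
    exact ⟨X, by omega, by simpa using h5, h6⟩
  | succ k ih =>
    intro X e h1 h2 h3 h4 h5 h6
    have he : e + 1 ≤ 2 ^ (k + 1) * (e + 1) := Nat.le_mul_of_pos_left _ (by positivity)
    by_cases hx : M * X.card ≤ C.card
    · exact ⟨X, by omega, hx, h6⟩
    have h10 : 10 ≤ X.card := by
      by_contra hn
      have := Nat.mul_le_mul_left M (not_le.1 hn).le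
      omega
    have hne : C.Nonempty := card_pos.1 (by omega)
    obtain ⟨h, a1, a2⟩ := mid_shift hp hM h10 (by omega) (not_le.1 hx).le hne (by omega)
    have a3 := card_inter_shift X h
    have a4 := shrink_step hp hne h1 h3 (h := h) (card_pos.1 (Nat.pos_of_ne_zero fun h0 => by
      rw [h0] at a1
      omega))
    have e1 : 2 ^ k * (2 * e + 1 + 1) = 2 ^ (k + 1) * (e + 1) := by ring
    rw [← e1] at h4 ⊢
    refine ih _ _ a4 (by omega) (by omega) h4 ?_ ?_
    · obtain ⟨a, ha⟩ : ∃ a, 10 * M = a + 1 := ⟨10 * M - 1, by omega⟩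
      rw [ha, Nat.add_sub_cancel] at h5 ⊢
      rw [ha] at a2
      have a5 : (a + 1) * (X ∩ (h +ᵥ X)).card ≤ a * X.card := by nlinarith
      refine Nat.le_of_mul_le_mul_right ?_ (Nat.succ_pos a)
      calc _ = M * a ^ k * ((a + 1) * (X ∩ (h +ᵥ X)).card) := by rw [Nat.succ_eq_add_one]; ring
        _ ≤ M * a ^ k * (a * X.card) := Nat.mul_le_mul_left _ a5
        _ = M * X.card * a ^ (k + 1) := by ring
        _ ≤ _ := h5.trans_eq (by rw [Nat.succ_eq_add_one]; ring)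
    · exact (not_le.1 hx).le.trans ((Nat.mul_le_mul_left M a1).trans_eq (by ring))

theorem shrink_pow (M a : ℕ) (ha : 0 < a) : ∃ K, M * a ^ K ≤ (a + 1) ^ K := by
  have h0 : (0 : ℝ) < a := by exact_mod_cast ha
  obtain ⟨K, hK⟩ := pow_unbounded_of_one_lt (M : ℝ) (y := ((a : ℝ) + 1) / a)
    ((one_lt_div h0).2 (by linarith))
  rw [div_pow, lt_div_iff₀ (by positivity)] at hK
  exact ⟨K, by exact_mod_cast hK.le⟩

theorem fewHoles : ∃ N : ℕ, ∀ (F : Type) [Field F] [Fintype F] [DecidableEq F],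
    (Fintype.card F).Prime → 5 < Fintype.card F → ∀ (l : F) (B C D : Finset F) (u : ℕ),
      Trio l B C D → Fintype.card F = B.card + C.card + D.card + u → B.card ≤ C.card →
      C.card ≤ D.card → C.card ≤ 10 ^ 10 * B.card → N * (u + 1) ≤ B.card → False := by
  obtain ⟨M, hM⟩ : ∃ M : ℕ, M = 2 * 10 ^ 9 := ⟨_, rfl⟩
  obtain ⟨K, hK⟩ := shrink_pow M (10 * M - 1) (by omega)
  rw [Nat.sub_add_cancel (by omega)] at hK
  refine ⟨20 * M ^ 2 * 2 ^ K, fun F _ _ _ hp h5 l B C D u h hu hbc hcd hL hN => ?_⟩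
  have h1 := h.comb_le hu (self_mem_Lam l)
  rw [card_comb h.l0] at h1
  have hx : (((1 - l) / l) • B).card = B.card :=
    card_smul_finset₀ (div_ne_zero (sub_ne_zero.2 h.l1.symm) h.l0) _
  have hE : u + 1 ≤ 2 ^ K * (u + 1) := Nat.le_mul_of_pos_left _ (by positivity)
  have hM2 : M ^ 2 = 4 * 10 ^ 18 := by rw [hM]; norm_num
  rw [mul_assoc, hM2] at hN
  obtain ⟨X, a1, a2, a3⟩ := shrink_iter hp (C := C) (M := M) (by omega) (by omega) K _ u
    (by rwa [hx]) (by rwa [hx]) (by omega) (by omega)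
    (by rw [hx, mul_right_comm, mul_comm]; exact Nat.mul_le_mul hbc hK) (by rw [hx, hM2]; omega)
  rw [hM2] at a3
  rw [hM] at a2
  exact trioNorm hp h5 h (card_pos.1 (by omega)) hu hcd (X := X) (by omega) (r := 2 * X.card)
    (by omega) (by omega) (by omega) (by omega)

end Pool.Agent.P.MP_862e21_al
end

-- part Pool.Agent.P.MP_862e21_al.ODense
section

namespace Pool.Agent.P.MP_862e21_al

open Finset Pointwise

variable {F : Type*} [Field F] [DecidableEq F]

theorem ODense_sorted : ∃ N : ℕ, ∀ (F : Type) [Field F] [Fintype F] [DecidableEq F],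
    (Fintype.card F).Prime → 5 < Fintype.card F → ∀ (l : F) (B C D : Finset F) (u : ℕ),
      Trio l B C D → Fintype.card F = B.card + C.card + D.card + u → B.card ≤ C.card →
      C.card ≤ D.card → N * (u + 1) ≤ B.card → False := by
  obtain ⟨N, hN⟩ := fewHoles
  refine ⟨N + 2, fun F _ _ _ hp h5 l B C D u h hu hbc hcd hb => ?_⟩
  have e : (N + 2) * (u + 1) = N * (u + 1) + 2 * u + 2 := by ring
  rcases le_total C.card (10 ^ 10 * B.card) with hL | hL
  · exact hN F hp h5 l B C D u h hu hbc hcd hL (by omega)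
  · exact longC hp h5 h (by omega) hu hcd (by omega) hL

/-- an exact chart with few holes is impossible, whatever the order of the sizes -/
theorem trio_dense : ∃ N : ℕ, ∀ (F : Type) [Field F] [Fintype F] [DecidableEq F],
    (Fintype.card F).Prime → 5 < Fintype.card F → ∀ (l : F) (B C D : Finset F) (u : ℕ),
      Trio l B C D → Fintype.card F = B.card + C.card + D.card + u → N * (u + 1) ≤ B.card →
      N * (u + 1) ≤ C.card → N * (u + 1) ≤ D.card → False := by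
  obtain ⟨N, hN⟩ := ODense_sorted
  refine ⟨N, fun F _ _ _ hp h5 l B C D u h hu hb hc hd => ?_⟩
  rcases le_total B.card C.card with h1 | h1 <;> rcases le_total C.card D.card with h2 | h2 <;>
    rcases le_total B.card D.card with h3 | h3
  · exact hN F hp h5 l B C D u h hu h1 h2 hb
  · exact hN F hp h5 l B C D u h hu h1 h2 hb
  · exact hN F hp h5 l B D C u h.swap23 (by omega) h3 h2 hb
  · exact hN F hp h5 l D B C u h.swap23.swap12 (by omega) h3 h1 hd
  · exact hN F hp h5 l C B D u h.swap12 (by omega) h1 h3 hc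
  · exact hN F hp h5 l C D B u h.swap12.swap23 (by omega) h2 h3 hc
  · exact hN F hp h5 l D C B u h.swap12.swap23.swap12 (by omega) h2 h1 hd
  · exact hN F hp h5 l D C B u h.swap12.swap23.swap12 (by omega) h2 h1 hd

theorem ODense_lam (c : F) : (Lam c).card ≤ 6 := by
  unfold Lam
  exact card_le_six

theorem ODense_num {N N0 a r b q : ℕ} (hq : 16 * N ^ 4 * N0 ≤ q) (ha : a ≤ 8 * N ^ 3)
    (hr : 12 * (N * (3 * N0 + 1)) * r ≤ 6 * q) (hb : q ≤ N * b) (h0 : 0 < q) :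
    N0 * (a + 3 * r) + r ≤ b := by
  have hN : 0 < N := Nat.pos_of_ne_zero (by rintro rfl; omega)
  have h1 : N * (N0 * a) ≤ N * (N0 * (8 * N ^ 3)) :=
    Nat.mul_le_mul_left _ (Nat.mul_le_mul_left _ ha)
  have h2 : N * (N0 * (a + 3 * r) + r) = N * (N0 * a) + N * (3 * N0 + 1) * r := by ring
  have h3 : 2 * (N * (N0 * (8 * N ^ 3))) = 16 * N ^ 4 * N0 := by ring
  have h4 : 12 * (N * (3 * N0 + 1)) * r = 12 * (N * (3 * N0 + 1) * r) := by ring
  have h5 : N * (N0 * (a + 3 * r) + r) ≤ N * b := by omega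
  exact Nat.le_of_mul_le_mul_left h5 hN

theorem odense (N : ℕ) : ∃ q0 : ℕ, ∀ (F : Type) [Field F] [Fintype F] [DecidableEq F],
    q0 ≤ Fintype.card F → (Fintype.card F).Prime → ∀ (c : F) (A B C : Finset F), OCl c A B C →
      B.card ≤ C.card → A.card + B.card + 2 * C.card ≤ Fintype.card F + 1 →
      Fintype.card F ≤ N * B.card → False := by
  obtain ⟨N0, hN0⟩ := trio_dense
  obtain ⟨M, hM⟩ := oremove (12 * (N * (3 * N0 + 1)))
  obtain ⟨q1, hq1⟩ := ofew M
  obtain ⟨q2, hq2⟩ := odenseA N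
  refine ⟨q1 + q2 + 6 + 16 * N ^ 4 * N0, fun F _ _ _ hq hp c A B C h hbc hs hN => ?_⟩
  have ha := hq2 F (by omega) c A B C h hbc hs hN
  obtain ⟨x, hx⟩ := h.nA
  have ha1 : 1 ≤ A.card := card_pos.2 ⟨x, hx⟩
  obtain ⟨D, hT, hD⟩ := h.chart hx
  have c0 := h.spl.c0
  have c1 := h.spl.c1
  have key : ∀ s : F, ∃ R : Finset F, s ∈ Lam c →
      12 * (N * (3 * N0 + 1)) * R.card ≤ Fintype.card F ∧
        ∀ y ∈ ch x B \ R, ∀ z ∈ ch x C \ R, (1 - s) * y + s * z ∉ D \ R := by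
    intro s
    by_cases hs : s ∈ Lam c
    · obtain ⟨R, hR⟩ := hM F s (ch x B) (ch x C) D (lam_ne_zero c0 c1 hs) (lam_ne_one c0 c1 hs)
        (hq1 F (by omega) c s _ _ _ hT hs)
      exact ⟨R, fun _ => hR⟩
    · exact ⟨∅, fun h' => absurd h' hs⟩
  choose R hR using key
  obtain ⟨S, hS⟩ : ∃ S, S = (Lam c).biUnion R := ⟨_, rfl⟩
  have sub : ∀ s ∈ Lam c, ∀ X : Finset F, X \ S ⊆ X \ R s := fun s hs X =>
    sdiff_subset_sdiff subset_rfl (hS ▸ subset_biUnion_of_mem R hs)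
  have hcard : 12 * (N * (3 * N0 + 1)) * S.card ≤ 6 * Fintype.card F := by
    calc 12 * (N * (3 * N0 + 1)) * S.card
        ≤ 12 * (N * (3 * N0 + 1)) * ∑ s ∈ Lam c, (R s).card :=
          Nat.mul_le_mul_left _ (hS ▸ card_biUnion_le)
      _ = ∑ s ∈ Lam c, 12 * (N * (3 * N0 + 1)) * (R s).card := mul_sum _ _ _
      _ ≤ ∑ _s ∈ Lam c, Fintype.card F := sum_le_sum fun s hs => (hR s hs).1
      _ = (Lam c).card * Fintype.card F := by rw [sum_const, smul_eq_mul]
      _ ≤ 6 * Fintype.card F := Nat.mul_le_mul_right _ (ODense_lam c)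
  have hT' : Trio c (ch x B \ S) (ch x C \ S) (D \ S) :=
    ⟨c0, c1, fun s hs y hy z hz hw => (hR s hs).2 y (sub s hs _ hy) z (sub s hs _ hz) (sub s hs _ hw),
      hT.dBC.mono sdiff_subset sdiff_subset, hT.dBD.mono sdiff_subset sdiff_subset,
      hT.dCD.mono sdiff_subset sdiff_subset⟩
  have hnum := ODense_num (N0 := N0) (q := Fintype.card F) (by omega) ha hcard hN (by omega)
  have lB := le_card_sdiff S (ch x B)
  have lC := le_card_sdiff S (ch x C)
  have lD := le_card_sdiff S D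
  have uB : (ch x B \ S).card ≤ (ch x B).card := card_le_card sdiff_subset
  have uC : (ch x C \ S).card ≤ (ch x C).card := card_le_card sdiff_subset
  have uD : (D \ S).card ≤ D.card := card_le_card sdiff_subset
  rw [card_ch] at lB lC uB uC
  obtain ⟨u, hu⟩ : ∃ u, Fintype.card F =
      (ch x B \ S).card + (ch x C \ S).card + (D \ S).card + u :=
    ⟨Fintype.card F - ((ch x B \ S).card + (ch x C \ S).card + (D \ S).card), by omega⟩
  have hu2 : N0 * (u + 1) ≤ N0 * (A.card + 3 * S.card) := Nat.mul_le_mul_left _ (by omega)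
  exact hN0 F hp (by omega) c _ _ _ u hT' hu (by omega) (by omega) (by omega)

end Pool.Agent.P.MP_862e21_al
end

-- part Pool.Agent.P.MP_862e21_al.OCov
section

namespace Pool.Agent.P.MP_862e21_al

open Finset Pointwise

variable {F : Type*} [Field F] [DecidableEq F]

theorem Cov.mono {K K' : ℕ} {H X : Finset F} (h : Cov K H X) (hK : K ≤ K') : Cov K' H X := by
  obtain ⟨T, hT, hX⟩ := h
  exact ⟨T, hT.trans hK, hX⟩

theorem Cov.subset {K : ℕ} {H X X' : Finset F} (h : Cov K H X) (hX : X' ⊆ X) : Cov K H X' := by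
  obtain ⟨T, hT, hX'⟩ := h
  exact ⟨T, hT, hX.trans hX'⟩

theorem Cov.card_le {K : ℕ} {H X : Finset F} (h : Cov K H X) : X.card ≤ K * H.card := by
  obtain ⟨T, hT, hX⟩ := h
  exact (card_le_card hX).trans (card_add_le.trans (Nat.mul_le_mul_right _ hT))

theorem Cov.self (H : Finset F) : Cov 1 H H := by
  refine ⟨{0}, by simp, fun x hx => ?_⟩
  exact mem_add.mpr ⟨0, mem_singleton_self _, x, hx, zero_add x⟩

theorem Cov.trans {K K' : ℕ} {H Y X : Finset F} (h : Cov K Y X) (h' : Cov K' H Y) :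
    Cov (K * K') H X := by
  obtain ⟨T, hT, hX⟩ := h
  obtain ⟨T', hT', hY⟩ := h'
  refine ⟨T + T', card_add_le.trans (Nat.mul_le_mul hT hT'), fun x hx => ?_⟩
  obtain ⟨t, ht, y, hy, rfl⟩ := mem_add.mp (hX hx)
  obtain ⟨t', ht', z, hz, rfl⟩ := mem_add.mp (hY hy)
  exact mem_add.mpr ⟨t + t', add_mem_add ht ht', z, hz, add_assoc _ _ _⟩

theorem Cov.union {K K' : ℕ} {H X Y : Finset F} (h : Cov K H X) (h' : Cov K' H Y) :
    Cov (K + K') H (X ∪ Y) := by
  obtain ⟨T, hT, hX⟩ := h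
  obtain ⟨T', hT', hY⟩ := h'
  refine ⟨T ∪ T', (card_union_le _ _).trans (Nat.add_le_add hT hT'), fun x hx => ?_⟩
  rcases mem_union.mp hx with hx | hx
  · obtain ⟨t, ht, y, hy, rfl⟩ := mem_add.mp (hX hx)
    exact add_mem_add (mem_union_left _ ht) hy
  · obtain ⟨t, ht, y, hy, rfl⟩ := mem_add.mp (hY hx)
    exact add_mem_add (mem_union_right _ ht) hy

theorem Cov.add {K0 K K' : ℕ} {H X Y : Finset F} (h0 : Cov K0 H (H + H)) (h : Cov K H X)
    (h' : Cov K' H Y) : Cov (K * K' * K0) H (X + Y) := by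
  refine Cov.trans (Y := H + H) ?_ h0
  obtain ⟨T, hT, hX⟩ := h
  obtain ⟨T', hT', hY⟩ := h'
  refine ⟨T + T', card_add_le.trans (Nat.mul_le_mul hT hT'), fun v hv => ?_⟩
  obtain ⟨x, hx, y, hy, rfl⟩ := mem_add.mp hv
  obtain ⟨t, ht, a, ha, rfl⟩ := mem_add.mp (hX hx)
  obtain ⟨t', ht', b, hb, rfl⟩ := mem_add.mp (hY hy)
  exact mem_add.mpr ⟨t + t', add_mem_add ht ht', a + b, add_mem_add ha hb, by ring⟩

theorem Cov.sub {K0 K K' : ℕ} {H X Y : Finset F} (hn : ∀ h ∈ H, -h ∈ H) (h0 : Cov K0 H (H + H))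
    (h : Cov K H X) (h' : Cov K' H Y) : Cov (K * K' * K0) H (X - Y) := by
  refine Cov.trans (Y := H + H) ?_ h0
  obtain ⟨T, hT, hX⟩ := h
  obtain ⟨T', hT', hY⟩ := h'
  refine ⟨T - T', card_sub_le.trans (Nat.mul_le_mul hT hT'), fun v hv => ?_⟩
  obtain ⟨x, hx, y, hy, rfl⟩ := mem_sub.mp hv
  obtain ⟨t, ht, a, ha, rfl⟩ := mem_add.mp (hX hx)
  obtain ⟨t', ht', b, hb, rfl⟩ := mem_add.mp (hY hy)
  exact mem_add.mpr ⟨t - t', sub_mem_sub ht ht', a + -b, add_mem_add ha (hn b hb), by ring⟩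

theorem Cov.smul {K : ℕ} {H X : Finset F} (h : Cov K H X) (r : F) :
    Cov K (r • H) (r • X) := by
  obtain ⟨T, hT, hX⟩ := h
  refine ⟨r • T, card_smul_finset_le.trans hT, fun v hv => ?_⟩
  obtain ⟨x, hx, rfl⟩ := mem_smul_finset.mp hv
  obtain ⟨t, ht, a, ha, rfl⟩ := mem_add.mp (hX hx)
  exact mem_add.mpr ⟨r • t, smul_mem_smul_finset ht, r • a, smul_mem_smul_finset ha,
    (smul_add r t a).symm⟩

/-- Ruzsa covering -/
theorem cov_of_card {K : ℕ} {X Y : Finset F} (hY : Y.Nonempty) (h : (X + Y).card ≤ K * Y.card) :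
    Cov K (Y - Y) X := by
  have h' : ((X + Y).card : ℝ) ≤ (K : ℝ) * Y.card := by exact_mod_cast h
  obtain ⟨T, -, hT, hX⟩ := Finset.ruzsa_covering_add hY h'
  exact ⟨T, by exact_mod_cast hT, hX⟩

/-- a dense piece inside one translate -/
theorem Cov.piece {K : ℕ} {H X : Finset F} (h : Cov K H X) :
    ∃ Z ⊆ X, ∃ t : F, X.card ≤ K * Z.card ∧ ∀ z ∈ Z, z - t ∈ H := by
  obtain ⟨T, hT, hX⟩ := h
  rcases T.eq_empty_or_nonempty with rfl | hne
  · refine ⟨∅, empty_subset _, 0, ?_, by simp⟩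
    have : X = ∅ := by simpa using hX
    simp [this]
  obtain ⟨t, ht, hmax⟩ := exists_max_image T (fun t => (X.filter (fun z => z - t ∈ H)).card) hne
  refine ⟨X.filter (fun z => z - t ∈ H), filter_subset _ _, t, ?_, fun z hz => (mem_filter.mp hz).2⟩
  have h1 : X ⊆ T.biUnion (fun s => X.filter (fun z => z - s ∈ H)) := by
    intro x hx
    obtain ⟨s, hs, a, ha, rfl⟩ := mem_add.mp (hX hx)
    exact mem_biUnion.mpr ⟨s, hs, mem_filter.mpr ⟨hx, by simpa using ha⟩⟩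
  calc X.card ≤ _ := card_le_card h1
    _ ≤ T.card * (X.filter (fun z => z - t ∈ H)).card := card_biUnion_le_card_mul _ _ _ hmax
    _ ≤ _ := Nat.mul_le_mul_right _ hT

theorem cov_of_good {K K0 : ℕ} {H : Finset F} {r : F} (hH : H.Nonempty) (hn : ∀ h ∈ H, -h ∈ H)
    (h0 : Cov K0 H (H + H)) (h : Good K H r) : Cov (K * K0) H (r • H) := by
  have h1 : r • H + H ⊆ H - r • H := by
    intro v hv
    obtain ⟨x, hx, y, hy, rfl⟩ := mem_add.mp hv
    obtain ⟨a, ha, rfl⟩ := mem_smul_finset.mp hx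
    refine mem_sub.mpr ⟨y, hy, r • (-a), smul_mem_smul_finset (hn a ha), ?_⟩
    simp only [smul_eq_mul]
    ring
  have h2 : H - H ⊆ H + H := by
    intro v hv
    obtain ⟨x, hx, y, hy, rfl⟩ := mem_sub.mp hv
    exact mem_add.mpr ⟨x, hx, -y, hn y hy, by ring⟩
  exact (cov_of_card hH ((card_le_card h1).trans h)).trans (h0.subset h2)

theorem AG.mono {K K' : ℕ} {c : F} {H : Finset F} (h : AG K c H) (hK : K ≤ K') : AG K' c H :=
  ⟨h.zero, h.neg, h.add.mono hK, h.m1.mono hK, h.m2.mono hK, h.m3.mono hK, h.m4.mono hK⟩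

theorem Dr.mono {J J' : ℕ} {H : Finset F} {ρ : F} (h : Dr J H ρ) (hJ : J ≤ J') : Dr J' H ρ := by
  obtain ⟨Y, h1, h2, h3, h4⟩ := h
  exact ⟨Y, h1, h2, h3.mono hJ, h4.mono hJ⟩

/-- a maximal disjoint subfamily is small and meets every member -/
theorem disj_cover {ι : Type*} [DecidableEq ι] (Y : Finset ι) (X : Finset F) (W : ι → Finset F)
    {K : ℕ} (hW : ∀ y ∈ Y, W y ⊆ X) (hne : ∀ y ∈ Y, (W y).Nonempty)
    (hK : ∀ y ∈ Y, X.card ≤ K * (W y).card) :
    ∃ T ⊆ Y, T.card ≤ K ∧ ∀ y ∈ Y, ∃ y0 ∈ T, (W y ∩ W y0).Nonempty := by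
  classical
  have hC : (Y.powerset.filter (fun T : Finset ι => (T : Set ι).PairwiseDisjoint W)).Nonempty :=
    ⟨∅, by simp⟩
  obtain ⟨T, hT, hmax⟩ := exists_max_image _ card hC
  obtain ⟨hTY, hTd⟩ := mem_filter.mp hT
  have hTY' : T ⊆ Y := mem_powerset.mp hTY
  refine ⟨T, hTY', ?_, fun y hy => ?_⟩
  · rcases T.eq_empty_or_nonempty with rfl | ⟨y, hy⟩
    · simp
    have hX : 0 < X.card := card_pos.mpr ((hne y (hTY' hy)).mono (hW y (hTY' hy)))
    have h1 : ∑ s ∈ T, (W s).card ≤ X.card := by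
      rw [← card_biUnion hTd]
      exact card_le_card (biUnion_subset.mpr fun s hs => hW s (hTY' hs))
    have h2 : T.card * X.card ≤ K * ∑ s ∈ T, (W s).card := by
      rw [mul_sum, ← smul_eq_mul]
      calc T.card • X.card = ∑ _s ∈ T, X.card := (sum_const _).symm
        _ ≤ _ := sum_le_sum fun s hs => hK s (hTY' hs)
    exact Nat.le_of_mul_le_mul_right (h2.trans (Nat.mul_le_mul_left _ h1)) hX
  · by_cases hyT : y ∈ T
    · exact ⟨y, hyT, by simpa using hne y hy⟩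
    by_contra hcon
    have hd : ∀ y0 ∈ T, Disjoint (W y) (W y0) := by
      intro y0 hy0
      rw [disjoint_iff_inter_eq_empty, ← not_nonempty_iff_eq_empty]
      exact fun h => hcon ⟨y0, hy0, h⟩
    have hm : insert y T ∈
        Y.powerset.filter (fun T : Finset ι => (T : Set ι).PairwiseDisjoint W) := by
      refine mem_filter.mpr ⟨mem_powerset.mpr (insert_subset hy hTY'), ?_⟩
      rw [coe_insert]
      exact hTd.insert fun y0 hy0 _ => hd y0 hy0
    have := hmax _ hm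
    rw [card_insert_of_notMem hyT] at this
    omega

theorem OCov_piece {H Z : Finset F} {m κ : F} (hZ : ∀ v ∈ Z, v - κ ∈ m • H) :
    (m • H - Z).card ≤ (H - H).card := by
  have h1 : m • H - Z ⊆ (H - H).image (fun d => m * d - κ) := by
    intro v hv
    obtain ⟨x, hx, z, hz, rfl⟩ := mem_sub.mp hv
    obtain ⟨a, ha, rfl⟩ := mem_smul_finset.mp hx
    obtain ⟨b, hb, e⟩ := mem_smul_finset.mp (hZ z hz)
    refine mem_image.mpr ⟨a - b, sub_mem_sub ha hb, ?_⟩
    simp only [smul_eq_mul] at e ⊢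
    linear_combination -e
  exact (card_le_card h1).trans card_image_le

theorem good_of_two {H Z : Finset F} {K0 K1 : ℕ} {m0 m1 κ0 κ1 : F} (hm0 : m0 ≠ 0) (hm1 : m1 ≠ 0)
    (hH : H.Nonempty) (h0 : (H - H).card ≤ K0 * H.card) (hZ : H.card ≤ K1 * Z.card)
    (hZ0 : ∀ v ∈ Z, v - κ0 ∈ m0 • H) (hZ1 : ∀ v ∈ Z, v - κ1 ∈ m1 • H) :
    Good (K1 * K0 ^ 2) H (m1 / m0) := by
  have _h := hm1
  have h1 : H - (m1 / m0) • H ⊆ (m0 • H - m1 • H).image (fun d => m0⁻¹ * d) := by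
    intro v hv
    obtain ⟨x, hx, z, hz, rfl⟩ := mem_sub.mp hv
    obtain ⟨a, ha, rfl⟩ := mem_smul_finset.mp hz
    refine mem_image.mpr ⟨m0 • x - m1 • a,
      sub_mem_sub (smul_mem_smul_finset hx) (smul_mem_smul_finset ha), ?_⟩
    simp only [smul_eq_mul]
    field_simp
  have h2 : (H - (m1 / m0) • H).card ≤ (m0 • H - m1 • H).card :=
    (card_le_card h1).trans card_image_le
  have h3 := ruzsa_triangle_inequality_sub_sub_sub (m0 • H) Z (m1 • H)
  have h4 := (OCov_piece hZ0).trans h0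
  have h5 := (OCov_piece hZ1).trans h0
  have h6 : (m0 • H - m1 • H).card * Z.card ≤ (K0 * H.card) * (K0 * H.card) :=
    h3.trans (Nat.mul_le_mul h4 h5)
  have hpos : 0 < H.card := card_pos.mpr hH
  unfold Good
  refine h2.trans (Nat.le_of_mul_le_mul_right ?_ hpos)
  calc (m0 • H - m1 • H).card * H.card ≤ (m0 • H - m1 • H).card * (K1 * Z.card) :=
        Nat.mul_le_mul_left _ hZ
    _ = K1 * ((m0 • H - m1 • H).card * Z.card) := by ring
    _ ≤ K1 * ((K0 * H.card) * (K0 * H.card)) := Nat.mul_le_mul_left _ h6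
    _ = K1 * K0 ^ 2 * H.card * H.card := by ring

end Pool.Agent.P.MP_862e21_al
end

-- part Pool.Agent.P.MP_862e21_al.OEnergy
section

namespace Pool.Agent.P.MP_862e21_al

open Finset Pointwise

variable {F : Type*} [Field F] [DecidableEq F]

/-- number of representations as a difference -/
def OEnergy_r (S : Finset F) (h : F) : ℕ := ((S ×ˢ S).filter fun x => x.1 - x.2 = h).card

theorem OEnergy_swap (S : Finset F) (h : F) :
    ((S ×ˢ S).filter fun x => x.2 - x.1 = h).card = OEnergy_r S h := by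
  refine card_bij' (fun x _ => x.swap) (fun x _ => x.swap) ?_ ?_ ?_ ?_
  · intro x hx
    simp only [mem_filter, mem_product, Prod.fst_swap, Prod.snd_swap] at hx ⊢
    tauto
  · intro x hx
    simp only [mem_filter, mem_product, Prod.fst_swap, Prod.snd_swap] at hx ⊢
    tauto
  · simp
  · simp

theorem OEnergy_sum [Fintype F] (S T : Finset F) :
    Finset.addEnergy S T = ∑ h, OEnergy_r S h * OEnergy_r T h := by
  unfold Finset.addEnergy
  rw [card_eq_sum_card_fiberwise (f := fun x : (F × F) × F × F => x.1.1 - x.1.2) (t := univ)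
    (fun _ _ => mem_coe.2 (mem_univ _))]
  refine sum_congr rfl fun h _ => ?_
  rw [← OEnergy_swap T h, OEnergy_r, ← card_product]
  congr 1
  ext x
  simp only [mem_filter, mem_product]
  constructor
  · rintro ⟨⟨⟨h1, h2⟩, h3⟩, h4⟩
    exact ⟨⟨h1, h4⟩, h2, by linear_combination h4 - h3⟩
  · rintro ⟨⟨h1, h4⟩, h2, h3⟩
    exact ⟨⟨⟨h1, h2⟩, by linear_combination h4 - h3⟩, h4⟩

theorem OEnergy_cs [Fintype F] (S T : Finset F) :
    Finset.addEnergy S T ^ 2 ≤ Finset.addEnergy S S * Finset.addEnergy T T := by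
  rw [OEnergy_sum, OEnergy_sum, OEnergy_sum]
  simpa only [sq] using sum_mul_sq_le_sq_mul_sq univ (OEnergy_r S) (OEnergy_r T)

theorem OEnergy_cube (S : Finset F) : Finset.addEnergy S S ≤ S.card ^ 3 := by
  have : S.card ^ 3 = ((S ×ˢ S) ×ˢ S).card := by simp only [card_product]; ring
  rw [this]
  refine card_le_card_of_injOn (fun x : (F × F) × F × F => (x.1, x.2.1)) ?_ ?_
  · intro x hx
    simp only [coe_filter, mem_product, Set.mem_ofPred_eq, mem_coe] at hx ⊢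
    exact ⟨hx.1.1, hx.1.2.1⟩
  · intro x hx y hy e
    simp only [coe_filter, Set.mem_ofPred_eq] at hx hy
    simp only [Prod.mk.injEq] at e
    have h1 := hx.2
    have h2 := hy.2
    rw [e.1, e.2] at h1
    exact Prod.ext e.1 (Prod.ext e.2 (by linear_combination h2 - h1))

theorem OEnergy_smul (S : Finset F) {v : F} (hv : v ≠ 0) :
    Finset.addEnergy (v • S) (v • S) ≤ Finset.addEnergy S S := by
  have hm : ∀ x ∈ v • S, v⁻¹ * x ∈ S := fun x hx => by
    obtain ⟨y, hy, rfl⟩ := mem_smul_finset.1 hx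
    rwa [smul_eq_mul, inv_mul_cancel_left₀ hv]
  refine card_le_card_of_injOn (fun x : (F × F) × F × F =>
    ((v⁻¹ * x.1.1, v⁻¹ * x.1.2), v⁻¹ * x.2.1, v⁻¹ * x.2.2)) ?_ ?_
  · intro x hx
    simp only [coe_filter, mem_product, Set.mem_ofPred_eq] at hx ⊢
    exact ⟨⟨⟨hm _ hx.1.1.1, hm _ hx.1.1.2⟩, hm _ hx.1.2.1, hm _ hx.1.2.2⟩,
      by linear_combination v⁻¹ * hx.2⟩
  · intro x _ y _ e
    simp only [Prod.mk.injEq, mul_right_inj' (inv_ne_zero hv)] at e
    exact Prod.ext (Prod.ext e.1.1 e.1.2) (Prod.ext e.2.1 e.2.2)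

theorem OEnergy_key [Fintype F] {u v : F} (hu : u ≠ 0) (hv : v ≠ 0) (B C X : Finset F)
    (G : Finset (F × F)) (hG : G ⊆ B ×ˢ C) (hX : ∀ p ∈ G, u * p.1 + v * p.2 ∈ X) :
    G.card ^ 4 ≤ X.card ^ 2 * (B.card ^ 3 * Finset.addEnergy C C) := by
  have h1 : G.card ≤ (((u • B) ×ˢ (v • C)).filter fun xy => xy.1 + xy.2 ∈ X).card := by
    refine card_le_card_of_injOn (fun p => (u * p.1, v * p.2)) ?_ ?_
    · intro p hp
      have h := mem_product.1 (hG hp)
      exact mem_coe.2 (mem_filter.2 ⟨mem_product.2 ⟨smul_mem_smul_finset h.1,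
        smul_mem_smul_finset h.2⟩, hX p hp⟩)
    · intro x _ y _ e
      simp only [Prod.mk.injEq, mul_right_inj' hu, mul_right_inj' hv] at e
      exact Prod.ext e.1 e.2
  have h2 := (Nat.pow_le_pow_left h1 2).trans (card_sq_le_card_mul_addEnergy _ _ X)
  have h3 := (OEnergy_cs (u • B) (v • C)).trans (Nat.mul_le_mul
    ((OEnergy_smul B hu).trans (OEnergy_cube B)) (OEnergy_smul C hv))
  calc G.card ^ 4 = (G.card ^ 2) ^ 2 := by ring
    _ ≤ (X.card * Finset.addEnergy (u • B) (v • C)) ^ 2 := Nat.pow_le_pow_left h2 2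
    _ = X.card ^ 2 * Finset.addEnergy (u • B) (v • C) ^ 2 := by ring
    _ ≤ _ := Nat.mul_le_mul_left _ h3

theorem oenergy [Fintype F] {c : F} {B C D : Finset F} {K0 L : ℕ} (h : OTrio c B C D)
    (hB : B.Nonempty) (hX : Dᶜ.card ≤ K0 * C.card) (hL : C.card ≤ L * B.card) :
    C.card ^ 3 ≤ 16 * K0 ^ 2 * L * Finset.addEnergy C C := by
  classical
  have c0 := h.spl.c0
  have c1 : 1 - c ≠ 0 := sub_ne_zero.2 h.spl.c1.symm
  obtain ⟨g, h1, h2⟩ : ∃ g : ℕ, B.card * C.card ≤ 2 * g ∧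
      g ^ 4 ≤ Dᶜ.card ^ 2 * (B.card ^ 3 * Finset.addEnergy C C) := by
    have hs := card_filter_add_card_filter_not (s := B ×ˢ C) (fun p => IsSquare (p.2 - p.1))
    rw [card_product] at hs
    rcases le_total ((B ×ˢ C).filter fun p => IsSquare (p.2 - p.1)).card
      ((B ×ˢ C).filter fun p => ¬ IsSquare (p.2 - p.1)).card with hle | hle
    · refine ⟨_, by omega, OEnergy_key c0 c1 B C Dᶜ _ (filter_subset
        (fun p => ¬ IsSquare (p.2 - p.1)) _) fun p hp => ?_⟩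
      obtain ⟨a, b⟩ := mem_filter.1 hp
      exact mem_compl.2 (h.ngt c (self_mem_Lp c) _ (mem_product.1 a).1 _ (mem_product.1 a).2 b)
    · refine ⟨_, by omega, OEnergy_key c1 c0 B C Dᶜ _ (filter_subset
        (fun p => IsSquare (p.2 - p.1)) _) fun p hp => ?_⟩
      obtain ⟨a, b⟩ := mem_filter.1 hp
      exact mem_compl.2 (h.pos c (self_mem_Lp c) _ (mem_product.1 a).1 _ (mem_product.1 a).2 b)
  rcases Nat.eq_zero_or_pos C.card with h0 | h0
  · simp [h0]
  have hb := hB.card_pos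
  have h3 : (B.card ^ 3 * C.card ^ 2) * (B.card * C.card ^ 2)
      ≤ (B.card ^ 3 * C.card ^ 2) * (16 * K0 ^ 2 * Finset.addEnergy C C) := by
    calc _ = (B.card * C.card) ^ 4 := by ring
      _ ≤ (2 * g) ^ 4 := Nat.pow_le_pow_left h1 4
      _ = 16 * g ^ 4 := by ring
      _ ≤ 16 * ((K0 * C.card) ^ 2 * (B.card ^ 3 * Finset.addEnergy C C)) :=
        Nat.mul_le_mul_left _ (h2.trans (Nat.mul_le_mul_right _ (Nat.pow_le_pow_left hX 2)))
      _ = _ := by ring
  have h4 := Nat.le_of_mul_le_mul_left h3 (by positivity)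
  calc C.card ^ 3 = C.card * C.card ^ 2 := by ring
    _ ≤ L * B.card * C.card ^ 2 := Nat.mul_le_mul_right _ hL
    _ = L * (B.card * C.card ^ 2) := by ring
    _ ≤ L * (16 * K0 ^ 2 * Finset.addEnergy C C) := Nat.mul_le_mul_left _ h4
    _ = _ := by ring

theorem OEnergy_cov {u v : F} (hu : u ≠ 0) (hv : v ≠ 0) {Y X C' : Finset F} {K1 : ℕ}
    (S : F → Finset F) (hS : ∀ y ∈ Y, S y ⊆ C') (hne : C'.Nonempty)
    (hc : ∀ y ∈ Y, C'.card ≤ 2 * (S y).card) (hX : X.card ≤ K1 * C'.card)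
    (hm : ∀ y ∈ Y, ∀ z ∈ S y, u * y + v * z ∈ X) : Cov (2 * K1) ((v / u) • (C' - C')) Y := by
  have hi : ∀ y, ((S y).image fun z => u * y + v * z).card = (S y).card := fun y =>
    card_image_of_injective _ fun a b e => mul_left_cancel₀ hv (add_left_cancel e)
  obtain ⟨T, hT, h1, h2⟩ := disj_cover Y X (fun y => (S y).image fun z => u * y + v * z)
    (K := 2 * K1) (fun y hy => image_subset_iff.2 (hm y hy))
    (fun y hy => card_pos.1 (by have := hc y hy; have := hne.card_pos; rw [hi]; omega))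
    (fun y hy => by
      rw [hi]
      calc X.card ≤ K1 * (2 * (S y).card) := hX.trans (Nat.mul_le_mul_left _ (hc y hy))
        _ = _ := by ring)
  refine ⟨T, h1, fun y hy => ?_⟩
  obtain ⟨y0, hy0, w, hw⟩ := h2 y hy
  obtain ⟨z, hz, e⟩ := mem_image.1 (mem_inter.1 hw).1
  obtain ⟨z0, hz0, e0⟩ := mem_image.1 (mem_inter.1 hw).2
  refine mem_add.2 ⟨y0, hy0, (v / u) • (z0 - z), smul_mem_smul_finset
    (sub_mem_sub (hS y0 (hT hy0) hz0) (hS y hy hz)), ?_⟩
  rw [smul_eq_mul]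
  field_simp
  linear_combination e0 - e

/-- the two majority classes of `B` with respect to a dense part `C'` of `C` -/
theorem ocov_pm [Fintype F] {c : F} {B C D C' : Finset F} {K1 : ℕ} (h : OTrio c B C D)
    (hC : C' ⊆ C) (hne : C'.Nonempty) (hX : Dᶜ.card ≤ K1 * C'.card) :
    ∃ Bp Bm : Finset F, Bp ∪ Bm = B ∧ ∀ s ∈ Lp c,
      Cov (2 * K1) ((s / (1 - s)) • (C' - C')) Bp ∧
      Cov (2 * K1) (((1 - s) / s) • (C' - C')) Bm := by
  classical
  refine ⟨B.filter fun y => C'.card ≤ 2 * (C'.filter fun z => IsSquare (z - y)).card,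
    B.filter fun y => ¬ C'.card ≤ 2 * (C'.filter fun z => IsSquare (z - y)).card,
    filter_union_filter_not_eq _ _, fun s hs => ?_⟩
  have s0 := (h.spl.of_mem hs).c0
  have s1 : 1 - s ≠ 0 := sub_ne_zero.2 (h.spl.of_mem hs).c1.symm
  constructor
  · exact OEnergy_cov s1 s0 (fun y => C'.filter fun z => IsSquare (z - y))
      (fun _ _ => filter_subset _ _) hne (fun y hy => (mem_filter.1 hy).2) hX fun y hy z hz =>
      mem_compl.2 (h.pos s hs y (mem_filter.1 hy).1 z (hC (mem_filter.1 hz).1) (mem_filter.1 hz).2)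
  · refine OEnergy_cov s0 s1 (fun y => C'.filter fun z => ¬ IsSquare (z - y))
      (fun _ _ => filter_subset _ _) hne (fun y hy => ?_) hX fun y hy z hz =>
      mem_compl.2 (h.ngt s hs y (mem_filter.1 hy).1 z (hC (mem_filter.1 hz).1) (mem_filter.1 hz).2)
    have h1 := card_filter_add_card_filter_not (s := C') (fun z => IsSquare (z - y))
    have h2 := (mem_filter.1 hy).2
    omega

end Pool.Agent.P.MP_862e21_al
end

-- part Pool.Agent.P.MP_862e21_al.OBsg
section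

namespace Pool.Agent.P.MP_862e21_al

open Finset Pointwise

variable {F : Type*} [Field F] [DecidableEq F]

section obsgAux

set_option linter.unusedSectionVars false

variable {G : Type} [AddCommGroup G] [Fintype G] [DecidableEq G]

/-- The number of representations `x = -a + b`. -/
noncomputable def obsg_rq (A : Finset G) (x : G) : ℝ := (card {p ∈ A ×ˢ A | -p.1 + p.2 = x})

/-- The additive energy. -/
noncomputable def obsg_en (A : Finset G) : ℝ := ∑ x, obsg_rq A x ^ 2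

/-- indicator function -/
noncomputable def obsg_bi (A : Finset G) (x : G) : ℝ := if x ∈ A then 1 else 0

theorem obsg_bi_nonneg (A : Finset G) (x : G) : 0 ≤ obsg_bi A x := by
  unfold obsg_bi
  split_ifs <;> norm_num

theorem obsg_bi_le (A : Finset G) (x : G) : obsg_bi A x ≤ 1 := by
  unfold obsg_bi
  split_ifs <;> norm_num

theorem obsg_bsum_i (A : Finset G) : ∑ x, obsg_bi A x = A.card := by
  simp [obsg_bi]

theorem obsg_bcard (A : Finset G) (φ : G → G) :
    ((card {a ∈ A | φ a ∈ A}) : ℝ) = ∑ a, obsg_bi A a * obsg_bi A (φ a) := by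
  rw [card_eq_sum_ones, Nat.cast_sum, sum_filter, ← sum_subset (subset_univ A)]
  · refine sum_congr rfl fun a ha => ?_
    simp [obsg_bi, ha]
  · intro a _ ha
    simp [obsg_bi, ha]

theorem obsg_brq (A : Finset G) (x : G) : obsg_rq A x = ∑ a, obsg_bi A a * obsg_bi A (a + x) := by
  rw [← obsg_bcard A (fun a => a + x)]
  unfold obsg_rq
  congr 1
  refine card_bij' (fun p _ => p.1) (fun a _ => (a, a + x)) ?_ ?_ ?_ ?_
  · intro p hp
    simp only [mem_filter, mem_product] at hp ⊢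
    refine ⟨hp.1.1, ?_⟩
    rw [← hp.2, add_neg_cancel_left]
    exact hp.1.2
  · intro a ha
    simp only [mem_filter, mem_product] at ha ⊢
    exact ⟨ha, neg_add_cancel_left _ _⟩
  · intro p hp
    simp only [mem_filter, mem_product] at hp
    rw [← hp.2, add_neg_cancel_left]
  · intro a _
    rfl

theorem obsg_bl (f : G → ℝ) (a : G) : ∑ c, f (a + c) = ∑ c, f c :=
  Equiv.sum_comp (Equiv.addLeft a) f

theorem obsg_br (f : G → ℝ) (a : G) : ∑ s, f (-s + a) = ∑ s, f s :=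
  ((Equiv.neg G).trans (Equiv.addRight a)).sum_comp f

theorem obsg_en_eq (A : Finset G) : obsg_en A = ∑ s : G, ((card {a ∈ A | -s + a ∈ A}) : ℝ) ^ 2 := by
  unfold obsg_en
  simp only [obsg_brq, obsg_bcard A (fun a => -_ + a), sq, sum_mul_sum]
  rw [sum_comm]
  conv_rhs => rw [sum_comm]
  refine sum_congr rfl fun a _ => ?_
  rw [sum_comm, ← obsg_br _ a]
  refine sum_congr rfl fun s _ => ?_
  rw [← obsg_bl _ (-a)]
  refine sum_congr rfl fun c _ => ?_
  rw [add_neg_cancel_left, add_assoc (-s), add_neg_cancel_left]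
  ring

theorem obsg_sum_inter (A : Finset G) : ∑ s : G, ((card {a ∈ A | -s + a ∈ A}) : ℝ) = (A.card : ℝ) ^ 2 := by
  simp only [obsg_bcard A (fun a => -_ + a)]
  rw [sum_comm]
  simp only [← mul_sum, obsg_br (obsg_bi A), obsg_bsum_i]
  rw [← sum_mul, obsg_bsum_i, sq]

theorem obsg_cnonneg (A : Finset G) (x : G) : 0 ≤ obsg_rq A x := Nat.cast_nonneg _

theorem obsg_cinv (A : Finset G) (x : G) : obsg_rq A (-x) = obsg_rq A x := by
  unfold obsg_rq
  congr 1
  refine card_nbij' Prod.swap Prod.swap (fun p hp => ?_) (fun p hp => ?_) (fun _ _ => rfl)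
    fun _ _ => rfl
  · simp only [coe_filter, mem_product, Set.mem_ofPred_eq, Prod.fst_swap, Prod.snd_swap] at hp ⊢
    refine ⟨⟨hp.1.2, hp.1.1⟩, ?_⟩
    rw [← neg_neg x, ← hp.2]
    abel
  · simp only [coe_filter, mem_product, Set.mem_ofPred_eq, Prod.fst_swap, Prod.snd_swap] at hp ⊢
    refine ⟨⟨hp.1.2, hp.1.1⟩, ?_⟩
    rw [← hp.2]
    abel

theorem obsg_csum (A : Finset G) : ∑ x, obsg_rq A x = (A.card : ℝ) ^ 2 := by
  have h := card_eq_sum_card_fiberwise (s := A ×ˢ A) (t := univ) (f := fun p => -p.1 + p.2)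
    fun _ _ => mem_coe.2 (mem_univ _)
  rw [card_product] at h
  unfold obsg_rq
  rw [← Nat.cast_sum, ← h]
  push_cast
  ring

theorem obsg_cpair (A : Finset G) (x y : G) :
    ((card {s : G | -s + x ∈ A ∧ -s + y ∈ A}) : ℝ) ≤ obsg_rq A (-x + y) := by
  unfold obsg_rq
  refine Nat.cast_le.2 (card_le_card_of_injOn (fun s => (-s + x, -s + y)) (fun s hs => ?_)
    fun s _ t _ hst => ?_)
  · simp only [coe_filter, mem_product, Set.mem_ofPred_eq, mem_univ, true_and] at hs ⊢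
    refine ⟨hs, ?_⟩
    abel
  · exact neg_injective (add_right_cancel (Prod.mk.inj hst).1)

theorem obsg_cbad {A : Finset G} (hA : A.Nonempty) {θ : ℝ} (hθ : 0 < θ) :
    ∑ s : G, ((card {p ∈ {a ∈ A | -s + a ∈ A} ×ˢ {a ∈ A | -s + a ∈ A} |
      obsg_rq A (-p.1 + p.2) < θ}) : ℝ) < (A.card : ℝ) ^ 2 * θ := by
  have h1 : ∀ s : G, ((card {p ∈ {a ∈ A | -s + a ∈ A} ×ˢ {a ∈ A | -s + a ∈ A} |
      obsg_rq A (-p.1 + p.2) < θ}) : ℝ) = ∑ p ∈ A ×ˢ A,
        if obsg_rq A (-p.1 + p.2) < θ ∧ -s + p.1 ∈ A ∧ -s + p.2 ∈ A then (1 : ℝ) else 0 := by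
    intro s
    rw [sum_boole]
    congr 2
    ext p
    simp only [mem_filter, mem_product]
    tauto
  simp only [h1]
  rw [sum_comm]
  have h2 : (A.card : ℝ) ^ 2 * θ = ∑ _p ∈ A ×ˢ A, θ := by
    rw [sum_const, card_product, nsmul_eq_mul]
    push_cast
    ring
  rw [h2]
  refine sum_lt_sum_of_nonempty (hA.product hA) fun p _ => ?_
  by_cases hp : obsg_rq A (-p.1 + p.2) < θ
  · simp only [hp, true_and]
    rw [sum_boole]
    exact (obsg_cpair A p.1 p.2).trans_lt hp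
  · simp only [hp, false_and, if_false, sum_const_zero]
    exact hθ

theorem obsg_bsg_one {A : Finset G} (hA : A.Nonempty) {K : ℝ} (hK : 1 ≤ K) (h : (A.card : ℝ) ^ 3 ≤ K * obsg_en A) :
    ∃ X ⊆ A, (A.card : ℝ) ≤ 2 * K * X.card ∧
      16 * ((card {p ∈ X ×ˢ X | obsg_rq A (-p.1 + p.2) < A.card / (32 * K ^ 2)}) : ℝ) ≤ (X.card : ℝ) ^ 2 := by
  by_contra hcon
  have ha : (0 : ℝ) < A.card := by exact_mod_cast hA.card_pos
  have hK0 : 0 < K := by linarith
  have hθ : 0 < (A.card : ℝ) / (32 * K ^ 2) := by positivity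
  have h1 : ∀ s : G, ((card {a ∈ A | -s + a ∈ A}) : ℝ) ^ 2 ≤
      A.card / (2 * K) * ((card {a ∈ A | -s + a ∈ A}) : ℝ) +
        16 * ((card {p ∈ {a ∈ A | -s + a ∈ A} ×ˢ {a ∈ A | -s + a ∈ A} |
          obsg_rq A (-p.1 + p.2) < A.card / (32 * K ^ 2)}) : ℝ) := by
    intro s
    by_contra h2
    rw [not_le] at h2
    refine hcon ⟨{a ∈ A | -s + a ∈ A}, filter_subset _ _, ?_, ?_⟩
    · by_contra h3
      rw [not_le] at h3
      have h4 : ((card {a ∈ A | -s + a ∈ A}) : ℝ) ≤ A.card / (2 * K) := by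
        rw [le_div_iff₀ (by positivity)]
        linarith
      have h5 := mul_le_mul_of_nonneg_right h4 (Nat.cast_nonneg (α := ℝ) (card {a ∈ A | -s + a ∈ A}))
      have h6 := Nat.cast_nonneg (α := ℝ) (card {p ∈ {a ∈ A | -s + a ∈ A} ×ˢ {a ∈ A | -s + a ∈ A} |
          obsg_rq A (-p.1 + p.2) < A.card / (32 * K ^ 2)})
      nlinarith
    · have h5 : 0 ≤ A.card / (2 * K) * ((card {a ∈ A | -s + a ∈ A}) : ℝ) := by positivity
      linarith
  have h2 := sum_le_sum fun s (_ : s ∈ (univ : Finset G)) => h1 s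
  rw [sum_add_distrib, ← mul_sum, ← mul_sum, ← obsg_en_eq, obsg_sum_inter] at h2
  have h3 := obsg_cbad hA hθ
  have h4 : obsg_en A < A.card / (2 * K) * (A.card : ℝ) ^ 2 + 16 * ((A.card : ℝ) ^ 2 * (A.card / (32 * K ^ 2))) := by
    linarith
  have h5 := mul_lt_mul_of_pos_left h4 hK0
  have h6 : K * (A.card / (2 * K) * (A.card : ℝ) ^ 2 + 16 * ((A.card : ℝ) ^ 2 * (A.card / (32 * K ^ 2)))) =
      (A.card : ℝ) ^ 3 / 2 + (A.card : ℝ) ^ 3 / 2 / K := by
    field_simp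
    ring
  have h7 : (A.card : ℝ) ^ 3 / 2 / K ≤ (A.card : ℝ) ^ 3 / 2 := div_le_self (by positivity) hK
  linarith

theorem obsg_cconv (A : Finset G) :
    ∑ g : G, ∑ u : G, obsg_rq A u * obsg_rq A (-u + g) = (A.card : ℝ) ^ 4 := by
  rw [sum_comm]
  have h : ∀ u : G, ∑ g : G, obsg_rq A u * obsg_rq A (-u + g) = obsg_rq A u * (A.card : ℝ) ^ 2 := by
    intro u
    rw [← mul_sum, ← obsg_csum]
    congr 1
    exact Equiv.sum_comp (Equiv.addLeft (-u)) (obsg_rq A)
  simp only [h]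
  rw [← sum_mul, obsg_csum]
  ring

theorem obsg_crep {A X : Finset G} {θ : ℝ} (hθ : 0 ≤ θ) {x y : G}
    (hx : 4 * ((card {z ∈ X | obsg_rq A (-x + z) < θ}) : ℝ) ≤ X.card)
    (hy : 4 * ((card {z ∈ X | obsg_rq A (-y + z) < θ}) : ℝ) ≤ X.card) :
    (X.card : ℝ) / 2 * θ ^ 2 ≤ ∑ u : G, obsg_rq A u * obsg_rq A (-u + (-x + y)) := by
  set Z := {z ∈ X | θ ≤ obsg_rq A (-x + z) ∧ θ ≤ obsg_rq A (-y + z)} with hZ
  have h1 : X.card ≤ Z.card + ((card {z ∈ X | obsg_rq A (-x + z) < θ}) + (card {z ∈ X | obsg_rq A (-y + z) < θ})) := by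
    refine le_trans (card_le_card (fun z hz => ?_))
      ((card_union_le _ _).trans (Nat.add_le_add_left (card_union_le _ _) _))
    simp only [hZ, mem_union, mem_filter]
    by_cases h2 : obsg_rq A (-x + z) < θ
    · exact Or.inr (Or.inl ⟨hz, h2⟩)
    · by_cases h3 : obsg_rq A (-y + z) < θ
      · exact Or.inr (Or.inr ⟨hz, h3⟩)
      · exact Or.inl ⟨hz, not_lt.1 h2, not_lt.1 h3⟩
  have h2 : (X.card : ℝ) / 2 ≤ Z.card := by
    have := (Nat.cast_le (α := ℝ)).2 h1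
    push_cast at this
    linarith
  rw [← Equiv.sum_comp (Equiv.addLeft (-x)) fun u => obsg_rq A u * obsg_rq A (-u + (-x + y))]
  calc (X.card : ℝ) / 2 * θ ^ 2 ≤ Z.card * θ ^ 2 := mul_le_mul_of_nonneg_right h2 (sq_nonneg _)
    _ = ∑ _z ∈ Z, θ ^ 2 := by rw [sum_const, nsmul_eq_mul]
    _ ≤ ∑ z ∈ Z, obsg_rq A (-x + z) * obsg_rq A (-(-x + z) + (-x + y)) := by
        refine sum_le_sum fun z hz => ?_
        obtain ⟨-, h3, h4⟩ := mem_filter.1 hz
        have e : -(-x + z) + (-x + y) = -(-y + z) := by abel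
        rw [e, obsg_cinv, sq]
        exact mul_le_mul h3 h4 hθ (obsg_cnonneg _ _)
    _ ≤ _ := sum_le_sum_of_subset_of_nonneg (subset_univ _) fun z _ _ =>
        mul_nonneg (obsg_cnonneg _ _) (obsg_cnonneg _ _)

theorem obsg_core {A : Finset G} (hA : A.Nonempty) {K : ℝ} (hK : 1 ≤ K) (h : (A.card : ℝ) ^ 3 ≤ K * obsg_en A) :
    ∃ B ⊆ A, (A.card : ℝ) ≤ 4 * K * B.card ∧ ((-B + B).card : ℝ) ≤ 2 ^ 14 * K ^ 6 * B.card := by
  obtain ⟨X, hXA, hX, hbad⟩ := obsg_bsg_one hA hK h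
  have ha : (0 : ℝ) < A.card := by exact_mod_cast hA.card_pos
  have hK0 : 0 < K := by linarith
  set θ : ℝ := A.card / (32 * K ^ 2) with hθ
  have hθ0 : 0 < θ := by positivity
  have hn : (0 : ℝ) < X.card := by
    by_contra h1
    have h2 : 2 * K * (X.card : ℝ) ≤ 0 := mul_nonpos_of_nonneg_of_nonpos (by positivity) (not_lt.1 h1)
    linarith
  set B := {x ∈ X | 4 * ((card {z ∈ X | obsg_rq A (-x + z) < θ}) : ℝ) ≤ X.card} with hB
  set C := {x ∈ X | ¬ 4 * ((card {z ∈ X | obsg_rq A (-x + z) < θ}) : ℝ) ≤ X.card} with hC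
  have h1 : (B.card : ℝ) + C.card = X.card := by
    exact_mod_cast card_filter_add_card_filter_not (s := X) _
  have h2 : ((card {p ∈ X ×ˢ X | obsg_rq A (-p.1 + p.2) < θ}) : ℝ) =
      ∑ x ∈ X, ((card {z ∈ X | obsg_rq A (-x + z) < θ}) : ℝ) := by
    rw [← sum_boole, sum_product]
    refine sum_congr rfl fun x _ => ?_
    rw [sum_boole]
  have h3 : (C.card : ℝ) * X.card ≤ 4 * ∑ x ∈ X, ((card {z ∈ X | obsg_rq A (-x + z) < θ}) : ℝ) := by
    rw [mul_sum]
    calc (C.card : ℝ) * X.card = ∑ _x ∈ C, (X.card : ℝ) := by rw [sum_const, nsmul_eq_mul]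
      _ ≤ ∑ x ∈ C, 4 * ((card {z ∈ X | obsg_rq A (-x + z) < θ}) : ℝ) :=
          sum_le_sum fun x hx => (not_le.1 (mem_filter.1 hx).2).le
      _ ≤ _ := sum_le_sum_of_subset_of_nonneg (filter_subset _ _) fun x _ _ => by positivity
  have h4 : 4 * (C.card : ℝ) ≤ X.card := by
    rw [h2] at hbad
    refine le_of_mul_le_mul_right ?_ hn
    nlinarith
  have h5 : 3 * (X.card : ℝ) ≤ 4 * B.card := by linarith
  refine ⟨B, (filter_subset _ _).trans hXA, ?_, ?_⟩
  · nlinarith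
  · have h6 : ((-B + B).card : ℝ) * ((X.card : ℝ) / 2 * θ ^ 2) ≤ (A.card : ℝ) ^ 4 := by
      rw [← obsg_cconv]
      calc ((-B + B).card : ℝ) * ((X.card : ℝ) / 2 * θ ^ 2) = ∑ _g ∈ -B + B, (X.card : ℝ) / 2 * θ ^ 2 := by
            rw [sum_const, nsmul_eq_mul]
        _ ≤ ∑ g ∈ -B + B, ∑ u : G, obsg_rq A u * obsg_rq A (-u + g) := by
            refine sum_le_sum fun g hg => ?_
            obtain ⟨x', hx', y, hy, rfl⟩ := mem_add.1 hg
            obtain ⟨x, hx, rfl⟩ := mem_neg.1 hx'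
            exact obsg_crep hθ0.le (mem_filter.1 hx).2 (mem_filter.1 hy).2
        _ ≤ _ := sum_le_sum_of_subset_of_nonneg (subset_univ _) fun g _ _ =>
            sum_nonneg fun u _ => mul_nonneg (obsg_cnonneg _ _) (obsg_cnonneg _ _)
    have h7 : (A.card : ℝ) ^ 4 = 2048 * K ^ 4 * (A.card : ℝ) ^ 2 / X.card * ((X.card : ℝ) / 2 * θ ^ 2) := by
      rw [hθ]
      field_simp
      ring
    rw [h7] at h6
    have h8 := le_of_mul_le_mul_right h6 (by positivity)
    refine h8.trans ?_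
    rw [div_le_iff₀ hn]
    have h9 : (A.card : ℝ) ^ 2 ≤ (2 * K * X.card) ^ 2 := pow_le_pow_left₀ ha.le hX 2
    have h10 : (X.card : ℝ) ≤ 2 * B.card := by linarith
    calc 2048 * K ^ 4 * (A.card : ℝ) ^ 2 ≤ 2048 * K ^ 4 * (2 * K * X.card) ^ 2 := by gcongr
      _ = 8192 * K ^ 6 * X.card * X.card := by ring
      _ ≤ 8192 * K ^ 6 * (2 * B.card) * X.card := by gcongr
      _ = 2 ^ 14 * K ^ 6 * B.card * X.card := by ring

theorem obsg_energy (A : Finset G) : (Finset.addEnergy A A : ℝ) ≤ obsg_en A := by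
  unfold obsg_en obsg_rq Finset.addEnergy
  rw [card_eq_sum_card_fiberwise (t := univ) (f := fun q : (G × G) × G × G => -q.1.1 + q.1.2)
    fun _ _ => mem_coe.2 (mem_univ _), Nat.cast_sum]
  refine sum_le_sum fun x _ => ?_
  rw [sq, ← Nat.cast_mul, ← card_product]
  refine Nat.cast_le.2 (card_le_card_of_injOn (fun q => (q.1, q.2.swap)) (fun q hq => ?_)
    fun q _ r _ hqr => ?_)
  · simp only [coe_filter, mem_filter, mem_product, Set.mem_ofPred_eq, coe_product, Set.mem_prod,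
      Prod.fst_swap, Prod.snd_swap] at hq ⊢
    obtain ⟨⟨⟨h1, h2, h3⟩, h4⟩, h5⟩ := hq
    refine ⟨⟨h1, h5⟩, ⟨h3, h2⟩, ?_⟩
    rw [← h5]
    have e : q.2.1 = -q.1.1 + (q.1.2 + q.2.2) := by rw [← h4]; abel
    rw [e]
    abel
  · obtain ⟨e1, e2⟩ := Prod.mk.inj hqr
    exact Prod.ext e1 (Prod.swap_injective e2)

end obsgAux

/-- Balog-Szemeredi-Gowers -/
theorem obsg (K : ℕ) : ∃ K' : ℕ, ∀ (G : Type) [AddCommGroup G] [Fintype G] [DecidableEq G]
    (A : Finset G), A.Nonempty → A.card ^ 3 ≤ K * Finset.addEnergy A A →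
      ∃ A' ⊆ A, A'.Nonempty ∧ A.card ≤ K' * A'.card ∧ (A' - A').card ≤ K' * A'.card := by
  refine ⟨2 ^ 14 * (K + 1) ^ 6, fun G _ _ _ A hA h => ?_⟩
  have hK : (1 : ℝ) ≤ (K : ℝ) + 1 := by linarith [Nat.cast_nonneg (α := ℝ) K]
  have h1 : (A.card : ℝ) ^ 3 ≤ ((K : ℝ) + 1) * obsg_en A := by
    have h2 : (A.card : ℝ) ^ 3 ≤ (K : ℝ) * (Finset.addEnergy A A : ℝ) := by exact_mod_cast h
    exact h2.trans (mul_le_mul (by linarith) (obsg_energy A) (Nat.cast_nonneg _) (by linarith))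
  obtain ⟨B, hBA, hB1, hB2⟩ := obsg_core hA hK h1
  have ha : (0 : ℝ) < A.card := by exact_mod_cast hA.card_pos
  refine ⟨B, hBA, ?_, ?_, ?_⟩
  · rw [← card_pos]
    by_contra h0
    have h3 : B.card = 0 := by omega
    rw [h3, Nat.cast_zero, mul_zero] at hB1
    linarith
  · have h3 : 4 * ((K : ℝ) + 1) ≤ 2 ^ 14 * ((K : ℝ) + 1) ^ 6 :=
      mul_le_mul (by norm_num) (le_self_pow₀ hK (by norm_num)) (by linarith) (by norm_num)
    have h4 := hB1.trans (mul_le_mul_of_nonneg_right h3 (Nat.cast_nonneg _))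
    exact_mod_cast h4
  · rw [sub_eq_add_neg, add_comm]
    exact_mod_cast hB2

end Pool.Agent.P.MP_862e21_al
end

-- part Pool.Agent.P.MP_862e21_al.Good
section

namespace Pool.Agent.P.MP_862e21_al

open Finset Pointwise

variable {F : Type*} [Field F] [DecidableEq F]

theorem Good.mono {K K' : ℕ} {C : Finset F} {m : F} (h : Good K C m) (hK : K ≤ K') :
    Good K' C m := le_trans h (Nat.mul_le_mul_right _ hK)

theorem good_card_smul {a : F} (ha : a ≠ 0) (A : Finset F) : (a • A).card = A.card :=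
  card_image_of_injective _ (mul_right_injective₀ ha)

theorem good_card_sub_comm (A B : Finset F) : (A - B).card = (B - A).card := by
  rw [← card_neg (A - B), neg_sub]

theorem good_smul_sub (a : F) (A B : Finset F) : a • (A - B) = a • A - a • B := by
  ext z
  simp only [mem_smul_finset, mem_sub, smul_eq_mul]
  constructor
  · rintro ⟨_, ⟨x, hx, y, hy, rfl⟩, rfl⟩
    exact ⟨_, ⟨x, hx, rfl⟩, _, ⟨y, hy, rfl⟩, by ring⟩
  · rintro ⟨_, ⟨x, hx, rfl⟩, _, ⟨y, hy, rfl⟩, rfl⟩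
    exact ⟨_, ⟨x, hx, y, hy, rfl⟩, by ring⟩

theorem good_one_le {K : ℕ} {C : Finset F} (hC : C.Nonempty) (h1 : Good K C 1) : 1 ≤ K := by
  rcases Nat.eq_zero_or_pos K with rfl | h
  · have h2 : (C - (1 : F) • C).card ≤ 0 * C.card := h1
    rw [one_smul, zero_mul] at h2
    exact absurd (hC.sub hC).card_pos (by omega)
  · exact h

theorem good_zero {K : ℕ} {C : Finset F} (hK : 1 ≤ K) : Good K C 0 := by
  have : C - (0 : F) • C ⊆ C := by
    intro z hz
    obtain ⟨x, hx, y, hy, rfl⟩ := mem_sub.1 hz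
    obtain ⟨w, -, rfl⟩ := mem_smul_finset.1 hy
    simpa using hx
  exact (card_le_card this).trans (Nat.le_mul_of_pos_left _ hK)

theorem good_mul {K : ℕ} {C : Finset F} {m m' : F} (hC : C.Nonempty) (hK : 1 ≤ K)
    (hm : Good K C m) (hm' : Good K C m') : Good (K ^ 2) C (m * m') := by
  rcases eq_or_ne m 0 with rfl | h0
  · rw [zero_mul]
    exact good_zero (Nat.one_le_pow _ _ hK)
  · have h1 := ruzsa_triangle_inequality_sub_sub_sub C (m • C) ((m * m') • C)
    have h2 : ((m * m') • C - m • C).card = (C - m' • C).card := by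
      rw [mul_smul, ← good_smul_sub, good_card_smul h0, good_card_sub_comm]
    rw [h2, good_card_smul h0] at h1
    have h3 : (C - (m * m') • C).card * C.card ≤ (K ^ 2 * C.card) * C.card :=
      h1.trans ((Nat.mul_le_mul hm hm').trans_eq (by ring))
    exact Nat.le_of_mul_le_mul_right h3 hC.card_pos

theorem good_inv {K : ℕ} {C : Finset F} {m : F} (hm : Good K C m) : Good K C m⁻¹ := by
  rcases eq_or_ne m 0 with rfl | h0
  · rwa [inv_zero]
  · have h2 : (C - m⁻¹ • C).card = (C - m • C).card := by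
      rw [← good_card_smul h0, good_smul_sub, smul_inv_smul₀ h0, good_card_sub_comm]
    exact h2.trans_le hm

theorem good_cover {K : ℕ} {C : Finset F} {m : F} (hC : C.Nonempty) (hm : Good K C m) :
    ∃ T : Finset F, T.card ≤ K ∧ ∀ x ∈ C, ∃ t ∈ T, ∃ a ∈ C, ∃ b ∈ C, -(m * x) = t + (a - b) := by
  have h1 : (-(m • C) + C).card ≤ K * C.card := by
    rw [add_comm, ← sub_eq_add_neg]
    exact hm
  obtain ⟨T, -, hT, hsub⟩ := ruzsa_covering_add (A := -(m • C)) (B := C) (K := K) hC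
    (by exact_mod_cast h1)
  refine ⟨T, by exact_mod_cast hT, fun x hx => ?_⟩
  obtain ⟨t, ht, w, hw, e⟩ := mem_add.1 (hsub (neg_mem_neg (smul_mem_smul_finset hx)))
  obtain ⟨a, ha, b, hb, rfl⟩ := mem_sub.1 hw
  exact ⟨t, ht, a, ha, b, hb, e.symm⟩

theorem good_five {K : ℕ} {C : Finset F} (hC : C.Nonempty) (h1 : Good K C 1) :
    (3 • C - 2 • C).card ≤ K ^ 5 * C.card := by
  have h2 : (C - C).card ≤ K * C.card := by
    have h3 : (C - (1 : F) • C).card ≤ K * C.card := h1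
    rwa [one_smul] at h3
  have h3 := pluennecke_ruzsa_inequality_nsmul_sub_nsmul_sub hC C 3 2
  have hc : (0 : ℚ≥0) < C.card := by exact_mod_cast hC.card_pos
  have h4 : ((C - C).card : ℚ≥0) / C.card ≤ K := by
    rw [div_le_iff₀ hc]
    exact_mod_cast h2
  have h5 : ((3 • C - 2 • C).card : ℚ≥0) ≤ (K : ℚ≥0) ^ 5 * C.card :=
    h3.trans (by gcongr)
  exact_mod_cast h5

theorem good_mem_five {C : Finset F} {a b c d e : F} (ha : a ∈ C) (hb : b ∈ C) (hc : c ∈ C)
    (hd : d ∈ C) (he : e ∈ C) : a + b + c - (d + e) ∈ 3 • C - 2 • C := by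
  have e3 : 3 • C = C + C + C := by rw [three_nsmul, add_assoc]
  rw [e3, two_nsmul]
  exact sub_mem_sub (add_mem_add (add_mem_add ha hb) hc) (add_mem_add hd he)

theorem good_ops {K : ℕ} {C : Finset F} {m m' : F} (hC : C.Nonempty) (h1 : Good K C 1)
    (hm : Good K C m) (hm' : Good K C m') :
    Good (K ^ 11) C (m + m') ∧ Good (K ^ 11) C (m - m') ∧ Good (K ^ 11) C (m * m') ∧
      Good (K ^ 11) C (m / m') := by
  have hK := good_one_le hC h1
  obtain ⟨T, hT, hTs⟩ := good_cover hC hm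
  obtain ⟨T', hT', hTs'⟩ := good_cover hC hm'
  have h5 := good_five hC h1
  have h7 : K ^ 7 ≤ K ^ 11 := Nat.pow_le_pow_right hK (by norm_num)
  have h2 : K ^ 2 ≤ K ^ 11 := Nat.pow_le_pow_right hK (by norm_num)
  have fin : ∀ (U : Finset F) (μ : F), U.card ≤ K * K → C - μ • C ⊆ U + (3 • C - 2 • C) →
      Good (K ^ 11) C μ := by
    intro U μ hU hs
    refine Good.mono (K := K ^ 7) ?_ h7
    exact (card_le_card hs).trans (card_add_le.trans ((Nat.mul_le_mul hU h5).trans_eq (by ring)))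
  refine ⟨fin (T + T') _ (card_add_le.trans (Nat.mul_le_mul hT hT')) ?_,
    fin (T - T') _ (card_sub_le.trans (Nat.mul_le_mul hT hT')) ?_,
    (good_mul hC hK hm hm').mono h2, ?_⟩
  · intro z hz
    obtain ⟨c, hc, y, hy, rfl⟩ := mem_sub.1 hz
    obtain ⟨x, hx, rfl⟩ := mem_smul_finset.1 hy
    obtain ⟨t, ht, a, ha, b, hb, e⟩ := hTs x hx
    obtain ⟨t', ht', a', ha', b', hb', e'⟩ := hTs' x hx
    refine mem_add.2 ⟨t + t', add_mem_add ht ht', _, good_mem_five hc ha ha' hb hb', ?_⟩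
    rw [smul_eq_mul]
    linear_combination -e - e'
  · intro z hz
    obtain ⟨c, hc, y, hy, rfl⟩ := mem_sub.1 hz
    obtain ⟨x, hx, rfl⟩ := mem_smul_finset.1 hy
    obtain ⟨t, ht, a, ha, b, hb, e⟩ := hTs x hx
    obtain ⟨t', ht', a', ha', b', hb', e'⟩ := hTs' x hx
    refine mem_add.2 ⟨t - t', sub_mem_sub ht ht', _, good_mem_five hc ha hb' hb ha', ?_⟩
    rw [smul_eq_mul]
    linear_combination -e + e'
  · rw [div_eq_mul_inv]
    exact (good_mul hC hK hm (good_inv hm')).mono h2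

/-- Quadruples that determine the slope. -/
def goodQ (C : Finset F) (m : F) : Finset ((F × F) × (F × F)) :=
  ((C ×ˢ C) ×ˢ (C ×ˢ C)).filter
    (fun w => w.1.1 - m * w.1.2 = w.2.1 - m * w.2.2 ∧ w.1.2 ≠ w.2.2)

theorem good_energy (C : Finset F) (m : F) :
    C.card ^ 4 ≤ (C - m • C).card * (C.card ^ 2 + (goodQ C m).card) := by
  let f : F × F → F := fun p => p.1 - m * p.2
  have hmap : ∀ p ∈ C ×ˢ C, f p ∈ C - m • C := fun p hp =>
    sub_mem_sub (mem_product.1 hp).1 (smul_mem_smul_finset (mem_product.1 hp).2)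
  have h1 : (C ×ˢ C).card = ∑ z ∈ C - m • C, ((C ×ˢ C).filter (fun p => f p = z)).card :=
    card_eq_sum_card_fiberwise hmap
  let E := ((C ×ˢ C) ×ˢ (C ×ˢ C)).filter (fun w => f w.1 = f w.2)
  have h2 : E.card = ∑ z ∈ C - m • C, ((C ×ˢ C).filter (fun p => f p = z)).card ^ 2 := by
    rw [card_eq_sum_card_fiberwise (f := fun w => f w.1) (t := C - m • C)
      (fun w hw => hmap _ (mem_product.1 (mem_filter.1 hw).1).1)]
    refine sum_congr rfl fun z _ => ?_
    rw [sq, ← card_product]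
    congr 1
    ext w
    simp only [E, mem_filter, mem_product]
    constructor
    · rintro ⟨⟨⟨a, b⟩, c⟩, d⟩
      exact ⟨⟨a, d⟩, b, c ▸ d⟩
    · rintro ⟨⟨a, d⟩, b, c⟩
      exact ⟨⟨⟨a, b⟩, d.trans c.symm⟩, d⟩
  have h3 : E ⊆ (C ×ˢ C).image (fun p => (p, p)) ∪ goodQ C m := by
    rintro ⟨⟨x, y⟩, ⟨x', y'⟩⟩ hw
    obtain ⟨hw1, hw2⟩ := mem_filter.1 hw
    by_cases hy : y = y'
    · subst hy
      have hx : x = x' := by
        have : x - m * y = x' - m * y := hw2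
        linear_combination this
      subst hx
      exact mem_union_left _ (mem_image.2 ⟨(x, y), (mem_product.1 hw1).1, rfl⟩)
    · exact mem_union_right _ (mem_filter.2 ⟨hw1, hw2, hy⟩)
  have h4 : E.card ≤ C.card ^ 2 + (goodQ C m).card := by
    refine (card_le_card h3).trans ((card_union_le _ _).trans (Nat.add_le_add_right ?_ _))
    exact card_image_le.trans_eq (by rw [card_product, sq])
  calc C.card ^ 4 = ((C ×ˢ C).card) ^ 2 := by rw [card_product]; ring
    _ ≤ (C - m • C).card * E.card := by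
        rw [h1, h2]
        exact sq_sum_le_card_mul_sum_sq
    _ ≤ _ := Nat.mul_le_mul_left _ h4

theorem good_count {K : ℕ} {C : Finset F} (hC : C.Nonempty) (hK : 2 * K ≤ C.card)
    (M : Finset F) (hM : ∀ m ∈ M, Good K C m) : M.card ≤ 2 * K * C.card := by
  have hc := hC.card_pos
  have h1 : ∀ m ∈ M, C.card ^ 3 ≤ 2 * K * (goodQ C m).card := by
    intro m hm
    have h2 : C.card ^ 3 * C.card ≤ (K * (C.card ^ 2 + (goodQ C m).card)) * C.card :=
      calc C.card ^ 3 * C.card = C.card ^ 4 := by ring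
        _ ≤ _ := good_energy C m
        _ ≤ (K * C.card) * (C.card ^ 2 + (goodQ C m).card) := Nat.mul_le_mul_right _ (hM m hm)
        _ = _ := by ring
    have h3 := Nat.le_of_mul_le_mul_right h2 hc
    have h4 : 2 * K * C.card ^ 2 ≤ C.card * C.card ^ 2 := Nat.mul_le_mul_right _ hK
    nlinarith
  have h2 : ∑ m ∈ M, (goodQ C m).card ≤ C.card ^ 4 := by
    rw [← card_biUnion]
    · refine (card_le_card (t := (C ×ˢ C) ×ˢ (C ×ˢ C)) ?_).trans_eq ?_
      · intro w hw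
        obtain ⟨m, -, hw'⟩ := mem_biUnion.1 hw
        exact (mem_filter.1 hw').1
      · simp only [card_product]; ring
    · intro m _ m' _ hne
      refine disjoint_left.2 fun w hw hw' => hne ?_
      obtain ⟨-, e, hy⟩ := mem_filter.1 hw
      obtain ⟨-, e', -⟩ := mem_filter.1 hw'
      refine mul_right_cancel₀ (sub_ne_zero.2 hy) ?_
      linear_combination e' - e
  have h3 : M.card * C.card ^ 3 ≤ (2 * K * C.card) * C.card ^ 3 :=
    calc M.card * C.card ^ 3 = ∑ _m ∈ M, C.card ^ 3 := by rw [sum_const, smul_eq_mul]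
      _ ≤ ∑ m ∈ M, 2 * K * (goodQ C m).card := sum_le_sum h1
      _ = 2 * K * ∑ m ∈ M, (goodQ C m).card := by rw [mul_sum]
      _ ≤ 2 * K * C.card ^ 4 := Nat.mul_le_mul_left _ h2
      _ = _ := by ring
  exact Nat.le_of_mul_le_mul_right h3 (by positivity)

theorem good_overlap_aux {C0 C1 Z : Finset F} {K0 K1 : ℕ} {m κ : F} (hm : m ≠ 0)
    (hne : C0.Nonempty) (hc : C1.card = C0.card)
    (h0 : (C0 - C0).card ≤ K0 * C0.card) (h1 : (C1 - C1).card ≤ K0 * C1.card) (hZ : Z ⊆ C0)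
    (hZc : C0.card ≤ K1 * Z.card) (hZ0 : ∀ v ∈ Z, ∃ w ∈ C1, v = κ + m * w) :
    (C0 - m • C1).card ≤ K1 * K0 ^ 2 * C0.card := by
  have t := ruzsa_triangle_inequality_sub_sub_sub C0 Z (m • C1)
  have a : (C0 - Z).card ≤ K0 * C0.card := (card_le_card (sub_subset_sub_left hZ)).trans h0
  have b : (m • C1 - Z).card ≤ K0 * C0.card := by
    have hs : m • C1 - Z ⊆ (-κ) +ᵥ (m • (C1 - C1)) := by
      intro z hz
      obtain ⟨y', hy', v, hv, rfl⟩ := mem_sub.1 hz
      obtain ⟨y, hy, rfl⟩ := mem_smul_finset.1 hy'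
      obtain ⟨w, hw, rfl⟩ := hZ0 v hv
      refine mem_vadd_finset.2 ⟨_, smul_mem_smul_finset (sub_mem_sub hy hw), ?_⟩
      simp only [smul_eq_mul, vadd_eq_add]
      ring
    refine (card_le_card hs).trans ?_
    rw [card_vadd_finset, good_card_smul hm, ← hc]
    exact h1
  have h3 : (C0 - m • C1).card * C0.card ≤ (K1 * K0 ^ 2 * C0.card) * C0.card :=
    calc (C0 - m • C1).card * C0.card ≤ (C0 - m • C1).card * (K1 * Z.card) :=
          Nat.mul_le_mul_left _ hZc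
      _ = K1 * ((C0 - m • C1).card * Z.card) := by ring
      _ ≤ K1 * ((K0 * C0.card) * (K0 * C0.card)) :=
          Nat.mul_le_mul_left _ (t.trans (Nat.mul_le_mul a b))
      _ = _ := by ring
  exact Nat.le_of_mul_le_mul_right h3 hne.card_pos

theorem good_of_overlap {C0 C1 Z : Finset F} {K0 K1 : ℕ} {m0 m1 κ0 κ1 : F} (hm0 : m0 ≠ 0)
    (hm1 : m1 ≠ 0) (hne : C0.Nonempty) (hc : C1.card = C0.card)
    (h0 : (C0 - C0).card ≤ K0 * C0.card) (h1 : (C1 - C1).card ≤ K0 * C1.card) (hZ : Z ⊆ C0)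
    (hZc : C0.card ≤ K1 * Z.card) (hZ0 : ∀ v ∈ Z, ∃ w ∈ C1, v = κ0 + m0 * w)
    (hZ1 : ∀ v ∈ Z, ∃ w ∈ C1, v = κ1 + m1 * w) : Good ((K1 * K0 ^ 2) ^ 2) C0 (m0 / m1) := by
  have a := good_overlap_aux hm0 hne hc h0 h1 hZ hZc hZ0
  have b := good_overlap_aux hm1 hne hc h0 h1 hZ hZc hZ1
  have t := ruzsa_triangle_inequality_sub_sub_sub C0 (m0 • C1) ((m0 / m1) • C0)
  have e : ((m0 / m1) • C0 - m0 • C1).card = (C0 - m1 • C1).card := by
    rw [← good_card_smul (div_ne_zero hm0 hm1) (C0 - m1 • C1), good_smul_sub, smul_smul,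
      div_mul_cancel₀ _ hm1]
  rw [e, good_card_smul hm0, hc] at t
  have h3 : (C0 - (m0 / m1) • C0).card * C0.card ≤ ((K1 * K0 ^ 2) ^ 2 * C0.card) * C0.card :=
    t.trans ((Nat.mul_le_mul a b).trans_eq (by ring))
  exact Nat.le_of_mul_le_mul_right h3 hne.card_pos

end Pool.Agent.P.MP_862e21_al
end

-- part Pool.Agent.P.MP_862e21_al.OCover
section

namespace Pool.Agent.P.MP_862e21_al

open Finset Pointwise

variable {F : Type*} [Field F] [DecidableEq F]

theorem OCover_piece {K : ℕ} {H1 H2 H3 X : Finset F} (h1 : Cov K H1 X) (h2 : Cov K H2 X)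
    (h3 : Cov K H3 X) : ∃ (Z : Finset F) (t1 t2 t3 : F), X.card ≤ K ^ 3 * Z.card ∧
      (∀ z ∈ Z, z - t1 ∈ H1) ∧ (∀ z ∈ Z, z - t2 ∈ H2) ∧ ∀ z ∈ Z, z - t3 ∈ H3 := by
  obtain ⟨Z1, s1, t1, c1, m1⟩ := h1.piece
  obtain ⟨Z2, s2, t2, c2, m2⟩ := (h2.subset s1).piece
  obtain ⟨Z3, s3, t3, c3, m3⟩ := (h3.subset (s2.trans s1)).piece
  refine ⟨Z3, t1, t2, t3, ?_, fun z hz => m1 z (s2 (s3 hz)), fun z hz => m2 z (s3 hz), m3⟩
  calc X.card ≤ K * Z1.card := c1
    _ ≤ K * (K * (K * Z3.card)) :=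
        Nat.mul_le_mul_left _ (c2.trans (Nat.mul_le_mul_left _ c3))
    _ = _ := by ring

theorem OCover_goods {K : ℕ} {H : Finset F} {c : F} (hH : H.Nonempty) (c0 : c ≠ 0) (c1 : c ≠ 1)
    (cN : c ^ 2 - c + 1 ≠ 0) (g1 : Good K H 1) (gr1 : Good K H (c * (1 - c)))
    (gr2 : Good K H (c ^ 2 / (c - 1))) :
    ∀ r ∈ ({c, 1 - c, c ^ 2 - c + 1, c / (1 - c)} : Set F),
      Good (((((K ^ 11) ^ 11) ^ 11) ^ 11) ^ 11) H r := by
  have up : ∀ {M : ℕ} {r : F}, Good M H r → Good (M ^ 11) H r :=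
    fun h => h.mono (Nat.le_self_pow (by norm_num) _)
  have d1 : 1 - c ≠ 0 := sub_ne_zero.2 c1.symm
  have d2 : c - 1 ≠ 0 := sub_ne_zero.2 c1
  have a1 := (good_ops hH g1 g1 gr1).2.1
  have a2 := (good_ops hH g1 g1 gr2).2.1
  have a3 := (good_ops hH (up g1) (up gr1) a2).2.2.1
  have a4 := (good_ops hH (up (up g1)) a3 (up a1)).2.2.2
  have e1 : 1 - c * (1 - c) = c ^ 2 - c + 1 := by ring
  have e2 : c * (1 - c) * (1 - c ^ 2 / (c - 1)) / (1 - c * (1 - c)) = c := by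
    rw [e1, div_eq_iff cN]
    field_simp
    ring
  rw [e2] at a4
  rw [e1] at a1
  have a5 := (good_ops hH (up (up (up g1))) (up (up (up g1))) a4).2.1
  have a6 := (good_ops hH (up (up (up (up g1)))) (up a4) a5).2.2.2
  intro r hr
  simp only [Set.mem_insert_iff, Set.mem_singleton_iff] at hr
  rcases hr with rfl | rfl | rfl | rfl
  · exact up (up a4)
  · exact up a5
  · exact up (up (up (up a1)))
  · exact a6

theorem OCover_diff {K : ℕ} {A : Finset F} (hA : A.Nonempty) (h : (A - A).card ≤ K * A.card) :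
    Cov (K ^ 5) (A - A) ((A - A) + (A - A)) := by
  refine cov_of_card hA ?_
  have g : Good K A 1 := by
    unfold Good
    rwa [one_smul]
  refine (card_le_card ?_).trans (good_five hA g)
  intro z hz
  obtain ⟨w, hw, e, he, rfl⟩ := mem_add.1 hz
  obtain ⟨p, hp, q, hq, rfl⟩ := mem_add.1 hw
  obtain ⟨a, ha, b, hb, rfl⟩ := mem_sub.1 hp
  obtain ⟨a', ha', b', hb', rfl⟩ := mem_sub.1 hq
  have := good_mem_five ha ha' he hb hb'
  have e1 : a - b + (a' - b') + e = a + a' + e - (b + b') := by ring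
  rwa [e1]

theorem OCover_ratio {K K0 K1 : ℕ} {H X : Finset F} {m1 m2 m3 : F} (hH : H.Nonempty)
    (n1 : m1 ≠ 0) (n2 : m2 ≠ 0) (n3 : m3 ≠ 0) (h0 : (H - H).card ≤ K0 * H.card)
    (hX : H.card ≤ K1 * X.card) (h1 : Cov K (m1 • H) X) (h2 : Cov K (m2 • H) X)
    (h3 : Cov K (m3 • H) X) :
    Good (K1 * K ^ 3 * K0 ^ 2) H (m1 / m2) ∧ Good (K1 * K ^ 3 * K0 ^ 2) H (m3 / m2) := by
  obtain ⟨Z, t1, t2, t3, hc, z1, z2, z3⟩ := OCover_piece h1 h2 h3
  have hZ : H.card ≤ K1 * K ^ 3 * Z.card :=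
    hX.trans ((Nat.mul_le_mul_left _ hc).trans_eq (by ring))
  exact ⟨good_of_two n2 n1 hH h0 hZ z2 z1, good_of_two n2 n3 hH h0 hZ z2 z3⟩

theorem ocover (L : ℕ) : ∃ K : ℕ, ∀ (F : Type) [Field F] [Fintype F] [DecidableEq F]
    (c : F) (B C D : Finset F) (u : ℕ), OTrio c B C D →
      Fintype.card F = B.card + C.card + D.card + u → B.Nonempty → C.Nonempty →
      B.card ≤ L * C.card → C.card ≤ L * B.card → u ≤ L * B.card →
      ∃ H : Finset F, AG K c H ∧ Cov K H (B ∪ C) ∧ H.card ≤ K * C.card := by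
  obtain ⟨K0, hK0⟩ : ∃ K0, K0 = L + 1 + L * L := ⟨_, rfl⟩
  obtain ⟨K', hbsg⟩ := obsg (16 * K0 ^ 2 * L)
  obtain ⟨K1, hK1⟩ : ∃ K1, K1 = K0 * K' := ⟨_, rfl⟩
  obtain ⟨K5, hK5⟩ : ∃ K5, K5 = K' ^ 5 := ⟨_, rfl⟩
  obtain ⟨P, hP⟩ : ∃ P, P = K' * L * 2 * (2 * K1) ^ 3 * K5 ^ 2 + K5 := ⟨_, rfl⟩
  obtain ⟨Kg, hKg⟩ : ∃ Kg, Kg = ((((P ^ 11) ^ 11) ^ 11) ^ 11) ^ 11 * K5 := ⟨_, rfl⟩
  obtain ⟨KB, hKB⟩ : ∃ KB, KB = 2 * K1 * Kg + 2 * K1 * Kg := ⟨_, rfl⟩
  obtain ⟨KC, hKC⟩ : ∃ KC, KC = 2 * (K0 * L * KB) * (K5 * Kg) + 2 * (K0 * L * KB) * (K5 * Kg) :=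
    ⟨_, rfl⟩
  refine ⟨K5 + Kg + (KB + KC) + K', ?_⟩
  intro F _ _ _ c B C D u h hq hB hC hBC hCB hu
  have c0 := h.spl.c0
  have c1 := h.spl.c1
  have cN := h.spl.h3 c
  have d1 : 1 - c ≠ 0 := sub_ne_zero.2 c1.symm
  have d2 : c - 1 ≠ 0 := sub_ne_zero.2 c1
  have hX : Dᶜ.card ≤ K0 * C.card := by
    rw [card_compl, hq, hK0]
    have : L * B.card ≤ L * (L * C.card) := Nat.mul_le_mul_left _ hBC
    have e : (L + 1 + L * L) * C.card = L * C.card + C.card + L * (L * C.card) := by ring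
    omega
  obtain ⟨A, hAC, hA, hA1, hA2⟩ := hbsg F C hC (oenergy h hB hX hCB)
  have hX1 : Dᶜ.card ≤ K1 * A.card :=
    hX.trans ((Nat.mul_le_mul_left _ hA1).trans_eq (by rw [hK1]; ring))
  obtain ⟨Bp, Bm, hBu, hpm⟩ := ocov_pm h hAC hA hX1
  have hadd : Cov K5 (A - A) ((A - A) + (A - A)) := hK5 ▸ OCover_diff hA hA2
  set H := A - A with hHdef
  have hH : H.Nonempty := hA.sub hA
  have hz : (0 : F) ∈ H := by
    obtain ⟨a, ha⟩ := hA
    exact mem_sub.2 ⟨a, ha, a, ha, sub_self a⟩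
  have hn : ∀ x ∈ H, -x ∈ H := by
    intro x hx
    obtain ⟨a, ha, b, hb, rfl⟩ := mem_sub.1 hx
    exact mem_sub.2 ⟨b, hb, a, ha, by ring⟩
  have hHH : H - H ⊆ H + H := by
    intro x hx
    obtain ⟨a, ha, b, hb, rfl⟩ := mem_sub.1 hx
    exact mem_add.2 ⟨a, ha, -b, hn b hb, by ring⟩
  have h0 : (H - H).card ≤ K5 * H.card := (hadd.subset hHH).card_le
  have hHC : H.card ≤ K' * C.card := hA2.trans (Nat.mul_le_mul_left _ (card_le_card hAC))
  have s1 : c ∈ Lp c := self_mem_Lp c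
  have s2 : (1 - c)⁻¹ ∈ Lp c := mem_Lp.2 (Or.inr (Or.inl rfl))
  have s3 : (c - 1) / c ∈ Lp c := mem_Lp.2 (Or.inr (Or.inr rfl))
  have e2 : (1 - c)⁻¹ / (1 - (1 - c)⁻¹) = -c⁻¹ := by
    have : 1 - (1 - c)⁻¹ = -c / (1 - c) := by field_simp; ring
    rw [this]
    field_simp
  have e2' : (1 - (1 - c)⁻¹) / (1 - c)⁻¹ = -c := by
    field_simp
    ring
  have e3 : (c - 1) / c / (1 - (c - 1) / c) = c - 1 := by
    have : 1 - (c - 1) / c = 1 / c := by field_simp; ring
    rw [this]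
    field_simp
  have e3' : (1 - (c - 1) / c) / ((c - 1) / c) = (c - 1)⁻¹ := by
    field_simp
    ring
  have hlarge : ∀ X : Finset F, B.card ≤ 2 * X.card → H.card ≤ K' * L * 2 * X.card := by
    intro X hXX
    calc H.card ≤ K' * C.card := hHC
      _ ≤ K' * (L * (2 * X.card)) :=
          Nat.mul_le_mul_left _ (hCB.trans (Nat.mul_le_mul_left _ hXX))
      _ = _ := by ring
  have hr : Good P H (c * (1 - c)) ∧ Good P H (c ^ 2 / (c - 1)) := by
    have hcard : B.card ≤ Bp.card + Bm.card := hBu ▸ card_union_le Bp Bm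
    have hPle : K' * L * 2 * (2 * K1) ^ 3 * K5 ^ 2 ≤ P := by omega
    by_cases hc : B.card ≤ 2 * Bp.card
    · have p1 := (hpm _ s1).1
      have p2 := (hpm _ s2).1
      have p3 := (hpm _ s3).1
      rw [e2] at p2
      rw [e3] at p3
      obtain ⟨g2, g1⟩ := OCover_ratio hH (div_ne_zero c0 d1) (neg_ne_zero.2 (inv_ne_zero c0)) d2 h0
        (hlarge Bp hc) p1 p2 p3
      have f1 : (c - 1) / -c⁻¹ = c * (1 - c) := by field_simp; ring
      have f2 : c / (1 - c) / -c⁻¹ = c ^ 2 / (c - 1) := by field_simp; ring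
      rw [f1] at g1
      rw [f2] at g2
      exact ⟨g1.mono hPle, g2.mono hPle⟩
    · have p1 := (hpm _ s1).2
      have p2 := (hpm _ s2).2
      have p3 := (hpm _ s3).2
      rw [e2'] at p2
      rw [e3'] at p3
      obtain ⟨g2, g1⟩ := OCover_ratio hH (div_ne_zero d1 c0) (neg_ne_zero.2 c0) (inv_ne_zero d2) h0
        (hlarge Bm (by omega)) p1 p2 p3
      have f1 : ((c - 1)⁻¹ / -c)⁻¹ = c * (1 - c) := by field_simp; ring
      have f2 : ((1 - c) / c / -c)⁻¹ = c ^ 2 / (c - 1) := by field_simp; ring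
      have g1' := good_inv g1
      have g2' := good_inv g2
      rw [f1] at g1'
      rw [f2] at g2'
      exact ⟨g1'.mono hPle, g2'.mono hPle⟩
  have g1 : Good P H 1 := by
    refine Good.mono (K := K5) ?_ (by omega)
    unfold Good
    rwa [one_smul]
  have hg := OCover_goods hH c0 c1 cN g1 hr.1 hr.2
  have hcov : ∀ r ∈ ({c, 1 - c, c ^ 2 - c + 1, c / (1 - c)} : Set F),
      Cov Kg H (r • H) ∧ Cov Kg H (r⁻¹ • H) := fun r hr =>
    ⟨hKg ▸ cov_of_good hH hn hadd (hg r hr), hKg ▸ cov_of_good hH hn hadd (good_inv (hg r hr))⟩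
  obtain ⟨l1, l2⟩ := hcov (c / (1 - c)) (by simp)
  rw [inv_div] at l2
  have hcB : Cov KB H B := by
    rw [hKB, ← hBu]
    exact ((hpm _ s1).1.trans l1).union ((hpm _ s1).2.trans l2)
  obtain ⟨B', hB', t, hB1, hB2⟩ := hcB.piece
  have hBn : B'.Nonempty := by
    rw [← card_pos]
    have := hB.card_pos
    rcases Nat.eq_zero_or_pos B'.card with h' | h'
    · rw [h'] at hB1
      omega
    · exact h'
  have hX2 : Dᶜ.card ≤ K0 * L * KB * B'.card :=
    calc Dᶜ.card ≤ K0 * C.card := hX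
      _ ≤ K0 * (L * (KB * B'.card)) :=
          Nat.mul_le_mul_left _ (hCB.trans (Nat.mul_le_mul_left _ hB1))
      _ = _ := by ring
  obtain ⟨Cp, Cm, hCu, hpm'⟩ := ocov_pm h.swap12 hB' hBn hX2
  have hBB : Cov K5 H (B' - B') := by
    refine hadd.subset fun x hx => ?_
    obtain ⟨a, ha, b, hb, rfl⟩ := mem_sub.1 hx
    exact mem_add.2 ⟨a - t, hB2 a ha, -(b - t), hn _ (hB2 b hb), by ring⟩
  have hcC : Cov KC H C := by
    rw [hKC, ← hCu]
    exact ((hpm' _ s1).1.trans ((hBB.smul _).trans l1)).union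
      ((hpm' _ s1).2.trans ((hBB.smul _).trans l2))
  refine ⟨H, ⟨hz, hn, hadd.mono (by omega), (hcov c (by simp)).1.mono (by omega),
    (hcov c (by simp)).2.mono (by omega), (hcov (1 - c) (by simp)).2.mono (by omega),
    (hcov (c ^ 2 - c + 1) (by simp)).2.mono (by omega)⟩, (hcB.union hcC).mono (by omega), ?_⟩
  exact hHC.trans (Nat.mul_le_mul_right _ (by omega))

end Pool.Agent.P.MP_862e21_al
end

-- part Pool.Agent.P.MP_862e21_al.Bkt
section

namespace Pool.Agent.P.MP_862e21_al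

open Finset Pointwise

variable {F : Type*} [Field F] [DecidableEq F]

theorem bkt_cs {α β : Type*} [DecidableEq β] (s : Finset α) (t : Finset β) (f : α → β)
    (h : ∀ a ∈ s, f a ∈ t) :
    s.card ^ 2 ≤ t.card * ((s ×ˢ s).filter fun p => f p.1 = f p.2).card := by
  have h1 : s.card = ∑ b ∈ t, (s.filter fun a => f a = b).card :=
    card_eq_sum_card_fiberwise fun a ha => mem_coe.2 (h a (mem_coe.1 ha))
  have h2 : ((s ×ˢ s).filter fun p => f p.1 = f p.2).card =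
      ∑ b ∈ t, (s.filter fun a => f a = b).card ^ 2 := by
    rw [card_eq_sum_card_fiberwise (f := fun p => f p.1) (t := t)
      fun p hp => mem_coe.2 (h _ (mem_product.1 (mem_filter.1 (mem_coe.1 hp)).1).1)]
    refine sum_congr rfl fun b _ => ?_
    rw [sq, ← card_product]
    congr 1
    ext p
    simp only [mem_filter, mem_product]
    constructor
    · rintro ⟨⟨⟨a1, a2⟩, a3⟩, a4⟩
      exact ⟨⟨a1, a4⟩, a2, a3 ▸ a4⟩
    · rintro ⟨⟨a1, a4⟩, a2, a3⟩
      exact ⟨⟨⟨a1, a2⟩, a4.trans a3.symm⟩, a4⟩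
  rw [h2, h1]
  exact sq_sum_le_card_mul_sum_sq

theorem bkt_mem {M : Finset F} {ξ : F} {p : F × F} (hp : p ∈ M ×ˢ M) :
    p.1 + ξ * p.2 ∈ M + ξ • M :=
  add_mem_add (mem_product.1 hp).1 (smul_mem_smul_finset (mem_product.1 hp).2)

theorem bkt_avg [Fintype F] (M : Finset F) :
    ∃ ξ : F, min (M.card ^ 2) (Fintype.card F) ≤ 2 * (M + ξ • M).card := by
  obtain ⟨P, hP⟩ : ∃ P, P = M ×ˢ M := ⟨_, rfl⟩
  have hPc : P.card = M.card ^ 2 := by rw [hP, card_product, sq]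
  obtain ⟨N, hN⟩ : ∃ N : F → ℕ, ∀ ξ, N ξ =
    ((P ×ˢ P).filter fun w => w.1.1 + ξ * w.1.2 = w.2.1 + ξ * w.2.2).card := ⟨_, fun _ => rfl⟩
  have h1 : ∑ ξ : F, Fintype.card F * N ξ ≤
      ∑ _ξ : F, (Fintype.card F * P.card + P.card ^ 2) := by
    rw [← mul_sum, sum_const, card_univ, smul_eq_mul]
    refine Nat.mul_le_mul_left _ ?_
    have e1 : ∑ ξ : F, N ξ = ∑ w ∈ P ×ˢ P,
        (univ.filter fun ξ : F => w.1.1 + ξ * w.1.2 = w.2.1 + ξ * w.2.2).card := by
      simp only [hN, card_filter]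
      exact sum_comm
    have e2 : ∀ w ∈ P ×ˢ P,
        (univ.filter fun ξ : F => w.1.1 + ξ * w.1.2 = w.2.1 + ξ * w.2.2).card ≤
          (if w.1 = w.2 then Fintype.card F else 0) + 1 := by
      intro w _
      split_ifs with hw
      · exact (card_le_univ _).trans (Nat.le_succ _)
      · refine (card_le_one.2 fun a ha b hb => ?_).trans (by omega)
        have a1 := (mem_filter.1 ha).2
        have a2 := (mem_filter.1 hb).2
        by_contra hab
        have a3 : w.1.2 = w.2.2 :=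
          mul_left_cancel₀ (sub_ne_zero.2 hab) (by linear_combination a1 - a2)
        rw [a3] at a1
        exact hw (Prod.ext (add_right_cancel a1) a3)
    rw [e1]
    refine (sum_le_sum e2).trans ?_
    rw [sum_add_distrib, sum_const, card_product, smul_eq_mul, mul_one, sq, sum_product]
    refine Nat.add_le_add_right (le_of_eq ?_) _
    rw [mul_comm, ← smul_eq_mul, ← sum_const]
    exact sum_congr rfl fun a ha => by simp [ha]
  obtain ⟨ξ, -, h2⟩ := exists_le_of_sum_le univ_nonempty h1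
  refine ⟨ξ, ?_⟩
  have h3 := bkt_cs P (M + ξ • M) (fun p => p.1 + ξ * p.2) fun p hp => bkt_mem (hP ▸ hp)
  rw [← hN] at h3
  rw [← hPc]
  obtain ⟨S, hS⟩ : ∃ S, S = (M + ξ • M).card := ⟨_, rfl⟩
  obtain ⟨q, hq⟩ : ∃ q, q = Fintype.card F := ⟨_, rfl⟩
  obtain ⟨a, ha⟩ : ∃ a, a = P.card := ⟨_, rfl⟩
  rw [← hS, ← ha] at h3
  rw [← hq, ← ha] at h2
  rw [← hS, ← hq, ← ha]
  by_contra hc
  rw [not_le, lt_min_iff] at hc
  have h4 : a * (q * a) ≤ a * (S * (q + a)) := by
    calc a * (q * a) = q * a ^ 2 := by ring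
      _ ≤ q * (S * N ξ) := Nat.mul_le_mul_left _ h3
      _ = S * (q * N ξ) := by ring
      _ ≤ S * (q * a + a ^ 2) := Nat.mul_le_mul_left _ h2
      _ = _ := by ring
  have h5 := Nat.le_of_mul_le_mul_left h4 (by omega)
  nlinarith [hc.1, hc.2]

theorem bkt [Fintype F] (hI : Irr F) {M : Finset F} (h3 : 3 ≤ M.card) :
    ∃ r r' : F, Ratio M r ∧ Ratio M r' ∧ ∃ ξ : F, (ξ = r ∨ ξ = r + r' ∨ ξ = r * r') ∧
      min (M.card ^ 2) (Fintype.card F) ≤ 2 * (M + ξ • M).card := by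
  by_cases hall : ∀ r, Ratio M r
  · obtain ⟨ξ, hξ⟩ := bkt_avg M
    exact ⟨ξ, ξ, hall ξ, hall ξ, ξ, Or.inl rfl, hξ⟩
  have hex : ∃ r r', Ratio M r ∧ Ratio M r' ∧ ∃ ξ : F, (ξ = r + r' ∨ ξ = r * r') ∧
      ¬ Ratio M ξ := by
    by_contra hn
    have hcl : ∀ r r', Ratio M r → Ratio M r' → Ratio M (r + r') ∧ Ratio M (r * r') :=
      fun r r' a1 a2 => ⟨by_contra fun a3 => hn ⟨r, r', a1, a2, _, Or.inl rfl, a3⟩,
        by_contra fun a3 => hn ⟨r, r', a1, a2, _, Or.inr rfl, a3⟩⟩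
    obtain ⟨x, y, z, hx, hy, hz, hxy, hxz, hyz⟩ := two_lt_card_iff.1 (show 2 < M.card from h3)
    let H : AddSubgroup F :=
      { carrier := {r | Ratio M r}
        add_mem' := fun {a b} ha hb => (hcl a b ha hb).1
        zero_mem' := ⟨x, hx, x, hx, y, hy, z, hz, hyz, by simp⟩
        neg_mem' := by
          rintro r ⟨a, ha, b, hb, c, hc, d, hd, e, rfl⟩
          exact ⟨b, hb, a, ha, c, hc, d, hd, e, by ring⟩ }
    have ht : Ratio M ((x - z) / (y - z)) := ⟨x, hx, z, hz, y, hy, z, hz, hyz, rfl⟩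
    have yz := sub_ne_zero.2 hyz
    have t0 : (x - z) / (y - z) ≠ 0 := div_ne_zero (sub_ne_zero.2 hxz) yz
    have t1 : (x - z) / (y - z) ≠ 1 := fun e => hxy (by
      rw [div_eq_one_iff_eq yz] at e
      linear_combination e)
    rcases hI H _ t0 t1 (fun a ha => (hcl _ a ht ha).2) with e | e
    · exact t0 (AddSubgroup.mem_bot.1 (e ▸ (show (x - z) / (y - z) ∈ H from ht)))
    · exact hall fun r => (show r ∈ H from e ▸ AddSubgroup.mem_top r)
  obtain ⟨r, r', a1, a2, ξ, a3, a4⟩ := hex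
  refine ⟨r, r', a1, a2, ξ, Or.inr a3, (min_le_left _ _).trans ?_⟩
  have h1 : (M ×ˢ M).card ≤ (M + ξ • M).card := by
    refine card_le_card_of_injOn (fun p => p.1 + ξ * p.2)
      (fun p hp => mem_coe.2 (bkt_mem (mem_coe.1 hp))) fun p hp p' hp' e => ?_
    have e : p.1 + ξ * p.2 = p'.1 + ξ * p'.2 := e
    obtain ⟨b1, b2⟩ := mem_product.1 (mem_coe.1 hp)
    obtain ⟨b3, b4⟩ := mem_product.1 (mem_coe.1 hp')
    have e2 : p'.2 = p.2 := by
      by_contra e3
      refine a4 ⟨_, b1, _, b3, _, b4, _, b2, e3, ?_⟩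
      rw [eq_div_iff (sub_ne_zero.2 e3)]
      linear_combination -e
    rw [e2] at e
    exact Prod.ext (add_right_cancel e) e2.symm
  rw [card_product, ← sq] at h1
  omega

theorem bkt_rounds (K : ℕ) : ∃ K' : ℕ, ∀ (F : Type) [Field F] [DecidableEq F] (C M : Finset F),
    C.Nonempty → Good K C 1 → (∀ m ∈ M, Good K C m) → ∀ r r' ξ : F, Ratio M r → Ratio M r' →
      (ξ = r ∨ ξ = r + r' ∨ ξ = r * r') → ∀ v ∈ M + ξ • M, Good K' C v := by
  obtain ⟨K1, e1⟩ : ∃ K1, K1 = K ^ 11 := ⟨_, rfl⟩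
  obtain ⟨K2, e2⟩ : ∃ K2, K2 = K1 ^ 11 := ⟨_, rfl⟩
  obtain ⟨K3, e3⟩ : ∃ K3, K3 = K2 ^ 11 := ⟨_, rfl⟩
  obtain ⟨K4, e4⟩ : ∃ K4, K4 = K3 ^ 11 := ⟨_, rfl⟩
  have l1 : K ≤ K1 := e1 ▸ Nat.le_self_pow (by norm_num) _
  have l2 : K1 ≤ K2 := e2 ▸ Nat.le_self_pow (by norm_num) _
  have l3 : K2 ≤ K3 := e3 ▸ Nat.le_self_pow (by norm_num) _
  have l4 : K3 ≤ K4 := e4 ▸ Nat.le_self_pow (by norm_num) _
  refine ⟨K4 ^ 11, fun F _ _ C M hC h1 hM r r' ξ hr hr' hξ v hv => ?_⟩
  have g2 : ∀ r, Ratio M r → Good K2 C r := by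
    rintro r ⟨x, hx, y, hy, z, hz, w, hw, -, rfl⟩
    have a1 := (good_ops hC h1 (hM x hx) (hM y hy)).2.1
    have a2 := (good_ops hC h1 (hM z hz) (hM w hw)).2.1
    rw [← e1] at a1 a2
    exact e2 ▸ (good_ops hC (h1.mono l1) a1 a2).2.2.2
  have g3 : Good K3 C ξ := by
    have a1 := good_ops hC (h1.mono (l1.trans l2)) (g2 r hr) (g2 r' hr')
    rw [← e3] at a1
    rcases hξ with rfl | rfl | rfl
    · exact (g2 _ hr).mono l3
    · exact a1.1
    · exact a1.2.2.1
  obtain ⟨x, hx, _, hy, rfl⟩ := mem_add.1 hv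
  obtain ⟨y, hy', rfl⟩ := mem_smul_finset.1 hy
  have l13 : K ≤ K3 := l1.trans (l2.trans l3)
  have g4 := (good_ops hC (h1.mono l13) g3 ((hM y hy').mono l13)).2.2.1
  rw [← e4] at g4
  exact (good_ops hC (h1.mono (l13.trans l4)) ((hM x hx).mono (l13.trans l4)) g4).1

theorem spEnd (K : ℕ) : ∃ k0 N : ℕ, ∀ (F : Type) [Field F] [Fintype F] [DecidableEq F],
    Irr F → ∀ (C M : Finset F), Good K C 1 → (∀ m ∈ M, Good K C m) → C.card ≤ K * M.card →
      k0 ≤ C.card → Fintype.card F ≤ N * C.card := by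
  obtain ⟨K', hK'⟩ := bkt_rounds K
  refine ⟨4 * K' * K ^ 2 + 2 * K' + 3 * K + 1, 4 * K', fun F _ _ _ hI C M h1 hM hc hk => ?_⟩
  have hC : C.Nonempty := card_pos.1 (by omega)
  have h3 : 3 ≤ M.card := by
    by_contra h4
    have := Nat.mul_le_mul_left K (show M.card ≤ 3 by omega)
    omega
  obtain ⟨r, r', a1, a2, ξ, a3, a4⟩ := bkt hI h3
  have a5 := good_count hC (by omega) _ (hK' F C M hC h1 hM r r' ξ a1 a2 a3)
  have a6 : min (M.card ^ 2) (Fintype.card F) ≤ 4 * K' * C.card :=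
    a4.trans ((Nat.mul_le_mul_left 2 a5).trans (le_of_eq (by ring)))
  rcases min_le_iff.1 a6 with a7 | a7
  · exfalso
    have b1 : C.card * C.card ≤ (4 * K' * K ^ 2) * C.card := by
      calc C.card * C.card ≤ (K * M.card) * (K * M.card) := Nat.mul_le_mul hc hc
        _ = K ^ 2 * M.card ^ 2 := by ring
        _ ≤ K ^ 2 * (4 * K' * C.card) := Nat.mul_le_mul_left _ a7
        _ = _ := by ring
    have b2 := Nat.le_of_mul_le_mul_right b1 (card_pos.2 hC)
    omega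
  · exact a7

end Pool.Agent.P.MP_862e21_al
end

-- part Pool.Agent.P.MP_862e21_al.Cover
section

namespace Pool.Agent.P.MP_862e21_al

open Finset Pointwise

variable {F : Type*} [Field F] [DecidableEq F]

variable [Fintype F]

theorem cover_three {l : F} {B C D : Finset F} {u : ℕ} (h : Trio l B C D)
    (hu : Fintype.card F = B.card + C.card + D.card + u) (h3 : B.card + u ≤ 2 * C.card) {s : F}
    (hs : s ∈ Lam l) : (((1 - s) / s) • B + C).card ≤ 3 * C.card := by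
  have h1 := h.comb_le hu hs
  rw [card_comb (lam_ne_zero h.l0 h.l1 hs)] at h1
  omega

theorem trio_sub {l : F} {B C D : Finset F} {u L : ℕ} (h : Trio l B C D)
    (hu : Fintype.card F = B.card + C.card + D.card + u) (hB : B.Nonempty)
    (h3 : B.card + u ≤ 2 * C.card) (hL : C.card ≤ L * B.card) :
    (C - C).card ≤ 9 * L * C.card := by
  have h0 : (1 - l) / l ≠ 0 := div_ne_zero (sub_ne_zero.2 h.l1.symm) h.l0
  have h1 := cover_three h hu h3 (self_mem_Lam l)
  have h2 := ruzsa_triangle_inequality_sub_add_add C (((1 - l) / l) • B) C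
  rw [card_smul_finset₀ h0, add_comm C] at h2
  refine Nat.le_of_mul_le_mul_right ?_ hB.card_pos
  calc _ ≤ (3 * C.card) * (3 * C.card) := h2.trans (Nat.mul_le_mul h1 h1)
    _ ≤ (3 * C.card) * (3 * (L * B.card)) :=
        Nat.mul_le_mul_left _ (Nat.mul_le_mul_left _ hL)
    _ = 9 * L * C.card * B.card := by ring

theorem trio_cover {l : F} {B C D : Finset F} {u : ℕ} (h : Trio l B C D)
    (hu : Fintype.card F = B.card + C.card + D.card + u) (hC : C.Nonempty)
    (h3 : B.card + u ≤ 2 * C.card) :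
    ∃ T : Finset F, T.card ≤ 9 ∧ B ⊆ T + ((C + C) - (C + C)) := by
  have h0 := h.l0
  have h1 : 1 - l ≠ 0 := sub_ne_zero.2 h.l1.symm
  have a1 := cover_three h hu h3 (s := (1 - l)⁻¹) (by simp [mem_Lam])
  have a2 := cover_three h hu h3 (s := l⁻¹) (by simp [mem_Lam])
  rw [show (1 - (1 - l)⁻¹) / (1 - l)⁻¹ = -l by field_simp; ring] at a1
  rw [show (1 - l⁻¹) / l⁻¹ = l - 1 by field_simp] at a2
  obtain ⟨T1, -, c1, s1⟩ := ruzsa_covering_add (K := 3) (A := (-l) • B) hC (by exact_mod_cast a1)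
  obtain ⟨T2, -, c2, s2⟩ := ruzsa_covering_add (K := 3) (A := (l - 1) • B) hC
    (by exact_mod_cast a2)
  have d1 : T1.card ≤ 3 := by exact_mod_cast c1
  have d2 : T2.card ≤ 3 := by exact_mod_cast c2
  refine ⟨image₂ (fun a b => -a - b) T1 T2,
    (card_image₂_le _ _ _).trans (Nat.mul_le_mul d1 d2), fun β hβ => ?_⟩
  obtain ⟨t1, ht1, _, hx, e1⟩ := mem_add.1 (s1 (smul_mem_smul_finset hβ))
  obtain ⟨x1, hx1, x2, hx2, rfl⟩ := mem_sub.1 hx
  obtain ⟨t2, ht2, _, hy, e2⟩ := mem_add.1 (s2 (smul_mem_smul_finset hβ))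
  obtain ⟨y1, hy1, y2, hy2, rfl⟩ := mem_sub.1 hy
  rw [smul_eq_mul] at e1 e2
  refine mem_add.2 ⟨_, mem_image₂_of_mem ht1 ht2, _,
    sub_mem_sub (add_mem_add hx2 hy2) (add_mem_add hx1 hy1), ?_⟩
  linear_combination -e1 - e2

theorem trio_add {l : F} {B C D : Finset F} {u L : ℕ} (h : Trio l B C D)
    (hu : Fintype.card F = B.card + C.card + D.card + u) (hB : B.Nonempty) (hC : C.Nonempty)
    (h3 : B.card + u ≤ 2 * C.card) (hL : C.card ≤ L * B.card) :
    (B + C).card ≤ 9 * (9 * L) ^ 5 * C.card := by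
  obtain ⟨T, hT, hs⟩ := trio_cover h hu hC h3
  have h1 := trio_sub h hu hB h3 hL
  have h2 : B + C ⊆ T + (3 • C - 2 • C) := by
    intro w hw
    obtain ⟨β, hβ, z, hz, rfl⟩ := mem_add.1 hw
    obtain ⟨t, ht, _, hx, rfl⟩ := mem_add.1 (hs hβ)
    obtain ⟨x, hx1, y, hy, rfl⟩ := mem_sub.1 hx
    rw [three'_nsmul, two_nsmul]
    exact mem_add.2 ⟨t, ht, _, sub_mem_sub (add_mem_add hx1 hz) hy, by ring⟩
  have h4 : (3 • C - 2 • C).card ≤ (9 * L) ^ 5 * C.card := by
    have h5 := pluennecke_ruzsa_inequality_nsmul_sub_nsmul_sub hC C 3 2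
    have hc : (0 : ℚ≥0) < C.card := by exact_mod_cast hC.card_pos
    have h6 : ((C - C).card / C.card : ℚ≥0) ≤ 9 * L := by
      rw [div_le_iff₀ hc]
      exact_mod_cast h1
    have h7 : ((3 • C - 2 • C).card : ℚ≥0) ≤ (9 * L) ^ 5 * C.card :=
      h5.trans (mul_le_mul_left (pow_le_pow_left₀ zero_le h6 _) _)
    exact_mod_cast h7
  calc _ ≤ T.card * (3 • C - 2 • C).card := (card_le_card h2).trans card_add_le
    _ ≤ 9 * ((9 * L) ^ 5 * C.card) := Nat.mul_le_mul hT h4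
    _ = _ := by ring

theorem energy_low {B C : Finset F} {K : ℕ} (hC : C.Nonempty) (h : (B + C).card ≤ K * C.card) :
    B.card ^ 2 * C.card ≤
      K * ((B ×ˢ B ×ˢ C).filter (fun p => p.2.2 + p.1 - p.2.1 ∈ C)).card := by
  have h1 := le_card_add_mul_addEnergy B C
  have h2 : addEnergy B C ≤
      ((B ×ˢ B ×ˢ C).filter (fun p => p.2.2 + p.1 - p.2.1 ∈ C)).card := by
    unfold addEnergy
    refine card_le_card_of_injOn (fun x => (x.1.1, x.1.2, x.2.1)) (fun x hx => ?_)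
      fun x hx y hy e => ?_
    · simp only [coe_filter, mem_product, Set.mem_ofPred_eq] at hx ⊢
      refine ⟨⟨hx.1.1.1, hx.1.1.2, hx.1.2.1⟩, ?_⟩
      rw [show x.2.1 + x.1.1 - x.1.2 = x.2.2 by linear_combination hx.2]
      exact hx.1.2.2
    · simp only [coe_filter, mem_product, Set.mem_ofPred_eq, Prod.mk.injEq] at hx hy e
      refine Prod.ext (Prod.ext e.1 e.2.1) (Prod.ext e.2.2 ?_)
      linear_combination hy.2 - hx.2 + e.1 - e.2.1 + e.2.2
  refine Nat.le_of_mul_le_mul_right ?_ hC.card_pos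
  calc _ = B.card ^ 2 * C.card ^ 2 := by ring
    _ ≤ K * C.card * _ := h1.trans (Nat.mul_le_mul h h2)
    _ = _ := by ring

theorem two_sets {ι Ω : Type*} [DecidableEq Ω] (A : Finset ι) (U : Finset Ω) (G : ι → Finset Ω)
    {K : ℕ} (hK : 1 ≤ K) (hG : ∀ x ∈ A, G x ⊆ U) (hd : ∀ x ∈ A, U.card ≤ K * (G x).card)
    (hA : 2 * K ≤ A.card) :
    ∃ x ∈ A, ∃ x' ∈ A, x ≠ x' ∧ U.card ≤ 2 * K ^ 2 * (G x ∩ G x').card := by
  classical
  by_contra hcon
  push Not at hcon
  obtain ⟨x0, hx0, x1, hx1, hne⟩ := one_lt_card.1 (show 1 < A.card by omega)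
  have hN : 0 < U.card := lt_of_le_of_lt (Nat.zero_le _) (hcon x0 hx0 x1 hx1 hne)
  obtain ⟨m, hm⟩ : ∃ m, A.card = m + 1 := ⟨A.card - 1, by omega⟩
  let f : ι → Ω → ℕ := fun x w => if w ∈ G x then 1 else 0
  have e1 : ∀ x ∈ A, (G x).card = ∑ w ∈ U, f x w := by
    intro x hx
    rw [← card_filter, filter_mem_eq_inter, inter_eq_right.2 (hG x hx)]
  have e2 : ∀ x ∈ A, ∀ y, (G x ∩ G y).card = ∑ w ∈ U, f x w * f y w := by
    intro x hx y
    have : ∀ w, f x w * f y w = if w ∈ G x ∩ G y then 1 else 0 := by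
      intro w
      by_cases a : w ∈ G x <;> by_cases b : w ∈ G y <;> simp [f, a, b]
    simp only [this]
    rw [← card_filter, filter_mem_eq_inter,
      inter_eq_right.2 (inter_subset_left.trans (hG x hx))]
  have a1 : (∑ x ∈ A, (G x).card) ^ 2 ≤ U.card * ∑ x ∈ A, ∑ y ∈ A, (G x ∩ G y).card := by
    have b1 : ∑ x ∈ A, (G x).card = ∑ w ∈ U, ∑ x ∈ A, f x w := by
      rw [sum_congr rfl e1, sum_comm]
    have b2 : ∑ x ∈ A, ∑ y ∈ A, (G x ∩ G y).card = ∑ w ∈ U, (∑ x ∈ A, f x w) ^ 2 := by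
      rw [sum_congr rfl fun x hx => sum_congr rfl fun y _ => e2 x hx y,
        sum_congr rfl fun x _ => sum_comm, sum_comm]
      exact sum_congr rfl fun w _ => by rw [sq, sum_mul_sum]
    rw [b1, b2]
    exact sq_sum_le_card_mul_sum_sq
  have a2 : 2 * K ^ 2 * ∑ x ∈ A, ∑ y ∈ A, (G x ∩ G y).card ≤
      2 * K ^ 2 * ∑ x ∈ A, (G x).card + (m + 1) * (m * U.card) := by
    rw [mul_sum, mul_sum, ← hm, ← smul_eq_mul A.card, ← sum_const, ← sum_add_distrib]
    refine sum_le_sum fun x hx => ?_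
    rw [← add_sum_erase _ _ hx, inter_self, mul_add, mul_sum]
    refine Nat.add_le_add_left ((sum_le_card_nsmul _ _ U.card fun y hy =>
      (hcon x hx y (mem_of_mem_erase hy) (ne_of_mem_erase hy).symm).le).trans ?_) _
    rw [card_erase_of_mem hx, hm, smul_eq_mul, Nat.add_sub_cancel]
  have a3 : (m + 1) * U.card ≤ K * ∑ x ∈ A, (G x).card := by
    rw [mul_sum, ← hm, ← smul_eq_mul A.card]
    exact card_nsmul_le_sum _ _ _ hd
  generalize ∑ x ∈ A, ∑ y ∈ A, (G x ∩ G y).card = Q at a1 a2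
  generalize ∑ x ∈ A, (G x).card = S at a1 a2 a3
  generalize U.card = N at a1 a2 a3 hN
  rw [hm] at hA
  have a4 : 2 * N ≤ S := by
    refine Nat.le_of_mul_le_mul_left ?_ (show 0 < K by omega)
    calc K * (2 * N) = 2 * K * N := by ring
      _ ≤ (m + 1) * N := Nat.mul_le_mul_right _ hA
      _ ≤ _ := a3
  have a5 : 2 * K ^ 2 * S ^ 2 ≤ N * (2 * K ^ 2 * S + (m + 1) * (m * N)) :=
    calc _ ≤ 2 * K ^ 2 * (N * Q) := Nat.mul_le_mul_left _ a1
      _ = N * (2 * K ^ 2 * Q) := by ring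
      _ ≤ _ := Nat.mul_le_mul_left _ a2
  have a6 : K ^ 2 * S * (2 * N) ≤ K ^ 2 * S * S := Nat.mul_le_mul_left _ a4
  have a7 : ((m + 1) * N) * ((m + 1) * N) ≤ (K * S) * (K * S) := Nat.mul_le_mul a3 a3
  have a8 : 0 < (m + 1) * (N * N) := by positivity
  nlinarith

theorem popular {B C : Finset F} (G : Finset (F × F × F)) (hG : G ⊆ B ×ˢ B ×ˢ C) {K : ℕ}
    (hB : B.Nonempty) (hC : C.Nonempty) (h : B.card ^ 2 * C.card ≤ K * G.card) :
    ∃ β0 ∈ B, ∃ B' ⊆ B, B.card ≤ 2 * K * B'.card ∧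
      ∀ β ∈ B', C.card ≤ 2 * K * (C.filter (fun z => (β, β0, z) ∈ G)).card := by
  have e1 : G.card = ∑ β0 ∈ B, ∑ β ∈ B, (C.filter (fun z => (β, β0, z) ∈ G)).card := by
    have : G = (B ×ˢ B ×ˢ C).filter (fun p => p ∈ G) := by
      rw [filter_mem_eq_inter, inter_eq_right.2 hG]
    conv_lhs => rw [this, card_filter, sum_product]
    refine Eq.trans (sum_congr rfl fun β _ => ?_) sum_comm
    rw [sum_product]
    exact sum_congr rfl fun β0 _ => (card_filter _ _).symm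
  obtain ⟨β0, h0, h1⟩ := exists_le_of_sum_le (s := B) (f := fun _ => B.card * C.card)
    (g := fun β0 => K * ∑ β ∈ B, (C.filter (fun z => (β, β0, z) ∈ G)).card) hB (by
      rw [sum_const, ← mul_sum, ← e1, smul_eq_mul, ← mul_assoc, ← sq]
      exact h)
  refine ⟨β0, h0, B.filter (fun β => C.card ≤ 2 * K * (C.filter (fun z => (β, β0, z) ∈ G)).card),
    filter_subset _ _, ?_, fun β hβ => (mem_filter.1 hβ).2⟩
  refine Nat.le_of_mul_le_mul_right ?_ hC.card_pos
  have h2 : ∑ β ∈ B, 2 * K * (C.filter (fun z => (β, β0, z) ∈ G)).card ≤ ∑ β ∈ B, (C.card +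
      if C.card ≤ 2 * K * (C.filter (fun z => (β, β0, z) ∈ G)).card then 2 * K * C.card
        else 0) := by
    refine sum_le_sum fun β _ => ?_
    split_ifs with hh
    · exact (Nat.mul_le_mul_left _ (card_filter_le _ _)).trans (Nat.le_add_left _ _)
    · omega
  rw [sum_add_distrib, ← sum_filter, sum_const, sum_const, smul_eq_mul, smul_eq_mul,
    ← mul_sum] at h2
  nlinarith

end Pool.Agent.P.MP_862e21_al
end

-- part Pool.Agent.P.MP_862e21_al.Pop
section

namespace Pool.Agent.P.MP_862e21_al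

open Finset Pointwise

variable {F : Type*} [Field F] [DecidableEq F]

theorem chart_change {x z z' β β0 : F} (h1 : z ≠ x) (h2 : z' ≠ x) (h3 : β ≠ x) (h4 : β0 ≠ x)
    (h5 : z ≠ β0) (h6 : z' ≠ β) (h : (z - x)⁻¹ + (β - x)⁻¹ - (β0 - x)⁻¹ = (z' - x)⁻¹) :
    (z - β0)⁻¹ = ((β - x) / (β0 - x) ^ 2 - (β0 - x)⁻¹) + ((β - x) / (β0 - x)) ^ 2 * (z' - β)⁻¹ := by
  have e1 : z - β0 = (z - x) - (β0 - x) := by ring
  have e2 : z' - β = (z' - x) - (β - x) := by ring
  have a1 : z - x ≠ 0 := sub_ne_zero.mpr h1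
  have a2 : z' - x ≠ 0 := sub_ne_zero.mpr h2
  have a3 : β - x ≠ 0 := sub_ne_zero.mpr h3
  have a4 : β0 - x ≠ 0 := sub_ne_zero.mpr h4
  have a5 : (z - x) - (β0 - x) ≠ 0 := by rw [← e1]; exact sub_ne_zero.mpr h5
  have a6 : (z' - x) - (β - x) ≠ 0 := by rw [← e2]; exact sub_ne_zero.mpr h6
  rw [e1, e2]
  generalize z - x = p at *
  generalize z' - x = q at *
  generalize β - x = r at *
  generalize β0 - x = s at *
  have h' : q * r * s + p * q * s - p * q * r = p * r * s := by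
    have := congrArg (fun t => t * (p * q * r * s)) h
    field_simp at this
    linear_combination this
  field_simp
  linear_combination h'

/-- the popular triples seen from the point x -/
def Gx (B C : Finset F) (x : F) : Finset (F × F × F) :=
  (B ×ˢ B ×ˢ C).filter (fun p => (p.2.2 - x)⁻¹ + (p.1 - x)⁻¹ - (p.2.1 - x)⁻¹ ∈ ch x C)

theorem ch_nonempty (x : F) {S : Finset F} (h : S.Nonempty) : (ch x S).Nonempty := h.image _

theorem Gx_big [Fintype F] {l : F} {A B C : Finset F} {L : ℕ} (h : Cl l A B C)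
    (ab : A.card ≤ B.card) (bc : B.card ≤ C.card) (hL : C.card ≤ L * A.card) {x : F}
    (hx : x ∈ A) : B.card ^ 2 * C.card ≤ 9 * (9 * L) ^ 5 * (Gx B C x).card := by
  obtain ⟨D, hT, hu⟩ := h.chart hx
  have h1 := trio_add (u := A.card - 1) (L := L) hT (by rw [card_ch, card_ch]; exact hu)
    (ch_nonempty x h.nB) (ch_nonempty x h.nC) (by rw [card_ch, card_ch]; omega)
    (by rw [card_ch, card_ch]; exact hL.trans (Nat.mul_le_mul_left _ ab))
  have h2 := energy_low (ch_nonempty x h.nC) h1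
  rw [card_ch, card_ch] at h2
  refine h2.trans (Nat.mul_le_mul_left _ ?_)
  refine le_trans (card_le_card ?_) (card_image_le (s := Gx B C x)
    (f := fun p => ((p.1 - x)⁻¹, (p.2.1 - x)⁻¹, (p.2.2 - x)⁻¹)))
  rintro ⟨p1, p2, p3⟩ hp
  simp only [mem_filter, mem_product] at hp
  obtain ⟨⟨q1, q2, q3⟩, q4⟩ := hp
  obtain ⟨y1, hy1, rfl⟩ := mem_ch.mp q1
  obtain ⟨y2, hy2, rfl⟩ := mem_ch.mp q2
  obtain ⟨y3, hy3, rfl⟩ := mem_ch.mp q3
  refine mem_image.mpr ⟨(y1, y2, y3), ?_, rfl⟩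
  simp only [Gx, mem_filter, mem_product]
  exact ⟨⟨hy1, hy2, hy3⟩, q4⟩

theorem ch_sub_le [Fintype F] {l : F} {A B C : Finset F} {L : ℕ} (h : Cl l A B C)
    (ab : A.card ≤ B.card) (bc : B.card ≤ C.card) (hL : C.card ≤ L * A.card) {β : F}
    (hβ : β ∈ B) : (ch β C - ch β C).card ≤ 9 * L * (ch β C).card := by
  obtain ⟨D, hT, hu⟩ := h.swap12.chart hβ
  exact trio_sub (u := B.card - 1) (L := L) hT (by rw [card_ch, card_ch]; exact hu)
    (ch_nonempty β h.nA) (by rw [card_ch, card_ch]; omega) (by rw [card_ch, card_ch]; exact hL)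

theorem Gx_rep {l : F} {A B C : Finset F} (h : Cl l A B C) {x β β0 z : F} (hx : x ∈ A)
    (hz : (β, β0, z) ∈ Gx B C x) :
    ∃ w ∈ ch β C, (z - β0)⁻¹ =
      ((β - x) / (β0 - x) ^ 2 - (β0 - x)⁻¹) + ((β - x) / (β0 - x)) ^ 2 * w := by
  simp only [Gx, mem_filter, mem_product] at hz
  obtain ⟨⟨q1, q2, q3⟩, q4⟩ := hz
  obtain ⟨z', hz', e⟩ := mem_ch.mp q4
  refine ⟨(z' - β)⁻¹, mem_ch.mpr ⟨z', hz', rfl⟩, chart_change ?_ ?_ ?_ ?_ ?_ ?_ e.symm⟩
  · exact fun e => disjoint_left.mp h.dAC hx (e ▸ q3)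
  · exact fun e => disjoint_left.mp h.dAC hx (e ▸ hz')
  · exact fun e => disjoint_left.mp h.dAB hx (e ▸ q1)
  · exact fun e => disjoint_left.mp h.dAB hx (e ▸ q2)
  · exact fun e => disjoint_left.mp h.dBC q2 (e ▸ q3)
  · exact fun e => disjoint_left.mp h.dBC q1 (e ▸ hz')

theorem two_to_one {B : Finset F} {x0 x1 β0 : F} (hne : x0 ≠ x1) (h0 : ∀ β ∈ B, β ≠ x0)
    (h1 : ∀ β ∈ B, β ≠ x1) (g0 : β0 ≠ x0) (g1 : β0 ≠ x1) :
    B.card ≤ 2 * (B.image
      (fun β => ((β - x0) / (β0 - x0)) ^ 2 / ((β - x1) / (β0 - x1)) ^ 2)).card := by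
  apply card_le_mul_card_image
  intro m hm
  obtain ⟨b, hb, rfl⟩ := mem_image.mp hm
  have c0 : β0 - x0 ≠ 0 := sub_ne_zero.mpr g0
  have c1 : β0 - x1 ≠ 0 := sub_ne_zero.mpr g1
  have c2 : x0 - x1 ≠ 0 := sub_ne_zero.mpr hne
  refine le_trans (card_le_card_of_injOn (t := {(b - x0) / (b - x1), -((b - x0) / (b - x1))})
    (fun β => (β - x0) / (β - x1)) ?_ ?_) (card_le_two)
  · intro β hβ
    obtain ⟨hβ1, hβ2⟩ := mem_filter.mp (mem_coe.mp hβ)
    have d0 : β - x0 ≠ 0 := sub_ne_zero.mpr (h0 β hβ1)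
    have d1 : β - x1 ≠ 0 := sub_ne_zero.mpr (h1 β hβ1)
    have d2 : b - x0 ≠ 0 := sub_ne_zero.mpr (h0 b hb)
    have d3 : b - x1 ≠ 0 := sub_ne_zero.mpr (h1 b hb)
    have e : ((β - x0) / (β - x1)) ^ 2 = ((b - x0) / (b - x1)) ^ 2 := by
      have k : ∀ t : F, t - x1 ≠ 0 → ((t - x0) / (t - x1)) ^ 2 =
          ((t - x0) / (β0 - x0)) ^ 2 / ((t - x1) / (β0 - x1)) ^ 2 *
            ((β0 - x0) / (β0 - x1)) ^ 2 := by
        intro t ht
        field_simp
      rw [k β d1, k b d3, hβ2]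
    simp only [coe_insert, coe_singleton, Set.mem_insert_iff, Set.mem_singleton_iff]
    exact sq_eq_sq_iff_eq_or_eq_neg.mp e
  · intro β hβ β' hβ' e
    have d1 : β - x1 ≠ 0 := sub_ne_zero.mpr (h1 β (mem_filter.mp (mem_coe.mp hβ)).1)
    have d3 : β' - x1 ≠ 0 := sub_ne_zero.mpr (h1 β' (mem_filter.mp (mem_coe.mp hβ')).1)
    simp only at e
    rw [div_eq_div_iff d1 d3] at e
    have : (x0 - x1) * (β - β') = 0 := by linear_combination e
    rcases mul_eq_zero.mp this with k | k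
    · exact absurd k c2
    · exact sub_eq_zero.mp k

theorem spPop (L : ℕ) : ∃ K k0 : ℕ, ∀ (F : Type) [Field F] [Fintype F] [DecidableEq F],
    ∀ (l : F) (A B C : Finset F), Cl l A B C → A.card ≤ B.card → B.card ≤ C.card →
      C.card ≤ L * A.card → k0 ≤ A.card →
      ∃ C' M : Finset F, C'.card = C.card ∧ Good K C' 1 ∧ (∀ m ∈ M, Good K C' m) ∧
        C'.card ≤ K * M.card := by
  set K1 := 9 * (9 * L) ^ 5 with hK1
  set K2 := 2 * K1 ^ 2 with hK2
  refine ⟨9 * L + (2 * K2 * (9 * L) ^ 2) ^ 2 + 4 * K2 * L, 2 * K1, ?_⟩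
  intro F _ _ _ l A B C h ab bc hL hk
  have hc := card_pos.mpr h.nC
  have hL1 : 1 ≤ L := by
    rcases Nat.eq_zero_or_pos L with e | e
    · rw [e] at hL; omega
    · exact e
  have hK : 1 ≤ K1 := by
    have : 0 < 9 * (9 * L) ^ 5 := by positivity
    omega
  have hU : (B ×ˢ B ×ˢ C).card = B.card ^ 2 * C.card := by
    rw [card_product, card_product]; ring
  obtain ⟨x0, hx0, x1, hx1, hne, h2⟩ := two_sets A (B ×ˢ B ×ˢ C) (Gx B C) hK
    (fun x _ => filter_subset _ _) (fun x hx => by rw [hU]; exact Gx_big h ab bc hL hx) hk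
  rw [hU] at h2
  obtain ⟨β0, hβ0, B', hB', h3, h4⟩ := popular (Gx B C x0 ∩ Gx B C x1)
    (inter_subset_left.trans (filter_subset _ _)) (K := K2) h.nB h.nC h2
  have n0 : ∀ β ∈ B, β ≠ x0 := fun β hβ e => disjoint_left.mp h.dAB hx0 (e ▸ hβ)
  have n1 : ∀ β ∈ B, β ≠ x1 := fun β hβ e => disjoint_left.mp h.dAB hx1 (e ▸ hβ)
  refine ⟨ch β0 C, B'.image
    (fun β => ((β - x0) / (β0 - x0)) ^ 2 / ((β - x1) / (β0 - x1)) ^ 2), card_ch _ _, ?_, ?_, ?_⟩
  · have : Good (9 * L) (ch β0 C) 1 := by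
      unfold Good
      rw [one_smul]
      exact ch_sub_le h ab bc hL hβ0
    exact this.mono (by omega)
  · intro m hm
    obtain ⟨β, hβ, rfl⟩ := mem_image.mp hm
    have hβB := hB' hβ
    have := good_of_overlap (C0 := ch β0 C) (C1 := ch β C)
      (Z := ch β0 (C.filter (fun z => (β, β0, z) ∈ Gx B C x0 ∩ Gx B C x1)))
      (K0 := 9 * L) (K1 := 2 * K2)
      (m0 := ((β - x0) / (β0 - x0)) ^ 2) (m1 := ((β - x1) / (β0 - x1)) ^ 2)
      (κ0 := (β - x0) / (β0 - x0) ^ 2 - (β0 - x0)⁻¹)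
      (κ1 := (β - x1) / (β0 - x1) ^ 2 - (β0 - x1)⁻¹)
      (pow_ne_zero _ (div_ne_zero (sub_ne_zero.mpr (n0 β hβB)) (sub_ne_zero.mpr (n0 β0 hβ0))))
      (pow_ne_zero _ (div_ne_zero (sub_ne_zero.mpr (n1 β hβB)) (sub_ne_zero.mpr (n1 β0 hβ0))))
      (ch_nonempty β0 h.nC) (by rw [card_ch, card_ch]) (ch_sub_le h ab bc hL hβ0)
      (ch_sub_le h ab bc hL hβB) (image_subset_image (filter_subset _ _))
      (by rw [card_ch, card_ch]; exact h4 β hβ)
      (by
        intro v hv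
        obtain ⟨z, hz, rfl⟩ := mem_ch.mp hv
        exact Gx_rep h hx0 (mem_inter.mp (mem_filter.mp hz).2).1)
      (by
        intro v hv
        obtain ⟨z, hz, rfl⟩ := mem_ch.mp hv
        exact Gx_rep h hx1 (mem_inter.mp (mem_filter.mp hz).2).2)
    exact this.mono (by omega)
  · have h5 := two_to_one (B := B') hne (fun β hβ => n0 β (hB' hβ)) (fun β hβ => n1 β (hB' hβ))
      (n0 β0 hβ0) (n1 β0 hβ0)
    rw [card_ch]
    generalize (B'.image
      (fun β => ((β - x0) / (β0 - x0)) ^ 2 / ((β - x1) / (β0 - x1)) ^ 2)).card = M at h5 ⊢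
    calc C.card ≤ L * A.card := hL
      _ ≤ L * B.card := Nat.mul_le_mul_left _ ab
      _ ≤ L * (2 * K2 * B'.card) := Nat.mul_le_mul_left _ h3
      _ ≤ L * (2 * K2 * (2 * M)) := Nat.mul_le_mul_left _ (Nat.mul_le_mul_left _ h5)
      _ = 4 * K2 * L * M := by ring
      _ ≤ _ := Nat.mul_le_mul_right _ (by omega)

theorem sumProd (L : ℕ) : ∃ k0 N : ℕ, ∀ (F : Type) [Field F] [Fintype F] [DecidableEq F],
    Irr F → ∀ (l : F) (A B C : Finset F), Cl l A B C → A.card ≤ B.card → B.card ≤ C.card →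
      C.card ≤ L * A.card → k0 ≤ A.card → Fintype.card F ≤ N * C.card := by
  obtain ⟨K, k1, h1⟩ := spPop L
  obtain ⟨k2, N, h2⟩ := spEnd K
  refine ⟨max k1 k2, N, ?_⟩
  intro F _ _ _ hI l A B C h ab bc hL hk
  obtain ⟨C', M, e, g1, g2, g3⟩ := h1 F l A B C h ab bc hL (le_trans (le_max_left _ _) hk)
  have := h2 F hI C' M g1 g2 g3 (by have := le_max_right k1 k2; omega)
  rwa [e] at this

end Pool.Agent.P.MP_862e21_al
end

-- part Pool.Agent.P.MP_862e21_al.OPop
section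

namespace Pool.Agent.P.MP_862e21_al

open Finset Pointwise

variable {F : Type*} [Field F] [DecidableEq F]

theorem OPop_both (L : ℕ) : ∃ K : ℕ, 1 ≤ K ∧ ∀ (F : Type) [Field F] [Fintype F] [DecidableEq F]
    (c : F) (B C D : Finset F) (u : ℕ), OTrio c B C D →
      Fintype.card F = B.card + C.card + D.card + u → B.Nonempty → C.Nonempty →
      B.card ≤ L * C.card → C.card ≤ L * B.card → u ≤ L * B.card →
      (B + C).card ≤ K * C.card ∧ (C - C).card ≤ K * C.card := by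
  obtain ⟨K, hK⟩ := ocover L
  refine ⟨K ^ 4 + 1, by omega, ?_⟩
  intro F _ _ _ c B C D u h hu hB hC h1 h2 h3
  obtain ⟨H, hA, hc, hH⟩ := hK F c B C D u h hu hB hC h1 h2 h3
  have cB : Cov K H B := hc.subset subset_union_left
  have cC : Cov K H C := hc.subset subset_union_right
  have key : ∀ X : Finset F, Cov (K * K * K) H X → X.card ≤ (K ^ 4 + 1) * C.card := by
    intro X hX
    calc X.card ≤ K * K * K * H.card := hX.card_le
      _ ≤ K * K * K * (K * C.card) := Nat.mul_le_mul_left _ hH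
      _ = K ^ 4 * C.card := by ring
      _ ≤ (K ^ 4 + 1) * C.card := Nat.mul_le_mul_right _ (by omega)
  exact ⟨key _ (Cov.add hA.add cB cC), key _ (Cov.sub hA.neg hA.add cC cC)⟩

theorem OPop_Gx_of_add [Fintype F] {B C : Finset F} {K : ℕ} {x : F} (hC : C.Nonempty)
    (h1 : (ch x B + ch x C).card ≤ K * (ch x C).card) :
    B.card ^ 2 * C.card ≤ K * (Gx B C x).card := by
  have h2 := energy_low (ch_nonempty x hC) h1
  rw [card_ch, card_ch] at h2
  refine h2.trans (Nat.mul_le_mul_left _ ?_)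
  refine le_trans (card_le_card ?_) (card_image_le (s := Gx B C x)
    (f := fun p => ((p.1 - x)⁻¹, (p.2.1 - x)⁻¹, (p.2.2 - x)⁻¹)))
  rintro ⟨p1, p2, p3⟩ hp
  simp only [mem_filter, mem_product] at hp
  obtain ⟨⟨q1, q2, q3⟩, q4⟩ := hp
  obtain ⟨y1, hy1, rfl⟩ := mem_ch.mp q1
  obtain ⟨y2, hy2, rfl⟩ := mem_ch.mp q2
  obtain ⟨y3, hy3, rfl⟩ := mem_ch.mp q3
  refine mem_image.mpr ⟨(y1, y2, y3), ?_, rfl⟩
  simp only [Gx, mem_filter, mem_product]
  exact ⟨⟨hy1, hy2, hy3⟩, q4⟩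

theorem OPop_Gx_rep {l : F} {A B C : Finset F} (h : OCl l A B C) {x β β0 z : F} (hx : x ∈ A)
    (hz : (β, β0, z) ∈ Gx B C x) :
    ∃ w ∈ ch β C, (z - β0)⁻¹ =
      ((β - x) / (β0 - x) ^ 2 - (β0 - x)⁻¹) + ((β - x) / (β0 - x)) ^ 2 * w := by
  simp only [Gx, mem_filter, mem_product] at hz
  obtain ⟨⟨q1, q2, q3⟩, q4⟩ := hz
  obtain ⟨z', hz', e⟩ := mem_ch.mp q4
  refine ⟨(z' - β)⁻¹, mem_ch.mpr ⟨z', hz', rfl⟩, chart_change ?_ ?_ ?_ ?_ ?_ ?_ e.symm⟩
  · exact fun e => disjoint_left.mp h.dAC hx (e ▸ q3)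
  · exact fun e => disjoint_left.mp h.dAC hx (e ▸ hz')
  · exact fun e => disjoint_left.mp h.dAB hx (e ▸ q1)
  · exact fun e => disjoint_left.mp h.dAB hx (e ▸ q2)
  · exact fun e => disjoint_left.mp h.dBC q2 (e ▸ q3)
  · exact fun e => disjoint_left.mp h.dBC q1 (e ▸ hz')

theorem OPop_spPop (L : ℕ) : ∃ K k0 : ℕ, ∀ (F : Type) [Field F] [Fintype F] [DecidableEq F],
    ∀ (l : F) (A B C : Finset F), OCl l A B C → A.card ≤ B.card → B.card ≤ C.card →
      C.card ≤ L * A.card → k0 ≤ A.card →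
      ∃ C' M : Finset F, C'.card = C.card ∧ Good K C' 1 ∧ (∀ m ∈ M, Good K C' m) ∧
        C'.card ≤ K * M.card := by
  obtain ⟨K1, hK, hb⟩ := OPop_both L
  set K2 := 2 * K1 ^ 2 with hK2
  refine ⟨K1 + (2 * K2 * K1 ^ 2) ^ 2 + 4 * K2 * L, 2 * K1, ?_⟩
  intro F _ _ _ l A B C h ab bc hL hk
  have hc := card_pos.mpr h.nC
  have hL1 : 1 ≤ L := by
    rcases Nat.eq_zero_or_pos L with e | e
    · rw [e] at hL; omega
    · exact e
  have a1 : ∀ n : ℕ, n ≤ L * n := fun n => Nat.le_mul_of_pos_left n hL1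
  have hLb : C.card ≤ L * B.card := hL.trans (Nat.mul_le_mul_left _ ab)
  have big : ∀ x ∈ A, B.card ^ 2 * C.card ≤ K1 * (Gx B C x).card := by
    intro x hx
    obtain ⟨D, hT, hu⟩ := h.chart hx
    refine OPop_Gx_of_add h.nC (hb F l _ _ D (A.card - 1) hT (by rw [card_ch, card_ch]; exact hu)
      (ch_nonempty x h.nB) (ch_nonempty x h.nC) ?_ ?_ ?_).1
    · rw [card_ch, card_ch]; exact bc.trans (a1 _)
    · rw [card_ch, card_ch]; exact hLb
    · rw [card_ch]; have := a1 B.card; omega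
  have sub : ∀ β ∈ B, (ch β C - ch β C).card ≤ K1 * (ch β C).card := by
    intro β hβ
    obtain ⟨D, hT, hu⟩ := h.swap12.chart hβ
    refine (hb F l _ _ D (B.card - 1) hT (by rw [card_ch, card_ch]; exact hu)
      (ch_nonempty β h.nA) (ch_nonempty β h.nC) ?_ ?_ ?_).2
    · rw [card_ch, card_ch]; exact (ab.trans bc).trans (a1 _)
    · rw [card_ch, card_ch]; exact hL
    · rw [card_ch]; omega
  have hU : (B ×ˢ B ×ˢ C).card = B.card ^ 2 * C.card := by
    rw [card_product, card_product]; ring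
  obtain ⟨x0, hx0, x1, hx1, hne, h2⟩ := two_sets A (B ×ˢ B ×ˢ C) (Gx B C) hK
    (fun x _ => filter_subset _ _) (fun x hx => by rw [hU]; exact big x hx) hk
  rw [hU] at h2
  obtain ⟨β0, hβ0, B', hB', h3, h4⟩ := popular (Gx B C x0 ∩ Gx B C x1)
    (inter_subset_left.trans (filter_subset _ _)) (K := K2) h.nB h.nC h2
  have n0 : ∀ β ∈ B, β ≠ x0 := fun β hβ e => disjoint_left.mp h.dAB hx0 (e ▸ hβ)
  have n1 : ∀ β ∈ B, β ≠ x1 := fun β hβ e => disjoint_left.mp h.dAB hx1 (e ▸ hβ)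
  refine ⟨ch β0 C, B'.image
    (fun β => ((β - x0) / (β0 - x0)) ^ 2 / ((β - x1) / (β0 - x1)) ^ 2), card_ch _ _, ?_, ?_, ?_⟩
  · have : Good K1 (ch β0 C) 1 := by
      unfold Good
      rw [one_smul]
      exact sub β0 hβ0
    exact this.mono (by omega)
  · intro m hm
    obtain ⟨β, hβ, rfl⟩ := mem_image.mp hm
    have hβB := hB' hβ
    have := good_of_overlap (C0 := ch β0 C) (C1 := ch β C)
      (Z := ch β0 (C.filter (fun z => (β, β0, z) ∈ Gx B C x0 ∩ Gx B C x1)))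
      (K0 := K1) (K1 := 2 * K2)
      (m0 := ((β - x0) / (β0 - x0)) ^ 2) (m1 := ((β - x1) / (β0 - x1)) ^ 2)
      (κ0 := (β - x0) / (β0 - x0) ^ 2 - (β0 - x0)⁻¹)
      (κ1 := (β - x1) / (β0 - x1) ^ 2 - (β0 - x1)⁻¹)
      (pow_ne_zero _ (div_ne_zero (sub_ne_zero.mpr (n0 β hβB)) (sub_ne_zero.mpr (n0 β0 hβ0))))
      (pow_ne_zero _ (div_ne_zero (sub_ne_zero.mpr (n1 β hβB)) (sub_ne_zero.mpr (n1 β0 hβ0))))
      (ch_nonempty β0 h.nC) (by rw [card_ch, card_ch]) (sub β0 hβ0)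
      (sub β hβB) (image_subset_image (filter_subset _ _))
      (by rw [card_ch, card_ch]; exact h4 β hβ)
      (by
        intro v hv
        obtain ⟨z, hz, rfl⟩ := mem_ch.mp hv
        exact OPop_Gx_rep h hx0 (mem_inter.mp (mem_filter.mp hz).2).1)
      (by
        intro v hv
        obtain ⟨z, hz, rfl⟩ := mem_ch.mp hv
        exact OPop_Gx_rep h hx1 (mem_inter.mp (mem_filter.mp hz).2).2)
    exact this.mono (by omega)
  · have h5 := two_to_one (B := B') hne (fun β hβ => n0 β (hB' hβ)) (fun β hβ => n1 β (hB' hβ))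
      (n0 β0 hβ0) (n1 β0 hβ0)
    rw [card_ch]
    generalize (B'.image
      (fun β => ((β - x0) / (β0 - x0)) ^ 2 / ((β - x1) / (β0 - x1)) ^ 2)).card = M at h5 ⊢
    calc C.card ≤ L * A.card := hL
      _ ≤ L * B.card := Nat.mul_le_mul_left _ ab
      _ ≤ L * (2 * K2 * B'.card) := Nat.mul_le_mul_left _ h3
      _ ≤ L * (2 * K2 * (2 * M)) := Nat.mul_le_mul_left _ (Nat.mul_le_mul_left _ h5)
      _ = 4 * K2 * L * M := by ring
      _ ≤ _ := Nat.mul_le_mul_right _ (by omega)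

theorem osumProd (L : ℕ) : ∃ k0 N : ℕ, ∀ (F : Type) [Field F] [Fintype F] [DecidableEq F],
    Irr F → ∀ (c : F) (A B C : Finset F), OCl c A B C → A.card ≤ B.card → B.card ≤ C.card →
      C.card ≤ L * A.card → k0 ≤ A.card → Fintype.card F ≤ N * C.card := by
  obtain ⟨K, k1, h1⟩ := OPop_spPop L
  obtain ⟨k2, N, h2⟩ := spEnd K
  refine ⟨max k1 k2, N, ?_⟩
  intro F _ _ _ hI l A B C h ab bc hL hk
  obtain ⟨C', M, e, g1, g2, g3⟩ := h1 F l A B C h ab bc hL (le_trans (le_max_left _ _) hk)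
  have := h2 F hI C' M g1 g2 g3 (by have := le_max_right k1 k2; omega)
  rwa [e] at this

end Pool.Agent.P.MP_862e21_al
end

-- part Pool.Agent.P.MP_862e21_al.OKoenig
section

namespace Pool.Agent.P.MP_862e21_al

open Finset Pointwise

variable {F : Type*} [Field F] [DecidableEq F]

section groups

variable {G : Type*} [AddCommGroup G]

theorem nS_zero_mem {H : Set G} (h0 : (0 : G) ∈ H) (m : ℕ) : (0 : G) ∈ nS H m := by
  induction m with
  | zero => exact Set.mem_singleton _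
  | succ m ih => exact ⟨0, ih, 0, h0, add_zero _⟩

theorem nS_mono {H : Set G} (h0 : (0 : G) ∈ H) {m m' : ℕ} (h : m ≤ m') : nS H m ⊆ nS H m' := by
  induction m', h using Nat.le_induction with
  | base => exact subset_rfl
  | succ k _ ih => exact fun x hx => ⟨x, ih hx, 0, h0, add_zero _⟩

theorem nS_one {H : Set G} : nS H 1 = H := by
  ext x
  constructor
  · rintro ⟨a, ha, b, hb, rfl⟩
    have : a = 0 := ha
    simpa [this] using hb
  · intro hx
    exact ⟨0, Set.mem_singleton _, x, hx, zero_add _⟩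

theorem nS_add {H : Set G} {m m' : ℕ} {x y : G} (hx : x ∈ nS H m) (hy : y ∈ nS H m') :
    x + y ∈ nS H (m + m') := by
  induction m' generalizing y with
  | zero =>
    have : y = 0 := hy
    simpa [this] using hx
  | succ k ih =>
    obtain ⟨a, ha, b, hb, rfl⟩ := hy
    exact ⟨x + a, ih ha, b, hb, add_assoc _ _ _⟩

theorem nS_neg {H : Set G} (hn : ∀ h ∈ H, -h ∈ H) {m : ℕ} {x : G} (hx : x ∈ nS H m) :
    -x ∈ nS H m := by
  induction m generalizing x with
  | zero =>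
    have : x = 0 := hx
    rw [this, neg_zero]
    exact Set.mem_singleton _
  | succ k ih =>
    obtain ⟨a, ha, b, hb, rfl⟩ := hx
    exact ⟨-a, ih ha, -b, hn b hb, (neg_add a b).symm⟩

theorem Sm.nS {H : Set G} (h0 : (0 : G) ∈ H) (hadd : Sm H (H + H)) (m : ℕ) : Sm H (nS H m) := by
  classical
  obtain ⟨T0, hT0⟩ := hadd
  induction m with
  | zero =>
    refine ⟨{0}, fun x hx => ⟨0, mem_singleton_self _, ?_⟩⟩
    have : x = 0 := hx
    simpa [this] using h0
  | succ k ih =>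
    obtain ⟨T, hT⟩ := ih
    refine ⟨T + T0, ?_⟩
    rintro _ ⟨a, ha, b, hb, rfl⟩
    obtain ⟨t, ht, h1⟩ := hT a ha
    obtain ⟨t', ht', h2⟩ := hT0 _ ⟨_, h1, b, hb, rfl⟩
    refine ⟨t + t', Finset.add_mem_add ht ht', ?_⟩
    have e : a + b - (t + t') = a - t + b - t' := by abel
    change a + b - (t + t') ∈ H
    rw [e]
    exact h2

theorem okoenig_nsmul {H : Set G} {m : ℕ} {x : G} (hx : x ∈ nS H m) (k : ℕ) :
    k • x ∈ nS H (k * m) := by
  induction k with
  | zero =>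
    rw [zero_smul, zero_mul]
    exact Set.mem_singleton _
  | succ k ih =>
    rw [succ_nsmul, Nat.succ_mul]
    exact nS_add ih hx

theorem okoenig_sum {H : Set G} {ι : Type*} (s : Finset ι) (x : ι → G) (m : ι → ℕ)
    (h : ∀ i ∈ s, x i ∈ nS H (m i)) : ∑ i ∈ s, x i ∈ nS H (∑ i ∈ s, m i) := by
  classical
  induction s using Finset.induction_on with
  | empty => exact Set.mem_singleton _
  | insert a s ha ih =>
    rw [sum_insert ha, sum_insert ha]
    exact nS_add (h a (mem_insert_self _ _)) (ih fun i hi => h i (mem_insert_of_mem hi))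

theorem okoenig_shift (p : G → ℝ) (hadd : ∀ x y, p (x + y) ≤ p x + p y) (h0 : p 0 ≤ 0) (y : G)
    (c : ℝ) (hc : ∀ l : ℕ, l * c ≤ p (l • y)) :
    ∃ r : G → ℝ, (∀ u v, r (u + v) ≤ r u + r v) ∧ (∀ v, r v ≤ p v) ∧ r (-y) ≤ -c := by
  have hb : ∀ v, BddBelow (Set.range fun l : ℕ => p (v + l • y) - l * c) := by
    intro v
    refine ⟨-p (-v), ?_⟩
    rintro _ ⟨l, rfl⟩
    have h1 := hadd (v + l • y) (-v)
    have e : v + l • y + -v = l • y := by abel
    rw [e] at h1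
    have h2 := hc l
    change -p (-v) ≤ p (v + l • y) - l * c
    linarith
  refine ⟨fun v => ⨅ l : ℕ, (p (v + l • y) - l * c), fun u v => ?_, fun v => ?_, ?_⟩
  · refine le_ciInf_add_ciInf fun l l' => ?_
    refine (ciInf_le (hb (u + v)) (l + l')).trans ?_
    have h1 := hadd (u + l • y) (v + l' • y)
    have e : u + l • y + (v + l' • y) = u + v + (l + l') • y := by
      rw [add_smul]
      abel
    rw [e] at h1
    push_cast
    linarith
  · refine (ciInf_le (hb v) 0).trans ?_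
    simp
  · refine (ciInf_le (hb (-y)) 1).trans ?_
    simp only [one_smul, neg_add_cancel, Nat.cast_one, one_mul]
    linarith

theorem okoenig_gen (n : G → ℝ) (hadd : ∀ x y, n (x + y) ≤ n x + n y) (h0 : n 0 ≤ 0) (x0 : G)
    (c : ℝ) (hc : ∀ l : ℕ, l * c ≤ n (l • x0)) :
    ∃ φ : G →+ ℝ, (∀ x, φ x ≤ n x) ∧ c ≤ φ x0 := by
  let S : Set (G → ℝ) :=
    {q | (∀ x y, q x + q y ≤ q (x + y)) ∧ (∀ x, -n x ≤ q x) ∧ c ≤ q (-x0)}
  have hz : ∀ q ∈ S, q 0 = 0 := by
    intro q hq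
    have h1 := hq.1 0 0
    have h2 := hq.2.1 0
    rw [add_zero] at h1
    linarith
  have hub : ∀ q ∈ S, ∀ v, q v ≤ n (-v) := by
    intro q hq v
    have h1 := hq.1 v (-v)
    have h2 := hq.2.1 (-v)
    rw [add_neg_cancel, hz q hq] at h1
    linarith
  obtain ⟨r, hr1, hr2, hr3⟩ := okoenig_shift n hadd h0 x0 c hc
  have hrS : (fun v => -r v) ∈ S :=
    ⟨fun x y => by have := hr1 x y; linarith, fun x => by have := hr2 x; linarith,
      by linarith⟩
  obtain ⟨q, -, hq⟩ := zorn_le_nonempty₀ S (by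
    intro C hC hch y hy
    have hbd : ∀ v, BddAbove ((fun q : G → ℝ => q v) '' C) := by
      intro v
      refine ⟨n (-v), ?_⟩
      rintro _ ⟨q, hq, rfl⟩
      exact hub q (hC hq) v
    have hle : ∀ q ∈ C, ∀ v, q v ≤ sSup ((fun q : G → ℝ => q v) '' C) :=
      fun q hq v => le_csSup (hbd v) ⟨q, hq, rfl⟩
    have hne : ∀ v, ((fun q : G → ℝ => q v) '' C).Nonempty := fun v => ⟨y v, y, hy, rfl⟩
    refine ⟨fun v => sSup ((fun q : G → ℝ => q v) '' C), ⟨fun u v => ?_, fun v => ?_, ?_⟩,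
      fun q hq v => hle q hq v⟩
    · rw [← le_sub_iff_add_le]
      refine csSup_le (hne u) ?_
      rintro _ ⟨q1, hq1, rfl⟩
      rw [le_sub_comm]
      refine csSup_le (hne v) ?_
      rintro _ ⟨q2, hq2, rfl⟩
      rcases hch.total hq1 hq2 with h | h
      · have h1 := h u
        have h2 := (hC hq2).1 u v
        have h3 := hle q2 hq2 (u + v)
        change q2 v ≤ _ - q1 u
        linarith
      · have h1 := h v
        have h2 := (hC hq1).1 u v
        have h3 := hle q1 hq1 (u + v)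
        change q2 v ≤ _ - q1 u
        linarith
    · exact ((hC hy).2.1 v).trans (hle y hy v)
    · exact (hC hy).2.2.trans (hle y hy _)) _ hrS
  have hqS : q ∈ S := hq.1
  have hmax : ∀ q' : G → ℝ, (∀ x y, q' x + q' y ≤ q' (x + y)) → (∀ v, q v ≤ q' v) →
      ∀ v, q' v ≤ q v := by
    intro q' h1 h2
    exact hq.2 (y := q') ⟨h1, fun x => (hqS.2.1 x).trans (h2 x), hqS.2.2.trans (h2 _)⟩ h2
  have hlow : ∀ (k : ℕ) (v : G), k * q v ≤ q (k • v) := by
    intro k v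
    induction k with
    | zero => simp [hz q hqS]
    | succ k ih =>
      have h1 := hqS.1 (k • v) v
      rw [succ_nsmul]
      push_cast
      linarith
  have hhom : ∀ (k : ℕ) (v : G), q (k • v) ≤ k * q v := by
    intro k v
    rcases Nat.eq_zero_or_pos k with rfl | hk
    · simp [hz q hqS]
    · have hk' : (0 : ℝ) < k := by exact_mod_cast hk
      have h1 := hmax (fun v => q (k • v) / k) (fun x y => by
        rw [← add_div, smul_add]
        exact div_le_div_of_nonneg_right (hqS.1 _ _) hk'.le) (fun v => by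
        rw [le_div_iff₀ hk', mul_comm]
        exact hlow k v) v
      rwa [div_le_iff₀ hk', mul_comm] at h1
  have hneg : ∀ y, q (-y) = -q y := by
    intro y
    obtain ⟨r', h1, h2, h3⟩ := okoenig_shift (fun v => -q v)
      (fun x y => by have := hqS.1 x y; linarith) (by simp [hz q hqS]) y (-q y)
      (fun l => by have := hhom l y; linarith)
    have h4 := hmax (fun v => -r' v) (fun x y => by have := h1 x y; linarith)
      (fun v => by have := h2 v; linarith) (-y)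
    have h5 := hqS.1 y (-y)
    rw [add_neg_cancel, hz q hqS] at h5
    linarith
  have hadd' : ∀ x y, q (x + y) = q x + q y := by
    intro x y
    have h1 := hqS.1 x y
    have h2 := hqS.1 (-x) (-y)
    rw [← neg_add, hneg, hneg, hneg] at h2
    linarith
  refine ⟨AddMonoidHom.mk' (fun v => -q v) fun x y => by rw [hadd', neg_add], fun x => ?_, ?_⟩
  · have := hqS.2.1 x
    change -q x ≤ n x
    linarith
  · have := hqS.2.2
    rw [hneg] at this
    exact this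

/-- Hahn-Banach on an abelian group -/
theorem koenig (n : G → ℝ) (hadd : ∀ x y, n (x + y) ≤ n x + n y)
    (hmul : ∀ (k : ℕ) (x : G), n (k • x) = k * n x) (x0 : G) :
    ∃ φ : G →+ ℝ, (∀ x, φ x ≤ n x) ∧ φ x0 = n x0 := by
  have h0 : n 0 ≤ 0 := by
    have := hmul 0 0
    simp only [zero_smul, Nat.cast_zero, zero_mul] at this
    exact this.le
  obtain ⟨φ, h1, h2⟩ := okoenig_gen n hadd h0 x0 (n x0) fun l => (hmul l x0).ge
  exact ⟨φ, h1, le_antisymm (h1 x0) h2⟩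

theorem okoenig_sep {H : Set G} (hn : ∀ h ∈ H, -h ∈ H) {w : G} {j0 : ℕ} (hw : w ∈ nS H j0)
    (D : ℕ) (hD : ∀ k j : ℕ, k • w ∈ nS H j → k * D ≤ j) :
    ∃ φ : G →+ ℝ, (∀ j : ℕ, ∀ y ∈ nS H j, φ y ≤ j) ∧ (D : ℝ) ≤ φ w := by
  classical
  let G0 : AddSubgroup G :=
    { carrier := {x | ∃ m, x ∈ nS H m}
      add_mem' := fun ⟨a, ha⟩ ⟨b, hb⟩ => ⟨a + b, nS_add ha hb⟩
      zero_mem' := ⟨0, Set.mem_singleton _⟩
      neg_mem' := fun ⟨a, ha⟩ => ⟨a, nS_neg hn ha⟩ }
  have hex : ∀ x : G0, ∃ m, (x : G) ∈ nS H m := fun x => x.2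
  obtain ⟨φ0, h1, h2⟩ := okoenig_gen (G := G0) (fun x => (Nat.find (hex x) : ℝ))
    (fun x y => by
      have := Nat.find_min' (hex (x + y)) (nS_add (Nat.find_spec (hex x)) (Nat.find_spec (hex y)))
      exact_mod_cast this)
    (by
      have := Nat.find_min' (hex 0) (m := 0) (Set.mem_singleton _)
      exact_mod_cast this) ⟨w, j0, hw⟩ D
    (fun l => by
      have := hD l _ (Nat.find_spec (hex (l • ⟨w, j0, hw⟩)))
      exact_mod_cast this)
  obtain ⟨φ, hφ⟩ := (Module.Baer.of_divisible ℝ).extension_property_addMonoidHom G0.subtype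
    G0.subtype_injective φ0
  have he : ∀ x : G0, φ x = φ0 x := fun x => DFunLike.congr_fun hφ x
  refine ⟨φ, fun j y hy => ?_, ?_⟩
  · have h3 := he ⟨y, j, hy⟩
    have h4 := h1 ⟨y, j, hy⟩
    have h5 : (Nat.find (hex ⟨y, j, hy⟩) : ℝ) ≤ j := by
      exact_mod_cast Nat.find_min' (hex ⟨y, j, hy⟩) hy
    change φ y = _ at h3
    linarith
  · have h3 := he ⟨w, j0, hw⟩
    change φ w = _ at h3
    linarith

theorem okoenig_rep {H : Set G} (h0 : (0 : G) ∈ H) (hn : ∀ h ∈ H, -h ∈ H) (hadd : Sm H (H + H)) :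
    ∃ T : Finset G, (∀ t ∈ T, t ∈ nS H 3) ∧ ∀ (m : ℕ), ∀ x ∈ nS H m,
      ∃ f : T → ℕ, ∑ t, f t ≤ m ∧ x - ∑ t, f t • (t : G) ∈ H := by
  classical
  obtain ⟨T0, hT0⟩ := hadd
  refine ⟨T0.filter (· ∈ nS H 3), fun t ht => (mem_filter.1 ht).2, fun m => ?_⟩
  induction m with
  | zero =>
    intro x hx
    have : x = 0 := hx
    exact ⟨0, by simp, by simpa [this] using h0⟩
  | succ k ih =>
    rintro _ ⟨a, ha, b, hb, rfl⟩
    obtain ⟨f, hf, h1⟩ := ih a ha
    obtain ⟨t, ht, h2⟩ := hT0 _ ⟨_, h1, b, hb, rfl⟩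
    have h3 : t ∈ nS H 3 := by
      have h4 := nS_add (nS_add (nS_one.ge h1) (nS_one.ge hb)) (nS_one.ge (hn _ h2))
      simpa using h4
    refine ⟨f + Pi.single ⟨t, mem_filter.2 ⟨ht, h3⟩⟩ 1, ?_, ?_⟩
    · simp only [Pi.add_apply, sum_add_distrib, Finset.sum_pi_single', mem_univ, if_true]
      omega
    · simp only [Pi.add_apply, add_smul, sum_add_distrib, Pi.single_apply, ite_smul, one_smul,
        zero_smul, Finset.sum_ite_eq', mem_univ, if_true]
      rw [← sub_sub, add_sub_right_comm]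
      exact h2

/-- bounded additive functionals see every far point of the group generated by `H` -/
theorem exists_functional {H : Set G} (h0 : (0 : G) ∈ H) (hn : ∀ h ∈ H, -h ∈ H)
    (hadd : Sm H (H + H)) : ∃ m0 : ℕ, ∀ (x : G) (m : ℕ), x ∈ nS H m → x ∉ nS H m0 →
      ∃ φ : G →+ ℝ, (∀ h ∈ H, |φ h| ≤ 1) ∧ φ x ≠ 0 := by
  classical
  obtain ⟨T, hT3, hT⟩ := okoenig_rep h0 hn hadd
  obtain ⟨τ, hτ⟩ : ∃ τ, τ = T.card := ⟨_, rfl⟩
  have hsum : ∀ f : T → ℕ, ∑ t, f t • (t : G) ∈ nS H (∑ t, f t * 3) :=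
    fun f => okoenig_sum _ _ _ fun t _ => okoenig_nsmul (hT3 t t.2) _
  have hC : ∀ f : T → ℕ, ∃ C : ℕ,
      (∀ s : ℕ, s • ∑ t, f t • (t : G) ∈ nS H (s * (3 * τ + 2) + C)) ∨
      ∃ φ : G →+ ℝ, (∀ j : ℕ, ∀ y ∈ nS H j, φ y ≤ j) ∧
        ((3 * τ + 2 : ℕ) : ℝ) ≤ φ (∑ t, f t • (t : G)) := by
    intro f
    by_cases hD : ∀ k j : ℕ, k • ∑ t, f t • (t : G) ∈ nS H j → k * (3 * τ + 2) ≤ j
    · exact ⟨0, Or.inr (okoenig_sep hn (hsum f) _ hD)⟩
    · push Not at hD
      obtain ⟨k, j, h1, h2⟩ := hD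
      have hk : 0 < k := Nat.pos_of_ne_zero (by rintro rfl; simp at h2)
      refine ⟨k * ∑ t, f t * 3, Or.inl fun s => ?_⟩
      have h3 := nS_add (okoenig_nsmul h1 (s / k)) (okoenig_nsmul (hsum f) (s % k))
      rw [smul_smul, ← add_smul, Nat.div_add_mod'] at h3
      refine nS_mono h0 (add_le_add ?_ (Nat.mul_le_mul_right _ (Nat.mod_lt s hk).le)) h3
      calc s / k * j ≤ s / k * (k * (3 * τ + 2)) := Nat.mul_le_mul_left _ h2.le
        _ = s / k * k * (3 * τ + 2) := by ring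
        _ ≤ s * (3 * τ + 2) := Nat.mul_le_mul_right _ (Nat.div_mul_le_self s k)
  choose C hC using hC
  obtain ⟨Q, hQ⟩ : ∃ Q, Q = 12 * τ + 4 := ⟨_, rfl⟩
  have hfin : {f : T → ℕ | ∀ t, f t ∈ Set.Iic (2 * Q)}.Finite :=
    Set.Finite.pi' fun _ => Set.finite_Iic _
  obtain ⟨C0, hC0⟩ := (hfin.image C).bddAbove
  refine ⟨Q + (2 * C0 + 2), fun x m' hx hx0 => ?_⟩
  have hex : ∃ m, x ∈ nS H m := ⟨m', hx⟩
  obtain ⟨m, hm, hmin⟩ : ∃ m, x ∈ nS H m ∧ ∀ j, x ∈ nS H j → m ≤ j :=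
    ⟨Nat.find hex, Nat.find_spec hex, fun j hj => Nat.find_min' hex hj⟩
  have hlt : Q + (2 * C0 + 2) < m := by
    by_contra hle
    exact hx0 (nS_mono h0 (not_lt.1 hle) hm)
  have hQ0 : 0 < Q := by omega
  obtain ⟨s, hs⟩ : ∃ s, s = m / Q := ⟨_, rfl⟩
  have hs0 : 0 < s := by
    rw [hs]
    exact Nat.div_pos (by omega) hQ0
  have hs1 : s * Q ≤ m := by
    rw [hs]
    exact Nat.div_mul_le_self m Q
  have hs2 : m < (s + 1) * Q := by
    rw [hs]
    exact (Nat.div_lt_iff_lt_mul hQ0).1 (Nat.lt_succ_self _)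
  obtain ⟨f, hf, hh⟩ := hT m x hm
  have hw : (fun t => f t / s) ∈ {f : T → ℕ | ∀ t, f t ∈ Set.Iic (2 * Q)} := by
    intro t
    have h1 : f t ≤ m := (single_le_sum (fun _ _ => Nat.zero_le _) (mem_univ t)).trans hf
    refine Nat.div_le_of_le_mul ?_
    nlinarith
  have hCw : C (fun t => f t / s) ≤ C0 := hC0 ⟨_, hw, rfl⟩
  have hr : ∑ t : T, (f t % s) • (t : G) ∈ nS H (s * (3 * τ)) := by
    refine nS_mono h0 ?_ (hsum fun t => f t % s)
    calc ∑ t : T, f t % s * 3 ≤ ∑ _t : T, s * 3 :=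
          sum_le_sum fun t _ => Nat.mul_le_mul_right _ (Nat.mod_lt _ hs0).le
      _ = s * (3 * τ) := by
          rw [sum_const, card_univ, Fintype.card_coe, ← hτ, smul_eq_mul]
          ring
  have hrh := nS_add hr (nS_one.ge hh)
  have hx' : x = s • ∑ t : T, (f t / s) • (t : G)
      + (∑ t : T, (f t % s) • (t : G) + (x - ∑ t, f t • (t : G))) := by
    rw [← add_assoc, smul_sum, ← sum_add_distrib]
    have e : ∀ t : T, s • (f t / s) • (t : G) + (f t % s) • (t : G) = f t • (t : G) := fun t => by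
      rw [smul_smul, ← add_smul, Nat.div_add_mod]
    simp only [e, add_sub_cancel]
  rcases hC (fun t => f t / s) with h1 | ⟨φ, h1, h2⟩
  · exfalso
    have h2 := nS_add (h1 s) hrh
    rw [← hx'] at h2
    have h3 := hmin _ h2
    have h4 : s * Q = 2 * (s * (3 * τ + 2)) + 2 * (s * (3 * τ)) := by
      rw [hQ]
      ring
    omega
  · refine ⟨φ, fun h hh' => ?_, fun hφ => ?_⟩
    · have h3 := h1 1 h (nS_one.ge hh')
      have h4 := h1 1 (-h) (nS_one.ge (hn h hh'))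
      rw [map_neg] at h4
      rw [abs_le]
      push_cast at h3 h4
      exact ⟨by linarith, h3⟩
    · have h3 := h1 _ _ (nS_neg hn hrh)
      rw [hx', map_add, map_nsmul, nsmul_eq_mul] at hφ
      rw [map_neg] at h3
      have h4 : (1 : ℝ) ≤ s := by exact_mod_cast hs0
      have h5 := mul_le_mul_of_nonneg_left h2 (le_trans zero_le_one h4)
      push_cast at h3 h5
      nlinarith

end groups

end Pool.Agent.P.MP_862e21_al
end

-- part Pool.Agent.P.MP_862e21_al.OKron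
section

namespace Pool.Agent.P.MP_862e21_al

open Finset Pointwise

variable {F : Type*} [Field F] [DecidableEq F]

omit [DecidableEq F] in
lemma OKron_pigeon {ι : Type*} {Z : Set F} {x : F} (h0 : (0 : F) ∈ Z)
    (hx : ∀ M : ℕ, 1 ≤ M → ∃ g : F, (M : F) * g = x ∧ ∀ j : ℕ, j ≤ M → (j : F) * g ∈ Z)
    (ψ : F →+ ℂ) (U : Finset ι) (w : ι → ℂ) (β : ℝ)
    (hU : ∀ y ∈ Z, ∃ u ∈ U, ‖ψ y - w u‖ ≤ β) : ‖ψ x‖ ≤ 2 * β * U.card := by
  obtain ⟨u0, hu0, -⟩ := hU 0 h0
  obtain ⟨g, hg, hj⟩ := hx U.card (card_pos.2 ⟨u0, hu0⟩)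
  have hψ : ∀ j : ℕ, ψ ((j : F) * g) = j * ψ g := fun j => by
    rw [← nsmul_eq_mul, map_nsmul, nsmul_eq_mul]
  have hc : ∀ j : ℕ, ∃ u, j ≤ U.card → u ∈ U ∧ ‖(j : ℂ) * ψ g - w u‖ ≤ β := fun j => by
    by_cases h : j ≤ U.card
    · obtain ⟨u, a, b⟩ := hU _ (hj j h)
      exact ⟨u, fun _ => ⟨a, hψ j ▸ b⟩⟩
    · exact ⟨u0, fun h' => absurd h' h⟩
  choose f hf using hc
  obtain ⟨i, hi, j, hj', hij, e⟩ := exists_ne_map_eq_of_card_lt_of_maps_to
    (s := range (U.card + 1)) (t := U) (by simp) (f := f)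
    (fun j hj => (hf j (Nat.lt_succ_iff.1 (mem_range.1 hj))).1)
  have a1 := (hf i (Nat.lt_succ_iff.1 (mem_range.1 hi))).2
  have a2 := (hf j (Nat.lt_succ_iff.1 (mem_range.1 hj'))).2
  rw [e] at a1
  have a3 : ‖(((i : ℤ) - j : ℤ) : ℂ) * ψ g‖ ≤ 2 * β := by
    have : (((i : ℤ) - j : ℤ) : ℂ) * ψ g = (i * ψ g - w (f j)) - (j * ψ g - w (f j)) := by
      push_cast; ring
    rw [this]
    exact (norm_sub_le _ _).trans (by linarith)
  have a4 : (1 : ℝ) ≤ ‖(((i : ℤ) - j : ℤ) : ℂ)‖ := by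
    rw [Complex.norm_intCast]
    have : (i : ℤ) - j ≠ 0 := sub_ne_zero.2 (by exact_mod_cast hij)
    rw [← Int.cast_abs, ← Int.cast_one, Int.cast_le]
    exact Int.one_le_abs this
  rw [norm_mul] at a3
  have a5 : ‖ψ g‖ ≤ 2 * β := by nlinarith [norm_nonneg (ψ g)]
  rw [← hg, hψ, norm_mul, Complex.norm_natCast, mul_comm]
  exact mul_le_mul_of_nonneg_right a5 (Nat.cast_nonneg _)

omit [DecidableEq F] in
lemma OKron_mul {H : Set F} {r s : F} (hr : Sm H (r • H)) (hs : Sm H (s • H)) :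
    Sm H ((r * s) • H) := by
  classical
  obtain ⟨T, hT⟩ := hr
  obtain ⟨T', hT'⟩ := hs
  refine ⟨image₂ (fun t t' => t + r * t') T T', ?_⟩
  rintro _ ⟨h, hh, rfl⟩
  obtain ⟨t', a1, a2⟩ := hT' _ ⟨h, hh, rfl⟩
  obtain ⟨t, b1, b2⟩ := hT _ ⟨_, a2, rfl⟩
  refine ⟨_, mem_image₂_of_mem b1 a1, ?_⟩
  have : (r * s) • h - (t + r * t') = r • (s • h - t') - t := by simp only [smul_eq_mul]; ring
  exact this ▸ b2

omit [DecidableEq F] in
lemma OKron_one {H : Set F} (_h0 : (0 : F) ∈ H) : Sm H ((1 : F) • H) :=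
  ⟨{0}, fun x hx => ⟨0, by simp, by simpa using hx⟩⟩

omit [DecidableEq F] in
lemma OKron_sub {H : Set F} {c : F} (hn : ∀ h ∈ H, -h ∈ H) (hadd : Sm H (H + H))
    (m1 : Sm H (c • H)) : Sm H ((1 - c) • H) := by
  classical
  obtain ⟨T, hT⟩ := hadd
  obtain ⟨T', hT'⟩ := m1
  refine ⟨image₂ (fun t t' => t - t') T T', ?_⟩
  rintro _ ⟨h, hh, rfl⟩
  obtain ⟨t', a1, a2⟩ := hT' _ ⟨h, hh, rfl⟩
  obtain ⟨t, b1, b2⟩ := hT _ ⟨h, hh, _, hn _ a2, rfl⟩
  refine ⟨_, mem_image₂_of_mem b1 a1, ?_⟩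
  have : (1 - c) • h - (t - t') = h + -(c • h - t') - t := by simp only [smul_eq_mul]; ring
  exact this ▸ b2

/-- additive maps that are bounded on a set -/
def OKronV (H : Set F) : Submodule ℂ (F →+ ℂ) where
  carrier := {φ | ∃ B : ℝ, ∀ h ∈ H, ‖φ h‖ ≤ B}
  add_mem' := by
    rintro φ ψ ⟨B, hB⟩ ⟨B', hB'⟩
    exact ⟨B + B', fun h hh => (norm_add_le _ _).trans (add_le_add (hB h hh) (hB' h hh))⟩
  zero_mem' := ⟨0, by simp⟩
  smul_mem' := by
    rintro a φ ⟨B, hB⟩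
    refine ⟨‖a‖ * B, fun h hh => ?_⟩
    rw [AddMonoidHom.smul_apply, norm_smul]
    exact mul_le_mul_of_nonneg_left (hB h hh) (norm_nonneg a)

/-- composition with a multiplication -/
def OKronA (r : F) : Module.End ℂ (F →+ ℂ) where
  toFun φ := φ.comp (AddMonoidHom.mulLeft r)
  map_add' _ _ := rfl
  map_smul' _ _ := rfl

omit [DecidableEq F] in
lemma OKronA_apply (r : F) (φ : F →+ ℂ) (y : F) : OKronA r φ y = φ (r * y) := rfl

omit [DecidableEq F] in
lemma OKronA_pow (r : F) (j : ℕ) (φ : F →+ ℂ) (y : F) : (OKronA r ^ j) φ y = φ (r ^ j * y) := by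
  induction j generalizing y with
  | zero => simp
  | succ j ih => rw [pow_succ', Module.End.mul_apply, OKronA_apply, ih, pow_succ, mul_assoc]

omit [DecidableEq F] in
lemma OKronA_mem {H : Set F} {r : F} (hr : Sm H (r • H)) {φ : F →+ ℂ} (hφ : φ ∈ OKronV H) :
    OKronA r φ ∈ OKronV H := by
  obtain ⟨T, hT⟩ := hr
  obtain ⟨B, hB⟩ := hφ
  refine ⟨B + ∑ t ∈ T, ‖φ t‖, fun h hh => ?_⟩
  obtain ⟨t, a1, a2⟩ := hT _ ⟨h, hh, rfl⟩
  have : OKronA r φ h = φ (r • h - t) + φ t := by rw [← map_add, sub_add_cancel]; rfl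
  rw [this]
  exact (norm_add_le _ _).trans (add_le_add (hB _ a2)
    (single_le_sum (f := fun t => ‖φ t‖) (fun _ _ => norm_nonneg _) a1))

omit [DecidableEq F] in
lemma OKron_zero {H : Set F} {T : Finset F} (hT : ∀ x ∈ H + H, ∃ t ∈ T, x - t ∈ H) {φ : F →+ ℂ}
    (hφ : φ ∈ OKronV H) (hz : ∀ t ∈ T, φ t = 0) : ∀ h ∈ H, φ h = 0 := by
  obtain ⟨B, hB⟩ := hφ
  have key : ∀ k : ℕ, ∀ h ∈ H, ‖φ h‖ * 2 ^ k ≤ B := by
    intro k
    induction k with
    | zero => simpa using hB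
    | succ k ih =>
      intro h hh
      obtain ⟨t, a1, a2⟩ := hT _ ⟨h, hh, h, hh, rfl⟩
      have := ih _ a2
      rw [map_sub, hz t a1, sub_zero, map_add, ← two_mul, norm_mul, Complex.norm_two] at this
      rw [pow_succ]; linarith
  intro h hh
  by_contra hne
  have hp := norm_pos_iff.2 hne
  obtain ⟨k, hk⟩ := pow_unbounded_of_one_lt (B / ‖φ h‖) (one_lt_two (α := ℝ))
  have := key k h hh
  rw [div_lt_iff₀ hp] at hk
  linarith

lemma OKron_peel {E : Type*} [AddCommGroup E] [Module ℂ E] (A : Module.End ℂ E)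
    (V W : Submodule ℂ E) (hA : ∀ φ ∈ V, A φ ∈ V) (n : ℕ) :
    ∀ P : Polynomial ℂ, P ≠ 0 → P.natDegree = n → ∀ φ ∈ V, φ ∉ W → Polynomial.aeval A P φ ∈ W →
      ∃ ψ ∈ V, ψ ∉ W ∧ ∃ σ : ℂ, A ψ - σ • ψ ∈ W := by
  induction n with
  | zero =>
    intro P hP hd φ _ hW h
    rw [Polynomial.eq_C_of_natDegree_eq_zero hd] at h hP
    have h0 : P.coeff 0 ≠ 0 := fun h => hP (by rw [h, map_zero])
    rw [Polynomial.aeval_C, Module.algebraMap_end_apply] at h
    exact absurd ((W.smul_mem_iff h0).1 h) hW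
  | succ n ih =>
    intro P hP hd φ hV hW h
    obtain ⟨σ, hσ⟩ := Complex.exists_root (f := P)
      (Polynomial.natDegree_pos_iff_degree_pos.1 (by omega))
    obtain ⟨Q, rfl⟩ := Polynomial.dvd_iff_isRoot.2 hσ
    have hQ : Q ≠ 0 := right_ne_zero_of_mul hP
    rw [Polynomial.natDegree_mul (Polynomial.X_sub_C_ne_zero σ) hQ,
      Polynomial.natDegree_X_sub_C] at hd
    by_cases h1 : A φ - σ • φ ∈ W
    · exact ⟨φ, hV, hW, σ, h1⟩
    · refine ih Q hQ (by omega) _ (V.sub_mem (hA φ hV) (V.smul_mem σ hV)) h1 ?_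
      rw [mul_comm, map_mul, Module.End.mul_apply] at h
      simpa [Module.algebraMap_end_apply] using h

omit [DecidableEq F] in
lemma OKron_dep (T : Finset F) (A : Module.End ℂ (F →+ ℂ)) (φ : F →+ ℂ) :
    ∃ P : Polynomial ℂ, P ≠ 0 ∧ ∀ t ∈ T, Polynomial.aeval A P φ t = 0 := by
  let L : Polynomial ℂ →ₗ[ℂ] (T → ℂ) :=
    { toFun := fun P t => Polynomial.aeval A P φ t
      map_add' := fun P Q => by ext t; simp
      map_smul' := fun a P => by ext t; simp }
  by_contra hne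
  have hinj : Function.Injective L := by
    rw [injective_iff_map_eq_zero]
    intro P hP
    by_contra h
    exact hne ⟨P, h, fun t ht => congrFun hP ⟨t, ht⟩⟩
  exact Polynomial.not_finite (R := ℂ) (Module.Finite.of_injective L hinj)

omit [DecidableEq F] in
lemma OKron_zpow {R : F → Prop} (hm : ∀ r s, R r → R s → R (r * s)) (h1 : R 1) (a : F → ℂ)
    {u : F} {τ : ℂ} (u0 : u ≠ 0) (τ0 : τ ≠ 0) (hu : R u) (hu' : R u⁻¹)
    (h : ∀ r, R r → a (u * r) = τ * a r) (i : ℤ) :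
    R (u ^ i) ∧ ∀ r, R r → a (u ^ i * r) = τ ^ i * a r := by
  induction i using Int.induction_on with
  | zero => simpa using h1
  | succ i ih =>
    rw [zpow_add_one₀ u0, zpow_add_one₀ τ0]
    refine ⟨hm _ _ ih.1 hu, fun r hr => ?_⟩
    rw [mul_assoc, ih.2 _ (hm _ _ hu hr), h r hr, mul_assoc]
  | pred i ih =>
    rw [zpow_sub_one₀ u0, zpow_sub_one₀ τ0]
    refine ⟨hm _ _ ih.1 hu', fun r hr => ?_⟩
    have := h _ (hm _ _ hu' hr)
    rw [mul_inv_cancel_left₀ u0] at this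
    rw [mul_assoc, ih.2 _ (hm _ _ hu' hr), this, mul_assoc, inv_mul_cancel_left₀ τ0]

omit [DecidableEq F] in
/-- approximate Kronecker lemma -/
theorem kronAbs {H : Set F} {c : F} (h0 : (0 : F) ∈ H) (hn : ∀ h ∈ H, -h ∈ H)
    (hadd : Sm H (H + H)) (c0 : c ≠ 0) (c1 : c ≠ 1) (cN : c ^ 2 - c + 1 ≠ 0)
    (m1 : Sm H (c • H)) (m2 : Sm H (c⁻¹ • H)) (m3 : Sm H ((1 - c)⁻¹ • H))
    (m4 : Sm H ((c ^ 2 - c + 1)⁻¹ • H))
    (hAP : ∀ m0 : ℕ, ∃ (x : F) (m : ℕ), x ∉ nS H m0 ∧ ∀ M : ℕ, 1 ≤ M →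
      ∃ g : F, (M : F) * g = x ∧ ∀ j : ℕ, j ≤ M → (j : F) * g ∈ nS H m) :
    ∃ (σ : ℂ) (C0 : ℝ), σ ≠ 0 ∧ σ ≠ 1 ∧ σ ^ 2 - σ + 1 ≠ 0 ∧
      ∀ (a b : ℤ) (T : Finset F) (Y : Set F), (∀ h ∈ H, ∃ t ∈ T, h - t ∈ Y) →
        (∀ y ∈ Y, c ^ a * (1 - c) ^ b * y ∈ H + H) → ‖σ‖ ^ a * ‖1 - σ‖ ^ b ≤ C0 * T.card := by
  classical
  obtain ⟨m0, hm0⟩ := exists_functional h0 hn hadd
  obtain ⟨x, m, hx0, hx⟩ := hAP m0
  have hxm : x ∈ nS H m := by
    obtain ⟨g, a1, a2⟩ := hx 1 le_rfl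
    exact a1 ▸ a2 1 le_rfl
  obtain ⟨φr, b1, b2⟩ := hm0 x m hxm hx0
  let φ0 : F →+ ℂ := Complex.ofRealHom.toAddMonoidHom.comp φr
  have hφ0 : φ0 ∈ OKronV H := ⟨1, fun h hh => by simpa [φ0] using b1 h hh⟩
  obtain ⟨Fm, hFm⟩ := Sm.nS h0 hadd m
  have hz := nS_zero_mem h0 m
  let W : Submodule ℂ (F →+ ℂ) :=
    { carrier := {φ | ∀ r, Sm H (r • H) → φ (r * x) = 0}
      add_mem' := fun {φ ψ} h1 h2 r hr => by
        rw [AddMonoidHom.add_apply, h1 r hr, h2 r hr, add_zero]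
      zero_mem' := fun r _ => rfl
      smul_mem' := fun a φ h r hr => by rw [AddMonoidHom.smul_apply, h r hr, smul_zero] }
  obtain ⟨T0, hT0⟩ := id hadd
  obtain ⟨P, hP, hP0⟩ := OKron_dep T0 (OKronA c) φ0
  have hPV : Polynomial.aeval (OKronA c) P φ0 ∈ OKronV H := by
    rw [Polynomial.aeval_eq_sum_range, LinearMap.sum_apply]
    refine Submodule.sum_mem _ fun j _ => Submodule.smul_mem _ _ ?_
    induction j with
    | zero => exact hφ0
    | succ j ih => rw [pow_succ', Module.End.mul_apply]; exact OKronA_mem m1 (ih (by simp_all; omega))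
  have hPW : Polynomial.aeval (OKronA c) P φ0 ∈ W := by
    intro r hr
    have hH := OKron_zero hT0 hPV hP0
    generalize Polynomial.aeval (OKronA c) P φ0 = Φ at *
    obtain ⟨T, hT⟩ := hr
    have := OKron_pigeon hz hx (OKronA r Φ) (Fm ×ˢ T) (fun u => Φ (r * u.1 + u.2)) 0 (by
      intro y hy
      obtain ⟨f, a1, a2⟩ := hFm y hy
      obtain ⟨t, a3, a4⟩ := hT _ ⟨_, a2, rfl⟩
      refine ⟨(f, t), mem_product.2 ⟨a1, a3⟩, ?_⟩
      have e : r * y - (r * f + t) = r • (y - f) - t := by rw [smul_eq_mul]; ring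
      rw [OKronA_apply, ← map_sub, e, hH _ a4, norm_zero])
    simpa [OKronA_apply] using this
  obtain ⟨φ, hV, hW, σ, hσ⟩ := OKron_peel (OKronA c) (OKronV H) W (fun φ h => OKronA_mem m1 h) _
    P hP rfl φ0 hφ0 (fun h => b2 (by simpa [φ0] using h 1 (OKron_one h0))) hPW
  obtain ⟨r0, hr0, hr1⟩ : ∃ r, Sm H (r • H) ∧ φ (r * x) ≠ 0 := by
    by_contra h
    exact hW fun r hr => by_contra fun h' => h ⟨r, hr, h'⟩
  have e1 : ∀ r, Sm H (r • H) → φ (c * r * x) = σ * φ (r * x) := fun r hr => by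
    have := hσ r hr
    rw [AddMonoidHom.sub_apply, AddMonoidHom.smul_apply, OKronA_apply, sub_eq_zero] at this
    rw [mul_assoc, this, smul_eq_mul]
  have e2 : ∀ r, Sm H (r • H) → φ ((1 - c) * r * x) = (1 - σ) * φ (r * x) := fun r hr => by
    rw [sub_mul, sub_mul, one_mul, map_sub, e1 r hr]; ring
  have e3 : ∀ r, Sm H (r • H) →
      φ ((c ^ 2 - c + 1) * r * x) = (σ ^ 2 - σ + 1) * φ (r * x) := fun r hr => by
    have : (c ^ 2 - c + 1) * r * x = c * (c * r) * x - c * r * x + r * x := by ring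
    rw [this, map_add, map_sub, e1 _ (OKron_mul m1 hr), e1 r hr]; ring
  have c1' : 1 - c ≠ 0 := sub_ne_zero.2 c1.symm
  have s0 : σ ≠ 0 := fun h => hr1 (by
    have := e1 _ (OKron_mul m2 hr0)
    rwa [mul_inv_cancel_left₀ c0, h, zero_mul] at this)
  have s1 : 1 - σ ≠ 0 := fun h => hr1 (by
    have := e2 _ (OKron_mul m3 hr0)
    rwa [mul_inv_cancel_left₀ c1', h, zero_mul] at this)
  have sN : σ ^ 2 - σ + 1 ≠ 0 := fun h => hr1 (by
    have := e3 _ (OKron_mul m4 hr0)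
    rwa [mul_inv_cancel_left₀ cN, h, zero_mul] at this)
  obtain ⟨B, hB⟩ := OKronA_mem hr0 hV
  have hp := norm_pos_iff.2 hr1
  refine ⟨σ, 4 * B * Fm.card / ‖φ (r0 * x)‖, s0, fun h => s1 (by rw [h, sub_self]), sN,
    fun a b T Y hT hY => ?_⟩
  obtain ⟨-, f1⟩ := OKron_zpow (R := fun r => Sm H (r • H)) (fun _ _ => OKron_mul) (OKron_one h0)
    (fun r => φ (r * x)) c0 s0 m1 m2 e1 a
  obtain ⟨f2, f3⟩ := OKron_zpow (R := fun r => Sm H (r • H)) (fun _ _ => OKron_mul) (OKron_one h0)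
    (fun r => φ (r * x)) c1' s1 (OKron_sub hn hadd m1) m3 e2 b
  have := OKron_pigeon hz hx (OKronA (c ^ a * (1 - c) ^ b) (OKronA r0 φ)) (Fm ×ˢ T)
    (fun u => OKronA (c ^ a * (1 - c) ^ b) (OKronA r0 φ) (u.1 + u.2)) (2 * B) (by
      intro y hy
      obtain ⟨f, a1, a2⟩ := hFm y hy
      obtain ⟨t, a3, a4⟩ := hT _ a2
      obtain ⟨h1, a5, h2, a6, a7⟩ := hY _ a4
      refine ⟨(f, t), mem_product.2 ⟨a1, a3⟩, ?_⟩
      rw [← map_sub, ← sub_sub, OKronA_apply, ← a7, map_add, two_mul]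
      exact (norm_add_le _ _).trans (add_le_add (hB _ a5) (hB _ a6)))
  have e4 : r0 * (c ^ a * (1 - c) ^ b * x) = c ^ a * ((1 - c) ^ b * r0) * x := by ring
  rw [OKronA_apply, OKronA_apply, e4, f1 _ (OKron_mul f2 hr0), f3 _ hr0, norm_mul, norm_mul,
    norm_zpow, norm_zpow, card_product] at this
  rw [div_mul_eq_mul_div, le_div_iff₀ hp]
  push_cast at this
  linarith

lemma OKron_exp (C d : ℝ) (hd : 0 < d) : ∃ n : ℕ, C * (n + 1) < Real.exp (n * d) := by
  obtain ⟨n, hn⟩ := exists_nat_gt (4 * |C| / d ^ 2 + 1)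
  have h0 : 0 ≤ 4 * |C| / d ^ 2 := by positivity
  have h1 : 4 * |C| < n * d ^ 2 := by
    rw [← div_lt_iff₀ (by positivity)]; linarith
  have h2 : (1 : ℝ) < n := by linarith
  refine ⟨n, lt_of_lt_of_le ?_ (Real.quadratic_le_exp_of_nonneg (by positivity))⟩
  have h3 := le_abs_self C
  have h4 := abs_nonneg C
  have h5 : 0 < (n : ℝ) * d := by positivity
  nlinarith

/-- the numerical end of the argument -/
theorem kron_num {σ : ℂ} {C : ℝ} (h0 : σ ≠ 0) (h1 : σ ≠ 1) (hN : σ ^ 2 - σ + 1 ≠ 0)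
    (P : ℕ → ℤ → ℤ → Prop)
    (hP : ∀ n a b, P n a b → ‖σ‖ ^ a * ‖1 - σ‖ ^ b ≤ C * (n + 1) ∧
      ‖σ‖ ^ (-a) * ‖1 - σ‖ ^ (-b) ≤ C * (n + 1))
    (p1 : ∀ n : ℕ, ∃ i : ℕ, i ≤ n ∧ P n i ((n : ℤ) - i))
    (p2 : ∀ n : ℕ, ∃ i : ℕ, i ≤ n ∧ P n ((n : ℤ) - i) (-(n : ℤ)))
    (p3 : ∀ n : ℕ, ∃ i : ℕ, i ≤ n ∧ P n (-(n : ℤ)) i) : False := by
  have a0 := norm_pos_iff.2 h0
  have b0 := norm_pos_iff.2 (sub_ne_zero.2 h1.symm)
  obtain ⟨al, hal⟩ : ∃ al, ‖σ‖ = Real.exp al := ⟨_, (Real.exp_log a0).symm⟩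
  obtain ⟨bt, hbt⟩ : ∃ bt, ‖1 - σ‖ = Real.exp bt := ⟨_, (Real.exp_log b0).symm⟩
  have hz : ∀ (u : ℝ) (a : ℤ), Real.exp u ^ a = Real.exp (a * u) := fun u a => by
    rw [mul_comm, Real.exp_mul, Real.rpow_intCast]
  have key : ∀ d : ℝ, 0 < d → ∃ n : ℕ, ∀ a b : ℤ, P n a b →
      a * al + b * bt < n * d ∧ -(a * al + b * bt) < n * d := fun d hd => by
    obtain ⟨n, hn⟩ := OKron_exp C d hd
    refine ⟨n, fun a b h => ?_⟩
    obtain ⟨u1, u2⟩ := hP n a b h
    rw [hal, hbt, hz, hz, ← Real.exp_add] at u1 u2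
    refine ⟨Real.exp_lt_exp.1 (u1.trans_lt hn), ?_⟩
    have := Real.exp_lt_exp.1 (u2.trans_lt hn)
    push_cast at this
    linarith
  rcases lt_trichotomy bt 0 with hb | hb | hb
  · rcases lt_or_ge al 0 with ha | ha
    · obtain ⟨n, hn⟩ := key (min (-al) (-bt)) (lt_min (by linarith) (by linarith))
      obtain ⟨i, hi, h⟩ := p1 n
      have := (hn _ _ h).2
      have hi' : (i : ℝ) ≤ n := by exact_mod_cast hi
      push_cast at this
      nlinarith [min_le_left (-al) (-bt), min_le_right (-al) (-bt), Nat.cast_nonneg (α := ℝ) i]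
    · obtain ⟨n, hn⟩ := key (-bt) (by linarith)
      obtain ⟨i, hi, h⟩ := p2 n
      have := (hn _ _ h).1
      have hi' : (i : ℝ) ≤ n := by exact_mod_cast hi
      push_cast at this
      nlinarith
  · subst hb
    rcases lt_trichotomy al 0 with ha | ha | ha
    · obtain ⟨n, hn⟩ := key (-al) (by linarith)
      obtain ⟨i, -, h⟩ := p3 n
      have := (hn _ _ h).1
      push_cast at this
      linarith
    · subst ha
      rw [Real.exp_zero] at hal hbt
      have q1 : σ.re * σ.re + σ.im * σ.im = 1 := by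
        rw [← Complex.normSq_apply, Complex.normSq_eq_norm_sq, hal, one_pow]
      have q2 : (1 - σ).re * (1 - σ).re + (1 - σ).im * (1 - σ).im = 1 := by
        rw [← Complex.normSq_apply, Complex.normSq_eq_norm_sq, hbt, one_pow]
      simp only [Complex.sub_re, Complex.sub_im, Complex.one_re, Complex.one_im] at q2
      have q3 : σ.re = 1 / 2 := by nlinarith
      apply hN
      apply Complex.ext <;> simp [pow_two, q3] <;> nlinarith
    · obtain ⟨n, hn⟩ := key al ha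
      obtain ⟨i, -, h⟩ := p3 n
      have := (hn _ _ h).2
      push_cast at this
      linarith
  · rcases lt_or_ge 0 al with ha | ha
    · obtain ⟨n, hn⟩ := key (min al bt) (lt_min ha hb)
      obtain ⟨i, hi, h⟩ := p1 n
      have := (hn _ _ h).1
      have hi' : (i : ℝ) ≤ n := by exact_mod_cast hi
      push_cast at this
      nlinarith [min_le_left al bt, min_le_right al bt, Nat.cast_nonneg (α := ℝ) i]
    · obtain ⟨n, hn⟩ := key bt hb
      obtain ⟨i, hi, h⟩ := p2 n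
      have := (hn _ _ h).2
      have hi' : (i : ℝ) ≤ n := by exact_mod_cast hi
      push_cast at this
      nlinarith

end Pool.Agent.P.MP_862e21_al
end

-- part Pool.Agent.P.MP_862e21_al.OAp
section

namespace Pool.Agent.P.MP_862e21_al

open Finset Pointwise

variable {F : Type*} [Field F] [DecidableEq F]

theorem nS_cov {K : ℕ} {H : Finset F} (h0 : (0 : F) ∈ H) (hH : Cov K H (H + H)) (m : ℕ) :
    ∃ T : Finset F, T.card ≤ K ^ m ∧ ∀ x ∈ nS (H : Set F) m, ∃ t ∈ T, x - t ∈ H := by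
  obtain ⟨T0, hT0, hsub⟩ := hH
  induction m with
  | zero =>
    refine ⟨{0}, by simp, fun x hx => ⟨0, by simp, ?_⟩⟩
    have hx0 : x = 0 := hx
    simpa [hx0] using h0
  | succ m ih =>
    obtain ⟨T, hT, hcov⟩ := ih
    refine ⟨T + T0, ?_, fun x hx => ?_⟩
    · calc (T + T0).card ≤ T.card * T0.card := card_add_le
        _ ≤ K ^ m * K := Nat.mul_le_mul hT hT0
        _ = K ^ (m + 1) := (pow_succ K m).symm
    · have hx' : x ∈ nS (H : Set F) m + (H : Set F) := hx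
      obtain ⟨y, hy, h, hh, rfl⟩ := Set.mem_add.1 hx'
      obtain ⟨t, ht, hyt⟩ := hcov y hy
      have h1 : (y - t) + h ∈ T0 + H := hsub (add_mem_add hyt (mem_coe.1 hh))
      obtain ⟨t0, ht0, h', hh', he⟩ := mem_add.1 h1
      refine ⟨t + t0, add_mem_add ht ht0, ?_⟩
      have h2 : y + h - (t + t0) = h' := by linear_combination -he
      rw [h2]; exact hh'

omit [DecidableEq F] in
theorem oap_mul_mem {H : Finset F} {h : F} (hh : h ∈ H) (j : ℕ) :
    (j : F) * h ∈ nS (H : Set F) j := by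
  induction j with
  | zero =>
    show ((0 : ℕ) : F) * h ∈ ({0} : Set F)
    simp
  | succ j ih =>
    show ((j + 1 : ℕ) : F) * h ∈ nS (H : Set F) j + (H : Set F)
    refine Set.mem_add.2 ⟨_, ih, h, mem_coe.2 hh, ?_⟩
    push_cast; ring

theorem oap_two {H : Finset F} {x : F} (hx : x ∈ H + H) : x ∈ nS (H : Set F) 2 := by
  obtain ⟨a, ha, b, hb, rfl⟩ := mem_add.1 hx
  have h1 : a ∈ nS (H : Set F) 1 := by rw [nS_one]; exact mem_coe.2 ha
  have h2 : b ∈ nS (H : Set F) 1 := by rw [nS_one]; exact mem_coe.2 hb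
  exact nS_add h1 h2

theorem oap_pos {K : ℕ} {H : Finset F} (h0 : (0 : F) ∈ H) (hH : Cov K H (H + H)) : 1 ≤ K := by
  obtain ⟨T0, hT0, hsub⟩ := hH
  obtain ⟨t, ht, -⟩ := mem_add.1 (hsub (add_mem_add h0 h0))
  exact le_trans (card_pos.2 ⟨t, ht⟩) hT0

/-- a long progression inside `H + H` -/
theorem long_fin {K M : ℕ} {H : Finset F} (h0 : (0 : F) ∈ H) (hn : ∀ h ∈ H, -h ∈ H)
    (hH : Cov K H (H + H)) (hbig : K ^ ((M + 1) ^ 2) < H.card) :
    ∃ g : F, g ≠ 0 ∧ ∀ j : ℕ, j ≤ M → (j : F) * g ∈ H + H := by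
  classical
  obtain ⟨T, hT, hcov⟩ := nS_cov h0 hH M
  have hK := oap_pos h0 hH
  have hex : ∀ (h : F) (j : Fin (M + 1)), ∃ t : F, h ∈ H → t ∈ T ∧ ((j : ℕ) : F) * h - t ∈ H := by
    intro h j
    by_cases hh : h ∈ H
    · obtain ⟨t, ht, h1⟩ := hcov _ (nS_mono (mem_coe.2 h0) (Nat.lt_succ_iff.1 j.2)
        (oap_mul_mem hh j))
      exact ⟨t, fun _ => ⟨ht, h1⟩⟩
    · exact ⟨0, fun h' => absurd h' hh⟩
  choose f hf using hex
  have hcard : (Fintype.piFinset fun _ : Fin (M + 1) => T).card < H.card := by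
    rw [Fintype.card_piFinset]
    simp only [prod_const, card_univ, Fintype.card_fin]
    calc T.card ^ (M + 1) ≤ (K ^ (M + 1)) ^ (M + 1) :=
          Nat.pow_le_pow_left (hT.trans (Nat.pow_le_pow_right hK (Nat.le_succ M))) _
      _ = K ^ ((M + 1) ^ 2) := by rw [← pow_mul, sq]
      _ < H.card := hbig
  obtain ⟨a, ha, b, hb, hab, he⟩ := exists_ne_map_eq_of_card_lt_of_maps_to hcard (f := f)
    (fun h hh => mem_coe.2 (Fintype.mem_piFinset.2 fun j => (hf h j (mem_coe.1 hh)).1))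
  refine ⟨a - b, sub_ne_zero.2 hab, fun j hj => ?_⟩
  have h1 := (hf a ⟨j, Nat.lt_succ_iff.2 hj⟩ ha).2
  have h2 := hn _ (hf b ⟨j, Nat.lt_succ_iff.2 hj⟩ hb).2
  rw [he] at h1
  refine mem_add.2 ⟨_, h1, _, h2, ?_⟩
  simp only
  ring

/-- a far point that is joined to zero by progressions of every length up to `n` -/
theorem ap_fin [Fintype F] (hp : (Fintype.card F).Prime) {K m0 n : ℕ} {H : Finset F}
    (h0 : (0 : F) ∈ H) (hn : ∀ h ∈ H, -h ∈ H) (hH : Cov K H (H + H))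
    (hbig : K ^ ((n.factorial + 1) ^ 2) < H.card) (hq : K ^ m0 * H.card < Fintype.card F)
    (hnq : n < Fintype.card F) :
    ∃ x : F, x ∉ nS (H : Set F) m0 ∧ ∀ M : ℕ, 1 ≤ M → M ≤ n →
      ∃ g : F, (M : F) * g = x ∧ ∀ j : ℕ, j ≤ M → (j : F) * g ∈ nS (H : Set F) (m0 + 4) := by
  classical
  obtain ⟨g, hg, hprog⟩ := long_fin h0 hn hH hbig
  have hF : Fact (Fintype.card F).Prime := ⟨hp⟩
  have hch : CharP F (Fintype.card F) := charP_of_card_eq_prime rfl
  have hN0 : ((n.factorial : ℕ) : F) ≠ 0 := by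
    intro h
    rw [CharP.cast_eq_zero_iff F (Fintype.card F), hp.dvd_factorial] at h
    omega
  have hg' : (n.factorial : F) * g ≠ 0 := mul_ne_zero hN0 hg
  obtain ⟨T, hT, hcov⟩ := nS_cov h0 hH m0
  have hfar : ∃ x : F, x ∉ nS (H : Set F) m0 := by
    by_contra hcon
    push Not at hcon
    have h1 : (univ : Finset F) ⊆ T + H := fun x _ => by
      obtain ⟨t, ht, h2⟩ := hcov x (hcon x)
      exact mem_add.2 ⟨t, ht, _, h2, by ring⟩
    have h2 := card_le_card h1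
    have h3 : (T + H).card ≤ T.card * H.card := card_add_le
    have h4 : T.card * H.card ≤ K ^ m0 * H.card := Nat.mul_le_mul_right _ hT
    rw [card_univ] at h2
    omega
  have hex : ∃ j : ℕ, (j : F) * ((n.factorial : F) * g) ∉ nS (H : Set F) m0 := by
    obtain ⟨x, hx⟩ := hfar
    have h1 : AddSubgroup.zmultiples ((n.factorial : F) * g) = ⊤ := by
      refine (add_top hp _).resolve_left fun h => hg' ?_
      exact AddSubgroup.zmultiples_eq_bot.1 h
    have h2 : x ∈ AddSubgroup.zmultiples ((n.factorial : F) * g) := by rw [h1]; trivial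
    have h3 : x ∈ AddSubmonoid.multiples ((n.factorial : F) * g) :=
      (mem_multiples_iff_mem_zmultiples).2 h2
    obtain ⟨j, hj⟩ := (AddSubmonoid.mem_multiples_iff _ _).1 h3
    refine ⟨j, ?_⟩
    rw [← nsmul_eq_mul, hj]; exact hx
  have h0' : (0 : F) ∈ (H : Set F) := mem_coe.2 h0
  have hspec := Nat.find_spec hex
  have hmin : ∀ a < Nat.find hex, (a : F) * ((n.factorial : F) * g) ∈ nS (H : Set F) m0 :=
    fun a ha => not_not.1 (Nat.find_min hex ha)
  generalize Nat.find hex = j0 at hspec hmin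
  have hj0 : j0 ≠ 0 := by
    rintro rfl
    exact hspec (by simpa using nS_zero_mem h0' m0)
  have hle : ∀ a ≤ j0, (a : F) * ((n.factorial : F) * g) ∈ nS (H : Set F) (m0 + 2) := by
    intro a ha
    rcases Nat.lt_or_ge a j0 with h | h
    · exact nS_mono h0' (by omega) (hmin a h)
    · obtain ⟨i, rfl⟩ : ∃ i, a = i + 1 := ⟨a - 1, by omega⟩
      have h1 := nS_add (hmin i (by omega)) (oap_two (hprog n.factorial le_rfl))
      have h2 : ((i + 1 : ℕ) : F) * ((n.factorial : F) * g) =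
          (i : F) * ((n.factorial : F) * g) + (n.factorial : F) * g := by push_cast; ring
      rw [h2]; exact h1
  refine ⟨_, hspec, fun M hM1 hMn => ?_⟩
  obtain ⟨d, hd⟩ := Nat.dvd_factorial hM1 hMn
  have hdF : (n.factorial : F) = (M : F) * (d : F) := by rw [hd]; push_cast; ring
  refine ⟨(j0 : F) * (d : F) * g, by rw [hdF]; ring, fun j hj => ?_⟩
  have hNpos := n.factorial_pos
  have hdm := Nat.div_add_mod (j * (j0 * d)) n.factorial
  have hb : j * (j0 * d) % n.factorial < n.factorial := Nat.mod_lt _ hNpos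
  have ha : j * (j0 * d) / n.factorial ≤ j0 := by
    apply Nat.div_le_of_le_mul
    calc j * (j0 * d) ≤ M * (j0 * d) := Nat.mul_le_mul_right _ hj
      _ = n.factorial * j0 := by rw [hd]; ring
  generalize j * (j0 * d) / n.factorial = a at hdm ha
  generalize j * (j0 * d) % n.factorial = b at hdm hb
  have hc : (n.factorial : F) * (a : F) + (b : F) = (j : F) * ((j0 : F) * (d : F)) := by
    exact_mod_cast congrArg (Nat.cast : ℕ → F) hdm
  have h1 := nS_add (hle a ha) (oap_two (hprog b hb.le))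
  have h2 : (j : F) * ((j0 : F) * (d : F) * g) =
      (a : F) * ((n.factorial : F) * g) + (b : F) * g := by linear_combination (-g) * hc
  rw [h2]; exact h1

end Pool.Agent.P.MP_862e21_al
end

-- part Pool.Agent.P.MP_862e21_al.Geo
section

namespace Pool.Agent.P.MP_862e21_al

open Finset Pointwise

theorem geo_real {N M X U α β : ℝ} (h1 : α + β = 2 * X * U) (h2 : U ^ 2 ≤ M) (h3 : M ≤ 2 * U)
    (h4 : 1 ≤ 2 * U) (h5 : 2 * X ≤ N) (h6 : N ≤ 1) (h7 : 0 < N) (h8 : 2 * U < 1 + M)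
    (h9 : 8 * X < 1 + N) (ha : N * M ≤ 2 * α ∨ 1 ≤ 2 * α) (hb : M ≤ 2 * β ∨ N ≤ 2 * β) :
    False := by
  have hU : 0 < U := by linarith
  have hXU : 4 * X * U ≤ 2 * N * U := by nlinarith
  rcases ha with ha | ha <;> rcases hb with hb | hb
  · have e1 : U * (U * (1 + N)) ≤ U * (4 * X) := by nlinarith
    have e2 := le_of_mul_le_mul_left e1 hU
    nlinarith
  · have e1 : N * (1 + M) ≤ N * (2 * U) := by nlinarith
    have e2 := le_of_mul_le_mul_left e1 h7
    linarith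
  · nlinarith
  · have e1 : U * U ≤ U * 2 := by nlinarith
    have e2 := le_of_mul_le_mul_left e1 hU
    have e3 : 0 < X := by
      by_contra e4
      nlinarith
    nlinarith

theorem geo_sq (z : ℂ) : ‖z‖ ^ 2 = z.re ^ 2 + z.im ^ 2 := by
  rw [Complex.sq_norm, Complex.normSq_apply]; ring

theorem geo_le1 {z : ℂ} (h : ‖1 - z‖ ≤ 1) : z.re ^ 2 + z.im ^ 2 ≤ 2 * z.re := by
  have h1 := pow_le_pow_left₀ (norm_nonneg _) h 2
  rw [geo_sq] at h1
  simp only [Complex.sub_re, Complex.one_re, Complex.sub_im, Complex.one_im] at h1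
  nlinarith

theorem geo_le2 {z : ℂ} (h : ‖1 - z‖ ≤ ‖z‖) : 1 ≤ 2 * z.re := by
  have h1 := pow_le_pow_left₀ (norm_nonneg _) h 2
  rw [geo_sq, geo_sq] at h1
  simp only [Complex.sub_re, Complex.one_re, Complex.sub_im, Complex.one_im] at h1
  nlinarith

theorem geo_le3 {z : ℂ} (h : 1 ≤ ‖1 - z‖) : 2 * z.re ≤ z.re ^ 2 + z.im ^ 2 := by
  have h1 := pow_le_pow_left₀ zero_le_one h 2
  rw [geo_sq] at h1
  simp only [Complex.sub_re, Complex.one_re, Complex.sub_im, Complex.one_im] at h1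
  nlinarith

theorem geo_le4 {z : ℂ} (h : ‖z‖ ≤ 1) : z.re ^ 2 + z.im ^ 2 ≤ 1 := by
  have h1 := pow_le_pow_left₀ (norm_nonneg _) h 2
  rwa [geo_sq, one_pow] at h1

theorem geo_core [DecidableEq ℂ] {s : ℂ} (h1 : ‖s‖ ≤ 1) (h2 : 1 ≤ ‖1 - s‖)
    (h3 : 8 * s.re < 1 + ‖s‖ ^ 2) {A B C : Finset ℂ} (h : Cl s A B C) {x y : ℂ} (hx : x ∈ A)
    (hy : y ∈ B) (hAB : ∀ a ∈ A, ∀ b ∈ B, ‖y - x‖ ≤ ‖b - a‖)
    (hAC : ∀ a ∈ A, ∀ b ∈ C, ‖y - x‖ ≤ ‖b - a‖) (hBC : ∀ a ∈ B, ∀ b ∈ C, ‖y - x‖ ≤ ‖b - a‖) :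
    False := by
  obtain ⟨z, hz⟩ := h.nC
  have yx : y - x ≠ 0 := sub_ne_zero.mpr fun e => disjoint_left.mp h.dAB hx (e ▸ hy)
  have zx : z - x ≠ 0 := sub_ne_zero.mpr fun e => disjoint_left.mp h.dAC hx (e ▸ hz)
  have zx' : 0 < ‖z - x‖ := norm_pos_iff.2 zx
  obtain ⟨w, hw⟩ : ∃ w, w = (z - y) / (z - x) := ⟨_, rfl⟩
  have hw1 : 1 - w = (y - x) / (z - x) := by rw [hw]; field_simp; ring
  have w1 : ‖1 - w‖ ≤ 1 := by
    rw [hw1, norm_div, div_le_one zx']
    exact hAC x hx z hz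
  have w2 : ‖1 - w‖ ≤ ‖w‖ := by
    rw [hw1, hw, norm_div, norm_div]
    exact div_le_div_of_nonneg_right (hBC y hy z hz) zx'.le
  have w3 : 0 < ‖1 - w‖ ^ 2 := by
    rw [hw1]
    exact pow_pos (norm_pos_iff.2 (div_ne_zero yx zx)) 2
  have key : ∀ t ∈ Lam s, ‖1 - t * w‖ ≤ 1 ∨ ‖1 - t * w‖ ≤ ‖t * w‖ := by
    intro t ht
    by_contra hc
    obtain ⟨c1, c2⟩ := not_or.1 hc
    rw [not_le] at c1 c2
    obtain ⟨p, hp, e⟩ := h.cl t ht x hx y hy z hz
    have e1 : p - y = t * w * (p - x) := by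
      rw [hw]; field_simp; linear_combination e
    have e2 : y - x = (1 - t * w) * (p - x) := by linear_combination -e1
    have px : 0 < ‖p - x‖ := norm_pos_iff.2 fun e3 => yx (by rw [e2, e3, mul_zero])
    have d1 : ‖p - x‖ < ‖y - x‖ := by
      rw [e2, norm_mul]
      exact lt_mul_of_one_lt_left px c1
    have d2 : ‖y - p‖ < ‖y - x‖ := by
      rw [norm_sub_rev y p, e1, e2, norm_mul, norm_mul (1 - t * w)]
      exact mul_lt_mul_of_pos_right c2 px
    rcases mem_union.1 hp with hp | hp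
    · rcases mem_union.1 hp with hp | hp
      · exact absurd (hAB p hp y hy) (not_le.2 d2)
      · exact absurd (hAB x hx p hp) (not_le.2 d1)
    · exact absurd (hAC x hx p hp) (not_le.2 d1)
  have k1 := (key s (self_mem_Lam s)).imp geo_le1 geo_le2
  have k2 := (key s⁻¹ (lam_inv h.l0 h.l1 (self_mem_Lam s))).imp geo_le1 geo_le2
  obtain ⟨τ, hτ⟩ : ∃ τ, τ = s⁻¹ * w := ⟨_, rfl⟩
  rw [← hτ] at k2
  have hs0 := h.l0
  have hwτ : w = s * τ := by rw [hτ]; field_simp
  have hU : w.re = s.re * τ.re - s.im * τ.im := by rw [hwτ, Complex.mul_re]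
  have hV : w.im = s.re * τ.im + s.im * τ.re := by rw [hwτ, Complex.mul_im]
  have hN : 0 < s.re ^ 2 + s.im ^ 2 := by
    rw [← geo_sq]; exact pow_pos (norm_pos_iff.2 hs0) 2
  rw [geo_sq] at h3 w3
  simp only [Complex.sub_re, Complex.one_re, Complex.sub_im, Complex.one_im] at w3
  rw [Complex.mul_re, Complex.mul_im] at k1
  have hβ : s.re * w.re + s.im * w.im = (s.re ^ 2 + s.im ^ 2) * τ.re := by rw [hU, hV]; ring
  have hM : w.re ^ 2 + w.im ^ 2 = (s.re ^ 2 + s.im ^ 2) * (τ.re ^ 2 + τ.im ^ 2) := by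
    rw [hU, hV]; ring
  refine geo_real (N := s.re ^ 2 + s.im ^ 2) (M := w.re ^ 2 + w.im ^ 2) (X := s.re) (U := w.re)
    (α := s.re * w.re - s.im * w.im) (β := s.re * w.re + s.im * w.im) (by ring)
    (by nlinarith) (geo_le1 w1) (geo_le2 w2) (geo_le3 h2) (geo_le4 h1) hN (by nlinarith) h3
    (k1.imp_left fun e => by nlinarith) (k2.imp (fun e => ?_) fun e => ?_)
  · rw [hβ, hM]; nlinarith
  · rw [hβ]; nlinarith

theorem geo [DecidableEq ℂ] {s : ℂ} (h1 : ‖s‖ ≤ 1) (h2 : 1 ≤ ‖1 - s‖)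
    (h3 : 8 * s.re < 1 + ‖s‖ ^ 2) {A B C : Finset ℂ} (h : Cl s A B C) : False := by
  obtain ⟨⟨x, y⟩, hp, hmin⟩ := exists_min_image (A ×ˢ B ∪ A ×ˢ C ∪ B ×ˢ C)
    (fun p : ℂ × ℂ => ‖p.2 - p.1‖) ((h.nA.product h.nB).mono (by
      intro p hp
      exact mem_union_left _ (mem_union_left _ hp)))
  have hAB : ∀ a ∈ A, ∀ b ∈ B, ‖y - x‖ ≤ ‖b - a‖ := fun a ha b hb =>
    hmin (a, b) (mem_union_left _ (mem_union_left _ (mk_mem_product ha hb)))
  have hAC : ∀ a ∈ A, ∀ b ∈ C, ‖y - x‖ ≤ ‖b - a‖ := fun a ha b hb =>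
    hmin (a, b) (mem_union_left _ (mem_union_right _ (mk_mem_product ha hb)))
  have hBC : ∀ a ∈ B, ∀ b ∈ C, ‖y - x‖ ≤ ‖b - a‖ := fun a ha b hb =>
    hmin (a, b) (mem_union_right _ (mk_mem_product ha hb))
  have sw : ∀ {P Q : Finset ℂ}, (∀ a ∈ P, ∀ b ∈ Q, ‖y - x‖ ≤ ‖b - a‖) →
      ∀ a ∈ Q, ∀ b ∈ P, ‖y - x‖ ≤ ‖b - a‖ := fun H a ha b hb => norm_sub_rev a b ▸ H b hb a ha
  rcases mem_union.1 hp with hp | hp
  · rcases mem_union.1 hp with hp | hp
    · exact geo_core h1 h2 h3 h (mem_product.1 hp).1 (mem_product.1 hp).2 hAB hAC hBC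
    · exact geo_core h1 h2 h3 h.swap23 (mem_product.1 hp).1 (mem_product.1 hp).2 hAC hAB (sw hBC)
  · exact geo_core h1 h2 h3 h.swap12.swap23 (mem_product.1 hp).1 (mem_product.1 hp).2 hBC
      (sw hAB) (sw hAC)

theorem geo_order [DecidableEq ℂ] {l : ℂ} (h0 : l ≠ 0) (h1 : l ≠ 1) :
    ∃ s ∈ Lam l, ‖s‖ ≤ 1 ∧ 1 ≤ ‖1 - s‖ := by
  have h2 : 1 - l ≠ 0 := sub_ne_zero.mpr h1.symm
  have h3 : l - 1 ≠ 0 := sub_ne_zero.mpr h1
  have ha : 0 < ‖l‖ := norm_pos_iff.2 h0
  have hb : 0 < ‖1 - l‖ := norm_pos_iff.2 h2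
  have e1 : 1 - l⁻¹ = (l - 1) / l := by field_simp
  have e2 : 1 - (l - 1) / l = l⁻¹ := by field_simp; ring
  have e3 : 1 - (1 - l)⁻¹ = l / (l - 1) := by field_simp; ring
  have e4 : 1 - l / (l - 1) = (1 - l)⁻¹ := by field_simp; ring
  have n1 : ‖(l - 1) / l‖ = ‖1 - l‖ / ‖l‖ := by rw [norm_div, norm_sub_rev]
  have n2 : ‖l / (l - 1)‖ = ‖l‖ / ‖1 - l‖ := by rw [norm_div, norm_sub_rev]
  rcases le_total ‖l‖ 1 with a1 | a1 <;> rcases le_total ‖1 - l‖ 1 with b1 | b1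
  · rcases le_total ‖l‖ ‖1 - l‖ with c | c
    · refine ⟨l / (l - 1), by simp [mem_Lam], ?_, ?_⟩
      · rwa [n2, div_le_one hb]
      · rwa [e4, norm_inv, one_le_inv₀ hb]
    · refine ⟨(l - 1) / l, by simp [mem_Lam], ?_, ?_⟩
      · rwa [n1, div_le_one ha]
      · rwa [e2, norm_inv, one_le_inv₀ ha]
  · exact ⟨l, self_mem_Lam l, a1, b1⟩
  · exact ⟨1 - l, by simp [mem_Lam], b1, by rwa [sub_sub_cancel]⟩
  · rcases le_total ‖l‖ ‖1 - l‖ with c | c
    · refine ⟨l⁻¹, by simp [mem_Lam], ?_, ?_⟩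
      · rwa [norm_inv, inv_le_one₀ ha]
      · rwa [e1, n1, one_le_div ha]
    · refine ⟨(1 - l)⁻¹, by simp [mem_Lam], ?_, ?_⟩
      · rwa [norm_inv, inv_le_one₀ hb]
      · rwa [e3, n2, one_le_div hb]

theorem geo_inv [DecidableEq ℂ] {l s : ℂ} (h0 : l ≠ 0) (h1 : l ≠ 1) (hs : s ∈ Lam l) :
    (s ^ 2 - s + 1) ^ 3 * (l ^ 2 * (1 - l) ^ 2) = (l ^ 2 - l + 1) ^ 3 * (s ^ 2 * (1 - s) ^ 2) := by
  have h2 : 1 - l ≠ 0 := sub_ne_zero.mpr h1.symm
  have h3 : l - 1 ≠ 0 := sub_ne_zero.mpr h1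
  rcases mem_Lam.mp hs with h | h | h | h | h | h <;> subst h
  · rfl
  · field_simp; ring
  · ring
  · field_simp; ring
  · field_simp; ring
  · field_simp; ring

theorem geo_pick [DecidableEq ℂ] {l : ℂ} (h0 : l ≠ 0) (h1 : l ≠ 1)
    (hJ : ‖l ^ 2 * (1 - l) ^ 2‖ ≤ ‖(l ^ 2 - l + 1) ^ 3‖) :
    ∃ s ∈ Lam l, ‖s‖ ≤ 1 ∧ 1 ≤ ‖1 - s‖ ∧ 8 * s.re < 1 + ‖s‖ ^ 2 := by
  obtain ⟨s, hs, a1, a2⟩ := geo_order h0 h1
  refine ⟨s, hs, a1, a2, ?_⟩
  have hp : 0 < ‖l ^ 2 * (1 - l) ^ 2‖ := norm_pos_iff.2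
    (mul_ne_zero (pow_ne_zero _ h0) (pow_ne_zero _ (sub_ne_zero.mpr h1.symm)))
  have e := congrArg norm (geo_inv h0 h1 hs)
  rw [norm_mul, norm_mul ((l ^ 2 - l + 1) ^ 3)] at e
  have hJ' : ‖s ^ 2 * (1 - s) ^ 2‖ ≤ ‖(s ^ 2 - s + 1) ^ 3‖ := by
    refine le_of_mul_le_mul_right ?_ hp
    rw [e, mul_comm]
    exact mul_le_mul_of_nonneg_right hJ (norm_nonneg _)
  rw [norm_mul, norm_pow, norm_pow, norm_pow] at hJ'
  by_contra hc
  rw [not_lt] at hc
  have b1 := geo_le3 a2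
  have b2 := geo_le4 a1
  have b3 := geo_sq s
  have b4 : 1 ≤ ‖1 - s‖ ^ 2 := one_le_pow₀ a2
  have b5 : 1 / 3 ≤ ‖s‖ ^ 2 := by linarith
  have b6 : 1 / 3 ≤ ‖s ^ 2 - s + 1‖ ^ 3 := by nlinarith
  have b7 : ‖s ^ 2 - s + 1‖ ^ 2 ≤ (2 / 3) ^ 2 := by
    have e1 : ‖s ^ 2 - s + 1‖ ^ 2 = (1 - 2 * s.re) ^ 2 -
        (1 - (s.re ^ 2 + s.im ^ 2)) * ((s.re ^ 2 + s.im ^ 2) - 2 * s.re) := by
      rw [geo_sq]
      simp only [sq, Complex.add_re, Complex.sub_re, Complex.mul_re, Complex.one_re,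
        Complex.add_im, Complex.sub_im, Complex.mul_im, Complex.one_im]
      ring
    have e2 : 0 ≤ (1 - (s.re ^ 2 + s.im ^ 2)) * ((s.re ^ 2 + s.im ^ 2) - 2 * s.re) :=
      mul_nonneg (by linarith) (by linarith)
    have e3 : (1 - 2 * s.re) ^ 2 ≤ (2 / 3) ^ 2 :=
      pow_le_pow_left₀ (by linarith) (by linarith) 2
    linarith
  have b8 : ‖s ^ 2 - s + 1‖ ≤ 2 / 3 := le_of_pow_le_pow_left₀ two_ne_zero (by norm_num) b7
  have b9 := pow_le_pow_left₀ (norm_nonneg _) b8 3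
  norm_num at b9
  linarith

theorem geo_coprime {n : ℕ} (hn : 2 ≤ n) (h6 : n ≠ 6) :
    ∃ k : ℕ, k.Coprime n ∧ n ≤ 4 * k ∧ 4 * k ≤ 3 * n := by
  rcases Nat.even_or_odd' n with ⟨a, rfl | rfl⟩
  · rcases Nat.even_or_odd' a with ⟨m, rfl | rfl⟩
    · refine ⟨2 * m + 1, Nat.isCoprime_iff_coprime.1 ⟨1 - 2 * m, m, ?_⟩, by omega, by omega⟩
      push_cast; ring
    · by_cases hm : m = 0
      · subst hm
        exact ⟨1, by norm_num, by norm_num, by norm_num⟩
      · refine ⟨2 * m + 3, Nat.isCoprime_iff_coprime.1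
          ⟨2 * m + 3 - 2 * (m ^ 2 + 3 * m + 2), m ^ 2 + 3 * m + 2, ?_⟩, by omega, by omega⟩
        push_cast; ring
  · refine ⟨a + 1, Nat.isCoprime_iff_coprime.1 ⟨2, -1, ?_⟩, by omega, by omega⟩
    push_cast; ring

theorem root_pick {n : ℕ} (hn : 2 ≤ n) (h6 : n ≠ 6) :
    ∃ ζ : ℂ, IsPrimitiveRoot ζ n ∧ ζ.re ≤ 0 := by
  obtain ⟨k, h1, h2, h3⟩ := geo_coprime hn h6
  refine ⟨_, Complex.isPrimitiveRoot_exp_of_coprime k n (by omega) h1, ?_⟩
  have e : (2 * Real.pi * Complex.I * ((k : ℂ) / n)) =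
      ((2 * Real.pi * (k / n) : ℝ) : ℂ) * Complex.I := by
    push_cast; ring
  rw [e, Complex.exp_ofReal_mul_I_re]
  have hn0 : (0 : ℝ) < n := by exact_mod_cast (by omega : 0 < n)
  have h2' : (n : ℝ) ≤ 4 * k := by exact_mod_cast h2
  have h3' : (4 : ℝ) * k ≤ 3 * n := by exact_mod_cast h3
  have a1 : (1 : ℝ) / 4 ≤ k / n := by rw [le_div_iff₀ hn0]; linarith
  have a2 : (k : ℝ) / n ≤ 3 / 4 := by rw [div_le_iff₀ hn0]; linarith
  have := Real.pi_pos
  exact Real.cos_nonpos_of_pi_div_two_le_of_le (by nlinarith) (by nlinarith)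

end Pool.Agent.P.MP_862e21_al
end

-- part Pool.Agent.P.MP_862e21_al.Tree
section

namespace Pool.Agent.P.MP_862e21_al

open Finset Pointwise

variable {F : Type*} [Field F] [DecidableEq F]

theorem tree_core {l : F} {A B C : Finset F} (h : Cl l A B C) (O : ValuationSubring F) {s : F}
    (hs : s ∈ Lam l) (hv : O.valuation s < 1) {y0 z : F} (hy0 : y0 ∈ B) (hz : z ∈ C)
    (mAB : ∀ a ∈ A, ∀ b ∈ B, O.valuation (y0 - z) ≤ O.valuation (a - b))
    (mAC : ∀ a ∈ A, ∀ c ∈ C, O.valuation (y0 - z) ≤ O.valuation (a - c))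
    (mBC : ∀ b ∈ B, ∀ c ∈ C, O.valuation (y0 - z) ≤ O.valuation (b - c)) :
    ∃ m : ℕ, 1 ≤ m ∧ (1 - s) ^ m = 1 := by
  obtain ⟨x, hx⟩ := h.nA
  generalize O.valuation = v at *
  have hBC : ∀ y ∈ B, y - z ≠ 0 := fun y hy =>
    sub_ne_zero.2 fun e => disjoint_left.1 h.dBC hy (e ▸ hz)
  have hBx : ∀ y ∈ B, y - x ≠ 0 := fun y hy =>
    sub_ne_zero.2 fun e => disjoint_left.1 h.dAB hx (e ▸ hy)
  have zx : z - x ≠ 0 := sub_ne_zero.2 fun e => disjoint_left.1 h.dAC hx (e ▸ hz)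
  have vzx : 0 < v (z - x) := (Valuation.pos_iff v).2 zx
  have hδ : 0 < v (y0 - z) := (Valuation.pos_iff v).2 (hBC y0 hy0)
  have hδx : v (y0 - z) ≤ v (z - x) := by
    rw [v.map_sub_swap z x]
    exact mAC x hx z hz
  have hsδ : v s * v (y0 - z) < v (y0 - z) := mul_lt_of_lt_one_left hδ hv
  have step : ∀ y ∈ B, v (y - z) = v (y0 - z) → ∃ p ∈ B, v (p - z) = v (y0 - z) ∧
      (p - x)⁻¹ - (z - x)⁻¹ = (1 - s) * ((y - x)⁻¹ - (z - x)⁻¹) := by
    intro y hy hyδ
    obtain ⟨p, hp, e⟩ := h.cl s hs x hx y hy z hz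
    have e1 : (p - x) * (z - x - s * (z - y)) = (y - x) * (z - x) := by linear_combination e
    have v1 : v (z - x - s * (z - y)) = v (z - x) := by
      refine v.map_sub_eq_of_lt_left ?_
      rw [map_mul, v.map_sub_swap z y, hyδ]
      exact hsδ.trans_le hδx
    have v2 : v (p - x) = v (y - x) := by
      have := congrArg v e1
      rw [map_mul, map_mul, v1] at this
      exact mul_right_cancel₀ vzx.ne' this
    have v3 : v (y - x) ≤ v (z - x) := by
      have : y - x = (y - z) + (z - x) := by ring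
      rw [this]
      exact v.map_add_le (hyδ.le.trans hδx) le_rfl
    have v4 : v (p - y) < v (y0 - z) := by
      have h1 := congrArg v e
      rw [map_mul, map_mul, map_mul, v.map_sub_swap z y, hyδ, v2] at h1
      have h2 : v (p - y) * v (z - x) ≤ v s * v (y0 - z) * v (z - x) := by
        rw [h1]
        exact mul_le_mul_right v3 _
      exact (le_of_mul_le_mul_right h2 vzx).trans_lt hsδ
    have hpB : p ∈ B := by
      rcases mem_union.1 hp with hp | hp
      · rcases mem_union.1 hp with hp | hp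
        · exact absurd (mAB p hp y hy) (not_le.2 v4)
        · exact hp
      · rw [v.map_sub_swap] at v4
        exact absurd (mBC y hy p hp) (not_le.2 v4)
    refine ⟨p, hpB, ?_, ?_⟩
    · have : p - z = (y - z) + (p - y) := by ring
      rw [this, v.map_add_eq_of_lt_left (by rwa [hyδ]), hyδ]
    · have h1 := hBx p hpB
      have h2 := hBx y hy
      field_simp
      linear_combination -e
  have all : ∀ n : ℕ, (1 - s) ^ n * ((y0 - x)⁻¹ - (z - x)⁻¹) ∈
      (fun y => (y - x)⁻¹ - (z - x)⁻¹) '' {y | y ∈ B ∧ v (y - z) = v (y0 - z)} := by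
    intro n
    induction n with
    | zero => exact ⟨y0, ⟨hy0, rfl⟩, by rw [pow_zero, one_mul]⟩
    | succ n ih =>
      obtain ⟨y, ⟨hy, hyδ⟩, e⟩ := ih
      obtain ⟨p, hp, hpδ, e'⟩ := step y hy hyδ
      refine ⟨p, ⟨hp, hpδ⟩, ?_⟩
      simp only at e ⊢
      rw [e', e]
      ring
  have fin : ((fun y => (y - x)⁻¹ - (z - x)⁻¹) ''
      {y | y ∈ B ∧ v (y - z) = v (y0 - z)}).Finite :=
    (B.finite_toSet.subset fun y hy => hy.1).image _
  obtain ⟨a, b, hab, e⟩ := fin.exists_lt_map_eq_of_forall_mem all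
  have t0 : (y0 - x)⁻¹ - (z - x)⁻¹ ≠ 0 := fun e =>
    hBC y0 hy0 (sub_eq_zero.2 (sub_left_injective (inv_injective (sub_eq_zero.1 e))))
  have s1 : 1 - s ≠ 0 := sub_ne_zero.2 (lam_ne_one h.l0 h.l1 hs).symm
  obtain ⟨m, rfl⟩ := Nat.exists_eq_add_of_lt hab
  refine ⟨m + 1, by omega, mul_left_cancel₀ (pow_ne_zero a s1) ?_⟩
  rw [← pow_add, ← add_assoc, mul_one]
  exact (mul_right_cancel₀ t0 e).symm

theorem tree {l : F} {A B C : Finset F} (h : Cl l A B C) (O : ValuationSubring F) {s : F}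
    (hs : s ∈ Lam l) (hv : O.valuation s < 1) : ∃ m : ℕ, 1 ≤ m ∧ (1 - s) ^ m = 1 := by
  obtain ⟨a0, ha0⟩ := h.nA
  obtain ⟨b0, hb0⟩ := h.nB
  obtain ⟨⟨y, z⟩, hm, hmin⟩ := exists_min_image (A ×ˢ B ∪ A ×ˢ C ∪ B ×ˢ C)
    (fun p => O.valuation (p.1 - p.2))
    ⟨(a0, b0), mem_union_left _ (mem_union_left _ (mem_product.2 ⟨ha0, hb0⟩))⟩
  have mAB : ∀ a ∈ A, ∀ b ∈ B, O.valuation (y - z) ≤ O.valuation (a - b) := fun a ha b hb =>
    hmin (a, b) (mem_union_left _ (mem_union_left _ (mem_product.2 ⟨ha, hb⟩)))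
  have mAC : ∀ a ∈ A, ∀ c ∈ C, O.valuation (y - z) ≤ O.valuation (a - c) := fun a ha c hc =>
    hmin (a, c) (mem_union_left _ (mem_union_right _ (mem_product.2 ⟨ha, hc⟩)))
  have mBC : ∀ b ∈ B, ∀ c ∈ C, O.valuation (y - z) ≤ O.valuation (b - c) := fun b hb c hc =>
    hmin (b, c) (mem_union_right _ (mem_product.2 ⟨hb, hc⟩))
  have sw : ∀ {X Y : Finset F}, (∀ a ∈ X, ∀ b ∈ Y, O.valuation (y - z) ≤ O.valuation (a - b)) →
      ∀ b ∈ Y, ∀ a ∈ X, O.valuation (y - z) ≤ O.valuation (b - a) := fun H b hb a ha => by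
    rw [O.valuation.map_sub_swap b a]
    exact H a ha b hb
  rcases mem_union.1 hm with hm | hm
  · rcases mem_union.1 hm with hm | hm
    · obtain ⟨h1, h2⟩ := mem_product.1 hm
      exact tree_core h.swap23.swap12 O hs hv h1 h2 (sw mAC) (sw mBC) mAB
    · obtain ⟨h1, h2⟩ := mem_product.1 hm
      exact tree_core h.swap12 O hs hv h1 h2 (sw mAB) mBC mAC
  · obtain ⟨h1, h2⟩ := mem_product.1 hm
    exact tree_core h O hs hv h1 h2 mAB mAC mBC

theorem rootOrInt {l : F} {A B C : Finset F} (h : Cl l A B C) :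
    (∃ t ∈ Lam l, ∃ m : ℕ, 1 ≤ m ∧ t ^ m = 1) ∨ ∀ s ∈ Lam l, IsIntegral ℤ s := by
  refine or_iff_not_imp_right.2 fun hn => ?_
  obtain ⟨s, hs, hi⟩ : ∃ s ∈ Lam l, ¬ IsIntegral ℤ s := by
    by_contra h'
    exact hn fun s hs => not_not.1 fun h2 => h' ⟨s, hs, h2⟩
  obtain ⟨O, -, hO⟩ := Subring.exists_le_valuationSubring_of_isIntegrallyClosedIn
    (R := (integralClosure ℤ F).toSubring) (x := s) hi
  have h1 : 1 < O.valuation s := not_le.1 fun h2 => hO ((O.valuation_le_one_iff s).1 h2)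
  have h2 : O.valuation s⁻¹ < 1 := by
    rw [map_inv₀]
    exact inv_lt_one_of_one_lt₀ h1
  have h3 := lam_inv h.l0 h.l1 hs
  exact ⟨1 - s⁻¹, lam_one_sub h.l0 h.l1 h3, tree h O h3 h2⟩

omit [DecidableEq F] in
theorem tree_fin {k : Type*} [Field k] [Finite k] [Algebra k F] {x : F} (hx : IsIntegral k x)
    (h0 : x ≠ 0) : ∃ m : ℕ, 1 ≤ m ∧ x ^ m = 1 := by
  have := IntermediateField.adjoin.finiteDimensional hx
  have : Finite (IntermediateField.adjoin k {x}) := Module.finite_of_finite k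
  have := Fintype.ofFinite (IntermediateField.adjoin k {x})
  have h1 : IntermediateField.AdjoinSimple.gen k x ≠ 0 := fun e => h0 (congrArg Subtype.val e)
  have h2 := FiniteField.pow_card_sub_one_eq_one _ h1
  have h3 : 1 < Fintype.card (IntermediateField.adjoin k {x}) := Fintype.one_lt_card
  exact ⟨_, by omega, congrArg Subtype.val h2⟩

theorem charP_case {l : F} {A B C : Finset F} (h : Cl l A B C) {p : ℕ} (hp : p.Prime)
    [CharP F p] : ∃ m : ℕ, 1 ≤ m ∧ l ^ m = 1 ∧ (1 - l) ^ m = 1 := by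
  have := Fact.mk hp
  let _ := ZMod.algebra F p
  have hl : IsIntegral (ZMod p) l := by
    rcases rootOrInt h with ⟨t, ht, m, hm, e⟩ | h1
    · have h1 : t ∈ algebraicClosure (ZMod p) F :=
        mem_algebraicClosure_iff'.2 (IsIntegral.of_pow hm (e ▸ isIntegral_one))
      have h2 := (algebraicClosure (ZMod p) F).one_mem
      refine mem_algebraicClosure_iff'.1 ?_
      rcases mem_Lam.1 (lam_symm h.l0 h.l1 ht) with e | e | e | e | e | e <;> rw [e]
      · exact h1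
      · exact inv_mem h1
      · exact sub_mem h2 h1
      · exact inv_mem (sub_mem h2 h1)
      · exact div_mem (sub_mem h1 h2) h1
      · exact div_mem h1 (sub_mem h1 h2)
    · exact (h1 l (self_mem_Lam l)).tower_top
  obtain ⟨a, ha, ea⟩ := tree_fin hl h.l0
  obtain ⟨b, hb, eb⟩ := tree_fin (isIntegral_one.sub hl) (sub_ne_zero.2 h.l1.symm)
  refine ⟨a * b, Nat.mul_pos ha hb, ?_, ?_⟩
  · rw [pow_mul, ea, one_pow]
  · rw [mul_comm, pow_mul, eb, one_pow]

end Pool.Agent.P.MP_862e21_al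
end

-- part Pool.Agent.P.MP_862e21_al.Spec
section

namespace Pool.Agent.P.MP_862e21_al

open Finset Pointwise

variable {F : Type*} [Field F] [DecidableEq F]

/-- a point over a prescribed root, for an algebra of finite type over a field -/
theorem spec_point {k R L : Type*} [Field k] [CommRing R] [Nontrivial R] [Algebra k R]
    [Algebra.FiniteType k R] [Field L] [IsAlgClosed L] [Algebra k L] {p : Polynomial k}
    (hp : Irreducible p) (hm : p.Monic) {r : R} (hr : Polynomial.aeval r p = 0) {y : L}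
    (hy : Polynomial.aeval y p = 0) : ∃ φ : R →ₐ[k] L, φ r = y := by
  obtain ⟨m, hm'⟩ := Ideal.exists_maximal R
  let _ : Field (R ⧸ m) := Ideal.Quotient.field m
  have : Module.Finite k (R ⧸ m) := finite_of_finite_type_of_isJacobsonRing k (R ⧸ m)
  let π : R →ₐ[k] (R ⧸ m) := Ideal.Quotient.mkₐ k m
  have h1 : Polynomial.aeval (π r) p = 0 := by
    rw [Polynomial.aeval_algHom_apply, hr, map_zero]
  have h2 : p = minpoly k (π r) := minpoly.eq_of_irreducible_of_monic hp h1 hm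
  obtain ⟨φ, hφ⟩ := IntermediateField.exists_algHom_of_splits_of_aeval (F := k) (E := R ⧸ m)
    (K := L) (fun s => ⟨Algebra.IsIntegral.isIntegral s, IsAlgClosed.splits _⟩) (x := π r)
    (y := y) (by rw [← h2]; exact hy)
  exact ⟨φ.comp π, hφ⟩

omit [DecidableEq F] in
/-- a finitely generated subalgebra has a complex point over every conjugate of `l` -/
theorem spec_hom [CharZero F] {l : F} (S : Finset F) (hS : l ∈ S)
    (hl : IsIntegral ℚ l) {l' : ℂ} (hl' : Polynomial.aeval l' (minpoly ℚ l) = 0) :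
    ∃ (R : Subalgebra ℚ F) (g : F → ℂ), (∀ x ∈ S, x ∈ R) ∧ g l = l' ∧ g 1 = 1 ∧
      (∀ x ∈ R, ∀ y ∈ R, g (x - y) = g x - g y) ∧ (∀ x ∈ R, ∀ y ∈ R, g (x * y) = g x * g y) := by
  classical
  let R : Subalgebra ℚ F := Algebra.adjoin ℚ (S : Set F)
  have hR : ∀ x ∈ S, x ∈ R := fun x hx => Algebra.subset_adjoin (by simpa using hx)
  have : Algebra.FiniteType ℚ R := (Subalgebra.fg_iff_finiteType R).mp ⟨S, rfl⟩
  let l0 : R := ⟨l, hR l hS⟩
  have h0 : Polynomial.aeval l0 (minpoly ℚ l) = 0 := by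
    apply Subtype.ext
    have := Polynomial.aeval_algHom_apply R.val l0 (minpoly ℚ l)
    have e : R.val l0 = l := rfl
    rw [e, minpoly.aeval] at this
    exact this.symm
  obtain ⟨φ, hφ⟩ := spec_point (minpoly.irreducible hl) (minpoly.monic hl) h0 hl'
  refine ⟨R, fun x => if h : x ∈ R then φ ⟨x, h⟩ else 0, hR, ?_, ?_, ?_, ?_⟩
  · simp only [dif_pos (hR l hS)]
    exact hφ
  · simp only [dif_pos R.one_mem]
    have : (⟨1, R.one_mem⟩ : R) = 1 := rfl
    rw [this, map_one]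
  · intro x hx y hy
    simp only [dif_pos hx, dif_pos hy, dif_pos (R.sub_mem hx hy)]
    have : (⟨x - y, R.sub_mem hx hy⟩ : R) = ⟨x, hx⟩ - ⟨y, hy⟩ := rfl
    rw [this, map_sub]
  · intro x hx y hy
    simp only [dif_pos hx, dif_pos hy, dif_pos (R.mul_mem hx hy)]
    have : (⟨x * y, R.mul_mem hx hy⟩ : R) = ⟨x, hx⟩ * ⟨y, hy⟩ := rfl
    rw [this, map_mul]

theorem specialise [CharZero F] [DecidableEq ℂ] {l : F} {A B C : Finset F} (h : Cl l A B C)
    (hl : IsIntegral ℚ l) {l' : ℂ} (hl' : Polynomial.aeval l' (minpoly ℚ l) = 0) :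
    ∃ A' B' C' : Finset ℂ, Cl l' A' B' C' := by
  set P : Finset F := A ∪ B ∪ C with hP
  obtain ⟨R, g, hR, gl, g1, gsub, gmul⟩ := spec_hom
    (P ∪ (P ×ˢ P).image (fun q => (q.1 - q.2)⁻¹) ∪ {l, l⁻¹, (1 - l)⁻¹}) (by simp) hl hl'
  have hPR : ∀ x ∈ P, x ∈ R := fun x hx => hR x (mem_union_left _ (mem_union_left _ hx))
  have hdR : ∀ x ∈ P, ∀ y ∈ P, (x - y)⁻¹ ∈ R := fun x hx y hy =>
    hR _ (mem_union_left _ (mem_union_right _ (mem_image.mpr ⟨(x, y), mem_product.mpr ⟨hx, hy⟩, rfl⟩)))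
  have lR : l ∈ R := hR _ (by simp)
  have liR : l⁻¹ ∈ R := hR _ (by simp)
  have l1R : (1 - l)⁻¹ ∈ R := hR _ (by simp)
  have ginv : ∀ x ∈ R, x ≠ 0 → x⁻¹ ∈ R → g x * g x⁻¹ = 1 := by
    intro x hx x0 hi
    rw [← gmul x hx _ hi, mul_inv_cancel₀ x0, g1]
  have sep : ∀ x ∈ P, ∀ y ∈ P, g x = g y → x = y := by
    intro x hx y hy e
    by_contra hne
    have := ginv (x - y) (R.sub_mem (hPR x hx) (hPR y hy)) (sub_ne_zero.mpr hne) (hdR x hx y hy)
    rw [gsub x (hPR x hx) y (hPR y hy), e, sub_self, zero_mul] at this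
    exact zero_ne_one this
  have l10 : 1 - l ≠ 0 := sub_ne_zero.mpr h.l1.symm
  have e1 : l' * g l⁻¹ = 1 := by rw [← gl]; exact ginv l lR h.l0 liR
  have g1l : g (1 - l) = 1 - l' := by rw [gsub 1 R.one_mem l lR, g1, gl]
  have e2 : (1 - l') * g (1 - l)⁻¹ = 1 := by
    rw [← g1l]; exact ginv _ (R.sub_mem R.one_mem lR) l10 l1R
  have l'0 : l' ≠ 0 := left_ne_zero_of_mul_eq_one e1
  have l'1 : 1 - l' ≠ 0 := left_ne_zero_of_mul_eq_one e2
  have f1 : g l⁻¹ = l'⁻¹ := eq_inv_of_mul_eq_one_right e1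
  have f2 : g (1 - l)⁻¹ = (1 - l')⁻¹ := eq_inv_of_mul_eq_one_right e2
  have hA : ∀ x ∈ A, x ∈ P := fun x hx => by simp [hP, hx]
  have hB : ∀ x ∈ B, x ∈ P := fun x hx => by simp [hP, hx]
  have hC : ∀ x ∈ C, x ∈ P := fun x hx => by simp [hP, hx]
  have disj : ∀ X Y : Finset F, (∀ x ∈ X, x ∈ P) → (∀ x ∈ Y, x ∈ P) → Disjoint X Y →
      Disjoint (X.image g) (Y.image g) := by
    intro X Y hX hY hd
    rw [disjoint_left]
    intro v hv hv'
    obtain ⟨x, hx, rfl⟩ := mem_image.mp hv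
    obtain ⟨y, hy, e⟩ := mem_image.mp hv'
    have := sep y (hY y hy) x (hX x hx) e
    exact disjoint_left.mp hd hx (this ▸ hy)
  have lam : ∀ s' ∈ Lam l', ∃ s ∈ Lam l, s ∈ R ∧ g s = s' := by
    intro s' hs'
    have l1' : l - 1 ≠ 0 := sub_ne_zero.mpr h.l1
    have l1'' : l' - 1 ≠ 0 := fun e => l'1 (by linear_combination -e)
    rcases mem_Lam.mp hs' with e | e | e | e | e | e <;> subst e
    · exact ⟨l, by simp [mem_Lam], lR, gl⟩
    · exact ⟨l⁻¹, by simp [mem_Lam], liR, f1⟩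
    · exact ⟨1 - l, by simp [mem_Lam], R.sub_mem R.one_mem lR, g1l⟩
    · exact ⟨(1 - l)⁻¹, by simp [mem_Lam], l1R, f2⟩
    · have e : (l - 1) / l = 1 - l⁻¹ := by have := h.l0; field_simp
      refine ⟨(l - 1) / l, by simp [mem_Lam], e ▸ R.sub_mem R.one_mem liR, ?_⟩
      rw [e, gsub 1 R.one_mem _ liR, g1, f1]
      field_simp
    · have e : l / (l - 1) = 1 - (1 - l)⁻¹ := by field_simp; ring
      refine ⟨l / (l - 1), by simp [mem_Lam], e ▸ R.sub_mem R.one_mem l1R, ?_⟩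
      rw [e, gsub 1 R.one_mem _ l1R, g1, f2]
      field_simp
      ring
  refine ⟨A.image g, B.image g, C.image g, l'0, fun e => l'1 (by rw [e, sub_self]),
    h.nA.image g, h.nB.image g, h.nC.image g, disj A B hA hB h.dAB, disj A C hA hC h.dAC,
    disj B C hB hC h.dBC, ?_⟩
  intro s' hs' x' hx' y' hy' z' hz'
  obtain ⟨s, hs, sR, rfl⟩ := lam s' hs'
  obtain ⟨x, hx, rfl⟩ := mem_image.mp hx'
  obtain ⟨y, hy, rfl⟩ := mem_image.mp hy'
  obtain ⟨z, hz, rfl⟩ := mem_image.mp hz'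
  obtain ⟨p, hp, e⟩ := h.cl s hs x hx y hy z hz
  have xR := hPR x (hA x hx)
  have yR := hPR y (hB y hy)
  have zR := hPR z (hC z hz)
  have pR := hPR p hp
  refine ⟨g p, ?_, ?_⟩
  · rw [← image_union, ← image_union]
    exact mem_image_of_mem g hp
  · have := congrArg g e
    rw [gmul _ (R.sub_mem pR yR) _ (R.sub_mem zR xR),
      gmul _ (R.mul_mem sR (R.sub_mem zR yR)) _ (R.sub_mem pR xR),
      gmul _ sR _ (R.sub_mem zR yR), gsub _ pR _ yR, gsub _ zR _ xR, gsub _ zR _ yR,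
      gsub _ pR _ xR] at this
    exact this

end Pool.Agent.P.MP_862e21_al
end

-- part Pool.Agent.P.MP_862e21_al.Char0
section

namespace Pool.Agent.P.MP_862e21_al

open Finset Pointwise

variable {F : Type*} [Field F] [DecidableEq F]

theorem char0_nf {K : Type*} [Field K] [NumberField K] {g : K} (h0 : g ≠ 0) (h1 : 1 - g ≠ 0)
    (h6 : g ^ 2 - g + 1 ≠ 0) (i0 : IsIntegral ℤ g) (i1 : IsIntegral ℤ g⁻¹)
    (i2 : IsIntegral ℤ (1 - g)⁻¹) :
    ∃ σ : K →+* ℂ, ‖σ g ^ 2 * (1 - σ g) ^ 2‖ ≤ ‖(σ g ^ 2 - σ g + 1) ^ 3‖ := by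
  have hJ : IsIntegral ℤ ((g ^ 2 - g + 1) ^ 3 * (g⁻¹) ^ 2 * ((1 - g)⁻¹) ^ 2) :=
    ((((i0.pow 2).sub i0).add isIntegral_one).pow 3).mul (i1.pow 2) |>.mul (i2.pow 2)
  have hne : (g ^ 2 - g + 1) ^ 3 * (g⁻¹) ^ 2 * ((1 - g)⁻¹) ^ 2 ≠ 0 :=
    mul_ne_zero (mul_ne_zero (pow_ne_zero _ h6) (pow_ne_zero _ (inv_ne_zero h0)))
      (pow_ne_zero _ (inv_ne_zero h1))
  obtain ⟨σ, hσ⟩ : ∃ σ : K →+* ℂ,
      1 ≤ ‖σ ((g ^ 2 - g + 1) ^ 3 * (g⁻¹) ^ 2 * ((1 - g)⁻¹) ^ 2)‖ := by
    apply NumberField.exists_conjugate_one_le_norm (K := K) (α := ⟨_, hJ⟩)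
    intro hz
    exact hne (congrArg (fun x : NumberField.RingOfIntegers K => (x : K)) hz)
  refine ⟨σ, ?_⟩
  have a0 : σ g ≠ 0 := (map_ne_zero σ).mpr h0
  have a1 : 1 - σ g ≠ 0 := by
    have := (map_ne_zero σ).mpr h1
    simpa using this
  have e : (σ g ^ 2 - σ g + 1) ^ 3 =
      σ ((g ^ 2 - g + 1) ^ 3 * (g⁻¹) ^ 2 * ((1 - g)⁻¹) ^ 2) * (σ g ^ 2 * (1 - σ g) ^ 2) := by
    simp only [map_mul, map_pow, map_add, map_sub, map_one, map_inv₀]
    field_simp
  rw [e, norm_mul (σ _)]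
  exact le_mul_of_one_le_left (norm_nonneg _) hσ

theorem conj_big [CharZero F] {l : F} (h0 : l ≠ 0) (h1 : l ≠ 1) (h6 : l ^ 2 - l + 1 ≠ 0)
    (hi : ∀ s ∈ Lam l, IsIntegral ℤ s) :
    ∃ l' : ℂ, Polynomial.aeval l' (minpoly ℚ l) = 0 ∧
      ‖l' ^ 2 * (1 - l') ^ 2‖ ≤ ‖(l' ^ 2 - l' + 1) ^ 3‖ := by
  have i0 : IsIntegral ℤ l := hi l (self_mem_Lam l)
  have i1 : IsIntegral ℤ l⁻¹ := hi _ (lam_inv h0 h1 (self_mem_Lam l))
  have i2 : IsIntegral ℤ (1 - l)⁻¹ := hi _ (lam_inv h0 h1 (lam_one_sub h0 h1 (self_mem_Lam l)))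
  have iq : IsIntegral ℚ l := i0.tower_top
  have : FiniteDimensional ℚ (IntermediateField.adjoin ℚ ({l} : Set F)) :=
    IntermediateField.adjoin.finiteDimensional iq
  have : NumberField (IntermediateField.adjoin ℚ ({l} : Set F)) := {}
  set g : IntermediateField.adjoin ℚ ({l} : Set F) := IntermediateField.AdjoinSimple.gen ℚ l
    with hg
  have hgl : algebraMap (IntermediateField.adjoin ℚ ({l} : Set F)) F g = l :=
    IntermediateField.AdjoinSimple.algebraMap_gen ℚ l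
  have inj : Function.Injective (algebraMap (IntermediateField.adjoin ℚ ({l} : Set F)) F) :=
    (algebraMap (IntermediateField.adjoin ℚ ({l} : Set F)) F).injective
  have g0 : g ≠ 0 := by
    intro h; apply h0; rw [← hgl, h, map_zero]
  have g1 : 1 - g ≠ 0 := by
    intro h; apply h1
    have : g = 1 := (sub_eq_zero.mp h).symm
    rw [← hgl, this, map_one]
  have g6 : g ^ 2 - g + 1 ≠ 0 := by
    intro h; apply h6
    have := congrArg (algebraMap (IntermediateField.adjoin ℚ ({l} : Set F)) F) h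
    simpa only [map_add, map_sub, map_pow, map_one, map_zero, hgl] using this
  have j0 : IsIntegral ℤ g := by
    rw [← isIntegral_algebraMap_iff inj, hgl]; exact i0
  have j1 : IsIntegral ℤ g⁻¹ := by
    rw [← isIntegral_algebraMap_iff inj, map_inv₀, hgl]; exact i1
  have j2 : IsIntegral ℤ (1 - g)⁻¹ := by
    rw [← isIntegral_algebraMap_iff inj, map_inv₀, map_sub, map_one, hgl]; exact i2
  obtain ⟨σ, hσ⟩ := char0_nf g0 g1 g6 j0 j1 j2
  refine ⟨σ g, ?_, hσ⟩
  have e := IntermediateField.aeval_gen_minpoly ℚ l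
  rw [← hg, Polynomial.aeval_def] at e
  have key : ∀ φ : ℚ →+* IntermediateField.adjoin ℚ ({l} : Set F),
      Polynomial.eval₂ φ g (minpoly ℚ l) = 0 →
        Polynomial.eval₂ (algebraMap ℚ ℂ) (σ g) (minpoly ℚ l) = 0 := by
    intro φ hφ
    have e2 := Polynomial.hom_eval₂ (minpoly ℚ l) φ σ g
    rw [hφ, map_zero] at e2
    have e3 : σ.comp φ = algebraMap ℚ ℂ := Subsingleton.elim _ _
    rw [e3] at e2
    exact e2.symm
  rw [Polynomial.aeval_def]
  exact key _ e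

omit [DecidableEq F] in
theorem char0_six {l : F} (h : l ^ 2 - l + 1 = 0) : l ^ 6 = 1 ∧ (1 - l) ^ 6 = 1 := by
  constructor
  · linear_combination (l ^ 4 + l ^ 3 - l - 1) * h
  · linear_combination ((1 - l) ^ 4 + (1 - l) ^ 3 - (1 - l) - 1) * h

theorem char0_lam_six {t l : F} (h0 : t ≠ 0) (h1 : t ≠ 1) (h : t ^ 2 - t + 1 = 0)
    (hl : l ∈ Lam t) : l ^ 2 - l + 1 = 0 := by
  have h2 : 1 - t ≠ 0 := sub_ne_zero.mpr h1.symm
  have h3 : t - 1 ≠ 0 := sub_ne_zero.mpr h1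
  rcases mem_Lam.mp hl with e | e | e | e | e | e <;> subst e
  · exact h
  · field_simp; linear_combination h
  · linear_combination h
  · field_simp; linear_combination h
  · field_simp; linear_combination h
  · field_simp; linear_combination h

theorem char0_root [CharZero F] {t : F} {A B C : Finset F} (h : Cl t A B C) {m : ℕ}
    (hm : 1 ≤ m) (ht : t ^ m = 1) : t ^ 2 - t + 1 = 0 := by
  classical
  have hfin : IsOfFinOrder t := isOfFinOrder_iff_pow_eq_one.mpr ⟨m, hm, ht⟩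
  have hpos : 0 < orderOf t := hfin.orderOf_pos
  have hprim : IsPrimitiveRoot t (orderOf t) := IsPrimitiveRoot.orderOf t
  have hn1 : orderOf t ≠ 1 := by
    intro e
    exact h.l1 (orderOf_eq_one_iff.mp e)
  have hn : 2 ≤ orderOf t := by omega
  by_cases h6 : orderOf t = 6
  · have := hprim.isRoot_cyclotomic hpos
    rw [h6, Polynomial.cyclotomic_six] at this
    simpa using this
  · exfalso
    obtain ⟨ζ, hζ, hre⟩ := root_pick hn h6
    have hint : IsIntegral ℚ t := (hprim.isIntegral hpos).tower_top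
    have hz : Polynomial.aeval ζ (minpoly ℚ t) = 0 := by
      rw [← Polynomial.cyclotomic_eq_minpoly_rat hprim hpos,
        Polynomial.cyclotomic_eq_minpoly_rat hζ hpos]
      exact minpoly.aeval ℚ ζ
    obtain ⟨A', B', C', h'⟩ := specialise h hint hz
    have n1 : ‖ζ‖ = 1 := hζ.norm'_eq_one hpos.ne'
    refine geo (s := ζ) n1.le ?_ ?_ h'
    · have : (1 - ζ).re ≤ ‖1 - ζ‖ := Complex.re_le_norm _
      simp only [Complex.sub_re, Complex.one_re] at this
      linarith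
    · rw [n1]; linarith

theorem alg_main {l : F} {A B C : Finset F} (h : Cl l A B C) :
    ∃ m : ℕ, 1 ≤ m ∧ l ^ m = 1 ∧ (1 - l) ^ m = 1 := by
  classical
  rcases CharP.char_is_prime_or_zero F (ringChar F) with hp | hp
  · exact charP_case h hp
  have : CharP F 0 := hp ▸ ringChar.charP F
  have : CharZero F := CharP.charP_to_charZero F
  by_cases h6 : l ^ 2 - l + 1 = 0
  · exact ⟨6, by norm_num, char0_six h6⟩
  exfalso
  rcases rootOrInt h with ⟨t, ht, m, hm, htm⟩ | hi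
  · have e := char0_root (h.of_mem ht) hm htm
    exact h6 (char0_lam_six (lam_ne_zero h.l0 h.l1 ht) (lam_ne_one h.l0 h.l1 ht) e
      (lam_symm h.l0 h.l1 ht))
  · obtain ⟨l', hl', hJ⟩ := conj_big h.l0 h.l1 h6 hi
    have iq : IsIntegral ℚ l := (hi l (self_mem_Lam l)).tower_top
    obtain ⟨A', B', C', h'⟩ := specialise h iq hl'
    obtain ⟨s, hs, s1, s2, s3⟩ := geo_pick h'.l0 h'.l1 hJ
    exact geo s1 s2 s3 (h'.of_mem hs)

end Pool.Agent.P.MP_862e21_al
end

-- part Pool.Agent.P.MP_862e21_al.Ultra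
section

namespace Pool.Agent.P.MP_862e21_al

open Finset Pointwise

theorem ultra_field (F : ℕ → Type) [∀ i, Field (F i)] (U : Ultrafilter ℕ) :
    ∃ (K : Type) (_ : Field K) (π : (∀ i, F i) →+* K),
      ∀ f g, π f = π g ↔ ∀ᶠ i in (U : Filter ℕ), f i = g i := by
  let I : Ideal (∀ i, F i) :=
    { carrier := {f | ∀ᶠ i in (U : Filter ℕ), f i = 0}
      add_mem' := fun {f g} hf hg => by
        filter_upwards [hf, hg] with i h1 h2
        simp [h1, h2]
      zero_mem' := Filter.Eventually.of_forall fun _ => rfl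
      smul_mem' := fun c f hf => by
        filter_upwards [hf] with i h1
        simp [h1] }
  have hI : ∀ f, f ∈ I ↔ ∀ᶠ i in (U : Filter ℕ), f i = 0 := fun _ => Iff.rfl
  have : I.IsMaximal := by
    refine Ideal.isMaximal_iff.2 ⟨fun h => ?_, fun J x hJ hx hxJ => ?_⟩
    · obtain ⟨i, hi⟩ := ((hI 1).1 h).exists
      exact one_ne_zero hi
    · have h1 : 1 - x⁻¹ * x ∈ I := by
        rw [hI]
        filter_upwards [Ultrafilter.eventually_not.2 (mt (hI x).2 hx)] with i hi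
        simp [inv_mul_cancel₀ hi]
      simpa using J.add_mem (hJ h1) (J.mul_mem_left x⁻¹ hxJ)
  refine ⟨(∀ i, F i) ⧸ I, Ideal.Quotient.field I, Ideal.Quotient.mk I, fun f g => ?_⟩
  rw [Ideal.Quotient.eq, hI]
  simp only [Pi.sub_apply, sub_eq_zero]

theorem ultra_enum {α : Type*} {A : Finset α} (hA : A.Nonempty) {k : ℕ} (hk : A.card ≤ k) :
    ∃ a : Fin k → α, (∀ j, a j ∈ A) ∧ ∀ x ∈ A, ∃ j, a j = x := by
  obtain ⟨e⟩ : Nonempty (A ↪ Fin k) := Function.Embedding.nonempty_of_card_le (by simpa using hk)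
  have : Nonempty A := hA.to_subtype
  refine ⟨fun j => (Function.invFun e j : A), fun j => (Function.invFun e j).2, fun x hx => ?_⟩
  exact ⟨e ⟨x, hx⟩, congrArg Subtype.val (Function.leftInverse_invFun e.injective ⟨x, hx⟩)⟩

theorem ultra_main {F : ℕ → Type} [∀ i, Field (F i)] [∀ i, DecidableEq (F i)] (U : Ultrafilter ℕ)
    {k : ℕ} (l : ∀ i, F i) (A B C : ∀ i, Finset (F i)) (h : ∀ i, Cl (l i) (A i) (B i) (C i))
    (hA : ∀ i, (A i).card ≤ k) (hB : ∀ i, (B i).card ≤ k) (hC : ∀ i, (C i).card ≤ k) :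
    ∃ m : ℕ, 1 ≤ m ∧ ∀ᶠ i in (U : Filter ℕ), l i ^ m = 1 ∧ (1 - l i) ^ m = 1 := by
  classical
  obtain ⟨K, _, π, hπ⟩ := ultra_field F U
  choose a ha ha' using fun i => ultra_enum (h i).nA (hA i)
  choose b hb hb' using fun i => ultra_enum (h i).nB (hB i)
  choose c hc hc' using fun i => ultra_enum (h i).nC (hC i)
  have hne : ∀ f g, (∀ i, f i ≠ g i) → π f ≠ π g := fun f g h1 h2 => by
    obtain ⟨i, hi⟩ := ((hπ f g).1 h2).exists
    exact h1 i hi
  have hinv : ∀ f, π f⁻¹ = (π f)⁻¹ := by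
    intro f
    by_cases h0 : π f = π 0
    · have h1 : π f⁻¹ = π 0 := by
        rw [hπ] at h0 ⊢
        filter_upwards [h0] with i hi
        simpa using hi
      rw [h0, h1, map_zero, inv_zero]
    · refine eq_inv_of_mul_eq_one_left ?_
      rw [← map_mul, ← map_one π, hπ]
      filter_upwards [Ultrafilter.eventually_not.2 (mt (hπ f 0).2 h0)] with i hi
      exact inv_mul_cancel₀ hi
  have hk : Nonempty (Fin k) := ⟨⟨0, (card_pos.2 (h 0).nA).trans_le (hA 0)⟩⟩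
  have hdis : ∀ (a b : ∀ i, Fin k → F i), (∀ i j j', a i j ≠ b i j') →
      Disjoint (univ.image fun j => π fun i => a i j) (univ.image fun j => π fun i => b i j) := by
    intro a b h1
    refine disjoint_left.2 fun x hx hx' => ?_
    obtain ⟨j, -, rfl⟩ := mem_image.1 hx
    obtain ⟨j', -, e⟩ := mem_image.1 hx'
    exact hne _ _ (fun i => h1 i j j') e.symm
  have hlam : ∀ s ∈ Lam (π l), ∃ s' : ∀ i, F i, (∀ i, s' i ∈ Lam (l i)) ∧ π s' = s := by
    intro s hs
    rcases mem_Lam.1 hs with e | e | e | e | e | e <;> subst e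
    · exact ⟨l, fun i => by simp [mem_Lam], rfl⟩
    · exact ⟨l⁻¹, fun i => by simp [mem_Lam], hinv l⟩
    · exact ⟨1 - l, fun i => by simp [mem_Lam], by simp⟩
    · exact ⟨(1 - l)⁻¹, fun i => by simp [mem_Lam], by simp [hinv]⟩
    · exact ⟨(l - 1) * l⁻¹, fun i => by simp [mem_Lam, div_eq_mul_inv],
        by simp [hinv, div_eq_mul_inv]⟩
    · exact ⟨l * (l - 1)⁻¹, fun i => by simp [mem_Lam, div_eq_mul_inv],
        by simp [hinv, div_eq_mul_inv]⟩
  have hcl : Cl (π l) (univ.image fun j => π fun i => a i j) (univ.image fun j => π fun i => b i j)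
      (univ.image fun j => π fun i => c i j) := by
    refine ⟨map_zero π ▸ hne l 0 fun i => (h i).l0, map_one π ▸ hne l 1 fun i => (h i).l1,
      univ_nonempty.image _, univ_nonempty.image _, univ_nonempty.image _,
      hdis a b fun i j j' e => disjoint_left.1 (h i).dAB (ha i j) (e ▸ hb i j'),
      hdis a c fun i j j' e => disjoint_left.1 (h i).dAC (ha i j) (e ▸ hc i j'),
      hdis b c fun i j j' e => disjoint_left.1 (h i).dBC (hb i j) (e ▸ hc i j'), ?_⟩
    intro s hs x hx y hy z hz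
    obtain ⟨s, hs', rfl⟩ := hlam s hs
    obtain ⟨j1, -, rfl⟩ := mem_image.1 hx
    obtain ⟨j2, -, rfl⟩ := mem_image.1 hy
    obtain ⟨j3, -, rfl⟩ := mem_image.1 hz
    obtain ⟨P, hP⟩ : ∃ P : ∀ i, F i → Prop, ∀ i p, P i p ↔
      (p - b i j2) * (c i j3 - a i j1) = s i * (c i j3 - b i j2) * (p - a i j1) :=
      ⟨_, fun _ _ => Iff.rfl⟩
    have key : ∀ p : ∀ i, F i, (∀ᶠ i in (U : Filter ℕ), P i (p i)) →
        (π p - π fun i => b i j2) * ((π fun i => c i j3) - π fun i => a i j1) =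
          π s * ((π fun i => c i j3) - π fun i => b i j2) * (π p - π fun i => a i j1) := by
      intro p hp
      simp only [← map_sub, ← map_mul]
      rw [hπ]
      filter_upwards [hp] with i hi
      exact (hP i _).1 hi
    have hall : ∀ᶠ i in (U : Filter ℕ),
        ((∃ j, P i (a i j)) ∨ ∃ j, P i (b i j)) ∨ ∃ j, P i (c i j) := by
      refine Filter.Eventually.of_forall fun i => ?_
      obtain ⟨p, hp, e⟩ := (h i).cl _ (hs' i) _ (ha i j1) _ (hb i j2) _ (hc i j3)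
      rw [← hP] at e
      rcases mem_union.1 hp with hp | hp
      · rcases mem_union.1 hp with hp | hp
        · exact Or.inl (Or.inl ((ha' i p hp).imp fun j e' => by rwa [e']))
        · exact Or.inl (Or.inr ((hb' i p hp).imp fun j e' => by rwa [e']))
      · exact Or.inr ((hc' i p hp).imp fun j e' => by rwa [e'])
    rcases Ultrafilter.eventually_or.1 hall with h1 | h1
    · rcases Ultrafilter.eventually_or.1 h1 with h1 | h1
      · obtain ⟨j, hj⟩ := Ultrafilter.eventually_exists_iff.1 h1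
        exact ⟨_, mem_union_left _ (mem_union_left _ (mem_image_of_mem _ (mem_univ j))), key _ hj⟩
      · obtain ⟨j, hj⟩ := Ultrafilter.eventually_exists_iff.1 h1
        exact ⟨_, mem_union_left _ (mem_union_right _ (mem_image_of_mem _ (mem_univ j))), key _ hj⟩
    · obtain ⟨j, hj⟩ := Ultrafilter.eventually_exists_iff.1 h1
      exact ⟨_, mem_union_right _ (mem_image_of_mem _ (mem_univ j)), key _ hj⟩
  obtain ⟨m, hm, h1, h2⟩ := alg_main hcl
  refine ⟨m, hm, Filter.Eventually.and ((hπ (l ^ m) 1).1 ?_) ((hπ ((1 - l) ^ m) 1).1 ?_)⟩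
  · rw [map_pow, h1, map_one]
  · rw [map_pow, map_sub, map_one, h2]

theorem bounded (k : ℕ) : ∃ q0 : ℕ, ∀ (F : Type) [Field F] [Fintype F] [DecidableEq F],
    q0 ≤ Fintype.card F → ∀ (l : F) (A B C : Finset F), Cl l A B C → Gen l →
      A.card ≤ k → B.card ≤ k → C.card ≤ k → False := by
  by_contra hne
  have h : ∀ q0 : ℕ, ∃ (F : Type) (_ : Field F) (_ : Fintype F) (_ : DecidableEq F) (l : F)
      (A B C : Finset F), q0 ≤ Fintype.card F ∧ Cl l A B C ∧ Gen l ∧ A.card ≤ k ∧ B.card ≤ k ∧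
        C.card ≤ k := by
    intro q0
    by_contra h1
    exact hne ⟨q0, fun F i1 i2 i3 h2 l A B C h3 h4 h5 h6 h7 =>
      h1 ⟨F, i1, i2, i3, l, A, B, C, h2, h3, h4, h5, h6, h7⟩⟩
  choose F i1 i2 i3 l A B C h1 h2 h3 h4 h5 h6 using h
  obtain ⟨m, hm, hU⟩ := ultra_main (Filter.hyperfilter ℕ) l A B C h2 h4 h5 h6
  obtain ⟨i, ⟨e1, e2⟩, hi⟩ := (hU.and ((Filter.eventually_gt_atTop (2 * m + 1)).filter_mono
    Nat.hyperfilter_le_atTop)).exists
  have := gen_pow (h3 i) hm e1 e2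
  have := h1 i
  omega

end Pool.Agent.P.MP_862e21_al
end

-- part Pool.Agent.P.MP_862e21_al.OKronU
section

namespace Pool.Agent.P.MP_862e21_al

open Finset Pointwise

section ultra

variable {E : ℕ → Type} [∀ i, Field (E i)] {L : Type} [Field L]
  (U : Ultrafilter ℕ) (π : (∀ i, E i) →+* L)

/-- the internal set of a family of sets -/
def okronU_St (S : ∀ i, Set (E i)) : Set L := {x | ∃ f, π f = x ∧ ∀ᶠ i in (U : Filter ℕ), f i ∈ S i}

variable {U π}

theorem okronU_mem (hπ : ∀ f g, π f = π g ↔ ∀ᶠ i in (U : Filter ℕ), f i = g i)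
    {S : ∀ i, Set (E i)} {f : ∀ i, E i} :
    π f ∈ okronU_St U π S ↔ ∀ᶠ i in (U : Filter ℕ), f i ∈ S i := by
  refine ⟨fun ⟨g, h1, h2⟩ => ?_, fun h => ⟨f, rfl, h⟩⟩
  filter_upwards [(hπ _ _).1 h1, h2] with i e hi
  exact e ▸ hi

theorem okronU_mono {S S' : ∀ i, Set (E i)} (h : ∀ᶠ i in (U : Filter ℕ), S i ⊆ S' i) :
    okronU_St U π S ⊆ okronU_St U π S' := by
  rintro _ ⟨f, rfl, hf⟩
  refine ⟨f, rfl, ?_⟩
  filter_upwards [h, hf] with i h1 h2
  exact h1 h2

theorem okronU_add (hπ : ∀ f g, π f = π g ↔ ∀ᶠ i in (U : Filter ℕ), f i = g i)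
    (A B : ∀ i, Set (E i)) :
    okronU_St U π (fun i => A i + B i) = okronU_St U π A + okronU_St U π B := by
  apply Set.Subset.antisymm
  · rintro _ ⟨f, rfl, hf⟩
    have h1 : ∀ᶠ i in (U : Filter ℕ), ∃ a, a ∈ A i ∧ f i - a ∈ B i := by
      filter_upwards [hf] with i hi
      obtain ⟨a, ha, b, hb, e⟩ := Set.mem_add.1 hi
      exact ⟨a, ha, by rw [← e]; simpa using hb⟩
    obtain ⟨a, ha⟩ := Filter.skolem.1 h1
    refine Set.mem_add.2 ⟨π a, (okronU_mem hπ).2 (ha.mono fun i hi => hi.1), π (f - a),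
      (okronU_mem hπ).2 (ha.mono fun i hi => hi.2), by simp⟩
  · rintro _ ⟨_, ⟨a, rfl, ha⟩, _, ⟨b, rfl, hb⟩, rfl⟩
    refine ⟨a + b, by simp, ?_⟩
    filter_upwards [ha, hb] with i h1 h2
    exact Set.add_mem_add h1 h2

theorem okronU_smul (hπ : ∀ f g, π f = π g ↔ ∀ᶠ i in (U : Filter ℕ), f i = g i)
    (c : ∀ i, E i) (A : ∀ i, Set (E i)) :
    okronU_St U π (fun i => c i • A i) = π c • okronU_St U π A := by
  apply Set.Subset.antisymm
  · rintro _ ⟨f, rfl, hf⟩
    have h1 : ∀ᶠ i in (U : Filter ℕ), ∃ a, a ∈ A i ∧ c i * a = f i := by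
      filter_upwards [hf] with i hi
      exact hi
    obtain ⟨a, ha⟩ := Filter.skolem.1 h1
    refine ⟨π a, (okronU_mem hπ).2 (ha.mono fun i hi => hi.1), ?_⟩
    change π c * π a = π f
    rw [← map_mul, hπ]
    exact ha.mono fun i hi => hi.2
  · rintro _ ⟨_, ⟨a, rfl, ha⟩, rfl⟩
    refine ⟨c * a, by simp, ?_⟩
    filter_upwards [ha] with i h1
    exact ⟨a i, h1, rfl⟩

theorem okronU_nS (hπ : ∀ f g, π f = π g ↔ ∀ᶠ i in (U : Filter ℕ), f i = g i)
    (A : ∀ i, Set (E i)) (m : ℕ) :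
    okronU_St U π (fun i => nS (A i) m) = nS (okronU_St U π A) m := by
  induction m with
  | zero =>
    ext x
    simp only [nS, Set.mem_singleton_iff]
    constructor
    · rintro ⟨f, rfl, hf⟩
      rw [← map_zero π, hπ]
      exact hf
    · rintro rfl
      exact ⟨0, map_zero π, Filter.Eventually.of_forall fun _ => rfl⟩
  | succ m ih =>
    simp only [nS]
    rw [okronU_add hπ, ih]

theorem okronU_inv (hπ : ∀ f g, π f = π g ↔ ∀ᶠ i in (U : Filter ℕ), f i = g i)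
    (f : ∀ i, E i) : π f⁻¹ = (π f)⁻¹ := by
  by_cases h0 : π f = π 0
  · have h1 : π f⁻¹ = π 0 := by
      rw [hπ] at h0 ⊢
      filter_upwards [h0] with i hi
      simpa using hi
    rw [h0, h1, map_zero, inv_zero]
  · refine eq_inv_of_mul_eq_one_left ?_
    rw [← map_mul, ← map_one π, hπ]
    filter_upwards [Ultrafilter.eventually_not.2 (mt (hπ f 0).2 h0)] with i hi
    exact inv_mul_cancel₀ hi

theorem okronU_cov [∀ i, DecidableEq (E i)]
    (hπ : ∀ f g, π f = π g ↔ ∀ᶠ i in (U : Filter ℕ), f i = g i)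
    {J : ℕ} {X Y : ∀ i, Finset (E i)} (h : ∀ᶠ i in (U : Filter ℕ), Cov J (Y i) (X i)) :
    ∃ T : Finset L, T.card ≤ J ∧ ∀ x ∈ okronU_St U π (fun i => (X i : Set (E i))),
      ∃ t ∈ T, x - t ∈ okronU_St U π (fun i => (Y i : Set (E i))) := by
  classical
  have h1 : ∀ᶠ i in (U : Filter ℕ), ∃ a : Fin J → E i, ∀ x ∈ X i, ∃ j, x - a j ∈ Y i := by
    filter_upwards [h] with i ⟨T, hT, hX⟩
    rcases T.eq_empty_or_nonempty with rfl | hne
    · exact ⟨0, fun x hx => by simpa using hX hx⟩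
    · obtain ⟨a, -, ha⟩ := ultra_enum hne hT
      refine ⟨a, fun x hx => ?_⟩
      obtain ⟨t, ht, y, hy, e⟩ := mem_add.1 (hX hx)
      obtain ⟨j, rfl⟩ := ha t ht
      exact ⟨j, by rw [← e]; simpa using hy⟩
  obtain ⟨a, ha⟩ := Filter.skolem.1 h1
  refine ⟨univ.image fun j => π fun i => a i j, card_image_le.trans (by simp), ?_⟩
  rintro _ ⟨f, rfl, hf⟩
  have h2 : ∀ᶠ i in (U : Filter ℕ), ∃ j, f i - a i j ∈ Y i := by
    filter_upwards [ha, hf] with i h3 h4
    exact h3 _ h4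
  obtain ⟨j, hj⟩ := Ultrafilter.eventually_exists_iff.1 h2
  refine ⟨_, mem_image_of_mem _ (mem_univ j), ?_⟩
  rw [← map_sub]
  exact (okronU_mem hπ).2 hj

theorem okronU_sm [∀ i, DecidableEq (E i)]
    (hπ : ∀ f g, π f = π g ↔ ∀ᶠ i in (U : Filter ℕ), f i = g i)
    {J : ℕ} {H : ∀ i, Finset (E i)} (r : ∀ i, E i) (h : ∀ i, Cov J (H i) (r i • H i)) :
    Sm (okronU_St U π fun i => (H i : Set (E i)))
      (π r • okronU_St U π fun i => (H i : Set (E i))) := by
  obtain ⟨T, -, hT⟩ := okronU_cov hπ (Filter.Eventually.of_forall h)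
  refine ⟨T, fun x hx => hT x ?_⟩
  simp only [coe_smul_finset]
  rwa [okronU_smul hπ]

theorem okronU_ap [∀ i, DecidableEq (E i)] [∀ i, Fintype (E i)]
    (hπ : ∀ f g, π f = π g ↔ ∀ᶠ i in (U : Filter ℕ), f i = g i) (hU : (U : Filter ℕ) ≤ Filter.atTop)
    {K : ℕ} {c : ∀ i, E i} {H : ∀ i, Finset (E i)} (hp : ∀ i, (Fintype.card (E i)).Prime)
    (hH : ∀ i, AG K (c i) (H i)) (h1 : ∀ i, i ≤ (H i).card)
    (h2 : ∀ i, i * (H i).card ≤ Fintype.card (E i)) (m0 : ℕ) :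
    ∃ (x : L) (m : ℕ), x ∉ nS (okronU_St U π fun i => (H i : Set (E i))) m0 ∧ ∀ M : ℕ, 1 ≤ M →
      ∃ g : L, (M : L) * g = x ∧ ∀ j : ℕ, j ≤ M →
        (j : L) * g ∈ nS (okronU_St U π fun i => (H i : Set (E i))) m := by
  classical
  let P : ℕ → ℕ → Prop := fun k n => K ^ ((n.factorial + 1) ^ 2) < k ∧ n < k
  let n : ℕ → ℕ := fun k => Nat.findGreatest (P k) k
  have hn : ∀ M, ∀ᶠ k in (U : Filter ℕ), M ≤ n k ∧ P k (n k) := by
    intro M
    filter_upwards [hU (Filter.eventually_gt_atTop (K ^ ((M.factorial + 1) ^ 2))),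
      hU (Filter.eventually_gt_atTop M)] with k a1 a2
    have a3 : P k M := ⟨a1, a2⟩
    exact ⟨Nat.le_findGreatest (le_of_lt a2) a3, Nat.findGreatest_spec (le_of_lt a2) a3⟩
  have hx : ∀ᶠ k in (U : Filter ℕ), ∃ x : E k, x ∉ nS (H k : Set (E k)) m0 ∧
      ∀ M : ℕ, 1 ≤ M → M ≤ n k → ∃ g : E k, (M : E k) * g = x ∧
        ∀ j : ℕ, j ≤ M → (j : E k) * g ∈ nS (H k : Set (E k)) (m0 + 4) := by
    filter_upwards [hn 0, hU (Filter.eventually_gt_atTop (K ^ m0))] with k a1 a2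
    have a3 : 0 < (H k).card := card_pos.2 ⟨0, (hH k).zero⟩
    have a2' : K ^ m0 < k := a2
    refine ap_fin (hp k) (hH k).zero (hH k).neg (hH k).add (a1.2.1.trans_le (h1 k))
      (((Nat.mul_lt_mul_right a3).2 a2').trans_le (h2 k)) ?_
    exact a1.2.2.trans_le ((Nat.le_mul_of_pos_right k a3).trans (h2 k))
  obtain ⟨x, hx⟩ := Filter.skolem.1 hx
  refine ⟨π x, m0 + 4, ?_, fun M hM => ?_⟩
  · rw [← okronU_nS hπ, okronU_mem hπ]
    intro h
    obtain ⟨k, a1, a2⟩ := (h.and hx).exists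
    exact a2.1 a1
  · have hg : ∀ᶠ k in (U : Filter ℕ), ∃ g : E k, (M : E k) * g = x k ∧
        ∀ j : ℕ, j ≤ M → (j : E k) * g ∈ nS (H k : Set (E k)) (m0 + 4) := by
      filter_upwards [hx, hn M] with k a1 a2
      exact a1.2 M hM a2.1
    obtain ⟨g, hg⟩ := Filter.skolem.1 hg
    refine ⟨π g, ?_, fun j hj => ?_⟩
    · rw [← map_natCast π, ← map_mul, hπ]
      exact hg.mono fun k hk => hk.1
    · rw [← okronU_nS hπ, ← map_natCast π, ← map_mul, okronU_mem hπ]
      exact hg.mono fun k hk => hk.2 j hj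

theorem okronU_alg2 {g : L} (h : 1 - g ≠ 0) (i m : ℕ) :
    (1 - g)⁻¹ ^ i * (1 - (1 - g)⁻¹) ^ m =
        g ^ (((i + m : ℕ) : ℤ) - i) * (1 - g) ^ (-((i + m : ℕ) : ℤ)) ∨
      (1 - g)⁻¹ ^ i * (1 - (1 - g)⁻¹) ^ m =
        -(g ^ (((i + m : ℕ) : ℤ) - i) * (1 - g) ^ (-((i + m : ℕ) : ℤ))) := by
  rw [show 1 - (1 - g)⁻¹ = -1 * (g * (1 - g)⁻¹) by field_simp; ring,
    show ((i + m : ℕ) : ℤ) - i = m by push_cast; ring, zpow_neg, zpow_natCast,
    zpow_natCast, ← inv_pow, mul_pow, mul_pow, pow_add]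
  generalize (1 - g)⁻¹ = u
  rcases neg_one_pow_eq_or L m with a3 | a3 <;> rw [a3]
  · left; ring
  · right; ring

theorem okronU_alg3 {g : L} (h : g ≠ 0) (i m : ℕ) :
    ((g - 1) * g⁻¹) ^ i * (1 - (g - 1) * g⁻¹) ^ m =
        g ^ (-((i + m : ℕ) : ℤ)) * (1 - g) ^ (i : ℤ) ∨
      ((g - 1) * g⁻¹) ^ i * (1 - (g - 1) * g⁻¹) ^ m =
        -(g ^ (-((i + m : ℕ) : ℤ)) * (1 - g) ^ (i : ℤ)) := by
  rw [show 1 - (g - 1) * g⁻¹ = g⁻¹ by field_simp; ring,
    show (g - 1) * g⁻¹ = -1 * ((1 - g) * g⁻¹) by ring, zpow_neg, zpow_natCast, zpow_natCast,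
    ← inv_pow, mul_pow, mul_pow, pow_add]
  generalize g⁻¹ = u
  generalize 1 - g = v
  rcases neg_one_pow_eq_or L i with a3 | a3 <;> rw [a3]
  · left; ring
  · right; ring

end ultra

variable {F : Type*} [Field F] [DecidableEq F]

theorem kron (K : ℕ) : ∃ N : ℕ, ∀ (F : Type) [Field F] [Fintype F] [DecidableEq F],
    (Fintype.card F).Prime → ∀ (c : F) (H : Finset F), c ≠ 0 → c ≠ 1 → c ^ 2 - c + 1 ≠ 0 →
      AG K c H → N ≤ H.card → N * H.card ≤ Fintype.card F →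
      (∀ n ≤ N, ∀ t ∈ Lp c, ∃ i ≤ n, Dr (K * (n + 1)) H (t ^ i * (1 - t) ^ (n - i))) → False := by
  by_contra hne
  have h : ∀ N : ℕ, ∃ (F : Type) (_ : Field F) (_ : Fintype F) (_ : DecidableEq F) (c : F)
      (H : Finset F), (Fintype.card F).Prime ∧ c ≠ 0 ∧ c ≠ 1 ∧ c ^ 2 - c + 1 ≠ 0 ∧ AG K c H ∧
        N ≤ H.card ∧ N * H.card ≤ Fintype.card F ∧
        ∀ n ≤ N, ∀ t ∈ Lp c, ∃ i ≤ n, Dr (K * (n + 1)) H (t ^ i * (1 - t) ^ (n - i)) := by
    intro N
    by_contra h1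
    exact hne ⟨N, fun F i1 i2 i3 h2 c H h3 h4 h5 h6 h7 h8 h9 =>
      h1 ⟨F, i1, i2, i3, c, H, h2, h3, h4, h5, h6, h7, h8, h9⟩⟩
  choose E i1 i2 i3 c H hp c0 c1 cN hH h1 h2 hD using h
  obtain ⟨L, _, π, hπ⟩ := ultra_field E (Filter.hyperfilter ℕ)
  have hU : ((Filter.hyperfilter ℕ : Ultrafilter ℕ) : Filter ℕ) ≤ Filter.atTop :=
    Nat.hyperfilter_le_atTop
  generalize Filter.hyperfilter ℕ = U at hπ hU
  have hne' : ∀ f g, (∀ i, f i ≠ g i) → π f ≠ π g := fun f g a1 a2 => by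
    obtain ⟨i, hi⟩ := ((hπ f g).1 a2).exists
    exact a1 i hi
  have g0 : π c ≠ 0 := map_zero π ▸ hne' c 0 c0
  have g1 : π c ≠ 1 := map_one π ▸ hne' c 1 c1
  have g1' : 1 - π c ≠ 0 := sub_ne_zero.2 g1.symm
  have eN : π (c ^ 2 - c + 1) = π c ^ 2 - π c + 1 := by simp
  have gN : π c ^ 2 - π c + 1 ≠ 0 := by
    rw [← eN, ← map_zero π]
    exact hne' _ 0 cN
  have e1 : π (1 - c) = 1 - π c := by simp
  have hHH : okronU_St U π (fun i => ((H i + H i : Finset (E i)) : Set (E i))) =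
      okronU_St U π (fun i => (H i : Set (E i))) + okronU_St U π fun i => (H i : Set (E i)) := by
    simp only [coe_add]
    exact okronU_add hπ _ _
  have hneg : ∀ x ∈ okronU_St U π (fun i => (H i : Set (E i))),
      -x ∈ okronU_St U π fun i => (H i : Set (E i)) := by
    rintro _ ⟨f, rfl, hf⟩
    exact ⟨-f, map_neg π f, hf.mono fun i hi => (hH i).neg _ hi⟩
  have hadd : Sm (okronU_St U π fun i => (H i : Set (E i)))
      (okronU_St U π (fun i => (H i : Set (E i))) + okronU_St U π fun i => (H i : Set (E i))) := by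
    obtain ⟨T, -, hT⟩ := okronU_cov hπ (Filter.Eventually.of_forall fun i => (hH i).add)
    exact ⟨T, fun x hx => hT x (hHH ▸ hx)⟩
  have m2 := okronU_sm hπ (J := K) (H := H) c⁻¹ fun i => by
    simpa only [Pi.inv_apply] using (hH i).m2
  have m3 := okronU_sm hπ (J := K) (H := H) (1 - c)⁻¹ fun i => by
    simpa only [Pi.inv_apply, Pi.sub_apply, Pi.one_apply] using (hH i).m3
  have m4 := okronU_sm hπ (J := K) (H := H) (c ^ 2 - c + 1)⁻¹ fun i => by
    simpa only [Pi.inv_apply, Pi.sub_apply, Pi.one_apply, Pi.add_apply, Pi.pow_apply]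
      using (hH i).m4
  rw [okronU_inv hπ] at m2 m3 m4
  rw [e1] at m3
  rw [eN] at m4
  obtain ⟨σ, C0, s0, s1, sN, hσ⟩ := kronAbs
    (⟨0, map_zero π, Filter.Eventually.of_forall fun i => (hH i).zero⟩ :
      (0 : L) ∈ okronU_St U π fun i => (H i : Set (E i))) hneg hadd g0 g1 gN
    (okronU_sm hπ c fun i => (hH i).m1) m2 m3 m4 (okronU_ap hπ hU hp hH h1 h2)
  have hneg2 : ∀ x ∈ okronU_St U π (fun i => (H i : Set (E i))) +
      okronU_St U π fun i => (H i : Set (E i)), -x ∈ okronU_St U π (fun i => (H i : Set (E i))) +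
      okronU_St U π fun i => (H i : Set (E i)) := by
    rintro _ ⟨a, ha, b, hb, rfl⟩
    exact ⟨-a, hneg a ha, -b, hneg b hb, by ring⟩
  have hsel : ∀ τ : ∀ i, E i, (∀ i, τ i ∈ Lp (c i)) → ∀ n : ℕ, ∃ i m : ℕ, n = i + m ∧
      ∃ ρ : ∀ i, E i, (∀ᶠ k in (U : Filter ℕ), Dr (K * (n + 1)) (H k) (ρ k)) ∧
        π ρ = π τ ^ i * (1 - π τ) ^ m := by
    intro τ hτ n
    have a1 : ∀ᶠ k in (U : Filter ℕ), ∃ i : Fin (n + 1),
        Dr (K * (n + 1)) (H k) (τ k ^ (i : ℕ) * (1 - τ k) ^ (n - i)) := by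
      filter_upwards [hU (Filter.eventually_ge_atTop n)] with k hk
      obtain ⟨i, hi, a2⟩ := hD k n hk _ (hτ k)
      exact ⟨⟨i, by omega⟩, a2⟩
    obtain ⟨i, hi⟩ := Ultrafilter.eventually_exists_iff.1 a1
    exact ⟨i, n - i, by omega, τ ^ (i : ℕ) * (1 - τ) ^ (n - i), hi, by simp⟩
  have hk := kron_num (C := |C0| * K) s0 s1 sN
    (fun (n : ℕ) (a b : ℤ) => ∃ ρ : ∀ i, E i,
      (∀ᶠ k in (U : Filter ℕ), Dr (K * (n + 1)) (H k) (ρ k)) ∧
      (π ρ = π c ^ a * (1 - π c) ^ b ∨ π ρ = -(π c ^ a * (1 - π c) ^ b)))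
  refine hk ?_ ?_ ?_ ?_
  · rintro n a b ⟨ρ, hρ, hv⟩
    obtain ⟨Y, hY⟩ := Filter.skolem.1 hρ
    have hb : ∀ T : Finset L, T.card ≤ K * (n + 1) → C0 * T.card ≤ |C0| * K * (n + 1) := by
      intro T hT
      have a1 : (T.card : ℝ) ≤ K * (n + 1) := by exact_mod_cast hT
      rw [mul_assoc]
      exact mul_le_mul (le_abs_self _) a1 (by positivity) (abs_nonneg _)
    have eY : okronU_St U π (fun i => ((ρ i • Y i : Finset (E i)) : Set (E i))) =
        π ρ • okronU_St U π fun i => (Y i : Set (E i)) := by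
      simp only [coe_smul_finset]
      exact okronU_smul hπ _ _
    have y1 := okronU_mono (π := π) (hY.mono fun i hi => coe_subset.2 hi.1)
    have y2 := okronU_mono (π := π) (hY.mono fun i hi => coe_subset.2 hi.2.1)
    rw [hHH] at y1 y2
    rw [eY] at y2
    obtain ⟨T, t1, t2⟩ := okronU_cov hπ (hY.mono fun i hi => hi.2.2.1)
    obtain ⟨T', t3, t4⟩ := okronU_cov hπ (hY.mono fun i hi => hi.2.2.2)
    have r1 := hσ a b T _ t2
    have r2 := hσ (-a) (-b) T' _ t4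
    refine ⟨(r1 fun y hy => ?_).trans (hb T t1), (r2 fun y hy => ?_).trans (hb T' t3)⟩
    · have a1 : π ρ * y ∈ _ := y2 ⟨y, hy, rfl⟩
      rcases hv with hv | hv
      · rwa [hv] at a1
      · simpa [hv] using hneg2 _ a1
    · rw [eY] at hy
      obtain ⟨y, hy, rfl⟩ := hy
      have v0 : π c ^ a * (1 - π c) ^ b ≠ 0 := mul_ne_zero (zpow_ne_zero _ g0) (zpow_ne_zero _ g1')
      rw [zpow_neg, zpow_neg, ← mul_inv]
      change (π c ^ a * (1 - π c) ^ b)⁻¹ * (π ρ * y) ∈ _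
      rcases hv with hv | hv
      · rw [hv, inv_mul_cancel_left₀ v0]
        exact y1 hy
      · rw [hv, neg_mul, mul_neg, inv_mul_cancel_left₀ v0]
        exact hneg2 _ (y1 hy)
  · intro n
    obtain ⟨i, m, rfl, ρ, a1, a2⟩ := hsel c (fun i => self_mem_Lp _) n
    refine ⟨i, by omega, ρ, a1, Or.inl ?_⟩
    rw [a2, show ((i + m : ℕ) : ℤ) - i = m by push_cast; ring, zpow_natCast, zpow_natCast]
  · intro n
    obtain ⟨i, m, rfl, ρ, a1, a2⟩ := hsel (1 - c)⁻¹ (fun i => by simp [mem_Lp]) n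
    refine ⟨i, by omega, ρ, a1, ?_⟩
    rw [a2, okronU_inv hπ, e1]
    exact okronU_alg2 g1' i m
  · intro n
    obtain ⟨i, m, rfl, ρ, a1, a2⟩ := hsel ((c - 1) * c⁻¹)
      (fun i => by simp [mem_Lp, div_eq_mul_inv]) n
    refine ⟨i, by omega, ρ, a1, ?_⟩
    rw [a2, map_mul, okronU_inv hπ, map_sub, map_one]
    exact okronU_alg3 g0 i m

end Pool.Agent.P.MP_862e21_al
end

-- part Pool.Agent.P.MP_862e21_al.ODrift
section

namespace Pool.Agent.P.MP_862e21_al

open Finset Pointwise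

variable {F : Type*} [Field F] [DecidableEq F]

open Classical in
/-- pairs whose difference survives the multiplier -/
noncomputable def ODrift_P (t : F) (B C : Finset F) (n i : ℕ) : Finset (F × F) :=
  (B ×ˢ C).filter fun p => ∃ q ∈ B ×ˢ C, q.2 - q.1 = t ^ i * (1 - t) ^ (n - i) * (p.2 - p.1)

open Classical in
/-- the remaining pairs -/
noncomputable def ODrift_Bad (t : F) (B C : Finset F) (n : ℕ) : Finset (F × F) :=
  (B ×ˢ C).filter fun p => ∀ i ≤ n, p ∉ ODrift_P t B C n i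

theorem ODrift_memP {t : F} {B C : Finset F} {n i : ℕ} {p : F × F} :
    p ∈ ODrift_P t B C n i ↔ p ∈ B ×ˢ C ∧
      ∃ q ∈ B ×ˢ C, q.2 - q.1 = t ^ i * (1 - t) ^ (n - i) * (p.2 - p.1) := by
  unfold ODrift_P
  exact mem_filter

theorem ODrift_memBad {t : F} {B C : Finset F} {n : ℕ} {p : F × F} :
    p ∈ ODrift_Bad t B C n ↔ p ∈ B ×ˢ C ∧ ∀ i ≤ n, p ∉ ODrift_P t B C n i := by
  unfold ODrift_Bad
  exact mem_filter

theorem ODrift_next {t : F} {B C : Finset F} {n : ℕ} {p q : F × F}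
    (hp : p ∈ ODrift_Bad t B C (n + 1)) (hq : q ∈ B ×ˢ C)
    (hd : q.2 - q.1 = t * (p.2 - p.1) ∨ q.2 - q.1 = (1 - t) * (p.2 - p.1)) :
    q ∈ ODrift_Bad t B C n := by
  rw [ODrift_memBad] at hp ⊢
  refine ⟨hq, fun i hi hP => ?_⟩
  obtain ⟨-, r, hr, e⟩ := ODrift_memP.1 hP
  rcases hd with hd | hd
  · refine hp.2 (i + 1) (by omega) (ODrift_memP.2 ⟨hp.1, r, hr, ?_⟩)
    rw [e, hd, show n + 1 - (i + 1) = n - i by omega]
    ring
  · refine hp.2 i (by omega) (ODrift_memP.2 ⟨hp.1, r, hr, ?_⟩)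
    rw [e, hd, show n + 1 - i = (n - i) + 1 by omega]
    ring

theorem ODrift_left {s : F} (hs : s ≠ 0) (A T : Finset (F × F)) :
    (A.filter fun p => (p.1, p.1 + s * (p.2 - p.1)) ∈ T).card ≤ T.card := by
  refine card_le_card_of_injOn (fun p => (p.1, p.1 + s * (p.2 - p.1)))
    (fun p hp => (mem_filter.1 (mem_coe.1 hp)).2) ?_
  rintro ⟨y, z⟩ - ⟨y', z'⟩ - e
  simp only [Prod.mk.injEq] at e ⊢
  obtain ⟨rfl, e⟩ := e
  refine ⟨rfl, mul_left_cancel₀ hs ?_⟩
  linear_combination e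

theorem ODrift_right {s : F} (hs : 1 - s ≠ 0) (A T : Finset (F × F)) :
    (A.filter fun p => (p.1 + s * (p.2 - p.1), p.2) ∈ T).card ≤ T.card := by
  refine card_le_card_of_injOn (fun p => (p.1 + s * (p.2 - p.1), p.2))
    (fun p hp => (mem_filter.1 (mem_coe.1 hp)).2) ?_
  rintro ⟨y, z⟩ - ⟨y', z'⟩ - e
  simp only [Prod.mk.injEq] at e ⊢
  obtain ⟨e, rfl⟩ := e
  refine ⟨mul_left_cancel₀ hs ?_, rfl⟩
  linear_combination e

theorem ODrift_part {s t : F} (hs0 : s ≠ 0) (hs1 : 1 - s ≠ 0) (hst : s = t ∨ s = 1 - t)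
    {B C U : Finset F} {n : ℕ} (A : Finset (F × F)) (hA : A ⊆ ODrift_Bad t B C (n + 1))
    (hw : ∀ p ∈ A, p.1 + s * (p.2 - p.1) ∈ B ∨ p.1 + s * (p.2 - p.1) ∈ C ∨
      p.1 + s * (p.2 - p.1) ∈ U) :
    A.card ≤ 2 * (ODrift_Bad t B C n).card + B.card * U.card := by
  have h1 := ODrift_left hs0 A (ODrift_Bad t B C n)
  have h2 := ODrift_right hs1 A (ODrift_Bad t B C n)
  have h3 := ODrift_left hs0 A (B ×ˢ U)
  rw [card_product] at h3
  have hsub : A ⊆ ((A.filter fun p => (p.1, p.1 + s * (p.2 - p.1)) ∈ ODrift_Bad t B C n) ∪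
      (A.filter fun p => (p.1 + s * (p.2 - p.1), p.2) ∈ ODrift_Bad t B C n)) ∪
      (A.filter fun p => (p.1, p.1 + s * (p.2 - p.1)) ∈ B ×ˢ U) := by
    intro p hp
    have hb := hA hp
    have hBC : p.1 ∈ B ∧ p.2 ∈ C := mem_product.1 (ODrift_memBad.1 hb).1
    simp only [mem_union, mem_filter]
    rcases hw p hp with h | h | h
    · refine Or.inl (Or.inr ⟨hp, ODrift_next hb (mem_product.2 ⟨h, hBC.2⟩) ?_⟩)
      rcases hst with rfl | rfl
      · right; ring
      · left; ring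
    · refine Or.inl (Or.inl ⟨hp, ODrift_next hb (mem_product.2 ⟨hBC.1, h⟩) ?_⟩)
      rcases hst with rfl | rfl
      · left; ring
      · right; ring
    · exact Or.inr ⟨hp, mem_product.2 ⟨hBC.1, h⟩⟩
  have h4 := (card_le_card hsub).trans ((card_union_le _ _).trans
    (Nat.add_le_add_right (card_union_le _ _) _))
  omega

theorem ODrift_bad [Fintype F] {c t : F} {B C D : Finset F} {u : ℕ} (h : OTrio c B C D)
    (hu : Fintype.card F = B.card + C.card + D.card + u) (ht : t ∈ Lp c) (n : ℕ) :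
    (ODrift_Bad t B C n).card + B.card * u ≤ 4 ^ n * (B.card * u) := by
  classical
  have hsp := h.spl.of_mem ht
  have t0 : t ≠ 0 := hsp.c0
  have t1 : 1 - t ≠ 0 := sub_ne_zero.2 hsp.c1.symm
  have hU : (univ \ (B ∪ C ∪ D)).card = u := by
    rw [card_univ_sdiff, card_union_of_disjoint (disjoint_union_left.2 ⟨h.dBD, h.dCD⟩),
      card_union_of_disjoint h.dBC]
    omega
  have hcase : ∀ w : F, w ∉ D → w ∈ B ∨ w ∈ C ∨ w ∈ univ \ (B ∪ C ∪ D) := by
    intro w hw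
    by_cases h1 : w ∈ B
    · exact Or.inl h1
    by_cases h2 : w ∈ C
    · exact Or.inr (Or.inl h2)
    exact Or.inr (Or.inr (by simp [h1, h2, hw]))
  induction n with
  | zero =>
    have : ODrift_Bad t B C 0 = ∅ := by
      refine eq_empty_of_forall_notMem fun p hp => ?_
      obtain ⟨h1, h2⟩ := ODrift_memBad.1 hp
      exact h2 0 le_rfl (ODrift_memP.2 ⟨h1, p, h1, by simp⟩)
    simp [this]
  | succ n ih =>
    have e1 := ODrift_part (U := univ \ (B ∪ C ∪ D)) t0 t1 (Or.inl rfl)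
      ((ODrift_Bad t B C (n + 1)).filter fun p => IsSquare (p.2 - p.1)) (filter_subset _ _)
      (fun p hp => by
        obtain ⟨h1, h2⟩ := mem_filter.1 hp
        have hBC : p.1 ∈ B ∧ p.2 ∈ C := mem_product.1 (ODrift_memBad.1 h1).1
        refine hcase _ ?_
        have := h.pos t ht p.1 hBC.1 p.2 hBC.2 h2
        rwa [show (1 - t) * p.1 + t * p.2 = p.1 + t * (p.2 - p.1) by ring] at this)
    have e2 := ODrift_part (U := univ \ (B ∪ C ∪ D)) (t := t) t1
      (by rwa [sub_sub_cancel]) (Or.inr rfl)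
      ((ODrift_Bad t B C (n + 1)).filter fun p => ¬ IsSquare (p.2 - p.1)) (filter_subset _ _)
      (fun p hp => by
        obtain ⟨h1, h2⟩ := mem_filter.1 hp
        have hBC : p.1 ∈ B ∧ p.2 ∈ C := mem_product.1 (ODrift_memBad.1 h1).1
        refine hcase _ ?_
        have := h.ngt t ht p.1 hBC.1 p.2 hBC.2 h2
        rwa [show t * p.1 + (1 - t) * p.2 = p.1 + (1 - t) * (p.2 - p.1) by ring] at this)
    have e3 := card_filter_add_card_filter_not (s := ODrift_Bad t B C (n + 1))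
      (fun p : F × F => IsSquare (p.2 - p.1))
    rw [hU] at e1 e2
    rw [pow_succ, mul_comm (4 ^ n) 4, mul_assoc]
    omega

theorem ODrift_D0 [Fintype F] {c t : F} {B C D : Finset F} {u n : ℕ} (h : OTrio c B C D)
    (hu : Fintype.card F = B.card + C.card + D.card + u) (hB : B.Nonempty)
    (hun : 2 * 4 ^ n * u ≤ C.card) (ht : t ∈ Lp c) :
    ∃ i ≤ n, ∃ D0 : Finset F, C.card ≤ 2 * (n + 1) * D0.card ∧ D0 ⊆ C - B ∧
      (t ^ i * (1 - t) ^ (n - i)) • D0 ⊆ C - B := by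
  have hbad := ODrift_bad h hu ht n
  obtain ⟨i, hi, hmax⟩ := exists_max_image (range (n + 1))
    (fun i => (ODrift_P t B C n i).card) ⟨0, by simp⟩
  have hcov : B ×ˢ C ⊆ ODrift_Bad t B C n ∪ (range (n + 1)).biUnion (ODrift_P t B C n) := by
    intro p hp
    by_cases hb : p ∈ ODrift_Bad t B C n
    · exact mem_union_left _ hb
    · rw [ODrift_memBad] at hb
      push Not at hb
      obtain ⟨j, hj, hP⟩ := hb hp
      exact mem_union_right _ (mem_biUnion.2 ⟨j, mem_range.2 (by omega), hP⟩)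
  have h1 : ((range (n + 1)).biUnion (ODrift_P t B C n)).card
      ≤ (n + 1) * (ODrift_P t B C n i).card := by
    have := card_biUnion_le_card_mul (range (n + 1)) (ODrift_P t B C n) _ hmax
    rwa [card_range] at this
  have h2 := (card_le_card hcov).trans (card_union_le _ _)
  rw [card_product] at h2
  have h3 : (ODrift_P t B C n i).card ≤
      B.card * ((ODrift_P t B C n i).image fun p => p.2 - p.1).card := by
    refine card_le_mul_card_image _ _ fun d _ => ?_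
    refine card_le_card_of_injOn (fun p => p.1) (fun p hp => ?_) ?_
    · exact (mem_product.1 (ODrift_memP.1 (mem_filter.1 (mem_coe.1 hp)).1).1).1
    · rintro ⟨y, z⟩ hp ⟨y', z'⟩ hp' e
      have e1 := (mem_filter.1 (mem_coe.1 hp)).2
      have e2 := (mem_filter.1 (mem_coe.1 hp')).2
      simp only [Prod.mk.injEq] at e e1 e2 ⊢
      exact ⟨e, by linear_combination e1 - e2 + e⟩
  refine ⟨i, by have := mem_range.1 hi; omega,
    (ODrift_P t B C n i).image fun p => p.2 - p.1, ?_, ?_, ?_⟩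
  · have hb0 : 0 < B.card := hB.card_pos
    refine Nat.le_of_mul_le_mul_left ?_ hb0
    have h4 : 2 * (4 ^ n * (B.card * u)) ≤ B.card * C.card := by
      calc 2 * (4 ^ n * (B.card * u)) = B.card * (2 * 4 ^ n * u) := by ring
        _ ≤ B.card * C.card := Nat.mul_le_mul_left _ hun
    have h5 := Nat.mul_le_mul_left (n + 1) h3
    have h6 : B.card * (2 * (n + 1) * ((ODrift_P t B C n i).image fun p => p.2 - p.1).card)
        = 2 * ((n + 1) * (B.card * ((ODrift_P t B C n i).image fun p => p.2 - p.1).card)) := by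
      ring
    omega
  · intro d hd
    obtain ⟨p, hp, rfl⟩ := mem_image.1 hd
    have : p.1 ∈ B ∧ p.2 ∈ C := mem_product.1 (ODrift_memP.1 hp).1
    exact sub_mem_sub this.2 this.1
  · intro d hd
    obtain ⟨d', hd', rfl⟩ := mem_smul_finset.1 hd
    obtain ⟨p, hp, rfl⟩ := mem_image.1 hd'
    obtain ⟨-, q, hq, e⟩ := ODrift_memP.1 hp
    have : q.1 ∈ B ∧ q.2 ∈ C := mem_product.1 hq
    rw [smul_eq_mul, ← e]
    exact sub_mem_sub this.2 this.1

theorem ODrift_fin {H Z : Finset F} {K J : ℕ} {τ : F} (hn : ∀ h ∈ H, -h ∈ H)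
    (hH : Cov K H (H + H)) (hZ : Z.Nonempty) (hτ : ∀ z ∈ Z, z - τ ∈ H)
    (hJ : K * H.card ≤ J * Z.card) : Z - Z ⊆ H + H ∧ Cov J (Z - Z) H := by
  constructor
  · intro v hv
    obtain ⟨a, ha, b, hb, rfl⟩ := mem_sub.1 hv
    exact mem_add.2 ⟨a - τ, hτ a ha, -(b - τ), hn _ (hτ b hb), by ring⟩
  · refine cov_of_card hZ (le_trans ?_ (hH.card_le.trans hJ))
    refine card_le_card_of_injOn (fun v => v - τ) (fun v hv => ?_)
      (fun a _ b _ e => sub_left_injective e)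
    obtain ⟨a, ha, b, hb, rfl⟩ := mem_add.1 (mem_coe.1 hv)
    exact mem_coe.2 (mem_add.2 ⟨a, ha, b - τ, hτ b hb, by ring⟩)

theorem drift [Fintype F] {c t : F} {B C D H : Finset F} {u K n : ℕ} (h : OTrio c B C D)
    (hu : Fintype.card F = B.card + C.card + D.card + u) (hB : B.Nonempty)
    (hbc : B.card ≤ C.card) (hn : ∀ h ∈ H, -h ∈ H) (hH : Cov K H (H + H))
    (hW : Cov K H (B ∪ C)) (hHc : H.card ≤ K * C.card) (hun : 2 * 4 ^ n * u ≤ C.card)
    (ht : t ∈ Lp c) : ∃ i ≤ n, Dr (2 * K ^ 8 * (n + 1)) H (t ^ i * (1 - t) ^ (n - i)) := by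
  obtain ⟨i, hi, D0, hc, h1, h2⟩ := ODrift_D0 h hu hB hun ht
  refine ⟨i, hi, ?_⟩
  have hsp := h.spl.of_mem ht
  have hρ : t ^ i * (1 - t) ^ (n - i) ≠ 0 :=
    mul_ne_zero (pow_ne_zero _ hsp.c0) (pow_ne_zero _ (sub_ne_zero.2 hsp.c1.symm))
  generalize t ^ i * (1 - t) ^ (n - i) = ρ at h2 hρ ⊢
  have hCB : Cov (K * K * K) H (C - B) :=
    Cov.sub hn hH (hW.subset subset_union_right) (hW.subset subset_union_left)
  obtain ⟨Z1, hZ1, τ1, c1, m1⟩ := (hCB.subset h1).piece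
  obtain ⟨Z2, hZ2, τ2, c2, m2⟩ := (hCB.subset ((smul_finset_subset_smul_finset hZ1).trans h2)).piece
  rw [card_smul_finset₀ hρ] at c2
  have hback : ρ • ρ⁻¹ • Z2 = Z2 := smul_inv_smul₀ hρ Z2
  have hsub : ρ⁻¹ • Z2 ⊆ Z1 := by
    have := smul_finset_subset_smul_finset (a := ρ⁻¹) hZ2
    rwa [inv_smul_smul₀ hρ] at this
  have hcard : (ρ⁻¹ • Z2).card = Z2.card := card_smul_finset₀ (inv_ne_zero hρ) Z2
  have hC : C.card ≤ 2 * (n + 1) * (K * K * K * (K * K * K * Z2.card)) :=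
    hc.trans (Nat.mul_le_mul_left _ (c1.trans (Nat.mul_le_mul_left _ c2)))
  have hJ : K * H.card ≤ 2 * K ^ 8 * (n + 1) * Z2.card := by
    calc K * H.card ≤ K * (K * (2 * (n + 1) * (K * K * K * (K * K * K * Z2.card)))) :=
          Nat.mul_le_mul_left _ (hHc.trans (Nat.mul_le_mul_left _ hC))
      _ = 2 * K ^ 8 * (n + 1) * Z2.card := by ring
  have hne : Z2.Nonempty := by
    rw [← card_pos]
    have := hB.card_pos
    rcases Nat.eq_zero_or_pos Z2.card with h0 | h0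
    · rw [h0] at hC
      simp only [mul_zero] at hC
      omega
    · exact h0
  have hne' : (ρ⁻¹ • Z2).Nonempty := by rw [← card_pos, hcard]; exact hne.card_pos
  obtain ⟨a1, a2⟩ := ODrift_fin hn hH hne' (fun z hz => m1 z (hsub hz)) (by rw [hcard]; exact hJ)
  obtain ⟨b1, b2⟩ := ODrift_fin hn hH hne m2 hJ
  have e : ρ • (ρ⁻¹ • Z2 - ρ⁻¹ • Z2) = Z2 - Z2 := by
    ext v
    simp only [mem_smul_finset, mem_sub, smul_eq_mul]
    constructor
    · rintro ⟨_, ⟨_, ⟨a, ha, rfl⟩, _, ⟨b, hb, rfl⟩, rfl⟩, rfl⟩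
      exact ⟨a, ha, b, hb, by field_simp⟩
    · rintro ⟨a, ha, b, hb, rfl⟩
      exact ⟨_, ⟨_, ⟨a, ha, rfl⟩, _, ⟨b, hb, rfl⟩, rfl⟩, by field_simp⟩
  exact ⟨ρ⁻¹ • Z2 - ρ⁻¹ • Z2, a1, by rw [e]; exact b1, a2, by rw [e]; exact b2⟩

end Pool.Agent.P.MP_862e21_al
end

-- part Pool.Agent.P.MP_862e21_al.OSparse
section

namespace Pool.Agent.P.MP_862e21_al

open Finset Pointwise

variable {F : Type*} [Field F] [DecidableEq F]

theorem osparse (L : ℕ) : ∃ N : ℕ, ∀ (F : Type) [Field F] [Fintype F] [DecidableEq F],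
    (Fintype.card F).Prime → ∀ (c : F) (B C D : Finset F) (u : ℕ), OTrio c B C D →
      Fintype.card F = B.card + C.card + D.card + u → B.card ≤ C.card → C.card ≤ L * B.card →
      N * (u + 1) ≤ B.card → N * B.card ≤ Fintype.card F → False := by
  obtain ⟨K, hK⟩ := ocover (L + 1)
  obtain ⟨N1, hN1⟩ := kron (2 * K ^ 8 + K)
  refine ⟨2 * 4 ^ N1 + N1 * K + N1 * K * L + 1, ?_⟩
  intro F _ _ _ hp c B C D u h hu hbc hcb hN hq
  set N := 2 * 4 ^ N1 + N1 * K + N1 * K * L + 1 with hNdef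
  have hN0 : 1 ≤ N := by omega
  have hNa : 2 * 4 ^ N1 ≤ N := by omega
  have hNb : N1 * K ≤ N := by omega
  have hNc : N1 * K * L ≤ N := by omega
  have hNB : N ≤ B.card := le_trans (Nat.le_mul_of_pos_right N (Nat.succ_pos u)) hN
  have huB : u + 1 ≤ B.card := le_trans (Nat.le_mul_of_pos_left (u + 1) hN0) hN
  have hB : B.Nonempty := card_pos.mp (by omega)
  have hC : C.Nonempty := card_pos.mp (by omega)
  have e1 : B.card ≤ (L + 1) * C.card :=
    le_trans hbc (Nat.le_mul_of_pos_left _ (Nat.succ_pos L))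
  have e2 : C.card ≤ (L + 1) * B.card :=
    le_trans hcb (Nat.mul_le_mul_right _ (Nat.le_succ L))
  have e3 : u ≤ (L + 1) * B.card :=
    le_trans (by omega) (Nat.le_mul_of_pos_left B.card (Nat.succ_pos L))
  obtain ⟨H, hAG, hW, hHc⟩ := hK F c B C D u h hu hB hC e1 e2 e3
  have hCH : C.card ≤ K * H.card :=
    le_trans (card_le_card subset_union_right) hW.card_le
  have hKpos : 0 < K := by
    rcases Nat.eq_zero_or_pos K with h0 | h0
    · rw [h0, zero_mul] at hCH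
      omega
    · exact h0
  refine hN1 F hp c H h.spl.c0 h.spl.c1 (h.spl.h3 c) (hAG.mono (by omega)) ?_ ?_ ?_
  · have : K * N1 ≤ K * H.card := by
      rw [mul_comm K N1]
      omega
    exact Nat.le_of_mul_le_mul_left this hKpos
  · calc N1 * H.card ≤ N1 * (K * C.card) := Nat.mul_le_mul_left _ hHc
      _ ≤ N1 * (K * (L * B.card)) := Nat.mul_le_mul_left _ (Nat.mul_le_mul_left _ hcb)
      _ = N1 * K * L * B.card := by ring
      _ ≤ N * B.card := Nat.mul_le_mul_right _ hNc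
      _ ≤ Fintype.card F := hq
  · intro n hn t ht
    have h4 : 2 * 4 ^ n ≤ N :=
      le_trans (Nat.mul_le_mul_left 2 (Nat.pow_le_pow_right (by norm_num) hn)) hNa
    have hun : 2 * 4 ^ n * u ≤ C.card :=
      calc 2 * 4 ^ n * u ≤ N * (u + 1) := Nat.mul_le_mul h4 (Nat.le_succ u)
        _ ≤ B.card := hN
        _ ≤ C.card := hbc
    obtain ⟨i, hi, hD⟩ := drift h hu hB hbc hAG.neg hAG.add hW hHc hun ht
    exact ⟨i, hi, hD.mono (Nat.mul_le_mul_right _ (Nat.le_add_right _ _))⟩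

end Pool.Agent.P.MP_862e21_al
end

-- part Pool.Agent.P.MP_862e21_al.OCBasic
section

namespace Pool.Agent.P.MP_862e21_al

open Finset Pointwise

variable {F : Type*} [Field F] [DecidableEq F]

omit [DecidableEq F] in
theorem OCBasic_PW_ne {c : F} (c0 : c ≠ 0) (i : Fin 6) :
    ¬ ((PW c i).1 = 0 ∧ (PW c i).2 = 0) := by
  fin_cases i <;> simp [PW, c0]

omit [DecidableEq F] in
/-- the differences of the six points of a triple -/
theorem six_param {c x y z : F} (c0 : c ≠ 0) (c1 : c ≠ 1) (hxy : x ≠ y) (hxz : x ≠ z)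
    (hyz : y ≠ z) {p : Fin 6 → F}
    (hp : ∀ i, (PW c i).2 * ((p i - y) * (z - x)) = (PW c i).1 * ((z - y) * (p i - x)))
    {u Δ : F} (hu : u = (z - x) / (z - y)) (hΔ : Δ = (y - x) * u) :
    Δ ≠ 0 ∧ (∀ i, (PW c i).1 - u * (PW c i).2 ≠ 0) ∧
      ∀ i j, p i - p j =
        Δ * br c i j / (((PW c i).1 - u * (PW c i).2) * ((PW c j).1 - u * (PW c j).2)) := by
  have hzy : z - y ≠ 0 := sub_ne_zero.mpr hyz.symm
  have hzx : z - x ≠ 0 := sub_ne_zero.mpr hxz.symm
  have hyx : y - x ≠ 0 := sub_ne_zero.mpr hxy.symm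
  have _hc1 := c1
  have hu' : u * (z - y) = z - x := by rw [hu]; field_simp
  have u0 : u ≠ 0 := by rw [hu]; exact div_ne_zero hzx hzy
  have D0 : Δ ≠ 0 := by rw [hΔ]; exact mul_ne_zero hyx u0
  have key : ∀ i, (p i - x) * ((PW c i).1 - u * (PW c i).2) = -((PW c i).2 * Δ) := by
    intro i
    apply mul_left_cancel₀ hzy
    have e := hp i
    rw [← hu'] at e
    rw [hΔ]
    linear_combination -e
  have l0 : ∀ i, (PW c i).1 - u * (PW c i).2 ≠ 0 := by
    intro i h0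
    have e := key i
    rw [h0, mul_zero] at e
    have b0 : (PW c i).2 = 0 := by
      have e' : (PW c i).2 * Δ = 0 := by linear_combination e
      exact (mul_eq_zero.mp e').resolve_right D0
    refine OCBasic_PW_ne c0 i ⟨?_, b0⟩
    rw [b0] at h0
    simpa using h0
  refine ⟨D0, l0, fun i j => ?_⟩
  rw [eq_div_iff (mul_ne_zero (l0 i) (l0 j))]
  unfold br
  linear_combination ((PW c j).1 - u * (PW c j).2) * key i - ((PW c i).1 - u * (PW c i).2) * key j

theorem OC.cyc {c : F} {η : Bool} {TT : Finset (F × F × F)} (h : OC c η TT) {x y z : F}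
    (ht : (x, y, z) ∈ TT) : (y, z, x) ∈ TT := by
  obtain ⟨p, κ, p0, p1, p2, k0, k1, k2, -, hc⟩ := h.ext _ ht
  have e := hc 1 2 0 (by rw [k1, k2]; decide) (by rw [k1, k0]; decide) (by rw [k2, k0]; decide)
    (by rw [← ori_cyc η 0 1 2]; exact ori_012 η)
  rw [p0, p1, p2] at e
  exact e

/-- the relabelling used for the rotation -/
def OCBasic_sg : Fin 6 → Fin 6 := ![0, 1, 2, 4, 5, 3]

/-- the relabelling used for the reversal -/
def OCBasic_rh : Fin 6 → Fin 6 := ![0, 2, 1, 3, 5, 4]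

theorem OCBasic_ori_sg : ∀ η i j k, ori η i j k = true →
    ori η (OCBasic_sg i) (OCBasic_sg j) (OCBasic_sg k) = true := by decide

theorem OCBasic_ori_rh : ∀ η i j k, ori η i j k = true →
    ori η (OCBasic_rh i) (OCBasic_rh k) (OCBasic_rh j) = true := by decide

theorem OC.rot {c : F} {η : Bool} {TT : Finset (F × F × F)} (h : OC c η TT) :
    OC (1 - c)⁻¹ η TT := by
  have c0 := h.c0
  have c1 : 1 - c ≠ 0 := sub_ne_zero.mpr h.c1.symm
  refine ⟨inv_ne_zero c1, ?_, ?_, h.ne, h.dist, ?_⟩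
  · intro e
    have e' : 1 - c = 1 := by rwa [inv_eq_one] at e
    exact c0 (by linear_combination -e')
  · intro e
    apply h.cN
    have e' : ((1 - c)⁻¹ ^ 2 - (1 - c)⁻¹ + 1) * (1 - c) ^ 2 = c ^ 2 - c + 1 := by
      field_simp; ring
    rw [← e', e, zero_mul]
  · intro t ht
    obtain ⟨p, κ, p0, p1, p2, k0, k1, k2, he, hc⟩ := h.ext t ht
    refine ⟨fun i => p (OCBasic_sg i), fun i => κ (OCBasic_sg i), p0, p1, p2, k0, k1, k2, ?_, ?_⟩
    · have hi : (1 - c)⁻¹ * (1 - c) = 1 := inv_mul_cancel₀ c1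
      have e0 := he 0
      have e1 := he 1
      have e2 := he 2
      have e3 := he 3
      have e4 := he 4
      have e5 := he 5
      simp only [PW, Matrix.cons_val] at e0 e1 e2 e3 e4 e5
      intro i
      fin_cases i <;> simp only [PW, OCBasic_sg, Fin.zero_eta, Fin.mk_one, Fin.reduceFinMk,
        Matrix.cons_val]
      · exact e0
      · exact e1
      · exact e2
      · linear_combination (1 - c)⁻¹ * e4 - ((p 4 - t.2.1) * (t.2.2 - t.1)) * hi
      · linear_combination (-(1 - c)⁻¹) * e5 + ((t.2.2 - t.2.1) * (p 5 - t.1)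
          - (p 5 - t.2.1) * (t.2.2 - t.1)) * hi
      · linear_combination (1 - c)⁻¹ * e3 - ((t.2.2 - t.2.1) * (p 3 - t.1)) * hi
    · intro i j k h1 h2 h3 ho
      exact hc _ _ _ h1 h2 h3 (OCBasic_ori_sg η i j k ho)

theorem OC.rev {c : F} {η : Bool} {TT : Finset (F × F × F)} (h : OC c η TT) :
    OC (1 - c) η (TT.image fun t => (t.1, t.2.2, t.2.1)) := by
  refine ⟨sub_ne_zero.mpr h.c1.symm, ?_, ?_, h.ne.image _, ?_, ?_⟩
  · intro e
    exact h.c0 (by linear_combination -e)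
  · intro e
    exact h.cN (by linear_combination e)
  · intro t' ht'
    obtain ⟨t, ht, rfl⟩ := mem_image.mp ht'
    obtain ⟨d1, d2, d3⟩ := h.dist t ht
    exact ⟨d2, d1, d3.symm⟩
  · intro t' ht'
    obtain ⟨t, ht, rfl⟩ := mem_image.mp ht'
    obtain ⟨p, κ, p0, p1, p2, k0, k1, k2, he, hc⟩ := h.ext t ht
    refine ⟨fun i => p (OCBasic_rh i), fun i => Equiv.swap 1 2 (κ (OCBasic_rh i)), p0, p2, p1,
      ?_, ?_, ?_, ?_, ?_⟩
    · change Equiv.swap 1 2 (κ 0) = 0
      rw [k0]; decide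
    · change Equiv.swap 1 2 (κ 2) = 1
      rw [k2]; decide
    · change Equiv.swap 1 2 (κ 1) = 2
      rw [k1]; decide
    · have e0 := he 0
      have e1 := he 1
      have e2 := he 2
      have e3 := he 3
      have e4 := he 4
      have e5 := he 5
      simp only [PW, Matrix.cons_val] at e0 e1 e2 e3 e4 e5
      intro i
      fin_cases i <;> simp only [PW, OCBasic_rh, Fin.zero_eta, Fin.mk_one, Fin.reduceFinMk,
        Matrix.cons_val]
      · linear_combination -e0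
      · linear_combination e2
      · linear_combination e1
      · linear_combination e3
      · linear_combination e5
      · linear_combination e4
    · intro i j k h1 h2 h3 ho
      have n1 : κ (OCBasic_rh i) ≠ κ (OCBasic_rh j) := fun e => h1 (by simp only [e])
      have n2 : κ (OCBasic_rh i) ≠ κ (OCBasic_rh k) := fun e => h2 (by simp only [e])
      have n3 : κ (OCBasic_rh j) ≠ κ (OCBasic_rh k) := fun e => h3 (by simp only [e])
      exact mem_image.mpr ⟨_, hc _ _ _ n2 n1 n3.symm (OCBasic_ori_rh η i j k ho), rfl⟩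

theorem OC.of_mem {c s : F} {η : Bool} {TT : Finset (F × F × F)} (h : OC c η TT)
    (hs : s ∈ Lam c) : ∃ TT' : Finset (F × F × F), OC s η TT' := by
  have c0 := h.c0
  have c1 : 1 - c ≠ 0 := sub_ne_zero.mpr h.c1.symm
  have c2 : c - 1 ≠ 0 := sub_ne_zero.mpr h.c1
  have a1 : c⁻¹ = (1 - (1 - c))⁻¹ := by rw [sub_sub_cancel]
  have a2 : (c - 1) / c = (1 - (1 - c)⁻¹)⁻¹ := by
    apply eq_inv_of_mul_eq_one_left
    field_simp
    ring
  have a3 : c / (c - 1) = (1 - (1 - (1 - c))⁻¹)⁻¹ := by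
    rw [sub_sub_cancel]
    apply eq_inv_of_mul_eq_one_left
    field_simp
  rcases mem_Lam.mp hs with e | e | e | e | e | e <;> rw [e]
  · exact ⟨_, h⟩
  · rw [a1]; exact ⟨_, h.rev.rot⟩
  · exact ⟨_, h.rev⟩
  · exact ⟨_, h.rot⟩
  · rw [a2]; exact ⟨_, h.rot.rot⟩
  · rw [a3]; exact ⟨_, h.rev.rot.rot⟩

theorem OCBasic_other : ∀ a : Fin 3, ∃ j k : Fin 6, ∃ b c : Fin 3, a ≠ b ∧ a ≠ c ∧ b ≠ c ∧
    ∀ κ : Fin 6 → Fin 3, κ 0 = 0 → κ 1 = 1 → κ 2 = 2 → κ j = b ∧ κ k = c := by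
  intro a
  fin_cases a
  · exact ⟨1, 2, 1, 2, by decide, by decide, by decide, fun _ _ h1 h2 => ⟨h1, h2⟩⟩
  · exact ⟨0, 2, 0, 2, by decide, by decide, by decide, fun _ h0 _ h2 => ⟨h0, h2⟩⟩
  · exact ⟨0, 1, 0, 1, by decide, by decide, by decide, fun _ h0 h1 _ => ⟨h0, h1⟩⟩

/-- transport along a map that respects the ring operations on a set `R` -/
theorem OC.map {F' : Type*} [Field F'] [DecidableEq F'] {c : F} {η : Bool}
    {TT : Finset (F × F × F)} (h : OC c η TT) (R : Subring F) (g : F → F') (g1 : g 1 = 1)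
    (gsub : ∀ x ∈ R, ∀ y ∈ R, g (x - y) = g x - g y)
    (gmul : ∀ x ∈ R, ∀ y ∈ R, g (x * y) = g x * g y) (hc : c ∈ R) (hT : ∀ t ∈ TT, t.1 ∈ R)
    (hinj : ∀ t ∈ TT, g t.1 ≠ g t.2.1) (g0 : g c ≠ 0) (g1' : g c ≠ 1)
    (gN : g c ^ 2 - g c + 1 ≠ 0) :
    OC (g c) η (TT.image fun t => (g t.1, g t.2.1, g t.2.2)) := by
  have gz : g 0 = 0 := by
    have e := gsub 1 R.one_mem 1 R.one_mem
    rwa [sub_self, sub_self] at e
  have ga : g (1 - c) = 1 - g c := by rw [gsub 1 R.one_mem c hc, g1]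
  have gb : g (c - 1) = g c - 1 := by rw [gsub c hc 1 R.one_mem, g1]
  have ra : 1 - c ∈ R := R.sub_mem R.one_mem hc
  have rb : c - 1 ∈ R := R.sub_mem hc R.one_mem
  have hW : ∀ i, ((PW c i).1 ∈ R ∧ (PW c i).2 ∈ R) ∧
      g (PW c i).1 = (PW (g c) i).1 ∧ g (PW c i).2 = (PW (g c) i).2 := by
    intro i
    fin_cases i <;> simp only [PW, Fin.zero_eta, Fin.mk_one, Fin.reduceFinMk, Matrix.cons_val]
    · exact ⟨⟨R.one_mem, R.zero_mem⟩, g1, gz⟩
    · exact ⟨⟨R.zero_mem, R.one_mem⟩, gz, g1⟩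
    · exact ⟨⟨R.one_mem, R.one_mem⟩, g1, g1⟩
    · exact ⟨⟨hc, R.one_mem⟩, trivial, g1⟩
    · exact ⟨⟨R.one_mem, ra⟩, g1, ga⟩
    · exact ⟨⟨rb, hc⟩, gb, trivial⟩
  refine ⟨g0, g1', gN, h.ne.image _, ?_, ?_⟩
  · intro t' ht'
    obtain ⟨⟨x, y, z⟩, ht, rfl⟩ := mem_image.mp ht'
    exact ⟨hinj _ ht, (hinj _ (h.cyc (h.cyc ht))).symm, hinj _ (h.cyc ht)⟩
  · intro t' ht'
    obtain ⟨⟨x, y, z⟩, ht, rfl⟩ := mem_image.mp ht'
    obtain ⟨p, κ, p0, p1, p2, k0, k1, k2, he, hcl⟩ := h.ext _ ht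
    have hp : ∀ i, p i ∈ R := by
      intro i
      obtain ⟨j, k, a, b, n1, n2, n3, hk⟩ := OCBasic_other (κ i)
      obtain ⟨ej, ek⟩ := hk κ k0 k1 k2
      rw [← ej] at n1 n3
      rw [← ek] at n2 n3
      rcases ori_tot η i j k (fun e => n1 (by rw [e])) (fun e => n2 (by rw [e]))
        (fun e => n3 (by rw [e])) with ho | ho
      · exact hT _ (hcl i j k n1 n2 n3 ho)
      · exact hT _ (hcl i k j n2 n1 n3.symm ho)
    have rx : x ∈ R := hT _ ht
    have ry : y ∈ R := hT _ (h.cyc ht)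
    have rz : z ∈ R := hT _ (h.cyc (h.cyc ht))
    refine ⟨fun i => g (p i), κ, congrArg g p0, congrArg g p1, congrArg g p2, k0, k1, k2, ?_, ?_⟩
    · intro i
      have e := congrArg g (he i)
      obtain ⟨⟨w1, w2⟩, v1, v2⟩ := hW i
      dsimp only at e ⊢
      rw [gmul _ w2 _ (R.mul_mem (R.sub_mem (hp i) ry) (R.sub_mem rz rx)),
        gmul _ w1 _ (R.mul_mem (R.sub_mem rz ry) (R.sub_mem (hp i) rx)),
        gmul _ (R.sub_mem (hp i) ry) _ (R.sub_mem rz rx),
        gmul _ (R.sub_mem rz ry) _ (R.sub_mem (hp i) rx),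
        gsub _ (hp i) _ ry, gsub _ rz _ rx, gsub _ rz _ ry, gsub _ (hp i) _ rx, v1, v2] at e
      exact e
    · intro i j k h1 h2 h3 ho
      exact mem_image.mpr ⟨_, hcl i j k h1 h2 h3 ho, rfl⟩

end Pool.Agent.P.MP_862e21_al
end

-- part Pool.Agent.P.MP_862e21_al.OCThin
section

namespace Pool.Agent.P.MP_862e21_al

open Finset Pointwise

variable {F : Type*} [Field F] [DecidableEq F]

theorem OCThin_step {c : F} {η : Bool} {TT : Finset (F × F × F)} (h : OC c η TT) {x y z : F}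
    (ht : (x, y, z) ∈ TT) : ∃ p : F, (p - y) * (z - x) = c * ((z - y) * (p - x)) ∧
      ((x, p, y) ∈ TT ∨ (z, y, p) ∈ TT ∨ (x, z, p) ∈ TT) := by
  obtain ⟨p, κ, p0, p1, p2, k0, k1, k2, he, hr⟩ := h.ext _ ht
  simp only at p0 p1 p2 he
  refine ⟨p 3, by simpa [PW] using he 3, ?_⟩
  have o1 : ∀ η, ori η 0 3 1 = true := by decide
  have o2 : ∀ η, ori η 2 1 3 = true := by decide
  have o3 : ∀ η, ori η 0 2 3 = true := by decide
  have hk : κ 3 = 0 ∨ κ 3 = 1 ∨ κ 3 = 2 := by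
    generalize κ 3 = a
    revert a
    decide
  rcases hk with e | e | e
  · have := hr 2 1 3 (by rw [k2, k1]; decide) (by rw [k2, e]; decide) (by rw [k1, e]; decide)
      (o2 η)
    rw [p2, p1] at this
    exact Or.inr (Or.inl this)
  · have := hr 0 2 3 (by rw [k0, k2]; decide) (by rw [k0, e]; decide) (by rw [k2, e]; decide)
      (o3 η)
    rw [p0, p2] at this
    exact Or.inr (Or.inr this)
  · have := hr 0 3 1 (by rw [k0, e]; decide) (by rw [k0, k1]; decide) (by rw [k1, e]; decide)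
      (o1 η)
    rw [p0, p1] at this
    exact Or.inl this

theorem OCThin_fin {c : F} {η : Bool} {TT : Finset (F × F × F)} (h : OC c η TT)
    (P : F × F × F → Prop) (h0 : ∃ t ∈ TT, P t)
    (hs : ∀ x y z, (x, y, z) ∈ TT → P (x, y, z) → ∃ p, (x, z, p) ∈ TT ∧ P (x, z, p) ∧
      (p - y) * (z - x) = c * ((z - y) * (p - x))) : ∃ m : ℕ, 1 ≤ m ∧ (c - 1) ^ m = 1 := by
  let d : F × F × F → F := fun t => (t.2.2 - t.1)⁻¹ - (t.2.1 - t.1)⁻¹
  obtain ⟨t0, ht0, hP0⟩ := h0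
  have hd0 : d t0 ≠ 0 := by
    intro e
    have := inv_injective (sub_eq_zero.1 e)
    exact (h.dist _ ht0).2.2 (sub_left_injective this).symm
  have key : ∀ n : ℕ, ∃ t ∈ TT, P t ∧ d t = (c - 1) ^ n * d t0 := by
    intro n
    induction n with
    | zero => exact ⟨t0, ht0, hP0, by simp⟩
    | succ n ih =>
      obtain ⟨⟨x, y, z⟩, ht, hP, hd⟩ := ih
      obtain ⟨p, hp, hPp, e⟩ := hs x y z ht hP
      refine ⟨_, hp, hPp, ?_⟩
      have a1 : y - x ≠ 0 := sub_ne_zero.2 (h.dist _ ht).1.symm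
      have a2 : z - x ≠ 0 := sub_ne_zero.2 (h.dist _ ht).2.1.symm
      have a3 : p - x ≠ 0 := sub_ne_zero.2 (h.dist _ hp).2.1.symm
      rw [pow_succ, mul_right_comm, ← hd]
      simp only [d]
      field_simp
      linear_combination -e
  have hc : c - 1 ≠ 0 := sub_ne_zero.2 h.c1
  obtain ⟨i, j, hij, e⟩ := Set.Finite.exists_lt_map_eq_of_forall_mem
    (f := fun n : ℕ => (c - 1) ^ n * d t0) (t := ((TT.image d : Finset F) : Set F))
    (fun n => by
      obtain ⟨t, ht, -, hd⟩ := key n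
      exact mem_coe.2 (mem_image.2 ⟨t, ht, hd⟩)) (finite_toSet _)
  refine ⟨j - i, by omega, ?_⟩
  have e2 := mul_right_cancel₀ hd0 e
  rw [pow_sub₀ _ hc hij.le, ← e2, mul_inv_cancel₀ (pow_ne_zero _ hc)]

theorem otree {c : F} {η : Bool} {TT : Finset (F × F × F)} (h : OC c η TT)
    (O : ValuationSubring F) (hv : O.valuation c < 1) : ∃ m : ℕ, 1 ≤ m ∧ (c - 1) ^ m = 1 := by
  generalize O.valuation = v at *
  refine OCThin_fin h (fun t => ∀ t' ∈ TT, v (t.2.1 - t.2.2) ≤ v (t'.2.1 - t'.2.2))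
    (TT.exists_min_image (fun t => v (t.2.1 - t.2.2)) h.ne) fun x y z ht hP => ?_
  simp only at hP
  obtain ⟨p, e, hp⟩ := OCThin_step h ht
  have zx : z - x ≠ 0 := sub_ne_zero.2 (h.dist _ ht).2.1.symm
  have yz : y - z ≠ 0 := sub_ne_zero.2 (h.dist _ ht).2.2
  have vzx : 0 < v (z - x) := (Valuation.pos_iff v).2 zx
  have hδ : 0 < v (y - z) := (Valuation.pos_iff v).2 yz
  have hδx : v (y - z) ≤ v (z - x) := hP _ (h.cyc ht)
  have hsδ : v c * v (y - z) < v (y - z) := mul_lt_of_lt_one_left hδ hv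
  have e1 : (p - x) * (z - x - c * (z - y)) = (y - x) * (z - x) := by linear_combination e
  have v1 : v (z - x - c * (z - y)) = v (z - x) := by
    refine v.map_sub_eq_of_lt_left ?_
    rw [map_mul, v.map_sub_swap z y]
    exact hsδ.trans_le hδx
  have v2 : v (p - x) = v (y - x) := by
    have := congrArg v e1
    rw [map_mul, map_mul, v1] at this
    exact mul_right_cancel₀ vzx.ne' this
  have v3 : v (y - x) ≤ v (z - x) := by
    have : y - x = (y - z) + (z - x) := by ring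
    rw [this]
    exact v.map_add_le hδx le_rfl
  have v4 : v (p - y) < v (y - z) := by
    have h1 := congrArg v e
    rw [map_mul, map_mul, map_mul, v.map_sub_swap z y, v2, ← mul_assoc] at h1
    have h2 : v (p - y) * v (z - x) ≤ v c * v (y - z) * v (z - x) := by
      rw [h1]
      exact mul_le_mul' le_rfl v3
    exact (le_of_mul_le_mul_right h2 vzx).trans_lt hsδ
  rcases hp with hp | hp | hp
  · exact absurd (hP _ hp) (not_le.2 v4)
  · have := hP _ hp
    rw [v.map_sub_swap y p] at this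
    exact absurd this (not_le.2 v4)
  · refine ⟨p, hp, fun t' ht' => le_trans ?_ (hP t' ht'), e⟩
    have : z - p = -(y - z) + -(p - y) := by ring
    simp only
    rw [this]
    exact v.map_add_le (by rw [v.map_neg]) (by rw [v.map_neg]; exact v4.le)

/-- the potential -/
noncomputable def OCThin_g (c : ℂ) (t : ℂ × ℂ × ℂ) : ℂ :=
  ((t.2.2 - t.2.1) - (2 - c) * (t.2.2 - t.1)) ^ 2 /
    ((t.1 - t.2.1) * (t.1 - t.2.2) * (t.2.1 - t.2.2))

theorem OCThin_forms {c x y z p : ℂ} (c0 : c ≠ 0) (c1 : c ≠ 1) (hxy : x ≠ y) (hxz : x ≠ z)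
    (hyz : y ≠ z) (e : (p - y) * (z - x) = c * ((z - y) * (p - x))) :
    ∃ u Δ : ℂ, Δ ≠ 0 ∧ OCThin_g c (x, y, z) * Δ = -(1 - (2 - c) * u) ^ 2 ∧
      OCThin_g c (y, z, x) * Δ = -(2 - c - (1 - c) * u) ^ 2 ∧
      OCThin_g c (x, p, y) * Δ * c = (c * (1 - c) - (2 - c) * u) ^ 2 ∧
      OCThin_g c (z, y, p) * Δ * (c * (1 - c)) = -(c - (2 - 2 * c + c ^ 2) * u) ^ 2 ∧
      OCThin_g c (x, z, p) * Δ * (1 - c) = (1 - (2 - c) * u) ^ 2 := by
  obtain ⟨A, rfl⟩ : ∃ A, y = z - A := ⟨z - y, by ring⟩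
  have hA : A ≠ 0 := fun e => hyz (by rw [e, sub_zero])
  obtain ⟨u, rfl⟩ : ∃ u, x = z - u * A := ⟨(z - x) / A, by field_simp; ring⟩
  have hu : u ≠ 0 := fun e => hxz (by rw [e, zero_mul, sub_zero])
  have hu1 : u - 1 ≠ 0 := fun e => hxy (by rw [sub_eq_zero.1 e, one_mul])
  have hc1 : 1 - c ≠ 0 := sub_ne_zero.2 c1.symm
  have e2 : (p - (z - A)) * (u - c) = c * (u - 1) * A := by
    refine mul_left_cancel₀ hA ?_
    linear_combination e
  have hw : u - c ≠ 0 := fun e0 => by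
    rw [e0, mul_zero] at e2
    exact mul_ne_zero (mul_ne_zero c0 hu1) hA e2.symm
  obtain ⟨B, rfl⟩ : ∃ B, A = B * (u - c) := ⟨A / (u - c), by field_simp⟩
  have hB : B ≠ 0 := left_ne_zero_of_mul hA
  have hp : p = z - B * (u * (1 - c)) := by
    refine mul_right_cancel₀ hw ?_
    linear_combination e2
  subst hp
  refine ⟨u, (u - 1) * u * (B * (u - c)), mul_ne_zero (mul_ne_zero hu1 hu) hA, ?_, ?_, ?_, ?_, ?_⟩
  · rw [OCThin_g, div_mul_eq_mul_div, div_eq_iff]
    · ring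
    · exact mul_ne_zero (mul_ne_zero (sub_ne_zero.2 hxy) (sub_ne_zero.2 hxz)) (sub_ne_zero.2 hyz)
  · rw [OCThin_g, div_mul_eq_mul_div, div_eq_iff]
    · ring
    · exact mul_ne_zero (mul_ne_zero (sub_ne_zero.2 hyz) (sub_ne_zero.2 hxy.symm))
        (sub_ne_zero.2 hxz.symm)
  · rw [OCThin_g, div_mul_eq_mul_div, div_mul_eq_mul_div, div_eq_iff]
    · ring
    · have : c * u * (u - 1) ^ 3 * B ^ 3 * (u - c) ≠ 0 := by positivity
      refine fun e0 => this ?_
      simp only at e0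
      linear_combination e0
  · rw [OCThin_g, div_mul_eq_mul_div, div_mul_eq_mul_div, div_eq_iff]
    · ring
    · have : c * (1 - c) * u * (u - 1) * B ^ 3 * (u - c) ≠ 0 := by positivity
      refine fun e0 => this ?_
      simp only at e0
      linear_combination -e0
  · rw [OCThin_g, div_mul_eq_mul_div, div_mul_eq_mul_div, div_eq_iff]
    · ring
    · have : (1 - c) * u ^ 3 * (u - 1) * B ^ 3 * (u - c) ≠ 0 := by positivity
      refine fun e0 => this ?_
      simp only at e0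
      linear_combination e0

theorem OCThin_low {c u : ℂ} (h1 : ‖c‖ ≤ 1 / 8)
    (h : ‖2 - c - (1 - c) * u‖ ≤ ‖1 - (2 - c) * u‖) : 7 / 10 ≤ ‖u‖ := by
  by_contra hlt
  push Not at hlt
  have r0 := norm_nonneg u
  have e : ‖2 - u‖ ^ 2 - ‖1 - 2 * u‖ ^ 2 = 3 - 3 * ‖u‖ ^ 2 := by
    simp only [Complex.sq_norm, Complex.normSq_apply]
    simp
    ring
  have a1 : ‖2 - u‖ ≤ 2 + ‖u‖ := by simpa using norm_sub_le (2 : ℂ) u
  have a2 : ‖1 - 2 * u‖ ≤ 1 + 2 * ‖u‖ := by simpa using norm_sub_le (1 : ℂ) (2 * u)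
  have a3 : 1 - ‖u‖ ≤ ‖2 - u‖ - ‖1 - 2 * u‖ := by
    by_contra hc
    push Not at hc
    nlinarith [norm_nonneg (2 - u), norm_nonneg (1 - 2 * u)]
  have b1 : ‖2 - u‖ ≤ ‖2 - c - (1 - c) * u‖ + ‖c‖ * (1 + ‖u‖) := by
    have e1 : 2 - u = (2 - c - (1 - c) * u) + c * (1 - u) := by ring
    have : ‖1 - u‖ ≤ 1 + ‖u‖ := by simpa using norm_sub_le (1 : ℂ) u
    calc ‖2 - u‖ = ‖(2 - c - (1 - c) * u) + c * (1 - u)‖ := by rw [← e1]
      _ ≤ _ := norm_add_le _ _
      _ ≤ _ := by rw [norm_mul]; gcongr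
  have b2 : ‖1 - (2 - c) * u‖ ≤ ‖1 - 2 * u‖ + ‖c‖ * ‖u‖ := by
    have e1 : 1 - (2 - c) * u = (1 - 2 * u) + c * u := by ring
    rw [e1, ← norm_mul]
    exact norm_add_le _ _
  nlinarith [norm_nonneg c]

theorem OCThin_up {c u : ℂ} (h1 : ‖c‖ ≤ 1 / 8) (hu : 7 / 10 ≤ ‖u‖) :
    ‖1 - (2 - c) * u‖ ≤ 4 * ‖u‖ := by
  have a1 : ‖2 - c‖ ≤ 2 + ‖c‖ := by simpa using norm_sub_le (2 : ℂ) c
  have a2 : ‖1 - (2 - c) * u‖ ≤ 1 + ‖2 - c‖ * ‖u‖ := by
    simpa using norm_sub_le (1 : ℂ) ((2 - c) * u)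
  nlinarith [norm_nonneg u]

theorem OCThin_big {a b u : ℂ} (ha : ‖a‖ ≤ 1 / 8) (hb : ‖b‖ ≤ 17 / 64) (hu : 7 / 10 ≤ ‖u‖) :
    3 / 2 * ‖u‖ ≤ ‖a - (2 - b) * u‖ := by
  have a1 : 2 - ‖b‖ ≤ ‖2 - b‖ := by simpa using norm_sub_norm_le (2 : ℂ) b
  have a2 : ‖2 - b‖ * ‖u‖ - ‖a‖ ≤ ‖a - (2 - b) * u‖ := by
    rw [norm_sub_rev a, ← norm_mul]
    exact norm_sub_norm_le _ _
  nlinarith [norm_nonneg u]

theorem OCThin_contra {G G' D k a b r : ℝ} (hG : G' ≤ G) (hD : 0 < D) (hk0 : 0 ≤ k)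
    (hk : k ≤ 1 / 8) (e1 : G * D = a ^ 2) (e2 : G' * D * k = b ^ 2) (ha0 : 0 ≤ a)
    (ha : a ≤ 4 * r) (hb : 3 / 2 * r ≤ b) (hr : 7 / 10 ≤ r) : False := by
  have h1 : G' * D ≤ a ^ 2 := e1 ▸ mul_le_mul_of_nonneg_right hG hD.le
  have h2 : b ^ 2 ≤ a ^ 2 * k := e2 ▸ mul_le_mul_of_nonneg_right h1 hk0
  have h3 : a ^ 2 ≤ (4 * r) ^ 2 := pow_le_pow_left₀ ha0 ha 2
  have h4 : (3 / 2 * r) ^ 2 ≤ b ^ 2 := pow_le_pow_left₀ (by linarith) hb 2
  have h5 : a ^ 2 * k ≤ (4 * r) ^ 2 * (1 / 8) := mul_le_mul h3 hk hk0 (by positivity)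
  nlinarith

theorem othin [DecidableEq ℂ] {c : ℂ} {η : Bool} {TT : Finset (ℂ × ℂ × ℂ)} (h : OC c η TT)
    (h1 : ‖c‖ ≤ 1 / 8) (h2 : ‖1 - c‖ ≤ 1) : ∃ m : ℕ, 1 ≤ m ∧ (c - 1) ^ m = 1 := by
  refine OCThin_fin h (fun t => ∀ t' ∈ TT, ‖OCThin_g c t'‖ ≤ ‖OCThin_g c t‖)
    (TT.exists_max_image (fun t => ‖OCThin_g c t‖) h.ne) fun x y z ht hP => ?_
  obtain ⟨p, e, hp⟩ := OCThin_step h ht
  obtain ⟨d1, d2, d3⟩ := h.dist _ ht
  obtain ⟨u, Δ, hΔ, f1, f2, f3, f4, f5⟩ := OCThin_forms h.c0 h.c1 d1 d2 d3 e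
  have hD : 0 < ‖Δ‖ := norm_pos_iff.2 hΔ
  have n1 := congrArg norm f1
  have n2 := congrArg norm f2
  have n3 := congrArg norm f3
  have n4 := congrArg norm f4
  have n5 := congrArg norm f5
  rw [norm_mul, norm_neg, norm_pow] at n1 n2
  rw [norm_mul, norm_mul, norm_pow] at n3 n5
  rw [norm_mul, norm_mul, norm_neg, norm_pow] at n4
  have hu : 7 / 10 ≤ ‖u‖ := by
    refine OCThin_low h1 ((sq_le_sq₀ (norm_nonneg _) (norm_nonneg _)).1 ?_)
    rw [← n1, ← n2]
    exact mul_le_mul_of_nonneg_right (hP _ (h.cyc ht)) hD.le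
  have hup := OCThin_up h1 hu
  have hcc : ‖c * (1 - c)‖ ≤ 1 / 8 := by
    rw [norm_mul]
    nlinarith [norm_nonneg c, norm_nonneg (1 - c)]
  rcases hp with hp | hp | hp
  · exact (OCThin_contra (hP _ hp) hD (norm_nonneg _) h1 n1 n3 (norm_nonneg _) hup
      (OCThin_big hcc (by linarith) hu) hu).elim
  · have hb : ‖2 * c - c ^ 2‖ ≤ 17 / 64 := by
      have : ‖2 * c - c ^ 2‖ ≤ 2 * ‖c‖ + ‖c‖ ^ 2 := by
        have h5 := norm_sub_le (2 * c) (c ^ 2)
        rwa [norm_mul, norm_pow, Complex.norm_ofNat] at h5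
      nlinarith [norm_nonneg c]
    have hb2 := OCThin_big h1 hb hu
    rw [show 2 - (2 * c - c ^ 2) = 2 - 2 * c + c ^ 2 by ring] at hb2
    exact (OCThin_contra (hP _ hp) hD (norm_nonneg _) hcc n1 n4 (norm_nonneg _) hup hb2 hu).elim
  · refine ⟨p, hp, fun t' ht' => (hP t' ht').trans ?_, e⟩
    refine le_of_mul_le_mul_right ?_ hD
    rw [n1, ← n5]
    exact mul_le_of_le_one_right (by positivity) h2

end Pool.Agent.P.MP_862e21_al
end

-- part Pool.Agent.P.MP_862e21_al.OCChk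
section

namespace Pool.Agent.P.MP_862e21_al

/-- one Newton step for the square root, from above -/
def nw (n g : ℕ) : ℕ := Nat.succ (Nat.div (Nat.add g (Nat.div n g)) 2)

/-- absolute value of `p - n` -/
def ab (p n : ℕ) : ℕ := Nat.add (Nat.sub p n) (Nat.sub n p)

def sq2 (a b : ℕ) : ℕ := Nat.add (Nat.mul a a) (Nat.mul b b)

def nw2 (n g : ℕ) : ℕ := nw n (nw n g)

/-- upper bound for the norm of `a + i b` -/
def nrm (a b : ℕ) : ℕ := Bool.rec (nw2 (sq2 a b) (Nat.add a b)) a (Nat.beq b 0)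

/-- upper bound for the square root -/
def sqU (n : ℕ) : ℕ := nw n (nw2 n (nw2 n 65536))

/-- a Gaussian integer with both coordinates written as differences -/
structure GI where
  xp : ℕ
  xn : ℕ
  yp : ℕ
  yn : ℕ

def GI.nrm (v : GI) : ℕ := MP_862e21_al.nrm (ab v.xp v.xn) (ab v.yp v.yn)

/-- `w + (X + i Y) v` -/
def GI.fma (w : GI) (X Y : ℕ) (v : GI) : GI :=
  ⟨Nat.add w.xp (Nat.add (Nat.mul X v.xp) (Nat.mul Y v.yn)),
    Nat.add w.xn (Nat.add (Nat.mul X v.xn) (Nat.mul Y v.yp)),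
    Nat.add w.yp (Nat.add (Nat.mul X v.yp) (Nat.mul Y v.xp)),
    Nat.add w.yn (Nat.add (Nat.mul X v.yn) (Nat.mul Y v.xn))⟩

/-- value, derivative and error bound -/
structure TM where
  v : GI
  d : GI
  e : ℕ

def horS (X Y r2 cH : ℕ) (p : ℕ × ℕ) (t : TM) : TM :=
  ⟨GI.fma ⟨p.1, p.2, 0, 0⟩ X Y t.v, GI.fma t.v X Y t.d,
    Nat.add (Nat.mul cH t.e) (Nat.mul t.d.nrm r2)⟩

def hor (X Y r2 cH : ℕ) (l : List (ℕ × ℕ)) : TM :=
  List.rec ⟨⟨0, 0, 0, 0⟩, ⟨0, 0, 0, 0⟩, 0⟩ (fun p _ t => horS X Y r2 cH p t) l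

def TM.rad (t : TM) (r : ℕ) : ℕ := Nat.add (Nat.mul t.d.nrm r) t.e

def sel (t h1 h2 h3 : ℕ) : ℕ :=
  Bool.rec (Bool.rec (Bool.rec h3 h2 (Nat.beq t 2)) h1 (Nat.beq t 1)) 65536 (Nat.beq t 0)

/-- a pair of points next to a vertex -/
structure PE where
  b : Fin 6
  e : Fin 6
  t1 : ℕ
  t2 : ℕ
  t3 : ℕ
  m : ℕ

/-- a vertex with two polynomials -/
structure PS where
  a : Fin 6
  pa : List (ℕ × ℕ)
  pb : List (ℕ × ℕ)

/-- an oriented triple with its polynomials -/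
structure TE where
  i : Fin 6
  j : Fin 6
  k : Fin 6
  m : ℕ
  t1 : ℕ
  t2 : ℕ
  t3 : ℕ
  ps : List PS

structure Ent where
  a : GI
  b : GI
  rb : ℕ
  nb : ℕ
  ks : List (ℕ × ℕ)

/-- the data of a box -/
structure Bx where
  X : ℕ
  Y : ℕ
  r : ℕ
  r2 : ℕ
  cH : ℕ
  s1 : ℕ
  s2 : ℕ
  s3 : ℕ
  t1 : ℕ
  t2 : ℕ
  t3 : ℕ

def thr (B : Bx) (D ra : ℕ) (p : PE) : ℕ :=
  Nat.add (Nat.succ (Nat.div
    (Nat.mul D (Nat.mul (sel p.t1 B.s1 B.s2 B.s3) (sel p.t2 B.s1 B.s2 B.s3)))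
    (sel p.t3 B.t1 B.t2 B.t3))) ra

def mkKs (B : Bx) (D ra : ℕ) (l : List PE) : ℕ → List (ℕ × ℕ) :=
  List.rec (fun _ => []) (fun p _ ih w =>
    Bool.rec ((thr B D ra p, p.m) :: ih (Nat.div w 2)) (ih (Nat.div w 2))
      (Nat.beq (Nat.mod w 2) 0)) l

def mkEnt (B : Bx) (D : ℕ) (ta tb : TM) (q : List PE) (w : ℕ) : Ent :=
  ⟨⟨Nat.mul 65536 (Nat.add ta.v.xp tb.v.yn), Nat.mul 65536 (Nat.add ta.v.xn tb.v.yp),
      Nat.mul 65536 (Nat.add ta.v.yp tb.v.xp), Nat.mul 65536 (Nat.add ta.v.yn tb.v.xn)⟩,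
    ⟨tb.v.xn, tb.v.xp, tb.v.yn, tb.v.yp⟩, tb.rad B.r, tb.v.nrm,
    mkKs B D (Nat.mul 65536 (ta.rad B.r)) q w⟩

def mkEnts (PT : List (List PE)) (B : Bx) (D : ℕ) (l : List PS) : ℕ → List Ent :=
  List.rec (fun _ => []) (fun p _ ih w =>
    Bool.rec (mkEnt B D (hor B.X B.Y B.r2 B.cH p.pa) (hor B.X B.Y B.r2 B.cH p.pb)
        (PT.getD p.a.val []) (Nat.mod w 1024) :: ih (Nat.div w 1024)) (ih (Nat.div w 1024))
      (Nat.beq (Nat.mod w 1024) 0)) l

def mkSlot (PT : List (List PE)) (B : Bx) (t : TE) (w : ℕ) : List Ent :=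
  mkEnts PT B (Nat.mul 65536 (Nat.mul (sel t.t1 B.s1 B.s2 B.s3)
    (Nat.mul (sel t.t2 B.s1 B.s2 B.s3) (sel t.t3 B.s1 B.s2 B.s3)))) t.ps w

def nth (t0 : TE) (l : List TE) : ℕ → TE :=
  List.rec (fun _ => t0) (fun t _ ih n => Bool.rec (ih (Nat.sub n 1)) t (Nat.beq n 0)) l

def mkSl (PT : List (List PE)) (B : Bx) (t : TE) (w : ℕ) : ℕ × List Ent := (t.m, mkSlot PT B t w)

def mkSlots (t0 : TE) (TAB : List TE) (PT : List (List PE)) (B : Bx) (l : List ℕ) :
    List (ℕ × List Ent) :=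
  List.rec [] (fun w _ ih => mkSl PT B (nth t0 TAB (Nat.mod w 32)) (Nat.div w 32) :: ih) l

def big (n T : ℕ) : Bool := Nat.ble n (Nat.mul T T)

def killK (n R : ℕ) (l : List (ℕ × ℕ)) (acc : ℕ) : ℕ :=
  List.rec acc (fun p _ ih => Bool.rec (Nat.lor ih p.2) ih (big n (Nat.add p.1 R))) l

def GI.sq (v : GI) : ℕ := sq2 (ab v.xp v.xn) (ab v.yp v.yn)

def kill (X Y uH ρ : ℕ) (l : List Ent) : ℕ :=
  List.rec 0 (fun e _ ih =>
    killK (GI.fma e.a X Y e.b).sq (Nat.add (Nat.mul e.rb uH) (Nat.mul e.nb ρ)) e.ks ih) l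

def leaf (X Y uH ρ m0 : ℕ) (l : List (ℕ × List Ent)) : ℕ → ℕ :=
  List.rec (fun _ => m0) (fun s _ ih w =>
    Bool.rec
      (Bool.rec (ih (Nat.div w 2)) (Nat.lor (ih (Nat.div w 2)) s.1)
        (Nat.beq (kill X Y uH ρ s.2) 18014398509481983))
      (ih (Nat.div w 2)) (Nat.beq (Nat.mod w 2) 0)) l

/-- radius of the disc around a square of half side `s` -/
def rad (s : ℕ) : ℕ := Nat.succ (Nat.div (Nat.mul s 1449) 1024)

def leafC (base : List Ent) (sl : List (ℕ × List Ent)) (X Y uH ρ w : ℕ) : Bool :=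
  Nat.beq (leaf X Y uH ρ (kill X Y uH ρ base) sl w) 18014398509481983

def leafB (base : List Ent) (sl : List (ℕ × List Ent)) (X Y ρ w : ℕ) : Bool :=
  leafC base sl X Y (Nat.add (nrm X (ab Y 65536)) ρ) ρ w

/-- a square with corner `(x, y)` and half side `s` is a leaf -/
def leafA (base : List Ent) (sl : List (ℕ × List Ent)) (ns s x y w : ℕ) : ℕ :=
  Bool.rec 0 (Nat.shiftRight w ns) (leafB base sl (Nat.add x s) (Nat.add y s) (rad s) w)

def andT (w : ℕ) (f : ℕ → ℕ) : ℕ := Bool.rec (f w) 0 (Nat.beq w 0)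

def spl (f : ℕ → ℕ → ℕ → ℕ) (s x y w : ℕ) : ℕ :=
  andT (andT (andT (f x y w) (f x (Nat.add y s))) (f (Nat.add x s) y))
    (f (Nat.add x s) (Nat.add y s))

/-- the cells of the second variable, side `2 ^ k`; the value `0` means failure -/
def chkU (base : List Ent) (sl : List (ℕ × List Ent)) (ns k : ℕ) : ℕ → ℕ → ℕ → ℕ :=
  Nat.rec (fun _ _ _ => 0) (fun k ih x y st =>
    Bool.rec (leafA base sl ns (Nat.pow 2 k) x y (Nat.div st 2))
      (spl ih (Nat.pow 2 k) x y (Nat.div st 2)) (Nat.beq (Nat.mod st 2) 0)) k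

def TM.lo (t : TM) (r : ℕ) : ℕ := Nat.sub (Nat.div t.v.sq t.v.nrm) (t.rad r)

def TM.hi (t : TM) (r : ℕ) : ℕ := Nat.add t.v.nrm (t.rad r)

def sqL (n : ℕ) : ℕ := Nat.div n (sqU n)

/-- the box misses the region -/
def disc (h1 h2 h3 l1 l2 : ℕ) : Bool :=
  Nat.blt (Nat.mul 8 h1) 4294967296 || Nat.blt 4294967296 l2 || Nat.blt h2 l1 ||
    Nat.blt (Nat.mul 4294967296 (Nat.pow h3 3)) (Nat.mul (Nat.mul l1 l1) (Nat.mul l2 l2))

def runU (base : List Ent) (sl : List (ℕ × List Ent)) (ns st : ℕ) : Bool :=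
  Nat.blt 0 (andT (chkU base sl ns 16 0 65536 st) (chkU base sl ns 16 0 0))

def boxOk (t0 : TE) (TAB : List TE) (PT : List (List PE)) (B : Bx) (st w0 : ℕ) (ws : List ℕ) :
    Bool :=
  Nat.blt 0 B.t1 && Nat.blt 0 B.t2 && Nat.blt 0 B.t3 &&
    runU (mkSlot PT B t0 w0) (mkSlots t0 TAB PT B ws) ws.length st

def boxC (t0 : TE) (TAB : List TE) (PT : List (List PE)) (X Y r r2 cH : ℕ) (a b c : TM) :
    List ℕ → Bool
  | st :: w0 :: ws => boxOk t0 TAB PT ⟨X, Y, r, r2, cH, sqU (a.hi r), sqU (b.hi r), sqU (c.hi r),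
      sqL (a.lo r), sqL (b.lo r), sqL (c.lo r)⟩ st w0 ws
  | _ => disc (a.hi r) (b.hi r) (c.hi r) (a.lo r) (b.lo r)

def boxB (t0 : TE) (TAB : List TE) (PT : List (List PE)) (X Y r r2 cH : ℕ) (d : List ℕ) : Bool :=
  boxC t0 TAB PT X Y r r2 cH (hor X Y r2 cH [(0, 0), (65536, 0)])
    (hor X Y r2 cH [(4294967296, 0), (0, 65536)])
    (hor X Y r2 cH [(4294967296, 0), (0, 65536), (1, 0)]) d

def boxA (t0 : TE) (TAB : List TE) (PT : List (List PE)) (X Y r : ℕ) (d : List ℕ) : Bool :=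
  boxB t0 TAB PT X Y r (Nat.mul r r) (Nat.add (nrm X Y) r) d

/-- the boxes of the first variable, side `2 ^ k` -/
def chkC (t0 : TE) (TAB : List TE) (PT : List (List PE)) :
    ℕ → ℕ → ℕ → List (List ℕ) → Option (List (List ℕ))
  | 0, _, _, _ => none
  | _, _, _, [] => none
  | k + 1, x, y, [] :: l =>
    ((((chkC t0 TAB PT k x y l).bind (chkC t0 TAB PT k x (Nat.add y (Nat.pow 2 k)))).bind
      (chkC t0 TAB PT k (Nat.add x (Nat.pow 2 k)) y)).bind
      (chkC t0 TAB PT k (Nat.add x (Nat.pow 2 k)) (Nat.add y (Nat.pow 2 k))))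
  | k + 1, x, y, (a :: d) :: l =>
    Bool.rec none (some l) (boxA t0 TAB PT (Nat.add x (Nat.pow 2 k)) (Nat.add y (Nat.pow 2 k))
      (rad (Nat.pow 2 k)) (a :: d))

/-! the tables and their checks -/

def padd : List ℤ → List ℤ → List ℤ
  | [], q => q
  | p, [] => p
  | a :: p, b :: q => (a + b) :: padd p q

def pmul : List ℤ → List ℤ → List ℤ
  | [], _ => []
  | a :: p, q => padd (q.map (a * ·)) (0 :: pmul p q)

def psub (p q : List ℤ) : List ℤ := padd p (q.map (-·))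

def pA : Fin 6 → List ℤ := ![[65536], [], [65536], [0, 1], [65536], [-65536, 1]]

def pB : Fin 6 → List ℤ := ![[], [65536], [65536], [65536], [65536, -1], [0, 1]]

def pbr (i j : Fin 6) : List ℤ := psub (pmul (pA i) (pB j)) (pmul (pB i) (pA j))

def pL (i j k a : Fin 6) (f : Fin 6 → List ℤ) : List ℤ :=
  psub (pmul (pmul (pA a) (pbr k j)) (f i)) (pmul (pmul (pB a) (pbr k i)) (f j))

def peq (l : List (ℕ × ℕ)) (q : List ℤ) : Bool :=
  (psub (l.map fun p => (p.1 : ℤ) - p.2) q).all (· == 0)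

/-- which of `1, c, 1 - c, c ^ 2 - c + 1` a bracket is, up to sign -/
def ty : Fin 6 → Fin 6 → ℕ :=
  ![![0, 0, 0, 0, 2, 1], ![0, 0, 0, 1, 0, 2], ![0, 0, 0, 2, 1, 0], ![0, 1, 2, 0, 3, 3],
    ![2, 0, 1, 3, 0, 3], ![1, 2, 0, 3, 3, 0]]

def col (N : ℕ) : Fin 6 → ℕ := ![0, 1, 2, N % 3, N / 3 % 3, N / 9 % 3]

def rb (N : ℕ) (a b e : Fin 6) : Bool := col N a != col N b && col N a != col N e && col N b != col N e

def peOk (a : Fin 6) (q : PE) : Bool :=
  q.t1 == ty a q.b && q.t2 == ty a q.e && q.t3 == ty q.b q.e &&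
    (List.range 54).all fun N => !q.m.testBit N || rb N a q.b q.e

def teOk (t : TE) : Bool :=
  t.t1 == ty t.k t.j && t.t2 == ty t.j t.i && t.t3 == ty t.k t.i &&
    t.k != t.j && t.j != t.i && t.k != t.i &&
    ((List.range 54).all fun N =>
      !t.m.testBit N || (rb N t.i t.j t.k && ori (decide (27 ≤ N)) t.i t.j t.k)) &&
    t.ps.all fun p => peq p.pa (pL t.i t.j t.k p.a pA) && peq p.pb (pL t.i t.j t.k p.a pB)

end Pool.Agent.P.MP_862e21_al
end
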