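import Pool.Agent.K.MP_862e21_al.C0

-- part Pool.Agent.P.MP_862e21_al.OCSnd1
section

namespace Pool.Agent.P.MP_862e21_al

open Complex

theorem ndiv (a b : ℕ) : Nat.div a b = a / b := rfl
theorem nmod (a b : ℕ) : Nat.mod a b = a % b := rfl
theorem npow (a b : ℕ) : Nat.pow a b = a ^ b := rfl
theorem nlor (a b : ℕ) : Nat.lor a b = a ||| b := rfl

theorem ab_cast (p n : ℕ) : ((ab p n : ℕ) : ℝ) = |(p : ℝ) - n| := by
  unfold ab
  simp only [Nat.add_eq, Nat.sub_eq]
  rcases le_total p n with h | h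
  · have : (p : ℝ) ≤ n := by exact_mod_cast h
    rw [Nat.sub_eq_zero_of_le h, zero_add, Nat.cast_sub h, abs_of_nonpos (by linarith)]; ring
  · have : (n : ℝ) ≤ p := by exact_mod_cast h
    rw [Nat.sub_eq_zero_of_le h, add_zero, Nat.cast_sub h, abs_of_nonneg (by linarith)]

theorem nw_pos (n g : ℕ) : 0 < nw n g := Nat.succ_pos _

theorem nw_ge (n : ℕ) {g : ℕ} (hg : 0 < g) : n ≤ nw n g * nw n g := by
  unfold nw
  simp only [Nat.add_eq, ndiv, Nat.succ_eq_add_one]
  have h1 : n < g * (n / g + 1) := Nat.lt_mul_div_succ n hg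
  generalize n / g = t at h1 ⊢
  have h2 : g + t + 1 ≤ 2 * ((g + t) / 2 + 1) := by omega
  generalize (g + t) / 2 + 1 = s at h2 ⊢
  have h3 : (g + t + 1) * (g + t + 1) ≤ (2 * s) * (2 * s) := Nat.mul_le_mul h2 h2
  have h4 : 4 * (g * (t + 1)) ≤ (g + t + 1) * (g + t + 1) := by
    zify
    nlinarith [sq_nonneg ((g : ℤ) - (t + 1))]
  nlinarith

theorem sqU_ge (n : ℕ) : n ≤ sqU n * sqU n := nw_ge n (nw_pos _ _)

theorem sqL_le (n : ℕ) : sqL n * sqL n ≤ n := by
  unfold sqL
  rw [ndiv]
  have h1 := sqU_ge n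
  have h0 : 0 < sqU n := nw_pos _ _
  generalize sqU n = s at h1 h0
  have h2 : n / s ≤ s := Nat.div_le_of_le_mul h1
  calc n / s * (n / s) ≤ n / s * s := Nat.mul_le_mul_left _ h2
    _ ≤ n := Nat.div_mul_le_self _ _

theorem nrm_ge (a b : ℕ) : a * a + b * b ≤ nrm a b * nrm a b := by
  unfold nrm
  cases h : Nat.beq b 0 with
  | true => simp [Nat.eq_of_beq_eq_true h]
  | false => exact nw_ge _ (nw_pos _ _)

theorem nrm_real {x y : ℝ} {a b : ℕ} (ha : (a : ℝ) = |x|) (hb : (b : ℝ) = |y|) :
    ‖(⟨x, y⟩ : ℂ)‖ ≤ nrm a b := by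
  have h : ((a * a + b * b : ℕ) : ℝ) ≤ ((nrm a b * nrm a b : ℕ) : ℝ) := by exact_mod_cast nrm_ge a b
  push_cast at h
  rw [ha, hb, abs_mul_abs_self, abs_mul_abs_self] at h
  refine abs_le_of_sq_le_sq' ?_ (Nat.cast_nonneg _) |>.2
  rw [Complex.sq_norm, normSq_mk]
  nlinarith

noncomputable def GI.val (v : GI) : ℂ := ⟨(v.xp : ℝ) - v.xn, (v.yp : ℝ) - v.yn⟩

theorem GI.nrm_ge (v : GI) : ‖v.val‖ ≤ v.nrm := nrm_real (ab_cast _ _) (ab_cast _ _)

theorem GI.sq_cast (v : GI) : (v.sq : ℝ) = ‖v.val‖ ^ 2 := by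
  unfold GI.sq sq2 GI.val
  simp only [Nat.add_eq, Nat.mul_eq]
  push_cast
  rw [ab_cast, ab_cast, abs_mul_abs_self, abs_mul_abs_self, Complex.sq_norm, normSq_mk]

theorem GI.fma_val (w v : GI) (X Y : ℕ) :
    (GI.fma w X Y v).val = w.val + (⟨X, Y⟩ : ℂ) * v.val := by
  apply Complex.ext <;> simp [GI.fma, GI.val] <;> ring

noncomputable def pl (C : ℂ) : List (ℕ × ℕ) → ℂ
  | [] => 0
  | p :: l => ((p.1 : ℂ) - p.2) + C * pl C l

theorem hor_spec {X Y r r2 cH : ℕ} {C : ℂ} (hr : ‖C - ⟨X, Y⟩‖ ≤ r) (h2 : r2 = r * r)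
    (hc : ‖C‖ ≤ cH) (l : List (ℕ × ℕ)) :
    ‖pl C l - (hor X Y r2 cH l).v.val - (hor X Y r2 cH l).d.val * (C - ⟨X, Y⟩)‖ ≤
      (hor X Y r2 cH l).e := by
  induction l with
  | nil =>
    have : (⟨0, 0, 0, 0⟩ : GI).val = 0 := by apply Complex.ext <;> simp [GI.val]
    simp [pl, hor, this]
  | cons p l ih =>
    have e : hor X Y r2 cH (p :: l) = horS X Y r2 cH p (hor X Y r2 cH l) := rfl
    rw [e]
    generalize hor X Y r2 cH l = t at ih
    have e1 : (⟨p.1, p.2, 0, 0⟩ : GI).val = (p.1 : ℂ) - p.2 := by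
      apply Complex.ext <;> simp [GI.val]
    simp only [horS, GI.fma_val, pl, e1, Nat.add_eq, Nat.mul_eq]
    generalize (⟨X, Y⟩ : ℂ) = C0 at hr ih ⊢
    have e2 : (p.1 : ℂ) - p.2 + C * pl C l - ((p.1 : ℂ) - p.2 + C0 * t.v.val) -
        (t.v.val + C0 * t.d.val) * (C - C0) =
        C * (pl C l - t.v.val - t.d.val * (C - C0)) + t.d.val * ((C - C0) * (C - C0)) := by ring
    rw [e2, h2]
    push_cast
    refine (norm_add_le _ _).trans (add_le_add ?_ ?_)
    · rw [norm_mul]
      exact mul_le_mul hc ih (norm_nonneg _) (Nat.cast_nonneg _)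
    · rw [norm_mul, norm_mul]
      exact mul_le_mul t.d.nrm_ge (mul_le_mul hr hr (norm_nonneg _) (Nat.cast_nonneg _))
        (by positivity) (Nat.cast_nonneg _)

theorem hor_rad {X Y r r2 cH : ℕ} {C : ℂ} (hr : ‖C - ⟨X, Y⟩‖ ≤ r) (h2 : r2 = r * r)
    (hc : ‖C‖ ≤ cH) (l : List (ℕ × ℕ)) :
    ‖pl C l - (hor X Y r2 cH l).v.val‖ ≤ (hor X Y r2 cH l).rad r := by
  have h := hor_spec hr h2 hc l
  generalize hor X Y r2 cH l = t at h
  have e : pl C l - t.v.val = t.d.val * (C - ⟨X, Y⟩) +
      (pl C l - t.v.val - t.d.val * (C - ⟨X, Y⟩)) := by ring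
  rw [e]
  simp only [TM.rad, Nat.add_eq, Nat.mul_eq]
  push_cast
  refine (norm_add_le _ _).trans (add_le_add ?_ h)
  rw [norm_mul]
  exact mul_le_mul t.d.nrm_ge hr (norm_nonneg _) (Nat.cast_nonneg _)

theorem TM.hi_spec {t : TM} {r : ℕ} {f : ℂ} (h : ‖f - t.v.val‖ ≤ t.rad r) : ‖f‖ ≤ t.hi r := by
  simp only [TM.hi, Nat.add_eq]
  push_cast
  have := t.v.nrm_ge
  have := norm_sub_norm_le f t.v.val
  linarith

theorem TM.lo_spec {t : TM} {r : ℕ} {f : ℂ} (h : ‖f - t.v.val‖ ≤ t.rad r) : (t.lo r : ℝ) ≤ ‖f‖ := by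
  simp only [TM.lo, Nat.sub_eq, ndiv]
  have h1 : ((t.v.sq / t.v.nrm : ℕ) : ℝ) ≤ ‖t.v.val‖ := by
    refine Nat.cast_div_le.trans ?_
    rw [GI.sq_cast]
    refine div_le_of_le_mul₀ (Nat.cast_nonneg _) (norm_nonneg _) ?_
    rw [sq]
    exact mul_le_mul_of_nonneg_left t.v.nrm_ge (norm_nonneg _)
  generalize t.v.sq / t.v.nrm = a at h1
  rcases le_total a (t.rad r) with h2 | h2
  · rw [Nat.sub_eq_zero_of_le h2]; simp
  · rw [Nat.cast_sub h2]
    have := norm_sub_norm_le t.v.val f
    rw [norm_sub_rev] at this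
    linarith

theorem rad_spec {z : ℂ} {s : ℕ} (h1 : |z.re| ≤ s) (h2 : |z.im| ≤ s) : ‖z‖ ≤ rad s := by
  have h3 : s * 1449 < 1024 * rad s := by
    unfold rad
    simp only [Nat.mul_eq, ndiv, Nat.succ_eq_add_one]
    omega
  have h4 : (s : ℝ) * 1449 < 1024 * rad s := by exact_mod_cast h3
  have s0 : (0 : ℝ) ≤ s := Nat.cast_nonneg _
  refine abs_le_of_sq_le_sq' ?_ (Nat.cast_nonneg _) |>.2
  rw [Complex.sq_norm, normSq_apply]
  have a1 := abs_le.1 h1
  have a2 := abs_le.1 h2
  nlinarith

/-- the bound that an entry promises for the colouring `N` -/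
def EntOK (U : ℂ) (N : ℕ) (e : Ent) : Prop :=
  ∀ X Y uH ρ : ℕ, ‖U‖ ≤ uH → ‖U - ⟨X, (Y : ℝ) - 65536⟩‖ ≤ ρ → ∀ p ∈ e.ks, p.2.testBit N = true →
    ‖(GI.fma e.a X Y e.b).val‖ ≤ p.1 + (e.rb * uH + e.nb * ρ)

theorem killK_spec {n R N acc : ℕ} (l : List (ℕ × ℕ))
    (h : ∀ p ∈ l, p.2.testBit N = true → n ≤ (p.1 + R) * (p.1 + R))
    (ha : acc.testBit N = false) : (killK n R l acc).testBit N = false := by
  induction l with
  | nil => exact ha
  | cons p l ih =>
    have e : killK n R (p :: l) acc =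
      Bool.rec (Nat.lor (killK n R l acc) p.2) (killK n R l acc) (big n (Nat.add p.1 R)) := rfl
    have ih' := ih fun q hq => h q (List.mem_cons_of_mem _ hq)
    rw [e]
    cases hb : big n (Nat.add p.1 R) with
    | true => exact ih'
    | false =>
      simp only [nlor, Nat.testBit_or, ih', Bool.false_or]
      by_contra hc
      have := h p List.mem_cons_self (by simpa using hc)
      unfold big at hb
      rw [Nat.ble_eq_true_of_le (by simpa using this)] at hb
      exact absurd hb (by simp)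

theorem kill_spec {U : ℂ} {N X Y uH ρ : ℕ} (h1 : ‖U‖ ≤ uH) (h2 : ‖U - ⟨X, (Y : ℝ) - 65536⟩‖ ≤ ρ)
    (l : List Ent) (h : ∀ e ∈ l, EntOK U N e) : (kill X Y uH ρ l).testBit N = false := by
  induction l with
  | nil => exact Nat.zero_testBit N
  | cons e l ih =>
    refine killK_spec (acc := kill X Y uH ρ l) e.ks ?_ (ih fun q hq => h q (List.mem_cons_of_mem _ hq))
    intro p hp hN
    have h3 := h e List.mem_cons_self X Y uH ρ h1 h2 p hp hN
    have h4 : (((GI.fma e.a X Y e.b).sq : ℕ) : ℝ) ≤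
        ((p.1 + (e.rb * uH + e.nb * ρ)) * (p.1 + (e.rb * uH + e.nb * ρ)) : ℕ) := by
      rw [GI.sq_cast, sq]
      push_cast
      exact mul_le_mul h3 h3 (norm_nonneg _) (by positivity)
    exact_mod_cast h4

theorem full_bit : ∀ N < 54, (18014398509481983 : ℕ).testBit N = true := by decide

/-- the promise of a list of slots -/
def SlOK (U : ℂ) (N0 : ℕ) (l : List (ℕ × List Ent)) : Prop :=
  ∀ s ∈ l, s.1.testBit N0 = true → ∃ N < 54, ∀ e ∈ s.2, EntOK U N e

theorem leaf_spec {U : ℂ} {N0 X Y uH ρ m0 : ℕ} (h1 : ‖U‖ ≤ uH)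
    (h2 : ‖U - ⟨X, (Y : ℝ) - 65536⟩‖ ≤ ρ) (hm : m0.testBit N0 = false)
    (l : List (ℕ × List Ent)) (h : SlOK U N0 l) (w : ℕ) :
    (leaf X Y uH ρ m0 l w).testBit N0 = false := by
  induction l generalizing w with
  | nil => exact hm
  | cons s l ih =>
    have e : leaf X Y uH ρ m0 (s :: l) w = Bool.rec
      (Bool.rec (leaf X Y uH ρ m0 l (Nat.div w 2)) (Nat.lor (leaf X Y uH ρ m0 l (Nat.div w 2)) s.1)
        (Nat.beq (kill X Y uH ρ s.2) 18014398509481983))
      (leaf X Y uH ρ m0 l (Nat.div w 2)) (Nat.beq (Nat.mod w 2) 0) := rfl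
    have ih' := ih (fun q hq => h q (List.mem_cons_of_mem _ hq)) (Nat.div w 2)
    rw [e]
    cases Nat.beq (Nat.mod w 2) 0 with
    | true => exact ih'
    | false =>
      cases hb : Nat.beq (kill X Y uH ρ s.2) 18014398509481983 with
      | false => exact ih'
      | true =>
        simp only [nlor, Nat.testBit_or, ih', Bool.false_or]
        by_contra hc
        obtain ⟨N, hN, h3⟩ := h s List.mem_cons_self (by simpa using hc)
        have h4 := kill_spec h1 h2 s.2 h3
        rw [Nat.eq_of_beq_eq_true hb, full_bit N hN] at h4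
        exact absurd h4 (by simp)

/-- `z` lies in the square with corner `(x, y)` and side `s` -/
def InSq (z : ℂ) (s x y : ℕ) : Prop := (x : ℝ) ≤ z.re ∧ z.re ≤ x + s ∧ (y : ℝ) ≤ z.im ∧ z.im ≤ y + s

theorem InSq.split {z : ℂ} {k x y : ℕ} (h : InSq z (2 ^ (k + 1)) x y) :
    InSq z (2 ^ k) x y ∨ InSq z (2 ^ k) x (y + 2 ^ k) ∨ InSq z (2 ^ k) (x + 2 ^ k) y ∨
      InSq z (2 ^ k) (x + 2 ^ k) (y + 2 ^ k) := by
  obtain ⟨h1, h2, h3, h4⟩ := h
  unfold InSq
  rw [pow_succ] at h2 h4
  generalize 2 ^ k = s at h2 h4 ⊢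
  push_cast at h2 h4 ⊢
  rcases le_total z.re (x + s) with a | a <;> rcases le_total z.im (y + s) with b | b
  · exact Or.inl ⟨h1, a, h3, b⟩
  · exact Or.inr (Or.inl ⟨h1, a, b, by linarith⟩)
  · exact Or.inr (Or.inr (Or.inl ⟨a, by linarith, h3, b⟩))
  · exact Or.inr (Or.inr (Or.inr ⟨a, by linarith, b, by linarith⟩))

theorem InSq.ball {z : ℂ} {k x y : ℕ} (h : InSq z (2 ^ (k + 1)) x y) :
    ‖z - ⟨((x + 2 ^ k : ℕ) : ℝ), ((y + 2 ^ k : ℕ) : ℝ)⟩‖ ≤ rad (2 ^ k) := by
  obtain ⟨h1, h2, h3, h4⟩ := h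
  rw [pow_succ] at h2 h4
  generalize 2 ^ k = s at h2 h4 ⊢
  push_cast at h2 h4 ⊢
  apply rad_spec <;> simp only [sub_re, sub_im] <;> rw [abs_le] <;> constructor <;> linarith

theorem andT_left (f : ℕ → ℕ) : andT 0 f = 0 := rfl

theorem andT_right {f : ℕ → ℕ} (h : ∀ w, f w = 0) (w : ℕ) : andT w f = 0 := by
  unfold andT
  cases Nat.beq w 0
  · exact h w
  · rfl

theorem chkU_spec {U : ℂ} {N0 : ℕ} (hN : N0 < 54) {base : List Ent} {sl : List (ℕ × List Ent)}
    (hb : ∀ e ∈ base, EntOK U N0 e) (hs : SlOK U N0 sl) (ns k : ℕ) :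
    ∀ x y st : ℕ, InSq (U + ⟨0, 65536⟩) (2 ^ k) x y → chkU base sl ns k x y st = 0 := by
  induction k with
  | zero => intro x y st _; rfl
  | succ k ih =>
    intro x y st h
    have e : chkU base sl ns (k + 1) x y st =
      Bool.rec (leafA base sl ns (Nat.pow 2 k) x y (Nat.div st 2))
        (spl (chkU base sl ns k) (Nat.pow 2 k) x y (Nat.div st 2)) (Nat.beq (Nat.mod st 2) 0) := rfl
    rw [e, npow]
    cases Nat.beq (Nat.mod st 2) 0 with
    | true =>
      simp only [spl, Nat.add_eq]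
      rcases h.split with h | h | h | h
      · rw [ih _ _ _ h]; rfl
      · rw [andT_right (ih _ _ · h)]; rfl
      · rw [andT_right (ih _ _ · h)]; rfl
      · exact andT_right (ih _ _ · h) _
    | false =>
      have h1 := h.ball
      simp only [leafA, Nat.add_eq]
      generalize x + 2 ^ k = X at h1
      generalize y + 2 ^ k = Y at h1
      generalize rad (2 ^ k) = ρ at h1
      have h2 : ‖U - ⟨X, (Y : ℝ) - 65536⟩‖ ≤ ρ := by
        convert h1 using 2
        apply Complex.ext <;> simp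
        ring
      have h3 : ‖U‖ ≤ ((Nat.add (nrm X (ab Y 65536)) ρ : ℕ) : ℝ) := by
        have h4 : ‖(⟨X, (Y : ℝ) - 65536⟩ : ℂ)‖ ≤ nrm X (ab Y 65536) :=
          nrm_real (by simp) (by rw [ab_cast]; simp)
        have := norm_sub_norm_le U ⟨X, (Y : ℝ) - 65536⟩
        simp only [Nat.add_eq]
        push_cast
        linarith
      have h5 := leaf_spec h3 h2 (kill_spec h3 h2 base hb) sl hs (Nat.div st 2)
      cases hl : leafB base sl X Y ρ (Nat.div st 2) with
      | false => rfl
      | true =>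
        unfold leafB leafC at hl
        rw [Nat.eq_of_beq_eq_true hl, full_bit N0 hN] at h5
        exact absurd h5 (by simp)

theorem runU_spec {u : ℂ} {N0 : ℕ} (hN : N0 < 54) {base : List Ent} {sl : List (ℕ × List Ent)}
    (hb : ∀ e ∈ base, EntOK (65536 * u) N0 e) (hs : SlOK (65536 * u) N0 sl) (h1 : ‖u‖ ≤ 1)
    (h2 : ‖u - 1‖ ≤ 1) (ns st : ℕ) : runU base sl ns st = false := by
  have a1 := abs_le.1 ((abs_re_le_norm u).trans h1)
  have a2 := abs_le.1 ((abs_im_le_norm u).trans h1)
  have a3 := abs_le.1 ((abs_re_le_norm _).trans h2)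
  simp only [sub_re, one_re] at a3
  unfold runU
  rcases le_total 0 u.im with h | h
  · rw [chkU_spec hN hb hs ns 16 0 65536 st]
    · rfl
    · refine ⟨?_, ?_, ?_, ?_⟩ <;> simp <;> linarith
  · rw [andT_right fun w => chkU_spec hN hb hs ns 16 0 0 w ?_]
    · rfl
    · refine ⟨?_, ?_, ?_, ?_⟩ <;> simp <;> linarith

end Pool.Agent.P.MP_862e21_al
end

-- part Pool.Agent.P.MP_862e21_al.OCSnd2
section

namespace Pool.Agent.P.MP_862e21_al

open Complex

noncomputable def plZ (C : ℂ) : List ℤ → ℂ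
  | [] => 0
  | p :: l => (p : ℂ) + C * plZ C l

theorem plZ_padd (C : ℂ) (p q : List ℤ) : plZ C (padd p q) = plZ C p + plZ C q := by
  induction p generalizing q with
  | nil => simp [padd, plZ]
  | cons a p ih =>
    cases q with
    | nil => simp [padd, plZ]
    | cons b q => simp only [padd, plZ, ih]; push_cast; ring

theorem plZ_smul (C : ℂ) (a : ℤ) (q : List ℤ) : plZ C (q.map (a * ·)) = a * plZ C q := by
  induction q with
  | nil => simp [plZ]
  | cons b q ih => simp only [List.map_cons, plZ, ih]; push_cast; ring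

theorem plZ_neg (C : ℂ) (q : List ℤ) : plZ C (q.map (-·)) = -plZ C q := by
  induction q with
  | nil => simp [plZ]
  | cons b q ih => simp only [List.map_cons, plZ, ih]; push_cast; ring

theorem plZ_pmul (C : ℂ) (p q : List ℤ) : plZ C (pmul p q) = plZ C p * plZ C q := by
  induction p with
  | nil => simp [pmul, plZ]
  | cons a p ih => simp only [pmul, plZ_padd, plZ_smul, plZ, ih]; push_cast; ring

theorem plZ_psub (C : ℂ) (p q : List ℤ) : plZ C (psub p q) = plZ C p - plZ C q := by
  simp only [psub, plZ_padd, plZ_neg]; ring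

theorem plZ_zero (C : ℂ) (q : List ℤ) (h : q.all (· == 0) = true) : plZ C q = 0 := by
  induction q with
  | nil => rfl
  | cons b q ih =>
    simp only [List.all_cons, Bool.and_eq_true, beq_iff_eq] at h
    simp [plZ, h.1, ih h.2]

theorem peq_spec (C : ℂ) {l : List (ℕ × ℕ)} {q : List ℤ} (h : peq l q = true) :
    pl C l = plZ C q := by
  have h1 := plZ_zero C _ h
  rw [plZ_psub, sub_eq_zero] at h1
  rw [← h1]
  clear h h1
  induction l with
  | nil => rfl
  | cons p l ih => simp only [List.map_cons, pl, plZ, ih]; push_cast; ring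

theorem plZ_pA (c : ℂ) (i : Fin 6) : plZ (65536 * c) (pA i) = 65536 * (PW c i).1 := by
  fin_cases i <;> simp [pA, PW, plZ] <;> ring

theorem plZ_pB (c : ℂ) (i : Fin 6) : plZ (65536 * c) (pB i) = 65536 * (PW c i).2 := by
  fin_cases i <;> simp [pB, PW, plZ] <;> ring

theorem plZ_pbr (c : ℂ) (i j : Fin 6) : plZ (65536 * c) (pbr i j) = 65536 ^ 2 * br c i j := by
  simp only [pbr, plZ_psub, plZ_pmul, plZ_pA, plZ_pB, br]; ring

/-- the linear form of the vertex `a` in the family of the triple `i j k` -/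
noncomputable def LL (c u : ℂ) (i j k a : Fin 6) : ℂ :=
  (PW c a).1 * br c k j * ((PW c i).1 - u * (PW c i).2) -
    (PW c a).2 * br c k i * ((PW c j).1 - u * (PW c j).2)

theorem LL_eq (c u : ℂ) (i j k a : Fin 6) : 65536 ^ 5 * LL c u i j k a =
    65536 * plZ (65536 * c) (pL i j k a pA) - plZ (65536 * c) (pL i j k a pB) * (65536 * u) := by
  simp only [pL, plZ_psub, plZ_pmul, plZ_pA, plZ_pB, plZ_pbr, LL]; ring

def Ineq (c u : ℂ) (i j k a b e : Fin 6) : Prop :=
  ‖br c b e‖ * ‖LL c u i j k a‖ ^ 2 ≤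
    ‖br c k j‖ * ‖br c j i‖ * ‖br c k i‖ * ‖br c a b‖ * ‖br c a e‖

def Surv (c u : ℂ) (i j k : Fin 6) (N : ℕ) : Prop :=
  ∀ a b e, rb N a b e = true → Ineq c u i j k a b e

noncomputable def tyv (c : ℂ) (t : ℕ) : ℂ :=
  if t = 0 then 1 else if t = 1 then c else if t = 2 then 1 - c else c ^ 2 - c + 1

theorem br_ty (c : ℂ) {i j : Fin 6} (h : i ≠ j) : br c i j = tyv c (ty i j) ∨
    br c i j = -tyv c (ty i j) := by
  fin_cases i <;> fin_cases j <;> first
    | exact absurd rfl h
    | (left; simp [br, PW, tyv, ty]; done)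
    | (right; simp [br, PW, tyv, ty]; done)
    | (left; simp [br, PW, tyv, ty]; ring1)
    | (right; simp [br, PW, tyv, ty]; ring1)

theorem norm_br (c : ℂ) {i j : Fin 6} (h : i ≠ j) : ‖br c i j‖ = ‖tyv c (ty i j)‖ := by
  rcases br_ty c h with e | e <;> rw [e]
  exact norm_neg _

theorem rb_ne {N : ℕ} {a b e : Fin 6} (h : rb N a b e = true) : a ≠ b ∧ a ≠ e ∧ b ≠ e := by
  simp only [rb, Bool.and_eq_true, bne_iff_ne] at h
  exact ⟨fun e => h.1.1 (by rw [e]), fun e => h.1.2 (by rw [e]), fun e => h.2 (by rw [e])⟩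

structure BxOK (c : ℂ) (B : Bx) : Prop where
  hr : ‖65536 * c - ⟨B.X, B.Y⟩‖ ≤ B.r
  h2 : B.r2 = B.r * B.r
  hc : ‖65536 * c‖ ≤ B.cH
  hi : ∀ t, 65536 ^ 2 * ‖tyv c t‖ ≤ (sel t B.s1 B.s2 B.s3 : ℝ) ^ 2
  lo : ∀ t, (sel t B.t1 B.t2 B.t3 : ℝ) ^ 2 ≤ 65536 ^ 2 * ‖tyv c t‖
  pos : ∀ t, 0 < sel t B.t1 B.t2 B.t3

theorem thr_core {x1 x2 x3 x4 x5 y L : ℝ} {s1 s2 s3 s4 s5 t : ℕ} (p2 : 0 ≤ x2)
    (p3 : 0 ≤ x3) (p4 : 0 ≤ x4) (p5 : 0 ≤ x5) (pt : 0 < t)
    (h1 : 65536 ^ 2 * x1 ≤ (s1 : ℝ) ^ 2) (h2 : 65536 ^ 2 * x2 ≤ (s2 : ℝ) ^ 2)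
    (h3 : 65536 ^ 2 * x3 ≤ (s3 : ℝ) ^ 2) (h4 : 65536 ^ 2 * x4 ≤ (s4 : ℝ) ^ 2)
    (h5 : 65536 ^ 2 * x5 ≤ (s5 : ℝ) ^ 2) (h6 : (t : ℝ) ^ 2 ≤ 65536 ^ 2 * y)
    (h : y * L ^ 2 ≤ x1 * x2 * x3 * x4 * x5) :
    65536 ^ 5 * L ≤ ((65536 * (s1 * (s2 * s3)) * (s4 * s5) / t + 1 : ℕ) : ℝ) := by
  have a : (65536 ^ 2 * x1) * (65536 ^ 2 * x2) * (65536 ^ 2 * x3) * (65536 ^ 2 * x4) *
      (65536 ^ 2 * x5) ≤ (s1 : ℝ) ^ 2 * (s2 : ℝ) ^ 2 * (s3 : ℝ) ^ 2 * (s4 : ℝ) ^ 2 * (s5 : ℝ) ^ 2 := by
    gcongr
  have b : ((t : ℝ) * (65536 ^ 5 * L)) ^ 2 ≤ (65536 * (s1 * (s2 * s3)) * (s4 * s5) : ℝ) ^ 2 := by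
    calc ((t : ℝ) * (65536 ^ 5 * L)) ^ 2 = (t : ℝ) ^ 2 * (65536 ^ 10 * L ^ 2) := by ring
      _ ≤ (65536 ^ 2 * y) * (65536 ^ 10 * L ^ 2) := by gcongr
      _ = 65536 ^ 12 * (y * L ^ 2) := by ring
      _ ≤ 65536 ^ 12 * (x1 * x2 * x3 * x4 * x5) := by gcongr
      _ = 65536 ^ 2 * ((65536 ^ 2 * x1) * (65536 ^ 2 * x2) * (65536 ^ 2 * x3) * (65536 ^ 2 * x4) *
          (65536 ^ 2 * x5)) := by ring
      _ ≤ 65536 ^ 2 *
          ((s1 : ℝ) ^ 2 * (s2 : ℝ) ^ 2 * (s3 : ℝ) ^ 2 * (s4 : ℝ) ^ 2 * (s5 : ℝ) ^ 2) := by gcongr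
      _ = _ := by ring
  have c := (abs_le_of_sq_le_sq' b (by positivity)).2
  have d : 65536 * (s1 * (s2 * s3)) * (s4 * s5) <
      t * (65536 * (s1 * (s2 * s3)) * (s4 * s5) / t + 1) := Nat.lt_mul_div_succ _ pt
  generalize 65536 * (s1 * (s2 * s3)) * (s4 * s5) / t + 1 = K at d ⊢
  have e : (65536 * (s1 * (s2 * s3)) * (s4 * s5) : ℝ) < t * K := by exact_mod_cast d
  have t0 : (0 : ℝ) < t := by exact_mod_cast pt
  exact le_of_mul_le_mul_left (c.trans e.le) t0

theorem mem_mkKs {B : Bx} {D ra : ℕ} {l : List PE} {w : ℕ} {p : ℕ × ℕ}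
    (h : p ∈ mkKs B D ra l w) : ∃ q ∈ l, p = (thr B D ra q, q.m) := by
  induction l generalizing w with
  | nil => exact absurd h List.not_mem_nil
  | cons q l ih =>
    have e : mkKs B D ra (q :: l) w =
      Bool.rec ((thr B D ra q, q.m) :: mkKs B D ra l (Nat.div w 2)) (mkKs B D ra l (Nat.div w 2))
        (Nat.beq (Nat.mod w 2) 0) := rfl
    rw [e] at h
    cases hb : Nat.beq (Nat.mod w 2) 0 <;> rw [hb] at h
    · rcases List.mem_cons.1 h with h | h
      · exact ⟨q, List.mem_cons_self, h⟩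
      · obtain ⟨q', h1, h2⟩ := ih h
        exact ⟨q', List.mem_cons_of_mem _ h1, h2⟩
    · obtain ⟨q', h1, h2⟩ := ih h
      exact ⟨q', List.mem_cons_of_mem _ h1, h2⟩

theorem mem_mkEnts {PT : List (List PE)} {B : Bx} {D : ℕ} {l : List PS} {w : ℕ} {e : Ent}
    (h : e ∈ mkEnts PT B D l w) : ∃ p ∈ l, ∃ w', e = mkEnt B D (hor B.X B.Y B.r2 B.cH p.pa)
      (hor B.X B.Y B.r2 B.cH p.pb) (PT.getD p.a.val []) w' := by
  induction l generalizing w with
  | nil => exact absurd h List.not_mem_nil
  | cons q l ih =>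
    have e' : mkEnts PT B D (q :: l) w =
      Bool.rec (mkEnt B D (hor B.X B.Y B.r2 B.cH q.pa) (hor B.X B.Y B.r2 B.cH q.pb)
        (PT.getD q.a.val []) (Nat.mod w 1024) :: mkEnts PT B D l (Nat.div w 1024))
        (mkEnts PT B D l (Nat.div w 1024)) (Nat.beq (Nat.mod w 1024) 0) := rfl
    rw [e'] at h
    cases hb : Nat.beq (Nat.mod w 1024) 0 <;> rw [hb] at h
    · rcases List.mem_cons.1 h with h | h
      · exact ⟨q, List.mem_cons_self, _, h⟩
      · obtain ⟨q', h1, h2⟩ := ih h
        exact ⟨q', List.mem_cons_of_mem _ h1, h2⟩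
    · obtain ⟨q', h1, h2⟩ := ih h
      exact ⟨q', List.mem_cons_of_mem _ h1, h2⟩

theorem mkEnt_bound {B : Bx} {D : ℕ} {ta tb : TM} {q : List PE} {w : ℕ} {α β U : ℂ}
    (ha : ‖α - ta.v.val‖ ≤ ta.rad B.r) (hb : ‖β - tb.v.val‖ ≤ tb.rad B.r) {X Y uH ρ : ℕ}
    (h1 : ‖U‖ ≤ uH) (h2 : ‖U - ⟨X, (Y : ℝ) - 65536⟩‖ ≤ ρ) :
    ‖(GI.fma (mkEnt B D ta tb q w).a X Y (mkEnt B D ta tb q w).b).val‖ ≤
      ‖65536 * α - β * U‖ + 65536 * ta.rad B.r + (tb.rad B.r * uH + tb.v.nrm * ρ) := by
  have e : (GI.fma (mkEnt B D ta tb q w).a X Y (mkEnt B D ta tb q w).b).val =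
      65536 * ta.v.val - tb.v.val * ⟨X, (Y : ℝ) - 65536⟩ := by
    apply Complex.ext <;> simp [GI.fma, GI.val, mkEnt] <;> ring
  rw [e]
  generalize (⟨X, (Y : ℝ) - 65536⟩ : ℂ) = U0 at h2 ⊢
  have e2 : 65536 * ta.v.val - tb.v.val * U0 = (65536 * α - β * U) - 65536 * (α - ta.v.val) +
      ((β - tb.v.val) * U + tb.v.val * (U - U0)) := by ring
  rw [e2]
  refine (norm_add_le _ _).trans (add_le_add ((norm_sub_le _ _).trans (add_le_add le_rfl ?_))
    ((norm_add_le _ _).trans (add_le_add ?_ ?_)))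
  · rw [norm_mul]
    have : ‖(65536 : ℂ)‖ = 65536 := by simp
    rw [this]
    gcongr
  · rw [norm_mul]
    exact mul_le_mul hb h1 (norm_nonneg _) (Nat.cast_nonneg _)
  · rw [norm_mul]
    exact mul_le_mul tb.v.nrm_ge h2 (norm_nonneg _) (Nat.cast_nonneg _)

theorem mkSlot_ok {PT : List (List PE)}
    (hPT : ∀ a : Fin 6, (PT.getD a.val []).all (peOk a) = true) {c u : ℂ} {B : Bx} (hB : BxOK c B)
    {t : TE} (ht : teOk t = true) {N : ℕ} (hN : N < 54) (hS : Surv c u t.i t.j t.k N) (w : ℕ) :
    ∀ e ∈ mkSlot PT B t w, EntOK (65536 * u) N e := by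
  intro e he X Y uH ρ h1 h2 p hp hpN
  obtain ⟨ps, hps, w', rfl⟩ := mem_mkEnts he
  simp only [teOk, Bool.and_eq_true, beq_iff_eq, bne_iff_ne, List.all_eq_true] at ht
  obtain ⟨⟨⟨⟨⟨⟨⟨t1, t2⟩, t3⟩, n1⟩, n2⟩, n3⟩, -⟩, hp2⟩ := ht
  obtain ⟨ea, eb⟩ := hp2 ps hps
  obtain ⟨q, hq, rfl⟩ := mem_mkKs hp
  have hq' := List.all_eq_true.1 (hPT ps.a) q hq
  simp only [peOk, Bool.and_eq_true, beq_iff_eq, List.all_eq_true, List.mem_range,
    Bool.or_eq_true, Bool.not_eq_true'] at hq'
  obtain ⟨⟨⟨q1, q2⟩, q3⟩, q4⟩ := hq'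
  have hrb : rb N ps.a q.b q.e = true := (q4 N hN).resolve_left (by simpa using hpN)
  obtain ⟨m1, m2, m3⟩ := rb_ne hrb
  have hI := hS _ _ _ hrb
  unfold Ineq at hI
  rw [norm_br c n1, norm_br c n2, norm_br c n3, norm_br c m1, norm_br c m2, norm_br c m3,
    ← t1, ← t2, ← t3, ← q1, ← q2, ← q3] at hI
  have h3 := thr_core (norm_nonneg _) (norm_nonneg _) (norm_nonneg _) (norm_nonneg _)
    (hB.pos q.t3) (hB.hi t.t1) (hB.hi t.t2) (hB.hi t.t3)
    (hB.hi q.t1) (hB.hi q.t2) (hB.lo q.t3) hI
  have h4 : ‖65536 * pl (65536 * c) ps.pa - pl (65536 * c) ps.pb * (65536 * u)‖ =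
      65536 ^ 5 * ‖LL c u t.i t.j t.k ps.a‖ := by
    rw [peq_spec _ ea, peq_spec _ eb, ← LL_eq, norm_mul]
    simp
  refine (mkEnt_bound (hor_rad hB.hr hB.h2 hB.hc ps.pa) (hor_rad hB.hr hB.h2 hB.hc ps.pb)
    h1 h2).trans ?_
  rw [h4]
  refine add_le_add ?_ (le_of_eq rfl)
  simp only [thr, Nat.add_eq, Nat.mul_eq, ndiv, Nat.succ_eq_add_one]
  rw [Nat.cast_add, Nat.cast_mul 65536]
  exact add_le_add h3 (le_of_eq (by norm_num))

theorem nth_ok {P : TE → Prop} {t0 : TE} (h0 : P t0) (l : List TE) (h : ∀ t ∈ l, P t) (n : ℕ) :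
    P (nth t0 l n) := by
  induction l generalizing n with
  | nil => exact h0
  | cons t l ih =>
    have e : nth t0 (t :: l) n = Bool.rec (nth t0 l (Nat.sub n 1)) t (Nat.beq n 0) := rfl
    rw [e]
    cases Nat.beq n 0
    · exact ih (fun q hq => h q (List.mem_cons_of_mem _ hq)) _
    · exact h t List.mem_cons_self

/-- what the extremal triple gives -/
def Hyp (c : ℂ) : Prop :=
  ∃ (u : ℂ) (N0 : ℕ), N0 < 54 ∧ ‖u‖ ≤ 1 ∧ ‖u - 1‖ ≤ 1 ∧ Surv c u 0 1 2 N0 ∧
    ∀ i j k, rb N0 i j k = true → ori (decide (27 ≤ N0)) i j k = true →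
      ∃ N < 54, Surv c u i j k N

structure TabOK (t0 : TE) (TAB : List TE) (PT : List (List PE)) : Prop where
  pt : ∀ a : Fin 6, (PT.getD a.val []).all (peOk a) = true
  h0 : teOk t0 = true
  tab : TAB.all teOk = true
  ei : t0.i = 0
  ej : t0.j = 1
  ek : t0.k = 2

theorem runU_box {t0 : TE} {TAB : List TE} {PT : List (List PE)} (hT : TabOK t0 TAB PT) {c : ℂ}
    (hc : Hyp c) {B : Bx} (hB : BxOK c B) (st w0 : ℕ) (ws : List ℕ) (ns : ℕ) :
    runU (mkSlot PT B t0 w0) (mkSlots t0 TAB PT B ws) ns st = false := by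
  obtain ⟨u, N0, hN, h1, h2, h3, h4⟩ := hc
  refine runU_spec hN (mkSlot_ok hT.pt hB hT.h0 hN (by rwa [hT.ei, hT.ej, hT.ek]) w0) ?_ h1 h2 _ _
  induction ws with
  | nil => intro s hs; exact absurd hs List.not_mem_nil
  | cons w l ih =>
    intro s hs hb
    rcases List.mem_cons.1 hs with hs | hs
    · have ht : teOk (nth t0 TAB (Nat.mod w 32)) = true :=
        nth_ok (P := fun t => teOk t = true) hT.h0 TAB (List.all_eq_true.1 hT.tab) _
      subst hs
      generalize nth t0 TAB (Nat.mod w 32) = t at ht hb ⊢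
      have ht' := ht
      simp only [teOk, Bool.and_eq_true, List.all_eq_true, List.mem_range, Bool.or_eq_true,
        Bool.not_eq_true'] at ht'
      obtain ⟨a, b⟩ := (ht'.1.2 N0 hN).resolve_left (by simpa [mkSl] using hb)
      obtain ⟨N, hN', hS⟩ := h4 _ _ _ a b
      exact ⟨N, hN', mkSlot_ok hT.pt hB ht hN' hS _⟩
    · exact ih s hs hb

/-- the region of the certificate -/
structure Reg (c : ℂ) : Prop where
  h1 : 1 / 8 ≤ ‖c‖
  h2 : ‖c‖ ≤ ‖1 - c‖
  h3 : ‖1 - c‖ ≤ 1
  hJ : ‖c‖ ^ 2 * ‖1 - c‖ ^ 2 ≤ ‖c ^ 2 - c + 1‖ ^ 3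
  hyp : Hyp c

theorem sel_cases {P : ℕ → ℂ → Prop} {c : ℂ} {a b d : ℕ} (h0 : P 65536 1) (h1 : P a c)
    (h2 : P b (1 - c)) (h3 : P d (c ^ 2 - c + 1)) (t : ℕ) : P (sel t a b d) (tyv c t) := by
  match t with
  | 0 => exact h0
  | 1 => exact h1
  | 2 => exact h2
  | t + 3 => exact h3

theorem boxA_spec {t0 : TE} {TAB : List TE} {PT : List (List PE)} (hT : TabOK t0 TAB PT) {c : ℂ}
    (hc : Reg c) {X Y r : ℕ} (hr : ‖65536 * c - ⟨X, Y⟩‖ ≤ r) (d : List ℕ) :
    boxA t0 TAB PT X Y r d = false := by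
  have hH : ‖65536 * c‖ ≤ ((Nat.add (nrm X Y) r : ℕ) : ℝ) := by
    have h4 : ‖(⟨X, Y⟩ : ℂ)‖ ≤ nrm X Y := nrm_real (by simp) (by simp)
    have := norm_sub_norm_le (65536 * c) ⟨X, Y⟩
    simp only [Nat.add_eq]
    push_cast
    linarith
  unfold boxA boxB
  have k1 := hor_rad (r2 := Nat.mul r r) hr rfl hH [(0, 0), (65536, 0)]
  have k2 := hor_rad (r2 := Nat.mul r r) hr rfl hH [(4294967296, 0), (0, 65536)]
  have k3 := hor_rad (r2 := Nat.mul r r) hr rfl hH [(4294967296, 0), (0, 65536), (1, 0)]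
  generalize hor X Y (Nat.mul r r) (Nat.add (nrm X Y) r) [(0, 0), (65536, 0)] = a at k1 ⊢
  generalize hor X Y (Nat.mul r r) (Nat.add (nrm X Y) r) [(4294967296, 0), (0, 65536)] = b at k2 ⊢
  generalize hor X Y (Nat.mul r r) (Nat.add (nrm X Y) r)
    [(4294967296, 0), (0, 65536), (1, 0)] = e at k3 ⊢
  have nn : ∀ z : ℂ, ‖65536 ^ 2 * z‖ = 65536 ^ 2 * ‖z‖ := fun z => by rw [norm_mul]; simp
  have e1 : pl (65536 * c) [(0, 0), (65536, 0)] = 65536 ^ 2 * c := by simp [pl]; ring
  have e2 : pl (65536 * c) [(4294967296, 0), (0, 65536)] = 65536 ^ 2 * (1 - c) := by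
    simp [pl]; ring
  have e3 : pl (65536 * c) [(4294967296, 0), (0, 65536), (1, 0)] =
      65536 ^ 2 * (c ^ 2 - c + 1) := by simp [pl]; ring
  rw [e1] at k1
  rw [e2] at k2
  rw [e3] at k3
  have u1 := TM.hi_spec k1
  have u2 := TM.hi_spec k2
  have u3 := TM.hi_spec k3
  have l1 := TM.lo_spec k1
  have l2 := TM.lo_spec k2
  have l3 := TM.lo_spec k3
  rw [nn] at u1 u2 u3 l1 l2 l3
  have hd : disc (a.hi r) (b.hi r) (e.hi r) (a.lo r) (b.lo r) = false := by
    generalize a.hi r = h1 at u1
    generalize b.hi r = h2 at u2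
    generalize e.hi r = h3 at u3
    generalize a.lo r = g1 at l1
    generalize b.lo r = g2 at l2
    have a1 := hc.h1
    have a2 := hc.h2
    have a3 := hc.h3
    have b1 : 4294967296 ≤ 8 * h1 := by
      have : (4294967296 : ℝ) ≤ 8 * h1 := by linarith
      exact_mod_cast this
    have b2 : g2 ≤ 4294967296 := by
      have : (g2 : ℝ) ≤ 4294967296 := by linarith
      exact_mod_cast this
    have b3 : g1 ≤ h2 := by
      have : (g1 : ℝ) ≤ h2 := by linarith
      exact_mod_cast this
    have b4 : g1 * g1 * (g2 * g2) ≤ 4294967296 * h3 ^ 3 := by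
      have : (g1 : ℝ) * g1 * (g2 * g2) ≤ 4294967296 * h3 ^ 3 := by
        calc (g1 : ℝ) * g1 * (g2 * g2) ≤ (65536 ^ 2 * ‖c‖) * (65536 ^ 2 * ‖c‖) *
              ((65536 ^ 2 * ‖1 - c‖) * (65536 ^ 2 * ‖1 - c‖)) := by gcongr
          _ = 65536 ^ 8 * (‖c‖ ^ 2 * ‖1 - c‖ ^ 2) := by ring
          _ ≤ 65536 ^ 8 * ‖c ^ 2 - c + 1‖ ^ 3 := by gcongr; exact hc.hJ
          _ = 4294967296 * (65536 ^ 2 * ‖c ^ 2 - c + 1‖) ^ 3 := by ring
          _ ≤ _ := by gcongr
      exact_mod_cast this
    by_contra hne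
    simp only [disc, Nat.mul_eq, npow, Bool.not_eq_false, Bool.or_eq_true, Nat.blt_eq] at hne
    omega
  have su : ∀ {n : ℕ} {x : ℝ}, x ≤ n → x ≤ (sqU n : ℝ) ^ 2 := fun {n x} h => by
    have : ((n : ℕ) : ℝ) ≤ ((sqU n * sqU n : ℕ) : ℝ) := by exact_mod_cast sqU_ge n
    push_cast at this
    rw [sq]; linarith
  have sl : ∀ {n : ℕ} {x : ℝ}, n ≤ x → (sqL n : ℝ) ^ 2 ≤ x := fun {n x} h => by
    have : ((sqL n * sqL n : ℕ) : ℝ) ≤ ((n : ℕ) : ℝ) := by exact_mod_cast sqL_le n
    push_cast at this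
    rw [sq]; linarith
  match d with
  | [] => exact hd
  | [_] => exact hd
  | st :: w0 :: ws =>
    simp only [boxC, boxOk]
    by_contra hne
    simp only [Bool.not_eq_false, Bool.and_eq_true, Nat.blt_eq] at hne
    obtain ⟨⟨⟨p1, p2⟩, p3⟩, p4⟩ := hne
    rw [runU_box hT hc.hyp ⟨hr, rfl, hH,
      sel_cases (P := fun s z => 65536 ^ 2 * ‖z‖ ≤ (s : ℝ) ^ 2) (by simp) (su u1) (su u2) (su u3),
      sel_cases (P := fun s z => (s : ℝ) ^ 2 ≤ 65536 ^ 2 * ‖z‖) (by simp) (sl l1) (sl l2) (sl l3),
      sel_cases (c := c) (P := fun s _ => 0 < s) (by norm_num) p1 p2 p3⟩] at p4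
    exact absurd p4 (by simp)

theorem chkC_spec {t0 : TE} {TAB : List TE} {PT : List (List PE)} (hT : TabOK t0 TAB PT) {c : ℂ}
    (hc : Reg c) (k : ℕ) : ∀ (x y : ℕ) (l : List (List ℕ)), InSq (65536 * c) (2 ^ k) x y →
      chkC t0 TAB PT k x y l = none := by
  induction k with
  | zero => intro x y l _; simp [chkC]
  | succ k ih =>
    intro x y l h
    match l with
    | [] => simp [chkC]
    | [] :: l =>
      simp only [chkC, Nat.add_eq, npow]
      rcases h.split with h | h | h | h
      · rw [ih _ _ _ h]; rfl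
      · simp [funext (ih _ _ · h)]
      · simp [funext (ih _ _ · h)]
      · simp [funext (ih _ _ · h)]
    | (a :: d) :: l =>
      simp only [chkC, Nat.add_eq, npow]
      rw [boxA_spec hT hc h.ball]

/-- the square contains no point of the region -/
def Free (k x y : ℕ) : Prop := ∀ c : ℂ, Reg c → ¬ InSq (65536 * c) (2 ^ k) x y

theorem free_of_chk {t0 : TE} {TAB : List TE} {PT : List (List PE)} (hT : TabOK t0 TAB PT)
    {k x y : ℕ} (l : List (List ℕ)) (h : (chkC t0 TAB PT k x y l).isSome = true) : Free k x y := by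
  intro c hc hs
  rw [chkC_spec hT hc k x y l hs] at h
  exact absurd h (by simp)

theorem free_split {k x y x' y' : ℕ} (h1 : Free k x y) (h2 : Free k x y') (h3 : Free k x' y)
    (h4 : Free k x' y') (hx : x' = x + 2 ^ k) (hy : y' = y + 2 ^ k) : Free (k + 1) x y := by
  subst hx hy
  intro c hc hs
  rcases hs.split with h | h | h | h
  exacts [h1 c hc h, h2 c hc h, h3 c hc h, h4 c hc h]

end Pool.Agent.P.MP_862e21_al
end

-- part Pool.Agent.P.MP_862e21_al.OCTab
section

namespace Pool.Agent.P.MP_862e21_al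

def PT : List (List PE) := [
  [⟨1, 2, 0, 0, 0, 18014398509481983⟩,
   ⟨1, 3, 0, 0, 1, 10293942005418276⟩,
   ⟨1, 4, 0, 2, 0, 15793445268586944⟩,
   ⟨1, 5, 0, 1, 2, 17979214271348736⟩,
   ⟨2, 3, 0, 0, 2, 5146971002709138⟩,
   ⟨2, 4, 0, 2, 1, 1974180658573368⟩,
   ⟨2, 5, 0, 1, 0, 35115652873728⟩,
   ⟨3, 4, 0, 2, 3, 5640516167352480⟩,
   ⟨3, 5, 0, 1, 3, 5156984450598912⟩,
   ⟨4, 5, 2, 1, 3, 2001111177461760⟩],
  [⟨0, 2, 0, 0, 0, 18014398509481983⟩,
   ⟨0, 3, 0, 1, 0, 10293942005418276⟩,
   ⟨0, 4, 0, 0, 2, 15793445268586944⟩,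
   ⟨0, 5, 0, 2, 1, 17979214271348736⟩,
   ⟨2, 3, 0, 1, 2, 2573485501354569⟩,
   ⟨2, 4, 0, 0, 1, 246772582321671⟩,
   ⟨2, 5, 0, 2, 0, 68585259519⟩,
   ⟨3, 4, 1, 0, 3, 2397219371124804⟩,
   ⟨3, 5, 1, 2, 3, 2568498373198116⟩,
   ⟨4, 5, 0, 2, 3, 246350735999424⟩],
  [⟨0, 1, 0, 0, 0, 18014398509481983⟩,
   ⟨0, 3, 0, 2, 0, 5146971002709138⟩,
   ⟨0, 4, 0, 1, 2, 1974180658573368⟩,
   ⟨0, 5, 0, 0, 1, 35115652873728⟩,
   ⟨1, 3, 0, 2, 1, 2573485501354569⟩,
   ⟨1, 4, 0, 1, 0, 246772582321671⟩,
   ⟨1, 5, 0, 0, 2, 68585259519⟩,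
   ⟨3, 4, 2, 1, 3, 352532260459530⟩,
   ⟨3, 5, 2, 0, 3, 5036117627538⟩,
   ⟨4, 5, 1, 0, 3, 488552533560⟩],
  [⟨0, 1, 0, 1, 0, 10293942005418276⟩,
   ⟨0, 2, 0, 2, 0, 5146971002709138⟩,
   ⟨0, 4, 0, 3, 2, 5640516167352480⟩,
   ⟨0, 5, 0, 3, 1, 5156984450598912⟩,
   ⟨1, 2, 1, 2, 0, 2573485501354569⟩,
   ⟨1, 4, 1, 3, 0, 2397219371124804⟩,
   ⟨1, 5, 1, 3, 2, 2568498373198116⟩,
   ⟨2, 4, 2, 3, 1, 352532260459530⟩,
   ⟨2, 5, 2, 3, 0, 5036117627538⟩,
   ⟨4, 5, 3, 3, 3, 356538122799264⟩],
  [⟨0, 1, 2, 0, 0, 15793445268586944⟩,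
   ⟨0, 2, 2, 1, 0, 1974180658573368⟩,
   ⟨0, 3, 2, 3, 0, 5640516167352480⟩,
   ⟨0, 5, 2, 3, 1, 2001111177461760⟩,
   ⟨1, 2, 0, 1, 0, 246772582321671⟩,
   ⟨1, 3, 0, 3, 1, 2397219371124804⟩,
   ⟨1, 5, 0, 3, 2, 246350735999424⟩,
   ⟨2, 3, 1, 3, 2, 352532260459530⟩,
   ⟨2, 5, 1, 3, 0, 488552533560⟩,
   ⟨3, 5, 3, 3, 3, 356538122799264⟩],
  [⟨0, 1, 1, 2, 0, 17979214271348736⟩,
   ⟨0, 2, 1, 0, 0, 35115652873728⟩,
   ⟨0, 3, 1, 3, 0, 5156984450598912⟩,
   ⟨0, 4, 1, 3, 2, 2001111177461760⟩,
   ⟨1, 2, 2, 0, 0, 68585259519⟩,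
   ⟨1, 3, 2, 3, 1, 2568498373198116⟩,
   ⟨1, 4, 2, 3, 0, 246350735999424⟩,
   ⟨2, 3, 0, 3, 2, 5036117627538⟩,
   ⟨2, 4, 0, 3, 1, 488552533560⟩,
   ⟨3, 4, 3, 3, 3, 356538122799264⟩]]

def T0 : TE := ⟨0, 1, 2, 18014398509481983, 0, 0, 0,
    [⟨0, [(18446744073709551616, 0)], []⟩,
     ⟨1, [], [(18446744073709551616, 0)]⟩,
     ⟨2, [(18446744073709551616, 0)], [(18446744073709551616, 0)]⟩,
     ⟨3, [(0, 0), (281474976710656, 0)], [(18446744073709551616, 0)]⟩,
     ⟨4, [(18446744073709551616, 0)], [(18446744073709551616, 0), (0, 281474976710656)]⟩,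
     ⟨5, [(0, 18446744073709551616), (281474976710656, 0)], [(0, 0), (281474976710656, 0)]⟩]⟩

def TAB : List TE := [
  ⟨0, 1, 2, 18014398509481983, 0, 0, 0,
    [⟨0, [(18446744073709551616, 0)], []⟩,
     ⟨1, [], [(18446744073709551616, 0)]⟩,
     ⟨2, [(18446744073709551616, 0)], [(18446744073709551616, 0)]⟩,
     ⟨3, [(0, 0), (281474976710656, 0)], [(18446744073709551616, 0)]⟩,
     ⟨4, [(18446744073709551616, 0)], [(18446744073709551616, 0), (0, 281474976710656)]⟩,
     ⟨5, [(0, 18446744073709551616), (281474976710656, 0)], [(0, 0), (281474976710656, 0)]⟩]⟩,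
  ⟨0, 3, 1, 10293942005418276, 1, 0, 0,
    [⟨0, [(0, 0), (0, 281474976710656)], []⟩,
     ⟨1, [(0, 0), (281474976710656, 0)], [(18446744073709551616, 0)]⟩,
     ⟨2, [], [(18446744073709551616, 0)]⟩,
     ⟨3, [(0, 0), (281474976710656, 0), (0, 4294967296)], [(18446744073709551616, 0)]⟩,
     ⟨4, [(0, 0), (0, 0), (0, 4294967296)], [(18446744073709551616, 0), (0, 281474976710656)]⟩,
     ⟨5, [(0, 0), (281474976710656, 0)], [(0, 0), (281474976710656, 0)]⟩]⟩,
  ⟨0, 4, 1, 15793445268586944, 0, 2, 0,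
    [⟨0, [(0, 18446744073709551616)], []⟩,
     ⟨1, [(18446744073709551616, 0)], [(18446744073709551616, 0), (0, 281474976710656)]⟩,
     ⟨2, [], [(18446744073709551616, 0), (0, 281474976710656)]⟩,
     ⟨3, [(18446744073709551616, 0), (0, 281474976710656)], [(18446744073709551616, 0), (0, 281474976710656)]⟩,
     ⟨4, [(0, 0), (0, 281474976710656)], [(18446744073709551616, 0), (0, 562949953421312), (4294967296, 0)]⟩,
     ⟨5, [(18446744073709551616, 0)], [(0, 0), (281474976710656, 0), (0, 4294967296)]⟩]⟩,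
  ⟨0, 5, 1, 17979214271348736, 2, 1, 0,
    [⟨0, [(18446744073709551616, 0), (0, 281474976710656)], []⟩,
     ⟨1, [(0, 18446744073709551616), (281474976710656, 0)], [(0, 0), (281474976710656, 0)]⟩,
     ⟨2, [], [(0, 0), (281474976710656, 0)]⟩,
     ⟨3, [(0, 18446744073709551616), (562949953421312, 0), (0, 4294967296)], [(0, 0), (281474976710656, 0)]⟩,
     ⟨4, [(0, 0), (281474976710656, 0), (0, 4294967296)], [(0, 0), (281474976710656, 0), (0, 4294967296)]⟩,
     ⟨5, [(0, 18446744073709551616), (281474976710656, 0)], [(0, 0), (0, 0), (4294967296, 0)]⟩]⟩,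
  ⟨0, 2, 3, 5146971002709138, 2, 0, 0,
    [⟨0, [(0, 18446744073709551616), (281474976710656, 0)], []⟩,
     ⟨1, [(18446744073709551616, 0)], [(18446744073709551616, 0)]⟩,
     ⟨2, [(0, 0), (281474976710656, 0)], [(18446744073709551616, 0)]⟩,
     ⟨3, [(18446744073709551616, 0), (0, 281474976710656), (4294967296, 0)], [(18446744073709551616, 0)]⟩,
     ⟨4, [], [(18446744073709551616, 0), (0, 281474976710656)]⟩,
     ⟨5, [(18446744073709551616, 0), (0, 281474976710656), (4294967296, 0)], [(0, 0), (281474976710656, 0)]⟩]⟩,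
  ⟨0, 2, 4, 1974180658573368, 1, 0, 2,
    [⟨0, [(0, 0), (281474976710656, 0)], []⟩,
     ⟨1, [(18446744073709551616, 0), (0, 281474976710656)], [(18446744073709551616, 0), (0, 281474976710656)]⟩,
     ⟨2, [(18446744073709551616, 0)], [(18446744073709551616, 0), (0, 281474976710656)]⟩,
     ⟨3, [(18446744073709551616, 0), (0, 281474976710656), (4294967296, 0)], [(18446744073709551616, 0), (0, 281474976710656)]⟩,
     ⟨4, [(18446744073709551616, 0), (0, 281474976710656), (4294967296, 0)], [(18446744073709551616, 0), (0, 562949953421312), (4294967296, 0)]⟩,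
     ⟨5, [], [(0, 0), (281474976710656, 0), (0, 4294967296)]⟩]⟩,
  ⟨0, 2, 5, 35115652873728, 0, 0, 1,
    [⟨0, [(0, 18446744073709551616)], []⟩,
     ⟨1, [(0, 0), (281474976710656, 0)], [(0, 0), (281474976710656, 0)]⟩,
     ⟨2, [(0, 18446744073709551616), (281474976710656, 0)], [(0, 0), (281474976710656, 0)]⟩,
     ⟨3, [], [(0, 0), (281474976710656, 0)]⟩,
     ⟨4, [(0, 18446744073709551616), (281474976710656, 0), (0, 4294967296)], [(0, 0), (281474976710656, 0), (0, 4294967296)]⟩,
     ⟨5, [(18446744073709551616, 0), (0, 281474976710656), (4294967296, 0)], [(0, 0), (0, 0), (4294967296, 0)]⟩]⟩,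
  ⟨0, 3, 4, 42025120, 3, 0, 2,
    [⟨0, [(18446744073709551616, 0), (0, 281474976710656), (4294967296, 0)], []⟩,
     ⟨1, [(0, 0), (281474976710656, 0), (0, 4294967296)], [(18446744073709551616, 0), (0, 281474976710656)]⟩,
     ⟨2, [(18446744073709551616, 0)], [(18446744073709551616, 0), (0, 281474976710656)]⟩,
     ⟨3, [(0, 0), (562949953421312, 0), (0, 8589934592), (65536, 0)], [(18446744073709551616, 0), (0, 281474976710656)]⟩,
     ⟨4, [(18446744073709551616, 0), (0, 0), (0, 4294967296), (65536, 0)], [(18446744073709551616, 0), (0, 562949953421312), (4294967296, 0)]⟩,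
     ⟨5, [(0, 18446744073709551616), (562949953421312, 0), (0, 4294967296)], [(0, 0), (281474976710656, 0), (0, 4294967296)]⟩]⟩,
  ⟨0, 4, 3, 5640516125327360, 3, 2, 0,
    [⟨0, [(0, 18446744073709551616), (281474976710656, 0), (0, 4294967296)], []⟩,
     ⟨1, [(18446744073709551616, 0)], [(18446744073709551616, 0), (0, 281474976710656)]⟩,
     ⟨2, [(0, 0), (281474976710656, 0), (0, 4294967296)], [(18446744073709551616, 0), (0, 281474976710656)]⟩,
     ⟨3, [(18446744073709551616, 0), (0, 281474976710656), (4294967296, 0), (0, 65536)], [(18446744073709551616, 0), (0, 281474976710656)]⟩,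
     ⟨4, [(0, 0), (0, 0), (0, 4294967296)], [(18446744073709551616, 0), (0, 562949953421312), (4294967296, 0)]⟩,
     ⟨5, [(18446744073709551616, 0), (0, 281474976710656), (8589934592, 0), (0, 65536)], [(0, 0), (281474976710656, 0), (0, 4294967296)]⟩]⟩,
  ⟨0, 3, 5, 5156984412176384, 3, 0, 1,
    [⟨0, [(0, 18446744073709551616), (281474976710656, 0), (0, 4294967296)], []⟩,
     ⟨1, [(0, 0), (0, 0), (4294967296, 0)], [(0, 0), (281474976710656, 0)]⟩,
     ⟨2, [(0, 18446744073709551616), (281474976710656, 0)], [(0, 0), (281474976710656, 0)]⟩,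
     ⟨3, [(0, 0), (0, 281474976710656), (8589934592, 0), (0, 65536)], [(0, 0), (281474976710656, 0)]⟩,
     ⟨4, [(0, 18446744073709551616), (281474976710656, 0), (0, 0), (0, 65536)], [(0, 0), (281474976710656, 0), (0, 4294967296)]⟩,
     ⟨5, [(18446744073709551616, 0), (0, 562949953421312), (8589934592, 0)], [(0, 0), (0, 0), (4294967296, 0)]⟩]⟩,
  ⟨0, 5, 3, 38422528, 3, 1, 0,
    [⟨0, [(18446744073709551616, 0), (0, 281474976710656), (4294967296, 0)], []⟩,
     ⟨1, [(0, 18446744073709551616), (281474976710656, 0)], [(0, 0), (281474976710656, 0)]⟩,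
     ⟨2, [(0, 0), (0, 0), (4294967296, 0)], [(0, 0), (281474976710656, 0)]⟩,
     ⟨3, [(0, 18446744073709551616), (562949953421312, 0), (0, 4294967296), (65536, 0)], [(0, 0), (281474976710656, 0)]⟩,
     ⟨4, [(0, 0), (281474976710656, 0)], [(0, 0), (281474976710656, 0), (0, 4294967296)]⟩,
     ⟨5, [(0, 18446744073709551616), (281474976710656, 0), (0, 4294967296), (65536, 0)], [(0, 0), (0, 0), (4294967296, 0)]⟩]⟩,
  ⟨0, 4, 5, 14909440, 3, 2, 1,
    [⟨0, [(0, 18446744073709551616), (281474976710656, 0), (0, 4294967296)], []⟩,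
     ⟨1, [(0, 0), (281474976710656, 0)], [(0, 0), (281474976710656, 0), (0, 4294967296)]⟩,
     ⟨2, [(0, 18446744073709551616), (562949953421312, 0), (0, 4294967296)], [(0, 0), (281474976710656, 0), (0, 4294967296)]⟩,
     ⟨3, [(0, 0), (0, 0), (4294967296, 0), (0, 65536)], [(0, 0), (281474976710656, 0), (0, 4294967296)]⟩,
     ⟨4, [(0, 18446744073709551616), (562949953421312, 0), (0, 8589934592)], [(0, 0), (281474976710656, 0), (0, 8589934592), (65536, 0)]⟩,
     ⟨5, [(18446744073709551616, 0), (0, 562949953421312), (12884901888, 0), (0, 65536)], [(0, 0), (0, 0), (4294967296, 0), (0, 65536)]⟩]⟩,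
  ⟨0, 5, 4, 2001111162552320, 3, 1, 2,
    [⟨0, [(18446744073709551616, 0), (0, 281474976710656), (4294967296, 0)], []⟩,
     ⟨1, [(0, 18446744073709551616), (562949953421312, 0), (0, 4294967296)], [(0, 0), (281474976710656, 0), (0, 4294967296)]⟩,
     ⟨2, [(0, 0), (281474976710656, 0)], [(0, 0), (281474976710656, 0), (0, 4294967296)]⟩,
     ⟨3, [(0, 18446744073709551616), (844424930131968, 0), (0, 8589934592), (65536, 0)], [(0, 0), (281474976710656, 0), (0, 4294967296)]⟩,
     ⟨4, [(0, 0), (562949953421312, 0), (0, 8589934592), (65536, 0)], [(0, 0), (281474976710656, 0), (0, 8589934592), (65536, 0)]⟩,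
     ⟨5, [(0, 18446744073709551616), (281474976710656, 0)], [(0, 0), (0, 0), (4294967296, 0), (0, 65536)]⟩]⟩,
  ⟨1, 3, 2, 2573485501354569, 2, 1, 0,
    [⟨0, [], [(18446744073709551616, 0), (0, 281474976710656)]⟩,
     ⟨1, [(0, 0), (0, 281474976710656)], [(0, 18446744073709551616)]⟩,
     ⟨2, [(0, 0), (0, 281474976710656)], [(0, 0), (0, 281474976710656)]⟩,
     ⟨3, [(0, 0), (0, 281474976710656)], [(0, 18446744073709551616), (281474976710656, 0), (0, 4294967296)]⟩,
     ⟨4, [(0, 0), (0, 281474976710656), (4294967296, 0)], []⟩,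
     ⟨5, [(0, 0), (0, 0), (0, 4294967296)], [(0, 18446744073709551616), (281474976710656, 0), (0, 4294967296)]⟩]⟩,
  ⟨1, 4, 2, 246772582321671, 1, 0, 0,
    [⟨0, [], [(0, 0), (0, 281474976710656)]⟩,
     ⟨1, [(0, 18446744073709551616)], [(0, 18446744073709551616), (281474976710656, 0)]⟩,
     ⟨2, [(0, 18446744073709551616)], [(0, 18446744073709551616)]⟩,
     ⟨3, [(0, 18446744073709551616)], [(0, 18446744073709551616), (281474976710656, 0), (0, 4294967296)]⟩,
     ⟨4, [(0, 18446744073709551616), (281474976710656, 0)], [(0, 18446744073709551616), (281474976710656, 0), (0, 4294967296)]⟩,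
     ⟨5, [(0, 0), (0, 281474976710656)], []⟩]⟩,
  ⟨1, 5, 2, 68585259519, 0, 2, 0,
    [⟨0, [], [(18446744073709551616, 0)]⟩,
     ⟨1, [(18446744073709551616, 0), (0, 281474976710656)], [(0, 0), (0, 281474976710656)]⟩,
     ⟨2, [(18446744073709551616, 0), (0, 281474976710656)], [(18446744073709551616, 0), (0, 281474976710656)]⟩,
     ⟨3, [(18446744073709551616, 0), (0, 281474976710656)], []⟩,
     ⟨4, [(18446744073709551616, 0), (0, 562949953421312), (4294967296, 0)], [(18446744073709551616, 0), (0, 281474976710656), (4294967296, 0)]⟩,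
     ⟨5, [(0, 0), (281474976710656, 0), (0, 4294967296)], [(0, 18446744073709551616), (281474976710656, 0), (0, 4294967296)]⟩]⟩,
  ⟨1, 3, 4, 17860676, 3, 1, 0,
    [⟨0, [], [(18446744073709551616, 0), (0, 281474976710656), (4294967296, 0)]⟩,
     ⟨1, [(0, 0), (0, 281474976710656)], [(0, 18446744073709551616)]⟩,
     ⟨2, [(0, 0), (0, 281474976710656)], [(0, 0), (0, 281474976710656), (4294967296, 0)]⟩,
     ⟨3, [(0, 0), (0, 281474976710656)], [(0, 18446744073709551616), (281474976710656, 0), (0, 4294967296), (65536, 0)]⟩,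
     ⟨4, [(0, 0), (0, 281474976710656), (4294967296, 0)], [(0, 0), (0, 0), (4294967296, 0)]⟩,
     ⟨5, [(0, 0), (0, 0), (0, 4294967296)], [(0, 18446744073709551616), (281474976710656, 0), (0, 8589934592), (65536, 0)]⟩]⟩,
  ⟨1, 4, 3, 2397219353264128, 3, 0, 1,
    [⟨0, [], [(0, 18446744073709551616), (281474976710656, 0), (0, 4294967296)]⟩,
     ⟨1, [(0, 0), (0, 281474976710656)], [(0, 0), (0, 281474976710656), (4294967296, 0)]⟩,
     ⟨2, [(0, 0), (0, 281474976710656)], [(0, 18446744073709551616)]⟩,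
     ⟨3, [(0, 0), (0, 281474976710656)], [(0, 0), (0, 562949953421312), (8589934592, 0), (0, 65536)]⟩,
     ⟨4, [(0, 0), (0, 281474976710656), (4294967296, 0)], [(0, 18446744073709551616), (0, 0), (4294967296, 0), (0, 65536)]⟩,
     ⟨5, [(0, 0), (0, 0), (0, 4294967296)], [(18446744073709551616, 0), (0, 562949953421312), (4294967296, 0)]⟩]⟩,
  ⟨1, 3, 5, 2568498354061312, 3, 1, 2,
    [⟨0, [], [(0, 18446744073709551616), (281474976710656, 0), (0, 4294967296)]⟩,
     ⟨1, [(0, 0), (281474976710656, 0), (0, 4294967296)], [(18446744073709551616, 0), (0, 281474976710656)]⟩,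
     ⟨2, [(0, 0), (281474976710656, 0), (0, 4294967296)], [(0, 0), (0, 0), (0, 4294967296)]⟩,
     ⟨3, [(0, 0), (281474976710656, 0), (0, 4294967296)], [(18446744073709551616, 0), (0, 562949953421312), (4294967296, 0), (0, 65536)]⟩,
     ⟨4, [(0, 0), (281474976710656, 0), (0, 8589934592), (65536, 0)], [(0, 0), (0, 281474976710656)]⟩,
     ⟨5, [(0, 0), (0, 0), (4294967296, 0), (0, 65536)], [(18446744073709551616, 0), (0, 281474976710656), (4294967296, 0), (0, 65536)]⟩]⟩,
  ⟨1, 5, 3, 19136804, 3, 2, 1,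
    [⟨0, [], [(18446744073709551616, 0), (0, 281474976710656), (4294967296, 0)]⟩,
     ⟨1, [(0, 0), (281474976710656, 0), (0, 4294967296)], [(0, 0), (0, 0), (0, 4294967296)]⟩,
     ⟨2, [(0, 0), (281474976710656, 0), (0, 4294967296)], [(18446744073709551616, 0), (0, 281474976710656)]⟩,
     ⟨3, [(0, 0), (281474976710656, 0), (0, 4294967296)], [(0, 0), (281474976710656, 0), (0, 8589934592), (65536, 0)]⟩,
     ⟨4, [(0, 0), (281474976710656, 0), (0, 8589934592), (65536, 0)], [(18446744073709551616, 0), (0, 281474976710656), (0, 0), (65536, 0)]⟩,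
     ⟨5, [(0, 0), (0, 0), (4294967296, 0), (0, 65536)], [(0, 18446744073709551616), (562949953421312, 0), (0, 8589934592)]⟩]⟩,
  ⟨1, 4, 5, 1835456, 3, 0, 2,
    [⟨0, [], [(0, 18446744073709551616), (281474976710656, 0), (0, 4294967296)]⟩,
     ⟨1, [(18446744073709551616, 0), (0, 281474976710656)], [(18446744073709551616, 0), (0, 562949953421312), (4294967296, 0)]⟩,
     ⟨2, [(18446744073709551616, 0), (0, 281474976710656)], [(0, 0), (0, 281474976710656)]⟩,
     ⟨3, [(18446744073709551616, 0), (0, 281474976710656)], [(18446744073709551616, 0), (0, 844424930131968), (8589934592, 0), (0, 65536)]⟩,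
     ⟨4, [(18446744073709551616, 0), (0, 562949953421312), (4294967296, 0)], [(0, 0), (0, 562949953421312), (8589934592, 0), (0, 65536)]⟩,
     ⟨5, [(0, 0), (281474976710656, 0), (0, 4294967296)], [(18446744073709551616, 0), (0, 281474976710656)]⟩]⟩,
  ⟨1, 5, 4, 246350734163968, 3, 2, 0,
    [⟨0, [], [(18446744073709551616, 0), (0, 281474976710656), (4294967296, 0)]⟩,
     ⟨1, [(18446744073709551616, 0), (0, 281474976710656)], [(0, 0), (0, 281474976710656)]⟩,
     ⟨2, [(18446744073709551616, 0), (0, 281474976710656)], [(18446744073709551616, 0), (0, 562949953421312), (4294967296, 0)]⟩,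
     ⟨3, [(18446744073709551616, 0), (0, 281474976710656)], [(0, 0), (0, 0), (0, 4294967296), (65536, 0)]⟩,
     ⟨4, [(18446744073709551616, 0), (0, 562949953421312), (4294967296, 0)], [(18446744073709551616, 0), (0, 562949953421312), (8589934592, 0)]⟩,
     ⟨5, [(0, 0), (281474976710656, 0), (0, 4294967296)], [(0, 18446744073709551616), (562949953421312, 0), (0, 12884901888), (65536, 0)]⟩]⟩,
  ⟨2, 3, 4, 2626570, 3, 2, 1,
    [⟨0, [(18446744073709551616, 0), (0, 281474976710656), (4294967296, 0)], [(18446744073709551616, 0), (0, 281474976710656), (4294967296, 0)]⟩,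
     ⟨1, [(0, 0), (0, 0), (0, 4294967296)], [(0, 0), (0, 281474976710656)]⟩,
     ⟨2, [(18446744073709551616, 0), (0, 281474976710656)], [(18446744073709551616, 0), (0, 562949953421312), (4294967296, 0)]⟩,
     ⟨3, [(0, 0), (281474976710656, 0), (0, 8589934592), (65536, 0)], [(0, 0), (0, 0), (0, 4294967296), (65536, 0)]⟩,
     ⟨4, [(18446744073709551616, 0), (0, 281474976710656), (0, 0), (65536, 0)], [(18446744073709551616, 0), (0, 562949953421312), (8589934592, 0)]⟩,
     ⟨5, [(0, 18446744073709551616), (562949953421312, 0), (0, 8589934592)], [(0, 18446744073709551616), (562949953421312, 0), (0, 12884901888), (65536, 0)]⟩]⟩,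
  ⟨2, 4, 3, 352532257832960, 3, 1, 2,
    [⟨0, [(0, 18446744073709551616), (281474976710656, 0), (0, 4294967296)], [(0, 18446744073709551616), (281474976710656, 0), (0, 4294967296)]⟩,
     ⟨1, [(18446744073709551616, 0), (0, 281474976710656)], [(18446744073709551616, 0), (0, 562949953421312), (4294967296, 0)]⟩,
     ⟨2, [(0, 0), (0, 0), (0, 4294967296)], [(0, 0), (0, 281474976710656)]⟩,
     ⟨3, [(18446744073709551616, 0), (0, 562949953421312), (4294967296, 0), (0, 65536)], [(18446744073709551616, 0), (0, 844424930131968), (8589934592, 0), (0, 65536)]⟩,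
     ⟨4, [(0, 0), (0, 281474976710656)], [(0, 0), (0, 562949953421312), (8589934592, 0), (0, 65536)]⟩,
     ⟨5, [(18446744073709551616, 0), (0, 281474976710656), (4294967296, 0), (0, 65536)], [(18446744073709551616, 0), (0, 281474976710656)]⟩]⟩,
  ⟨2, 3, 5, 5036117590016, 3, 2, 0,
    [⟨0, [(0, 18446744073709551616), (281474976710656, 0), (0, 4294967296)], [(0, 18446744073709551616), (281474976710656, 0), (0, 4294967296)]⟩,
     ⟨1, [(0, 0), (281474976710656, 0)], [(18446744073709551616, 0)]⟩,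
     ⟨2, [(0, 18446744073709551616), (562949953421312, 0), (0, 4294967296)], [(0, 0), (281474976710656, 0), (0, 4294967296)]⟩,
     ⟨3, [(0, 0), (0, 0), (4294967296, 0), (0, 65536)], [(18446744073709551616, 0), (0, 281474976710656), (4294967296, 0), (0, 65536)]⟩,
     ⟨4, [(0, 18446744073709551616), (562949953421312, 0), (0, 8589934592)], [(0, 0), (0, 0), (0, 4294967296)]⟩,
     ⟨5, [(18446744073709551616, 0), (0, 562949953421312), (12884901888, 0), (0, 65536)], [(18446744073709551616, 0), (0, 281474976710656), (8589934592, 0), (0, 65536)]⟩]⟩,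
  ⟨2, 5, 3, 37522, 3, 0, 2,
    [⟨0, [(18446744073709551616, 0), (0, 281474976710656), (4294967296, 0)], [(18446744073709551616, 0), (0, 281474976710656), (4294967296, 0)]⟩,
     ⟨1, [(0, 18446744073709551616), (562949953421312, 0), (0, 4294967296)], [(0, 0), (281474976710656, 0), (0, 4294967296)]⟩,
     ⟨2, [(0, 0), (281474976710656, 0)], [(18446744073709551616, 0)]⟩,
     ⟨3, [(0, 18446744073709551616), (844424930131968, 0), (0, 8589934592), (65536, 0)], [(0, 0), (562949953421312, 0), (0, 8589934592), (65536, 0)]⟩,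
     ⟨4, [(0, 0), (562949953421312, 0), (0, 8589934592), (65536, 0)], [(18446744073709551616, 0), (0, 0), (0, 4294967296), (65536, 0)]⟩,
     ⟨5, [(0, 18446744073709551616), (281474976710656, 0)], [(0, 18446744073709551616), (562949953421312, 0), (0, 4294967296)]⟩]⟩,
  ⟨2, 4, 5, 3640, 3, 1, 0,
    [⟨0, [(0, 18446744073709551616), (281474976710656, 0), (0, 4294967296)], [(0, 18446744073709551616), (281474976710656, 0), (0, 4294967296)]⟩,
     ⟨1, [(18446744073709551616, 0)], [(18446744073709551616, 0), (0, 281474976710656)]⟩,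
     ⟨2, [(0, 0), (281474976710656, 0), (0, 4294967296)], [(0, 0), (0, 0), (0, 4294967296)]⟩,
     ⟨3, [(18446744073709551616, 0), (0, 281474976710656), (4294967296, 0), (0, 65536)], [(18446744073709551616, 0), (0, 562949953421312), (4294967296, 0), (0, 65536)]⟩,
     ⟨4, [(0, 0), (0, 0), (0, 4294967296)], [(0, 0), (0, 281474976710656)]⟩,
     ⟨5, [(18446744073709551616, 0), (0, 281474976710656), (8589934592, 0), (0, 65536)], [(18446744073709551616, 0), (0, 281474976710656), (4294967296, 0), (0, 65536)]⟩]⟩,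
  ⟨2, 5, 4, 488552529920, 3, 0, 1,
    [⟨0, [(18446744073709551616, 0), (0, 281474976710656), (4294967296, 0)], [(18446744073709551616, 0), (0, 281474976710656), (4294967296, 0)]⟩,
     ⟨1, [(0, 0), (281474976710656, 0), (0, 4294967296)], [(0, 0), (0, 0), (0, 4294967296)]⟩,
     ⟨2, [(18446744073709551616, 0)], [(18446744073709551616, 0), (0, 281474976710656)]⟩,
     ⟨3, [(0, 0), (562949953421312, 0), (0, 8589934592), (65536, 0)], [(0, 0), (281474976710656, 0), (0, 8589934592), (65536, 0)]⟩,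
     ⟨4, [(18446744073709551616, 0), (0, 0), (0, 4294967296), (65536, 0)], [(18446744073709551616, 0), (0, 281474976710656), (0, 0), (65536, 0)]⟩,
     ⟨5, [(0, 18446744073709551616), (562949953421312, 0), (0, 4294967296)], [(0, 18446744073709551616), (562949953421312, 0), (0, 8589934592)]⟩]⟩,
  ⟨3, 4, 5, 356538120142848, 3, 3, 3,
    [⟨0, [(0, 0), (0, 281474976710656), (4294967296, 0), (0, 65536)], [(0, 18446744073709551616), (281474976710656, 0), (0, 4294967296)]⟩,
     ⟨1, [(18446744073709551616, 0), (0, 281474976710656), (4294967296, 0)], [(18446744073709551616, 0), (0, 562949953421312), (8589934592, 0), (0, 65536)]⟩,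
     ⟨2, [(18446744073709551616, 0), (0, 562949953421312), (8589934592, 0), (0, 65536)], [(0, 0), (0, 281474976710656), (4294967296, 0), (0, 65536)]⟩,
     ⟨3, [(18446744073709551616, 0), (0, 281474976710656), (0, 0), (65536, 0), (0, 1)], [(18446744073709551616, 0), (0, 844424930131968), (12884901888, 0), (0, 131072)]⟩,
     ⟨4, [(18446744073709551616, 0), (0, 844424930131968), (12884901888, 0), (0, 131072)], [(0, 0), (0, 562949953421312), (12884901888, 0), (0, 196608), (1, 0)]⟩,
     ⟨5, [(0, 0), (562949953421312, 0), (0, 12884901888), (196608, 0), (0, 1)], [(18446744073709551616, 0), (0, 281474976710656), (0, 0), (65536, 0), (0, 1)]⟩]⟩,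
  ⟨3, 5, 4, 2656416, 3, 3, 3,
    [⟨0, [(0, 0), (281474976710656, 0), (0, 4294967296), (65536, 0)], [(18446744073709551616, 0), (0, 281474976710656), (4294967296, 0)]⟩,
     ⟨1, [(18446744073709551616, 0), (0, 562949953421312), (8589934592, 0), (0, 65536)], [(0, 0), (0, 281474976710656), (4294967296, 0), (0, 65536)]⟩,
     ⟨2, [(18446744073709551616, 0), (0, 281474976710656), (4294967296, 0)], [(18446744073709551616, 0), (0, 562949953421312), (8589934592, 0), (0, 65536)]⟩,
     ⟨3, [(18446744073709551616, 0), (0, 562949953421312), (12884901888, 0), (0, 131072), (1, 0)], []⟩,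
     ⟨4, [(18446744073709551616, 0), (0, 562949953421312), (12884901888, 0), (0, 131072), (1, 0)], [(18446744073709551616, 0), (0, 562949953421312), (12884901888, 0), (0, 131072), (1, 0)]⟩,
     ⟨5, [], [(0, 18446744073709551616), (562949953421312, 0), (0, 12884901888), (131072, 0), (0, 1)]⟩]⟩]

theorem tabOK : TabOK T0 TAB PT :=
  ⟨by decide +kernel, by decide +kernel, by decide +kernel, rfl, rfl, rfl⟩

end Pool.Agent.P.MP_862e21_al
end

-- part Pool.Agent.P.MP_862e21_al.OCDat1
section

namespace Pool.Agent.P.MP_862e21_al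

theorem free_13_0_0 : Free 13 0 0 := free_of_chk tabOK
  [[],
  [0],
  [],
  [0],
  [],
  [0],
  [],
  [0],
  [],
  [0],
  [0],
  [0],
  [],
  [0],
  [0],
  [0],
  [0x7fdfe, 0xc000000000000, 0x8a84800090f],
  [0],
  [],
  [0],
  [],
  [0],
  [0x7fdfe, 0xc000000000000, 0x8a84800090f],
  [0],
  [0x754ea, 0x240004c, 0xa800000090f],
  [0],
  [0x754ea, 0x240004c, 0xa800000090f],
  [0],
  [],
  [0],
  [],
  [0],
  [0x754ea, 0x240004c, 0xa800000090f],
  [0],
  [0x754ea, 0x240004c, 0xa800000090f],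
  [0],
  [0x754ea, 0x240004c, 0xa800000090f],
  [0],
  [],
  [0],
  [],
  [0],
  [0x754ea, 0x240004c, 0xa800000090f],
  [0x754ea, 0x240004c, 0xa800000090f],
  [0x754ea, 0x240004c, 0xa800000090f],
  [0x754ea, 0x240004c, 0x8880000090f],
  [0x754ea, 0x240004c, 0x8880000090f],
  [],
  [0],
  [0],
  [0x7fd4953efa8a, 0x12000000004c, 0x18000000020000f],
  [0x16dbb556d56ebb4db7598db6b6bb56ad3759da6db5a5a, 0x2002000004c, 0x18000000020000f, 0x980000000e],
  [],
  [],
  [0],
  [0],
  [0],
  [0x754ea, 0x2200004c, 0x8880000280f],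
  [],
  [0x754ea, 0x240004c, 0x8880000090f],
  [0x754ea, 0x240004c, 0x8880000090f],
  [0x754ea, 0x240004c, 0x8880000090f],
  [0x754ea, 0x240004c, 0x8880000090f],
  [],
  [0x754ea, 0x2200004c, 0x8880000280f],
  [0x754ea, 0x2200004c, 0x8880000280f],
  [0x754ea, 0x2200004c, 0x8880000280f],
  [0x754ea, 0x2200004c, 0x8880000280f],
  [],
  [0x754ea, 0x240004c, 0x8880000090f],
  [0x754ea, 0x240004c, 0x8880000090f],
  [0x754ea, 0x2200004c, 0x8880000280f],
  [0x755ea, 0x110000000004c, 0x8880000090f]]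
  (by decide +kernel)

theorem free_11_0_8192 : Free 11 0 8192 := free_of_chk tabOK
  [[],
  [],
  [],
  [0],
  [0],
  [],
  [0],
  [0],
  [0x7fdfe, 0xc000000000000, 0x8a84800090f],
  [0x7fdfe, 0xc000000000000, 0x8a84800090f],
  [],
  [0],
  [0],
  [0],
  [0],
  [],
  [0],
  [0],
  [0],
  [0],
  [],
  [],
  [0x7fdfe, 0xc000000000000, 0x8a84800090f],
  [0x7fdfe, 0xc000000000000, 0x8a84800090f],
  [0x754ea, 0x240004c, 0xa800000090f],
  [0x754ea, 0x240004c, 0xa800000090f],
  [0x7fdfe, 0xc000000000000, 0x8a84800090f],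
  [0x754ea, 0x240004c, 0xa800000090f],
  [0x754ea, 0x240004c, 0xa800000090f],
  [],
  [0x7fdfe, 0xc000000000000, 0x8a84800090f],
  [0x7fdfe, 0xc000000000000, 0x8a84800090f],
  [0x754ea, 0x240004c, 0xa800000090f],
  [0x754ea, 0x240004c, 0xa800000090f],
  [],
  [0],
  [0],
  [],
  [0x7fdfe, 0xc000000000000, 0x8a84800090f],
  [0x7fdfe, 0xc000000000000, 0x8a84800090f],
  [0x7fdfe, 0xc000000000000, 0x8a84800090f],
  [0x7fdfe, 0xc000000000000, 0x8a84800090f],
  [],
  [0x7fdfe, 0xc000000000000, 0x8a84800090f],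
  [0x7fdfe, 0xc000000000000, 0x8a84800090f],
  [0x7fdfe, 0xc000000000000, 0x8a84800090f],
  [0x7fdfe, 0xc000000000000, 0x8a84800090f],
  [],
  [],
  [0x754ea, 0x240004c, 0xa800000090f],
  [0x754ea, 0x240004c, 0xa800000090f],
  [0x754ea, 0x240004c, 0xa800000090f],
  [0x754ea, 0x240004c, 0xa800000090f],
  [0x754ea, 0x240004c, 0xa800000090f],
  [0x754ea, 0x240004c, 0xa800000090f],
  [0x754ea, 0x240004c, 0xa800000090f],
  [],
  [0x754ea, 0x240004c, 0xa800000090f],
  [0x754ea, 0x240004c, 0xa800000090f],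
  [0x754ea, 0x240004c, 0xa800000090f],
  [0x754ea, 0x240004c, 0xa800000090f]]
  (by decide +kernel)

theorem free_11_0_10240 : Free 11 0 10240 := free_of_chk tabOK
  [[],
  [],
  [0],
  [0],
  [],
  [0x7fdfe, 0xc000000000000, 0x8a84800090f],
  [0],
  [0x7fdfe, 0xc000000000000, 0x8a84800090f],
  [0x7fdfe, 0xc000000000000, 0x8a84800090f],
  [],
  [0],
  [0],
  [0x7fdfe, 0xc000000000000, 0x8a84800090f],
  [0x7fdfe, 0xc000000000000, 0x8a84800090f],
  [],
  [0],
  [0],
  [],
  [0],
  [0],
  [0x7fdfe, 0xc000000000000, 0x8a84800090f],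
  [0x7fdfe, 0xc000000000000, 0x8a84800090f],
  [],
  [0],
  [0],
  [0],
  [0],
  [],
  [],
  [0x754ea, 0x240004c, 0xa800000090f],
  [0x754ea, 0x240004c, 0xa800000090f],
  [0x754ea, 0x240004c, 0xa800000090f],
  [0x754ea, 0x240004c, 0xa800000090f],
  [],
  [0x7fdfe, 0xc000000000000, 0x8a84800090f],
  [0x7fdfe, 0xc000000000000, 0x8a84800090f],
  [0x754ea, 0x240004c, 0xa800000090f],
  [0x754ea, 0x240004c, 0xa800000090f],
  [0x754ea, 0x240004c, 0xa800000090f],
  [0x754ea, 0x240004c, 0xa800000090f],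
  [],
  [],
  [0x7fdfe, 0xc000000000000, 0x8a84800090f],
  [0x7fdfe, 0xc000000000000, 0x8a84800090f],
  [0x754ea, 0x240004c, 0xa800000090f],
  [0x754ea, 0x240004c, 0xa800000090f],
  [0x1ff7fedfe, 0xc000000000000, 0x31048a80800000f],
  [0x754ea, 0x240004c, 0xa800000090f],
  [0x1fd2af554, 0x110000200004c, 0x1800a800000000f]]
  (by decide +kernel)

theorem free_11_2048_8192 : Free 11 2048 8192 := free_of_chk tabOK
  [[],
  [],
  [0x754ea, 0x240004c, 0xa800000090f],
  [0x754ea, 0x240004c, 0xa800000090f],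
  [0x754ea, 0x240004c, 0xa800000090f],
  [0x754ea, 0x240004c, 0xa800000090f],
  [],
  [0x754ea, 0x240004c, 0xa800000090f],
  [0x754ea, 0x240004c, 0xa800000090f],
  [0x754ea, 0x240004c, 0xa800000090f],
  [0x754ea, 0x240004c, 0xa800000090f],
  [0x754ea, 0x240004c, 0x8880000090f],
  [0x754ea, 0x240004c, 0x8880000090f]]
  (by decide +kernel)

theorem free_11_2048_10240 : Free 11 2048 10240 := free_of_chk tabOK
  [[],
  [],
  [0x754ea, 0x240004c, 0xa800000090f],
  [0x754ea, 0x240004c, 0xa800000090f],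
  [0x754ea, 0x240004c, 0xa800000090f],
  [0x754ea, 0x240004c, 0xa800000090f],
  [],
  [0x754ea, 0x240004c, 0xa800000090f],
  [0x1fd2af554, 0x110000000004c, 0x1800a800000000f],
  [0x3aaf554, 0x110000000004c, 0xa800000090f],
  [0x1fd2af554, 0x110000000004c, 0x1800a800000000f],
  [0x3aaf554, 0x110000000004c, 0xa800000090f],
  [0x1fd2af554, 0x110000000004c, 0x1800a800000000f]]
  (by decide +kernel)

theorem free_11_0_12288 : Free 11 0 12288 := free_of_chk tabOK
  [[],
  [0],
  [0],
  [],
  [0x1ff7fedfe, 0xc000000000000, 0x31048a84800080f],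
  [0xee9dd3a5fe, 0x4c000000000000, 0x31048a80000090f],
  [0x1fd2af554, 0x110000240004c, 0x1800a800000000f],
  [0x3fa55ee, 0x110000000004c, 0x31048a80000080f],
  [],
  [0x77749dd3a5fe, 0x4c000000000000, 0x31048a80000000f],
  [0x77749dd3a5fe, 0x4c000000000000, 0x31048a80000000f],
  [0x77749dd3a5fe, 0x4c000000000000, 0x31048a80000000f],
  [0x77749dd3a5fe, 0x4c000000000000, 0x31048a80000000f]]
  (by decide +kernel)

theorem free_11_0_14336 : Free 11 0 14336 := free_of_chk tabOK
  [[],
  [0],
  [0],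
  [],
  [0x77749dd3a5fe, 0x4c000000000000, 0x31048a80000000f],
  [0],
  [0x77749dd3a5fe, 0x4c000000000000, 0x31048a80000000f],
  [0x66666442171110c8853332, 0x10d100000000000, 0x12848000015, 0x2c10800000014, 0x31048a80000000f],
  [],
  [0],
  [0],
  [0x75549553a5fe, 0x30d101400000000, 0x31048a80000000f],
  [0x75549552a5fe, 0x30d101400000000, 0x31048a80000000f]]
  (by decide +kernel)

theorem free_11_2048_12288 : Free 11 2048 12288 := free_of_chk tabOK
  [[],
  [0x7ff4957bea94, 0x110000000004c, 0x1800a800000000f],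
  [0x7ff4957bea94, 0x110000200004c, 0x1800a800000000f],
  [0x5294a49bdc94a537bdc, 0x4c, 0x260000000001b, 0x20091a, 0x1800a800000080f, 0x409800e],
  [0x7ff4957bea94, 0x110000000004c, 0x1800a800000000f]]
  (by decide +kernel)

theorem free_11_2048_14336 : Free 11 2048 14336 := free_of_chk tabOK
  [[],
  [0x1fffd24abdfd5294, 0x110000000004c, 0x1800a800000000f],
  [],
  [0x333332e74bbcca53332, 0xd100000000000, 0x12848000015, 0x10c08800000014, 0x31048a80000000f],
  [0xc30c308e39942cb30c2850c30c2, 0xd101400000000, 0x2412800000019, 0x10c00000090018, 0x12848000015, 0x2c10800000014, 0x31048a80000000f],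
  [0x1ffd255ee, 0x110000000004c, 0x31048a80000000f],
  [0x1999971084453232, 0x110140000004c, 0x1040a800000019, 0x10c00000090018, 0x31048a80000000f],
  [0x5b6dd55b4dd6edab4, 0x100000000004c, 0x1800a800000000f, 0x980000000e],
  [0x5b6db75556d375b76d5ab4, 0x100000000004c, 0x1800a800000000f, 0x980000000e]]
  (by decide +kernel)

theorem free_12_4096_8192 : Free 12 4096 8192 := free_of_chk tabOK
  [[],
  [],
  [0x754ea, 0x240004c, 0x8880000090f],
  [0x754ea, 0x240004c, 0x8880000090f],
  [0x754ea, 0x240004c, 0x8880000090f],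
  [0x755ea, 0x100000200004c, 0x8880000090f],
  [],
  [0x3aaf554, 0x110000000004c, 0x20008880000080f],
  [0x1fd2af554, 0x110000000004c, 0x1800a800000000f],
  [0x4cf74667a, 0x4c, 0x800a800000080f, 0x409000e, 0x4090005],
  [0x1fd2af554, 0x110000000004c, 0x1800a800000000f],
  [],
  [0x755ea, 0x110000000004c, 0x8880000090f],
  [0x5db4dda, 0x100000000004c, 0x30008880000000f, 0x409000e],
  [0x755ea, 0x110000000004c, 0x30008880000000f],
  [0x5db4dda, 0x100000000004c, 0x30008880000000f, 0x409000e],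
  [0x5b6449364d24, 0x110000000004c, 0x30008880000000f, 0x409000e]]
  (by decide +kernel)

theorem free_12_4096_12288 : Free 12 4096 12288 := free_of_chk tabOK
  [[],
  [],
  [0x5b6449366d24, 0x110000000004c, 0x1800a800000000f, 0x409000e],
  [0x7ff4957bea94, 0x110000000004c, 0x1800a800000000f],
  [0x5b756d376db4, 0x100000000004c, 0x1800a800000000f, 0x980000000e],
  [0x5294a529249bdc94a537bdc, 0x4c, 0x260000000001b, 0x20091a, 0x1800a800000000f, 0x980000000e],
  [],
  [0x5b6dd55b4dd6edab4, 0x100000000004c, 0x1800a800000000f, 0x980000000e],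
  [0x5294a5375c9bdc94a529bdeebdc, 0x4c, 0x260000000001b, 0x20091a, 0x1800a800000000f, 0x980000000e],
  [0x5b6dd55b4dd6edab4, 0x100000000004c, 0x1800a800000000f, 0x980000000e],
  [0x5b6dd55b4dd6edab4, 0x100000000004c, 0x1800a800000000f, 0x980000000e],
  [0x5294a5295c9bdc94a6f7bdc, 0x4c, 0x260000000001b, 0x20091a, 0x30008880000000f, 0x980000000e],
  [0x16db6ed555b4dd6ed376adab4, 0x100000000004c, 0x1800a800000000f, 0x980000000e]]
  (by decide +kernel)

theorem free_13_8192_0 : Free 13 8192 0 := free_of_chk tabOK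
  [[],
  [],
  [0x755ea, 0x12000000004c, 0x8880000280f],
  [0x755ea, 0x12000000004c, 0x8880000280f],
  [0x7d5ea, 0x12000000004c, 0x18008880000000f],
  [0x755ea, 0x12000000004c, 0x18008880000000f],
  [],
  [0x755ea, 0x12000000004c, 0x18008880000000f],
  [0x755ea, 0x110000000004c, 0x30008880000000f],
  [0x755ea, 0x12000000004c, 0x18008880000000f],
  [0x5db4dda, 0x2000000004c, 0x18008880000000f, 0x980000000e],
  [0x16db6ed53b68edab55da6ebb4db6b4ddaed5a6ed3b45a, 0x2000000004c, 0x98000000020000f, 0x980000000e],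
  [],
  [0x7d5ea, 0x12000000004c, 0x18008880000000f],
  [0x5db4dda, 0x2000000004c, 0x18008880000000f, 0x980000000e],
  [0x7d5ea, 0x12000000004c, 0x18008880000000f],
  [0x5db4dda, 0x2000000004c, 0x18008880000000f, 0x980000000e]]
  (by decide +kernel)

theorem free_13_8192_8192 : Free 13 8192 8192 := free_of_chk tabOK
  [[],
  [],
  [0x16dd5b4dda, 0x100000000004c, 0x30008880000000f, 0x980000000e],
  [0x5b756d376db4, 0x100000000004c, 0x30008880000000f, 0x980000000e],
  [0x16dd5b4dda, 0x100000000004c, 0x30008880000000f, 0x980000000e],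
  [0x5b756d376db4, 0x100000000004c, 0x30008880000000f, 0x980000000e],
  [],
  [0x266666631ee8ccf7774, 0x4c, 0x30008880000000f, 0x980000000e, 0x4090005],
  [0x5294a5375c9bdc94a5294dd7bdeebdc, 0x4c, 0x260000000001b, 0x20891a, 0x1800a800000000f, 0x980000000e],
  [0x266666631ee8ccf7774, 0x4c, 0x30008880000000f, 0x980000000e, 0x4090005],
  [0x98999e843ba333333d6eeeb74, 0x44000000000044, 0x1800a800000000f, 0x980000000e, 0x6090005],
  [],
  [0x16db5b4dda, 0x2000000004c, 0x18008880000000f, 0x980000000e],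
  [0x99998f74667a, 0x4c, 0x30008880000000f, 0x980000000e, 0x144410005],
  [0x5db4dda, 0x2000000004c, 0x18008880000000f, 0x980000000e],
  [0x99998f7467ba, 0x4c, 0x18008880000000f, 0x980000000e, 0x8804000005],
  [],
  [0x133331ee8ccf7774, 0x4c, 0x30008880000000f, 0x980000000e, 0x4090005],
  [0x5214a529041bdc94e6f7bdc, 0x44000000000244, 0x260000000001b, 0x18000000020001a, 0x30008880000000f, 0x980000000e],
  [0x133331ee8cf77774, 0x4c, 0x30008880000000f, 0x980000000e, 0x8804000005],
  [0x262626610ee8cf77774, 0x44000000000044, 0x30008880000000f, 0x980000000e, 0x8804010005]]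
  (by decide +kernel)

theorem free_11_0_16384 : Free 11 0 16384 := free_of_chk tabOK
  [[],
  [0],
  [0],
  [0x3bbbba493be7cf9f2ffde, 0x20d101c00000000, 0x31048a80000000f],
  [0]]
  (by decide +kernel)

theorem free_11_0_18432 : Free 11 0 18432 := free_of_chk tabOK
  [[0]]
  (by decide +kernel)

theorem free_11_2048_16384 : Free 11 2048 16384 := free_of_chk tabOK
  [[],
  [0xa28a28a28a28a36ad5a346de6a28ad4515a8a2351446914514514514512289144, 0x20d100800000000, 0x2c1080000001c, 0x2c10800000014, 0x9800000012, 0x31048a80000000f, 0xa800000090d],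
  [0x48241209048241209071e816358d20481d9a048281204828120482812048281204412090482411048241209048241209044120882411048220904, 0x10d001000000000, 0x260000000001c, 0x260000000001b, 0x2412800000019, 0x2c10800000014, 0x9800000012, 0x31048a80000000f, 0x1284800000e, 0xa800000090d],
  [0x5b6db75556d36db76d5ab4, 0x100000000004c, 0x1800a800000000f, 0x980000000e],
  [0x5b6db6fd5555b4db6dfb6ad5ab4, 0x100000000004c, 0x72048880000000f, 0x980000000e]]
  (by decide +kernel)

theorem free_11_2048_18432 : Free 11 2048 18432 := free_of_chk tabOK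
  [[],
  [],
  [0],
  [0],
  [0x199994acaaa46666, 0x30d001000000000, 0x31048a80000000f, 0x980000000e, 0x980000000d],
  [0x199994acaaa46666, 0x30d001000000000, 0x31048a80000000f, 0x980000000e, 0x980000000d],
  [],
  [0],
  [0],
  [0x199994acaaa46666, 0x30d001000000000, 0x31048a80000000f, 0x980000000e, 0x980000000d],
  [0xc30c30a15e15d74224924924492, 0xb0c000800000000, 0x260000000001b, 0x2600000000016, 0x31048a80000000f, 0x980000000e, 0x980000000d],
  [0x448912244891227b91777711112244891111244442448912242448912244911244244848909121224, 0x10d000000000000, 0x260000000001b, 0x1040a800000019, 0x31048a80000000f, 0x1284800000e, 0xa800000090d, 0x2482400000000007],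
  [0x882208822088220e6398b3110220481204812044090240881082208822088220882208822088204110441104411044110547d1e2090240902204208821044108220841104, 0x30d000000000000, 0x260000000001b, 0x2412800000019, 0x2a000000000916, 0x9800000012, 0x9800000010, 0x31048a80000000f, 0x1284800000e, 0xa800000090d, 0x21a2000000000007]]
  (by decide +kernel)

theorem free_12_0_20480 : Free 12 0 20480 := free_of_chk tabOK
  [[],
  [0],
  [0],
  [],
  [0],
  [0],
  [0x11044110441cc731662cc68bcc441a2d9888220b310822088220882208822088220882208822088220e62010441104411044110441104411044104110547d1620d1620882a2c208821044108220841104, 0x30c000000000000, 0x260000000001b, 0x2412800000019, 0x2a000000000916, 0x9800000012, 0x9800000010, 0x31048a80000000f, 0x1284800000e, 0xa800000090d, 0x4300008800000007],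
  [0x4422110e6733c9725c9a3f24434751c422172421108844221108844221108844221cc808442211088442211084221108844221a394710d1c2110a8e21a3842210844210884, 0x300000000000048, 0x260000000001b, 0x2a000000000916, 0x9800000012, 0xa8000000910, 0x31048a80000000f, 0x1284800000e, 0xa800000090d, 0x21a2000000000007],
  [],
  [0],
  [0],
  [],
  [0],
  [0],
  [0x666666665828e8e8e8ec11090909090909090cc90cc821212121472147109088484, 0xb00000000000048, 0x260000000001b, 0x2a000000000916, 0x9800000012, 0xa8000000910, 0x31048a80000000f, 0x1284800000e, 0xa800000090d],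
  [0],
  [0]]
  (by decide +kernel)

theorem free_12_4096_16384 : Free 12 4096 16384 := free_of_chk tabOK
  [[],
  [0x5294a5294a6f75c9bdee5d7bdc94a5294a5294a425294dc94a6e4a5372529baf7baf75eebdc, 0x4c, 0x260000000001b, 0x20891a, 0x1800a800000080f, 0x1284800000e],
  [],
  [0x5b6db6fd5555b4db6dfb6ad5ab4, 0x100000000004c, 0x72048880000000f, 0x980000000e],
  [0x112244891224489ee44444444448910912244890912244891224244912244448889111222244, 0x100000000004c, 0x260000000001b, 0x1040a800000019, 0x72048880000000f, 0x1284800000e, 0xa800000090d, 0x2482400000000007],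
  [0x5294a5294def75d75d7bdc94a5294def75eebdc, 0x4c, 0x260000000001b, 0x20891a, 0x5a04a800000000f, 0x980000000e],
  [0x16db6dbf55556d36db6fd7b6ad5ab4, 0x100000000004c, 0x72048880000000f, 0x980000000e],
  [0x5b6db76d5334846936db36ed3769bb56d5ab4, 0x1800c0000004c, 0x1800a800000000f, 0x980000000e],
  [0x5214a5294a5294af75c94deebdee041b8494a5294a5294a5294a537025294dc94a6e4a6f72537baf7baf75eebdc, 0x4000000000004c, 0x260000000001b, 0x20891a, 0x1800a800000000f, 0x1284800000e]]
  (by decide +kernel)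

theorem free_10_4096_20480 : Free 10 4096 20480 := free_of_chk tabOK
  [[0x11022044088110398730e6166151310720e41c83907107081102204408811022044088110220440881102204408810081102204408811022042044088130660cc190720e30641c10260cc1d1b51b20e41c20483840881081102102204, 0x30c000000000000, 0x260000000001b, 0x20091a, 0x1040a800000019, 0x2600000000016, 0x9800000012, 0x9800000010, 0x31048a80000000f, 0x980000000e, 0xa800000090d, 0x2482400000000007]]
  (by decide +kernel)

theorem free_10_4096_21504 : Free 10 4096 21504 := free_of_chk tabOK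
  [[],
  [0x19999994120a0a08848484848442424242c68e8e82214120a090504, 0xa0100000000004c, 0x260000000001b, 0x2600000000016, 0x9800000012, 0x9800000010, 0x31048a80000000f, 0x1284800000e, 0xa800000090d],
  [0x333333332c147474747608848484848484848421212121472147109088484, 0xb00000000000048, 0x260000000001b, 0x2a000000000916, 0x9800000012, 0x9800000010, 0x31048a80000000f, 0x1284800000e, 0xa800000090d],
  [0xcccccca09050504424242424242428e8282214130b098584, 0xb0d000000000000, 0x260000000001b, 0x2600000000016, 0x9800000012, 0x9800000010, 0x31048a80000000f, 0x980000000e, 0xa800000090d],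
  [0x19999999920a0a08848484848442424242c68e8e822141109088484, 0xb01000000000048, 0x260000000001b, 0x2600000000016, 0x9800000012, 0x9800000010, 0x31048a80000000f, 0x1284800000e, 0xa800000090d]]
  (by decide +kernel)

theorem free_10_5120_20480 : Free 10 5120 20480 := free_of_chk tabOK
  [[0x122448912244891d69c9dadac9d3a71122448911122448912244448914e4e9d393a7274e4e9c, 0x80000000000004c, 0x260000000001b, 0x20091a, 0x1040a800000019, 0x72048880000000f, 0x1284800000e, 0xa800000090d]]
  (by decide +kernel)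

theorem free_10_5120_21504 : Free 10 5120 21504 := free_of_chk tabOK
  [[0x9033090330cc330cc380b014c2c0507c0440902409024090240902409024090240902409028d8081204812048120481102409024090240a0e8390741c20481204812050720e41d0741c83a0e2050710240881204, 0xa0000000000004c, 0x260000000001b, 0x20091a, 0x1040a800000019, 0x2a000000000916, 0x9800000012, 0x1800a8000000010, 0x31048a80000000f, 0x1284800000e, 0xa800000090d]]
  (by decide +kernel)

theorem free_10_4096_22528 : Free 10 4096 22528 := free_of_chk tabOK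
  [[],
  [0x666666665828e8e8e8ec11090909090909090cc90cc821212121472147109088484, 0xb00000000000048, 0x260000000001b, 0x2a000000000916, 0x9800000012, 0xa8000000910, 0x31048a80000000f, 0x1284800000e, 0xa800000090d],
  [0x44221cce65c9a3f242110884422110884422110e64084422110d1c42210844210884, 0x300000000000048, 0x260000000001b, 0x1aa000000000016, 0x9800000012, 0xa8000000910, 0x31048a80000000f, 0x1284800000e, 0xa800000090d, 0x21a2000000000007],
  [0x333333332c147474747608848484848484848421212121472147109088484, 0xb00000000000048, 0x260000000001b, 0x2a000000000916, 0x9800000012, 0x9800000010, 0x31048a80000000f, 0x1284800000e, 0xa800000090d],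
  [0xccccccccb051f051d1d8221212121212121219921999921c1021212121472147109088484, 0xb00000000000048, 0x260000000001b, 0x2a000000000916, 0x9800000012, 0x9800000010, 0x31048a80000000f, 0x1284800000e, 0x1800a800000000d]]
  (by decide +kernel)

theorem free_10_4096_23552 : Free 10 4096 23552 := free_of_chk tabOK
  [[0x44221cce65c9a3d1c422172421108844221108844221108873221108844399a3d1cccf2793c900844221108844221108422151e8f47a3a8e21a3842210844210884, 0x300000000000048, 0x260000000001b, 0x2a000000000916, 0x9800000012, 0xa8000000910, 0x31048a80000000f, 0x1284800000e, 0xa800000090d, 0x21a2000000000007]]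
  (by decide +kernel)

theorem free_10_5120_22528 : Free 10 5120 22528 := free_of_chk tabOK
  [[],
  [0x19999994120a0a08848484848442424242c68e8e822141109088484, 0xb01000000000048, 0x260000000001b, 0x2600000000016, 0x9800000012, 0x9800000010, 0x31048a80000000f, 0x1040a80000000e, 0xa800000090d],
  [0x6633198cc58143e04412090482412090482104824120a2c82871048220904, 0xb00000000000048, 0x260000000001b, 0x20091a, 0x2a000000000916, 0x9800000012, 0x9800000010, 0x31048a80000000f, 0x1284800000e, 0xa800000090d],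
  [0xcccccca09050504424242424242428e8282214130b098584, 0xb01000000000048, 0x260000000001b, 0x2600000000016, 0x9800000012, 0x9800000010, 0x31048a80000000f, 0x980000000e, 0xa800000090d],
  [0x19999994120a0a08848484848442424242c68e8e822141109088484, 0xb01000000000048, 0x260000000001b, 0x2600000000016, 0x9800000012, 0x9800000010, 0x31048a80000000f, 0x1040a80000000e, 0xa800000090d]]
  (by decide +kernel)

theorem free_10_5120_23552 : Free 10 5120 23552 := free_of_chk tabOK
  [[],
  [0xccccccccb051f051d1d8221212121212121219921999921c1021212121472147109088484, 0xb00000000000048, 0x260000000001b, 0x2a000000000916, 0x9800000012, 0x9800000010, 0x31048a80000000f, 0x1284800000e, 0x1800a800000000d],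
  [0x667051f051d1d8221212121212121219921999921c1021212121472147109088484, 0xb00000000000048, 0x260000000001b, 0x2a000000000916, 0x9800000012, 0x9800000010, 0x31048a80000000f, 0x1284800000e, 0x1800a800000000d],
  [0x19999994120a0a08848484848484848421212121472141109088484, 0xb01000000000048, 0x260000000001b, 0x2a000000000916, 0x9800000012, 0x9800000010, 0x31048a80000000f, 0x1040a80000000e, 0xa800000090d],
  [0xccccccccb051f051d1d8221212121212121219921999921c1021212121472147109088484, 0xb00000000000048, 0x260000000001b, 0x2a000000000916, 0x9800000012, 0x9800000010, 0x31048a80000000f, 0x1284800000e, 0x1800a800000000d]]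
  (by decide +kernel)

theorem free_11_6144_20480 : Free 11 6144 20480 := free_of_chk tabOK
  [[],
  [0x5b6db6fd5555b4db6cdb6fd3b6ad5ab4, 0x100000000004c, 0x5a04a800000000f, 0x980000000e],
  [0x142850a142850a1b71d1d1d1d1e3c72142850a1428508850a142850a1428508850a18e8f1e3a3c7478e8f1c, 0x80000000000004c, 0x260000000001b, 0x20891a, 0x1040a800000019, 0x2a000000000916, 0x72048880000000f, 0xb84800000e],
  [0x5294a5294a6f75d75d7bdc94a5294def75eebdc, 0x4c, 0x260000000001b, 0x20891a, 0x5a04a800000000f, 0x980000000e],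
  [0x5294a5294a6f75d75d7bdc94a52925294a5375ef75eebdc, 0x4c, 0x260000000001b, 0x20891a, 0x5a04a800000000f, 0xb84800000e]]
  (by decide +kernel)

theorem free_10_6144_22528 : Free 10 6144 22528 := free_of_chk tabOK
  [[0x661986619866198661c0580a614c283e02204812048120481204812048120481204812048146c040902409024090240902409024088120420481204812050710283a0e8384090283a0e41d0741c83a0e2050710240881204, 0xa0000000000004c, 0x260000000001b, 0x20891a, 0x1040a800000019, 0x2a000000000916, 0x9800000012, 0x1800a8000000010, 0x31048a80000000f, 0x1040a80000000e, 0x1800a800000000d]]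
  (by decide +kernel)

theorem free_10_6144_23552 : Free 10 6144 23552 := free_of_chk tabOK
  [[],
  [0x19999999920a0a08848484848442424242c68e8e822141109088484, 0xb01000000000048, 0x260000000001b, 0x2600000000016, 0x9800000012, 0x9800000010, 0x31048a80000000f, 0x1040a80000000e, 0xa800000090d],
  [0x19999999920a0a08848484848484848421212121472141109088484, 0xb01000000000048, 0x260000000001b, 0x2a000000000916, 0x9800000012, 0x9800000010, 0x31048a80000000f, 0x1040a80000000e, 0xa800000090d],
  [0x19921994120a0a08848484848484848484428e8282634120a090504, 0xa0100000000004c, 0x260000000001b, 0x2600000000016, 0x9800000012, 0x9800000010, 0x72048880000000f, 0x980000000e, 0xa800000090d],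
  [0x3324333329941411090909090884848484848484c68e8e822141109088484, 0xb01000000000048, 0x260000000001b, 0x2600000000016, 0x9800000012, 0x9800000010, 0x31048a80000000f, 0x1040a80000000e, 0xa800000090d]]
  (by decide +kernel)

theorem free_10_7168_22528 : Free 10 7168 22528 := free_of_chk tabOK
  [[0x5294a5294a6f75d75d7bdc94a5294a5225294a5372529baf7baf75eebdc, 0x4c, 0x260000000001b, 0x20891a, 0x72048880000000f, 0x1040b80000000e]]
  (by decide +kernel)

theorem free_10_7168_23552 : Free 10 7168 23552 := free_of_chk tabOK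
  [[0x1a206881a3870e16101014e04448912244891224489122448e122ac044891224489122448a7114e1122448914e4e4e9d393a7274e4e9c, 0xa4000000000004c, 0x260000000001b, 0x20891a, 0x48a400000000016, 0x72048880000000f, 0x62048880000000e, 0x1800a800000000d]]
  (by decide +kernel)

theorem free_12_0_24576 : Free 12 0 24576 := free_of_chk tabOK
  [[0]]
  (by decide +kernel)

theorem free_12_0_28672 : Free 12 0 28672 := free_of_chk tabOK
  [[0]]
  (by decide +kernel)

theorem free_11_4096_24576 : Free 11 4096 24576 := free_of_chk tabOK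
  [[],
  [],
  [0],
  [0],
  [0x733c9a3f242110884422110884422110e64084422110d1c42210844210884, 0x300000000000048, 0x260000000001b, 0xa600000000916, 0x9800000012, 0xa8000000910, 0x31048a80000000f, 0x241280000000e, 0x30008880000000d, 0x21a2000000000007],
  [0x199c147c11090909090909090cc90cc821212121472147109088484, 0xb00000000000048, 0x260000000001b, 0x1aa000000000016, 0x9800000012, 0x89800000910, 0x31048a80000000f, 0x241280000000e, 0x30008880000000d],
  [],
  [0],
  [0],
  [0],
  [0],
  [0x44221cce6599a3d3c434766421108844221108844221108873221108869ea780844221108844221108868e2110842210422153e9f47a3a9f47a388442a384221a3884420844210884, 0x300000000000048, 0x260000000001b, 0x1a2830000000016, 0x9800000012, 0x9800000010, 0x31048a80000000f, 0x60249080000000e, 0xa800000090d, 0x21a2000000000007],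
  [0x44399cce6599a3d3c434753c21108844221108844221108873221cc8844221108869ea7a9ecc8084422110884434fa7d3c21a38422151c43470844210884, 0x300000000000048, 0x260000000001b, 0x1aa000000000016, 0x9800000012, 0x300088800000010, 0x31048a80000000f, 0x60009084800000e, 0xa800000090d, 0x21a2000000000007]]
  (by decide +kernel)

theorem free_11_4096_26624 : Free 11 4096 26624 := free_of_chk tabOK
  [[],
  [0],
  [0],
  [],
  [0x199c147471090909090909090cc90cc821212121472147109088484, 0xb00000000000048, 0x260000000001b, 0x1aa000000000016, 0x9800000012, 0x300088800000010, 0x31048a80000000f, 0x241280000000e, 0x30008880000000d],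
  [0],
  [0x1999947471090909090909090cc90cc821212121472147109088484, 0xb00000000000048, 0x260000000001b, 0x1aa000000000016, 0x9800000012, 0x300088800000010, 0x31048a80000000f, 0x241280000000e, 0x30008880000000d],
  [0x1999947471090909090909090cc90cc821212121472147109088484, 0xb00000000000048, 0x260000000001b, 0x1aa000000000016, 0x9800000012, 0x300088800000010, 0x31048a80000000f, 0x241280000000e, 0x30008880000000d],
  [],
  [0],
  [0],
  [0x1999947471090909090909090cc90cc821212121472147109088484, 0xb00000000000048, 0x260000000001b, 0x1aa000000000016, 0x9800000012, 0x300088800000010, 0x31048a80000000f, 0x241280000000e, 0x30008880000000d],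
  [0]]
  (by decide +kernel)

theorem free_10_6144_24576 : Free 10 6144 24576 := free_of_chk tabOK
  [[],
  [0x33332828221212121212121219921999921c1021212121472141109088484, 0xb01000000000048, 0x260000000001b, 0x48a400000000016, 0x9800000012, 0x9800000010, 0x31048a80000000f, 0x1040a80000000e, 0x1800a800000000d],
  [0x667051f051d1d8221212121212121219921999921c1021212121472147109088484, 0xb00000000000048, 0x260000000001b, 0x48a400000000016, 0x9800000012, 0x9800000010, 0x31048a80000000f, 0x1284800000e, 0x1800a800000000d],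
  [0x3324333329941411090909090909090842424242424242472141109088484, 0xb01000000000048, 0x260000000001b, 0x48a400000000016, 0x9800000012, 0x9800000010, 0x31048a80000000f, 0x1040a80000000e, 0xa800000090d],
  [0x6666505044242424242424243324333324382042424242424242472141109088484, 0xb01000000000048, 0x260000000001b, 0x48a400000000016, 0x9800000012, 0x9800000010, 0x31048a80000000f, 0x1040a80000000e, 0x1800a800000000d]]
  (by decide +kernel)

theorem free_10_6144_25600 : Free 10 6144 25600 := free_of_chk tabOK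
  [[],
  [0x333328f82212121212121212199219999a9c1021212121472147109088484, 0xb00000000000048, 0x260000000001b, 0x48a400000000016, 0x9800000012, 0x9800000010, 0x31048a80000000f, 0x1040a80000000e, 0x1800a800000000d],
  [0x1999947c11090909090909090cc90cc821212121472147109088484, 0xb00000000000048, 0x260000000001b, 0x48a400000000016, 0x9800000012, 0x1800a8000000010, 0x31048a80000000f, 0x1040a80000000e, 0x1800a800000000d],
  [0xcccca3e0a3a3b044242424242424243324333324382042424242424242472147109088484, 0xb00000000000048, 0x260000000001b, 0x48a400000000016, 0x9800000012, 0x9800000010, 0x31048a80000000f, 0x1040a80000000e, 0x1800a800000000d],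
  [0x1999947c11090909090909090cc90cc821212121472147109088484, 0xb00000000000048, 0x260000000001b, 0x48a400000000016, 0x9800000012, 0x1800a8000000010, 0x31048a80000000f, 0x1040a80000000e, 0x1800a800000000d]]
  (by decide +kernel)

theorem free_10_7168_24576 : Free 10 7168 24576 := free_of_chk tabOK
  [[],
  [0x33243333299414110909090908848484848484848e8e8e822141109088484, 0xb01000000000048, 0x260000000001b, 0x48a400000000016, 0x9800000012, 0x9800000010, 0x31048a80000000f, 0x1040a80000000e, 0xa800000090d],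
  [0x199994141109090909090909084242424242424247214110a088484, 0xb01000000000048, 0x260000000001b, 0x48a400000000016, 0x9800000012, 0x9800000010, 0x31048a80000000f, 0x1040a80000000e, 0xa800000090d],
  [0x19921994120a0a08848484848484848484428e8282634110a098584, 0xb01000000000048, 0x260000000001b, 0x2600000000016, 0x9800000012, 0x9800000010, 0x31048a80000000f, 0x980000000e, 0xa800000090d],
  [0x33243333299414110909090908848484848484848e8e8e82214110a088484, 0xb01000000000048, 0x260000000001b, 0x48a400000000016, 0x9800000012, 0x9800000010, 0x31048a80000000f, 0x1040a80000000e, 0xa800000090d]]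
  (by decide +kernel)

theorem free_10_7168_25600 : Free 10 7168 25600 := free_of_chk tabOK
  [[],
  [0x6666505044242424242424243324353328f8204242424242424247214110a088484, 0xb01000000000048, 0x260000000001b, 0x48a400000000016, 0x9800000012, 0x9800000010, 0x31048a80000000f, 0x1040a80000000e, 0x1800a800000000d],
  [0x6666505044242424242424243324333328f8204242424242424247214110a088484, 0xb01000000000048, 0x260000000001b, 0x48a400000000016, 0x9800000012, 0x9800000010, 0x31048a80000000f, 0x1040a80000000e, 0x1800a800000000d],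
  [0x199994141109090909090909084242424242424247214110a088484, 0xb01000000000048, 0x260000000001b, 0x48a400000000016, 0x9800000012, 0x9800000010, 0x31048a80000000f, 0x1040a80000000e, 0x1800a800000000d],
  [0x333328282212121212121212199214704242424242424247214110a088484, 0xb01000000000048, 0x260000000001b, 0x282c30000000016, 0x9800000012, 0x9800000010, 0x31048a80000000f, 0x62048880000000e, 0x1800a800000000d]]
  (by decide +kernel)

theorem free_10_6144_26624 : Free 10 6144 26624 := free_of_chk tabOK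
  [[0x44399cce6599a3d3c434f53c21108844221108844221108873221e4d3e9ee480844221108868e21a388442a384221a38844251c43470844210884, 0x300000000000048, 0x260000000001b, 0x1aa000000000016, 0x9800000012, 0x9800000010, 0x31048a80000000f, 0x60249080000000e, 0xa800000090d, 0x21a2000000000007]]
  (by decide +kernel)

theorem free_10_6144_27648 : Free 10 6144 27648 := free_of_chk tabOK
  [[0x44399cce6599a3d3c2110884422110884422110884422110884422110d3c6673399ccd3f32cc808442211088442210844221a7a9f47a38422151c43470844210884, 0x300000000000048, 0x260000000001b, 0x1aa000000000016, 0x9800000012, 0x300088800000010, 0x31048a80000000f, 0x60249080000000e, 0x30008880000000d, 0x21a2000000000007]]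
  (by decide +kernel)

theorem free_10_7168_26624 : Free 10 7168 26624 := free_of_chk tabOK
  [[],
  [0x333328f8221212121212121219921990424242428e428e472147109088484, 0xb00000000000048, 0x260000000001b, 0x48a400000000016, 0x9800000012, 0x1800a8000000010, 0x31048a80000000f, 0x1040a80000000e, 0x1800a800000000d],
  [0x333328e8e21212121212121219921990424242428e428e472147109088484, 0xb00000000000048, 0x260000000001b, 0x48a400000000016, 0x9800000012, 0x1800a8000000010, 0x31048a80000000f, 0x1040a80000000e, 0x1800a800000000d],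
  [0x333328282212121212121212199214704242424242424247214110a088484, 0xb01000000000048, 0x260000000001b, 0x48a400000000016, 0x9800000012, 0x9800000010, 0x31048a80000000f, 0x62048880000000e, 0x1800a800000000d],
  [0x333328e8e21212121212121219921990424242428e428e472147109088484, 0xb00000000000048, 0x260000000001b, 0x48a400000000016, 0x9800000012, 0x1800a8000000010, 0x31048a80000000f, 0x1040a80000000e, 0x1800a800000000d]]
  (by decide +kernel)

end Pool.Agent.P.MP_862e21_al
end

-- part Pool.Agent.P.MP_862e21_al.OCDat2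
section

namespace Pool.Agent.P.MP_862e21_al

theorem free_10_7168_27648 : Free 10 7168 27648 := free_of_chk tabOK
  [[0xcccccccca651d1d1d1c8e21212121212121219921a99947c902121212121472147214723884851c8484472147109088484, 0xb00000000000048, 0x260000000001b, 0x48a400000000016, 0x9800000012, 0x9800000010, 0x31048a80000000f, 0x62048880000000e, 0x1800a800000000d]]
  (by decide +kernel)

theorem free_12_4096_28672 : Free 12 4096 28672 := free_of_chk tabOK
  [[],
  [0],
  [0],
  [],
  [0x73399a3d1c2110884422110884439910884422110884439910d1e8f4751c6673399a3d1e8ea3808442211088442210868e21a3a8e21a38422151c43470844210884, 0x300000000000048, 0x260000000001b, 0x1aa000000000016, 0x9800000012, 0x300088800000010, 0x31048a80000000f, 0x241280000000e, 0x33000a80000000d, 0x21a2000000000007],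
  [],
  [0],
  [0],
  [0x19999474710909090909090cccc90cc82121212147474710a388484, 0xb00000000000048, 0x260000000001b, 0x1aa000000000016, 0x9800000012, 0x300088800000010, 0x31048a80000000f, 0x241280000000e, 0x30008880000000d],
  [0],
  [0x73399a3d3e8f4f53c21108844221108844221108844221108869e667334fcc8084422110884422151c434751c43470844210884, 0x300000000000048, 0x260000000001b, 0x1aa000000000016, 0x9800000012, 0x300088800000010, 0x31048a80000000f, 0x60249080000000e, 0x30008880000000d, 0x21a2000000000007],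
  [0x333328e8e8e8e471090909090909090cc90cc9090cc90a39320848484848484848e428e472147109088484, 0xb00000000000048, 0x260000000001b, 0x1aa000000000016, 0x9800000012, 0x300088800000010, 0x31048a80000000f, 0x241280000000e, 0x30008880000000d],
  [],
  [0],
  [0],
  [0x666651d1d1d1c8e212121212121212199219921999921c14747609320848484851c851c8e428e472147109088484, 0xb00000000000048, 0x260000000001b, 0x1aa000000000016, 0x9800000012, 0x300088800000010, 0x31048a80000000f, 0x241280000000e, 0x30008880000000d],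
  [],
  [0],
  [0],
  [0x666651d1c4242424243324332109090a390a388484, 0xb00000000000048, 0x260000000001b, 0x1aa000000000016, 0x9800000012, 0x300088800000010, 0x31048a80000000f, 0x241280000000e, 0x30008880000000d],
  [0]]
  (by decide +kernel)

theorem free_12_8192_16384 : Free 12 8192 16384 := free_of_chk tabOK
  [[],
  [0x5214a5294dd7041b8494a52925294dc94a6ebdeebdc, 0x44000000000044, 0x260000000001b, 0x20891a, 0x1800a800000000f, 0x980000000e],
  [0x165b6dbb54cda11a4db6db636ed36e9bb56d5ab4, 0x4100000000004c, 0x1800a800000000f, 0x980000000e],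
  [0x165b6ed511a4df6ed376adab4, 0x45000000000244, 0x1800a800000000f, 0x980000000e],
  [0x5214a5294a5375c90dee041b8494a52925294dc94a6ebdef75eebdc, 0x4000000000004c, 0x260000000001b, 0x20891a, 0x1800a800000000f, 0x980000000e]]
  (by decide +kernel)

theorem free_11_8192_20480 : Free 11 8192 20480 := free_of_chk tabOK
  [[0x5214a5294a5294dc4a537b9294dd7bdd75c94dee0dee041b8494a5294a5294a5294a5294dd7025294dc94a6e4a529baf726f7baf7baf75eebdc, 0x4000000000004c, 0x260000000001b, 0x20891a, 0x1800a800000000f, 0x1284800000e]]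
  (by decide +kernel)

theorem free_11_8192_22528 : Free 11 8192 22528 := free_of_chk tabOK
  [[],
  [0x5294a5294a6f75d75d7bdc94a52925294a524a5375ef75eebdc, 0x4c, 0x260000000001b, 0x20891a, 0x5a04a800000000f, 0x1040b80000000e],
  [0x9090909090e5ada391c8ec7474710909090909090909090908212121212121109090a388484851c8e8e8e474723a391d1c, 0x80000000000004c, 0x260000000001b, 0x20891a, 0x1040a800000019, 0x282c30000000016, 0x5a04a800000000f, 0x62048980000000e, 0x430000000009000d],
  [0x16db6dbb55556d36db36dbe6fd7b6ad5ab4, 0x100000000004c, 0x5a04a800000000f, 0x980000000e],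
  [0x5294a5294a6f75d75d7bdc94a52925294a524a53725294af7baf75eebdc, 0x4c, 0x260000000001b, 0x20891a, 0x5a04a800000000f, 0x1040b80000000e]]
  (by decide +kernel)

theorem free_11_10240_20480 : Free 11 10240 20480 := free_of_chk tabOK
  [[0x5214a5294a6f75c90a6e0dc2041b8494a5294a5294a5294825294dc94a6e4a6f75ef75eebdc, 0x4000000000004c, 0x260000000001b, 0x20891a, 0x1800a800000000f, 0x980000000e]]
  (by decide +kernel)

theorem free_11_10240_22528 : Free 11 10240 22528 := free_of_chk tabOK
  [[],
  [0x5b6db6ed5555b4db6dfe76d5ab4, 0x100000000004c, 0x5a04a800000000f, 0x980000000e],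
  [0x266666666aa5494aaa3333319999b8cdd4aaaa552a954, 0x180080000004c, 0x5a04a800000000f, 0x980000000e, 0x1800a800000000d],
  [0x16db6ed555b4db6dba76d5ab4, 0x100000000004c, 0x5a04a800000000f, 0x62048980000000e],
  [0x16db6ed555b4db6db676d5ab4, 0x100000000004c, 0x5a04a800000000f, 0x1040b80000000e]]
  (by decide +kernel)

theorem free_12_12288_16384 : Free 12 12288 16384 := free_of_chk tabOK
  [[],
  [0x98999e843a2337333d6eeeb74, 0x44000000000244, 0x1800a800000000f, 0x980000000e, 0x6090005],
  [0x165b6dd334846936db36ed376adab4, 0x4100000000004c, 0x1800a800000000f, 0x980000000e],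
  [0x52148537041b8494c5298dd7bdee8c4, 0x44000000400044, 0x260000000001b, 0x8000000020881a, 0x1800a800000000f, 0x980000000e],
  [0x165b6dd334846936db36ed7f6adab4, 0x4100000000004c, 0x5a04a800000000f, 0x980000000e]]
  (by decide +kernel)

theorem free_12_12288_20480 : Free 12 12288 20480 := free_of_chk tabOK
  [[],
  [0x165b6dbb54cd211a4db6db636ed36e9db56d5ab4, 0x4100000000004c, 0x1800a800000000f, 0x980000000e],
  [0x2424242424242424242212121214710a3a3a391c42428e8e47474727d1d1d1c9f23a3a38848484848484848484848484848484851c0424242428e21212121214710a3a3a38424242428e21214747238851d1d1c8e8e8e474723a391d1c, 0x80000004c, 0x260000000001b, 0x20891a, 0x9800000019, 0x1004c010018, 0x1800a800000000f, 0x980000000e, 0x1800a800000000d],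
  [0x165b6ddb54cd211a4db6cdbb4ddab6d5ab4, 0x4100000000004c, 0x5a04a800000000f, 0x980000000e],
  [0x90240902409024090240a0e839074fe83a0e8393f90741d0710240902409024090240902409020812048141d0710240b06c1a0e8390710240a0e8390741d0720e8390741c, 0x4c, 0x260000000001b, 0x20891a, 0x9800000019, 0x8004010018, 0x980000000000012, 0x9800000010, 0x5a04a800000000f, 0x980000000e, 0x1800a800000000d]]
  (by decide +kernel)

theorem free_10_8192_24576 : Free 10 8192 24576 := free_of_chk tabOK
  [[0x6633198cc663814c53143e044120904824120904824120904824120e04828b01048241209048220904824143a1d0e104824120904824143841209050e438828b43a1d0e43a1c8743a1c874390e8721d0e43a1c, 0xa0000000000004c, 0x260000000001b, 0x20891a, 0x48a400000000016, 0x9800000012, 0x1800a8000000010, 0x72048880000000f, 0x1040a80000000e, 0x1800a800000000d]]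
  (by decide +kernel)

theorem free_10_8192_25600 : Free 10 8192 25600 := free_of_chk tabOK
  [[],
  [0x19999414110909090908848484848484848e8e8282214110a088484, 0xb01000000000048, 0x260000000001b, 0x48a400000000016, 0x9800000012, 0x9800000010, 0x31048a80000000f, 0x1040a80000000e, 0x1800a800000000d],
  [0x333328282212121212121212199212104242424242424247214110a088484, 0xb01000000000048, 0x260000000001b, 0x48a400000000016, 0x9800000012, 0x9800000010, 0x31048a80000000f, 0x1040a80000000e, 0x1800a800000000d],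
  [0xce4cf3a74511249249224924924924ca28a22511288924, 0xb01000000000048, 0x9800000012, 0x9800000010, 0x31048a80000000f, 0x1040a80000000e, 0xa800000090d],
  [0xcccca0a0884848484844242424242424247214110a088484, 0xb01000000000048, 0x260000000001b, 0x48a400000000016, 0x9800000012, 0x9800000010, 0x31048a80000000f, 0x1040a80000000e, 0x1800a800000000d]]
  (by decide +kernel)

theorem free_10_9216_24576 : Free 10 9216 24576 := free_of_chk tabOK
  [[0xd34d34e38e38af8b162c58af8892492492492492492492409249249244924ae2492572ebae5d72eb975c, 0xa0000000000004c, 0x260000000001b, 0x20891a, 0x5a04a800000000f, 0x62048980000000e, 0x1800a800000000d]]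
  (by decide +kernel)

theorem free_10_9216_25600 : Free 10 9216 25600 := free_of_chk tabOK
  [[0x6633198cc663314c53143e044120904824120904824120904824120e04828b010482412090482209048241209048241438824120a1c8721d0e104824120904824143841209050e209050e8721d0e870828743a1c8743a1c874390e8721d0e43a1c, 0xa0000000000004c, 0x260000000001b, 0x20891a, 0x48a400000000016, 0x9800000012, 0x1800a8000000010, 0x72048880000000f, 0x1040a80000000e, 0x1800a800000000d]]
  (by decide +kernel)

theorem free_10_8192_26624 : Free 10 8192 26624 := free_of_chk tabOK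
  [[],
  [0x333328282212121212121212199214704242424242424247214110a088484, 0xb01000000000048, 0x260000000001b, 0x48a400000000016, 0x9800000012, 0x9800000010, 0x31048a80000000f, 0x62048880000000e, 0x1800a800000000d],
  [0x33332828221212121212121219921990424242428e428e47214110a088484, 0xb01000000000048, 0x260000000001b, 0x48a400000000016, 0x9800000012, 0x1800a8000000010, 0x31048a80000000f, 0x1040a80000000e, 0x1800a800000000d],
  [0x333328282212121212121212199212104242424242424247214110a088484, 0xb01000000000048, 0x260000000001b, 0x48a400000000016, 0x9800000012, 0x9800000010, 0x31048a80000000f, 0x1040a80000000e, 0x1800a800000000d],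
  [0x333328282212121212121212199214704242424242424247214110a088484, 0xb01000000000048, 0x260000000001b, 0x48a400000000016, 0x9800000012, 0x9800000010, 0x31048a80000000f, 0x62048880000000e, 0x1800a800000000d]]
  (by decide +kernel)

theorem free_10_8192_27648 : Free 10 8192 27648 := free_of_chk tabOK
  [[],
  [0x333328e8e21212121212121219921990424242428e428e472147109088484, 0xb00000000000048, 0x260000000001b, 0x48a400000000016, 0x9800000012, 0x1800a8000000010, 0x31048a80000000f, 0x1040a80000000e, 0x1800a800000000d],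
  [0x333328e8e21212121212121219921990424242428e428e472147109088484, 0xb00000000000048, 0x260000000001b, 0x48a400000000016, 0x9800000012, 0x1800a8000000010, 0x31048a80000000f, 0x1040a80000000e, 0x1800a800000000d],
  [0x33332828221212121212121219921990424242428e428e47214110a088484, 0xb01000000000048, 0x260000000001b, 0x48a400000000016, 0x9800000012, 0x1800a8000000010, 0x31048a80000000f, 0x1040a80000000e, 0x1800a800000000d],
  [0x333328e8e21212121212121219921990424242428e428e472147109088484, 0xb00000000000048, 0x260000000001b, 0x48a400000000016, 0x9800000012, 0x1800a8000000010, 0x31048a80000000f, 0x1040a80000000e, 0x1800a800000000d]]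
  (by decide +kernel)

theorem free_10_9216_26624 : Free 10 9216 26624 := free_of_chk tabOK
  [[],
  [0x199994141109090909088484848484848484850447214110a088484, 0xb01000000000048, 0x260000000001b, 0x2600000000016, 0x9800000012, 0x9800000010, 0x31048a80000000f, 0x1040a80000000e, 0x1800a800000000d],
  [0x66665050442424242424242433242420848484848484851c850447214110a088484, 0xb01000000000048, 0x260000000001b, 0x48a400000000016, 0x9800000012, 0x9800000010, 0x31048a80000000f, 0x1040a80000000e, 0x1800a800000000d],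
  [0xcf3a2889249249124924924924a288ca28a22511288924, 0xb01000000000048, 0x9800000012, 0x9800000010, 0x31048a80000000f, 0x1040a80000000e, 0x1800a800000000d],
  [0x33332828221212121212121210848484848484851c850447214110a088484, 0xb01000000000048, 0x260000000001b, 0x2600000000016, 0x9800000012, 0x9800000010, 0x31048a80000000f, 0x1040a80000000e, 0x1800a800000000d]]
  (by decide +kernel)

theorem free_10_9216_27648 : Free 10 9216 27648 := free_of_chk tabOK
  [[],
  [0x666650504424242424242424332433208484848484851d1c851c47214110a090504, 0xa0100000000004c, 0x260000000001b, 0x48a400000000016, 0x9800000012, 0x1800a8000000010, 0x72048880000000f, 0x1040a80000000e, 0x1800a800000000d],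
  [0x33332828221212121212121219921990424242428e428e47214110a090504, 0xa0100000000004c, 0x260000000001b, 0x48a400000000016, 0x9800000012, 0x1800a8000000010, 0x72048880000000f, 0x1040a80000000e, 0x1800a800000000d],
  [0x666650504424242424242424332428e08484848484848484850447214110a090504, 0xa0100000000004c, 0x260000000001b, 0x48a400000000016, 0x9800000012, 0x9800000010, 0x72048880000000f, 0x62048880000000e, 0x1800a800000000d],
  [0x66665050442424242424242433243320848484851c851d1d1d0447214110a090504, 0xa0100000000004c, 0x260000000001b, 0x48a400000000016, 0x9800000012, 0x1800a8000000010, 0x72048880000000f, 0x1040a80000000e, 0x1800a800000000d]]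
  (by decide +kernel)

theorem free_11_10240_24576 : Free 11 10240 24576 := free_of_chk tabOK
  [[],
  [0x9999999aaa95294ac8cccccccc333333199a8d554aaa552a954, 0x180080000004c, 0x5a04a800000000f, 0x1040a80000000e, 0x1800a800000000d],
  [0x66666e755294ac8cccccccccccccf4d4066666633335550ccd4aaa551a8cc, 0xb01000800000048, 0x31048a80000000f, 0x1040a80000000e, 0x1800a800000000d],
  [0x133333335552a52959199998cccccc666a5552a954, 0x180080000004c, 0x5a04a800000000f, 0x1040a80000000e, 0x1800a800000000d],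
  [0xdcdd9c9aaa95294ac8cccccccc333333199a8d554aaa552a954, 0x20100080000004c, 0x5a04a800000000f, 0x1040a80000000e, 0x1800a800000000d]]
  (by decide +kernel)

theorem free_10_10240_26624 : Free 10 10240 26624 := free_of_chk tabOK
  [[0x3324333333332994ca0a08848484848484848484848664851f051d0404242424242422121212121212121410848505050442828282410848484850442424282828241209050504428282824110a088484, 0xb01000000000048, 0x260000000001b, 0x48a400000000016, 0x9800000012, 0x1800a8000000010, 0x31048a80000000f, 0x1040a80000000e, 0x1800a800000000d]]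
  (by decide +kernel)

theorem free_10_10240_27648 : Free 10 10240 27648 := free_of_chk tabOK
  [[],
  [0x33332828221212121212121210848484848484851d050447214110a090504, 0xa0100000000004c, 0x260000000001b, 0x2600000000016, 0x9800000012, 0x9800000010, 0x72048880000000f, 0x1040a80000000e, 0x1800a800000000d],
  [0x66665050442424242424242433243320848484848484851c850447214110a090504, 0xa0100000000004c, 0x260000000001b, 0x2600000000016, 0x9800000012, 0x1800a8000000010, 0x72048880000000f, 0x1040a80000000e, 0x1800a800000000d],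
  [0x199994141109090909088484848484848505050447214110a090504, 0xa0100000000004c, 0x260000000001b, 0x2600000000016, 0x9800000012, 0x9800000010, 0x72048880000000f, 0x1040a80000000e, 0x1800a800000000d],
  [0x333328282212121212121212108484848484848505050447214110a090504, 0xa0100000000004c, 0x260000000001b, 0x2600000000016, 0x2600000000012, 0x9800000010, 0x72048880000000f, 0x1040a80000000e, 0x1800a800000000d]]
  (by decide +kernel)

theorem free_10_11264_26624 : Free 10 11264 26624 := free_of_chk tabOK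
  [[0xce4cf3cf3a74e8a224924924924924924924945144049249249224924945144251451228a24511288924, 0xb01000000000048, 0x9800000012, 0x1800a8000000010, 0x31048a80000000f, 0x1040a80000000e, 0x1800a800000000d]]
  (by decide +kernel)

theorem free_10_11264_27648 : Free 10 11264 27648 := free_of_chk tabOK
  [[0x19c99e74e8a2249249249249249271271c7145144880924924924492492492492884924a245144249451444a28a2448a2889451448a28911288924, 0xb01000000000048, 0x9800000012, 0x1800a8000000010, 0x31048a80000000f, 0x1040a80000000e, 0x1800a800000000d]]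
  (by decide +kernel)

theorem free_10_8192_28672 : Free 10 8192 28672 := free_of_chk tabOK
  [[0x333328e8e8e8e471090909090909090cc90d4cca3e0810909090a3a3a3a38851d1d1d1c472147109088484, 0xb00000000000048, 0x260000000001b, 0x48a400000000016, 0x9800000012, 0x9800000010, 0x31048a80000000f, 0x1040a80000000e, 0x1800a800000000d]]
  (by decide +kernel)

theorem free_10_8192_29696 : Free 10 8192 29696 := free_of_chk tabOK
  [[0x73399a3d3e8f4f53c2110884422110884422110884434f664084422110884434751c434751c43470844210884, 0x300000000000048, 0x260000000001b, 0x48a400000000016, 0x9800000012, 0x1800a8000000010, 0x31048a80000000f, 0x62048880000000e, 0x1800a800000000d, 0x2482400000000007]]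
  (by decide +kernel)

theorem free_10_9216_28672 : Free 10 9216 28672 := free_of_chk tabOK
  [[],
  [0x333328e8e21212121212121219921990424242428e428e472147109088484, 0xb00000000000048, 0x260000000001b, 0x48a400000000016, 0x9800000012, 0x1800a8000000010, 0x31048a80000000f, 0x1040a80000000e, 0x1800a800000000d],
  [0x333328e8e21212121212121219921990424242428e428e472147109088484, 0xb00000000000048, 0x260000000001b, 0x48a400000000016, 0x9800000012, 0x1800a8000000010, 0x31048a80000000f, 0x1040a80000000e, 0x1800a800000000d],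
  [0x33332828221212121212121219921990424242428e428e47214110a090504, 0xa0100000000004c, 0x260000000001b, 0x48a400000000016, 0x9800000012, 0x1800a8000000010, 0x72048880000000f, 0x1040a80000000e, 0x1800a800000000d],
  [0x333328e8e21212121212121219921c10424242428e428e472147109088484, 0xb00000000000048, 0x260000000001b, 0x48a600000000016, 0x9800000012, 0x9800000010, 0x31048a80000000f, 0x1040a80000000e, 0x1800a800000000d]]
  (by decide +kernel)

theorem free_10_9216_29696 : Free 10 9216 29696 := free_of_chk tabOK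
  [[0x199994141414120884848484848484866486a7070707070582042424242424221472121472147109091c8e428e42824110a088484, 0xb01000000000048, 0x260000000001b, 0x48a400000000016, 0x9800000012, 0x9800000010, 0x31048a80000000f, 0x1040a80000000e, 0x1800a800000000d]]
  (by decide +kernel)

theorem free_11_8192_30720 : Free 11 8192 30720 := free_of_chk tabOK
  [[],
  [0x333328e8e8e8e471090909090909090cc90cc90cce0a3e09320848484851c851c8e428e472147109088484, 0xb00000000000048, 0x260000000001b, 0x5aa200000000016, 0x9800000012, 0x300088800000010, 0x31048a80000000f, 0x241280000000e, 0x30008880000000d],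
  [0x73399a3d1e8f4751c211088442211088443991088443c96640844221a3d1c43470844210884, 0x300000000000048, 0x260000000001b, 0x5aa200000000016, 0x9800000012, 0x300088800000010, 0x31048a80000000f, 0x241280000000e, 0x30008880000000d, 0x21a2000000000007],
  [0xcccca3a0a0a090442424242424242433243324383828f824c8212121214721472390a390a391c8e428e428e4710a088504, 0xa0100000000004c, 0x260000000001b, 0x48a600000000016, 0x9800000012, 0x1800a8000000010, 0x72048880000000f, 0x1040a80000000e, 0x1800a800000000d],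
  [0x73399a3d1c211088442211088443991088443c97240844221a3d1c434751e8f470844210884, 0x300000000000048, 0x260000000001b, 0x48a600000000016, 0x9800000012, 0x9800000010, 0x31048a80000000f, 0x1040a80000000e, 0x1800a800000000d, 0x2482400000000007]]
  (by decide +kernel)

theorem free_10_10240_28672 : Free 10 10240 28672 := free_of_chk tabOK
  [[],
  [0x33332828221212121212121219921c1042424242c6428e47214110a090504, 0xa0100000000004c, 0x260000000001b, 0x2600000000016, 0x9800000012, 0x9800000010, 0x72048880000000f, 0x1040a80000000e, 0x1800a800000000d],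
  [0x33332828221212121212121219921c1042424242c6428e47214110a090504, 0xa0100000000004c, 0x260000000001b, 0x2600000000016, 0x9800000012, 0x9800000010, 0x72048880000000f, 0x1040a80000000e, 0x1800a800000000d],
  [0x666650504424242424242424332438208484848484851d1c850447214110a090504, 0xa0100000000004c, 0x260000000001b, 0x2600000000016, 0x2600000000012, 0x9800000010, 0x72048880000000f, 0x1040a80000000e, 0x1800a800000000d],
  [0x33332828221212121212121219921c1042424242c6428e47214110a090504, 0xa0100000000004c, 0x260000000001b, 0x2600000000016, 0x2600000000012, 0x9800000010, 0x72048880000000f, 0x1040a80000000e, 0x1800a800000000d]]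
  (by decide +kernel)

theorem free_10_10240_29696 : Free 10 10240 29696 := free_of_chk tabOK
  [[],
  [0x333328e8e21212121212121219921c10424242428e428e472147109088484, 0xb00000000000048, 0x260000000001b, 0x48a600000000016, 0x2600000000012, 0x9800000010, 0x31048a80000000f, 0x1040a80000000e, 0x1800a800000000d],
  [0x333328e8e21212121219921a99921c104242428e8e428e472147109088484, 0xb00000000000048, 0x260000000001b, 0x48a600000000016, 0x9800000012, 0x9800000010, 0x31048a80000000f, 0x1040a80000000e, 0x1800a800000000d],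
  [0x333328e8e21212121212121219921c1042424242c6428e472147109088484, 0xb00000000000048, 0x260000000001b, 0x2600000000016, 0x2600000000012, 0x9800000010, 0x31048a80000000f, 0x1040a80000000e, 0x1800a800000000d],
  [0x333328e8e21212121219921a99921c1042424242c6428e472147109088484, 0xb00000000000048, 0x260000000001b, 0x2600000000016, 0x9800000012, 0x9800000010, 0x31048a80000000f, 0x1040a80000000e, 0x1800a800000000d]]
  (by decide +kernel)

theorem free_10_11264_28672 : Free 10 11264 28672 := free_of_chk tabOK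
  [[],
  [0x333328282212121212121212108484848484848505050447214110a090504, 0xa0100000000004c, 0x260000000001b, 0x2600000000016, 0x2600000000012, 0x9800000010, 0x72048880000000f, 0x1040a80000000e, 0x1800a800000000d],
  [0x66665050442424242424242433243820848484858c851d05050447214110a090504, 0xa0100000000004c, 0x260000000001b, 0x2600000000016, 0x2600000000012, 0x9800000010, 0x72048880000000f, 0x1040a80000000e, 0x1800a800000000d],
  [0x199994141109090909088484848484848505050447414110a090504, 0xa0100000000004c, 0x260000000001b, 0x2600000000016, 0x2600000000012, 0x9800000010, 0x72048880000000f, 0x1040a80000000e, 0x1800a800000000d],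
  [0x666650504424242424242424210909090909090a0a0a088e428282824110a090504, 0xa0100000000004c, 0x260000000001b, 0x2600000000016, 0x2600000000012, 0x9800000010, 0x72048880000000f, 0x1040a80000000e, 0x1800a800000000d]]
  (by decide +kernel)

theorem free_10_11264_29696 : Free 10 11264 29696 := free_of_chk tabOK
  [[],
  [0x33332828221212121212121219921c1042424242c6428e47214110a090504, 0xa0100000000004c, 0x260000000001b, 0x2600000000016, 0x9800000012, 0x9800000010, 0x72048880000000f, 0x1040a80000000e, 0x1800a800000000d],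
  [0x333328e8e21212121219921219921c1042424242c6428e472147109088484, 0xb00000000000048, 0x260000000001b, 0x2600000000016, 0x9800000012, 0x9800000010, 0x31048a80000000f, 0x1040a80000000e, 0x1800a800000000d],
  [0x66665050442424242424242433243820848484858c851c8e428282824110a090504, 0xa0100000000004c, 0x260000000001b, 0x2600000000016, 0x2600000000012, 0x9800000010, 0x72048880000000f, 0x1040a80000000e, 0x1800a800000000d],
  [0x33332828221212121212121219921c1042424242c6428e47214110a088504, 0xa0100000000004c, 0x260000000001b, 0x2600000000016, 0x9800000012, 0x9800000010, 0x72048880000000f, 0x1040a80000000e, 0x1800a800000000d]]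
  (by decide +kernel)

theorem free_10_10240_30720 : Free 10 10240 30720 := free_of_chk tabOK
  [[0xcccca0a0884848484848484866487041090909090908851c851d1d1d1c42424760e0a3e0b051d04428e42824110a088504, 0xa0100000000004c, 0x260000000001b, 0x48a400000000016, 0x9800000012, 0x9800000010, 0x720c8880000000f, 0x1040a80000000e, 0x1800a800000000d]]
  (by decide +kernel)

theorem free_10_10240_31744 : Free 10 10240 31744 := free_of_chk tabOK
  [[0x66665050442424242424242433353524382c1042424242424242212131b1a3a398f051d1d828e8e4747474723b07051d04428e42824110a088504, 0xa0100000000004c, 0x260000000001b, 0x48a400000000016, 0x9800000012, 0x9800000010, 0x72048880000000f, 0x1040a80000000e, 0x1800a800000000d]]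
  (by decide +kernel)

theorem free_10_11264_30720 : Free 10 11264 30720 := free_of_chk tabOK
  [[],
  [0x333328e8e21212121219921a99921c1042424242c6428e472147109088484, 0xb00000000000048, 0x260000000001b, 0x2600000000016, 0x9800000012, 0x9800000010, 0x31048a80000000f, 0x1040a80000000e, 0x1800a800000000d],
  [0x1999947471090909090cc90d4cc90e0821212147472147109088484, 0xb00000000000048, 0x260000000001b, 0x48a600000000016, 0x9800000012, 0x9800000010, 0x31048a80000000f, 0x1040a80000000e, 0x1800a800000000d],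
  [0x33332828221212121219921a99921c1042424242c6428e47214110a088504, 0xa0100000000004c, 0x260000000001b, 0x2600000000016, 0x9800000012, 0x9800000010, 0x72048880000000f, 0x1040a80000000e, 0x1800a800000000d],
  [0x33332828221212121219921a99921c10424242c6c6c68ec1214110a088504, 0xa0100000000004c, 0x260000000001b, 0x2600000000016, 0x9800000012, 0x9800000010, 0x72048880000000f, 0x1040a80000000e, 0x1800a800000000d]]
  (by decide +kernel)

theorem free_10_11264_31744 : Free 10 11264 31744 := free_of_chk tabOK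
  [[],
  [0x1999947471090909090cc90d4ccd4e0821212147c14747109088484, 0xb00000000000048, 0x260000000001b, 0x48a600000000016, 0x9800000012, 0x9800000010, 0x31048a80000000f, 0x1040a80000000e, 0x1800a800000000d],
  [0x666651d1c4242424243324332109090a390a388484, 0xb00000000000048, 0x260000000001b, 0x48a600000000016, 0x9800000012, 0x1800a8000000010, 0x31048a80000000f, 0x1040a80000000e, 0x1800a800000000d],
  [0x1999947471090909090cc90d4ccd4e0821212147c14747109088484, 0xb00000000000048, 0x260000000001b, 0x48a600000000016, 0x9800000012, 0x9800000010, 0x31048a80000000f, 0x1040a80000000e, 0x1800a800000000d],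
  [0xcccca3a38848484848664866421212147c14747109088484, 0xb00000000000048, 0x260000000001b, 0x48a600000000016, 0x9800000012, 0x1800a8000000010, 0x31048a80000000f, 0x1040a80000000e, 0x1800a800000000d]]
  (by decide +kernel)

theorem free_11_12288_24576 : Free 11 12288 24576 := free_of_chk tabOK
  [[],
  [0x1333333554a52b233333199999aaa866aa5552a954, 0x180080000004c, 0x5a04a800000000f, 0x1040a80000000e, 0x1800a800000000d],
  [0x9c9999aaa52959199998cccccc666a5552a954, 0x180080000004c, 0x5a04a800000000f, 0x1040a80000000e, 0x1800a800000000d],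
  [0x16596ed111a4db6dba76d5ab4, 0x4100000000004c, 0x5a04a800000000f, 0x1040b80000000e],
  [0x1393333554a52b233333199999aaa866aa5552a954, 0x180080000004c, 0x5a04a800000000f, 0x1040b80000000e, 0x1800a800000000d]]
  (by decide +kernel)

theorem free_11_12288_26624 : Free 11 12288 26624 := free_of_chk tabOK
  [[],
  [0x3737272aa94a564666666666660cccccc666a5552a954, 0x20100080000004c, 0x5a04a800000000f, 0x1040a80000000e, 0x1800a800000000d],
  [0x19c99e79e74e451444924924924924924e24e28a28809249249244924a2251451228a24511288924, 0xb01000000000048, 0x9800000012, 0x1800a8000000010, 0x31048a80000000f, 0x1040b80000000e, 0x1800a800000000d],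
  [0x2726666aa94a56466666666199999aaa8666a5552a954, 0x180080000004c, 0x5a04a800000000f, 0x1040b80000000e, 0x1800a800000000d],
  [0x33933933ce9c8a28892492492492492492494409249249249451444a2124928914511288924, 0xb01000000000048, 0x9800000012, 0x1800a8000000010, 0x31048a80000000f, 0x1040b80000000e, 0x1800a800000000d]]
  (by decide +kernel)

theorem free_11_14336_24576 : Free 11 14336 24576 := free_of_chk tabOK
  [[0x924924924924ce249249251444a28a245144451451222492514e8a2451449d3a74514512224924924924924924924925144049249248924924924944249251128a289145109249451228914512289144, 0x180000000004c, 0x9800000012, 0x9800000010, 0x72048880000000f, 0x1040b80000000e, 0x1800a800000000d]]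
  (by decide +kernel)

theorem free_11_14336_26624 : Free 11 14336 26624 := free_of_chk tabOK
  [[],
  [0x1393333554a52b233333199999aaa86aaa5552a954, 0x180080000004c, 0x5a04a800000000f, 0x1040b80000000e, 0x1800a800000000d],
  [0x2726666aa94a56466666666199999aaa8666a5552a954, 0x180080000004c, 0x5a04a800000000f, 0x1040b80000000e, 0x1800a800000000d],
  [0x5965b6ed5111a4db6cdb7e9bb56d5ab4, 0x4100000000004c, 0x5a04a800000000f, 0x980000000e],
  [0x2726666a6aa54a52b233333199999aaa86aaa5552a954, 0x180080000004c, 0x5a04a800000000f, 0x1040b80000000e, 0x1800a800000000d]]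
  (by decide +kernel)

theorem free_11_12288_28672 : Free 11 12288 28672 := free_of_chk tabOK
  [[],
  [0x19c99e74e8a28a2444924924924924924e24e204924924922492492492510924925145109451448a2884a28a2451444a28a2451448a28911288924, 0xb01000000000048, 0x9800000012, 0x1800a8000000010, 0x31048a80000000f, 0x1040a80000000e, 0x1800a800000000d],
  [0x19e7451451222492492492499c9c71c7167162049249249224924925924925122124924924a28a225145122249451448a244249249444924a2448a288cb2ca2451448a2889451448a28911288944, 0xa0100000000004c, 0x9800000012, 0x9800000010, 0x720c8880000000f, 0x1040a80000000e, 0x1800a800000000d],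
  [0xce4cf391451124924924924924938928812492492489249249448914511289144, 0xa0100000000004c, 0x2600000000012, 0x1800a8000000010, 0x72048880000000f, 0x1040b80000000e, 0x1800a800000000d],
  [0x33933ce9d14514488924924924926b271c49440924924924492492889249448914511289144, 0xa0100000000004c, 0x9800000012, 0x9800000010, 0x72048880000000f, 0x1040a80000000e, 0x1800a800000000d]]
  (by decide +kernel)

end Pool.Agent.P.MP_862e21_al
end

-- part Pool.Agent.P.MP_862e21_al.OCDat3
section

namespace Pool.Agent.P.MP_862e21_al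

theorem free_10_12288_30720 : Free 10 12288 30720 := free_of_chk tabOK
  [[],
  [0x66665050442424242433242433243820848484858c851c8e428282824110a088504, 0xa0100000000004c, 0x260000000001b, 0x2600000000016, 0x9800000012, 0x9800000010, 0x72048880000000f, 0x1040a80000000e, 0x1800a800000000d],
  [0x66665050442424242433243533243820848484858c851d82428282824110a088504, 0xa0100000000004c, 0x260000000001b, 0x2600000000016, 0x9800000012, 0x9800000010, 0x72048880000000f, 0x1040a80000000e, 0x1800a800000000d],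
  [0x33332828221212121219921219921c1042424242c6428e47414110a088504, 0xa0100000000004c, 0x260000000001b, 0x2600000000016, 0x2600000000012, 0x9800000010, 0x72048880000000f, 0x1040a80000000e, 0x1800a800000000d],
  [0x66665050442424242433243533243820848484858c851d82428282824110a088504, 0xa0100000000004c, 0x260000000001b, 0x2600000000016, 0x9800000012, 0x9800000010, 0x72048880000000f, 0x1040a80000000e, 0x1800a800000000d]]
  (by decide +kernel)

theorem free_10_12288_31744 : Free 10 12288 31744 := free_of_chk tabOK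
  [[],
  [0x33332828221212121219921a99963c10424242c782c68ec1214110a088504, 0xa0100000000004c, 0x260000000001b, 0x2600000000016, 0x9800000012, 0x9800000010, 0x72048880000000f, 0x1040a80000000e, 0x1800a800000000d],
  [0xcccca0a08848484848664866421212147c1474110a088504, 0xa0100000000004c, 0x260000000001b, 0x48a400000000016, 0x2600000000012, 0x1800a8000000010, 0x72048880000000f, 0x1040a80000000e, 0x1800a800000000d],
  [0x666650504424242424332435332c78208484858f04851d82428282824110a088504, 0xa0100000000004c, 0x260000000001b, 0x2600000000016, 0x9800000012, 0x9800000010, 0x72048880000000f, 0x1040a80000000e, 0x1800a800000000d],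
  [0x1999941411090909090cc90cc84242428f828e8282824110a088504, 0xa0100000000004c, 0x260000000001b, 0x48a400000000016, 0x2600000000012, 0x1800a8000000010, 0x72048880000000f, 0x1040a80000000e, 0x1800a800000000d]]
  (by decide +kernel)

theorem free_10_13312_30720 : Free 10 13312 30720 := free_of_chk tabOK
  [[0x19e7451451222492492492499c9c412492492489259259451442492492494514425145109451448a2898a28a2451444a28a2451448a28911288944, 0xa0100000000004c, 0x9800000012, 0x9800000010, 0x720c8880000000f, 0x1040a80000000e, 0x1800a800000000d]]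
  (by decide +kernel)

theorem free_10_13312_31744 : Free 10 13312 31744 := free_of_chk tabOK
  [[],
  [0x679d1451448892492499c9ae727104924938928914511288944, 0xa0100000000004c, 0x9800000012, 0x9800000010, 0x72048880000000f, 0x1040a80000000e, 0x1800a800000000d],
  [0xcccca0a0a0a0904424242424332435333838208484858f058d1c828e8282824110a088504, 0xa0100000000004c, 0x260000000001b, 0x2600000000016, 0x2600000000012, 0x9800000010, 0x72048880000000f, 0x1040a80000000e, 0x1800a800000000d],
  [0xce8a28892492499c9ae727104924938928914511288944, 0xa0100000000004c, 0x9800000012, 0x9800000010, 0x72048880000000f, 0x1040b80000000e, 0x1800a800000000d],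
  [0x679d1451448892492499c9ae7c7104924b38928914511288944, 0xa0100000000004c, 0x2600000000012, 0x9800000010, 0x72048880000000f, 0x1040a80000000e, 0x1800a800000000d]]
  (by decide +kernel)

theorem free_11_14336_28672 : Free 11 14336 28672 := free_of_chk tabOK
  [[],
  [0x33933cf3ce9c8a2889249249249249249c494409249249249451448a2124928914511289144, 0xa0100000000004c, 0x2600000000012, 0x1800a8000000010, 0x72048880000000f, 0x1040b80000000e, 0x1800a800000000d],
  [0x19c99e74e8a28a2444924924924924924e24a204924924924a28a245109249451448914511289144, 0xa0100000000004c, 0x2600000000012, 0x9800000010, 0x72048880000000f, 0x1040a80000000e, 0x1800a800000000d],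
  [0xce4ce4cf3a7228a224924924924924924124924924a28a2128a28914512289144, 0xa0100000000004c, 0x2600000000012, 0x1800a8000000010, 0x5a04a800000000f, 0x1040b80000000e, 0x1800a800000000d],
  [0xce4cf391451124924924924924928a288124924924a28a2128a28914511289144, 0xa0100000000004c, 0x2600000000012, 0x9800000010, 0x72048880000000f, 0x1040b80000000e, 0x1800a800000000d]]
  (by decide +kernel)

theorem free_11_14336_30720 : Free 11 14336 30720 := free_of_chk tabOK
  [[],
  [0x33ce8a28a244492492492493393882492492492494511288492492889249448914511288944, 0xa0100000000004c, 0x2600000000012, 0x9800000010, 0x720c8880000000f, 0x1040a80000000e, 0x1800a800000000d],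
  [0x19e7451451222492492492499c9c41249249248927125125122249249444924a2448914511288944, 0xa0100000000004c, 0x9800000012, 0x9800000010, 0x72048880000000f, 0x1040a80000000e, 0x1800a800000000d],
  [0xcca0a0a0a0a0904424242424242424332438e08484848484848505050482821090a0a0a08850505048241414110a088504, 0xa0100000000004c, 0x260000000001b, 0x9800000019, 0x2600000000012, 0x9800000010, 0x720c8880000000f, 0x1040b80000000e, 0x1800a800000000d],
  [0x19c144144102082044924924924933933824924924925145112884928a2889451448914511288944, 0xa0110000000004c, 0x2600000000012, 0x1040a800000010, 0x720c8880000000f, 0x1040a80000000e, 0x1800a800000000d]]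
  (by decide +kernel)

theorem free_13_16384_0 : Free 13 16384 0 := free_of_chk tabOK
  [[],
  [0x16db3b55da6dbb4db65a, 0x2000000004c, 0x18000000020000f, 0x980000000e],
  [0x4cccc7ba333d1999998f74f743333d319ba, 0x4c, 0x98000000020000f, 0x980400000e, 0x8804000005],
  [0x16db3b4dda6db5a, 0x2000000004c, 0x18000000020000f, 0x980000000e],
  [0x16db3b4dd6ed1b6eb35a, 0x2000000004c, 0x18000000020000f, 0x980000000e]]
  (by decide +kernel)

theorem free_13_16384_8192 : Free 13 16384 8192 := free_of_chk tabOK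
  [[],
  [],
  [0x5bb4dda, 0x2000000004c, 0x18008880000000f, 0x980000000e],
  [0x5294a49bdc94dee, 0x4c, 0x260000000001b, 0x18000000020001a, 0x18008880000000f, 0x980000000e],
  [0x5bb4dda, 0x2000000004c, 0x18008880000000f, 0x980000000e],
  [0x5294a49bdc94dee, 0x4c, 0x260000000001b, 0x18000000020001a, 0x18008880000000f, 0x980000000e],
  [0x5294a5294dc94dee2537489bdc94a5294a522529b937bdc9bdeebdeebdc, 0x4c, 0x260000000001b, 0x8000000020881a, 0x30008880000000f, 0x980000000e],
  [0x5294a5292498c494a5294a44a5294a529ba3125294dd249318894a53189246318c4, 0x2000000004c, 0x260000000001b, 0x18000000020001a, 0x98000000020000f, 0x980000000e],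
  [0x5294a5294c494c6225318898c494a5294a525d298c628c518c4, 0x2000000004c, 0x260000000001b, 0x18000000020001a, 0x18008880000000f, 0x980000000e]]
  (by decide +kernel)

theorem free_13_24576_0 : Free 13 24576 0 := free_of_chk tabOK
  [[],
  [0x5bb4dda, 0x2000000004c, 0x18000000020000f, 0x980000000e],
  [0x5b6ced36db5a, 0x2000000004c, 0x98000000020000f, 0x980000000e],
  [0x5bb4dda, 0x4020000000044, 0x18000000020000f, 0x980000000e],
  [0x5b6ced36db5a, 0x4020000000044, 0x18000000020000f, 0x980000000e]]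
  (by decide +kernel)

theorem free_13_24576_8192 : Free 13 24576 8192 := free_of_chk tabOK
  [[],
  [0x5b6ced36db6cd6db4, 0x2000000004c, 0x98000000020000f, 0x980000000e],
  [0x5294a5294c492498c6314494a5294a525d318c518c4, 0x2000000004c, 0x260000000001b, 0x8000000020081a, 0x18008880000000f, 0x980000000e],
  [0x37776b555dddd955554, 0x20000000044, 0x98000000020000f, 0x980000000e, 0xa12803],
  [0x6739ce734d36b5ad35399e69ce739ce61dad69ad6b4, 0x244, 0x98000000020000f, 0x980000000e, 0x440004885, 0x80000000200803]]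
  (by decide +kernel)

theorem free_12_16384_16384 : Free 12 16384 16384 := free_of_chk tabOK
  [[0x5214a5294a5294af72537baf7b894a5295ee2437081bdef75c94a5294a5294a52925294dee4a6f702529b9294a6ebdc94a5294dc4a529baf75eebdef75eebdc, 0x4000000000004c, 0x260000000001b, 0x8000000020881a, 0x30008880000000f, 0x980000000e]]
  (by decide +kernel)

theorem free_12_16384_20480 : Free 12 16384 20480 := free_of_chk tabOK
  [[],
  [0x5965b74cd211a4db6cdda6ed376adab4, 0x4100000000004c, 0x1800a800000000f, 0x980000000e],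
  [0x5965b6ed5334846936db6d8dbf4dfb6aadb56d5ab4, 0x4100000000004c, 0x5a04a800000000f, 0x980000000e],
  [0x5965b74cd211a4db6cdda6ed376adab4, 0x4100000000004c, 0x1800a800000000f, 0x980000000e],
  [0x5965b6ed5334846936db6d8dda6dd376adab4, 0x4100000000004c, 0x1800a800000000f, 0x980000000e]]
  (by decide +kernel)

theorem free_12_20480_16384 : Free 12 20480 16384 := free_of_chk tabOK
  [[0x596db6ed3768dd2124869244db6db6db6ddab6d036ed5a6db76aad36e9db56adaa4, 0x4110000000004c, 0x30008880000000f, 0x980000000e]]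
  (by decide +kernel)

theorem free_12_20480_20480 : Free 12 20480 20480 := free_of_chk tabOK
  [[],
  [0x5965b744d211a4db6cdda6ed3b6adab4, 0x4100000000004c, 0x1800a800000000f, 0x980000000e],
  [0x5965b74cd211a4db6db636fd7f6adab4, 0x4100000000004c, 0x7a0ca800000000f, 0x980000000e],
  [0x16db6eda33b4db6dfdafed7b6adab4, 0x100000000004c, 0x1800a800000800f, 0x980000000e],
  [0x521485294dc10dc2041b8494a5294a52677bdef6bddbbdeebdeebdc, 0x4000000000004c, 0x260000000001b, 0x200000000a1881a, 0x320c8880000000f, 0x980000000e]]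
  (by decide +kernel)

theorem free_12_16384_24576 : Free 12 16384 24576 := free_of_chk tabOK
  [[],
  [0x49249249249249251128a2891128a2891451274e9d1444924924924924924924924928809249659451442492496514511965144889249451228914512289144, 0x180000000004c, 0x9800000012, 0x9800000010, 0x5a04a800000000f, 0x980000000e, 0x1800a800000000d],
  [],
  [0x5965b6ed5111a4db6cdb7e9db56d5ab4, 0x4100000000004c, 0x5a04a800000000f, 0x980000000e],
  [0x5965b6ed5111a4db6cdb7e9bb56d5ab4, 0x4100000000004c, 0x5a04a800000000f, 0x980000000e],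
  [0x16596ddb54446936db6eadab4, 0x4100000000004c, 0x5a04a800000000f, 0x1040b80000000e],
  [0x5965b6ed5111a4db6cdb6eadab4, 0x4100000000004c, 0x5a04a800000000f, 0x1040b80000000e],
  [0x1249249249249451128a2893a74e8a2249249249249249249249024925965145109249651328a2891128a28914512289144, 0x180000000004c, 0x2600000000012, 0x9800000010, 0x7a0ca800000000f, 0x980000000e, 0x1800a800000000d],
  [0x12492492492499c4924924928a7124928a2891124a2891451228914e9d3a74514512224924924924924924924924924925145104924928a245145100924924924492249249444928a289144891451451228a24512289144, 0x180000000004c, 0x2600000000012, 0x9800000010, 0x72048880000000f, 0x62048980000000e, 0x1800a800000000d]]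
  (by decide +kernel)

theorem free_11_16384_28672 : Free 11 16384 28672 := free_of_chk tabOK
  [[],
  [0x4e4e4cccd54a94a56466666666199999aaa86aaa5552a954, 0x180080000004c, 0x5a04a800000000f, 0x1040b80000000e, 0x1800a800000000d],
  [0xce4cf391451124924924924924924a288124924924a28a2128a28914512289144, 0xa0100000000004c, 0x2600000000012, 0x9800000010, 0x5a04a800000000f, 0x1040b80000000e, 0x1800a800000000d],
  [0x4e4e4cccd54a94a564666663333352aa954, 0x180080000004c, 0x5a04a800000000f, 0x1040b80000000e, 0x1800a800000000d],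
  [0x24924933ce9c8a288924924924924249249251128a28914512289144, 0x20100000000004c, 0x2600000000012, 0x9800000010, 0x5a04a800000000f, 0x1040b80000000e, 0x1800a800000000d]]
  (by decide +kernel)

theorem free_11_16384_30720 : Free 11 16384 30720 := free_of_chk tabOK
  [[],
  [0xce4cf391451124924924924ce4924a288124924924a28a2128a28914512289144, 0xa0100000000004c, 0x2600000000012, 0x9800000010, 0x5a04a800000000f, 0x1040b80000000e, 0x1800a800000000d],
  [0x19d1451451222492492492499c99c124924924a28a2128a28914511288944, 0xa0100000000004c, 0x2600000000012, 0x10c08800000010, 0x720c8880000000f, 0x10c0980000000e, 0x1800a800000000d],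
  [0xce4cf391451124924924924924924a288124924924a28a2128a28914512289144, 0xa0100000000004c, 0x2600000000012, 0x9800000010, 0x5a04a800000000f, 0x1040b80000000e, 0x1800a800000000d],
  [],
  [0xce8a2889249249249448a289144, 0xa0100000000004c, 0x2600000000012, 0x9800000010, 0x5a04a800000000f, 0x10c0980000000e, 0x1800a800000000d],
  [0],
  [0],
  [0]]
  (by decide +kernel)

theorem free_11_18432_28672 : Free 11 18432 28672 := free_of_chk tabOK
  [[],
  [0x5965b6ed5111a4db6cdb6eadab4, 0x4100000000004c, 0x5a04a800000000f, 0x1040b80000000e],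
  [0x49249249267453a74e8a224924924924909249249448a289144, 0x180000000004c, 0x2600000000012, 0x9800000010, 0x5a04a800000000f, 0x1040b80000000e, 0x1800a800000000d],
  [0x5965b6ed5111a4db6cdb6eadab4, 0x4100000000004c, 0x5a04a800000000f, 0x1040b80000000e],
  [0x49249249267453a74e8a224924924924909249249448a289144, 0x180000000004c, 0x2600000000012, 0x9800000010, 0x5a04a800000000f, 0x1040b80000000e, 0x1800a800000000d]]
  (by decide +kernel)

theorem free_11_18432_30720 : Free 11 18432 30720 := free_of_chk tabOK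
  [[],
  [0xce4cf3a74511249249249249249209249249448a289144, 0xa0100000000004c, 0x2600000000012, 0x9800000010, 0x5a04a800000000f, 0x1040b80000000e, 0x1800a800000000d],
  [0],
  [0x924924cf3a74e8a224924924924909249249448a289144, 0x20100000000004c, 0x2600000000012, 0x9800000010, 0x5a04a800000000f, 0x1040b80000000e, 0x1800a800000000d],
  [0]]
  (by decide +kernel)

theorem free_12_20480_24576 : Free 12 20480 24576 := free_of_chk tabOK
  [[],
  [0x49249249249251444a28a24e9d3a28892492492492492490492492cb265145144249251448a24514512289144, 0x180000000004c, 0x2600000000012, 0x9800000010, 0x320c8880000000f, 0x980000000e, 0x1800a800000000d],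
  [0x49249249249249451448a7451449d3a745145122249249249249249249249251440492492492492484928a2884924a288945144891251451228914512289144, 0x180000000004c, 0x2600000000012, 0x9800000010, 0x720c8880000000f, 0x6a04a900000000e, 0x1800a800000000d],
  [0x5965b6ed5b68cd211a4db6db636dffed3d3b6adab4, 0x4100000000004c, 0x320c8880000000f, 0x980000000e],
  [0x5965b6ed3b68cd211b6d136db6db6db6ed036dfffd3fb68dbb56adb56d5ab4, 0x4100000000004c, 0x720c8880000000f, 0x980000000e]]
  (by decide +kernel)

theorem free_12_20480_28672 : Free 12 20480 28672 := free_of_chk tabOK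
  [[],
  [],
  [0x924924924ce8a74e9d144492492489249249448a289144, 0x180000000004c, 0x2600000000012, 0x9800000010, 0x5a04a800000000f, 0x1040b80000000e, 0x1800a800000000d],
  [0x924924924ce8a74e9d144492492489249249448a289144, 0x180000000004c, 0x2600000000012, 0x9800000010, 0x5a04a800000000f, 0x1040b80000000e, 0x1800a800000000d],
  [0x5965b74446936db36ddab6d5ab4, 0x4100000000004c, 0x5a04a800000000f, 0x980000000e],
  [0x16596dbb54446936db36ddab6d5ab4, 0x4100000000004c, 0x5a04a800000000f, 0x10c0980000000e],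
  [],
  [0],
  [0],
  [0],
  [0],
  [],
  [0x16596dd111a4db6cdb76adab4, 0x4100000000004c, 0x5a04a800000000f, 0x980000000e],
  [0x5965b74446936db36ddab6d5ab4, 0x4100000000004c, 0x5a04a800000000f, 0x980000000e],
  [0x12596dd111a4db6cdbb6adab4, 0x4100000000004c, 0x5a04a800000000f, 0x980000000e],
  [0],
  [0]]
  (by decide +kernel)

theorem free_12_24576_16384 : Free 12 24576 16384 := free_of_chk tabOK
  [[],
  [0x5294a49bdc94dd29bdd7bdc, 0x4c, 0x260000000001b, 0x8000000020881a, 0x18008880000000f, 0x980000000e],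
  [0x5b6db33b4db6cdda6ed5b4, 0x100000000004c, 0x30008880000000f, 0x980000000e],
  [0x1249249138e22495f1c71c4, 0x4c, 0x260000000001b, 0x8000000020081a, 0x18008880000000f, 0x980000000e, 0x440004885],
  [0x5b6ced36db3769bb6ad5b4, 0x2000000004c, 0x18008880000000f, 0x980000000e]]
  (by decide +kernel)

theorem free_12_24576_20480 : Free 12 24576 20480 := free_of_chk tabOK
  [[],
  [0x4965b11a4db6dfff6ad5b6adab4, 0x4100000000004c, 0x320c8880000000f, 0x980000000e],
  [0x4965b744d211a4db6db67fffaf6d57b6adab4, 0x4100000000004c, 0x320c8880000000f, 0x980000000e],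
  [0x16db6cced36db3769b76ad5b4, 0x100000000004c, 0x30008880000000f, 0x980000000e],
  [0x16db6dda33b4db6db67f6bffebd7b6adab4, 0x100000000004c, 0x3a0ca800000800f, 0x980000000e]]
  (by decide +kernel)

theorem free_12_28672_16384 : Free 12 28672 16384 := free_of_chk tabOK
  [[0x6639ce739cdad4e6d6939ce6d69a4e739936b5ad34319c6339c1ce739ce673cdad139ce739a739cdad4e6d681ce76b4d68e76b5a6b4d6b4d6b5a6b4, 0x40b44, 0x298049800001000f, 0x980000000e, 0x440004885, 0x80000000200803]]
  (by decide +kernel)

theorem free_12_28672_20480 : Free 12 28672 20480 := free_of_chk tabOK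
  [[],
  [0x2777776b5ee8cccccefba77ddd6eb774, 0x4c, 0x2ba0c9800001000f, 0x980000000e, 0x440004885],
  [0x4cccccc63dddd68ccccccc66663bbe9ddf774fbbad3eb774, 0x4c, 0x123a0c9800001000f, 0x980000000e, 0x20000048004885],
  [0x6739ce734d36b5ad34799ce9ccf33cd31ced68ed6b4d6b4, 0x244, 0x2ba0c9800001000f, 0x22a0c9980000000e, 0x400440004885, 0x80000000208803],
  [0x6739ce734d3294a514799ce9ccf33cd39ce61ce728e769ca3945294, 0x1000000000244, 0x2ba0c9800001000f, 0x22a0c9980000000e, 0x400040000085, 0x8000004020c883]]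
  (by decide +kernel)

theorem free_12_24576_24576 : Free 12 24576 24576 := free_of_chk tabOK
  [[],
  [0x16596dbb4eda134846db44db6db67ffff6d3d7b6adab4, 0x4100000000004c, 0x320c8880000000f, 0x980000000e],
  [0x16596dbb4dda334846db44db6db6db6d836dffedab4feda7feadab6d5ab4, 0x4100000000004c, 0x320c8880000000f, 0x980000000e],
  [0x4965b6eda134846db44db6db67fffaf5edab6adab4, 0x4100000000004c, 0x320c8880000000f, 0x980000000e],
  [0x16596dbb4dda134d2211b6d136db6db6dba1ffffdb4f5edab6adab4, 0x4100000000004c, 0x320c8880000000f, 0x980000000e]]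
  (by decide +kernel)

theorem free_12_24576_28672 : Free 12 24576 28672 := free_of_chk tabOK
  [[],
  [],
  [0x12596dd111a4db6cdfb6adab4, 0x4100000000004c, 0x3a0ca800000000f, 0x980000000e],
  [0],
  [0x4965b74446936db3ffd7b6adab4, 0x4100000000004c, 0x320c8880000000f, 0x980000000e],
  [0],
  [0],
  [],
  [0x12596446936db7ffd7b6adab4, 0x4100000000004c, 0x320c8880000000f, 0x980000000e],
  [0],
  [0],
  [0],
  [0]]
  (by decide +kernel)

theorem free_12_28672_24576 : Free 12 28672 24576 := free_of_chk tabOK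
  [[],
  [0x11131333308a8821555508cccccccc77dd3bbba9d4eaaa5552aa954, 0x4100000000004c, 0x3a0ca800000000f, 0x980000000e, 0x144010085],
  [0x12596dbb4dda12cd2211b6d136db6db6dda1fff6d3ffffb69fdb4f5edab6adab4, 0x4100000000004c, 0x3a0ca800000000f, 0x980000000e],
  [0x46318c6318c30c3294a514799ce18ce319c639e673831cc61ced68e739ce51ca3945294, 0x101000000000244, 0x123a0c9800001000f, 0x22a0cb900000000e, 0x144010085, 0x200000040a14883],
  [0x4211846318ca50c6528108c2041294a504798cf31ce18c6338c30ce319c639ce338c6718739ce70318c73186318c65281ce73b4a50e739ce51ca3945294a294, 0x141000000000244, 0x123a0c9800000000f, 0x22a0cb900000000e, 0x144010085, 0x2000000040204883]]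
  (by decide +kernel)

theorem free_12_28672_28672 : Free 12 28672 28672 := free_of_chk tabOK
  [[],
  [],
  [0],
  [0],
  [0],
  [0],
  [0],
  [],
  [0],
  [0],
  [0],
  [0],
  [0]]
  (by decide +kernel)

theorem free_13_0_32768 : Free 13 0 32768 := free_of_chk tabOK
  [[0]]
  (by decide +kernel)

theorem free_13_0_40960 : Free 13 0 40960 := free_of_chk tabOK
  [[0]]
  (by decide +kernel)

theorem free_11_8192_32768 : Free 11 8192 32768 := free_of_chk tabOK
  [[],
  [0x73399a3d1e8f4751c2110884422110884439910e6443c97240844221a3d1c43470844210884, 0x300000000000048, 0x260000000001b, 0x5aa200000000016, 0x9800000012, 0x300089800000010, 0x31048a80000000f, 0x241280000000e, 0x30008880000000d, 0x4300008800000007],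
  [0],
  [0xcccca3a3884848484848486a666a6a487058208484851d1d1d1d83828f824747109088484, 0xb00000000000048, 0x260000000001b, 0x48a600000000016, 0x9800000012, 0x9800000010, 0x31048a80000000f, 0x241280000000e, 0x30008880000000d],
  [0x73399a3d1c211088442211088732084422110f244347724434772443470844210884, 0x300000000000048, 0x260000000001b, 0x48a600000000016, 0x9800000012, 0x300088800000010, 0x31048a80000000f, 0x241280000000e, 0x30008880000000d, 0x300088800000007]]
  (by decide +kernel)

theorem free_11_8192_34816 : Free 11 8192 34816 := free_of_chk tabOK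
  [[],
  [0],
  [0],
  [0x73399cce6599a3d1c2110884422110887320844221e1f0c43c370c43470844210884, 0x300000000000048, 0x260000000001b, 0x2600000000016, 0x9800000012, 0x300088800000010, 0x31048a80000000f, 0x241280000000e, 0x33000a80000000d, 0x4300008800000007],
  [0]]
  (by decide +kernel)

theorem free_11_10240_32768 : Free 11 10240 32768 := free_of_chk tabOK
  [[],
  [0xcccca0a0884848484866486a666a7058f058208484848484848442426363474760e0a3e091d1d83828e82474710a088504, 0xa0100000000004c, 0x260000000001b, 0x48a400000000016, 0x9800000012, 0x9800000010, 0x72048880000000f, 0x1040a80000000e, 0x1800a800000000d],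
  [0x73399a3d1c2110884422110887320844221108844210f24422110885c9e4d1f927268f477268f470868e10884, 0x300000000000048, 0x260000000001b, 0x48a600000000016, 0x9800000012, 0x1800a8000000010, 0x31048a80000000f, 0x1040a80000000e, 0x1800a800000000d, 0x2482400000000007],
  [],
  [0x666651d1c4242424243324332109090a390a388484, 0xb00000000000048, 0x260000000001b, 0x48a600000000016, 0x2600000000012, 0x1800a8000000010, 0x31048a80000000f, 0x1040a80000000e, 0x1800a800000000d],
  [0x666651d1c4242424243324332109090a390a388484, 0xb00000000000048, 0x260000000001b, 0x48a600000000016, 0x2600000000012, 0x1800a8000000010, 0x31048a80000000f, 0x1040a80000000e, 0x1800a800000000d],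
  [0x666651d1c4242424243324332109090a390a388484, 0xb00000000000048, 0x260000000001b, 0x48a600000000016, 0x2600000000012, 0x1800a8000000010, 0x31048a80000000f, 0x1040a80000000e, 0x1800a800000000d],
  [0x666651d1c4242424243324332109090a390a388484, 0xb00000000000048, 0x980000001b, 0x48a600000000016, 0x2600000000012, 0x1800a8000000010, 0x31048a80000000f, 0x1040a80000000e, 0x1800a800000000d],
  [0x333328e8e8e8e471090909090cc90cc842424242424242212131e0b1e0b058d1f051d1d828e8ec1474723a3b07051f04c1474710a388484, 0xb00000000000048, 0x260000000001b, 0x48a600000000016, 0x9800000012, 0x1800a8000000010, 0x31048a80000000f, 0x1040a80000000e, 0x1800a800000000d]]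
  (by decide +kernel)

theorem free_11_10240_34816 : Free 11 10240 34816 := free_of_chk tabOK
  [[],
  [0x3333333329947471090909090cc90cc842424383828f82c1474710a388484, 0xb00000000000048, 0x260000000001b, 0x48a600000000016, 0x9800000012, 0x300088800000010, 0x31048a80000000f, 0x241280000000e, 0x30008880000000d],
  [],
  [0],
  [0],
  [0],
  [0],
  [],
  [0x666651d1c4242424243324332109090a390a388484, 0xb00000000000048, 0x980000001b, 0x48a400000000016, 0x2600000000012, 0x1800a8000000010, 0x710c8880000000f, 0x1040a80000000e, 0x1800a800000000d],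
  [0],
  [0],
  [0],
  [0]]
  (by decide +kernel)

theorem free_12_8192_36864 : Free 12 8192 36864 := free_of_chk tabOK
  [[],
  [0],
  [0],
  [0],
  [0]]
  (by decide +kernel)

theorem free_10_12288_32768 : Free 10 12288 32768 := free_of_chk tabOK
  [[],
  [0x666651d1c4242424243324332109090a390a388484, 0xb00000000000048, 0x260000000001b, 0x48a600000000016, 0x2600000000012, 0x1800a8000000010, 0x31048a80000000f, 0x1040a80000000e, 0x1800a800000000d],
  [0x666651d1c4242424243324332109090a390a388484, 0xb00000000000048, 0x980000001b, 0x48a600000000016, 0x2600000000012, 0x1800a8000000010, 0x31048a80000000f, 0x1040a80000000e, 0x1800a800000000d],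
  [0xcccca0a08848484848664866421212147c1474110a088504, 0xa0100000000004c, 0x260000000001b, 0x48a400000000016, 0x2600000000012, 0x1800a8000000010, 0x72048880000000f, 0x1040a80000000e, 0x1800a800000000d],
  [0xcccca3a38848484848664866421212147c1474710a388484, 0xb00000000000048, 0x260000000001b, 0x48a600000000016, 0x2600000000012, 0x1800a8000000010, 0x31048a80000000f, 0x1040a80000000e, 0x1800a800000000d]]
  (by decide +kernel)

theorem free_10_12288_33792 : Free 10 12288 33792 := free_of_chk tabOK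
  [[],
  [0x666651d1c4242424243324332109090a390a388484, 0xb00000000000048, 0x260000000001b, 0x48a600000000016, 0x2600000000012, 0x1800a8000000010, 0x31048a80000000f, 0x1040a80000000e, 0x1800a800000000d],
  [0x666651d1c4242424243324332109090a390a388484, 0xb00000000000048, 0x260000000001b, 0x48a600000000016, 0x2600000000012, 0x1800a8000000010, 0x710c8880000000f, 0x1040a80000000e, 0x1800a800000000d],
  [0xcccca3a38848484848664866421212147c1474710a388484, 0xb00000000000048, 0x260000000001b, 0x48a600000000016, 0x2600000000012, 0x1800a8000000010, 0x31048a80000000f, 0x1040a80000000e, 0x1800a800000000d],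
  [0]]
  (by decide +kernel)

theorem free_10_13312_32768 : Free 10 13312 32768 := free_of_chk tabOK
  [[],
  [0x199994141414120884848484866486642121214741474110a088504, 0xa0100000000004c, 0x260000000001b, 0x48a400000000016, 0x2600000000012, 0x1800a8000000010, 0x72048880000000f, 0x1040a80000000e, 0x1800a800000000d],
  [0x1999941414141208848484848664866421212147c1474110a088504, 0xa0100000000004c, 0x260000000001b, 0x48a400000000016, 0x2600000000012, 0x1040a800000010, 0x72048880000000f, 0x1040a80000000e, 0x1800a800000000d],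
  [0xcf3a28a289112492493393384924b38b28914511288944, 0xa0100000000004c, 0x2600000000012, 0x1800a8000000010, 0x72048880000000f, 0x1040a80000000e, 0x1800a800000000d],
  [0xcf3a28a289112492493393384924e38b28914511288944, 0xa0100000000004c, 0x2600000000012, 0x1800a8000000010, 0x72048880000000f, 0x1040a80000000e, 0x1800a800000000d]]
  (by decide +kernel)

theorem free_10_13312_33792 : Free 10 13312 33792 := free_of_chk tabOK
  [[],
  [],
  [0x666651d1c4242424243324332109090a390a388484, 0xb00000000000048, 0x260000000001b, 0x48a600000000016, 0x2600000000012, 0x1800a8000000010, 0x710c8880000000f, 0x1040a80000000e, 0x1800a800000000d],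
  [0],
  [0],
  [0],
  [0],
  [0],
  [0]]
  (by decide +kernel)

theorem free_11_12288_34816 : Free 11 12288 34816 := free_of_chk tabOK
  [[],
  [0],
  [0],
  [0],
  [0]]
  (by decide +kernel)

theorem free_11_14336_32768 : Free 11 14336 32768 := free_of_chk tabOK
  [[],
  [0x679d145144889249249249267271049249249227125967165132cb2891124924a224925122448914511288944, 0xa0100000000004c, 0x2600000000012, 0x9800000010, 0x72048880000000f, 0x1040a80000000e, 0x1800a800000000d],
  [0],
  [],
  [0x67451444924924ce4d73d738249249249128928914511288944, 0xa0100000000004c, 0x2600000000012, 0x9800000010, 0x72048880000000f, 0x10c0980000000e, 0x1800a800000000d],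
  [0],
  [0],
  [0],
  [0]]
  (by decide +kernel)

theorem free_11_14336_34816 : Free 11 14336 34816 := free_of_chk tabOK
  [[0]]
  (by decide +kernel)

theorem free_12_12288_36864 : Free 12 12288 36864 := free_of_chk tabOK
  [[0]]
  (by decide +kernel)

theorem free_13_8192_40960 : Free 13 8192 40960 := free_of_chk tabOK
  [[0]]
  (by decide +kernel)

theorem free_14_0_49152 : Free 14 0 49152 := free_of_chk tabOK
  [[0]]
  (by decide +kernel)

theorem free_14_16384_32768 : Free 14 16384 32768 := free_of_chk tabOK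
  [[],
  [],
  [],
  [0],
  [0],
  [0],
  [0],
  [0],
  [0],
  [0],
  [0],
  [0],
  [0]]
  (by decide +kernel)

theorem free_14_16384_49152 : Free 14 16384 49152 := free_of_chk tabOK
  [[0]]
  (by decide +kernel)

end Pool.Agent.P.MP_862e21_al
end

-- part Pool.Agent.P.MP_862e21_al.OCAll
section

namespace Pool.Agent.P.MP_862e21_al

theorem free_12_0_8192 : Free 12 0 8192 :=
  free_split free_11_0_8192 free_11_0_10240 free_11_2048_8192 free_11_2048_10240 rfl rfl

theorem free_12_0_12288 : Free 12 0 12288 :=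
  free_split free_11_0_12288 free_11_0_14336 free_11_2048_12288 free_11_2048_14336 rfl rfl

theorem free_13_0_8192 : Free 13 0 8192 :=
  free_split free_12_0_8192 free_12_0_12288 free_12_4096_8192 free_12_4096_12288 rfl rfl

theorem free_14_0_0 : Free 14 0 0 :=
  free_split free_13_0_0 free_13_0_8192 free_13_8192_0 free_13_8192_8192 rfl rfl

theorem free_12_0_16384 : Free 12 0 16384 :=
  free_split free_11_0_16384 free_11_0_18432 free_11_2048_16384 free_11_2048_18432 rfl rfl

theorem free_11_4096_20480 : Free 11 4096 20480 :=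
  free_split free_10_4096_20480 free_10_4096_21504 free_10_5120_20480 free_10_5120_21504 rfl rfl

theorem free_11_4096_22528 : Free 11 4096 22528 :=
  free_split free_10_4096_22528 free_10_4096_23552 free_10_5120_22528 free_10_5120_23552 rfl rfl

theorem free_11_6144_22528 : Free 11 6144 22528 :=
  free_split free_10_6144_22528 free_10_6144_23552 free_10_7168_22528 free_10_7168_23552 rfl rfl

theorem free_12_4096_20480 : Free 12 4096 20480 :=
  free_split free_11_4096_20480 free_11_4096_22528 free_11_6144_20480 free_11_6144_22528 rfl rfl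

theorem free_13_0_16384 : Free 13 0 16384 :=
  free_split free_12_0_16384 free_12_0_20480 free_12_4096_16384 free_12_4096_20480 rfl rfl

theorem free_11_6144_24576 : Free 11 6144 24576 :=
  free_split free_10_6144_24576 free_10_6144_25600 free_10_7168_24576 free_10_7168_25600 rfl rfl

theorem free_11_6144_26624 : Free 11 6144 26624 :=
  free_split free_10_6144_26624 free_10_6144_27648 free_10_7168_26624 free_10_7168_27648 rfl rfl

theorem free_12_4096_24576 : Free 12 4096 24576 :=
  free_split free_11_4096_24576 free_11_4096_26624 free_11_6144_24576 free_11_6144_26624 rfl rfl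

theorem free_13_0_24576 : Free 13 0 24576 :=
  free_split free_12_0_24576 free_12_0_28672 free_12_4096_24576 free_12_4096_28672 rfl rfl

theorem free_12_8192_20480 : Free 12 8192 20480 :=
  free_split free_11_8192_20480 free_11_8192_22528 free_11_10240_20480 free_11_10240_22528 rfl rfl

theorem free_13_8192_16384 : Free 13 8192 16384 :=
  free_split free_12_8192_16384 free_12_8192_20480 free_12_12288_16384 free_12_12288_20480 rfl rfl

theorem free_11_8192_24576 : Free 11 8192 24576 :=
  free_split free_10_8192_24576 free_10_8192_25600 free_10_9216_24576 free_10_9216_25600 rfl rfl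

theorem free_11_8192_26624 : Free 11 8192 26624 :=
  free_split free_10_8192_26624 free_10_8192_27648 free_10_9216_26624 free_10_9216_27648 rfl rfl

theorem free_11_10240_26624 : Free 11 10240 26624 :=
  free_split free_10_10240_26624 free_10_10240_27648 free_10_11264_26624 free_10_11264_27648 rfl rfl

theorem free_12_8192_24576 : Free 12 8192 24576 :=
  free_split free_11_8192_24576 free_11_8192_26624 free_11_10240_24576 free_11_10240_26624 rfl rfl

theorem free_11_8192_28672 : Free 11 8192 28672 :=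
  free_split free_10_8192_28672 free_10_8192_29696 free_10_9216_28672 free_10_9216_29696 rfl rfl

theorem free_11_10240_28672 : Free 11 10240 28672 :=
  free_split free_10_10240_28672 free_10_10240_29696 free_10_11264_28672 free_10_11264_29696 rfl rfl

theorem free_11_10240_30720 : Free 11 10240 30720 :=
  free_split free_10_10240_30720 free_10_10240_31744 free_10_11264_30720 free_10_11264_31744 rfl rfl

theorem free_12_8192_28672 : Free 12 8192 28672 :=
  free_split free_11_8192_28672 free_11_8192_30720 free_11_10240_28672 free_11_10240_30720 rfl rfl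

theorem free_12_12288_24576 : Free 12 12288 24576 :=
  free_split free_11_12288_24576 free_11_12288_26624 free_11_14336_24576 free_11_14336_26624 rfl rfl

theorem free_11_12288_30720 : Free 11 12288 30720 :=
  free_split free_10_12288_30720 free_10_12288_31744 free_10_13312_30720 free_10_13312_31744 rfl rfl

theorem free_12_12288_28672 : Free 12 12288 28672 :=
  free_split free_11_12288_28672 free_11_12288_30720 free_11_14336_28672 free_11_14336_30720 rfl rfl

theorem free_13_8192_24576 : Free 13 8192 24576 :=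
  free_split free_12_8192_24576 free_12_8192_28672 free_12_12288_24576 free_12_12288_28672 rfl rfl

theorem free_14_0_16384 : Free 14 0 16384 :=
  free_split free_13_0_16384 free_13_0_24576 free_13_8192_16384 free_13_8192_24576 rfl rfl

theorem free_14_16384_0 : Free 14 16384 0 :=
  free_split free_13_16384_0 free_13_16384_8192 free_13_24576_0 free_13_24576_8192 rfl rfl

theorem free_13_16384_16384 : Free 13 16384 16384 :=
  free_split free_12_16384_16384 free_12_16384_20480 free_12_20480_16384 free_12_20480_20480 rfl rfl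

theorem free_12_16384_28672 : Free 12 16384 28672 :=
  free_split free_11_16384_28672 free_11_16384_30720 free_11_18432_28672 free_11_18432_30720 rfl rfl

theorem free_13_16384_24576 : Free 13 16384 24576 :=
  free_split free_12_16384_24576 free_12_16384_28672 free_12_20480_24576 free_12_20480_28672 rfl rfl

theorem free_13_24576_16384 : Free 13 24576 16384 :=
  free_split free_12_24576_16384 free_12_24576_20480 free_12_28672_16384 free_12_28672_20480 rfl rfl

theorem free_13_24576_24576 : Free 13 24576 24576 :=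
  free_split free_12_24576_24576 free_12_24576_28672 free_12_28672_24576 free_12_28672_28672 rfl rfl

theorem free_14_16384_16384 : Free 14 16384 16384 :=
  free_split free_13_16384_16384 free_13_16384_24576 free_13_24576_16384 free_13_24576_24576 rfl rfl

theorem free_15_0_0 : Free 15 0 0 :=
  free_split free_14_0_0 free_14_0_16384 free_14_16384_0 free_14_16384_16384 rfl rfl

theorem free_12_8192_32768 : Free 12 8192 32768 :=
  free_split free_11_8192_32768 free_11_8192_34816 free_11_10240_32768 free_11_10240_34816 rfl rfl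

theorem free_11_12288_32768 : Free 11 12288 32768 :=
  free_split free_10_12288_32768 free_10_12288_33792 free_10_13312_32768 free_10_13312_33792 rfl rfl

theorem free_12_12288_32768 : Free 12 12288 32768 :=
  free_split free_11_12288_32768 free_11_12288_34816 free_11_14336_32768 free_11_14336_34816 rfl rfl

theorem free_13_8192_32768 : Free 13 8192 32768 :=
  free_split free_12_8192_32768 free_12_8192_36864 free_12_12288_32768 free_12_12288_36864 rfl rfl

theorem free_14_0_32768 : Free 14 0 32768 :=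
  free_split free_13_0_32768 free_13_0_40960 free_13_8192_32768 free_13_8192_40960 rfl rfl

theorem free_15_0_32768 : Free 15 0 32768 :=
  free_split free_14_0_32768 free_14_0_49152 free_14_16384_32768 free_14_16384_49152 rfl rfl

end Pool.Agent.P.MP_862e21_al
end

-- part Pool.Agent.P.MP_862e21_al.OCMid
section

namespace Pool.Agent.P.MP_862e21_al

open Finset Pointwise Complex

theorem no_reg {c : ℂ} (h : Reg c) (hi : 0 ≤ c.im) : False := by
  have s1 : ‖c‖ ^ 2 = c.re ^ 2 + c.im ^ 2 := by rw [Complex.sq_norm, normSq_apply]; ring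
  have s2 : ‖1 - c‖ ^ 2 = (1 - c.re) ^ 2 + c.im ^ 2 := by
    rw [Complex.sq_norm, normSq_apply]; simp; ring
  have a1 : ‖c‖ ^ 2 ≤ ‖1 - c‖ ^ 2 := by gcongr; exact h.h2
  have a2 : ‖1 - c‖ ^ 2 ≤ 1 ^ 2 := by gcongr; exact h.h3
  have b1 : c.re ≤ 1 / 2 := by nlinarith
  have b2 : 0 ≤ c.re := by nlinarith [sq_nonneg c.re, sq_nonneg c.im]
  have b3 : c.im ≤ 1 := by nlinarith [sq_nonneg (1 - c.re)]
  rcases le_total c.im (1 / 2) with b | b
  · refine free_15_0_0 c h ⟨?_, ?_, ?_, ?_⟩ <;> simp <;> linarith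
  · refine free_15_0_32768 c h ⟨?_, ?_, ?_, ?_⟩ <;> simp <;> linarith

/-- the potential -/
noncomputable def hpot (x y z : ℂ) : ℝ := ‖y - z‖ / (‖x - y‖ * ‖x - z‖)

theorem hpot_swap (x y z : ℂ) : hpot x z y = hpot x y z := by
  unfold hpot
  rw [norm_sub_rev z y, mul_comm]

theorem br_ne {c : ℂ} (c0 : c ≠ 0) (c1 : c ≠ 1) (cN : c ^ 2 - c + 1 ≠ 0) {i j : Fin 6}
    (h : i ≠ j) : br c i j ≠ 0 := by
  rw [← norm_ne_zero_iff, norm_br c h, norm_ne_zero_iff]
  unfold tyv
  split_ifs
  exacts [one_ne_zero, c0, sub_ne_zero.2 c1.symm, cN]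

theorem br_swap (c : ℂ) (i j : Fin 6) : br c i j = -br c j i := by unfold br; ring

/-- a colouring of the six points has a code -/
theorem col_code : ∀ (η : Bool) (a b d : Fin 3), ∃ N < 54, decide (27 ≤ N) = η ∧
    N % 3 = a.val ∧ N / 3 % 3 = b.val ∧ N / 9 % 3 = d.val := by decide

theorem exists_code (η : Bool) {κ : Fin 6 → Fin 3} (k0 : κ 0 = 0) (k1 : κ 1 = 1) (k2 : κ 2 = 2) :
    ∃ N < 54, decide (27 ≤ N) = η ∧
      ∀ a b e, rb N a b e = true → κ a ≠ κ b ∧ κ a ≠ κ e ∧ κ b ≠ κ e := by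
  obtain ⟨N, hN, h0, h1, h2, h3⟩ := col_code η (κ 3) (κ 4) (κ 5)
  have hc : ∀ i, col N i = (κ i).val := by
    intro i
    fin_cases i <;> simp [col, k0, k1, k2, h1, h2, h3]
  refine ⟨N, hN, h0, fun a b e h => ?_⟩
  simp only [rb, Bool.and_eq_true, bne_iff_ne, hc] at h
  exact ⟨fun e => h.1.1 (by rw [e]), fun e => h.1.2 (by rw [e]), fun e => h.2 (by rw [e])⟩

/-- the potential of a triple in the family of `(p i, p j, p k)` -/
theorem ineq_of_pot {c u Δ : ℂ} (c0 : c ≠ 0) (c1 : c ≠ 1) (cN : c ^ 2 - c + 1 ≠ 0) (hΔ : Δ ≠ 0)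
    {p q : Fin 6 → ℂ} (hl : ∀ i, (PW c i).1 - u * (PW c i).2 ≠ 0)
    (hp : ∀ i j, p i - p j =
      Δ * br c i j / (((PW c i).1 - u * (PW c i).2) * ((PW c j).1 - u * (PW c j).2)))
    {i j k : Fin 6} (ij : i ≠ j) (ik : i ≠ k) (jk : j ≠ k)
    (hq : ∀ a, (PW c a).2 * ((q a - p j) * (p k - p i)) = (PW c a).1 * ((p k - p j) * (q a - p i)))
    {a b e : Fin 6} (ab : a ≠ b) (ae : a ≠ e) (h : hpot (q a) (q b) (q e) ≤ ‖Δ‖⁻¹) :
    Ineq c u i j k a b e := by
  have bn := @br_ne c c0 c1 cN
  have pn : ∀ {i j : Fin 6}, i ≠ j → p i ≠ p j := fun {i j} h => by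
    rw [← sub_ne_zero, hp]
    exact div_ne_zero (mul_ne_zero hΔ (bn h)) (mul_ne_zero (hl i) (hl j))
  obtain ⟨hΔ', hl', hq'⟩ := six_param c0 c1 (pn ij) (pn ik) (pn jk) hq rfl rfl
  have kj := bn jk.symm
  have ji := bn ij.symm
  have ki := bn ik.symm
  have li := hl i
  have lj := hl j
  have lk := hl k
  have e1 : (p k - p i) / (p k - p j) =
      br c k i * ((PW c j).1 - u * (PW c j).2) / (br c k j * ((PW c i).1 - u * (PW c i).2)) := by
    rw [hp k i, hp k j]
    field_simp
  rw [e1] at hΔ' hl' hq'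
  have e2 : (PW c a).1 - br c k i * ((PW c j).1 - u * (PW c j).2) /
      (br c k j * ((PW c i).1 - u * (PW c i).2)) * (PW c a).2 =
      LL c u i j k a / (br c k j * ((PW c i).1 - u * (PW c i).2)) := by
    unfold LL
    field_simp
  have e3 : (p j - p i) * (br c k i * ((PW c j).1 - u * (PW c j).2) /
      (br c k j * ((PW c i).1 - u * (PW c i).2))) =
      Δ * br c j i * br c k i / (br c k j * ((PW c i).1 - u * (PW c i).2) ^ 2) := by
    rw [hp j i]
    field_simp
  unfold hpot at h
  rw [hq' b e, hq' a b, hq' a e, e2, e3] at h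
  have la := hl' a
  have lb := hl' b
  have le := hl' e
  rw [e2] at la
  have la' : LL c u i j k a ≠ 0 := fun h0 => la (by rw [h0, zero_div])
  have nab := bn ab
  have nae := bn ae
  generalize (PW c b).1 - br c k i * ((PW c j).1 - u * (PW c j).2) /
      (br c k j * ((PW c i).1 - u * (PW c i).2)) * (PW c b).2 = Lb at h lb
  generalize (PW c e).1 - br c k i * ((PW c j).1 - u * (PW c j).2) /
      (br c k j * ((PW c i).1 - u * (PW c i).2)) * (PW c e).2 = Le at h le
  unfold Ineq
  generalize LL c u i j k a = L at h la' ⊢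
  generalize (PW c i).1 - u * (PW c i).2 = l at h li
  simp only [norm_mul, norm_div, norm_pow] at h
  rw [← norm_pos_iff] at hΔ kj ji ki li la' nab nae lb le
  generalize ‖Δ‖ = d, ‖br c k j‖ = x1, ‖br c j i‖ = x2, ‖br c k i‖ = x3, ‖br c a b‖ = x4,
    ‖br c a e‖ = x5, ‖br c b e‖ = y, ‖L‖ = L', ‖l‖ = l', ‖Lb‖ = m, ‖Le‖ = n at *
  have e4 : d * x2 * x3 / (x1 * l' ^ 2) * y / (m * n) /
      (d * x2 * x3 / (x1 * l' ^ 2) * x4 / (L' / (x1 * l') * m) *
        (d * x2 * x3 / (x1 * l' ^ 2) * x5 / (L' / (x1 * l') * n))) =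
      d⁻¹ * (y * L' ^ 2 / (x1 * x2 * x3 * x4 * x5)) := by
    field_simp
  rw [e4] at h
  have h2 : y * L' ^ 2 / (x1 * x2 * x3 * x4 * x5) ≤ 1 :=
    (mul_le_iff_le_one_right (inv_pos.2 hΔ)).1 h
  exact (div_le_one (by positivity)).1 h2

theorem hyp_of_oc [DecidableEq ℂ] {c : ℂ} {η : Bool} {TT : Finset (ℂ × ℂ × ℂ)} (h : OC c η TT) :
    Hyp c := by
  obtain ⟨t, ht, hmax⟩ := exists_max_image TT (fun t => hpot t.1 t.2.1 t.2.2) h.ne
  obtain ⟨x, y, z⟩ := t
  obtain ⟨xy, xz, yz⟩ := h.dist _ ht
  obtain ⟨p, κ, p0, p1, p2, k0, k1, k2, hp, hT⟩ := h.ext _ ht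
  simp only at xy xz yz p0 p1 p2 hp hmax
  obtain ⟨hΔ, hl, hd⟩ := six_param h.c0 h.c1 xy xz yz hp rfl rfl
  have hm : hpot x y z = ‖(y - x) * ((z - x) / (z - y))‖⁻¹ := by
    unfold hpot
    rw [norm_mul, norm_div, norm_sub_rev y x, norm_sub_rev z x, norm_sub_rev z y]
    have := norm_pos_iff.2 (sub_ne_zero.2 xy)
    have := norm_pos_iff.2 (sub_ne_zero.2 xz)
    have := norm_pos_iff.2 (sub_ne_zero.2 yz)
    field_simp
  rw [hm] at hmax
  generalize (y - x) * ((z - x) / (z - y)) = Δ at hΔ hd hmax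
  generalize (z - x) / (z - y) = u at hl hd
  have surv : ∀ {i j k : Fin 6}, i ≠ j → i ≠ k → j ≠ k → ∀ {q : Fin 6 → ℂ} {κ' : Fin 6 → Fin 3},
      (∀ a, (PW c a).2 * ((q a - p j) * (p k - p i)) =
        (PW c a).1 * ((p k - p j) * (q a - p i))) →
      (∀ a b e, κ' a ≠ κ' b → κ' a ≠ κ' e → κ' b ≠ κ' e → ori η a b e = true →
        (q a, q b, q e) ∈ TT) → ∀ {N : ℕ},
      (∀ a b e, rb N a b e = true → κ' a ≠ κ' b ∧ κ' a ≠ κ' e ∧ κ' b ≠ κ' e) →
      Surv c u i j k N := by
    intro i j k ij ik jk q κ' hq hT' N hN a b e hr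
    obtain ⟨ab, ae, be⟩ := rb_ne hr
    obtain ⟨r1, r2, r3⟩ := hN a b e hr
    refine ineq_of_pot h.c0 h.c1 h.cN hΔ hl hd ij ik jk hq ab ae ?_
    rcases ori_tot η a b e ab ae be with o | o
    · exact hmax _ (hT' a b e r1 r2 r3 o)
    · rw [← hpot_swap]
      exact hmax _ (hT' a e b r2 r1 r3.symm o)
  obtain ⟨N0, hN0, eη, hc⟩ := exists_code η k0 k1 k2
  have s0 : Surv c u 0 1 2 N0 :=
    surv (by decide) (by decide) (by decide) (by rw [p0, p1, p2]; exact hp) hT hc
  refine ⟨u, N0, hN0, ?_, ?_, s0, ?_⟩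
  · have := s0 1 0 2 (by simp [rb, col])
    simp only [Ineq, LL, br, PW] at this
    simp at this
    exact (abs_le.1 (by simpa using this : |‖u‖| ≤ 1)).2
  · have := s0 2 0 1 (by simp [rb, col])
    simp only [Ineq, LL, br, PW] at this
    simp at this
    rw [norm_sub_rev]
    exact (abs_le.1 (by simpa using this : |‖1 - u‖| ≤ 1)).2
  · intro i j k hr ho
    rw [eη] at ho
    obtain ⟨ij, ik, jk⟩ := rb_ne hr
    obtain ⟨r1, r2, r3⟩ := hc i j k hr
    obtain ⟨q, κ', -, -, -, k0', k1', k2', hq, hT'⟩ := h.ext _ (hT i j k r1 r2 r3 ho)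
    obtain ⟨N, hN, -, hc'⟩ := exists_code η k0' k1' k2'
    exact ⟨N, hN, surv ij ik jk hq hT' hc'⟩

theorem omid [DecidableEq ℂ] {c : ℂ} {η : Bool} {TT : Finset (ℂ × ℂ × ℂ)} (h : OC c η TT)
    (h1 : 1 / 8 ≤ ‖c‖) (h2 : ‖c‖ ≤ ‖1 - c‖) (h3 : ‖1 - c‖ ≤ 1)
    (hJ : ‖c ^ 2 * (1 - c) ^ 2‖ ≤ ‖(c ^ 2 - c + 1) ^ 3‖) : False := by
  rw [norm_mul, norm_pow, norm_pow, norm_pow] at hJ
  rcases le_total 0 c.im with hi | hi
  · exact no_reg ⟨h1, h2, h3, hJ, hyp_of_oc h⟩ hi
  · have inj : Function.Injective (starRingEnd ℂ) := (starRingEnd ℂ).injective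
    have e1 : 1 - (starRingEnd ℂ) c = (starRingEnd ℂ) (1 - c) := by simp
    have e2 : (starRingEnd ℂ) c ^ 2 - (starRingEnd ℂ) c + 1 = (starRingEnd ℂ) (c ^ 2 - c + 1) := by
      simp
    have h' := h.map ⊤ (starRingEnd ℂ) (map_one _) (fun x _ y _ => map_sub _ x y)
      (fun x _ y _ => map_mul _ x y) trivial (fun _ _ => trivial)
      (fun t ht => inj.ne (h.dist t ht).1) ((map_ne_zero _).2 h.c0)
      (by rw [← map_one (starRingEnd ℂ)]; exact inj.ne h.c1)
      (by rw [e2]; exact (map_ne_zero _).2 h.cN)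
    refine no_reg ⟨?_, ?_, ?_, ?_, hyp_of_oc h'⟩ (by simpa using hi)
    · rwa [norm_conj]
    · rwa [e1, norm_conj, norm_conj]
    · rwa [e1, norm_conj]
    · rwa [e1, e2, norm_conj, norm_conj, norm_conj]

end Pool.Agent.P.MP_862e21_al
end

-- part Pool.Agent.P.MP_862e21_al.OCAlg
section

namespace Pool.Agent.P.MP_862e21_al

open Finset Pointwise

variable {F : Type*} [Field F] [DecidableEq F]

/-- specialisation of an oriented family to the complex numbers -/
theorem ocalg_spec [CharZero F] [DecidableEq ℂ] {c l : F} {η : Bool}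
    {TT : Finset (F × F × F)} (h : OC c η TT) (hl : IsIntegral ℚ l) {l' : ℂ}
    (hl' : Polynomial.aeval l' (minpoly ℚ l) = 0) :
    ∃ (c' : ℂ) (TT' : Finset (ℂ × ℂ × ℂ)), OC c' η TT' ∧ (l = c → c' = l') ∧
      (l = c - 1 → c' = l' + 1) := by
  obtain ⟨R, g, hR, gl, g1, gsub, gmul⟩ := spec_hom
    (TT.image (fun t => t.1) ∪ TT.image (fun t => (t.1 - t.2.1)⁻¹) ∪
      {l, c, c⁻¹, (1 - c)⁻¹, (c ^ 2 - c + 1)⁻¹}) (by simp) hl hl'
  have hT : ∀ t ∈ TT, t.1 ∈ R := fun t ht =>
    hR _ (mem_union_left _ (mem_union_left _ (mem_image.mpr ⟨t, ht, rfl⟩)))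
  have hT2 : ∀ t ∈ TT, t.2.1 ∈ R := fun t ht =>
    hT (t.2.1, t.2.2, t.1) (h.cyc (x := t.1) (y := t.2.1) (z := t.2.2) ht)
  have hD : ∀ t ∈ TT, (t.1 - t.2.1)⁻¹ ∈ R := fun t ht =>
    hR _ (mem_union_left _ (mem_union_right _ (mem_image.mpr ⟨t, ht, rfl⟩)))
  have cR : c ∈ R := hR _ (by simp)
  have ciR : c⁻¹ ∈ R := hR _ (by simp)
  have c1R : (1 - c)⁻¹ ∈ R := hR _ (by simp)
  have cNR : (c ^ 2 - c + 1)⁻¹ ∈ R := hR _ (by simp)
  have gne : ∀ x ∈ R, x ≠ 0 → x⁻¹ ∈ R → g x ≠ 0 := by
    intro x hx x0 hi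
    have : g x * g x⁻¹ = 1 := by rw [← gmul x hx _ hi, mul_inv_cancel₀ x0, g1]
    exact left_ne_zero_of_mul_eq_one this
  have g1c : g (1 - c) = 1 - g c := by rw [gsub 1 R.one_mem c cR, g1]
  have gN : g (c ^ 2 - c + 1) = g c ^ 2 - g c + 1 := by
    have e : c ^ 2 - c + 1 = 1 - c * (1 - c) := by ring
    rw [e, gsub 1 R.one_mem _ (R.mul_mem cR (R.sub_mem R.one_mem cR)),
      gmul c cR _ (R.sub_mem R.one_mem cR), g1c, g1]
    ring
  have NR : c ^ 2 - c + 1 ∈ R := R.add_mem (R.sub_mem (R.pow_mem cR 2) cR) R.one_mem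
  refine ⟨g c, _, h.map R.toSubring g g1 gsub gmul cR hT ?_ (gne c cR h.c0 ciR) ?_ ?_, ?_, ?_⟩
  · intro t ht e
    have := gne _ (R.sub_mem (hT t ht) (hT2 t ht)) (sub_ne_zero.mpr (h.dist t ht).1) (hD t ht)
    rw [gsub _ (hT t ht) _ (hT2 t ht), e, sub_self] at this
    exact this rfl
  · intro e
    have := gne _ (R.sub_mem R.one_mem cR) (sub_ne_zero.mpr h.c1.symm) c1R
    rw [g1c, e, sub_self] at this
    exact this rfl
  · rw [← gN]
    exact gne _ NR h.cN cNR
  · intro e
    rw [← e, gl]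
  · intro e
    rw [← gl, e, gsub c cR 1 R.one_mem, g1]
    ring

/-- the inequality for the invariant does not depend on the representative -/
theorem ocalg_inv [DecidableEq ℂ] {l s : ℂ} (h0 : l ≠ 0) (h1 : l ≠ 1) (hs : s ∈ Lam l)
    (hJ : ‖l ^ 2 * (1 - l) ^ 2‖ ≤ ‖(l ^ 2 - l + 1) ^ 3‖) :
    ‖s ^ 2 * (1 - s) ^ 2‖ ≤ ‖(s ^ 2 - s + 1) ^ 3‖ := by
  have hp : 0 < ‖l ^ 2 * (1 - l) ^ 2‖ := norm_pos_iff.2
    (mul_ne_zero (pow_ne_zero _ h0) (pow_ne_zero _ (sub_ne_zero.mpr h1.symm)))
  have e := congrArg norm (geo_inv h0 h1 hs)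
  rw [norm_mul, norm_mul ((l ^ 2 - l + 1) ^ 3)] at e
  refine le_of_mul_le_mul_right ?_ hp
  rw [e, mul_comm]
  exact mul_le_mul_of_nonneg_right hJ (norm_nonneg _)

/-- a normalised representative -/
theorem ocalg_norm [DecidableEq ℂ] {l : ℂ} (h0 : l ≠ 0) (h1 : l ≠ 1) :
    ∃ s ∈ Lam l, ‖s‖ ≤ ‖1 - s‖ ∧ ‖1 - s‖ ≤ 1 := by
  obtain ⟨t, ht, a1, a2⟩ := geo_order h0 h1
  have t1 : t - 1 ≠ 0 := sub_ne_zero.mpr (lam_ne_one h0 h1 ht)
  have t2 : 1 - t ≠ 0 := sub_ne_zero.mpr (lam_ne_one h0 h1 ht).symm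
  have hb : 0 < ‖1 - t‖ := norm_pos_iff.2 t2
  have e4 : 1 - t / (t - 1) = (1 - t)⁻¹ := by field_simp; ring
  refine ⟨t / (t - 1), lam_sub h0 h1 ht (by simp [mem_Lam]), ?_, ?_⟩
  · rw [e4, norm_inv, norm_div, norm_sub_rev t 1, inv_eq_one_div]
    exact div_le_div_of_nonneg_right a1 hb.le
  · rw [e4, norm_inv]
    exact inv_le_one_of_one_le₀ a2

/-- a primitive root with a real part of at least one fifth -/
theorem ocalg_pick {n : ℕ} (hn : n = 1 ∨ 5 ≤ n) :
    ∃ ζ : ℂ, IsPrimitiveRoot ζ n ∧ 1 / 5 ≤ ζ.re := by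
  rcases hn with rfl | hn
  · exact ⟨1, IsPrimitiveRoot.one, by norm_num⟩
  refine ⟨_, Complex.isPrimitiveRoot_exp n (by omega), ?_⟩
  have e : (2 * Real.pi * Complex.I / (n : ℂ)) =
      ((2 * Real.pi / n : ℝ) : ℂ) * Complex.I := by
    push_cast; ring
  rw [e, Complex.exp_ofReal_mul_I_re]
  have hn5 : (5 : ℝ) ≤ n := by exact_mod_cast hn
  have p0 := Real.pi_pos
  have p1 := Real.pi_lt_d2
  have a0 : 0 ≤ 2 * Real.pi / n := by positivity
  have a1 : 2 * Real.pi / n ≤ 63 / 50 := by
    rw [div_le_iff₀ (by linarith)]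
    nlinarith
  have a2 := Real.one_sub_sq_div_two_le_cos (x := 2 * Real.pi / n)
  nlinarith

/-- the complex root case -/
theorem ocalg_circle [DecidableEq ℂ] {ζ : ℂ} {η : Bool} {TT : Finset (ℂ × ℂ × ℂ)}
    (h : OC (ζ + 1) η TT) (n1 : ‖ζ‖ = 1) (hre : 1 / 5 ≤ ζ.re) : False := by
  have c0 := h.c0
  have q1 : ζ.re ^ 2 + ζ.im ^ 2 = 1 := by rw [← geo_sq, n1]; norm_num
  have r1 : ζ.re ≤ 1 := by nlinarith
  have q2 : ‖ζ + 1‖ ^ 2 = 2 + 2 * ζ.re := by
    rw [geo_sq]
    simp only [Complex.add_re, Complex.add_im, Complex.one_re, Complex.one_im]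
    linarith
  have q3 : ‖(ζ + 1) ^ 2 - (ζ + 1) + 1‖ = 1 + 2 * ζ.re := by
    have e : (ζ + 1) ^ 2 - (ζ + 1) + 1 = ζ * ((1 + 2 * ζ.re : ℝ) : ℂ) := by
      apply Complex.ext
      · simp only [sq, Complex.add_re, Complex.sub_re, Complex.mul_re, Complex.one_re,
          Complex.add_im, Complex.one_im, Complex.ofReal_re, Complex.ofReal_im]
        linarith
      · simp only [sq, Complex.add_re, Complex.sub_im, Complex.mul_im, Complex.one_re,
          Complex.add_im, Complex.one_im, Complex.ofReal_re, Complex.ofReal_im]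
        ring
    rw [e, norm_mul, n1, one_mul, Complex.norm_real, Real.norm_of_nonneg (by linarith)]
  have hJ : ‖(ζ + 1) ^ 2 * (1 - (ζ + 1)) ^ 2‖ ≤ ‖((ζ + 1) ^ 2 - (ζ + 1) + 1) ^ 3‖ := by
    have e : 1 - (ζ + 1) = -ζ := by ring
    rw [norm_mul, norm_pow, norm_pow, norm_pow, q2, q3, e, norm_neg, n1]
    nlinarith [mul_nonneg (sub_nonneg.mpr hre) (sq_nonneg ζ.re), sq_nonneg (ζ.re - 1 / 5)]
  have hs : (ζ + 1)⁻¹ ∈ Lam (ζ + 1) := lam_inv h.c0 h.c1 (self_mem_Lam _)
  obtain ⟨TT', h'⟩ := h.of_mem hs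
  have np : 0 < ‖ζ + 1‖ := norm_pos_iff.2 c0
  have b1 : 1 ≤ ‖ζ + 1‖ := by
    refine le_of_pow_le_pow_left₀ two_ne_zero np.le ?_
    rw [q2]; linarith
  have b2 : ‖ζ + 1‖ ≤ 8 := by
    refine le_of_pow_le_pow_left₀ two_ne_zero (by norm_num) ?_
    rw [q2]; linarith
  have e1 : ‖1 - (ζ + 1)⁻¹‖ = ‖ζ + 1‖⁻¹ := by
    have e : 1 - (ζ + 1)⁻¹ = ζ * (ζ + 1)⁻¹ := by field_simp; ring
    rw [e, norm_mul, n1, one_mul, norm_inv]
  refine omid h' ?_ ?_ ?_ (ocalg_inv h.c0 h.c1 hs hJ)
  · rw [norm_inv, one_div]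
    exact inv_anti₀ np b2
  · rw [e1, norm_inv]
  · rw [e1]
    exact inv_le_one_of_one_le₀ b1

/-- the case that `d - 1` is a root of unity -/
theorem ocalg_root [CharZero F] (hi : ¬ IsSquare (-1 : F)) {d : F} {η : Bool}
    {TT : Finset (F × F × F)} (h : OC d η TT) {m : ℕ} (hm : 1 ≤ m) (hd : (d - 1) ^ m = 1) :
    False := by
  classical
  have hfin : IsOfFinOrder (d - 1) := isOfFinOrder_iff_pow_eq_one.mpr ⟨m, hm, hd⟩
  have hpos : 0 < orderOf (d - 1) := hfin.orderOf_pos
  have hprim : IsPrimitiveRoot (d - 1) (orderOf (d - 1)) := IsPrimitiveRoot.orderOf _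
  have hn2 : orderOf (d - 1) ≠ 2 := by
    intro e
    rw [e] at hprim
    exact h.c0 (by linear_combination hprim.eq_neg_one_of_two_right)
  have hn3 : orderOf (d - 1) ≠ 3 := by
    intro e
    have := hprim.isRoot_cyclotomic hpos
    rw [e, Polynomial.cyclotomic_three] at this
    simp only [Polynomial.IsRoot.def, Polynomial.eval_add, Polynomial.eval_pow,
      Polynomial.eval_X, Polynomial.eval_one] at this
    exact h.cN (by linear_combination this)
  have hn4 : orderOf (d - 1) ≠ 4 := by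
    intro e
    rw [e] at hprim
    have h2 : IsPrimitiveRoot ((d - 1) ^ 2) 2 := hprim.pow (by norm_num) (by norm_num)
    exact hi ⟨d - 1, by linear_combination -h2.eq_neg_one_of_two_right⟩
  obtain ⟨ζ, hζ, hre⟩ := ocalg_pick (n := orderOf (d - 1)) (by omega)
  have hint : IsIntegral ℚ (d - 1) := (hprim.isIntegral hpos).tower_top
  have hz : Polynomial.aeval ζ (minpoly ℚ (d - 1)) = 0 := by
    rw [← Polynomial.cyclotomic_eq_minpoly_rat hprim hpos,
      Polynomial.cyclotomic_eq_minpoly_rat hζ hpos]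
    exact minpoly.aeval ℚ ζ
  obtain ⟨c', TT', h', -, e⟩ := ocalg_spec h hint hz
  rw [e rfl] at h'
  exact ocalg_circle h' (hζ.norm'_eq_one hpos.ne') hre

/-- no value of the cross ratio is a root of unity -/
theorem ocalg_root' [CharZero F] (hi : ¬ IsSquare (-1 : F)) {c s : F} {η : Bool}
    {TT : Finset (F × F × F)} (h : OC c η TT) (hs : s ∈ Lam c) {m : ℕ} (hm : 1 ≤ m)
    (e : s ^ (2 * m) = 1) : False := by
  obtain ⟨TT', h'⟩ := h.of_mem (lam_one_sub h.c0 h.c1 hs)
  refine ocalg_root hi h' (m := 2 * m) (by omega) ?_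
  have : 1 - s - 1 = -s := by ring
  rw [this, Even.neg_pow (even_two_mul m), e]

theorem ocalg_int [CharZero F] (hi : ¬ IsSquare (-1 : F)) {c : F} {η : Bool}
    {TT : Finset (F × F × F)} (h : OC c η TT) : ∀ s ∈ Lam c, IsIntegral ℤ s := by
  intro s hs
  by_contra hn
  obtain ⟨O, -, hO⟩ := Subring.exists_le_valuationSubring_of_isIntegrallyClosedIn
    (R := (integralClosure ℤ F).toSubring) (x := s) hn
  have h1 : 1 < O.valuation s := not_le.1 fun h2 => hO ((O.valuation_le_one_iff s).1 h2)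
  have h2 : O.valuation s⁻¹ < 1 := by
    rw [map_inv₀]
    exact inv_lt_one_of_one_lt₀ h1
  obtain ⟨TT', h'⟩ := h.of_mem (lam_inv h.c0 h.c1 hs)
  obtain ⟨m, hm, e⟩ := otree h' O h2
  exact ocalg_root hi h' hm e

theorem ocalg_cases {l s : F} (h0 : l ≠ 0) (h1 : l ≠ 1) (hs : s ∈ Lam l) {m : ℕ}
    (e : s ^ (2 * m) = 1) :
    l ^ (2 * m) = 1 ∨ (1 - l) ^ (2 * m) = 1 ∨ l ^ (2 * m) = (1 - l) ^ (2 * m) := by
  have h3 : l - 1 ≠ 0 := sub_ne_zero.mpr h1
  have e1 : (l - 1) ^ (2 * m) = (1 - l) ^ (2 * m) := by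
    rw [← neg_sub 1 l, Even.neg_pow (even_two_mul m)]
  rcases mem_Lam.mp hs with k | k | k | k | k | k <;> subst k
  · exact Or.inl e
  · rw [inv_pow, inv_eq_one] at e
    exact Or.inl e
  · exact Or.inr (Or.inl e)
  · rw [inv_pow, inv_eq_one] at e
    exact Or.inr (Or.inl e)
  · rw [div_pow, div_eq_one_iff_eq (pow_ne_zero _ h0), e1] at e
    exact Or.inr (Or.inr e.symm)
  · rw [div_pow, div_eq_one_iff_eq (pow_ne_zero _ h3), e1] at e
    exact Or.inr (Or.inr e)

omit [DecidableEq F] in
theorem ocalg_back [CharZero F] {l : F} (hl : IsIntegral ℚ l) {l' : ℂ}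
    (hl' : Polynomial.aeval l' (minpoly ℚ l) = 0) (P : Polynomial ℚ)
    (hP : Polynomial.aeval l' P = 0) : Polynomial.aeval l P = 0 := by
  have e : minpoly ℚ l = minpoly ℚ l' :=
    minpoly.eq_of_irreducible_of_monic (minpoly.irreducible hl) hl' (minpoly.monic hl)
  have hd : minpoly ℚ l ∣ P := e ▸ minpoly.dvd ℚ l' hP
  exact Polynomial.aeval_eq_zero_of_dvd_aeval_eq_zero hd (minpoly.aeval ℚ l)

theorem oalg [CharZero F] (hi : ¬ IsSquare (-1 : F)) {c : F} {η : Bool}
    {TT : Finset (F × F × F)} (h : OC c η TT) : False := by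
  classical
  have hint := ocalg_int hi h
  obtain ⟨l', hl', hJ⟩ := conj_big h.c0 h.c1 h.cN hint
  have iq : IsIntegral ℚ c := (hint c (self_mem_Lam c)).tower_top
  obtain ⟨c', T1, h1, e, -⟩ := ocalg_spec h iq hl'
  rw [e rfl] at h1
  obtain ⟨s, hs, s1, s2⟩ := ocalg_norm h1.c0 h1.c1
  obtain ⟨T2, h2⟩ := h1.of_mem hs
  rcases le_total (1 / 8) ‖s‖ with k | k
  · exact omid h2 k s1 s2 (ocalg_inv h1.c0 h1.c1 hs hJ)
  obtain ⟨m, hm, em⟩ := othin h2 k s2
  have e2 : (1 - s) ^ (2 * m) = 1 := by
    rw [← neg_sub s 1, Even.neg_pow (even_two_mul m), mul_comm, pow_mul, em, one_pow]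
  rcases ocalg_cases h1.c0 h1.c1 (lam_one_sub h1.c0 h1.c1 hs) e2 with k1 | k1 | k1
  · have := ocalg_back iq hl' (Polynomial.X ^ (2 * m) - 1) (by simp [k1])
    simp only [map_sub, map_pow, Polynomial.aeval_X, map_one] at this
    exact ocalg_root' hi h (self_mem_Lam c) hm (sub_eq_zero.mp this)
  · have := ocalg_back iq hl' ((1 - Polynomial.X) ^ (2 * m) - 1) (by simp [k1])
    simp only [map_sub, map_pow, Polynomial.aeval_X, map_one] at this
    exact ocalg_root' hi h (lam_one_sub h.c0 h.c1 (self_mem_Lam c)) hm (sub_eq_zero.mp this)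
  · have := ocalg_back iq hl' (Polynomial.X ^ (2 * m) - (1 - Polynomial.X) ^ (2 * m))
      (by simp [k1])
    simp only [map_sub, map_pow, Polynomial.aeval_X, map_one] at this
    refine ocalg_root' hi h (s := c / (c - 1)) (by simp [mem_Lam]) hm ?_
    rw [div_pow, div_eq_one_iff_eq (pow_ne_zero _ (sub_ne_zero.mpr h.c1)), ← neg_sub 1 c,
      Even.neg_pow (even_two_mul m)]
    exact sub_eq_zero.mp this

end Pool.Agent.P.MP_862e21_al
end

-- part Pool.Agent.P.MP_862e21_al.OCFin
section

namespace Pool.Agent.P.MP_862e21_al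

open Finset Pointwise

variable {F : Type*} [Field F] [DecidableEq F]

/-- the table of the brackets -/
def ofinTb {R : Type*} [CommRing R] (c u N : R) : Fin 6 → Fin 6 → R :=
  ![![0, 1, 1, 1, u, c], ![-1, 0, -1, -c, -1, u], ![-1, 1, 0, u, -c, 1],
    ![-1, c, -u, 0, -N, N], ![-u, 1, c, N, 0, N], ![-c, -u, -1, -N, -N, 0]]

theorem ofin_br {R : Type*} [CommRing R] (c : R) (i j : Fin 6) :
    br c i j = ofinTb c (1 - c) (c ^ 2 - c + 1) i j := by
  fin_cases i <;> fin_cases j <;> simp [br, PW, ofinTb] <;> ring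

theorem ofin_tb_char [Fintype F] {c u N : F} {e : ℤ} (hm : quadraticChar F (-1) = -1)
    (hc : quadraticChar F c = -1) (hu : quadraticChar F u = -1) (hN : quadraticChar F N = e)
    (i j : Fin 6) : quadraticChar F (ofinTb c u N i j) = sgn e i j := by
  have hneg : ∀ a : F, quadraticChar F (-a) = -quadraticChar F a := by
    intro a
    rw [neg_eq_neg_one_mul, map_mul, hm]
    ring
  have h0 : quadraticChar F 0 = 0 := MulChar.map_zero _
  have h1 : quadraticChar F 1 = 1 := map_one _
  have hc' : quadraticChar F (-c) = 1 := by rw [hneg, hc]; ring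
  have hu' : quadraticChar F (-u) = 1 := by rw [hneg, hu]; ring
  have hN' : quadraticChar F (-N) = -e := by rw [hneg, hN]
  fin_cases i <;> fin_cases j <;>
    first
      | exact h0
      | exact h1
      | exact hm
      | exact hc
      | exact hu
      | exact hN
      | exact hc'
      | exact hu'
      | exact hN'

theorem ofin_char [Fintype F] {c : F} (h : Spl c) (i j : Fin 6) :
    quadraticChar F (br c i j) =
      sgn (if decide (quadraticChar F (c ^ 2 - c + 1) = 1) then 1 else -1) i j := by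
  rw [ofin_br]
  refine ofin_tb_char (quadraticChar_neg_one_iff_not_isSquare.2 h.neg)
    (quadraticChar_neg_one_iff_not_isSquare.2 h.n0)
    (quadraticChar_neg_one_iff_not_isSquare.2 h.n1) ?_ i j
  rcases quadraticChar_dichotomy (h.h3 c) with h1 | h1
  · rw [h1]; simp
  · rw [h1]; simp

theorem ofin_vd [Fintype F] {c Δ : F} {p l : Fin 6 → F} (hl : ∀ i, l i ≠ 0)
    (hp : ∀ i j, p i - p j = Δ * br c i j / (l i * l j)) (hΔ : Δ ≠ 0) (i j k : Fin 6) :
    quadraticChar F (Vd (p i) (p j) (p k)) = quadraticChar F Δ *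
      (quadraticChar F (br c i j) * quadraticChar F (br c i k) * quadraticChar F (br c j k)) := by
  have hi := hl i
  have hj := hl j
  have hk := hl k
  have h1 : Vd (p i) (p j) (p k) =
      Δ * (br c i j * br c i k * br c j k) * (Δ / (l i * l j * l k)) ^ 2 := by
    rw [Vd, hp i j, hp i k, hp j k]
    field_simp
  have h2 : Δ / (l i * l j * l k) ≠ 0 := div_ne_zero hΔ (mul_ne_zero (mul_ne_zero hi hj) hk)
  rw [h1, map_mul, quadraticChar_sq_one' h2, mul_one, map_mul, map_mul, map_mul]

theorem ofin_ext [Fintype F] {c : F} {A B C : Finset F} (h : OCl c A B C) {x y z : F}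
    (hx : x ∈ A) (hy : y ∈ B) (hz : z ∈ C) (hs : IsSquare (Vd x y z)) :
    ∃ p : Fin 6 → F, p 0 = x ∧ p 1 = y ∧ p 2 = z ∧ (∀ i, p i ∈ A ∪ B ∪ C) ∧
      (∀ i, (PW c i).2 * ((p i - y) * (z - x)) = (PW c i).1 * ((z - y) * (p i - x))) ∧
      ∀ i j k, ori (decide (quadraticChar F (c ^ 2 - c + 1) = 1)) i j k = true →
        IsSquare (Vd (p i) (p j) (p k)) := by
  have c0 := h.spl.c0
  have c1 := h.spl.c1
  have c1' : 1 - c ≠ 0 := sub_ne_zero.2 c1.symm
  have hxy : x ≠ y := fun e => Finset.disjoint_left.1 h.dAB hx (e ▸ hy)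
  have hxz : x ≠ z := fun e => Finset.disjoint_left.1 h.dAC hx (e ▸ hz)
  have hyz : y ≠ z := fun e => Finset.disjoint_left.1 h.dBC hy (e ▸ hz)
  obtain ⟨p3, m3, e3⟩ := h.pos c (mem_Lp.2 (Or.inl rfl)) x hx y hy z hz hs
  obtain ⟨p4, m4, e4⟩ := h.pos _ (mem_Lp.2 (Or.inr (Or.inl rfl))) x hx y hy z hz hs
  obtain ⟨p5, m5, e5⟩ := h.pos _ (mem_Lp.2 (Or.inr (Or.inr rfl))) x hx y hy z hz hs
  have mx : x ∈ A ∪ B ∪ C := by simp [hx]
  have my : y ∈ A ∪ B ∪ C := by simp [hy]
  have mz : z ∈ A ∪ B ∪ C := by simp [hz]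
  have e4' : (1 - c) * ((p4 - y) * (z - x)) = 1 * ((z - y) * (p4 - x)) := by
    rw [e4]
    field_simp
  have e5' : c * ((p5 - y) * (z - x)) = (c - 1) * ((z - y) * (p5 - x)) := by
    rw [e5]
    field_simp
  have hpar : ∀ i, (PW c i).2 * ((![x, y, z, p3, p4, p5] i - y) * (z - x)) =
      (PW c i).1 * ((z - y) * (![x, y, z, p3, p4, p5] i - x)) := by
    intro i
    fin_cases i
    · change 0 * ((x - y) * (z - x)) = 1 * ((z - y) * (x - x))
      ring
    · change 1 * ((y - y) * (z - x)) = 0 * ((z - y) * (y - x))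
      ring
    · change 1 * ((z - y) * (z - x)) = 1 * ((z - y) * (z - x))
      ring
    · change 1 * ((p3 - y) * (z - x)) = c * ((z - y) * (p3 - x))
      rw [e3]
      ring
    · exact e4'
    · exact e5'
  refine ⟨![x, y, z, p3, p4, p5], rfl, rfl, rfl, ?_, hpar, ?_⟩
  · intro i
    fin_cases i
    · exact mx
    · exact my
    · exact mz
    · exact m3
    · exact m4
    · exact m5
  · obtain ⟨hΔ, hl, hd⟩ := six_param c0 c1 hxy hxz hyz hpar rfl rfl
    have hv := ofin_vd hl hd hΔ
    have hne : Vd x y z ≠ 0 :=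
      mul_ne_zero (mul_ne_zero (sub_ne_zero.2 hxy) (sub_ne_zero.2 hxz)) (sub_ne_zero.2 hyz)
    have h012 := hv 0 1 2
    have ho := ori_012 (decide (quadraticChar F (c ^ 2 - c + 1) = 1))
    simp only [ofin_char h.spl] at hv h012
    rw [of_decide_eq_true ho] at h012
    have h1 : quadraticChar F (Vd x y z) = 1 := (quadraticChar_one_iff_isSquare hne).2 hs
    have h2 : quadraticChar F ((y - x) * ((z - x) / (z - y))) = -1 := by
      have h3 : (1 : ℤ) = quadraticChar F ((y - x) * ((z - x) / (z - y))) * -1 := h1.symm.trans h012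
      linarith
    intro i j k hijk
    have h4 := hv i j k
    rw [of_decide_eq_true hijk, h2] at h4
    by_contra hns
    rw [quadraticChar_neg_one_iff_not_isSquare.2 hns] at h4
    omega

/-- the colour of a point -/
def ofinCol (A B : Finset F) (w : F) : Fin 3 := if w ∈ A then 0 else if w ∈ B then 1 else 2

theorem ofin_cases {A B C : Finset F} {w : F} (hw : w ∈ A ∪ B ∪ C) :
    (w ∈ A ∧ ofinCol A B w = 0) ∨ (w ∈ B ∧ ofinCol A B w = 1) ∨ (w ∈ C ∧ ofinCol A B w = 2) := by
  by_cases h1 : w ∈ A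
  · exact Or.inl ⟨h1, by simp [ofinCol, h1]⟩
  · by_cases h2 : w ∈ B
    · exact Or.inr (Or.inl ⟨h2, by simp [ofinCol, h1, h2]⟩)
    · exact Or.inr (Or.inr ⟨by simpa [h1, h2] using hw, by simp [ofinCol, h1, h2]⟩)

theorem ofin_sort [Fintype F] {c : F} {A B C : Finset F} (h : OCl c A B C) {x y z : F}
    (hx : x ∈ A ∪ B ∪ C) (hy : y ∈ A ∪ B ∪ C) (hz : z ∈ A ∪ B ∪ C)
    (h1 : ofinCol A B x ≠ ofinCol A B y) (h2 : ofinCol A B x ≠ ofinCol A B z)
    (h3 : ofinCol A B y ≠ ofinCol A B z) :
    ∃ A' B' C' : Finset F, OCl c A' B' C' ∧ x ∈ A' ∧ y ∈ B' ∧ z ∈ C' ∧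
      ∀ w ∈ A' ∪ B' ∪ C', w ∈ A ∪ B ∪ C := by
  rcases ofin_cases hx with ⟨a1, a2⟩ | ⟨a1, a2⟩ | ⟨a1, a2⟩ <;>
    rcases ofin_cases hy with ⟨b1, b2⟩ | ⟨b1, b2⟩ | ⟨b1, b2⟩ <;>
    rcases ofin_cases hz with ⟨d1, d2⟩ | ⟨d1, d2⟩ | ⟨d1, d2⟩ <;>
    first
      | exact absurd (a2.trans b2.symm) h1
      | exact absurd (a2.trans d2.symm) h2
      | exact absurd (b2.trans d2.symm) h3
      | exact ⟨_, _, _, h, a1, b1, d1, fun w hw => hw⟩
      | exact ⟨_, _, _, h.swap23, a1, b1, d1, fun w hw => by
          simp only [Finset.mem_union] at hw ⊢; tauto⟩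
      | exact ⟨_, _, _, h.swap12, a1, b1, d1, fun w hw => by
          simp only [Finset.mem_union] at hw ⊢; tauto⟩
      | exact ⟨_, _, _, h.swap12.swap23, a1, b1, d1, fun w hw => by
          simp only [Finset.mem_union] at hw ⊢; tauto⟩
      | exact ⟨_, _, _, h.swap23.swap12, a1, b1, d1, fun w hw => by
          simp only [Finset.mem_union] at hw ⊢; tauto⟩
      | exact ⟨_, _, _, h.swap23.swap12.swap23, a1, b1, d1, fun w hw => by
          simp only [Finset.mem_union] at hw ⊢; tauto⟩

theorem ofin [Fintype F] {c : F} {A B C : Finset F} (h : OCl c A B C) :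
    ∃ (η : Bool) (TT : Finset (F × F × F)), OC c η TT ∧
      TT.card ≤ (A.card + B.card + C.card) ^ 3 := by
  classical
  let U := A ∪ B ∪ C
  let TT : Finset (F × F × F) := (U ×ˢ U ×ˢ U).filter fun t =>
    ofinCol A B t.1 ≠ ofinCol A B t.2.1 ∧ ofinCol A B t.1 ≠ ofinCol A B t.2.2 ∧
      ofinCol A B t.2.1 ≠ ofinCol A B t.2.2 ∧ IsSquare (Vd t.1 t.2.1 t.2.2)
  have hmem : ∀ x y z : F, (x, y, z) ∈ TT ↔ (x ∈ U ∧ y ∈ U ∧ z ∈ U) ∧
      ofinCol A B x ≠ ofinCol A B y ∧ ofinCol A B x ≠ ofinCol A B z ∧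
      ofinCol A B y ≠ ofinCol A B z ∧ IsSquare (Vd x y z) := by
    intro x y z
    simp only [TT, Finset.mem_filter, Finset.mem_product]
  refine ⟨decide (quadraticChar F (c ^ 2 - c + 1) = 1), TT,
    ⟨h.spl.c0, h.spl.c1, h.spl.h3 c, ?_, ?_, ?_⟩, ?_⟩
  · obtain ⟨x, hx⟩ := h.nA
    obtain ⟨y, hy⟩ := h.nB
    obtain ⟨z, hz⟩ := h.nC
    have hyA : y ∉ A := fun e => Finset.disjoint_left.1 h.dAB e hy
    have hzA : z ∉ A := fun e => Finset.disjoint_left.1 h.dAC e hz
    have hzB : z ∉ B := fun e => Finset.disjoint_left.1 h.dBC e hz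
    have cx : ofinCol A B x = 0 := by simp [ofinCol, hx]
    have cy : ofinCol A B y = 1 := by simp [ofinCol, hyA, hy]
    have cz : ofinCol A B z = 2 := by simp [ofinCol, hzA, hzB]
    have mx : x ∈ U := by simp [U, hx]
    have my : y ∈ U := by simp [U, hy]
    have mz : z ∈ U := by simp [U, hz]
    have hxy : x ≠ y := fun e => hyA (e ▸ hx)
    have hxz : x ≠ z := fun e => hzA (e ▸ hx)
    have hyz : y ≠ z := fun e => hzB (e ▸ hy)
    have hne : Vd x y z ≠ 0 :=
      mul_ne_zero (mul_ne_zero (sub_ne_zero.2 hxy) (sub_ne_zero.2 hxz)) (sub_ne_zero.2 hyz)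
    by_cases hs : IsSquare (Vd x y z)
    · refine ⟨(x, y, z), (hmem x y z).2 ⟨⟨mx, my, mz⟩, ?_, ?_, ?_, hs⟩⟩
      · rw [cx, cy]; decide
      · rw [cx, cz]; decide
      · rw [cy, cz]; decide
    · have he : Vd x z y = -Vd x y z := by simp only [Vd]; ring
      refine ⟨(x, z, y), (hmem x z y).2 ⟨⟨mx, mz, my⟩, ?_, ?_, ?_, ?_⟩⟩
      · rw [cx, cz]; decide
      · rw [cx, cy]; decide
      · rw [cy, cz]; decide
      · rw [he]
        exact (sq_neg_iff h.spl.neg hne).2 hs
  · rintro ⟨x, y, z⟩ ht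
    obtain ⟨-, h1, h2, h3, -⟩ := (hmem x y z).1 ht
    exact ⟨fun e => h1 (congrArg _ e), fun e => h2 (congrArg _ e), fun e => h3 (congrArg _ e)⟩
  · rintro ⟨x, y, z⟩ ht
    obtain ⟨⟨mx, my, mz⟩, h1, h2, h3, hs⟩ := (hmem x y z).1 ht
    obtain ⟨A', B', C', h', hx, hy, hz, hU⟩ := ofin_sort h mx my mz h1 h2 h3
    obtain ⟨p, p0, p1, p2, hp, hpar, hor⟩ := ofin_ext h' hx hy hz hs
    let g : Fin 3 → Fin 3 := fun a =>
      if a = ofinCol A B x then 0 else if a = ofinCol A B y then 1 else 2
    refine ⟨p, fun i => g (ofinCol A B (p i)), p0, p1, p2, ?_, ?_, ?_, hpar, ?_⟩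
    · simp only [g, p0, if_true]
    · simp only [g, p1, if_neg h1.symm, if_true]
    · simp only [g, p2, if_neg h2.symm, if_neg h3.symm]
    · intro i j k k1 k2 k3 ho
      exact (hmem _ _ _).2 ⟨⟨hU _ (hp i), hU _ (hp j), hU _ (hp k)⟩,
        fun e => k1 (congrArg g e), fun e => k2 (congrArg g e), fun e => k3 (congrArg g e),
        hor i j k ho⟩
  · have h1 : U.card ≤ A.card + B.card + C.card :=
      (Finset.card_union_le _ _).trans (Nat.add_le_add_right (Finset.card_union_le _ _) _)
    calc TT.card ≤ (U ×ˢ U ×ˢ U).card := Finset.card_filter_le _ _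
      _ = U.card ^ 3 := by simp only [Finset.card_product]; ring
      _ ≤ (A.card + B.card + C.card) ^ 3 := Nat.pow_le_pow_left h1 3

end Pool.Agent.P.MP_862e21_al
end

-- part Pool.Agent.P.MP_862e21_al.OCUltra
section

namespace Pool.Agent.P.MP_862e21_al

open Finset Pointwise

variable {F : Type*} [Field F] [DecidableEq F]

theorem ocultra_field (F : ℕ → Type) [∀ i, Field (F i)] (U : Ultrafilter ℕ) :
    ∃ (K : Type) (_ : Field K) (π : (∀ i, F i) →+* K), Function.Surjective π ∧
      ∀ f g, π f = π g ↔ ∀ᶠ i in (U : Filter ℕ), f i = g i := by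
  let I : Ideal (∀ i, F i) :=
    { carrier := {f | ∀ᶠ i in (U : Filter ℕ), f i = 0}
      add_mem' := fun {f g} hf hg => by
        filter_upwards [hf, hg] with i h1 h2
        simp [h1, h2]
      zero_mem' := Filter.Eventually.of_forall fun _ => rfl
      smul_mem' := fun c f hf => by
        filter_upwards [hf] with i h1
        simp [h1] }
  have hI : ∀ f, f ∈ I ↔ ∀ᶠ i in (U : Filter ℕ), f i = 0 := fun _ => Iff.rfl
  have : I.IsMaximal := by
    refine Ideal.isMaximal_iff.2 ⟨fun h => ?_, fun J x hJ hx hxJ => ?_⟩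
    · obtain ⟨i, hi⟩ := ((hI 1).1 h).exists
      exact one_ne_zero hi
    · have h1 : 1 - x⁻¹ * x ∈ I := by
        rw [hI]
        filter_upwards [Ultrafilter.eventually_not.2 (mt (hI x).2 hx)] with i hi
        simp [inv_mul_cancel₀ hi]
      simpa using J.add_mem (hJ h1) (J.mul_mem_left x⁻¹ hxJ)
  refine ⟨(∀ i, F i) ⧸ I, Ideal.Quotient.field I, Ideal.Quotient.mk I,
    Ideal.Quotient.mk_surjective, fun f g => ?_⟩
  rw [Ideal.Quotient.eq, hI]
  simp only [Pi.sub_apply, sub_eq_zero]

theorem ocultra_pw {R S : Type*} [CommRing R] [CommRing S] (f : R →+* S) (c : R) (m : Fin 6) :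
    (PW (f c) m).1 = f (PW c m).1 ∧ (PW (f c) m).2 = f (PW c m).2 := by
  fin_cases m <;> simp [PW]

theorem ocultra_main {F : ℕ → Type} [∀ i, Field (F i)] [∀ i, DecidableEq (F i)]
    (U : Ultrafilter ℕ) {N : ℕ} {η : Bool} (c : ∀ i, F i) (TT : ∀ i, Finset (F i × F i × F i))
    (h : ∀ i, OC (c i) η (TT i)) (hN : ∀ i, (TT i).card ≤ N)
    (hi : ∀ i, ¬ IsSquare (-1 : F i))
    (hch : ∀ n : ℕ, n ≠ 0 → ∀ᶠ i in (U : Filter ℕ), (n : F i) ≠ 0) : False := by
  classical
  obtain ⟨K, _, π, hsur, hπ⟩ := ocultra_field F U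
  choose a ha ha' using fun i => ultra_enum (h i).ne (hN i)
  have hne : ∀ f g, (∀ i, f i ≠ g i) → π f ≠ π g := fun f g h1 h2 => by
    obtain ⟨i, hi⟩ := ((hπ f g).1 h2).exists
    exact h1 i hi
  have hcz : CharZero K := by
    refine charZero_of_inj_zero fun n hn => ?_
    by_contra h0
    have h1 : π (n : ∀ i, F i) = π 0 := by rw [map_natCast, map_zero, hn]
    obtain ⟨i, e1, e2⟩ := (((hπ _ _).1 h1).and (hch n h0)).exists
    exact e2 (by simpa using e1)
  have hsq : ¬ IsSquare (-1 : K) := by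
    rintro ⟨r, hr⟩
    obtain ⟨f, rfl⟩ := hsur r
    have h1 : π (-1) = π (f * f) := by rw [map_neg, map_one, map_mul, hr]
    obtain ⟨i, e⟩ := ((hπ _ _).1 h1).exists
    exact hi i ⟨f i, e⟩
  have hk : Nonempty (Fin N) := ⟨⟨0, (card_pos.2 (h 0).ne).trans_le (hN 0)⟩⟩
  obtain ⟨T, hT⟩ : ∃ T : Fin N → K × K × K, ∀ j, T j =
      (π fun i => (a i j).1, π fun i => (a i j).2.1, π fun i => (a i j).2.2) :=
    ⟨_, fun _ => rfl⟩
  have hoc : OC (π c) η (univ.image T) := by
    refine ⟨map_zero π ▸ hne c 0 fun i => (h i).c0, map_one π ▸ hne c 1 fun i => (h i).c1, ?_,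
      univ_nonempty.image _, ?_, ?_⟩
    · have h1 := hne (c ^ 2 - c + 1) 0 fun i => (h i).cN
      simpa using h1
    · intro t ht
      obtain ⟨j, -, rfl⟩ := mem_image.1 ht
      rw [hT]
      exact ⟨hne _ _ fun i => ((h i).dist _ (ha i j)).1,
        hne _ _ fun i => ((h i).dist _ (ha i j)).2.1, hne _ _ fun i => ((h i).dist _ (ha i j)).2.2⟩
    · intro t ht
      obtain ⟨j, -, rfl⟩ := mem_image.1 ht
      choose p κ p0 p1 p2 k0 k1 k2 he hc using fun i => (h i).ext _ (ha i j)
      obtain ⟨κ0, hκ⟩ : ∃ κ0 : Fin 6 → Fin 3, ∀ᶠ i in (U : Filter ℕ), κ i = κ0 :=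
        Ultrafilter.eventually_exists_iff.1 (Filter.Eventually.of_forall fun i => ⟨κ i, rfl⟩)
      obtain ⟨i0, e0⟩ := hκ.exists
      refine ⟨fun m => π fun i => p i m, κ0, ?_, ?_, ?_, e0 ▸ k0 i0, e0 ▸ k1 i0, e0 ▸ k2 i0,
        fun m => ?_, fun m1 m2 m3 h12 h13 h23 ho => ?_⟩
      · simp only [hT, p0]
      · simp only [hT, p1]
      · simp only [hT, p2]
      · rw [(ocultra_pw π c m).1, (ocultra_pw π c m).2, hT]
        simp only [← map_sub, ← map_mul]
        congr 1
        funext i
        have h1 := ocultra_pw (Pi.evalRingHom F i) c m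
        simp only [Pi.evalRingHom_apply] at h1
        simp only [Pi.mul_apply, Pi.sub_apply, ← h1.1, ← h1.2]
        exact he i m
      · have h1 : ∀ᶠ i in (U : Filter ℕ), ∃ j', a i j' = (p i m1, p i m2, p i m3) := by
          filter_upwards [hκ] with i e
          exact ha' i _ (hc i m1 m2 m3 (e ▸ h12) (e ▸ h13) (e ▸ h23) ho)
        obtain ⟨j', hj⟩ := Ultrafilter.eventually_exists_iff.1 h1
        refine mem_image.2 ⟨j', mem_univ _, ?_⟩
        rw [hT]
        refine Prod.ext ((hπ _ _).2 ?_) (Prod.ext ((hπ _ _).2 ?_) ((hπ _ _).2 ?_)) <;>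
          filter_upwards [hj] with i e <;> simp only [e]
  exact oalg hsq hoc

theorem ocultra_bounded (N : ℕ) (η : Bool) : ∃ q0 : ℕ, ∀ (F : Type) [Field F] [Fintype F]
    [DecidableEq F], q0 ≤ Fintype.card F → (Fintype.card F).Prime → ¬ IsSquare (-1 : F) →
      ∀ (c : F) (TT : Finset (F × F × F)), OC c η TT → TT.card ≤ N → False := by
  by_contra hne
  have h : ∀ q0 : ℕ, ∃ (F : Type) (_ : Field F) (_ : Fintype F) (_ : DecidableEq F) (c : F)
      (TT : Finset (F × F × F)), q0 ≤ Fintype.card F ∧ (Fintype.card F).Prime ∧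
        ¬ IsSquare (-1 : F) ∧ OC c η TT ∧ TT.card ≤ N := by
    intro q0
    by_contra h1
    exact hne ⟨q0, fun F i1 i2 i3 h2 h3 h4 c TT h5 h6 =>
      h1 ⟨F, i1, i2, i3, c, TT, h2, h3, h4, h5, h6⟩⟩
  choose F i1 i2 i3 c TT h1 h2 h3 h4 h5 using h
  refine ocultra_main (Filter.hyperfilter ℕ) c TT h4 h5 h3 fun n hn => ?_
  filter_upwards [(Filter.eventually_gt_atTop n).filter_mono Nat.hyperfilter_le_atTop] with i hi e
  have : Fact (Fintype.card (F i)).Prime := ⟨h2 i⟩
  have : CharP (F i) (Fintype.card (F i)) := charP_of_card_eq_prime rfl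
  have h6 := Nat.le_of_dvd (Nat.pos_of_ne_zero hn)
    ((CharP.cast_eq_zero_iff (F i) (Fintype.card (F i)) n).1 e)
  have := h1 i
  omega

theorem obounded (k : ℕ) : ∃ q0 : ℕ, ∀ (F : Type) [Field F] [Fintype F] [DecidableEq F],
    q0 ≤ Fintype.card F → (Fintype.card F).Prime → ∀ (c : F) (A B C : Finset F), OCl c A B C →
      A.card ≤ k → B.card ≤ k → C.card ≤ k → False := by
  choose q hq using ocultra_bounded ((3 * k) ^ 3)
  refine ⟨max (q true) (q false), fun F _ _ _ h1 h2 c A B C h hA hB hC => ?_⟩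
  obtain ⟨η, TT, h3, h4⟩ := ofin h
  refine hq η F ?_ h2 h.spl.neg c TT h3 (h4.trans (Nat.pow_le_pow_left (by omega) 3))
  cases η
  · exact (le_max_right _ _).trans h1
  · exact (le_max_left _ _).trans h1

end Pool.Agent.P.MP_862e21_al
end

-- part Pool.Agent.P.MP_862e21_al.Bridge1
section

namespace Pool.Agent.P.MP_862e21_al

open Finset Pointwise

variable {F : Type*} [Field F] [DecidableEq F]

open OnePoint

/-- the four base points with cross ratio `c` -/
def base [DecidableEq (OnePoint F)] (c : F) : Finset (OnePoint F) :=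
  {∞, ((0 : F) : OnePoint F), ((1 : F) : OnePoint F), (c : OnePoint F)}

theorem bridge1_mk {a b c d : F} (h : a * d - b * c ≠ 0) :
    ∃ M : GL (Fin 2) F, M • (∞ : OnePoint F) = (if c = 0 then ∞ else ((a / c : F) : OnePoint F)) ∧
      ∀ k : F, M • (k : OnePoint F) =
        if c * k + d = 0 then ∞ else (((a * k + b) / (c * k + d) : F) : OnePoint F) := by
  refine ⟨Matrix.GeneralLinearGroup.mkOfDetNeZero !![a, b; c, d] (by simpa [Matrix.det_fin_two] using h),
    ?_, fun k => ?_⟩
  · rw [smul_infty_eq_ite]; simp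
  · rw [smul_some_eq_ite]; simp

theorem frame {x y z : F} (hxy : x ≠ y) (hxz : x ≠ z) (hyz : y ≠ z) :
    ∃ M : GL (Fin 2) F, M • (∞ : OnePoint F) = (x : OnePoint F) ∧
      M • ((0 : F) : OnePoint F) = (y : OnePoint F) ∧
      M • ((1 : F) : OnePoint F) = (z : OnePoint F) ∧
      ∀ s p : F, M • (s : OnePoint F) = (p : OnePoint F) →
        (p - y) * (z - x) = s * (z - y) * (p - x) := by
  have a1 : z - y ≠ 0 := sub_ne_zero.mpr hyz.symm
  have a2 : x - z ≠ 0 := sub_ne_zero.mpr hxz
  have a3 : x - y ≠ 0 := sub_ne_zero.mpr hxy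
  obtain ⟨M, m1, m2⟩ := bridge1_mk (a := x * (z - y)) (b := y * (x - z)) (c := z - y) (d := x - z)
    (by
      have : x * (z - y) * (x - z) - y * (x - z) * (z - y) = (z - y) * (x - z) * (x - y) := by ring
      rw [this]; exact mul_ne_zero (mul_ne_zero a1 a2) a3)
  refine ⟨M, ?_, ?_, ?_, ?_⟩
  · rw [m1, if_neg a1]; congr 1; field_simp
  · rw [m2, if_neg (by simpa using a2)]; congr 1
    simp only [mul_zero, zero_add]; field_simp
  · have : (z - y) * 1 + (x - z) = x - y := by ring
    rw [m2, this, if_neg a3]; congr 1; field_simp; ring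
  · intro s p h
    rw [m2] at h
    split_ifs at h with h0
    · exact absurd h (infty_ne_coe p)
    · have e := coe_injective h
      rw [div_eq_iff h0] at e
      linear_combination e

theorem bridge1_aff {a b : F} (hab : a ≠ b) : ∃ M : GL (Fin 2) F, M • (∞ : OnePoint F) = ∞ ∧
    M • ((0 : F) : OnePoint F) = (a : OnePoint F) ∧ M • ((1 : F) : OnePoint F) = (b : OnePoint F) := by
  obtain ⟨M, m1, m2⟩ := bridge1_mk (a := b - a) (b := a) (c := 0) (d := 1)
    (by simpa using sub_ne_zero.mpr hab.symm)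
  refine ⟨M, by simp [m1], by simp [m2], by simp [m2]⟩

theorem bridge1_move (w : OnePoint F) : ∃ N : GL (Fin 2) F, N • (∞ : OnePoint F) = w := by
  induction w using OnePoint.rec with
  | infty => exact ⟨1, one_smul _ _⟩
  | coe a =>
    obtain ⟨M, m1, -⟩ := bridge1_mk (a := a) (b := 1) (c := 1) (d := 0) (by simp)
    exact ⟨M, by simp [m1]⟩

theorem bridge1_fin {v : OnePoint F} (h : v ≠ ∞) : ∃ a : F, v = (a : OnePoint F) := by
  induction v using OnePoint.rec with
  | infty => exact absurd rfl h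
  | coe a => exact ⟨a, rfl⟩

theorem three_trans [DecidableEq (OnePoint F)] (S : Finset (OnePoint F)) (hS : S.card = 4) :
    ∃ (M : GL (Fin 2) F) (c : F), c ≠ 0 ∧ c ≠ 1 ∧ S = (base c).image (fun x => M • x) := by
  obtain ⟨p, hp⟩ : S.Nonempty := card_pos.mp (by omega)
  have h3 : (S.erase p).card = 3 := by rw [card_erase_of_mem hp, hS]
  obtain ⟨x, y, z, xy, xz, yz, e⟩ := card_eq_three.mp h3
  have hx : x ≠ p := ne_of_mem_erase (by rw [e]; simp : x ∈ S.erase p)
  have hy : y ≠ p := ne_of_mem_erase (by rw [e]; simp : y ∈ S.erase p)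
  have hz : z ≠ p := ne_of_mem_erase (by rw [e]; simp : z ∈ S.erase p)
  obtain ⟨N, hN⟩ := bridge1_move p
  have k : ∀ (M : GL (Fin 2) F) {v w u : OnePoint F}, M • u = w → v ≠ w → M⁻¹ • v ≠ u := by
    intro M v w u h1 h2 h3
    apply h2
    rw [← h1, ← h3, smul_inv_smul]
  obtain ⟨a, ha⟩ := bridge1_fin (k N hN hx)
  obtain ⟨b, hb⟩ := bridge1_fin (k N hN hy)
  have ab : a ≠ b := by
    intro h
    apply xy
    rw [h, ← hb] at ha
    exact MulAction.injective _ ha
  obtain ⟨M, m1, m2, m3⟩ := bridge1_aff ab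
  have n1 : (N * M) • (∞ : OnePoint F) = p := by rw [mul_smul, m1, hN]
  have n2 : (N * M) • ((0 : F) : OnePoint F) = x := by rw [mul_smul, m2, ← ha, smul_inv_smul]
  have n3 : (N * M) • ((1 : F) : OnePoint F) = y := by rw [mul_smul, m3, ← hb, smul_inv_smul]
  obtain ⟨c, hc⟩ := bridge1_fin (k (N * M) n1 hz)
  have n4 : (N * M) • (c : OnePoint F) = z := by rw [← hc, smul_inv_smul]
  refine ⟨N * M, c, ?_, ?_, ?_⟩
  · rintro rfl; exact xz (n2.symm.trans n4)
  · rintro rfl; exact yz (n3.symm.trans n4)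
  · rw [← insert_erase hp, e]
    simp only [base, image_insert, image_singleton, n1, n2, n3, n4]

theorem base_lam [DecidableEq (OnePoint F)] {c s : F} (h0 : c ≠ 0) (h1 : c ≠ 1) (hs : s ∈ Lam c) :
    ∃ M : GL (Fin 2) F, base s = (base c).image (fun x => M • x) := by
  have h2 : 1 - c ≠ 0 := sub_ne_zero.mpr h1.symm
  have h3 : c - 1 ≠ 0 := sub_ne_zero.mpr h1
  have h4 : -c + 1 ≠ 0 := by rw [add_comm, ← sub_eq_add_neg]; exact h2
  have h5 : c + -1 ≠ 0 := by rw [← sub_eq_add_neg]; exact h3
  rcases mem_Lam.mp hs with h | h | h | h | h | h <;> subst h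
  · exact ⟨1, by simp⟩
  · obtain ⟨M, m1, m2⟩ := bridge1_mk (a := (0 : F)) (b := 1) (c := 1) (d := 0) (by simp)
    refine ⟨M, ?_⟩
    ext v
    simp only [base, image_insert, image_singleton, m1, m2, mem_insert, mem_singleton]
    simp [h0]; tauto
  · obtain ⟨M, m1, m2⟩ := bridge1_mk (a := (-1 : F)) (b := 1) (c := 0) (d := 1) (by simp)
    refine ⟨M, ?_⟩
    ext v
    simp only [base, image_insert, image_singleton, m1, m2, mem_insert, mem_singleton]
    have : 1 - c = -c + 1 := by ring
    simp [this]; tauto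
  · obtain ⟨M, m1, m2⟩ := bridge1_mk (a := (0 : F)) (b := 1) (c := -1) (d := 1) (by simp)
    refine ⟨M, ?_⟩
    ext v
    simp only [base, image_insert, image_singleton, m1, m2, mem_insert, mem_singleton]
    have : 1 - c = -c + 1 := by ring
    simp [this, h4]; tauto
  · obtain ⟨M, m1, m2⟩ := bridge1_mk (a := (1 : F)) (b := -1) (c := 1) (d := 0) (by simp)
    refine ⟨M, ?_⟩
    ext v
    simp only [base, image_insert, image_singleton, m1, m2, mem_insert, mem_singleton]
    have : c - 1 = c + -1 := by ring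
    simp [this, h0]; tauto
  · obtain ⟨M, m1, m2⟩ := bridge1_mk (a := (1 : F)) (b := 0) (c := 1) (d := -1) (by simp)
    refine ⟨M, ?_⟩
    ext v
    simp only [base, image_insert, image_singleton, m1, m2, mem_insert, mem_singleton]
    have : c - 1 = c + -1 := by ring
    simp [this, h5]; tauto

theorem sl_two [Fintype F] (h2 : (2 : F) = 0) (M : GL (Fin 2) F) :
    ∃ M' : GL (Fin 2) F, Matrix.GeneralLinearGroup.det M' = 1 ∧
      ∀ x : OnePoint F, M' • x = M • x := by
  have sq : Function.Surjective (fun x : F => x * x) := by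
    apply Finite.surjective_of_injective
    intro a b e
    have : (a - b) ^ 2 = 0 := by
      simp only at e
      linear_combination e + (b * b - a * b) * h2
    exact sub_eq_zero.mp (pow_eq_zero_iff (two_ne_zero) |>.mp this)
  have hd : (M : Matrix (Fin 2) (Fin 2) F).det ≠ 0 := M.det_ne_zero
  obtain ⟨δ, hδ⟩ := sq ((M : Matrix (Fin 2) (Fin 2) F).det)⁻¹
  simp only at hδ
  have δ0 : δ ≠ 0 := by
    rintro rfl
    exact inv_ne_zero hd (by simpa using hδ.symm)
  have e1 : (δ • (M : Matrix (Fin 2) (Fin 2) F)).det = 1 := by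
    rw [Matrix.det_smul, Fintype.card_fin, pow_two, hδ, inv_mul_cancel₀ hd]
  refine ⟨Matrix.GeneralLinearGroup.mkOfDetNeZero (δ • (M : Matrix (Fin 2) (Fin 2) F))
    (by rw [e1]; exact one_ne_zero), ?_, ?_⟩
  · ext
    simpa using e1
  · intro x
    induction x using OnePoint.rec with
    | infty =>
      rw [smul_infty_eq_ite, smul_infty_eq_ite]
      simp [δ0, mul_div_mul_left _ _ δ0]
    | coe k =>
      rw [smul_some_eq_ite, smul_some_eq_ite]
      have a1 : ∀ a b : F, δ * a * k + δ * b = δ * (a * k + b) := fun a b => by ring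
      simp [δ0, a1, mul_div_mul_left _ _ δ0]

theorem gen_of_closure [Fintype F] {c c' : Fˣ} (h : (c : F) + c' = 1)
    (ht : Subgroup.closure ({-1, c, c'} : Set Fˣ) = ⊤) : Gen (c : F) := by
  intro S s1 s2 s3 ⟨x, hx, x0⟩ y y0
  let T : Submonoid Fˣ :=
    { carrier := {g | ∀ v ∈ S, (g : F) * v ∈ S}
      one_mem' := by intro v hv; simpa using hv
      mul_mem' := by
        intro a b ha hb v hv
        have := ha _ (hb v hv)
        simpa [mul_assoc] using this }
  have key : ∀ g : Fˣ, g ∈ T := by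
    intro g
    have hg : g ∈ Subgroup.closure ({-1, c, c'} : Set Fˣ) := by rw [ht]; trivial
    induction hg using Subgroup.closure_induction with
    | mem g hg =>
      rcases hg with rfl | rfl | rfl
      · intro v hv; simpa using s1 v hv
      · exact s2
      · intro v hv
        have : (g : F) = 1 - c := by linear_combination h
        rw [this]; exact s3 v hv
    | one => exact T.one_mem
    | mul a b _ _ ha hb => exact T.mul_mem ha hb
    | inv a _ ha =>
      have : a⁻¹ = a ^ (orderOf a - 1) := by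
        have o := orderOf_pos a
        rw [eq_comm, ← mul_eq_one_iff_eq_inv, ← pow_succ, Nat.sub_add_cancel o, pow_orderOf_eq_one]
      rw [this]; exact T.pow_mem ha _
  have := key (Units.mk0 (y / x) (div_ne_zero y0 x0)) x hx
  simpa [div_mul_cancel₀ y x0] using this

end Pool.Agent.P.MP_862e21_al
end

-- part Pool.Agent.P.MP_862e21_al.Bridge2
section

namespace Pool.Agent.P.MP_862e21_al

open Finset Pointwise

variable {F : Type*} [Field F] [DecidableEq F]

open OnePoint

theorem bridge2_one {Ω : Type*} [DecidableEq Ω] {X : Finset Ω} {x y z w : Ω} (hx : x ∈ X)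
    (hy : y ∉ X) (hz : z ∉ X) (hw : w ∉ X) {S : Finset Ω}
    (hS : ∀ v, v ∈ S ↔ v = x ∨ v = y ∨ v = z ∨ v = w) : (X ∩ S).card = 1 := by
  rw [card_eq_one]
  refine ⟨x, ?_⟩
  ext v
  simp only [mem_inter, hS, mem_singleton]
  constructor
  · rintro ⟨h1, rfl | rfl | rfl | rfl⟩ <;> first | rfl | contradiction
  · rintro rfl; exact ⟨hx, Or.inl rfl⟩

theorem bridge2_inf [Fintype F] [DecidableEq (OnePoint F)] {c : F} (h0 : c ≠ 0) (h1 : c ≠ 1)
    (hcore : ∀ A B C : Finset F, Cl c A B C → A.card ≤ B.card → B.card ≤ C.card →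
      A.card + B.card + 2 * C.card ≤ Fintype.card F + 1 → False)
    {X Y Z W : Finset (OnePoint F)} (nX : X.Nonempty) (dXY : Disjoint X Y) (dXZ : Disjoint X Z)
    (dXW : Disjoint X W) (dYZ : Disjoint Y Z) (dYW : Disjoint Y W) (dZW : Disjoint Z W)
    (hall : ∀ v, v ∈ X ∨ v ∈ Y ∨ v ∈ Z ∨ v ∈ W) (cXY : X.card ≤ Y.card) (cYZ : Y.card ≤ Z.card)
    (cZW : Z.card ≤ W.card) (hinf : ∞ ∈ W) :
    ∃ M : GL (Fin 2) F, (X ∩ (base c).image (fun x => M • x)).card = 1 ∧
      (Y ∩ (base c).image (fun x => M • x)).card = 1 ∧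
      (Z ∩ (base c).image (fun x => M • x)).card = 1 ∧
      (W ∩ (base c).image (fun x => M • x)).card = 1 := by
  by_contra hno
  have pre : ∀ T : Finset (OnePoint F), Disjoint T W →
      (univ.filter (fun a : F => (a : OnePoint F) ∈ T)).card = T.card := by
    intro T hT
    apply card_bij (fun (a : F) _ => (a : OnePoint F))
    · intro a ha; exact (mem_filter.mp ha).2
    · intro a _ b _ e; exact OnePoint.coe_injective e
    · intro v hv
      induction v using OnePoint.rec with
      | infty => exact absurd hinf (disjoint_left.mp hT hv)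
      | coe a => exact ⟨a, mem_filter.mpr ⟨mem_univ _, hv⟩, rfl⟩
  have dj : ∀ T T' : Finset (OnePoint F), Disjoint T T' →
      Disjoint (univ.filter (fun a : F => (a : OnePoint F) ∈ T))
        (univ.filter (fun a : F => (a : OnePoint F) ∈ T')) := by
    intro T T' h
    rw [disjoint_left]
    intro a ha ha'
    exact disjoint_left.mp h (mem_filter.mp ha).2 (mem_filter.mp ha').2
  have eX := pre X dXW
  have eY := pre Y dYW
  have eZ := pre Z dZW
  have x1 := nX.card_pos
  have htot : X.card + Y.card + Z.card + W.card ≤ Fintype.card F + 1 := by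
    have e := card_le_univ (X ∪ Y ∪ Z ∪ W)
    rw [card_union_of_disjoint (disjoint_union_left.mpr ⟨disjoint_union_left.mpr ⟨dXW, dYW⟩, dZW⟩),
      card_union_of_disjoint (disjoint_union_left.mpr ⟨dXZ, dYZ⟩),
      card_union_of_disjoint dXY] at e
    have e2 : Fintype.card (OnePoint F) = Fintype.card F + 1 := Fintype.card_option
    omega
  refine hcore _ _ _ ⟨h0, h1, card_pos.mp (by rw [eX]; omega), card_pos.mp (by rw [eY]; omega),
    card_pos.mp (by rw [eZ]; omega), dj X Y dXY, dj X Z dXZ, dj Y Z dYZ, ?_⟩ (by omega) (by omega)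
    (by omega)
  intro s hs x hx y hy z hz
  have hx' := (mem_filter.mp hx).2
  have hy' := (mem_filter.mp hy).2
  have hz' := (mem_filter.mp hz).2
  have xy : x ≠ y := fun e => disjoint_left.mp dXY hx' (e ▸ hy')
  have xz : x ≠ z := fun e => disjoint_left.mp dXZ hx' (e ▸ hz')
  have yz : y ≠ z := fun e => disjoint_left.mp dYZ hy' (e ▸ hz')
  obtain ⟨M, m1, m2, m3, m4⟩ := frame xy xz yz
  obtain ⟨M0, hM0⟩ := base_lam h0 h1 hs
  have hS : ∀ v, v ∈ (base c).image (fun x => (M * M0) • x) ↔
      v = (x : OnePoint F) ∨ v = (y : OnePoint F) ∨ v = (z : OnePoint F) ∨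
        v = M • (s : OnePoint F) := by
    intro v
    have : (base c).image (fun x => (M * M0) • x) = (base s).image (fun x => M • x) := by
      rw [hM0, image_image]
      congr 1
      funext v
      simp [mul_smul]
    rw [this]
    simp only [base, image_insert, image_singleton, mem_insert, mem_singleton, m1, m2, m3]
  have hW : M • (s : OnePoint F) ∉ W := by
    intro hw
    apply hno
    refine ⟨M * M0, ?_, ?_, ?_, ?_⟩
    · exact bridge2_one hx' (disjoint_right.mp dXY hy') (disjoint_right.mp dXZ hz')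
        (disjoint_right.mp dXW hw) hS
    · exact bridge2_one hy' (disjoint_left.mp dXY hx') (disjoint_right.mp dYZ hz')
        (disjoint_right.mp dYW hw) (fun v => by rw [hS]; tauto)
    · exact bridge2_one hz' (disjoint_left.mp dXZ hx') (disjoint_left.mp dYZ hy')
        (disjoint_right.mp dZW hw) (fun v => by rw [hS]; tauto)
    · exact bridge2_one hw (disjoint_left.mp dXW hx') (disjoint_left.mp dYW hy')
        (disjoint_left.mp dZW hz') (fun v => by rw [hS]; tauto)
  have hp : ∃ p : F, M • (s : OnePoint F) = (p : OnePoint F) := by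
    generalize M • (s : OnePoint F) = v at hW
    induction v using OnePoint.rec with
    | infty => exact absurd hinf hW
    | coe a => exact ⟨a, rfl⟩
  obtain ⟨p, hp⟩ := hp
  refine ⟨p, ?_, m4 s p hp⟩
  rw [hp] at hW
  simp only [mem_union, mem_filter, mem_univ, true_and]
  have := hall (p : OnePoint F)
  tauto

theorem bridge2_move (w : OnePoint F) : ∃ N : GL (Fin 2) F, N • w = ∞ := by
  induction w using OnePoint.rec with
  | infty => exact ⟨1, one_smul _ _⟩
  | coe a =>
    refine ⟨Matrix.GeneralLinearGroup.mkOfDetNeZero !![0, 1; 1, -a] (by simp), ?_⟩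
    rw [smul_some_eq_ite]
    simp

theorem bridge2_gen [Fintype F] [DecidableEq (OnePoint F)] {c : F} (h0 : c ≠ 0) (h1 : c ≠ 1)
    (hcore : ∀ A B C : Finset F, Cl c A B C → A.card ≤ B.card → B.card ≤ C.card →
      A.card + B.card + 2 * C.card ≤ Fintype.card F + 1 → False)
    {X Y Z W : Finset (OnePoint F)} (nX : X.Nonempty) (dXY : Disjoint X Y) (dXZ : Disjoint X Z)
    (dXW : Disjoint X W) (dYZ : Disjoint Y Z) (dYW : Disjoint Y W) (dZW : Disjoint Z W)
    (hall : ∀ v, v ∈ X ∨ v ∈ Y ∨ v ∈ Z ∨ v ∈ W) (cXY : X.card ≤ Y.card) (cYZ : Y.card ≤ Z.card)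
    (cZW : Z.card ≤ W.card) :
    ∃ M : GL (Fin 2) F, (X ∩ (base c).image (fun x => M • x)).card = 1 ∧
      (Y ∩ (base c).image (fun x => M • x)).card = 1 ∧
      (Z ∩ (base c).image (fun x => M • x)).card = 1 ∧
      (W ∩ (base c).image (fun x => M • x)).card = 1 := by
  have x1 := nX.card_pos
  obtain ⟨w, hw⟩ : W.Nonempty := card_pos.mp (by omega)
  obtain ⟨N, hN⟩ := bridge2_move w
  have inj : Function.Injective (fun v : OnePoint F => N • v) := MulAction.injective N
  have cd : ∀ T : Finset (OnePoint F), (T.image (fun v => N • v)).card = T.card :=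
    fun T => card_image_of_injective _ inj
  obtain ⟨M, m1, m2, m3, m4⟩ := bridge2_inf h0 h1 hcore (X := X.image (fun v => N • v))
    (Y := Y.image (fun v => N • v)) (Z := Z.image (fun v => N • v))
    (W := W.image (fun v => N • v)) (nX.image _) ((disjoint_image inj).mpr dXY)
    ((disjoint_image inj).mpr dXZ) ((disjoint_image inj).mpr dXW) ((disjoint_image inj).mpr dYZ)
    ((disjoint_image inj).mpr dYW) ((disjoint_image inj).mpr dZW)
    (by
      intro v
      have e : v = N • (N⁻¹ • v) := by simp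
      rcases hall (N⁻¹ • v) with h | h | h | h
      · exact Or.inl (mem_image.mpr ⟨_, h, e.symm⟩)
      · exact Or.inr (Or.inl (mem_image.mpr ⟨_, h, e.symm⟩))
      · exact Or.inr (Or.inr (Or.inl (mem_image.mpr ⟨_, h, e.symm⟩)))
      · exact Or.inr (Or.inr (Or.inr (mem_image.mpr ⟨_, h, e.symm⟩))))
    (by rw [cd, cd]; exact cXY) (by rw [cd, cd]; exact cYZ) (by rw [cd, cd]; exact cZW)
    (mem_image.mpr ⟨w, hw, hN⟩)
  have key : ∀ T : Finset (OnePoint F), (T ∩ (base c).image (fun x => (N⁻¹ * M) • x)).card =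
      (T.image (fun v => N • v) ∩ (base c).image (fun x => M • x)).card := by
    intro T
    rw [← cd, image_inter _ _ inj, image_image]
    congr 3
    funext v
    simp [mul_smul]
  exact ⟨N⁻¹ * M, by rw [key, m1], by rw [key, m2], by rw [key, m3], by rw [key, m4]⟩

theorem rainbow [Fintype F] [DecidableEq (OnePoint F)] {c : F} (h0 : c ≠ 0) (h1 : c ≠ 1)
    (hcore : ∀ A B C : Finset F, Cl c A B C → A.card ≤ B.card → B.card ≤ C.card →
      A.card + B.card + 2 * C.card ≤ Fintype.card F + 1 → False)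
    (P : Finpartition (univ : Finset (OnePoint F))) (hP : P.parts.card = 4) :
    ∃ M : GL (Fin 2) F, ∀ X ∈ P.parts, (X ∩ (base c).image (fun x => M • x)).card = 1 := by
  obtain ⟨W, hW, mW⟩ := exists_max_image P.parts card (card_pos.mp (by omega))
  have c3 : (P.parts.erase W).card = 3 := by rw [card_erase_of_mem hW, hP]
  obtain ⟨Z, hZ, mZ⟩ := exists_max_image (P.parts.erase W) card (card_pos.mp (by omega))
  have c2 : ((P.parts.erase W).erase Z).card = 2 := by rw [card_erase_of_mem hZ, c3]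
  obtain ⟨Y, hY, mY⟩ := exists_max_image ((P.parts.erase W).erase Z) card (card_pos.mp (by omega))
  have c1 : (((P.parts.erase W).erase Z).erase Y).card = 1 := by rw [card_erase_of_mem hY, c2]
  obtain ⟨X, hX1⟩ := card_eq_one.mp c1
  have hX : X ∈ ((P.parts.erase W).erase Z).erase Y := by rw [hX1]; exact mem_singleton_self _
  have hpart : ∀ T ∈ P.parts, T = X ∨ T = Y ∨ T = Z ∨ T = W := by
    intro T hT
    by_contra hc
    push Not at hc
    have : T ∈ ((P.parts.erase W).erase Z).erase Y := by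
      simp only [mem_erase]; exact ⟨hc.2.1, hc.2.2.1, hc.2.2.2, hT⟩
    rw [hX1, mem_singleton] at this
    exact hc.1 this
  have hX' := hX
  have hY' := hY
  have hZ' := hZ
  simp only [mem_erase] at hX' hY' hZ'
  have dj : ∀ {S T : Finset (OnePoint F)}, S ∈ P.parts → T ∈ P.parts → S ≠ T → Disjoint S T :=
    fun hS hT hne => P.disjoint hS hT hne
  obtain ⟨M, m1, m2, m3, m4⟩ := bridge2_gen h0 h1 hcore (X := X) (Y := Y) (Z := Z) (W := W)
    (P.nonempty_of_mem_parts hX'.2.2.2) (dj hX'.2.2.2 hY'.2.2 hX'.1)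
    (dj hX'.2.2.2 hZ'.2 hX'.2.1) (dj hX'.2.2.2 hW hX'.2.2.1) (dj hY'.2.2 hZ'.2 hY'.1)
    (dj hY'.2.2 hW hY'.2.1) (dj hZ'.2 hW hZ'.1)
    (by
      intro v
      obtain ⟨T, hT, hv⟩ := P.exists_mem (mem_univ v)
      rcases hpart T hT with rfl | rfl | rfl | rfl <;> tauto)
    (mY X (mem_of_mem_erase hX)) (mZ Y (mem_of_mem_erase hY)) (mW Z (mem_of_mem_erase hZ))
  refine ⟨M, fun T hT => ?_⟩
  rcases hpart T hT with rfl | rfl | rfl | rfl <;> assumption

end Pool.Agent.P.MP_862e21_al
end

-- part Pool.Agent.P.MP_862e21_al.OBridge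
section

namespace Pool.Agent.P.MP_862e21_al

open Finset Pointwise

variable {F : Type*} [Field F] [DecidableEq F]

open OnePoint

/-- the determinant is a square -/
def SqDet (M : GL (Fin 2) F) : Prop := IsSquare ((Matrix.GeneralLinearGroup.det M : Fˣ) : F)

theorem sqDet_mul [Fintype F] (M M' : GL (Fin 2) F) : SqDet (M * M') ↔ (SqDet M ↔ SqDet M') := by
  unfold SqDet
  rw [map_mul, Units.val_mul]
  exact sq_mul_iff (Units.ne_zero _) (Units.ne_zero _)

theorem sqDet_inv (M : GL (Fin 2) F) : SqDet M⁻¹ ↔ SqDet M := by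
  unfold SqDet
  rw [map_inv, Units.val_inv_eq_inv_val]
  exact sq_inv_iff

theorem sq_sl {M : GL (Fin 2) F} (h : SqDet M) :
    ∃ M' : GL (Fin 2) F, Matrix.GeneralLinearGroup.det M' = 1 ∧
      ∀ x : OnePoint F, M' • x = M • x := by
  have hd : (M : Matrix (Fin 2) (Fin 2) F).det ≠ 0 := M.det_ne_zero
  obtain ⟨r, hr⟩ := h
  rw [Matrix.GeneralLinearGroup.val_det_apply] at hr
  have r0 : r ≠ 0 := by
    rintro rfl
    exact hd (by simpa using hr)
  have δ0 : r⁻¹ ≠ 0 := inv_ne_zero r0
  have e1 : (r⁻¹ • (M : Matrix (Fin 2) (Fin 2) F)).det = 1 := by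
    rw [Matrix.det_smul, Fintype.card_fin, hr]
    field_simp
  generalize r⁻¹ = δ at δ0 e1
  refine ⟨Matrix.GeneralLinearGroup.mkOfDetNeZero (δ • (M : Matrix (Fin 2) (Fin 2) F))
    (by rw [e1]; exact one_ne_zero), ?_, ?_⟩
  · ext
    simpa using e1
  · intro x
    induction x using OnePoint.rec with
    | infty =>
      rw [smul_infty_eq_ite, smul_infty_eq_ite]
      simp [δ0, mul_div_mul_left _ _ δ0]
    | coe k =>
      rw [smul_some_eq_ite, smul_some_eq_ite]
      have a1 : ∀ a b : F, δ * a * k + δ * b = δ * (a * k + b) := fun a b => by ring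
      simp [δ0, a1, mul_div_mul_left _ _ δ0]

theorem obridge_mk {a b c d : F} (h : a * d - b * c ≠ 0) :
    ∃ M : GL (Fin 2) F, (SqDet M ↔ IsSquare (a * d - b * c)) ∧
      M • (∞ : OnePoint F) = (if c = 0 then ∞ else ((a / c : F) : OnePoint F)) ∧
      ∀ k : F, M • (k : OnePoint F) =
        if c * k + d = 0 then ∞ else (((a * k + b) / (c * k + d) : F) : OnePoint F) := by
  refine ⟨Matrix.GeneralLinearGroup.mkOfDetNeZero !![a, b; c, d]
    (by simpa [Matrix.det_fin_two] using h), ?_, ?_, fun k => ?_⟩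
  · unfold SqDet
    rw [Matrix.GeneralLinearGroup.val_det_apply]
    simp [Matrix.det_fin_two]
  · rw [smul_infty_eq_ite]; simp
  · rw [smul_some_eq_ite]; simp

theorem obridge_image [DecidableEq (OnePoint F)] (M M' : GL (Fin 2) F) (S : Finset (OnePoint F)) :
    (S.image (fun x => M' • x)).image (fun x => M • x) = S.image (fun x => (M * M') • x) := by
  rw [image_image]
  congr 1
  funext v
  simp [mul_smul]

theorem base_flip [DecidableEq (OnePoint F)] (h : ¬ IsSquare (-1 : F)) (c : F) :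
    ∃ V : GL (Fin 2) F, ¬ SqDet V ∧ base c = (base (1 - c)).image (fun x => V • x) := by
  obtain ⟨M, md, m1, m2⟩ := obridge_mk (a := (-1 : F)) (b := 1) (c := 0) (d := 1) (by simp)
  refine ⟨M, fun a => h (by simpa using md.mp a), ?_⟩
  ext v
  simp only [base, image_insert, image_singleton, m1, m2, mem_insert, mem_singleton]
  simp; tauto

theorem base_fix [Fintype F] [DecidableEq (OnePoint F)] (h : ¬ IsSquare (-1 : F)) {c : F}
    (h0 : c ≠ 0) (h1 : c ≠ 1) (hs : IsSquare c ∨ IsSquare (1 - c)) :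
    ∃ V : GL (Fin 2) F, ¬ SqDet V ∧ base c = (base c).image (fun x => V • x) := by
  have h2 : 1 - c ≠ 0 := sub_ne_zero.mpr h1.symm
  have h5 : c + -1 ≠ 0 := by rw [← sub_eq_add_neg]; exact sub_ne_zero.mpr h1
  rcases hs with hs | hs
  · obtain ⟨M, md, m1, m2⟩ := obridge_mk (a := (0 : F)) (b := c) (c := 1) (d := 0)
      (by simpa using h0)
    refine ⟨M, fun a => (sq_neg_iff h h0).mp (by simpa using md.mp a) hs, ?_⟩
    ext v
    simp only [base, image_insert, image_singleton, m1, m2, mem_insert, mem_singleton]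
    simp [h0]; tauto
  · have e : (1 : F) * -1 - -c * 1 = -(1 - c) := by ring
    obtain ⟨M, md, m1, m2⟩ := obridge_mk (a := (1 : F)) (b := -c) (c := 1) (d := -1)
      (by rw [e]; exact neg_ne_zero.mpr h2)
    rw [e] at md
    refine ⟨M, fun a => (sq_neg_iff h h2).mp (md.mp a) hs, ?_⟩
    ext v
    simp only [base, image_insert, image_singleton, m1, m2, mem_insert, mem_singleton]
    simp [h5]; tauto

theorem obridge_even [DecidableEq (OnePoint F)] {c s : F} (h0 : c ≠ 0) (h1 : c ≠ 1)
    (hs : s ∈ Lp c) :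
    ∃ M : GL (Fin 2) F, SqDet M ∧ base s = (base c).image (fun x => M • x) := by
  have h2 : 1 - c ≠ 0 := sub_ne_zero.mpr h1.symm
  have h4 : -c + 1 ≠ 0 := by rw [add_comm, ← sub_eq_add_neg]; exact h2
  rcases mem_Lp.mp hs with h | h | h <;> subst h
  · exact ⟨1, by simp [SqDet], by simp⟩
  · obtain ⟨M, md, m1, m2⟩ := obridge_mk (a := (0 : F)) (b := 1) (c := -1) (d := 1) (by simp)
    refine ⟨M, md.mpr (by simp), ?_⟩
    ext v
    simp only [base, image_insert, image_singleton, m1, m2, mem_insert, mem_singleton]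
    have : 1 - c = -c + 1 := by ring
    simp [this, h4]; tauto
  · obtain ⟨M, md, m1, m2⟩ := obridge_mk (a := (1 : F)) (b := -1) (c := 1) (d := 0) (by simp)
    refine ⟨M, md.mpr (by simp), ?_⟩
    ext v
    simp only [base, image_insert, image_singleton, m1, m2, mem_insert, mem_singleton]
    have : c - 1 = c + -1 := by ring
    simp [this, h0]; tauto

theorem obridge_odd [Fintype F] [DecidableEq (OnePoint F)] {c s : F} (h : Spl c)
    (hs : s ∈ Lp (1 - c)) :
    ∃ M : GL (Fin 2) F, ¬ SqDet M ∧ base s = (base c).image (fun x => M • x) := by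
  obtain ⟨M, qM, eM⟩ := obridge_even h.flip.c0 h.flip.c1 hs
  obtain ⟨V, qV, eV⟩ := base_flip h.neg (1 - c)
  rw [sub_sub_cancel] at eV
  refine ⟨M * V, fun a => qV (((sqDet_mul M V).mp a).mp qM), ?_⟩
  rw [eM, eV, obridge_image]

theorem obridge_frame [Fintype F] (hn : ¬ IsSquare (-1 : F)) {x y z : F} (hxy : x ≠ y)
    (hxz : x ≠ z) (hyz : y ≠ z) :
    ∃ M : GL (Fin 2) F, (SqDet M ↔ ¬ IsSquare (Vd x y z)) ∧
      M • (∞ : OnePoint F) = (x : OnePoint F) ∧
      M • ((0 : F) : OnePoint F) = (y : OnePoint F) ∧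
      M • ((1 : F) : OnePoint F) = (z : OnePoint F) ∧
      ∀ s p : F, M • (s : OnePoint F) = (p : OnePoint F) →
        (p - y) * (z - x) = s * (z - y) * (p - x) := by
  have a1 : z - y ≠ 0 := sub_ne_zero.mpr hyz.symm
  have a2 : x - z ≠ 0 := sub_ne_zero.mpr hxz
  have a3 : x - y ≠ 0 := sub_ne_zero.mpr hxy
  have a4 : Vd x y z ≠ 0 := mul_ne_zero (mul_ne_zero a3 a2) (sub_ne_zero.mpr hyz)
  have e : x * (z - y) * (x - z) - y * (x - z) * (z - y) = -Vd x y z := by unfold Vd; ring
  obtain ⟨M, md, m1, m2⟩ := obridge_mk (a := x * (z - y)) (b := y * (x - z)) (c := z - y)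
    (d := x - z) (by rw [e]; exact neg_ne_zero.mpr a4)
  rw [e, sq_neg_iff hn a4] at md
  refine ⟨M, md, ?_, ?_, ?_, ?_⟩
  · rw [m1, if_neg a1]; congr 1; field_simp
  · rw [m2, if_neg (by simpa using a2)]; congr 1
    simp only [mul_zero, zero_add]; field_simp
  · have : (z - y) * 1 + (x - z) = x - y := by ring
    rw [m2, this, if_neg a3]; congr 1; field_simp; ring
  · intro s p h
    rw [m2] at h
    split_ifs at h with h0
    · exact absurd h (infty_ne_coe p)
    · have e := coe_injective h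
      rw [div_eq_iff h0] at e
      linear_combination e

theorem obridge_move (w : OnePoint F) : ∃ N : GL (Fin 2) F, SqDet N ∧ N • w = ∞ := by
  induction w using OnePoint.rec with
  | infty => exact ⟨1, by simp [SqDet], one_smul _ _⟩
  | coe a =>
    obtain ⟨M, md, -, m2⟩ := obridge_mk (a := (0 : F)) (b := -1) (c := 1) (d := -a) (by simp)
    exact ⟨M, md.mpr (by simp), by simp [m2]⟩

theorem obridge_inf [Fintype F] [DecidableEq (OnePoint F)] {c : F} (h : Spl c)
    (hcore : ∀ A B C : Finset F, OCl (1 - c) A B C → A.card ≤ B.card → B.card ≤ C.card →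
      A.card + B.card + 2 * C.card ≤ Fintype.card F + 1 → False)
    {X Y Z W : Finset (OnePoint F)} (nX : X.Nonempty) (dXY : Disjoint X Y) (dXZ : Disjoint X Z)
    (dXW : Disjoint X W) (dYZ : Disjoint Y Z) (dYW : Disjoint Y W) (dZW : Disjoint Z W)
    (hall : ∀ v, v ∈ X ∨ v ∈ Y ∨ v ∈ Z ∨ v ∈ W) (cXY : X.card ≤ Y.card) (cYZ : Y.card ≤ Z.card)
    (cZW : Z.card ≤ W.card) (hinf : ∞ ∈ W) :
    ∃ M : GL (Fin 2) F, SqDet M ∧ (X ∩ (base c).image (fun x => M • x)).card = 1 ∧
      (Y ∩ (base c).image (fun x => M • x)).card = 1 ∧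
      (Z ∩ (base c).image (fun x => M • x)).card = 1 ∧
      (W ∩ (base c).image (fun x => M • x)).card = 1 := by
  by_contra hno
  have pre : ∀ T : Finset (OnePoint F), Disjoint T W →
      (univ.filter (fun a : F => (a : OnePoint F) ∈ T)).card = T.card := by
    intro T hT
    apply card_bij (fun (a : F) _ => (a : OnePoint F))
    · intro a ha; exact (mem_filter.mp ha).2
    · intro a _ b _ e; exact OnePoint.coe_injective e
    · intro v hv
      induction v using OnePoint.rec with
      | infty => exact absurd hinf (disjoint_left.mp hT hv)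
      | coe a => exact ⟨a, mem_filter.mpr ⟨mem_univ _, hv⟩, rfl⟩
  have dj : ∀ T T' : Finset (OnePoint F), Disjoint T T' →
      Disjoint (univ.filter (fun a : F => (a : OnePoint F) ∈ T))
        (univ.filter (fun a : F => (a : OnePoint F) ∈ T')) := by
    intro T T' h
    rw [disjoint_left]
    intro a ha ha'
    exact disjoint_left.mp h (mem_filter.mp ha).2 (mem_filter.mp ha').2
  have eX := pre X dXW
  have eY := pre Y dYW
  have eZ := pre Z dZW
  have x1 := nX.card_pos
  have htot : X.card + Y.card + Z.card + W.card ≤ Fintype.card F + 1 := by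
    have e := card_le_univ (X ∪ Y ∪ Z ∪ W)
    rw [card_union_of_disjoint (disjoint_union_left.mpr ⟨disjoint_union_left.mpr ⟨dXW, dYW⟩, dZW⟩),
      card_union_of_disjoint (disjoint_union_left.mpr ⟨dXZ, dYZ⟩),
      card_union_of_disjoint dXY] at e
    have e2 : Fintype.card (OnePoint F) = Fintype.card F + 1 := Fintype.card_option
    omega
  have key : ∀ (s : F) (M0 : GL (Fin 2) F), base s = (base c).image (fun x => M0 • x) →
      ∀ x ∈ univ.filter (fun a : F => (a : OnePoint F) ∈ X),
      ∀ y ∈ univ.filter (fun a : F => (a : OnePoint F) ∈ Y),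
      ∀ z ∈ univ.filter (fun a : F => (a : OnePoint F) ∈ Z),
      (SqDet M0 ↔ ¬ IsSquare (Vd x y z)) →
      ∃ p ∈ univ.filter (fun a : F => (a : OnePoint F) ∈ X) ∪
        univ.filter (fun a : F => (a : OnePoint F) ∈ Y) ∪
        univ.filter (fun a : F => (a : OnePoint F) ∈ Z),
        (p - y) * (z - x) = s * (z - y) * (p - x) := by
    intro s M0 hM0 x hx y hy z hz hq
    have hx' := (mem_filter.mp hx).2
    have hy' := (mem_filter.mp hy).2
    have hz' := (mem_filter.mp hz).2
    have xy : x ≠ y := fun e => disjoint_left.mp dXY hx' (e ▸ hy')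
    have xz : x ≠ z := fun e => disjoint_left.mp dXZ hx' (e ▸ hz')
    have yz : y ≠ z := fun e => disjoint_left.mp dYZ hy' (e ▸ hz')
    obtain ⟨M, md, m1, m2, m3, m4⟩ := obridge_frame h.neg xy xz yz
    have hsq : SqDet (M * M0) := (sqDet_mul M M0).mpr (md.trans hq.symm)
    clear md hq
    have hS : ∀ v, v ∈ (base c).image (fun x => (M * M0) • x) ↔
        v = (x : OnePoint F) ∨ v = (y : OnePoint F) ∨ v = (z : OnePoint F) ∨
          v = M • (s : OnePoint F) := by
      intro v
      have : (base c).image (fun x => (M * M0) • x) = (base s).image (fun x => M • x) := by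
        rw [hM0, image_image]
        congr 1
        funext v
        simp [mul_smul]
      rw [this]
      simp only [base, image_insert, image_singleton, mem_insert, mem_singleton, m1, m2, m3]
    have hW : M • (s : OnePoint F) ∉ W := by
      intro hw
      apply hno
      refine ⟨M * M0, hsq, ?_, ?_, ?_, ?_⟩
      · exact bridge2_one hx' (disjoint_right.mp dXY hy') (disjoint_right.mp dXZ hz')
          (disjoint_right.mp dXW hw) hS
      · exact bridge2_one hy' (disjoint_left.mp dXY hx') (disjoint_right.mp dYZ hz')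
          (disjoint_right.mp dYW hw) (fun v => (hS v).trans or_left_comm)
      · exact bridge2_one hz' (disjoint_left.mp dXZ hx') (disjoint_left.mp dYZ hy')
          (disjoint_right.mp dZW hw)
          (fun v => (hS v).trans ((or_congr_right or_left_comm).trans or_left_comm))
      · exact bridge2_one hw (disjoint_left.mp dXW hx') (disjoint_left.mp dYW hy')
          (disjoint_left.mp dZW hz') (fun v => (hS v).trans ((or_congr_right
          ((or_congr_right or_comm).trans or_left_comm)).trans or_left_comm))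
    have hp : ∃ p : F, M • (s : OnePoint F) = (p : OnePoint F) := by
      generalize M • (s : OnePoint F) = v at hW
      induction v using OnePoint.rec with
      | infty => exact absurd hinf hW
      | coe a => exact ⟨a, rfl⟩
    obtain ⟨p, hp⟩ := hp
    refine ⟨p, ?_, m4 s p hp⟩
    rw [hp] at hW
    simp only [mem_union, mem_filter, mem_univ, true_and]
    rcases hall (p : OnePoint F) with a | a | a | a
    · exact Or.inl (Or.inl a)
    · exact Or.inl (Or.inr a)
    · exact Or.inr a
    · exact absurd a hW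
  refine hcore _ _ _ ⟨h.flip, card_pos.mp (by rw [eX]; omega), card_pos.mp (by rw [eY]; omega),
    card_pos.mp (by rw [eZ]; omega), dj X Y dXY, dj X Z dXZ, dj Y Z dYZ, ?_, ?_⟩ (by omega)
    (by omega) (by omega)
  · intro s hs x hx y hy z hz hv
    obtain ⟨M0, q0, e0⟩ := obridge_odd h hs
    exact key s M0 e0 x hx y hy z hz ⟨fun a => absurd a q0, fun a => absurd hv a⟩
  · intro s hs x hx y hy z hz hv
    obtain ⟨M0, q0, e0⟩ := obridge_odd h hs
    obtain ⟨V, qV, eV⟩ := base_flip h.neg (1 - s)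
    rw [sub_sub_cancel] at eV
    refine key (1 - s) (V * M0) ?_ x hx y hy z hz
      ⟨fun _ => hv, fun _ => (sqDet_mul V M0).mpr ⟨fun a => absurd a qV, fun a => absurd a q0⟩⟩
    rw [eV, e0, obridge_image]

theorem obridge_gen [Fintype F] [DecidableEq (OnePoint F)] {c : F} (h : Spl c)
    (hcore : ∀ A B C : Finset F, OCl (1 - c) A B C → A.card ≤ B.card → B.card ≤ C.card →
      A.card + B.card + 2 * C.card ≤ Fintype.card F + 1 → False)
    {X Y Z W : Finset (OnePoint F)} (nX : X.Nonempty) (dXY : Disjoint X Y) (dXZ : Disjoint X Z)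
    (dXW : Disjoint X W) (dYZ : Disjoint Y Z) (dYW : Disjoint Y W) (dZW : Disjoint Z W)
    (hall : ∀ v, v ∈ X ∨ v ∈ Y ∨ v ∈ Z ∨ v ∈ W) (cXY : X.card ≤ Y.card) (cYZ : Y.card ≤ Z.card)
    (cZW : Z.card ≤ W.card) :
    ∃ M : GL (Fin 2) F, SqDet M ∧ (X ∩ (base c).image (fun x => M • x)).card = 1 ∧
      (Y ∩ (base c).image (fun x => M • x)).card = 1 ∧
      (Z ∩ (base c).image (fun x => M • x)).card = 1 ∧
      (W ∩ (base c).image (fun x => M • x)).card = 1 := by
  have x1 := nX.card_pos
  obtain ⟨w, hw⟩ : W.Nonempty := card_pos.mp (by omega)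
  obtain ⟨N, qN, hN⟩ := obridge_move w
  have inj : Function.Injective (fun v : OnePoint F => N • v) := MulAction.injective N
  have cd : ∀ T : Finset (OnePoint F), (T.image (fun v => N • v)).card = T.card :=
    fun T => card_image_of_injective _ inj
  obtain ⟨M, qM, m1, m2, m3, m4⟩ := obridge_inf h hcore (X := X.image (fun v => N • v))
    (Y := Y.image (fun v => N • v)) (Z := Z.image (fun v => N • v))
    (W := W.image (fun v => N • v)) (nX.image _) ((disjoint_image inj).mpr dXY)
    ((disjoint_image inj).mpr dXZ) ((disjoint_image inj).mpr dXW) ((disjoint_image inj).mpr dYZ)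
    ((disjoint_image inj).mpr dYW) ((disjoint_image inj).mpr dZW)
    (by
      intro v
      have e : v = N • (N⁻¹ • v) := by simp
      rcases hall (N⁻¹ • v) with h | h | h | h
      · exact Or.inl (mem_image.mpr ⟨_, h, e.symm⟩)
      · exact Or.inr (Or.inl (mem_image.mpr ⟨_, h, e.symm⟩))
      · exact Or.inr (Or.inr (Or.inl (mem_image.mpr ⟨_, h, e.symm⟩)))
      · exact Or.inr (Or.inr (Or.inr (mem_image.mpr ⟨_, h, e.symm⟩))))
    (by rw [cd, cd]; exact cXY) (by rw [cd, cd]; exact cYZ) (by rw [cd, cd]; exact cZW)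
    (mem_image.mpr ⟨w, hw, hN⟩)
  have key : ∀ T : Finset (OnePoint F), (T ∩ (base c).image (fun x => (N⁻¹ * M) • x)).card =
      (T.image (fun v => N • v) ∩ (base c).image (fun x => M • x)).card := by
    intro T
    rw [← cd, image_inter _ _ inj, image_image]
    congr 3
    funext v
    simp [mul_smul]
  exact ⟨N⁻¹ * M, (sqDet_mul _ _).mpr ⟨fun _ => qM, fun _ => (sqDet_inv N).mpr qN⟩,
    by rw [key, m1], by rw [key, m2], by rw [key, m3], by rw [key, m4]⟩

theorem orainbow [Fintype F] [DecidableEq (OnePoint F)] {c : F} (h : Spl c)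
    (hcore : ∀ A B C : Finset F, OCl (1 - c) A B C → A.card ≤ B.card → B.card ≤ C.card →
      A.card + B.card + 2 * C.card ≤ Fintype.card F + 1 → False)
    (P : Finpartition (univ : Finset (OnePoint F))) (hP : P.parts.card = 4) :
    ∃ M : GL (Fin 2) F, SqDet M ∧
      ∀ X ∈ P.parts, (X ∩ (base c).image (fun x => M • x)).card = 1 := by
  obtain ⟨W, hW, mW⟩ := exists_max_image P.parts card (card_pos.mp (by omega))
  have c3 : (P.parts.erase W).card = 3 := by rw [card_erase_of_mem hW, hP]
  obtain ⟨Z, hZ, mZ⟩ := exists_max_image (P.parts.erase W) card (card_pos.mp (by omega))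
  have c2 : ((P.parts.erase W).erase Z).card = 2 := by rw [card_erase_of_mem hZ, c3]
  obtain ⟨Y, hY, mY⟩ := exists_max_image ((P.parts.erase W).erase Z) card (card_pos.mp (by omega))
  have c1 : (((P.parts.erase W).erase Z).erase Y).card = 1 := by rw [card_erase_of_mem hY, c2]
  obtain ⟨X, hX1⟩ := card_eq_one.mp c1
  have hX : X ∈ ((P.parts.erase W).erase Z).erase Y := by rw [hX1]; exact mem_singleton_self _
  have hpart : ∀ T ∈ P.parts, T = X ∨ T = Y ∨ T = Z ∨ T = W := by
    intro T hT
    by_contra hc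
    push Not at hc
    have : T ∈ ((P.parts.erase W).erase Z).erase Y := by
      simp only [mem_erase]; exact ⟨hc.2.1, hc.2.2.1, hc.2.2.2, hT⟩
    rw [hX1, mem_singleton] at this
    exact hc.1 this
  have hX' := hX
  have hY' := hY
  have hZ' := hZ
  simp only [mem_erase] at hX' hY' hZ'
  have dj : ∀ {S T : Finset (OnePoint F)}, S ∈ P.parts → T ∈ P.parts → S ≠ T → Disjoint S T :=
    fun hS hT hne => P.disjoint hS hT hne
  obtain ⟨M, qM, m1, m2, m3, m4⟩ := obridge_gen h hcore (X := X) (Y := Y) (Z := Z) (W := W)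
    (P.nonempty_of_mem_parts hX'.2.2.2) (dj hX'.2.2.2 hY'.2.2 hX'.1)
    (dj hX'.2.2.2 hZ'.2 hX'.2.1) (dj hX'.2.2.2 hW hX'.2.2.1) (dj hY'.2.2 hZ'.2 hY'.1)
    (dj hY'.2.2 hW hY'.2.1) (dj hZ'.2 hW hZ'.1)
    (by
      intro v
      obtain ⟨T, hT, hv⟩ := P.exists_mem (mem_univ v)
      rcases hpart T hT with rfl | rfl | rfl | rfl <;> tauto)
    (mY X (mem_of_mem_erase hX)) (mZ Y (mem_of_mem_erase hY)) (mW Z (mem_of_mem_erase hZ))
  refine ⟨M, qM, fun T hT => ?_⟩
  rcases hpart T hT with rfl | rfl | rfl | rfl <;> assumption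

end Pool.Agent.P.MP_862e21_al
end

-- part Pool.Agent.P.MP_862e21_al.Span2
section

namespace Pool.Agent.P.MP_862e21_al

open Finset Pointwise

variable {F : Type*} [Field F] [DecidableEq F]

theorem span2 (h2 : (2 : F) = 0) {S : Finset F} {K : ℕ} (h0 : (0 : F) ∈ S)
    (h : (S + S + S + S).card ≤ K * S.card) :
    ∃ T : Finset F, T.card ≤ K ∧ T ⊆ S + S + S ∧ ∀ v ∈ AddSubgroup.closure (S : Set F),
      ∃ U ⊆ T, ∃ x ∈ S, ∃ y ∈ S, v = ∑ w ∈ U, w + x + y := by
  obtain ⟨T, hT, hK, hc⟩ := ruzsa_covering_add (A := S + S + S) (B := S) (K := (K : ℝ)) ⟨0, h0⟩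
    (by exact_mod_cast h)
  refine ⟨T, by exact_mod_cast hK, hT, ?_⟩
  have step : ∀ s ∈ S, ∀ u : F, (∃ U ⊆ T, ∃ x ∈ S, ∃ y ∈ S, u = ∑ w ∈ U, w + x + y) →
      ∃ U ⊆ T, ∃ x ∈ S, ∃ y ∈ S, u + s = ∑ w ∈ U, w + x + y := by
    rintro s hs u ⟨U, hU, x, hx, y, hy, rfl⟩
    obtain ⟨w', hw', d, hd, e⟩ := mem_add.mp (hc (add_mem_add (add_mem_add hx hy) hs))
    obtain ⟨x', hx', y', hy', rfl⟩ := mem_sub.mp hd
    by_cases hw : w' ∈ U
    · refine ⟨U.erase w', (erase_subset _ _).trans hU, x', hx', y', hy', ?_⟩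
      have := add_sum_erase U (fun w => w) hw
      linear_combination -this - e + (w' - y') * h2
    · refine ⟨insert w' U, insert_subset hw' hU, x', hx', y', hy', ?_⟩
      rw [sum_insert hw]
      linear_combination -e - y' * h2
  have key : ∀ v ∈ AddSubgroup.closure (S : Set F), ∀ u : F,
      (∃ U ⊆ T, ∃ x ∈ S, ∃ y ∈ S, u = ∑ w ∈ U, w + x + y) →
      ∃ U ⊆ T, ∃ x ∈ S, ∃ y ∈ S, u + v = ∑ w ∈ U, w + x + y := by
    intro v hv
    induction hv using AddSubgroup.closure_induction with
    | mem s hs => exact step s hs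
    | zero => intro u hu; simpa using hu
    | add a b _ _ iha ihb =>
      intro u hu
      rw [← add_assoc]
      exact ihb _ (iha u hu)
    | neg a _ iha =>
      have : -a = a := by linear_combination -a * h2
      rw [this]
      exact iha
  intro v hv
  have := key v hv 0 ⟨∅, empty_subset _, 0, h0, 0, h0, by simp⟩
  rwa [zero_add] at this

theorem card_span2 (h2 : (2 : F) = 0) {S : Finset F} {K : ℕ} (h0 : (0 : F) ∈ S)
    (h : (S + S + S + S).card ≤ K * S.card) :
    Nat.card (AddSubgroup.closure (S : Set F)) ≤ 2 ^ K * (S + S).card := by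
  obtain ⟨T, hK, -, hT⟩ := span2 h2 h0 h
  set I : Finset F := (T.powerset ×ˢ (S + S)).image (fun p => ∑ w ∈ p.1, w + p.2) with hI
  have sub : (AddSubgroup.closure (S : Set F) : Set F) ⊆ (I : Set F) := by
    intro v hv
    obtain ⟨U, hU, x, hx, y, hy, rfl⟩ := hT v hv
    refine mem_coe.mpr (mem_image.mpr ⟨(U, x + y), ?_, by simp only [add_assoc]⟩)
    exact mem_product.mpr ⟨mem_powerset.mpr hU, add_mem_add hx hy⟩
  calc Nat.card (AddSubgroup.closure (S : Set F))
      = (AddSubgroup.closure (S : Set F) : Set F).ncard := Nat.card_coe_set_eq _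
    _ ≤ (I : Set F).ncard := Set.ncard_le_ncard sub I.finite_toSet
    _ = I.card := Set.ncard_coe_finset I
    _ ≤ (T.powerset ×ˢ (S + S)).card := card_image_le
    _ = 2 ^ T.card * (S + S).card := by rw [card_product, card_powerset]
    _ ≤ 2 ^ K * (S + S).card := Nat.mul_le_mul_right _ (Nat.pow_le_pow_right (by norm_num) hK)

/-- the tower of subgroups `V + t V + ... + t ^ k V` -/
def tower2 (t : F) (V : AddSubgroup F) : ℕ → AddSubgroup F
  | 0 => V
  | k + 1 => V ⊔ (tower2 t V k).map (AddMonoidHom.mulLeft t)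

omit [DecidableEq F] in
theorem le_tower2 (t : F) (V : AddSubgroup F) (k : ℕ) : V ≤ tower2 t V k := by
  cases k with
  | zero => exact le_rfl
  | succ k => exact le_sup_left

omit [DecidableEq F] in
theorem tower2_le (t : F) (V : AddSubgroup F) (k : ℕ) : tower2 t V k ≤ tower2 t V (k + 1) := by
  induction k with
  | zero => exact le_sup_left
  | succ k ih => exact sup_le_sup_left (AddSubgroup.map_mono ih) V

omit [DecidableEq F] in
theorem tower2_size {t : F} {V : AddSubgroup F} {ν : F → ℕ} (add : ∀ h k, ν (h + k) ≤ ν h + ν k)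
    (mul : ∀ h, ν (t * h) ≤ ν h + 1) {r : ℕ} (hV : ∀ v ∈ V, ν v ≤ r) (k : ℕ) :
    ∀ v ∈ tower2 t V k, ν v ≤ r * (k + 1) + k := by
  induction k with
  | zero => intro v hv; simpa using hV v hv
  | succ k ih =>
    intro v hv
    obtain ⟨y, hy, z, hz, rfl⟩ := AddSubgroup.mem_sup.mp hv
    obtain ⟨z', hz', rfl⟩ := AddSubgroup.mem_map.mp hz
    have a1 := add y (t * z')
    have a2 := mul z'
    have a3 := hV y hy
    have a4 := ih z' hz'
    have e : r * (k + 1 + 1) = r * (k + 1) + r := by ring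
    change ν (y + t * z') ≤ _
    omega

theorem grow2 [Fintype F] (h2 : (2 : F) = 0) (hI : Irr F) {t : F} (ht0 : t ≠ 0) (ht1 : t ≠ 1)
    {ν : F → ℕ} (zero : ν 0 = 0) (add : ∀ h k, ν (h + k) ≤ ν h + ν k)
    (mul : ∀ h, ν (t * h) ≤ ν h + 1) {m : ℕ} (hm : 1 ≤ m) (h1 : 2 ≤ (lev ν m).card)
    (hq : (lev ν (350 * m)).card < Fintype.card F) :
    8 * (lev ν m).card ≤ (lev ν (4 * m)).card ∨
      700 * (lev ν m).card ≤ (lev ν (350 * m)).card := by
  by_cases hlt : 8 * (lev ν m).card ≤ (lev ν (4 * m)).card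
  · exact Or.inl hlt
  right
  set S := lev ν m with hS
  have hS0 : (0 : F) ∈ S := mem_lev.mpr (by omega)
  have n3 : ∀ w ∈ S + S + S, ν w ≤ 3 * m := by
    intro w hw
    obtain ⟨p, hp, z, hz, rfl⟩ := mem_add.mp hw
    obtain ⟨x, hx, y, hy, rfl⟩ := mem_add.mp hp
    have := add (x + y) z
    have := add x y
    have := mem_lev.mp hx
    have := mem_lev.mp hy
    have := mem_lev.mp hz
    omega
  have n4 : S + S + S + S ⊆ lev ν (4 * m) := by
    intro w hw
    obtain ⟨p, hp, z, hz, rfl⟩ := mem_add.mp hw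
    have := add p z
    have := n3 p hp
    have := mem_lev.mp hz
    exact mem_lev.mpr (by omega)
  obtain ⟨T, hK, hT, hc⟩ := span2 (K := 8) h2 hS0 (by have := card_le_card n4; omega)
  have nsum : ∀ U : Finset F, U ⊆ T → ν (∑ w ∈ U, w) ≤ U.card * (3 * m) := by
    intro U
    induction U using Finset.induction_on with
    | empty => intro _; simp [zero]
    | insert w U hw ih =>
      intro hU
      rw [sum_insert hw, card_insert_of_notMem hw]
      have a1 := add w (∑ w ∈ U, w)
      have a2 := ih ((subset_insert _ _).trans hU)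
      have a3 := n3 w (hT (hU (mem_insert_self _ _)))
      have e : (U.card + 1) * (3 * m) = U.card * (3 * m) + 3 * m := by ring
      omega
  set V := AddSubgroup.closure (S : Set F) with hVd
  have hV : ∀ v ∈ V, ν v ≤ 26 * m := by
    intro v hv
    obtain ⟨U, hU, x, hx, y, hy, rfl⟩ := hc v hv
    have a1 := add (∑ w ∈ U, w + x) y
    have a2 := add (∑ w ∈ U, w) x
    have a3 := nsum U hU
    have a4 : U.card * (3 * m) ≤ 8 * (3 * m) :=
      Nat.mul_le_mul_right _ ((card_le_card hU).trans hK)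
    have := mem_lev.mp hx
    have := mem_lev.mp hy
    omega
  have hW : ∀ k ≤ 10, ∀ v ∈ tower2 t V k, v ∈ lev ν (350 * m) := by
    intro k hk v hv
    have a1 := tower2_size add mul hV k v hv
    have a2 : 26 * m * (k + 1) ≤ 26 * m * 11 := Nat.mul_le_mul_left _ (by omega)
    exact mem_lev.mpr (by omega)
  obtain ⟨s, hs, s0⟩ : ∃ s ∈ S, s ≠ 0 := exists_mem_ne (by omega) 0
  have dbl : ∀ k ≤ 10, 2 * Nat.card (tower2 t V k) ≤ Nat.card (tower2 t V (k + 1)) := by
    intro k hk
    have hle := tower2_le t V k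
    have hne : ¬ Nat.card (tower2 t V (k + 1)) ≤ Nat.card (tower2 t V k) := by
      intro hc'
      have e := AddSubgroup.eq_of_le_of_card_ge hle hc'
      have inv : ∀ h ∈ tower2 t V k, t * h ∈ tower2 t V k := by
        intro h hh
        rw [e]
        exact AddSubgroup.mem_sup_right (AddSubgroup.mem_map.mpr ⟨h, hh, rfl⟩)
      rcases hI _ t ht0 ht1 inv with hb | hb
      · have : s ∈ tower2 t V k := le_tower2 t V k (AddSubgroup.subset_closure (mem_coe.mpr hs))
        rw [hb] at this
        exact s0 (AddSubgroup.mem_bot.mp this)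
      · have : (univ : Finset F) ⊆ lev ν (350 * m) := fun v _ =>
          hW k hk v (by rw [hb]; exact AddSubgroup.mem_top v)
        have := card_le_card this
        rw [card_univ] at this
        omega
    obtain ⟨c, hc'⟩ := AddSubgroup.card_dvd_of_le hle
    have pos : 0 < Nat.card (tower2 t V (k + 1)) := Nat.card_pos
    rcases c with _ | _ | c
    · omega
    · omega
    · rw [hc']
      nlinarith [Nat.zero_le (Nat.card (tower2 t V k) * c)]
  have pw : ∀ k ≤ 10, 2 ^ k * S.card ≤ Nat.card (tower2 t V k) := by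
    intro k
    induction k with
    | zero =>
      intro _
      have : (S : Set F) ⊆ (V : Set F) := AddSubgroup.subset_closure
      have a1 := Set.ncard_le_ncard this (Set.toFinite _)
      rw [Set.ncard_coe_finset] at a1
      have a2 : Nat.card (tower2 t V 0) = (V : Set F).ncard := Nat.card_coe_set_eq _
      omega
    | succ k ih =>
      intro hk
      have a1 := ih (by omega)
      have a2 := dbl k (by omega)
      have e : 2 ^ (k + 1) * S.card = 2 * (2 ^ k * S.card) := by ring
      omega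
  have a1 := pw 10 le_rfl
  have a2 : Nat.card (tower2 t V 10) ≤ (lev ν (350 * m)).card := by
    have sub : (tower2 t V 10 : Set F) ⊆ (lev ν (350 * m) : Set F) := fun v hv =>
      mem_coe.mpr (hW 10 le_rfl v hv)
    have a3 := Set.ncard_le_ncard sub (Set.toFinite _)
    rw [Set.ncard_coe_finset] at a3
    have a4 : Nat.card (tower2 t V 10) = (tower2 t V 10 : Set F).ncard := Nat.card_coe_set_eq _
    omega
  omega

end Pool.Agent.P.MP_862e21_al
end

-- part Pool.Agent.P.MP_862e21_al.Sparse2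
section

namespace Pool.Agent.P.MP_862e21_al

open Finset Pointwise

variable {F : Type*} [Field F] [DecidableEq F]

theorem spanAll [Fintype F] (hI : Irr F) {l : F} {B C D : Finset F} {u : ℕ} (h : Trio l B C D)
    (hu : Fintype.card F = B.card + C.card + D.card + u) (hub : u < B.card)
    (huc : 2 * u < C.card) :
    AddSubgroup.closure ((((B ∪ C) - (B ∪ C) : Finset F)) : Set F) = ⊤ := by
  classical
  set V := AddSubgroup.closure ((((B ∪ C) - (B ∪ C) : Finset F)) : Set F) with hV
  have hgen : ∀ a ∈ B ∪ C, ∀ a' ∈ B ∪ C, a - a' ∈ V := fun a ha a' ha' =>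
    AddSubgroup.subset_closure (mem_coe.2 (sub_mem_sub ha ha'))
  have hE : ((B ∪ C ∪ D)ᶜ).card = u := by
    rw [card_compl, card_union_of_disjoint (disjoint_union_left.2 ⟨h.dBD, h.dCD⟩),
      card_union_of_disjoint h.dBC]
    omega
  have key : ∀ y ∈ B, ∀ z ∈ C, l * (z - y) ∉ V → (1 - l) * y + l * z ∈ (B ∪ C ∪ D)ᶜ := by
    intro y hy z hz hn
    refine mem_compl.2 fun hw => ?_
    rcases mem_union.1 hw with hw | hw
    · refine hn ?_
      have := hgen _ hw y (mem_union_left _ hy)
      rwa [show (1 - l) * y + l * z - y = l * (z - y) by ring] at this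
    · exact h.sc l (self_mem_Lam l) y hy z hz hw
  have k1 : ∀ y ∈ B, (C.filter (fun z => l * (z - y) ∉ V)).card ≤ u := by
    intro y hy
    rw [← hE]
    refine card_le_card_of_injOn (fun z => (1 - l) * y + l * z) (fun z hz => ?_)
      fun z _ z' _ e => mul_left_cancel₀ h.l0 (add_left_cancel e)
    exact key y hy z (mem_filter.1 hz).1 (mem_filter.1 hz).2
  have k2 : ∀ z ∈ C, (B.filter (fun y => l * (z - y) ∉ V)).card ≤ u := by
    intro z hz
    rw [← hE]
    refine card_le_card_of_injOn (fun y => (1 - l) * y + l * z) (fun y hy => ?_)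
      fun y _ y' _ e => mul_left_cancel₀ (sub_ne_zero.2 h.l1.symm) (add_right_cancel e)
    exact key y (mem_filter.1 hy).1 z hz (mem_filter.1 hy).2
  have k3 : ∀ y ∈ B, ∀ y' ∈ B, l * (y - y') ∈ V := by
    intro y hy y' hy'
    obtain ⟨z, hz, hn⟩ : ∃ z ∈ C, z ∉ C.filter (fun z => l * (z - y) ∉ V) ∪
        C.filter (fun z => l * (z - y') ∉ V) := by
      refine exists_mem_notMem_of_card_lt_card (lt_of_le_of_lt (card_union_le _ _) ?_)
      have := k1 y hy
      have := k1 y' hy'
      omega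
    simp only [mem_union, mem_filter, hz, true_and, not_or, not_not] at hn
    have := V.sub_mem hn.2 hn.1
    rwa [show l * (z - y') - l * (z - y) = l * (y - y') by ring] at this
  obtain ⟨y0, hy0⟩ : B.Nonempty := card_pos.1 (by omega)
  obtain ⟨z0, hz0⟩ : C.Nonempty := card_pos.1 (by omega)
  have k4 : ∀ a ∈ B ∪ C, l * (a - y0) ∈ V := by
    intro a ha
    rcases mem_union.1 ha with ha | ha
    · exact k3 a ha y0 hy0
    · obtain ⟨y, hy, hn⟩ : ∃ y ∈ B, y ∉ B.filter (fun y => l * (a - y) ∉ V) :=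
        exists_mem_notMem_of_card_lt_card (lt_of_le_of_lt (k2 a ha) hub)
      simp only [mem_filter, hy, true_and, not_not] at hn
      have := V.add_mem hn (k3 y hy y0 hy0)
      rwa [show l * (a - y) + l * (y - y0) = l * (a - y0) by ring] at this
  have k5 : V ≤ V.comap (AddMonoidHom.mulLeft l) := by
    refine (AddSubgroup.closure_le _).2 fun v hv => ?_
    obtain ⟨a, ha, a', ha', rfl⟩ := mem_sub.1 (mem_coe.1 hv)
    have := V.sub_mem (k4 a ha) (k4 a' ha')
    rwa [show l * (a - y0) - l * (a' - y0) = l * (a - a') by ring] at this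
  refine (hI V l h.l0 h.l1 fun v hv => k5 hv).resolve_left fun hb => ?_
  have := hgen y0 (mem_union_left _ hy0) z0 (mem_union_right _ hz0)
  rw [hb, AddSubgroup.mem_bot, sub_eq_zero] at this
  exact disjoint_left.1 h.dBC hy0 (this ▸ hz0)

theorem sparse2_ext [Fintype F] (h2 : (2 : F) = 0) (W : AddSubgroup F) (U : Finset F) :
    ∃ H : AddSubgroup F, W ≤ H ∧ (∀ a ∈ U, a ∈ H) ∧ Nat.card H ≤ 2 ^ U.card * Nat.card W := by
  have hh : ∀ x : F, x + x = 0 := fun x => by rw [← two_mul, h2, zero_mul]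
  induction U using Finset.induction_on with
  | empty => exact ⟨W, le_rfl, by simp, by simp⟩
  | insert a U ha ih =>
    obtain ⟨H, h1, h3, h4⟩ := ih
    let H' : AddSubgroup F :=
      { carrier := {x | x ∈ H ∨ x + a ∈ H}
        zero_mem' := Or.inl H.zero_mem
        add_mem' := by
          rintro x y (hx | hx) (hy | hy)
          · exact Or.inl (H.add_mem hx hy)
          · exact Or.inr (by rw [add_assoc]; exact H.add_mem hx hy)
          · exact Or.inr (by rw [add_right_comm]; exact H.add_mem hx hy)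
          · refine Or.inl ?_
            have := H.add_mem hx hy
            rwa [show x + a + (y + a) = x + y by linear_combination hh a] at this
        neg_mem' := by
          intro x hx
          rwa [show -x = x by linear_combination -hh x] }
    refine ⟨H', fun x hx => Or.inl (h1 hx), fun b hb => ?_, ?_⟩
    · rcases mem_insert.1 hb with rfl | hb
      · exact Or.inr (by rw [hh]; exact H.zero_mem)
      · exact Or.inl (h3 b hb)
    · have e1 : (H' : Set F) ⊆ (H : Set F) ∪ (fun x => x + a) '' (H : Set F) := by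
        rintro x (hx | hx)
        · exact Or.inl hx
        · exact Or.inr ⟨x + a, hx, by simp only [add_assoc, hh, add_zero]⟩
      have e2 := (Set.ncard_le_ncard e1).trans (Set.ncard_union_le _ _)
      have e3 : ((fun x => x + a) '' (H : Set F)).ncard ≤ (H : Set F).ncard :=
        Set.ncard_image_le
      have e4 : Nat.card H' = (H' : Set F).ncard := Nat.card_coe_set_eq _
      have e5 : Nat.card H = (H : Set F).ncard := Nat.card_coe_set_eq _
      rw [card_insert_of_notMem ha, pow_succ, mul_right_comm]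
      omega

theorem sparse2_pr {C : Finset F} (hC : C.Nonempty) {K : ℕ} (h : (C - C).card ≤ K * C.card)
    (n : ℕ) : (n • C).card ≤ K ^ n * C.card := by
  have h5 := pluennecke_ruzsa_inequality_nsmul_sub hC C n
  have hc : (0 : ℚ≥0) < C.card := by exact_mod_cast hC.card_pos
  have h6 : ((C - C).card / C.card : ℚ≥0) ≤ K := by
    rw [div_le_iff₀ hc]
    exact_mod_cast h
  have h7 : ((n • C).card : ℚ≥0) ≤ K ^ n * C.card :=
    h5.trans (mul_le_mul_left (pow_le_pow_left₀ zero_le h6 _) _)
  exact_mod_cast h7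

theorem sparse2 (L : ℕ) : ∃ N : ℕ, ∀ (F : Type) [Field F] [Fintype F] [DecidableEq F],
    (2 : F) = 0 → Irr F → ∀ (l : F) (B C D : Finset F) (u : ℕ), Trio l B C D →
      Fintype.card F = B.card + C.card + D.card + u → B.card ≤ C.card → C.card ≤ L * B.card →
      u < B.card → 2 * u < C.card → Fintype.card F ≤ N * B.card := by
  refine ⟨2 ^ 10 * (2 ^ (9 * L) ^ 8 * ((9 * L) ^ 4 * L)),
    fun F _ _ _ h2 hI l B C D u h hu hbc hL hub huc => ?_⟩
  have hB : B.Nonempty := card_pos.1 (by omega)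
  have hC : C.Nonempty := card_pos.1 (by omega)
  have h3 : B.card + u ≤ 2 * C.card := by omega
  have hsub := trio_sub h hu hB h3 hL
  obtain ⟨T, hT, hcov⟩ := trio_cover h hu hC h3
  obtain ⟨γ, hγ⟩ := id hC
  have hγ0 : γ + γ = 0 := by rw [← two_mul, h2, zero_mul]
  have h8 : (C + C + (C + C) + (C + C) + (C + C)).card ≤ (9 * L) ^ 8 * (C + C).card := by
    rw [show C + C + (C + C) + (C + C) + (C + C) = 8 • C by abel]
    exact (sparse2_pr hC hsub 8).trans (Nat.mul_le_mul_left _ (card_le_card_add_right hC))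
  have h4 : (C + C + (C + C)).card ≤ (9 * L) ^ 4 * (L * B.card) := by
    rw [show C + C + (C + C) = 4 • C by abel]
    exact (sparse2_pr hC hsub 4).trans (Nat.mul_le_mul_left _ hL)
  have hW := card_span2 h2 (S := C + C) (hγ0 ▸ add_mem_add hγ hγ) h8
  obtain ⟨H, h5, h6, h7⟩ := sparse2_ext h2 (AddSubgroup.closure ((C + C : Finset F) : Set F))
    (insert γ T)
  have hS : ∀ x ∈ C + C, x ∈ H := fun x hx => h5 (AddSubgroup.subset_closure (mem_coe.2 hx))
  have hBC : ∀ a ∈ B ∪ C, a ∈ H := by
    intro a ha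
    rcases mem_union.1 ha with ha | ha
    · obtain ⟨t, ht, _, hx, rfl⟩ := mem_add.1 (hcov ha)
      obtain ⟨x, hx1, y, hy, rfl⟩ := mem_sub.1 hx
      exact H.add_mem (h6 t (mem_insert_of_mem ht)) (H.sub_mem (hS x hx1) (hS y hy))
    · have := H.sub_mem (hS _ (add_mem_add ha hγ)) (h6 γ (mem_insert_self _ _))
      rwa [add_sub_cancel_right] at this
  have htop : H = ⊤ := by
    rw [eq_top_iff, ← spanAll hI h hu hub huc]
    refine (AddSubgroup.closure_le _).2 fun v hv => ?_
    obtain ⟨a, ha, a', ha', rfl⟩ := mem_sub.1 (mem_coe.1 hv)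
    exact H.sub_mem (hBC a ha) (hBC a' ha')
  rw [htop, AddSubgroup.card_top, Nat.card_eq_fintype_card] at h7
  have h9 : 2 ^ (insert γ T).card ≤ 2 ^ 10 :=
    Nat.pow_le_pow_right (by norm_num) ((card_insert_le _ _).trans (by omega))
  calc _ ≤ 2 ^ 10 * (2 ^ (9 * L) ^ 8 * ((9 * L) ^ 4 * (L * B.card))) :=
        h7.trans (Nat.mul_le_mul h9 (hW.trans (Nat.mul_le_mul_left _ h4)))
    _ = _ := by simp only [mul_assoc]

end Pool.Agent.P.MP_862e21_al
end

-- part Pool.Agent.P.MP_862e21_al.Long2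
section

namespace Pool.Agent.P.MP_862e21_al

open Finset Pointwise

variable {F : Type*} [Field F] [DecidableEq F]

variable [Fintype F]

theorem long2_mono (ν : F → ℕ) {m m' : ℕ} (h : m ≤ m') : (lev ν m).card ≤ (lev ν m').card :=
  card_le_card fun _ hx => mem_lev.2 ((mem_lev.1 hx).trans h)

theorem filt2 (h2 : (2 : F) = 0) (hI : Irr F) {t : F} (ht0 : t ≠ 0) (ht1 : t ≠ 1)
    {ν : F → ℕ} (zero : ν 0 = 0) (add : ∀ h k, ν (h + k) ≤ ν h + ν k)
    (mul : ∀ h, ν (t * h) ≤ ν h + 1) {J z : ℕ} (hz : 2 ≤ z) (one : z ≤ (lev ν 1).card)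
    (hJ : 350 ^ 15 ≤ J) (hup : (lev ν J).card ≤ 44 * J * z)
    (hq : (lev ν J).card < Fintype.card F) : False := by
  have step : ∀ a m, 1 ≤ a → 1 ≤ m → a * (m * z) ≤ (lev ν m).card → 350 * m ≤ J →
      ∃ m', m < m' ∧ m' ≤ 350 * m ∧ 2 * a * (m' * z) ≤ (lev ν m').card := by
    intro a m ha hm h1 h3
    have h4 : 2 ≤ (lev ν m).card :=
      le_trans (hz.trans ((Nat.le_mul_of_pos_left _ hm).trans (Nat.le_mul_of_pos_left _ ha))) h1
    rcases grow2 h2 hI ht0 ht1 zero add mul hm h4 ((long2_mono ν h3).trans_lt hq) with h5 | h5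
    · refine ⟨4 * m, by omega, by omega, le_trans ?_ h5⟩
      calc 2 * a * (4 * m * z) = 8 * (a * (m * z)) := by ring
        _ ≤ _ := Nat.mul_le_mul_left _ h1
    · refine ⟨350 * m, by omega, le_rfl, le_trans ?_ h5⟩
      calc 2 * a * (350 * m * z) = 700 * (a * (m * z)) := by ring
        _ ≤ _ := Nat.mul_le_mul_left _ h1
  have ind : ∀ i ≤ 14, ∃ m, 1 ≤ m ∧ m ≤ 350 ^ i ∧ 2 ^ i * (m * z) ≤ (lev ν m).card := by
    intro i hi
    induction i with
    | zero => exact ⟨1, le_rfl, le_rfl, by simpa using one⟩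
    | succ i ih =>
      obtain ⟨m, a1, a2, a3⟩ := ih (by omega)
      have a4 : 350 * m ≤ 350 ^ (i + 1) := by rw [pow_succ]; omega
      obtain ⟨m', b1, b2, b3⟩ := step _ m Nat.one_le_two_pow a1 a3
        (a4.trans ((Nat.pow_le_pow_right (by norm_num) (by omega)).trans hJ))
      exact ⟨m', by omega, b2.trans a4, by rwa [pow_succ']⟩
  obtain ⟨m0, a1, a2, a3⟩ := ind 14 le_rfl
  have a4 : m0 ≤ J := a2.trans ((Nat.pow_le_pow_right (by norm_num) (by norm_num)).trans hJ)
  obtain ⟨m, hm, hmax⟩ := exists_max_image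
    ((range (J + 1)).filter fun m => 1 ≤ m ∧ 2 ^ 14 * (m * z) ≤ (lev ν m).card) id
    ⟨m0, mem_filter.2 ⟨mem_range.2 (by omega), a1, a3⟩⟩
  obtain ⟨b1, b2, b3⟩ := mem_filter.1 hm
  rw [mem_range] at b1
  by_cases hc : 350 * m ≤ J
  · obtain ⟨m', c1, c2, c3⟩ := step _ m Nat.one_le_two_pow b2 b3 hc
    have := hmax m' (mem_filter.2 ⟨mem_range.2 (by omega), by omega, by omega⟩)
    exact absurd c1 (not_lt.2 this)
  · have c1 := long2_mono ν (show m ≤ J by omega)
    have c2 : 44 * J * z ≤ 44 * (350 * m) * z :=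
      Nat.mul_le_mul_right _ (Nat.mul_le_mul_left _ (by omega))
    have c3 : 44 * (350 * m) * z = 15400 * (m * z) := by ring
    have c4 : 0 < m * z := Nat.mul_pos b2 (by omega)
    omega

theorem longC2 (h2 : (2 : F) = 0) (hI : Irr F) {l : F} {B C D : Finset F} {u : ℕ}
    (h : Trio l B C D) (hb : 2 ≤ B.card)
    (hu : Fintype.card F = B.card + C.card + D.card + u) (hcd : C.card ≤ D.card)
    (hub : u ≤ B.card) (hL : 16 * 350 ^ 15 * B.card ≤ C.card) : False := by
  obtain ⟨N, hN⟩ : ∃ N, N = 350 ^ 15 := ⟨_, rfl⟩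
  have hN1 : 1 ≤ N := hN ▸ Nat.one_le_pow _ _ (by norm_num)
  rw [← hN] at hL
  obtain ⟨r, hr⟩ : ∃ r, r = 4 * B.card := ⟨_, rfl⟩
  obtain ⟨ν, hν⟩ : ∃ ν : F → ℕ, ∀ x m, ν x ≤ m ↔ psi C x ≤ r * m := by
    refine ⟨fun x => (psi C x + (r - 1)) / r, fun x m => ?_⟩
    rw [Nat.div_le_iff_le_mul_add_pred (by omega)]
    omega
  have hν' : ∀ x, psi C x ≤ r * ν x := fun x => (hν x _).1 le_rfl
  obtain ⟨y, hy⟩ : B.Nonempty := card_pos.1 (by omega)
  have hE : ((C ∪ D)ᶜ).card ≤ 2 * B.card := by
    rw [card_compl, card_union_of_disjoint h.dCD]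
    omega
  have hmap : ∀ z ∈ C, l * z + (1 - l) * y ∈ C ∪ (C ∪ D)ᶜ := by
    intro z hz
    have h1 := h.sc l (self_mem_Lam l) y hy z hz
    rw [add_comm] at h1
    by_cases h3 : l * z + (1 - l) * y ∈ C
    · exact mem_union_left _ h3
    · exact mem_union_right _ (mem_compl.2 fun h4 => (mem_union.1 h4).elim h3 h1)
  obtain ⟨J, hJ⟩ : ∃ J, J = C.card / (16 * B.card) := ⟨_, rfl⟩
  have j1 : N ≤ J := by
    rw [hJ, Nat.le_div_iff_mul_le (by omega)]
    calc N * (16 * B.card) = 16 * N * B.card := by ring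
      _ ≤ _ := hL
  have j2 : 16 * (B.card * J) ≤ C.card := by
    rw [hJ, ← mul_assoc]
    exact Nat.mul_div_le _ _
  have j3 : C.card < 16 * (B.card * J) + 16 * B.card := by
    have := Nat.lt_mul_div_succ C.card (show 0 < 16 * B.card by omega)
    rwa [← hJ, mul_add, mul_one, mul_assoc] at this
  have j4 : B.card ≤ B.card * J := Nat.le_mul_of_pos_right _ (by omega)
  have hC : C.Nonempty := card_pos.1 (by omega)
  have j5 : 3 * (lev ν J).card ≤ 4 * C.card := by
    refine le_trans (Nat.mul_le_mul_left _ (card_le_card fun x hx => ?_)) (sym_card hC)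
    have h1 := (hν x J).1 (mem_lev.1 hx)
    rw [hr, mul_assoc] at h1
    exact mem_filter.2 ⟨mem_univ _, by omega⟩
  have hl : (1 - l) / l ≠ 0 := div_ne_zero (sub_ne_zero.2 h.l1.symm) h.l0
  refine filt2 h2 hI h.l0 h.l1 (ν := ν) (J := J) (z := B.card) ?_ ?_ ?_ hb ?_ (hN ▸ j1) ?_
    (by omega)
  · exact Nat.le_zero.1 ((hν 0 0).2 (by rw [psi_zero]; exact Nat.zero_le _))
  · intro a b
    rw [hν, mul_add]
    exact (psi_add C a b).trans (add_le_add (hν' a) (hν' b))
  · intro a
    have h1 := psi_affine h.l0 hmap a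
    have h3 := hν' a
    rw [hν, mul_add]
    omega
  · refine card_le_card_of_injOn (fun b => (1 - l) / l * b - (1 - l) / l * y)
      (fun b hb' => mem_coe.2 (mem_lev.2 ((hν _ 1).2 ?_))) fun a _ b _ e => ?_
    · have h1 := psi_sum (C := C) (smul_mem_smul_finset (a := (1 - l) / l) (mem_coe.1 hb'))
        (smul_mem_smul_finset (a := (1 - l) / l) hy)
      have h3 := h.comb_le hu (self_mem_Lam l)
      rw [card_comb h.l0] at h3
      simp only [smul_eq_mul] at h1
      show psi C ((1 - l) / l * b - (1 - l) / l * y) ≤ r * 1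
      omega
    · exact mul_left_cancel₀ hl (sub_left_inj.1 e)
  · rw [mul_assoc, mul_comm J]
    omega

theorem two_eq_zero {p : ℕ} (hq : Fintype.card F = 2 ^ p) : (2 : F) = 0 := by
  have h := FiniteField.cast_card_eq_zero F
  rw [hq] at h
  push_cast at h
  exact eq_zero_of_pow_eq_zero h

theorem irr2 {p : ℕ} (hp : p.Prime) (hq : Fintype.card F = 2 ^ p) : Irr F := by
  classical
  intro H t t0 t1 ht
  let S : Subring F :=
    { carrier := {r | ∀ h ∈ H, r * h ∈ H}
      mul_mem' := fun {a b} ha hb h hh => by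
        rw [mul_assoc]
        exact ha _ (hb h hh)
      one_mem' := fun h hh => by rwa [one_mul]
      add_mem' := fun {a b} ha hb h hh => by
        rw [add_mul]
        exact H.add_mem (ha h hh) (hb h hh)
      zero_mem' := fun h _ => by
        rw [zero_mul]
        exact H.zero_mem
      neg_mem' := fun {a} ha h hh => by
        rw [neg_mul]
        exact H.neg_mem (ha h hh) }
  let K : Subfield F :=
    { S with
      inv_mem' := fun x hx => by
        by_cases h0 : x = 0
        · rw [h0, inv_zero]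
          exact S.zero_mem
        · have h1 := FiniteField.pow_card_sub_one_eq_one x h0
          have h3 : 1 < Fintype.card F := Fintype.one_lt_card
          have h4 : x⁻¹ = x ^ (Fintype.card F - 2) := by
            refine (eq_inv_of_mul_eq_one_left ?_).symm
            rw [← pow_succ, ← h1]
            congr 1
            omega
          rw [h4]
          exact S.pow_mem hx _ }
  have hK : ∀ r, r ∈ K ↔ ∀ h ∈ H, r * h ∈ H := fun _ => Iff.rfl
  have h1 := Module.card_eq_pow_finrank (K := K) (V := F)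
  have h3 : 0 < Module.finrank K F := Module.finrank_pos
  have h4 : 2 < Fintype.card K := Fintype.two_lt_card_iff.2
    ⟨0, 1, ⟨t, (hK t).2 ht⟩, zero_ne_one, fun e => t0 (congrArg Subtype.val e).symm,
      fun e => t1 (congrArg Subtype.val e).symm⟩
  obtain ⟨j, -, hj⟩ := (Nat.dvd_prime_pow Nat.prime_two).1
    (show Fintype.card K ∣ 2 ^ p by rw [← hq, h1]; exact dvd_pow_self _ h3.ne')
  rw [hq, hj, ← pow_mul] at h1
  have h5 : p = j * Module.finrank K F := Nat.pow_right_injective le_rfl h1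
  have h6 : j = p := by
    refine (hp.eq_one_or_self_of_dvd j ⟨_, h5⟩).resolve_left fun e => ?_
    rw [hj, e] at h4
    omega
  have h7 : ∀ r, r ∈ K := by
    have h8 : Function.Bijective (Subtype.val : K → F) :=
      (Fintype.bijective_iff_injective_and_card _).2 ⟨Subtype.val_injective, by rw [hj, h6, hq]⟩
    intro r
    obtain ⟨x, rfl⟩ := h8.2 r
    exact x.2
  refine or_iff_not_imp_left.2 fun hb => ?_
  obtain ⟨⟨x, hx⟩, h0⟩ := (AddSubgroup.ne_bot_iff_exists_ne_zero).1 hb
  have h0' : x ≠ 0 := fun e => h0 (Subtype.ext e)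
  refine (AddSubgroup.eq_top_iff' H).2 fun y => ?_
  have := (hK _).1 (h7 (y / x)) x hx
  rwa [div_mul_cancel₀ y h0'] at this

theorem big2 (h2 : (2 : F) = 0) (hI : Irr F) {t : F} (ht0 : t ≠ 0) (ht1 : t ≠ 1) {m : ℕ}
    (hm : 1 ≤ m) (ht : t ^ m = 1) : Fintype.card F ≤ 2 ^ m := by
  have : CharP F 2 := CharTwo.of_one_ne_zero_of_two_eq_zero one_ne_zero h2
  let _ : Algebra (ZMod 2) F := ZMod.algebra F 2
  obtain ⟨V, hV⟩ : ∃ V, V = Submodule.span (ZMod 2) (Set.range fun i : Fin m => t ^ (i : ℕ)) :=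
    ⟨_, rfl⟩
  have h1 : (1 : F) ∈ V := hV ▸ Submodule.subset_span ⟨⟨0, hm⟩, pow_zero t⟩
  have h3 : ∀ x ∈ V, t * x ∈ V := by
    intro x hx
    rw [hV] at hx
    induction hx using Submodule.span_induction with
    | mem x hx =>
      obtain ⟨i, rfl⟩ := hx
      by_cases hi : (i : ℕ) + 1 < m
      · exact hV ▸ Submodule.subset_span ⟨⟨i + 1, hi⟩, pow_succ' t i⟩
      · have e : (i : ℕ) + 1 = m := by have := i.2; omega
        show t * t ^ (i : ℕ) ∈ V
        rwa [← pow_succ', e, ht]
    | zero => rw [mul_zero]; exact V.zero_mem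
    | add x y _ _ hx hy => rw [mul_add]; exact V.add_mem hx hy
    | smul a x _ hx => rw [mul_smul_comm]; exact V.smul_mem a hx
  rcases hI V.toAddSubgroup t ht0 ht1 h3 with e | e
  · exact absurd (AddSubgroup.mem_bot.1 (e ▸ (show (1 : F) ∈ V.toAddSubgroup from h1))) one_ne_zero
  · have h4 : V = ⊤ := Submodule.toAddSubgroup_eq_top.1 e
    have h5 := finrank_le_of_span_eq_top (hV ▸ h4)
    rw [Module.card_eq_pow_finrank (K := ZMod 2) (V := F), ZMod.card]
    exact Nat.pow_le_pow_right (by norm_num) (by simpa using h5)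

end Pool.Agent.P.MP_862e21_al
end

-- part Pool.Agent.P.MP_862e21_al.Invar2
section

namespace Pool.Agent.P.MP_862e21_al

open Finset Pointwise

variable {F : Type*} [Field F] [DecidableEq F]

theorem fh_near [Fintype F] (e : AddChar F ℂ) {B : Finset F} {t κ : F} (ht : t ≠ 0) (ξ : F) :
    ‖fh e B ξ‖ ≤ ‖fh e B (t * ξ)‖ + 2 * ((B.filter (fun y => t * y + κ ∉ B)).card : ℝ) := by
  have inj : Function.Injective (fun z : F => t * z + κ) := by
    intro a b h
    simpa [ht] using h
  set G := B.image (fun z : F => t * z + κ) with hG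
  have cG : G.card = B.card := card_image_of_injective _ inj
  have e1 : (G \ B).card ≤ (B.filter (fun y => t * y + κ ∉ B)).card := by
    refine le_trans (card_le_card ?_) (card_image_le (f := fun z : F => t * z + κ))
    intro w hw
    obtain ⟨hw1, hw2⟩ := mem_sdiff.mp hw
    obtain ⟨z, hz, rfl⟩ := mem_image.mp hw1
    exact mem_image.mpr ⟨z, mem_filter.mpr ⟨hz, hw2⟩, rfl⟩
  have e2 : (B \ G).card ≤ (B.filter (fun y => t * y + κ ∉ B)).card := by
    have a1 := card_sdiff_add_card_inter B G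
    have a2 := card_sdiff_add_card_inter G B
    rw [inter_comm] at a2
    omega
  have e3 : fh e G ξ = e (ξ * κ) * fh e B (t * ξ) := by
    unfold fh
    rw [hG, sum_image (fun a _ b _ h => inj h), mul_sum]
    refine sum_congr rfl fun y _ => ?_
    rw [← AddChar.map_add_eq_mul]
    congr 1
    ring
  have e4 : ‖fh e G ξ‖ = ‖fh e B (t * ξ)‖ := by
    rw [e3, norm_mul, norm_char, one_mul]
  have e5 : fh e B ξ = fh e G ξ - fh e (G \ B) ξ + fh e (B \ G) ξ := by
    unfold fh
    have a1 := sum_sdiff (f := fun y => e (ξ * y)) (inter_subset_left (s₁ := B) (s₂ := G))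
    have a2 := sum_sdiff (f := fun y => e (ξ * y)) (inter_subset_right (s₁ := B) (s₂ := G))
    rw [sdiff_inter_self_left] at a1
    rw [sdiff_inter_self_right] at a2
    rw [← a1, ← a2]
    ring
  have e6 := norm_fh_le e (G \ B) ξ
  have e7 := norm_fh_le e (B \ G) ξ
  have e8 := norm_add_le (fh e G ξ - fh e (G \ B) ξ) (fh e (B \ G) ξ)
  have e9 := norm_sub_le (fh e G ξ) (fh e (G \ B) ξ)
  have e1' : ((G \ B).card : ℝ) ≤ (B.filter (fun y => t * y + κ ∉ B)).card := by exact_mod_cast e1
  have e2' : ((B \ G).card : ℝ) ≤ (B.filter (fun y => t * y + κ ∉ B)).card := by exact_mod_cast e2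
  rw [← e5] at e8
  linarith

theorem invar_iter [Fintype F] (e : AddChar F ℂ) {B : Finset F} {t κ : F} (ht : t ≠ 0) (ξ : F)
    (k : ℕ) : ‖fh e B ξ‖ ≤ ‖fh e B (t ^ k * ξ)‖ +
      2 * k * ((B.filter (fun y => t * y + κ ∉ B)).card : ℝ) := by
  induction k with
  | zero => simp
  | succ k ih =>
    have h1 := fh_near e (B := B) (κ := κ) ht (t ^ k * ξ)
    have h2 : t * (t ^ k * ξ) = t ^ (k + 1) * ξ := by ring
    rw [h2] at h1
    push_cast
    linarith

theorem invar2 (N : ℕ) : ∃ n q0 : ℕ, 1 ≤ n ∧ ∀ (F : Type) [Field F] [Fintype F] [DecidableEq F],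
    (2 : F) = 0 → Irr F → q0 ≤ Fintype.card F → ∀ (l : F) (B C D : Finset F), Trio l B C D →
      Fintype.card F ≤ N * B.card → Fintype.card F ≤ N * C.card → Fintype.card F ≤ N * D.card →
      ∀ z : F, Fintype.card F ≤ n * (B.filter (fun y => (1 - l) * y + l * z ∉ B)).card := by
  refine ⟨4 * (4 * N ^ 4 + 1) * N ^ 2 + 1, 2 ^ (4 * N ^ 4 + 1) + 1, by omega, ?_⟩
  intro F _ _ _ h2 hI hq l B C D h hB hC hD z
  by_contra hcon
  rw [not_le] at hcon
  set n1 := 4 * N ^ 4 + 1 with hn1
  set cnt := (B.filter (fun y => (1 - l) * y + l * z ∉ B)).card with hcnt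
  have qpos : 0 < Fintype.card F := Fintype.card_pos
  have nC : C.Nonempty := by
    rw [← card_pos]
    rcases Nat.eq_zero_or_pos C.card with h0 | h0
    · rw [h0] at hC; omega
    · exact h0
  have nD : D.Nonempty := by
    rw [← card_pos]
    rcases Nat.eq_zero_or_pos D.card with h0 | h0
    · rw [h0] at hD; omega
    · exact h0
  obtain ⟨e, he⟩ := exists_char (F := F)
  obtain ⟨ξ, hξ, hbig⟩ := bigCoeff he h nC nD
  have ht0 : (1 - l) ≠ 0 := sub_ne_zero.mpr h.l1.symm
  have ht1 : (1 - l) ≠ 1 := fun e0 => h.l0 (by linear_combination -e0)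
  set q : ℝ := (Fintype.card F : ℝ) with hqdef
  have qp : 0 < q := by rw [hqdef]; exact_mod_cast qpos
  have rB : q ≤ (N : ℝ) * B.card := by rw [hqdef]; exact_mod_cast hB
  have rC : q ≤ (N : ℝ) * C.card := by rw [hqdef]; exact_mod_cast hC
  have rD : q ≤ (N : ℝ) * D.card := by rw [hqdef]; exact_mod_cast hD
  have rb : (B.card : ℝ) ≤ q := by rw [hqdef]; exact_mod_cast card_le_univ B
  have rcnt : 4 * (n1 : ℝ) * (N : ℝ) ^ 2 * cnt ≤ q := by
    have : 4 * n1 * N ^ 2 * cnt ≤ Fintype.card F := by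
      have : 4 * n1 * N ^ 2 * cnt ≤ (4 * n1 * N ^ 2 + 1) * cnt :=
        Nat.mul_le_mul_right _ (Nat.le_succ _)
      omega
    rw [hqdef]; exact_mod_cast this
  have hN0 : (0 : ℝ) ≤ (N : ℝ) ^ 2 := by positivity
  have a1 : q ≤ (N : ℝ) ^ 2 * ‖fh e B ξ‖ := by
    have b1 : q * q ≤ ((N : ℝ) * B.card) * ((N : ℝ) * B.card) :=
      mul_le_mul rB rB qp.le (le_trans qp.le rB)
    have b2 : q * q ≤ ((N : ℝ) * C.card) * ((N : ℝ) * D.card) :=
      mul_le_mul rC rD qp.le (le_trans qp.le rC)
    have b3 : (q * q) * (q * q) ≤ (((N : ℝ) * B.card) * ((N : ℝ) * B.card)) *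
        (((N : ℝ) * C.card) * ((N : ℝ) * D.card)) :=
      mul_le_mul b1 b2 (by positivity) (by positivity)
    have b4 : (N : ℝ) ^ 4 * ((B.card : ℝ) ^ 2 * C.card * D.card) ≤
        (N : ℝ) ^ 4 * (q ^ 2 * ‖fh e B ξ‖ ^ 2) :=
      mul_le_mul_of_nonneg_left hbig (by positivity)
    have b5 : q ^ 2 * q ^ 2 ≤ q ^ 2 * ((N : ℝ) ^ 2 * ‖fh e B ξ‖) ^ 2 := by
      calc q ^ 2 * q ^ 2 = (q * q) * (q * q) := by ring
        _ ≤ _ := b3
        _ = (N : ℝ) ^ 4 * ((B.card : ℝ) ^ 2 * C.card * D.card) := by ring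
        _ ≤ _ := b4
        _ = _ := by ring
    have b6 : q ^ 2 ≤ ((N : ℝ) ^ 2 * ‖fh e B ξ‖) ^ 2 :=
      le_of_mul_le_mul_left b5 (by positivity)
    exact le_of_sq_le_sq b6 (by positivity)
  have a2 : ∀ k ∈ range n1, q ^ 2 ≤ 4 * (N : ℝ) ^ 4 * ‖fh e B ((1 - l) ^ k * ξ)‖ ^ 2 := by
    intro k hk
    have b1 := invar_iter e (B := B) (κ := l * z) ht0 ξ k
    rw [← hcnt] at b1
    have b2 : (k : ℝ) ≤ n1 := by exact_mod_cast (mem_range.mp hk).le
    have b3 : (N : ℝ) ^ 2 * ‖fh e B ξ‖ ≤
        (N : ℝ) ^ 2 * (‖fh e B ((1 - l) ^ k * ξ)‖ + 2 * k * cnt) :=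
      mul_le_mul_of_nonneg_left b1 hN0
    have b4 : (k : ℝ) * ((N : ℝ) ^ 2 * cnt) ≤ n1 * ((N : ℝ) ^ 2 * cnt) :=
      mul_le_mul_of_nonneg_right b2 (by positivity)
    have b5 : q ≤ 2 * ((N : ℝ) ^ 2 * ‖fh e B ((1 - l) ^ k * ξ)‖) := by nlinarith
    calc q ^ 2 ≤ (2 * ((N : ℝ) ^ 2 * ‖fh e B ((1 - l) ^ k * ξ)‖)) ^ 2 :=
          pow_le_pow_left₀ qp.le b5 2
      _ = _ := by ring
  have key : ∀ i j : ℕ, i < j → j < n1 → (1 - l) ^ i * ξ ≠ (1 - l) ^ j * ξ := by
    intro i j hij hj e0
    have b1 : (1 - l) ^ i = (1 - l) ^ j := mul_right_cancel₀ hξ e0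
    have b2 : (1 - l) ^ (j - i) = 1 := by
      have b3 : (1 - l) ^ i * (1 - l) ^ (j - i) = (1 - l) ^ i * 1 := by
        rw [← pow_add, mul_one, b1]
        congr 1
        omega
      exact mul_left_cancel₀ (pow_ne_zero _ ht0) b3
    have b4 := big2 h2 hI ht0 ht1 (m := j - i) (by omega) b2
    have b5 : 2 ^ (j - i) ≤ 2 ^ n1 := Nat.pow_le_pow_right (by norm_num) (by omega)
    omega
  have a3 : Set.InjOn (fun k : ℕ => (1 - l) ^ k * ξ) (range n1 : Finset ℕ) := by
    intro i hi j hj e0
    have hi' : i < n1 := mem_range.mp (mem_coe.mp hi)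
    have hj' : j < n1 := mem_range.mp (mem_coe.mp hj)
    rcases lt_trichotomy i j with h0 | h0 | h0
    · exact absurd e0 (key i j h0 hj')
    · exact h0
    · exact absurd e0.symm (key j i h0 hi')
  have a4 : ∑ k ∈ range n1, ‖fh e B ((1 - l) ^ k * ξ)‖ ^ 2 ≤ q * B.card := by
    rw [← parseval he B]
    rw [← sum_image (f := fun η => ‖fh e B η‖ ^ 2) a3]
    exact sum_le_sum_of_subset_of_nonneg (subset_univ _) fun _ _ _ => by positivity
  have a5 : (n1 : ℝ) * q ^ 2 ≤ 4 * (N : ℝ) ^ 4 * (q * B.card) := by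
    have b1 := sum_le_sum a2
    rw [sum_const, card_range, nsmul_eq_mul, ← mul_sum] at b1
    exact le_trans b1 (mul_le_mul_of_nonneg_left a4 (by positivity))
  have a6 : (n1 : ℝ) = 4 * (N : ℝ) ^ 4 + 1 := by rw [hn1]; push_cast; ring
  have a7 : 4 * (N : ℝ) ^ 4 * (q * B.card) ≤ 4 * (N : ℝ) ^ 4 * (q * q) :=
    mul_le_mul_of_nonneg_left (mul_le_mul_of_nonneg_left rb qp.le) (by positivity)
  rw [a6] at a5
  nlinarith [pow_pos qp 2]

omit [DecidableEq F] in
theorem cut_one [Fintype F] (h2 : (2 : F) = 0) (e : AddChar F ℂ) (K : AddSubgroup F) (ξ : F) :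
    ∃ K' : AddSubgroup F, K' ≤ K ∧ Nat.card K ≤ 2 * Nat.card K' ∧
      ∀ h ∈ K', e (ξ * h) = 1 := by
  classical
  let K' : AddSubgroup F :=
    { carrier := {h | h ∈ K ∧ e (ξ * h) = 1}
      zero_mem' := ⟨K.zero_mem, by simp⟩
      add_mem' := fun {a b} ha hb =>
        ⟨K.add_mem ha.1 hb.1, by rw [mul_add, AddChar.map_add_eq_mul, ha.2, hb.2, mul_one]⟩
      neg_mem' := fun {a} ha =>
        ⟨K.neg_mem ha.1, by rw [mul_neg, AddChar.map_neg_eq_inv, ha.2, inv_one]⟩ }
  have mem : ∀ h, h ∈ K' ↔ h ∈ K ∧ e (ξ * h) = 1 := fun h => Iff.rfl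
  refine ⟨K', fun h hh => ((mem h).1 hh).1, ?_, fun h hh => ((mem h).1 hh).2⟩
  have c1 : ∀ H : AddSubgroup F, Nat.card H = (univ.filter (fun h => h ∈ H)).card := by
    intro H
    rw [Nat.card_eq_fintype_card, Fintype.card_subtype]
  have sq : ∀ v : F, e v ≠ 1 → e v = -1 := by
    intro v hv
    have b1 : e v * e v = 1 := by
      rw [← AddChar.map_add_eq_mul, ← two_mul, h2, zero_mul, AddChar.map_zero_eq_one]
    exact (mul_self_eq_one_iff.mp b1).resolve_left hv
  rw [c1, c1]
  set A := univ.filter (fun h => h ∈ K) with hA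
  set A' := univ.filter (fun h => h ∈ K') with hA'
  have sub : A' ⊆ A := by
    intro h hh
    exact mem_filter.mpr ⟨mem_univ _, ((mem h).1 (mem_filter.mp hh).2).1⟩
  have c2 : (A \ A').card ≤ A'.card := by
    rcases (A \ A').eq_empty_or_nonempty with h0 | ⟨h0, hh0⟩
    · rw [h0]; simp
    · have ne : ∀ h ∈ A \ A', h ∈ K ∧ e (ξ * h) = -1 := by
        intro h hh
        obtain ⟨b1, b2⟩ := mem_sdiff.mp hh
        have b3 := (mem_filter.mp b1).2
        exact ⟨b3, sq _ fun b4 => b2 (mem_filter.mpr ⟨mem_univ _, (mem h).2 ⟨b3, b4⟩⟩)⟩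
      refine card_le_card_of_injOn (fun h => h + h0) ?_ ?_
      · intro h hh
        have b1 := ne h (mem_coe.mp hh)
        have b2 := ne h0 hh0
        refine mem_coe.mpr (mem_filter.mpr ⟨mem_univ _, (mem _).2 ⟨K.add_mem b1.1 b2.1, ?_⟩⟩)
        rw [mul_add, AddChar.map_add_eq_mul, b1.2, b2.2]
        norm_num
      · intro a _ b _ hab
        exact add_right_cancel hab
  have c3 := card_sdiff_add_card_eq_card sub
  omega

omit [DecidableEq F] in
theorem invar_mem_perp [Fintype F] {e : AddChar F ℂ} {K : AddSubgroup F} {ξ : F} :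
    ξ ∈ perp e K ↔ ∀ h ∈ K, e (ξ * h) = 1 := by
  simp [perp]

theorem cut2 [Fintype F] (h2 : (2 : F) = 0) (e : AddChar F ℂ) (K : AddSubgroup F)
    (S : Finset F) : ∃ K' : AddSubgroup F, K' ≤ K ∧ Nat.card K ≤ 2 ^ S.card * Nat.card K' ∧
      S ⊆ perp e K' := by
  induction S using Finset.induction_on with
  | empty => exact ⟨K, le_rfl, by simp, empty_subset _⟩
  | insert ξ S hξ ih =>
    obtain ⟨K1, a1, a2, a3⟩ := ih
    obtain ⟨K2, b1, b2, b3⟩ := cut_one h2 e K1 ξ
    refine ⟨K2, le_trans b1 a1, ?_, ?_⟩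
    · rw [card_insert_of_notMem hξ, pow_succ, mul_assoc]
      exact le_trans a2 (Nat.mul_le_mul_left _ b2)
    · intro η hη
      refine invar_mem_perp.mpr fun h hh => ?_
      rcases mem_insert.mp hη with h0 | h0
      · rw [h0]; exact b3 h hh
      · exact invar_mem_perp.mp (a3 h0) h (b1 hh)

end Pool.Agent.P.MP_862e21_al
end

-- part Pool.Agent.P.MP_862e21_al.Incr2
section

namespace Pool.Agent.P.MP_862e21_al

open Finset Pointwise

variable {F : Type*} [Field F] [DecidableEq F]

omit [DecidableEq F] in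
theorem incr_mem_perp [Fintype F] {e : AddChar F ℂ} {K : AddSubgroup F} {ξ : F} :
    ξ ∈ perp e K ↔ ∀ h ∈ K, e (ξ * h) = 1 := by
  simp [perp]

omit [DecidableEq F] in
theorem incr_gam [Fintype F] {e : AddChar F ℂ} {l x ξ : F} (hl : 1 - l ≠ 0) {K : AddSubgroup F}
    {Z : Finset F} (hZ : Z.Nonempty) (k : ∀ z ∈ Z, l * (z - x) / (1 - l) ∈ K)
    (hξ : (1 - l) * ξ ∈ perp e K) : fh e Z (l * ξ) / Z.card = e (l * ξ * x) := by
  have hc : (Z.card : ℂ) ≠ 0 := by exact_mod_cast hZ.card_pos.ne'
  have h1 : ∀ z ∈ Z, e (l * ξ * z) = e (l * ξ * x) := by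
    intro z hz
    have h2 := incr_mem_perp.1 hξ _ (k z hz)
    have h3 : l * ξ * z = (1 - l) * ξ * (l * (z - x) / (1 - l)) + l * ξ * x := by
      field_simp
      ring
    rw [h3, AddChar.map_add_eq_mul, h2, one_mul]
  rw [fh, sum_congr rfl h1, sum_const, nsmul_eq_mul, mul_div_cancel_left₀ _ hc]

theorem incr_norm [Fintype F] (e : AddChar F ℂ) {Z : Finset F} (hZ : Z.Nonempty) (ξ : F) :
    ‖fh e Z ξ / Z.card‖ ≤ 1 := by
  have hc : (0 : ℝ) < Z.card := by exact_mod_cast hZ.card_pos
  rw [norm_div, Complex.norm_natCast, div_le_one hc]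
  exact norm_fh_le e Z ξ

theorem incr_big [Fintype F] {e : AddChar F ℂ} (he : e.IsPrimitive) {l : F} (hl : l ≠ 0)
    {Z S : Finset F} (hZ : Z.Nonempty) {n M : ℕ} (hn : 1 ≤ n) (m : Fintype.card F ≤ M * Z.card)
    (hS : ∀ ξ ∈ S, 1 / (8 * (n : ℝ)) ≤ ‖fh e Z (l * ξ) / Z.card‖) : S.card ≤ 64 * n ^ 2 * M := by
  have hc : (0 : ℝ) < Z.card := by exact_mod_cast hZ.card_pos
  have hn' : (0 : ℝ) < n := by exact_mod_cast hn
  have m' : (Fintype.card F : ℝ) ≤ M * Z.card := by exact_mod_cast m
  have h1 : ∀ ξ ∈ S, (Z.card : ℝ) ^ 2 ≤ 64 * n ^ 2 * ‖fh e Z (l * ξ)‖ ^ 2 := by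
    intro ξ hξ
    have h2 := hS ξ hξ
    rw [norm_div, Complex.norm_natCast, div_le_div_iff₀ (by positivity) hc, one_mul] at h2
    calc (Z.card : ℝ) ^ 2 ≤ (‖fh e Z (l * ξ)‖ * (8 * n)) ^ 2 := by gcongr
      _ = _ := by ring
  have h3 := sum_le_sum h1
  rw [sum_const, nsmul_eq_mul, ← mul_sum] at h3
  have h4 : ∑ ξ ∈ S, ‖fh e Z (l * ξ)‖ ^ 2 ≤ ∑ ξ : F, ‖fh e Z (l * ξ)‖ ^ 2 :=
    sum_le_sum_of_subset_of_nonneg (subset_univ _) fun _ _ _ => by positivity
  rw [parseval_mul he Z hl] at h4
  have h5 : (S.card : ℝ) * Z.card ^ 2 ≤ 64 * n ^ 2 * M * Z.card ^ 2 :=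
    calc (S.card : ℝ) * Z.card ^ 2 ≤ 64 * n ^ 2 * (M * Z.card * Z.card) :=
          h3.trans (by gcongr; exact h4.trans (by gcongr))
      _ = _ := by ring
  exact_mod_cast le_of_mul_le_mul_right h5 (by positivity)

theorem incr_one [Fintype F] {l : F} {B C D : Finset F} {u n : ℕ} (h : Trio l B C D)
    (hu : Fintype.card F = B.card + C.card + D.card + u) {z : F} (hz : z ∈ C)
    (hinv : Fintype.card F ≤ n * (B.filter (fun y => (1 - l) * y + l * z ∉ B)).card)
    (hun : 2 * n * u ≤ Fintype.card F) :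
    Fintype.card F ≤ 2 * n * (B.filter (fun y => (1 - l) * y + l * z ∈ C)).card := by
  have hl : 1 - l ≠ 0 := sub_ne_zero.2 h.l1.symm
  have hE : (B ∪ C ∪ D)ᶜ.card = u := by
    have e := card_le_univ (B ∪ C ∪ D)
    rw [card_compl]
    rw [card_union_of_disjoint (disjoint_union_left.2 ⟨h.dBD, h.dCD⟩),
      card_union_of_disjoint h.dBC] at e ⊢
    omega
  have h1 : (B.filter (fun y => (1 - l) * y + l * z ∈ (B ∪ C ∪ D)ᶜ)).card ≤ u := by
    rw [← hE]
    refine card_le_card_of_injOn (fun y => (1 - l) * y + l * z) (fun y hy => ?_)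
      fun a _ b _ hab => mul_left_cancel₀ hl (add_right_cancel hab)
    exact (mem_filter.1 (mem_coe.1 hy)).2
  have h2 : B.filter (fun y => (1 - l) * y + l * z ∉ B) ⊆
      B.filter (fun y => (1 - l) * y + l * z ∈ C) ∪
        B.filter (fun y => (1 - l) * y + l * z ∈ (B ∪ C ∪ D)ᶜ) := by
    intro y hy
    obtain ⟨hy1, hy2⟩ := mem_filter.1 hy
    have hD := h.sc l (self_mem_Lam l) y hy1 z hz
    by_cases hC : (1 - l) * y + l * z ∈ C
    · exact mem_union_left _ (mem_filter.2 ⟨hy1, hC⟩)
    · exact mem_union_right _ (mem_filter.2 ⟨hy1, by simp [hy2, hC, hD]⟩)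
  have h3 := (card_le_card h2).trans (card_union_le _ _)
  have h4 := hinv.trans (Nat.mul_le_mul_left n (h3.trans (Nat.add_le_add_left h1 _)))
  nlinarith

theorem incr_cnt {l : F} (B C Z : Finset F) :
    ((B ×ˢ Z).filter (fun p => (1 - l) * p.1 + l * p.2 ∈ C)).card =
      ∑ z ∈ Z, (B.filter (fun y => (1 - l) * y + l * z ∈ C)).card := by
  simp only [card_filter]
  rw [sum_product_right]

theorem incr_low [Fintype F] {e : AddChar F ℂ} (he : e.IsPrimitive) {l : F}
    {B C D : Finset F} {u n : ℕ} (h : Trio l B C D)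
    (hu : Fintype.card F = B.card + C.card + D.card + u) (hn : 1 ≤ n)
    (hinv : ∀ z : F, Fintype.card F ≤ n * (B.filter (fun y => (1 - l) * y + l * z ∉ B)).card)
    (hun : 2 * n * u ≤ Fintype.card F) {C1 D1 : Finset F}
    (hC1 : C1 ⊆ C) (hD1 : D1 ⊆ D) (nC : C1.Nonempty) :
    (Fintype.card F : ℝ) ^ 2 / (4 * (n : ℝ) ^ 2) ≤ ∑ ξ : F, (‖fh e B ((1 - l) * ξ)‖ *
      ‖fh e C1 (l * ξ) / C1.card - fh e D1 (l * ξ) / D1.card‖) ^ 2 := by
  have hc : (0 : ℝ) < C1.card := by exact_mod_cast nC.card_pos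
  have hn' : (0 : ℝ) < n := by exact_mod_cast hn
  have hq : (0 : ℝ) < Fintype.card F := by exact_mod_cast Fintype.card_pos
  obtain ⟨T, hT⟩ : ∃ T, T = ((B ×ˢ C1).filter (fun p => (1 - l) * p.1 + l * p.2 ∈ C)).card :=
    ⟨_, rfl⟩
  have hT1 : C1.card * Fintype.card F ≤ 2 * n * T := by
    rw [hT, incr_cnt, mul_sum, ← smul_eq_mul, ← sum_const]
    exact sum_le_sum fun z hz => incr_one h hu (hC1 hz) (hinv z) hun
  have hT2 : (C1.card : ℝ) * Fintype.card F ≤ 2 * n * T := by exact_mod_cast hT1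
  have e1 := count_fh he (1 - l) l B C1 C
  have e2 := count_fh he (1 - l) l B D1 C
  have hz : (B ×ˢ D1).filter (fun p => (1 - l) * p.1 + l * p.2 ∈ C) = ∅ :=
    filter_eq_empty_iff.2 fun p hp =>
      h.swap23.sc l (self_mem_Lam l) _ (mem_product.1 hp).1 _ (hD1 (mem_product.1 hp).2)
  rw [hz, card_empty, Nat.cast_zero, mul_zero] at e2
  rw [← hT] at e1
  have e3 : ∑ ξ : F, fh e B ((1 - l) * ξ) *
      (fh e C1 (l * ξ) / C1.card - fh e D1 (l * ξ) / D1.card) * fh e C (-ξ) =
        (Fintype.card F : ℂ) * T / C1.card := by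
    rw [← e1, ← sub_zero (_ / (C1.card : ℂ)), ← zero_div (D1.card : ℂ), ← e2, sum_div, sum_div,
      ← sum_sub_distrib]
    exact sum_congr rfl fun ξ _ => by ring
  have e4 : (Fintype.card F : ℝ) * T / C1.card ≤ ∑ ξ : F, (‖fh e B ((1 - l) * ξ)‖ *
      ‖fh e C1 (l * ξ) / C1.card - fh e D1 (l * ξ) / D1.card‖) * ‖fh e C ξ‖ := by
    have e5 := congrArg norm e3
    rw [norm_div, norm_mul, Complex.norm_natCast, Complex.norm_natCast,
      Complex.norm_natCast] at e5
    rw [← e5]
    refine (norm_sum_le _ _).trans (le_of_eq (sum_congr rfl fun ξ _ => ?_))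
    rw [norm_mul, norm_mul, norm_fh_neg]
  have e6 := sum_mul_sq_le_sq_mul_sq univ (fun ξ : F => ‖fh e B ((1 - l) * ξ)‖ *
      ‖fh e C1 (l * ξ) / C1.card - fh e D1 (l * ξ) / D1.card‖) fun ξ => ‖fh e C ξ‖
  rw [parseval he] at e6
  have hCq : (C.card : ℝ) ≤ Fintype.card F := by exact_mod_cast card_le_univ C
  have hA : 0 ≤ ∑ ξ : F, (‖fh e B ((1 - l) * ξ)‖ *
      ‖fh e C1 (l * ξ) / C1.card - fh e D1 (l * ξ) / D1.card‖) ^ 2 :=
    sum_nonneg fun _ _ => by positivity
  generalize ∑ ξ : F, (‖fh e B ((1 - l) * ξ)‖ *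
      ‖fh e C1 (l * ξ) / C1.card - fh e D1 (l * ξ) / D1.card‖) ^ 2 = A at *
  generalize ∑ ξ : F, (‖fh e B ((1 - l) * ξ)‖ *
      ‖fh e C1 (l * ξ) / C1.card - fh e D1 (l * ξ) / D1.card‖) * ‖fh e C ξ‖ = X at *
  generalize (Fintype.card F : ℝ) = q at *
  have e7 : q ^ 2 / (2 * n) ≤ X := by
    refine le_trans ?_ e4
    rw [div_le_div_iff₀ (by positivity) hc]
    nlinarith
  have e8 : (q ^ 2 / (2 * n)) ^ 2 ≤ A * (q * q) :=
    (pow_le_pow_left₀ (by positivity) e7 2).trans (e6.trans (by gcongr))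
  have e9 : (q ^ 2 / (2 * n)) ^ 2 = q ^ 2 / (4 * (n : ℝ) ^ 2) * (q * q) := by
    field_simp
    ring
  rw [e9] at e8
  exact le_of_mul_le_mul_right e8 (by positivity)

theorem incr2 [Fintype F] (h2 : (2 : F) = 0) {e : AddChar F ℂ} (he : e.IsPrimitive) {l : F}
    {B C D : Finset F} {u n M : ℕ} (h : Trio l B C D)
    (hu : Fintype.card F = B.card + C.card + D.card + u) (hn : 1 ≤ n)
    (hinv : ∀ z : F, Fintype.card F ≤ n * (B.filter (fun y => (1 - l) * y + l * z ∉ B)).card)
    (hun : 2 * n * u ≤ Fintype.card F) (K : AddSubgroup F) {x : F} {C1 D1 : Finset F}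
    (hC1 : C1 ⊆ C) (hD1 : D1 ⊆ D) (kC : ∀ z ∈ C1, l * (z - x) / (1 - l) ∈ K)
    (kD : ∀ z ∈ D1, l * (z - x) / (1 - l) ∈ K) (mC : Fintype.card F ≤ M * C1.card)
    (mD : Fintype.card F ≤ M * D1.card) :
    ∃ K' : AddSubgroup F, K' ≤ K ∧ Nat.card K ≤ 2 ^ (128 * n ^ 2 * M) * Nat.card K' ∧
      en e K B + (Fintype.card F : ℝ) ^ 2 / (32 * (n : ℝ) ^ 2) ≤ en e K' B := by
  have hl : 1 - l ≠ 0 := sub_ne_zero.2 h.l1.symm
  have hq0 : 0 < Fintype.card F := Fintype.card_pos
  have nC : C1.Nonempty := card_pos.1 (Nat.pos_of_mul_pos_left (hq0.trans_le mC))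
  have nD : D1.Nonempty := card_pos.1 (Nat.pos_of_mul_pos_left (hq0.trans_le mD))
  have hn' : (0 : ℝ) < n := by exact_mod_cast hn
  obtain ⟨SC', hSC⟩ : ∃ S : Finset F, ∀ ξ, ξ ∈ S ↔
      1 / (8 * (n : ℝ)) ≤ ‖fh e C1 (l * ξ) / C1.card‖ :=
    ⟨univ.filter fun ξ => 1 / (8 * (n : ℝ)) ≤ ‖fh e C1 (l * ξ) / C1.card‖, fun ξ => by
      rw [mem_filter]; exact and_iff_right (mem_univ _)⟩
  obtain ⟨SD', hSD⟩ : ∃ S : Finset F, ∀ ξ, ξ ∈ S ↔
      1 / (8 * (n : ℝ)) ≤ ‖fh e D1 (l * ξ) / D1.card‖ :=
    ⟨univ.filter fun ξ => 1 / (8 * (n : ℝ)) ≤ ‖fh e D1 (l * ξ) / D1.card‖, fun ξ => by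
      rw [mem_filter]; exact and_iff_right (mem_univ _)⟩
  have cC := incr_big he h.l0 nC hn mC fun ξ hξ => (hSC ξ).1 hξ
  have cD := incr_big he h.l0 nD hn mD fun ξ hξ => (hSD ξ).1 hξ
  obtain ⟨K', hK, hcard, hS⟩ := cut2 h2 e K ((SC' ∪ SD').image fun ξ => (1 - l) * ξ)
  have cS : ((SC' ∪ SD').image fun ξ => (1 - l) * ξ).card ≤ 128 * n ^ 2 * M := by
    refine card_image_le.trans ((card_union_le SC' SD').trans ?_)
    nlinarith
  refine ⟨K', hK, hcard.trans (Nat.mul_le_mul_right _ (Nat.pow_le_pow_right two_pos cS)), ?_⟩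
  have hsub : perp e K ⊆ perp e K' := fun ξ hξ =>
    incr_mem_perp.2 fun a ha => incr_mem_perp.1 hξ a (hK ha)
  have low := incr_low he h hu hn hinv hun hC1 hD1 nC
  have pt : ∀ ξ : F, (‖fh e B ((1 - l) * ξ)‖ *
      ‖fh e C1 (l * ξ) / C1.card - fh e D1 (l * ξ) / D1.card‖) ^ 2 ≤
      1 / (16 * (n : ℝ) ^ 2) * ‖fh e B ((1 - l) * ξ)‖ ^ 2 +
        4 * (if (1 - l) * ξ ∈ perp e K' \ perp e K then ‖fh e B ((1 - l) * ξ)‖ ^ 2 else 0) := by
    intro ξ
    have tri := norm_sub_le (fh e C1 (l * ξ) / C1.card) (fh e D1 (l * ξ) / D1.card)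
    by_cases h1 : (1 - l) * ξ ∈ perp e K
    · rw [incr_gam hl nC kC h1, incr_gam hl nD kD h1, sub_self, norm_zero, mul_zero,
        zero_pow two_ne_zero]
      positivity
    by_cases h3 : ξ ∈ SC' ∪ SD'
    · rw [if_pos (mem_sdiff.2 ⟨hS (mem_image_of_mem _ h3), h1⟩)]
      have h4 : ‖fh e C1 (l * ξ) / C1.card - fh e D1 (l * ξ) / D1.card‖ ≤ 2 := by
        linarith [incr_norm e nC (l * ξ), incr_norm e nD (l * ξ)]
      calc _ ≤ (‖fh e B ((1 - l) * ξ)‖ * 2) ^ 2 := by gcongr
        _ = 4 * ‖fh e B ((1 - l) * ξ)‖ ^ 2 := by ring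
        _ ≤ _ := le_add_of_nonneg_left (by positivity)
    · rw [mem_union, not_or, hSC, hSD, not_le, not_le] at h3
      have h4 : ‖fh e C1 (l * ξ) / C1.card - fh e D1 (l * ξ) / D1.card‖ ≤ 1 / (4 * (n : ℝ)) := by
        have : 1 / (4 * (n : ℝ)) = 1 / (8 * (n : ℝ)) + 1 / (8 * (n : ℝ)) := by
          field_simp
          ring
        linarith [h3.1, h3.2]
      calc _ ≤ (‖fh e B ((1 - l) * ξ)‖ * (1 / (4 * (n : ℝ)))) ^ 2 := by gcongr
        _ = 1 / (16 * (n : ℝ) ^ 2) * ‖fh e B ((1 - l) * ξ)‖ ^ 2 := by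
          field_simp
          ring
        _ ≤ _ := le_add_of_nonneg_right (by positivity)
  have up := low.trans (sum_le_sum fun ξ _ => pt ξ)
  rw [sum_add_distrib, ← mul_sum, ← mul_sum, parseval_mul he B hl] at up
  have re : ∑ ξ : F, (if (1 - l) * ξ ∈ perp e K' \ perp e K then ‖fh e B ((1 - l) * ξ)‖ ^ 2
      else 0) = en e K' B - en e K B := by
    have r1 := Equiv.sum_comp (Equiv.mulLeft₀ (1 - l) hl)
      fun η => if η ∈ perp e K' \ perp e K then ‖fh e B η‖ ^ 2 else 0
    rw [Fintype.sum_ite_mem] at r1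
    rw [en, en, ← sum_sdiff hsub, add_sub_cancel_right, ← r1]
    rfl
  rw [re] at up
  have hBq : (B.card : ℝ) ≤ Fintype.card F := by exact_mod_cast card_le_univ B
  have hq : (0 : ℝ) < Fintype.card F := by exact_mod_cast hq0
  generalize (Fintype.card F : ℝ) = q at *
  have b1 : 1 / (16 * (n : ℝ) ^ 2) * (q * B.card) ≤ 1 / (16 * (n : ℝ) ^ 2) * (q * q) := by gcongr
  obtain ⟨w, hw⟩ : ∃ w, w = q ^ 2 / (n : ℝ) ^ 2 := ⟨_, rfl⟩
  have w0 : 0 ≤ w := by rw [hw]; positivity
  have w1 : q ^ 2 / (4 * (n : ℝ) ^ 2) = w / 4 := by rw [hw]; field_simp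
  have w2 : q ^ 2 / (32 * (n : ℝ) ^ 2) = w / 32 := by rw [hw]; field_simp
  have w3 : 1 / (16 * (n : ℝ) ^ 2) * (q * q) = w / 16 := by rw [hw]; field_simp
  linarith

end Pool.Agent.P.MP_862e21_al
end

-- part Pool.Agent.P.MP_862e21_al.Exact2
section

namespace Pool.Agent.P.MP_862e21_al

open Finset Pointwise

variable {F : Type*} [Field F] [DecidableEq F]

/-- a coset of `H` contains many points of both sets -/
def Mix (H : AddSubgroup F) (N : ℕ) (x : F) (C D : Finset F) : Prop :=
  ∃ C1 ⊆ C, ∃ D1 ⊆ D, (∀ z ∈ C1, z - x ∈ H) ∧ (∀ z ∈ D1, z - x ∈ H) ∧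
    Nat.card H ≤ 10 * N * C1.card ∧ Nat.card H ≤ 10 * N * D1.card

theorem exact2_neg (h2 : (2 : F) = 0) (p : F) : -p = p := by
  linear_combination (-p) * h2

theorem exact2_key (h2 : (2 : F) = 0) (hI : Irr F) {l : F} {B C D : Finset F} (h : Trio l B C D)
    (hall : ∀ x, x ∈ B ∨ x ∈ C ∨ x ∈ D) (hB : B.Nonempty) {g : F} (hg : g ≠ 0)
    (pB : ∀ x ∈ B, x + g ∈ B) {z : F} (hz : z ∈ C) : z + (1 - l) / l * g ∉ D := by
  intro hzD
  have l0 := h.l0
  have l1 : 1 - l ≠ 0 := sub_ne_zero.mpr h.l1.symm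
  have hT : ∀ y ∈ B, (1 - l) * y + l * z ∈ B := by
    intro y hy
    have h1 := h.sc l (self_mem_Lam l) y hy z hz
    have h3 := h.swap23.sc l (self_mem_Lam l) _ (pB y hy) _ hzD
    have e : (1 - l) * (y + g) + l * (z + (1 - l) / l * g) = (1 - l) * y + l * z := by
      have : l * ((1 - l) / l * g) = (1 - l) * g := by field_simp
      linear_combination this + ((1 - l) * g) * h2
    rw [e] at h3
    rcases hall ((1 - l) * y + l * z) with h4 | h4 | h4
    · exact h4
    · exact absurd h4 h3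
    · exact absurd h4 h1
  have hS : ∀ x ∈ B, ∃ y ∈ B, x = (1 - l) * y + l * z := by
    intro x hx
    obtain ⟨y, hy, e⟩ := surj_on_of_inj_on_of_card_le (s := B) (t := B)
      (fun y _ => (1 - l) * y + l * z) (fun y hy => hT y hy)
      (fun a b _ _ e => mul_left_cancel₀ l1 (add_right_cancel e)) le_rfl x hx
    exact ⟨y, hy, e⟩
  let P : AddSubgroup F :=
    { carrier := {p | ∀ x ∈ B, x + p ∈ B}
      add_mem' := fun {a b} ha hb x hx => by
        rw [← add_assoc]; exact hb _ (ha x hx)
      zero_mem' := fun x hx => by rwa [add_zero]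
      neg_mem' := fun {a} ha => by rw [exact2_neg h2]; exact ha }
  have hP := hI P (1 - l) l1 (fun e => l0 (by linear_combination -e)) (by
    intro p hp x hx
    obtain ⟨y, hy, rfl⟩ := hS x hx
    have := hT _ (hp y hy)
    have e : (1 - l) * (y + p) + l * z = (1 - l) * y + l * z + (1 - l) * p := by ring
    rwa [e] at this)
  rcases hP with hP | hP
  · have : g ∈ P := pB
    rw [hP] at this
    exact hg (AddSubgroup.mem_bot.mp this)
  · obtain ⟨b, hb⟩ := hB
    have h1 : z - b ∈ P := by rw [hP]; trivial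
    have h3 := h1 b hb
    rw [add_sub_cancel] at h3
    exact disjoint_left.mp h.dBC h3 hz

theorem exact2 (h2 : (2 : F) = 0) (hI : Irr F) {l : F} {B C D : Finset F} (h : Trio l B C D)
    (hall : ∀ x, x ∈ B ∨ x ∈ C ∨ x ∈ D) (hB : B.Nonempty) (hC : C.Nonempty) (hD : D.Nonempty)
    {g : F} (hg : g ≠ 0) (pB : ∀ x ∈ B, x + g ∈ B) (pC : ∀ x ∈ C, x + g ∈ C)
    (pD : ∀ x ∈ D, x + g ∈ D) : False := by
  have l0 := h.l0
  have l1 : 1 - l ≠ 0 := sub_ne_zero.mpr h.l1.symm
  let P : AddSubgroup F :=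
    { carrier := {p | (∀ x ∈ B, x + p ∈ B) ∧ (∀ x ∈ C, x + p ∈ C) ∧ ∀ x ∈ D, x + p ∈ D}
      add_mem' := fun {a b} ha hb =>
        ⟨fun x hx => by rw [← add_assoc]; exact hb.1 _ (ha.1 x hx),
          fun x hx => by rw [← add_assoc]; exact hb.2.1 _ (ha.2.1 x hx),
          fun x hx => by rw [← add_assoc]; exact hb.2.2 _ (ha.2.2 x hx)⟩
      zero_mem' := ⟨fun x hx => by rwa [add_zero], fun x hx => by rwa [add_zero],
        fun x hx => by rwa [add_zero]⟩
      neg_mem' := fun {a} ha => by rw [exact2_neg h2]; exact ha }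
  have hP := hI P ((1 - l) / l) (div_ne_zero l1 l0) (by
    intro e
    rw [div_eq_one_iff_eq l0] at e
    exact one_ne_zero (α := F) (by linear_combination e + l * h2)) (by
    intro p hp
    by_cases hp0 : p = 0
    · rw [hp0, mul_zero]; exact P.zero_mem
    refine ⟨fun x hx => ?_, fun x hx => ?_, fun x hx => ?_⟩
    · have a1 := exact2_key h2 hI h.swap12 (fun x => by have := hall x; tauto) hC hp0 hp.2.1 hx
      have a2 := exact2_key h2 hI h.swap23.swap12 (fun x => by have := hall x; tauto) hD hp0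
        hp.2.2 hx
      have := hall (x + (1 - l) / l * p)
      tauto
    · have a1 := exact2_key h2 hI h hall hB hp0 hp.1 hx
      have a2 := exact2_key h2 hI h.swap23.swap12.swap23 (fun x => by have := hall x; tauto) hD
        hp0 hp.2.2 hx
      have := hall (x + (1 - l) / l * p)
      tauto
    · have a1 := exact2_key h2 hI h.swap23 (fun x => by have := hall x; tauto) hB hp0 hp.1 hx
      have a2 := exact2_key h2 hI h.swap12.swap23 (fun x => by have := hall x; tauto) hC hp0
        hp.2.1 hx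
      have := hall (x + (1 - l) / l * p)
      tauto)
  rcases hP with hP | hP
  · have : g ∈ P := ⟨pB, pC, pD⟩
    rw [hP] at this
    exact hg (AddSubgroup.mem_bot.mp this)
  · obtain ⟨b, hb⟩ := hB
    obtain ⟨z, hz⟩ := hC
    have h1 : z - b ∈ P := by rw [hP]; trivial
    have h3 := h1.1 b hb
    rw [add_sub_cancel] at h3
    exact disjoint_left.mp h.dBC h3 hz

/-- the number of points of `X` in the translate `x + G` -/
def exact2_cnt (G X : Finset F) (x : F) : ℕ := (G.filter (fun h => x + h ∈ X)).card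

theorem exact2_cnt_le (G X : Finset F) (x : F) : exact2_cnt G X x ≤ X.card := by
  refine card_le_card_of_injOn (fun h => x + h) (fun h hh => (mem_filter.mp hh).2) ?_
  intro a _ b _ e
  exact add_left_cancel e

theorem exact2_cnt_shift {H : AddSubgroup F} {G : Finset F} (hG : ∀ h, h ∈ G ↔ h ∈ H)
    (X : Finset F) (x : F) {g : F} (hg : g ∈ H) : exact2_cnt G X x ≤ exact2_cnt G X (x + g) := by
  refine card_le_card_of_injOn (fun h => h - g) (fun h hh => ?_) ?_
  · obtain ⟨h1, h2⟩ := mem_filter.mp hh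
    refine mem_filter.mpr ⟨(hG _).mpr (H.sub_mem ((hG _).mp h1) hg), ?_⟩
    have e : x + g + (h - g) = x + h := by ring
    rwa [e]
  · intro a _ b _ e
    exact sub_left_injective e

theorem exact2_cnt_sum [Fintype F] (G X : Finset F) :
    ∑ x, exact2_cnt G X x = G.card * X.card := by
  simp only [exact2_cnt, card_filter]
  rw [sum_comm, ← smul_eq_mul, ← sum_const]
  refine sum_congr rfl fun h _ => ?_
  rw [← card_filter]
  refine card_nbij' (fun x => x + h) (fun x => x - h) ?_ ?_ ?_ ?_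
  · intro x hx
    exact (mem_filter.mp hx).2
  · intro x hx
    exact mem_filter.mpr ⟨mem_univ _, by rwa [sub_add_cancel]⟩
  · intro x _
    simp
  · intro x _
    simp

theorem exact2_cnt_cover [Fintype F] (G B C D : Finset F) (x : F) :
    G.card ≤ exact2_cnt G B x + exact2_cnt G C x + exact2_cnt G D x + ((B ∪ C ∪ D)ᶜ).card := by
  have h1 : G ⊆ G.filter (fun h => x + h ∈ B) ∪ G.filter (fun h => x + h ∈ C) ∪
      G.filter (fun h => x + h ∈ D) ∪ G.filter (fun h => x + h ∈ (B ∪ C ∪ D)ᶜ) := by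
    intro h hh
    simp only [mem_union, mem_filter, mem_compl, hh, true_and]
    tauto
  have h2 := card_le_card h1
  have h3 := card_union_le (G.filter (fun h => x + h ∈ B) ∪ G.filter (fun h => x + h ∈ C) ∪
      G.filter (fun h => x + h ∈ D)) (G.filter (fun h => x + h ∈ (B ∪ C ∪ D)ᶜ))
  have h4 := card_union_le (G.filter (fun h => x + h ∈ B) ∪ G.filter (fun h => x + h ∈ C))
      (G.filter (fun h => x + h ∈ D))
  have h5 := card_union_le (G.filter (fun h => x + h ∈ B)) (G.filter (fun h => x + h ∈ C))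
  have h6 := exact2_cnt_le G (B ∪ C ∪ D)ᶜ x
  unfold exact2_cnt at h6 ⊢
  omega

theorem exact2_cnt_meet (G B C D : Finset F) (y z w : F)
    (h : 2 * G.card < exact2_cnt G B y + exact2_cnt G C z + exact2_cnt G D w) :
    ∃ k, y + k ∈ B ∧ z + k ∈ C ∧ w + k ∈ D := by
  by_contra hne
  have h1 : G ⊆ G.filter (fun h => ¬ y + h ∈ B) ∪ G.filter (fun h => ¬ z + h ∈ C) ∪
      G.filter (fun h => ¬ w + h ∈ D) := by
    intro k hk
    simp only [mem_union, mem_filter, hk, true_and]
    by_contra h3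
    exact hne ⟨k, by tauto⟩
  have h2 := card_le_card h1
  have h4 := card_union_le (G.filter (fun h => ¬ y + h ∈ B) ∪ G.filter (fun h => ¬ z + h ∈ C))
      (G.filter (fun h => ¬ w + h ∈ D))
  have h5 := card_union_le (G.filter (fun h => ¬ y + h ∈ B)) (G.filter (fun h => ¬ z + h ∈ C))
  have a1 := card_filter_add_card_filter_not (s := G) (fun h => y + h ∈ B)
  have a2 := card_filter_add_card_filter_not (s := G) (fun h => z + h ∈ C)
  have a3 := card_filter_add_card_filter_not (s := G) (fun h => w + h ∈ D)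
  unfold exact2_cnt at h
  omega

theorem exact2_mix {H : AddSubgroup F} {G : Finset F} (hG : ∀ h, h ∈ G ↔ h ∈ H) {N : ℕ} {x : F}
    {C D : Finset F} (hC : Nat.card H ≤ 10 * N * exact2_cnt G C x)
    (hD : Nat.card H ≤ 10 * N * exact2_cnt G D x) : Mix H N x C D := by
  have key : ∀ X : Finset F, ∃ X1 ⊆ X, (∀ z ∈ X1, z - x ∈ H) ∧ X1.card = exact2_cnt G X x := by
    intro X
    refine ⟨(G.filter (fun h => x + h ∈ X)).image (fun h => x + h), ?_, ?_, ?_⟩
    · intro z hz
      obtain ⟨k, hk, rfl⟩ := mem_image.mp hz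
      exact (mem_filter.mp hk).2
    · intro z hz
      obtain ⟨k, hk, rfl⟩ := mem_image.mp hz
      rw [add_sub_cancel_left]
      exact (hG k).mp (mem_filter.mp hk).1
    · exact card_image_of_injective _ (add_right_injective x)
  obtain ⟨C1, a1, a2, a3⟩ := key C
  obtain ⟨D1, b1, b2, b3⟩ := key D
  exact ⟨C1, a1, D1, b1, a2, b2, a3 ▸ hC, b3 ▸ hD⟩

theorem exact2_star_ne [Fintype F] {G X : Finset F} {N : ℕ} (hG : 0 < G.card)
    (hX : Fintype.card F ≤ N * X.card) :
    (univ.filter (fun x => G.card ≤ 10 * N * exact2_cnt G X x)).Nonempty := by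
  rw [nonempty_iff_ne_empty]
  intro e
  have h1 : ∀ x ∈ (univ : Finset F), 10 * N * exact2_cnt G X x ≤ G.card := by
    intro x _
    by_contra h2
    have : x ∈ univ.filter (fun x => G.card ≤ 10 * N * exact2_cnt G X x) :=
      mem_filter.mpr ⟨mem_univ _, by omega⟩
    rw [e] at this
    exact notMem_empty _ this
  have h2 := sum_le_card_nsmul _ _ _ h1
  rw [← mul_sum, exact2_cnt_sum, card_univ, smul_eq_mul] at h2
  have h3 : 0 < Fintype.card F := Fintype.card_pos
  have h4 : Fintype.card F * G.card ≤ N * X.card * G.card := Nat.mul_le_mul_right _ hX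
  have h5 : 0 < N * X.card * G.card := Nat.mul_pos (by omega) hG
  have h6 : 10 * N * (G.card * X.card) = 10 * (N * X.card * G.card) := by ring
  omega

theorem mixed2 [Fintype F] (h2 : (2 : F) = 0) (hI : Irr F) {l : F} {B C D : Finset F} {u N : ℕ}
    (h : Trio l B C D) (hu : Fintype.card F = B.card + C.card + D.card + u)
    (hB : Fintype.card F ≤ N * B.card) (hC : Fintype.card F ≤ N * C.card)
    (hD : Fintype.card F ≤ N * D.card) (H : AddSubgroup F) (hH : 10 * (u + 1) ≤ Nat.card H) :
    ∃ x : F, Mix H N x C D ∨ Mix H N x B D ∨ Mix H N x B C := by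
  classical
  by_contra hne
  obtain ⟨G, hG⟩ : ∃ G : Finset F, ∀ h, h ∈ G ↔ h ∈ H :=
    ⟨univ.filter (fun h => h ∈ H), fun h => by simp⟩
  have hGc : Nat.card H = G.card := Nat.subtype_card G hG
  have hE : ((B ∪ C ∪ D)ᶜ).card = u := by
    rw [card_compl, card_union_of_disjoint (disjoint_union_left.mpr ⟨h.dBD, h.dCD⟩),
      card_union_of_disjoint h.dBC]
    omega
  have hN : 1 ≤ N := by
    have h3 : 0 < Fintype.card F := Fintype.card_pos
    rcases Nat.eq_zero_or_pos N with e | e
    · rw [e] at hB; omega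
    · exact e
  have nCD : ∀ x, ¬ (G.card ≤ 10 * N * exact2_cnt G C x ∧ G.card ≤ 10 * N * exact2_cnt G D x) :=
    fun x hx => hne ⟨x, Or.inl (exact2_mix hG (hGc ▸ hx.1) (hGc ▸ hx.2))⟩
  have nBD : ∀ x, ¬ (G.card ≤ 10 * N * exact2_cnt G B x ∧ G.card ≤ 10 * N * exact2_cnt G D x) :=
    fun x hx => hne ⟨x, Or.inr (Or.inl (exact2_mix hG (hGc ▸ hx.1) (hGc ▸ hx.2)))⟩
  have nBC : ∀ x, ¬ (G.card ≤ 10 * N * exact2_cnt G B x ∧ G.card ≤ 10 * N * exact2_cnt G C x) :=
    fun x hx => hne ⟨x, Or.inr (Or.inr (exact2_mix hG (hGc ▸ hx.1) (hGc ▸ hx.2)))⟩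
  have small : ∀ (X : Finset F) (x : F), ¬ G.card ≤ 10 * N * exact2_cnt G X x →
      10 * exact2_cnt G X x < G.card := by
    intro X x hx
    have : 10 * 1 * exact2_cnt G X x ≤ 10 * N * exact2_cnt G X x :=
      Nat.mul_le_mul_right _ (Nat.mul_le_mul_left _ hN)
    omega
  have cov := fun x => exact2_cnt_cover G B C D x
  rw [hE] at cov
  rw [hGc] at hH
  obtain ⟨St, hSt⟩ : ∃ St : Finset F → Finset F,
      ∀ X x, x ∈ St X ↔ G.card ≤ 10 * N * exact2_cnt G X x :=
    ⟨fun X => univ.filter (fun x => G.card ≤ 10 * N * exact2_cnt G X x), fun X x => by simp⟩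
  have hne' : ∀ X : Finset F, Fintype.card F ≤ N * X.card → (St X).Nonempty := by
    intro X hX
    obtain ⟨x, hx⟩ := exact2_star_ne (G := G) (by omega) hX
    exact ⟨x, (hSt X x).mpr (mem_filter.mp hx).2⟩
  obtain ⟨g, hgG, hg0⟩ := exists_mem_ne (s := G) (by omega) (0 : F)
  have per : ∀ X : Finset F, ∀ x ∈ St X, x + g ∈ St X := by
    intro X x hx
    rw [hSt] at hx ⊢
    exact hx.trans (Nat.mul_le_mul_left _ (exact2_cnt_shift hG X x ((hG g).mp hgG)))
  refine exact2 h2 hI (l := l) (B := St B) (C := St C) (D := St D)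
    ⟨h.l0, h.l1, ?_, ?_, ?_, ?_⟩ ?_ (hne' B hB) (hne' C hC) (hne' D hD) hg0 (per B) (per C) (per D)
  · intro s hs y hy z hz hw
    rw [hSt] at hy hz hw
    have y1 := small C y fun e => nBC y ⟨hy, e⟩
    have y2 := small D y fun e => nBD y ⟨hy, e⟩
    have z1 := small B z fun e => nBC z ⟨e, hz⟩
    have z2 := small D z fun e => nCD z ⟨hz, e⟩
    have w1 := small B _ fun e => nBD _ ⟨e, hw⟩
    have w2 := small C _ fun e => nCD _ ⟨e, hw⟩
    have c1 := cov y
    have c2 := cov z
    have c3 := cov ((1 - s) * y + s * z)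
    obtain ⟨k, k1, k2, k3⟩ := exact2_cnt_meet G B C D y z ((1 - s) * y + s * z) (by omega)
    have := h.sc s hs _ k1 _ k2
    have e : (1 - s) * (y + k) + s * (z + k) = (1 - s) * y + s * z + k := by ring
    rw [e] at this
    exact this k3
  · exact disjoint_left.mpr fun x a b => nBC x ⟨(hSt _ _).mp a, (hSt _ _).mp b⟩
  · exact disjoint_left.mpr fun x a b => nBD x ⟨(hSt _ _).mp a, (hSt _ _).mp b⟩
  · exact disjoint_left.mpr fun x a b => nCD x ⟨(hSt _ _).mp a, (hSt _ _).mp b⟩
  · intro x
    by_contra hx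
    rw [hSt, hSt, hSt] at hx
    have a1 := small B x fun e => hx (Or.inl e)
    have a2 := small C x fun e => hx (Or.inr (Or.inl e))
    have a3 := small D x fun e => hx (Or.inr (Or.inr e))
    have c1 := cov x
    omega

end Pool.Agent.P.MP_862e21_al
end

-- part Pool.Agent.P.MP_862e21_al.Dense2
section

namespace Pool.Agent.P.MP_862e21_al

open Finset Pointwise

theorem dense2_step {F : Type*} [Field F] [Fintype F] [DecidableEq F] (h2 : (2 : F) = 0)
    {e : AddChar F ℂ} (he : e.IsPrimitive) {l : F} {B C D : Finset F} {u n N I : ℕ}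
    (h : Trio l B C D) (hu : Fintype.card F = B.card + C.card + D.card + u) (hn : 1 ≤ n)
    (hinv : ∀ z : F, Fintype.card F ≤ n * (B.filter (fun y => (1 - l) * y + l * z ∉ B)).card)
    (hun : 2 * n * u ≤ Fintype.card F) {K H : AddSubgroup F} (hK : Fintype.card F ≤ I * Nat.card K)
    (hc : Nat.card H = Nat.card K) (hH : ∀ y ∈ H, l * y / (1 - l) ∈ K) {x : F}
    (hm : Mix H N x C D) :
    ∃ K' : AddSubgroup F, Fintype.card F ≤ I * 2 ^ (128 * n ^ 2 * (10 * N * I)) * Nat.card K' ∧
      en e K B + en e K C + en e K D + (Fintype.card F : ℝ) ^ 2 / (32 * (n : ℝ) ^ 2) ≤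
        en e K' B + en e K' C + en e K' D := by
  obtain ⟨C1, hC1, D1, hD1, kC, kD, mC, mD⟩ := hm
  have m : ∀ c : ℕ, Nat.card H ≤ 10 * N * c → Fintype.card F ≤ 10 * N * I * c := fun c hc' =>
    calc Fintype.card F ≤ I * (10 * N * c) := hK.trans (Nat.mul_le_mul_left I (hc ▸ hc'))
      _ = _ := by ring
  obtain ⟨K', h1, h3, h4⟩ := incr2 h2 he h hu hn hinv hun K hC1 hD1
    (fun z hz => hH _ (kC z hz)) (fun z hz => hH _ (kD z hz)) (m _ mC) (m _ mD)
  refine ⟨K', hK.trans ?_, ?_⟩
  · rw [mul_assoc I]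
    exact Nat.mul_le_mul_left I h3
  · linarith [en_mono e h1 C, en_mono e h1 D]

theorem dense2 (N N' : ℕ) : ∃ q0 : ℕ, ∀ (F : Type) [Field F] [Fintype F] [DecidableEq F],
    (2 : F) = 0 → Irr F → q0 ≤ Fintype.card F → ∀ (l : F) (B C D : Finset F) (u : ℕ),
      Trio l B C D → Fintype.card F = B.card + C.card + D.card + u →
      Fintype.card F ≤ N * B.card → Fintype.card F ≤ N * C.card → Fintype.card F ≤ N * D.card →
      u ≤ N' → False := by
  obtain ⟨n, q1, hn, hinv⟩ := invar2 N
  obtain ⟨I, I0, Is⟩ : ∃ I : ℕ → ℕ, I 0 = 1 ∧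
      ∀ j, I (j + 1) = I j * 2 ^ (128 * n ^ 2 * (10 * N * I j)) :=
    ⟨fun j => Nat.rec 1 (fun _ i => i * 2 ^ (128 * n ^ 2 * (10 * N * i))) j, rfl, fun _ => rfl⟩
  have Imono : Monotone I := monotone_nat_of_le_succ fun j => by
    rw [Is]
    exact Nat.le_mul_of_pos_right _ (by positivity)
  have Ipos : ∀ j, 0 < I j := fun j => lt_of_lt_of_le (by omega) (Imono (Nat.zero_le j))
  refine ⟨max q1 (max (2 * n * N') (I (32 * n ^ 2) * (10 * (N' + 1)))), ?_⟩
  intro F _ _ _ h2 hI hq l B C D u h hu hB hC hD huN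
  obtain ⟨hq1, hq2, hq3⟩ : q1 ≤ Fintype.card F ∧ 2 * n * N' ≤ Fintype.card F ∧
      I (32 * n ^ 2) * (10 * (N' + 1)) ≤ Fintype.card F := by
    rwa [max_le_iff, max_le_iff] at hq
  have hun : 2 * n * u ≤ Fintype.card F := (Nat.mul_le_mul_left _ huN).trans hq2
  obtain ⟨e, he⟩ := exists_char (F := F)
  have hl : 1 - l ≠ 0 := sub_ne_zero.2 h.l1.symm
  have key : ∀ j : ℕ, j ≤ 32 * n ^ 2 + 1 → ∃ K : AddSubgroup F,
      Fintype.card F ≤ I j * Nat.card K ∧
      j * ((Fintype.card F : ℝ) ^ 2 / (32 * (n : ℝ) ^ 2)) ≤ en e K B + en e K C + en e K D := by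
    intro j
    induction j with
    | zero =>
      intro _
      refine ⟨⊤, by rw [I0, one_mul, AddSubgroup.card_top, Nat.card_eq_fintype_card], ?_⟩
      rw [Nat.cast_zero, zero_mul]
      linarith [en_nonneg e ⊤ B, en_nonneg e ⊤ C, en_nonneg e ⊤ D]
    | succ j ih =>
      intro hj
      obtain ⟨K, hK, hE⟩ := ih (by omega)
      obtain ⟨H, hc, hH⟩ : ∃ H : AddSubgroup F, Nat.card H = Nat.card K ∧
          ∀ y ∈ H, l * y / (1 - l) ∈ K := by
        refine ⟨K.map (AddMonoidHom.mulLeft ((1 - l) / l)), ?_, ?_⟩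
        · exact AddSubgroup.card_map_of_injective
            (mul_right_injective₀ (div_ne_zero hl h.l0))
        · rintro _ ⟨k, hk, rfl⟩
          have h0 := h.l0
          have : l * (AddMonoidHom.mulLeft ((1 - l) / l) k) / (1 - l) = k := by
            rw [AddMonoidHom.coe_mulLeft]
            field_simp
          rwa [this]
      have hbig : 10 * (u + 1) ≤ Nat.card H := by
        rw [hc]
        refine Nat.le_of_mul_le_mul_left (le_trans ?_ (hq3.trans hK)) (Ipos j)
        exact Nat.mul_le_mul (Imono (by omega)) (by omega)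
      obtain ⟨x, hm⟩ := mixed2 h2 hI h hu hB hC hD H hbig
      have fin : ∃ K' : AddSubgroup F, Fintype.card F ≤ I (j + 1) * Nat.card K' ∧
          en e K B + en e K C + en e K D + (Fintype.card F : ℝ) ^ 2 / (32 * (n : ℝ) ^ 2) ≤
            en e K' B + en e K' C + en e K' D := by
        rw [Is]
        rcases hm with hm | hm | hm
        · exact dense2_step h2 he h hu hn (hinv F h2 hI hq1 l B C D h hB hC hD) hun hK hc hH hm
        · obtain ⟨K', h1, h3⟩ := dense2_step h2 he h.swap12 (u := u) (by omega) hn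
            (hinv F h2 hI hq1 l C B D h.swap12 hC hB hD) hun hK hc hH hm
          exact ⟨K', h1, by linarith⟩
        · obtain ⟨K', h1, h3⟩ := dense2_step h2 he h.swap23.swap12 (u := u) (by omega) hn
            (hinv F h2 hI hq1 l D B C h.swap23.swap12 hD hB hC) hun hK hc hH hm
          exact ⟨K', h1, by linarith⟩
      obtain ⟨K', h1, h3⟩ := fin
      refine ⟨K', h1, ?_⟩
      push_cast
      linarith
  obtain ⟨K, -, hE⟩ := key _ le_rfl
  have hq0 : (0 : ℝ) < Fintype.card F := by exact_mod_cast Fintype.card_pos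
  have hn' : (0 : ℝ) < n := by exact_mod_cast hn
  have hs : (B.card : ℝ) + C.card + D.card ≤ Fintype.card F := by
    exact_mod_cast (by omega : B.card + C.card + D.card ≤ Fintype.card F)
  have e1 := en_le he K B
  have e2 := en_le he K C
  have e3 := en_le he K D
  have e4 : ((32 * n ^ 2 + 1 : ℕ) : ℝ) * ((Fintype.card F : ℝ) ^ 2 / (32 * (n : ℝ) ^ 2)) =
      (Fintype.card F : ℝ) ^ 2 + (Fintype.card F : ℝ) ^ 2 / (32 * (n : ℝ) ^ 2) := by
    push_cast
    field_simp
  have e5 : 0 < (Fintype.card F : ℝ) ^ 2 / (32 * (n : ℝ) ^ 2) := by positivity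
  nlinarith [mul_le_mul_of_nonneg_left hs hq0.le]

end Pool.Agent.P.MP_862e21_al
end

-- part Pool.Agent.P.MP_862e21_al.Core
section

namespace Pool.Agent.P.MP_862e21_al

open Finset Pointwise

/-- three classes of comparable size -/
theorem comparable (L : ℕ) : ∃ q0 : ℕ, ∀ (F : Type) [Field F] [Fintype F] [DecidableEq F],
    q0 ≤ Fintype.card F → Irr F → ∀ (l : F) (A B C : Finset F), Cl l A B C → Gen l →
      A.card ≤ B.card → B.card ≤ C.card → A.card + B.card + 2 * C.card ≤ Fintype.card F + 1 →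
      C.card ≤ L * A.card → False := by
  obtain ⟨k0, N, h1⟩ := sumProd L
  obtain ⟨q1, h2⟩ := dense (N * L)
  obtain ⟨q2, h3⟩ := bounded (L * k0)
  refine ⟨max (max q1 q2) (N * L * (2 * (N * L) ^ 3) + 1), ?_⟩
  intro F _ _ _ hq hI l A B C h hg ab bc hd hL
  have hq1 : q1 ≤ Fintype.card F := le_trans (le_trans (le_max_left _ _) (le_max_left _ _)) hq
  have hq2 : q2 ≤ Fintype.card F := le_trans (le_trans (le_max_right _ _) (le_max_left _ _)) hq
  have hq3 : N * L * (2 * (N * L) ^ 3) + 1 ≤ Fintype.card F := le_trans (le_max_right _ _) hq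
  by_cases hk : k0 ≤ A.card
  · have e1 := h1 F hI l A B C h ab bc hL hk
    have e2 : Fintype.card F ≤ N * L * A.card := by
      calc Fintype.card F ≤ N * C.card := e1
        _ ≤ N * (L * A.card) := Nat.mul_le_mul_left _ hL
        _ = N * L * A.card := by ring
    have e3 := h2 F hq1 l A B C h bc hd (le_trans e2 (Nat.mul_le_mul_left _ ab))
    have e4 : N * L * A.card ≤ N * L * (2 * (N * L) ^ 3) := Nat.mul_le_mul_left _ e3
    omega
  · have e : C.card ≤ L * k0 := le_trans hL (Nat.mul_le_mul_left _ (by omega))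
    exact h3 F hq2 l A B C h hg (by omega) (by omega) e

theorem coreP : ∃ q0 : ℕ, ∀ (F : Type) [Field F] [Fintype F] [DecidableEq F],
    q0 ≤ Fintype.card F → (Fintype.card F).Prime → ∀ (l : F) (A B C : Finset F), Cl l A B C →
      Gen l → A.card ≤ B.card → B.card ≤ C.card →
      A.card + B.card + 2 * C.card ≤ Fintype.card F + 1 → False := by
  obtain ⟨N, h1⟩ := fewHoles
  obtain ⟨q1, h2⟩ := comparable (10 ^ 10 * N)
  refine ⟨max q1 6, ?_⟩
  intro F _ _ _ hq hp l A B C h hg ab bc hd
  have hq1 : q1 ≤ Fintype.card F := le_trans (le_max_left _ _) hq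
  have h5 : 5 < Fintype.card F := lt_of_lt_of_le (by norm_num) (le_trans (le_max_right _ _) hq)
  have a1 := h.nA.card_pos
  have c1 := h.nC.card_pos
  by_cases hb : B.card = 1
  · exact single h hg (by omega) hb (by omega)
  obtain ⟨x, hx⟩ := h.nA
  obtain ⟨D, hT, hu⟩ := h.chart hx
  rw [← card_ch x B, ← card_ch x C] at hu
  have eB := card_ch x B
  have eC := card_ch x C
  by_cases hL : 10 ^ 10 * B.card ≤ C.card
  · exact longC hp h5 hT (by omega) hu (by omega) (by omega) (by rw [eB, eC]; exact hL)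
  by_cases hN : N * (A.card - 1 + 1) ≤ B.card
  · exact h1 F hp h5 l _ _ D _ hT hu (by omega) (by omega) (by rw [eB, eC]; omega)
      (by rw [eB]; exact hN)
  · have e : A.card - 1 + 1 = A.card := by omega
    rw [e] at hN
    refine h2 F hq1 (irrP hp) l A B C h hg ab bc hd ?_
    calc C.card ≤ 10 ^ 10 * B.card := by omega
      _ ≤ 10 ^ 10 * (N * A.card) := Nat.mul_le_mul_left _ (by omega)
      _ = 10 ^ 10 * N * A.card := by ring

theorem core2 : ∃ q0 : ℕ, ∀ (F : Type) [Field F] [Fintype F] [DecidableEq F],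
    q0 ≤ Fintype.card F → (2 : F) = 0 → Irr F → ∀ (l : F) (A B C : Finset F), Cl l A B C →
      Gen l → A.card ≤ B.card → B.card ≤ C.card →
      A.card + B.card + 2 * C.card ≤ Fintype.card F + 1 → False := by
  obtain ⟨L, hLe⟩ : ∃ L : ℕ, L = 16 * 350 ^ 15 := ⟨_, rfl⟩
  obtain ⟨N, h1⟩ := sparse2 L
  obtain ⟨q1, h2⟩ := comparable 2
  obtain ⟨q2, h3⟩ := dense N
  obtain ⟨q3, h4⟩ := dense2 N (2 * N ^ 3)
  refine ⟨max (max q1 q2) q3, ?_⟩
  intro F _ _ _ hq h20 hI l A B C h hg ab bc hd
  have hq1 : q1 ≤ Fintype.card F := le_trans (le_trans (le_max_left _ _) (le_max_left _ _)) hq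
  have hq2 : q2 ≤ Fintype.card F := le_trans (le_trans (le_max_right _ _) (le_max_left _ _)) hq
  have hq3 : q3 ≤ Fintype.card F := le_trans (le_max_right _ _) hq
  have a1 := h.nA.card_pos
  have c1 := h.nC.card_pos
  by_cases hb : B.card = 1
  · exact single h hg (by omega) hb (by omega)
  obtain ⟨x, hx⟩ := h.nA
  obtain ⟨D, hT, hu⟩ := h.chart hx
  rw [← card_ch x B, ← card_ch x C] at hu
  have eB := card_ch x B
  have eC := card_ch x C
  by_cases hL : L * B.card ≤ C.card
  · exact longC2 h20 hI hT (by omega) hu (by omega) (by omega) (by rw [eB, eC, ← hLe]; exact hL)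
  by_cases hc : C.card ≤ 2 * A.card
  · exact h2 F hq1 hI l A B C h hg ab bc hd hc
  have e1 := h1 F h20 hI l _ _ D _ hT hu (by omega) (by rw [eB, eC]; omega) (by omega) (by omega)
  have e2 := h3 F hq2 l A B C h bc hd (by rwa [eB] at e1)
  exact h4 F h20 hI hq3 l _ _ D _ hT hu e1
    (le_trans e1 (Nat.mul_le_mul_left _ (by omega)))
    (le_trans e1 (Nat.mul_le_mul_left _ (by omega))) (by omega)

theorem core : ∃ q0 : ℕ, ∀ (F : Type) [Field F] [Fintype F] [DecidableEq F],
    q0 ≤ Fintype.card F →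
      ((Fintype.card F).Prime ∨ ∃ p : ℕ, p.Prime ∧ Fintype.card F = 2 ^ p) →
      ∀ (l : F) (A B C : Finset F), Cl l A B C → Gen l → A.card ≤ B.card → B.card ≤ C.card →
      A.card + B.card + 2 * C.card ≤ Fintype.card F + 1 → False := by
  obtain ⟨q1, h1⟩ := coreP
  obtain ⟨q2, h2⟩ := core2
  refine ⟨max q1 q2, ?_⟩
  intro F _ _ _ hq hc
  rcases hc with hp | ⟨p, hp, e⟩
  · exact h1 F (le_trans (le_max_left _ _) hq) hp
  · exact h2 F (le_trans (le_max_right _ _) hq) (two_eq_zero e) (irr2 hp e)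

end Pool.Agent.P.MP_862e21_al
end

-- part Pool.Agent.P.MP_862e21_al.Bridge3
section

namespace Pool.Agent.P.MP_862e21_al

open Finset Pointwise

variable {F : Type*} [Field F] [DecidableEq F]

open OnePoint

/-- first homogeneous coordinate -/
def bridge3_r0 (p : OnePoint F) : F := OnePoint.elim p 1 (fun x => x)

/-- second homogeneous coordinate -/
def bridge3_r1 (p : OnePoint F) : F := OnePoint.elim p 0 (fun _ => 1)

/-- the bracket of two points -/
def bridge3_br (p r : OnePoint F) : F := bridge3_r0 p * bridge3_r1 r - bridge3_r1 p * bridge3_r0 r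

theorem bridge3_rep (M : GL (Fin 2) F) (p : OnePoint F) :
    ∃ l : F, l ≠ 0 ∧
      bridge3_r0 (M • p) = l * (M 0 0 * bridge3_r0 p + M 0 1 * bridge3_r1 p) ∧
      bridge3_r1 (M • p) = l * (M 1 0 * bridge3_r0 p + M 1 1 * bridge3_r1 p) := by
  have hd : M 0 0 * M 1 1 - M 0 1 * M 1 0 ≠ 0 := by
    have := M.det_ne_zero
    rwa [Matrix.det_fin_two] at this
  cases p with
  | infty =>
    rw [smul_infty_eq_ite]
    by_cases h : M 1 0 = 0
    · have h0 : M 0 0 ≠ 0 := by
        intro h0
        apply hd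
        rw [h, h0]; ring
      refine ⟨(M 0 0)⁻¹, inv_ne_zero h0, ?_, ?_⟩
      · simp [h, bridge3_r0, bridge3_r1, h0]
      · simp [h, bridge3_r0, bridge3_r1]
    · refine ⟨(M 1 0)⁻¹, inv_ne_zero h, ?_, ?_⟩
      · simp [h, bridge3_r0, bridge3_r1, div_eq_inv_mul]
      · simp [h, bridge3_r0, bridge3_r1]
  | coe k =>
    rw [smul_some_eq_ite]
    by_cases h : M 1 0 * k + M 1 1 = 0
    · have h0 : M 0 0 * k + M 0 1 ≠ 0 := by
        intro h0
        apply hd
        have e1 : M 1 1 = - (M 1 0 * k) := by linear_combination h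
        have e2 : M 0 1 = - (M 0 0 * k) := by linear_combination h0
        rw [e1, e2]; ring
      refine ⟨(M 0 0 * k + M 0 1)⁻¹, inv_ne_zero h0, ?_, ?_⟩
      · simp [h, bridge3_r0, bridge3_r1, h0]
      · simp [h, bridge3_r0, bridge3_r1]
    · refine ⟨(M 1 0 * k + M 1 1)⁻¹, inv_ne_zero h, ?_, ?_⟩
      · simp [h, bridge3_r0, bridge3_r1, div_eq_inv_mul]
      · simp [h, bridge3_r0, bridge3_r1]

theorem bridge3_br_smul (M : GL (Fin 2) F) :
    ∃ (l : OnePoint F → F) (d : F), d ≠ 0 ∧ (∀ p, l p ≠ 0) ∧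
      ∀ p r, bridge3_br (M • p) (M • r) = l p * l r * d * bridge3_br p r := by
  choose l hl0 hl1 hl2 using bridge3_rep M
  refine ⟨l, M 0 0 * M 1 1 - M 0 1 * M 1 0, ?_, hl0, fun p r => ?_⟩
  · have := M.det_ne_zero
    rwa [Matrix.det_fin_two] at this
  · unfold bridge3_br
    rw [hl1, hl1, hl2, hl2]
    ring

/-- the values of the elements of a subgroup of the unit group -/
def bridge3_In (H : Subgroup Fˣ) (x : F) : Prop := ∃ u ∈ H, (u : F) = x

omit [DecidableEq F] in
theorem bridge3_In_one (H : Subgroup Fˣ) : bridge3_In H 1 := ⟨1, H.one_mem, rfl⟩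

omit [DecidableEq F] in
theorem bridge3_In_mul {H : Subgroup Fˣ} {x y : F} (hx : bridge3_In H x) (hy : bridge3_In H y) :
    bridge3_In H (x * y) := by
  obtain ⟨u, hu, rfl⟩ := hx
  obtain ⟨v, hv, rfl⟩ := hy
  exact ⟨u * v, H.mul_mem hu hv, by simp⟩

omit [DecidableEq F] in
theorem bridge3_In_inv {H : Subgroup Fˣ} {x : F} (hx : bridge3_In H x) :
    bridge3_In H x⁻¹ := by
  obtain ⟨u, hu, rfl⟩ := hx
  exact ⟨u⁻¹, H.inv_mem hu, by simp⟩

omit [DecidableEq F] in
theorem bridge3_In_ne {H : Subgroup Fˣ} {x : F} (hx : bridge3_In H x) : x ≠ 0 := by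
  obtain ⟨u, _, rfl⟩ := hx
  exact u.ne_zero

omit [DecidableEq F] in
theorem bridge3_In_neg {H : Subgroup Fˣ} (hm : (-1 : Fˣ) ∈ H) {x : F} (hx : bridge3_In H x) :
    bridge3_In H (-x) := by
  obtain ⟨u, hu, rfl⟩ := hx
  exact ⟨-1 * u, H.mul_mem hm hu, by simp⟩

theorem bridge3_In_map [Fintype F] {H : Subgroup Fˣ} (σ : F ≃+* F) {x : F}
    (hx : bridge3_In H x) : bridge3_In H (σ x) := by
  obtain ⟨u, hu, rfl⟩ := hx
  obtain ⟨m, hm⟩ := MonoidHom.map_cyclic (Units.map (σ : F →* F))
  refine ⟨u ^ m, H.zpow_mem hu m, ?_⟩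
  rw [← hm u]
  simp

/-- brackets of distinct base points lie in the subgroup -/
theorem bridge3_base_br [DecidableEq (OnePoint F)] {H : Subgroup Fˣ} (hm : (-1 : Fˣ) ∈ H) {e : F}
    (h0 : bridge3_In H e) (h1 : bridge3_In H (1 - e)) {p r : OnePoint F}
    (hp : p ∈ base e) (hr : r ∈ base e) (hpr : p ≠ r) : bridge3_In H (bridge3_br p r) := by
  have a1 := bridge3_In_one H
  have a2 := bridge3_In_neg hm a1
  have a3 := bridge3_In_neg hm h0
  have a4 := bridge3_In_neg hm h1
  simp only [base, mem_insert, mem_singleton] at hp hr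
  rcases hp with rfl | rfl | rfl | rfl <;> rcases hr with rfl | rfl | rfl | rfl <;>
    first
    | exact absurd rfl hpr
    | (simp only [bridge3_br, bridge3_r0, bridge3_r1, OnePoint.elim_infty, OnePoint.elim_some,
        mul_one, one_mul, mul_zero, zero_mul, sub_zero, zero_sub]
       first
       | exact a1
       | exact a2
       | exact a3
       | exact h0
       | exact h1
       | (rw [neg_sub] at a4; exact a4))

open Classical in
/-- the colouring of the projective line -/
noncomputable def bridge3_col (H : Subgroup Fˣ) (p : OnePoint F) : Fin 4 :=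
  OnePoint.elim p 0 (fun x => if x = 0 then 1 else if bridge3_In H x then 2 else 3)

theorem necessity [Fintype F] [DecidableEq (OnePoint F)] {c c' : Fˣ} (h : (c : F) + c' = 1)
    (hne : Subgroup.closure ({-1, c, c'} : Set Fˣ) ≠ ⊤) :
    ∃ P : Finpartition (univ : Finset (OnePoint F)), P.parts.card = 4 ∧
      ∀ (M : GL (Fin 2) F) (σ : F ≃+* F),
        ¬ ∀ X ∈ P.parts,
          (X ∩ (base (c : F)).image (fun x => M • OnePoint.map σ x)).card = 1 := by
  classical
  set H := Subgroup.closure ({-1, c, c'} : Set Fˣ) with hH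
  have hm : (-1 : Fˣ) ∈ H := Subgroup.subset_closure (by simp)
  have hc : c ∈ H := Subgroup.subset_closure (by simp)
  have hc' : c' ∈ H := Subgroup.subset_closure (by simp)
  obtain ⟨w, hw⟩ : ∃ w : Fˣ, w ∉ H := by
    by_contra hcon
    push Not at hcon
    exact hne (eq_top_iff.mpr fun x _ => hcon x)
  have hw' : ¬ bridge3_In H (w : F) := by
    rintro ⟨u, hu, e⟩
    exact hw (Units.ext e ▸ hu)
  let X : Fin 4 → Finset (OnePoint F) := fun k => univ.filter (fun p => bridge3_col H p = k)
  have hX : ∀ k p, p ∈ X k ↔ bridge3_col H p = k := by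
    intro k p
    simp [X]
  have hsurj : ∀ k, ∃ p, bridge3_col H p = k := by
    intro k
    fin_cases k
    · exact ⟨∞, by simp [bridge3_col]⟩
    · exact ⟨((0 : F) : OnePoint F), by simp [bridge3_col]⟩
    · exact ⟨((1 : F) : OnePoint F), by simp [bridge3_col, bridge3_In_one]⟩
    · exact ⟨((w : F) : OnePoint F), by simp [bridge3_col, hw']⟩
  have hinj : Function.Injective X := by
    intro k k' e
    obtain ⟨p, hp⟩ := hsurj k
    have h1 : p ∈ X k := (hX k p).2 hp
    rw [e, hX] at h1
    rw [← hp, h1]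
  refine ⟨Finpartition.ofExistsUnique (univ.image X) (fun _ _ => subset_univ _) ?_ ?_, ?_, ?_⟩
  · intro a _
    refine ⟨X (bridge3_col H a), ⟨mem_image_of_mem _ (mem_univ _), (hX _ _).2 rfl⟩, ?_⟩
    rintro t ⟨ht, hat⟩
    obtain ⟨k, _, rfl⟩ := mem_image.1 ht
    rw [(hX _ _).1 hat]
  · intro he
    obtain ⟨k, _, hk⟩ := mem_image.1 he
    obtain ⟨p, hp⟩ := hsurj k
    have h1 : p ∈ X k := (hX k p).2 hp
    rw [hk] at h1
    simp at h1
  · simp [card_image_of_injective _ hinj]
  · intro M σ hall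
    have hpt : ∀ k, ∃ p ∈ base (σ (c : F)), bridge3_col H (M • p) = k := by
      intro k
      have h1 := hall (X k) (by simpa using ⟨k, rfl⟩)
      obtain ⟨q, hq⟩ := card_pos.1 (h1 ▸ Nat.one_pos :
        0 < (X k ∩ (base (c : F)).image (fun x => M • OnePoint.map σ x)).card)
      obtain ⟨hq1, hq2⟩ := mem_inter.1 hq
      obtain ⟨x, hx, rfl⟩ := mem_image.1 hq2
      refine ⟨OnePoint.map σ x, ?_, (hX _ _).1 hq1⟩
      simp only [base, mem_insert, mem_singleton] at hx ⊢
      rcases hx with rfl | rfl | rfl | rfl <;> simp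
    choose p hp hcol using hpt
    have hne' : ∀ k k', k ≠ k' → p k ≠ p k' := by
      intro k k' hk e
      apply hk
      rw [← hcol k, ← hcol k', e]
    have e0 : bridge3_In H (σ (c : F)) := bridge3_In_map σ ⟨c, hc, rfl⟩
    have e1 : bridge3_In H (1 - σ (c : F)) := by
      have : 1 - σ (c : F) = σ (c' : F) := by
        rw [← map_one σ, ← h, map_add]; ring
      rw [this]
      exact bridge3_In_map σ ⟨c', hc', rfl⟩
    have hb : ∀ k k', k ≠ k' → bridge3_In H (bridge3_br (p k) (p k')) := fun k k' hk =>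
      bridge3_base_br hm e0 e1 (hp k) (hp k') (hne' k k' hk)
    have c0 : M • p 0 = ∞ := by
      have := hcol 0
      cases hq : M • p 0 with
      | infty => rfl
      | coe x =>
        rw [hq] at this
        simp only [bridge3_col, OnePoint.elim_some] at this
        split_ifs at this <;> simp at this
    have c1 : M • p 1 = ((0 : F) : OnePoint F) := by
      have := hcol 1
      cases hq : M • p 1 with
      | infty => rw [hq] at this; simp [bridge3_col] at this
      | coe x =>
        rw [hq] at this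
        simp only [bridge3_col, OnePoint.elim_some] at this
        split_ifs at this with g1 g2
        · rw [g1]
        · simp at this
        · simp at this
    obtain ⟨a, ha, c2⟩ : ∃ a : F, bridge3_In H a ∧ M • p 2 = (a : OnePoint F) := by
      have := hcol 2
      cases hq : M • p 2 with
      | infty => rw [hq] at this; simp [bridge3_col] at this
      | coe x =>
        rw [hq] at this
        simp only [bridge3_col, OnePoint.elim_some] at this
        split_ifs at this with g1 g2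
        · simp at this
        · exact ⟨x, g2, rfl⟩
        · simp at this
    obtain ⟨b, hb', c3⟩ : ∃ b : F, ¬ bridge3_In H b ∧ M • p 3 = (b : OnePoint F) := by
      have := hcol 3
      cases hq : M • p 3 with
      | infty => rw [hq] at this; simp [bridge3_col] at this
      | coe x =>
        rw [hq] at this
        simp only [bridge3_col, OnePoint.elim_some] at this
        split_ifs at this with g1 g2
        · simp at this
        · simp at this
        · exact ⟨x, g2, rfl⟩
    obtain ⟨l, d, hd, hl, hbr⟩ := bridge3_br_smul M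
    have q02 := hbr (p 0) (p 2)
    have q03 := hbr (p 0) (p 3)
    have q12 := hbr (p 1) (p 2)
    have q13 := hbr (p 1) (p 3)
    rw [c0, c2] at q02
    rw [c0, c3] at q03
    rw [c1, c2] at q12
    rw [c1, c3] at q13
    have b02 := hb 0 2 (by decide)
    have b03 := hb 0 3 (by decide)
    have b12 := hb 1 2 (by decide)
    have b13 := hb 1 3 (by decide)
    generalize bridge3_br (p 0) (p 2) = x02 at q02 b02
    generalize bridge3_br (p 0) (p 3) = x03 at q03 b03
    generalize bridge3_br (p 1) (p 2) = x12 at q12 b12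
    generalize bridge3_br (p 1) (p 3) = x13 at q13 b13
    simp only [bridge3_br, bridge3_r0, bridge3_r1, OnePoint.elim_infty, OnePoint.elim_some,
      mul_one, one_mul, mul_zero, zero_mul, sub_zero, zero_sub] at q02 q03 q12 q13
    have n03 := bridge3_In_ne b03
    have n12 := bridge3_In_ne b12
    have key : b * (x03 * x12) = a * (x02 * x13) := by
      have hl0 := hl (p 0)
      have hl1 := hl (p 1)
      have hl2 := hl (p 2)
      have hl3 := hl (p 3)
      have hn : l (p 0) * l (p 1) * l (p 2) * l (p 3) * d * d ≠ 0 := by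
        simp [hl0, hl1, hl2, hl3, hd]
      apply mul_left_cancel₀ hn
      have t1 : l (p 0) * l (p 1) * l (p 2) * l (p 3) * d * d * (b * (x03 * x12)) =
          b * (l (p 0) * l (p 3) * d * x03) * (l (p 1) * l (p 2) * d * x12) := by ring
      have t2 : l (p 0) * l (p 1) * l (p 2) * l (p 3) * d * d * (a * (x02 * x13)) =
          a * (l (p 0) * l (p 2) * d * x02) * (l (p 1) * l (p 3) * d * x13) := by ring
      rw [t1, t2, ← q02, ← q03, ← q12, ← q13]
      ring
    apply hb'
    have : b = a * (x02 * x13) * (x03 * x12)⁻¹ := by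
      rw [← key]
      field_simp
    rw [this]
    exact bridge3_In_mul (bridge3_In_mul ha (bridge3_In_mul b02 b13))
      (bridge3_In_inv (bridge3_In_mul b03 b12))

theorem card_base [DecidableEq (OnePoint F)] {c : F} (h0 : c ≠ 0) (h1 : c ≠ 1) :
    (base c).card = 4 := by
  unfold base
  rw [card_insert_of_notMem, card_insert_of_notMem, card_insert_of_notMem, card_singleton]
  · simp [h1.symm]
  · simp [h0.symm]
  · simp

end Pool.Agent.P.MP_862e21_al
end

-- part Pool.Agent.P.MP_862e21_al.OCore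
section

namespace Pool.Agent.P.MP_862e21_al

open Finset Pointwise

theorem ocore : ∃ q0 : ℕ, ∀ (F : Type) [Field F] [Fintype F] [DecidableEq F],
    q0 ≤ Fintype.card F → (Fintype.card F).Prime → ∀ (c : F) (A B C : Finset F), OCl c A B C →
      Gen c → A.card ≤ B.card → B.card ≤ C.card →
      A.card + B.card + 2 * C.card ≤ Fintype.card F + 1 → False := by
  obtain ⟨L, hLe⟩ : ∃ L : ℕ, L = 10 ^ 10 := ⟨_, rfl⟩
  obtain ⟨N5, h5⟩ := osparse L
  obtain ⟨k0, N4, h4⟩ := osumProd (L * N5)
  obtain ⟨q1, h3⟩ := odense (N5 + N4 * L)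
  obtain ⟨q2, h6⟩ := obounded (L * N5 * k0)
  refine ⟨max q1 q2, ?_⟩
  intro F _ _ _ hq hp c A B C h hg ab bc hd
  have hq1 : q1 ≤ Fintype.card F := le_trans (le_max_left _ _) hq
  have hq2 : q2 ≤ Fintype.card F := le_trans (le_max_right _ _) hq
  have a1 := h.nA.card_pos
  have c1 := h.nC.card_pos
  by_cases hb : B.card = 1
  · exact osingle h hg (by omega) hb (by omega)
  obtain ⟨x, hx⟩ := h.nA
  obtain ⟨D, hT, hu⟩ := h.chart hx
  rw [← card_ch x B, ← card_ch x C] at hu
  have eB := card_ch x B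
  have eC := card_ch x C
  by_cases hL : L * B.card ≤ C.card
  · exact olongC hp hT (by omega) hu (by omega) (by omega) (by rw [eB, eC, ← hLe]; exact hL)
  by_cases hD : Fintype.card F ≤ (N5 + N4 * L) * B.card
  · exact h3 F hq1 hp c A B C h bc hd hD
  have hD1 : N5 * B.card + N4 * L * B.card < Fintype.card F := by
    rw [← add_mul]; omega
  by_cases hN : N5 * (A.card - 1 + 1) ≤ B.card
  · exact h5 F hp c _ _ D _ hT hu (by omega) (by rw [eB, eC]; omega) (by rw [eB]; exact hN)
      (by rw [eB]; omega)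
  have e : A.card - 1 + 1 = A.card := by omega
  rw [e] at hN
  have hc : C.card ≤ L * N5 * A.card := by
    calc C.card ≤ L * B.card := by omega
      _ ≤ L * (N5 * A.card) := Nat.mul_le_mul_left _ (by omega)
      _ = L * N5 * A.card := by ring
  by_cases hk : k0 ≤ A.card
  · have e1 := h4 F (irrP hp) c A B C h ab bc hc hk
    have e2 : N4 * C.card ≤ N4 * L * B.card := by
      rw [mul_assoc]; exact Nat.mul_le_mul_left _ (by omega)
    omega
  · have e1 : C.card ≤ L * N5 * k0 := le_trans hc (Nat.mul_le_mul_left _ (by omega))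
    exact h6 F hq2 hp c A B C h (by omega) (by omega) e1

/-- a section inside the orbit of the matrices with square determinant -/
theorem psl_section : ∃ q0 : ℕ, ∀ (F : Type) [Field F] [Fintype F] [DecidableEq F]
    [DecidableEq (OnePoint F)], q0 ≤ Fintype.card F → (Fintype.card F).Prime →
      Fintype.card F % 4 = 3 → (∀ c : F, c ≠ 0 → c ≠ 1 → Gen c) →
      ∀ S : Finset (OnePoint F), S.card = 4 →
        ∀ P : Finpartition (univ : Finset (OnePoint F)), P.parts.card = 4 →
          ∃ M : GL (Fin 2) F, Matrix.GeneralLinearGroup.det M = 1 ∧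
            ∀ X ∈ P.parts, (X ∩ S.image (fun x => M • x)).card = 1 := by
  obtain ⟨q1, h1⟩ := coreP
  obtain ⟨q2, h2⟩ := ocore
  refine ⟨max (max q1 q2) 14, ?_⟩
  intro F _ _ _ _ hq hp h4 hgen S hS P hP
  have hq1 : q1 ≤ Fintype.card F := le_trans (le_trans (le_max_left _ _) (le_max_left _ _)) hq
  have hq2 : q2 ≤ Fintype.card F := le_trans (le_trans (le_max_right _ _) (le_max_left _ _)) hq
  have hq3 : 14 ≤ Fintype.card F := le_trans (le_max_right _ _) hq
  have hneg : ¬ IsSquare (-1 : F) := by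
    rw [FiniteField.isSquare_neg_one_iff]; exact not_not.2 h4
  have h3 : ∀ x : F, x ^ 2 - x + 1 ≠ 0 := by
    intro x hx
    have x0 : x ≠ 0 := by rintro rfl; simp at hx
    have x1 : x ≠ 1 := by rintro rfl; simp at hx
    have := gen_pow (hgen x x0 x1) (m := 6) (by norm_num) (char0_six hx).1 (char0_six hx).2
    omega
  have key : ∀ c : F, c ≠ 0 → c ≠ 1 → ∃ M : GL (Fin 2) F, SqDet M ∧
      ∀ X ∈ P.parts, (X ∩ (base c).image (fun x => M • x)).card = 1 := by
    intro c c0 c1
    by_cases hs : IsSquare c ∨ IsSquare (1 - c)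
    · obtain ⟨M, hM⟩ := rainbow c0 c1 (fun A B C h => h1 F hq1 hp c A B C h (hgen c c0 c1)) P hP
      by_cases hd : SqDet M
      · exact ⟨M, hd, hM⟩
      · obtain ⟨V, hV, e⟩ := base_fix hneg c0 c1 hs
        refine ⟨M * V, (sqDet_mul M V).2 (by tauto), fun X hX => ?_⟩
        have : (base c).image (fun x => (M * V) • x) = (base c).image (fun x => M • x) := by
          conv_rhs => rw [e, image_image]
          congr 1
          funext x
          simp [mul_smul]
        rw [this]; exact hM X hX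
    · have hs' : Spl c := ⟨hneg, fun h => hs (Or.inl h), fun h => hs (Or.inr h), h3⟩
      exact orainbow hs' (fun A B C h => h2 F hq2 hp (1 - c) A B C h
        (hgen _ (sub_ne_zero.mpr c1.symm) (by intro e; exact c0 (by linear_combination -e)))) P hP
  have fin : ∀ (M : GL (Fin 2) F) (c : F), c ≠ 0 → c ≠ 1 → SqDet M →
      ∃ M' : GL (Fin 2) F, Matrix.GeneralLinearGroup.det M' = 1 ∧ ∀ X ∈ P.parts,
        (X ∩ ((base c).image (fun x => M • x)).image (fun x => M' • x)).card = 1 := by
    intro M c c0 c1 hM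
    obtain ⟨M1, hd, hM1⟩ := key c c0 c1
    obtain ⟨M', e1, e2⟩ := sq_sl ((sqDet_mul M1 M⁻¹).2 (by rw [sqDet_inv]; tauto))
    refine ⟨M', e1, fun X hX => ?_⟩
    have : ((base c).image (fun x => M • x)).image (fun x => M' • x) =
        (base c).image (fun x => M1 • x) := by
      rw [image_image]
      congr 1
      funext x
      simp [e2, mul_smul]
    rw [this]; exact hM1 X hX
  obtain ⟨M, c, c0, c1, rfl⟩ := three_trans S hS
  by_cases hM : SqDet M
  · exact fin M c c0 c1 hM
  · obtain ⟨V, hV, e⟩ := base_flip hneg c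
    have : (base c).image (fun x => M • x) = (base (1 - c)).image (fun x => (M * V) • x) := by
      rw [e, image_image]
      congr 1
      funext x
      simp [mul_smul]
    rw [this]
    exact fin (M * V) (1 - c) (sub_ne_zero.mpr c1.symm)
      (by intro e; exact c0 (by linear_combination -e)) ((sqDet_mul M V).2 (by tauto))

end Pool.Agent.P.MP_862e21_al
end
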